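import Pool.Agent.H75.BC.RB
import Pool.Agent.H75.BC.Stmts3

/-!
T9 = S_AC from S_Un and S_Dn: Cayley transform and 2x2 amplification (helper69).
-/

set_option autoImplicit false

open MeasureTheory Filter Topology Complex
open scoped InnerProductSpace ENNReal

namespace Pool.Agent.H75.BC.AC

open Pool.Agent.W662.CB Pool.Agent.H75.BC

noncomputable section

variable {H : Type} [NormedAddCommGroup H] [InnerProductSpace ℂ H] [CompleteSpace H]

theorem smul_mem (M : VonNeumannAlgebra H) (c : ℂ) {x : H →L[ℂ] H} (hx : x ∈ M) : c • x ∈ M :=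
  M.toStarSubalgebra.smul_mem hx c

/-- the inverse of an element of `M` belongs to `M` -/
theorem inv_mem (M : VonNeumannAlgebra H) {b c : H →L[ℂ] H} (hb : b ∈ M) (h1 : b * c = 1)
    (h2 : c * b = 1) : c ∈ M := by
  rw [← M.commutant_commutant, VonNeumannAlgebra.mem_commutant_iff]
  intro y hy
  rw [VonNeumannAlgebra.mem_commutant_iff] at hy
  have h3 := hy b hb
  calc y * c = (c * b) * y * c := by rw [h2, one_mul]
    _ = c * (b * y) * c := by rw [mul_assoc c b y]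
    _ = c * (y * b) * c := by rw [h3]
    _ = c * y * (b * c) := by simp only [mul_assoc]
    _ = c * y := by rw [h1, mul_one]

/-- Cayley transform -/
theorem cayley (M : VonNeumannAlgebra H) (a : H →L[ℂ] H) (haM : a ∈ M) (s : ℝ)
    (hs : 0 < s) (h : s * ‖a‖ ≤ 1 / 2) :
    ∃ c : H →L[ℂ] H, c ∈ M ∧ ‖c‖ ≤ 2 ∧ (1 - (I * s) • a) * c = 1 ∧ c * (1 - (I * s) • a) = 1 := by
  have hn : ‖(I * s) • a‖ ≤ 1 / 2 := by
    rw [norm_smul, norm_mul, Complex.norm_I, one_mul, Complex.norm_real, Real.norm_eq_abs,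
      abs_of_pos hs]
    exact h
  have hn1 : ‖(I * s) • a‖ < 1 := by linarith
  let w := Units.oneSub ((I * s) • a) hn1
  have hw : (w : H →L[ℂ] H) = 1 - (I * s) • a := rfl
  have h1 : (1 - (I * s) • a) * (↑w⁻¹ : H →L[ℂ] H) = 1 := by rw [← hw]; exact w.mul_inv
  have h2 : (↑w⁻¹ : H →L[ℂ] H) * (1 - (I * s) • a) = 1 := by rw [← hw]; exact w.inv_mul
  have hbM : (1 - (I * s) • a) ∈ M := sub_mem (one_mem M) (smul_mem M _ haM)
  refine ⟨↑w⁻¹, inv_mem M hbM h1 h2, ?_, h1, h2⟩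
  set c : H →L[ℂ] H := ↑w⁻¹ with hc
  have h3 : c = 1 + ((I * s) • a) * c := by
    rw [sub_mul, one_mul] at h1
    rw [← h1]; abel
  have h4 : ‖c‖ ≤ 1 + 1 / 2 * ‖c‖ := by
    calc ‖c‖ = ‖1 + ((I * s) • a) * c‖ := by rw [← h3]
      _ ≤ ‖(1 : H →L[ℂ] H)‖ + ‖((I * s) • a) * c‖ := norm_add_le _ _
      _ ≤ 1 + 1 / 2 * ‖c‖ := by
          refine add_le_add ContinuousLinearMap.norm_id_le ?_
          exact (norm_mul_le _ _).trans (mul_le_mul_of_nonneg_right hn (norm_nonneg _))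
  linarith

/-- Step 1: self-adjoint elements. -/
theorem step1 (hUn : S_Un) (M : VonNeumannAlgebra H) (ξ : H) (J : H → H) (hξ : ‖ξ‖ = 1)
    (hJa : ∀ x y : H, J (x + y) = J x + J y)
    (hJs : ∀ (c : ℂ) (x : H), J (c • x) = (starRingEnd ℂ c) • J x)
    (hJJ : ∀ x : H, J (J x) = x) (hJi : ∀ x y : H, ⟪J x, J y⟫_ℂ = ⟪y, x⟫_ℂ) (hJξ : J ξ = ξ)
    (hc : ∀ (a b : H →L[ℂ] H) (x : H), a ∈ M → b ∈ M → J (a (J (b x))) = b (J (a (J x))))
    (hp : ∀ a : H →L[ℂ] H, a ∈ M → 0 ≤ (⟪a ξ, J (star a ξ)⟫_ℂ).re)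
    (hd : ∀ (v : H) (δ : ℝ), 0 < δ → ∃ b : H →L[ℂ] H, b ∈ M ∧ ‖b ξ + J (star b ξ) - v‖ ≤ δ)
    (L ε : ℝ) (hL : 0 ≤ L) (hε : 0 < ε) : ∃ δ : ℝ, 0 < δ ∧ ∀ a : H →L[ℂ] H, a ∈ M → star a = a → ‖a‖ ≤ L →
      (∀ x : H →L[ℂ] H, x ∈ M → ‖vst ξ (x * a) - vst ξ (a * x)‖ ≤ δ * ‖x‖) →
      ‖a ξ - J (a ξ)‖ ≤ ε := by
  have hJn : ∀ x : H, ‖J x‖ = ‖x‖ := by
    intro x
    have h1 := hJi x x
    rw [inner_self_eq_norm_sq_to_K, inner_self_eq_norm_sq_to_K] at h1
    have h2 : ‖J x‖ ^ 2 = ‖x‖ ^ 2 := by exact_mod_cast h1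
    exact (sq_eq_sq₀ (norm_nonneg _) (norm_nonneg _)).1 h2
  set s : ℝ := min (1 / (2 * (L + 1))) (ε / (8 * (L + 1) ^ 2)) with hs_def
  have hs : 0 < s := lt_min (by positivity) (by positivity)
  have hs1 : s * (L + 1) ≤ 1 / 2 := by
    have : s ≤ 1 / (2 * (L + 1)) := min_le_left _ _
    rw [le_div_iff₀ (by positivity)] at this
    linarith
  have hs2 : 8 * s * (L + 1) ^ 2 ≤ ε := by
    have : s ≤ ε / (8 * (L + 1) ^ 2) := min_le_right _ _
    rw [le_div_iff₀ (by positivity)] at this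
    linarith
  refine ⟨s ^ 3 * ε ^ 4 / (8 * 10 ^ 4), by positivity, fun a haM ha haL hφ => ?_⟩
  set δ : ℝ := s ^ 3 * ε ^ 4 / (8 * 10 ^ 4) with hδ
  have hδ0 : 0 < δ := by positivity
  have hsa : s * ‖a‖ ≤ 1 / 2 := by
    have : s * ‖a‖ ≤ s * (L + 1) := mul_le_mul_of_nonneg_left (by linarith) hs.le
    linarith
  obtain ⟨c, hcM, hcn, hc1, hc2⟩ := cayley M a haM s hs hsa
  set b : H →L[ℂ] H := 1 - (I * s) • a with hb
  have hbs : star b = 1 + (I * s) • a := by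
    rw [hb, star_sub, star_one, star_smul, ha]
    have : star (I * (s : ℂ)) = -(I * s) := by
      simp [Complex.conj_ofReal]
    rw [this, neg_smul, sub_neg_eq_add]
  have hbb : b + star b = (2 : ℂ) • (1 : H →L[ℂ] H) := by
    rw [hbs, hb, two_smul]; abel
  have hcs1 : star c * star b = 1 := by rw [← star_mul, hc1, star_one]
  have hcs2 : star b * star c = 1 := by rw [← star_mul, hc2, star_one]
  set u : H →L[ℂ] H := (2 : ℂ) • c - 1 with hu
  have huM : u ∈ M := sub_mem (smul_mem M _ hcM) (one_mem M)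
  -- star c * c
  have hcc : star c * c + star c * c = star c + c := by
    have h1 : star c * (b + star b) * c = star c + c := by
      rw [mul_add, add_mul, mul_assoc, hc1, mul_one, hcs1, one_mul]
    rw [hbb] at h1
    rw [← h1]
    simp [two_smul, add_mul, mul_add]
  have hcc2 : c * star c + c * star c = star c + c := by
    have h1 : c * (b + star b) * star c = star c + c := by
      rw [mul_add, add_mul, hc2, one_mul, mul_assoc, hcs2, mul_one]
    rw [hbb] at h1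
    rw [← h1]
    simp [two_smul, add_mul, mul_add]
  have hus : star u = (2 : ℂ) • star c - 1 := by
    rw [hu, star_sub, star_smul, star_one]
    simp
  have huu : star u * u = 1 := by
    rw [hus, hu]
    have : ((2 : ℂ) • star c - 1) * ((2 : ℂ) • c - 1) =
        (2 : ℂ) • (star c * c + star c * c) - (2 : ℂ) • (star c + c) + 1 := by
      simp only [two_smul, sub_mul, mul_sub, add_mul, mul_add, one_mul, mul_one]; abel
    rw [this, hcc]; abel
  have huu' : u * star u = 1 := by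
    rw [hus, hu]
    have : ((2 : ℂ) • c - 1) * ((2 : ℂ) • star c - 1) =
        (2 : ℂ) • (c * star c + c * star c) - (2 : ℂ) • (star c + c) + 1 := by
      simp only [two_smul, sub_mul, mul_sub, add_mul, mul_add, one_mul, mul_one]; abel
    rw [this, hcc2]; abel
  -- commutator of `u` with the state
  have hvsub : ∀ x y : H →L[ℂ] H, vst ξ (x - y) = vst ξ x - vst ξ y := by
    intro x y; simp [vst, inner_sub_right]
  have hvsmul : ∀ (r : ℂ) (x : H →L[ℂ] H), vst ξ (r • x) = r * vst ξ x := by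
    intro r x; simp [vst, inner_smul_right]
  have hcomm : ∀ x : H →L[ℂ] H, x ∈ M → ‖vst ξ (x * u) - vst ξ (u * x)‖ ≤ (8 * s * δ) * ‖x‖ := by
    intro x hx
    have e1 : x * u - u * x = (2 : ℂ) • (x * c - c * x) := by
      rw [hu]
      simp only [two_smul, sub_mul, mul_sub, add_mul, mul_add, one_mul, mul_one]; abel
    have e2 : x * c - c * x = (-(I * s)) • (a * (c * x * c) - (c * x * c) * a) := by
      have h1 : x * c = b * (c * x * c) := by
        rw [← mul_assoc, ← mul_assoc, hc1, one_mul]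
      have h2 : c * x = (c * x * c) * b := by
        rw [mul_assoc, hc2, mul_one]
      have h3 : x * c - c * x = b * (c * x * c) - (c * x * c) * b := by rw [← h1, ← h2]
      rw [h3, hb]
      simp only [sub_mul, mul_sub, one_mul, mul_one, smul_mul_assoc, mul_smul_comm, neg_smul,
        smul_sub]
      abel
    rw [← hvsub, e1, e2, hvsmul, hvsmul, hvsub]
    have hy : c * x * c ∈ M := mul_mem (mul_mem hcM hx) hcM
    have h4 := hφ _ hy
    have h5 : ‖c * x * c‖ ≤ 4 * ‖x‖ := by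
      calc ‖c * x * c‖ ≤ ‖c * x‖ * ‖c‖ := norm_mul_le _ _
        _ ≤ (‖c‖ * ‖x‖) * ‖c‖ := mul_le_mul_of_nonneg_right (norm_mul_le _ _) (norm_nonneg _)
        _ ≤ (2 * ‖x‖) * 2 := by
            refine mul_le_mul (mul_le_mul_of_nonneg_right hcn (norm_nonneg _)) hcn
              (norm_nonneg _) (by positivity)
        _ = 4 * ‖x‖ := by ring
    rw [norm_mul, norm_mul, norm_neg, norm_mul, Complex.norm_I, one_mul, Complex.norm_real,
      Real.norm_eq_abs, abs_of_pos hs, norm_sub_rev]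
    have h6 : ‖(2 : ℂ)‖ = 2 := by simp
    rw [h6]
    have h7 : ‖vst ξ (c * x * c * a) - vst ξ (a * (c * x * c))‖ ≤ δ * (4 * ‖x‖) :=
      h4.trans (mul_le_mul_of_nonneg_left h5 hδ0.le)
    calc 2 * (s * ‖vst ξ (c * x * c * a) - vst ξ (a * (c * x * c))‖)
        ≤ 2 * (s * (δ * (4 * ‖x‖))) := by gcongr
      _ = 8 * s * δ * ‖x‖ := by ring
  have h8 := hUn H M ξ J hξ hJa hJs hJJ hJi hJξ hc hp hd u (8 * s * δ) huM huu huu'
    (by positivity) hcomm
  have h9 : ‖u ξ - J (star u ξ)‖ ≤ s * ε := by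
    have h10 : 10 ^ 4 * (8 * s * δ) = (s * ε) ^ 4 := by
      rw [hδ]; field_simp; try ring
    rw [h10] at h8
    exact le_of_pow_le_pow_left₀ (by norm_num) (by positivity) h8
  -- expansion of u
  set R : H →L[ℂ] H := (2 : ℂ) • (c * (((I * s) • a) * ((I * s) • a))) with hR
  have hexp : u = 1 + (2 * I * s) • a + R := by
    have h1 : c * (((I * s) • a) * ((I * s) • a)) = c - 1 - (I * s) • a := by
      have h2 : ((I * s) • a) * ((I * s) • a) = 1 - b - b * ((I * s) • a) := by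
        rw [hb]
        generalize (I * (s : ℂ)) • a = T
        noncomm_ring
      rw [h2, mul_sub, mul_sub, mul_one, hc2, ← mul_assoc, hc2, one_mul]
    rw [hR, h1, hu, smul_sub, smul_sub, smul_smul]
    have h3 : (2 : ℂ) * (I * s) = 2 * I * s := by ring
    rw [h3, two_smul ℂ (1 : H →L[ℂ] H)]
    abel
  have hRn : ‖R‖ ≤ 4 * s ^ 2 * L ^ 2 := by
    rw [hR, norm_smul]
    have h1 : ‖(I * (s : ℂ)) • a‖ ≤ s * L := by
      rw [norm_smul, norm_mul, Complex.norm_I, one_mul, Complex.norm_real, Real.norm_eq_abs,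
        abs_of_pos hs]
      exact mul_le_mul_of_nonneg_left haL hs.le
    have h2 : ‖c * (((I * s) • a) * ((I * s) • a))‖ ≤ 2 * ((s * L) * (s * L)) := by
      refine (norm_mul_le _ _).trans (mul_le_mul hcn ?_ (norm_nonneg _) (by norm_num))
      exact (norm_mul_le _ _).trans (mul_le_mul h1 h1 (norm_nonneg _) (by positivity))
    have h3 : ‖(2 : ℂ)‖ = 2 := by simp
    rw [h3]
    nlinarith
  have hRv : ‖R ξ‖ ≤ 4 * s ^ 2 * L ^ 2 := by
    have := R.le_opNorm ξ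
    rw [hξ, mul_one] at this
    exact this.trans hRn
  have hRv' : ‖J (star R ξ)‖ ≤ 4 * s ^ 2 * L ^ 2 := by
    rw [hJn]
    have := (star R).le_opNorm ξ
    rw [hξ, mul_one, norm_star] at this
    exact this.trans hRn
  have hid : u ξ - J (star u ξ) = (2 * I * s : ℂ) • (a ξ - J (a ξ)) + (R ξ - J (star R ξ)) := by
    have h1 : star u ξ = ξ + (-(2 * I * s) : ℂ) • a ξ + star R ξ := by
      rw [hexp, star_add, star_add, star_one, star_smul, ha]
      simp [Complex.conj_ofReal]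
    have h2 : u ξ = ξ + (2 * I * s : ℂ) • a ξ + R ξ := by
      rw [hexp]; simp
    rw [h1, h2, hJa, hJa, hJξ, hJs]
    have h3 : (starRingEnd ℂ) (-(2 * I * s)) = 2 * I * s := by
      have h4 : (starRingEnd ℂ) (2 : ℂ) = 2 := map_ofNat _ 2
      rw [map_neg, map_mul, map_mul, h4, Complex.conj_I, Complex.conj_ofReal]
      ring
    rw [h3, smul_sub]
    abel
  have hfin : 2 * s * ‖a ξ - J (a ξ)‖ ≤ s * ε + 8 * s ^ 2 * L ^ 2 := by
    have h1 : (2 * I * s : ℂ) • (a ξ - J (a ξ)) = (u ξ - J (star u ξ)) - (R ξ - J (star R ξ)) := by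
      rw [hid]; abel
    have h2 : ‖(2 * I * s : ℂ) • (a ξ - J (a ξ))‖ = 2 * s * ‖a ξ - J (a ξ)‖ := by
      rw [norm_smul, norm_mul, norm_mul, Complex.norm_I, Complex.norm_real, Real.norm_eq_abs,
        abs_of_pos hs]
      simp
    rw [← h2, h1]
    calc ‖(u ξ - J (star u ξ)) - (R ξ - J (star R ξ))‖
        ≤ ‖u ξ - J (star u ξ)‖ + ‖R ξ - J (star R ξ)‖ := norm_sub_le _ _
      _ ≤ s * ε + (‖R ξ‖ + ‖J (star R ξ)‖) := add_le_add h9 (norm_sub_le _ _)
      _ ≤ s * ε + (4 * s ^ 2 * L ^ 2 + 4 * s ^ 2 * L ^ 2) := by gcongr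
      _ = s * ε + 8 * s ^ 2 * L ^ 2 := by ring
  have h11 : 8 * s ^ 2 * L ^ 2 ≤ s * ε := by
    have h12 : L ^ 2 ≤ (L + 1) ^ 2 := by nlinarith
    have : 8 * s * L ^ 2 ≤ 8 * s * (L + 1) ^ 2 := by gcongr
    nlinarith
  have h13 : 2 * s * ‖a ξ - J (a ξ)‖ ≤ 2 * s * ε := by linarith
  exact le_of_mul_le_mul_left h13 (by positivity)

/-! ### 2x2 amplification -/

abbrev H4 (H : Type) [NormedAddCommGroup H] [InnerProductSpace ℂ H] [CompleteSpace H] : Type :=
  PiLp 2 (fun _ : Fin 2 × Fin 2 => H)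

/-- left multiplication -/
def Lm (a : Fin 2 → Fin 2 → H →L[ℂ] H) : H4 H →L[ℂ] H4 H :=
  ((PiLp.continuousLinearEquiv 2 ℂ (fun _ : Fin 2 × Fin 2 => H)).symm :
    (Fin 2 × Fin 2 → H) →L[ℂ] H4 H) ∘L
    (ContinuousLinearMap.pi fun p => ∑ k, a p.1 k ∘L PiLp.proj 2 (fun _ => H) (k, p.2))

theorem Lm_apply (a : Fin 2 → Fin 2 → H →L[ℂ] H) (v : H4 H) (i j : Fin 2) :
    (Lm a v) (i, j) = ∑ k, a i k (v (k, j)) := by
  simp [Lm]

/-- right multiplication by a matrix unit and an operator -/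
def Rm (y : H →L[ℂ] H) (k l : Fin 2) : H4 H →L[ℂ] H4 H :=
  ((PiLp.continuousLinearEquiv 2 ℂ (fun _ : Fin 2 × Fin 2 => H)).symm :
    (Fin 2 × Fin 2 → H) →L[ℂ] H4 H) ∘L
    (ContinuousLinearMap.pi fun p => if p.2 = l then y ∘L PiLp.proj 2 (fun _ => H) (p.1, k) else 0)

theorem Rm_apply (y : H →L[ℂ] H) (k l : Fin 2) (v : H4 H) (i j : Fin 2) :
    (Rm y k l v) (i, j) = if j = l then y (v (i, k)) else 0 := by
  by_cases h : j = l <;> simp [Rm, h]

/-- embeddings -/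
def inj (p : Fin 2 × Fin 2) : H →L[ℂ] H4 H :=
  ((PiLp.continuousLinearEquiv 2 ℂ (fun _ : Fin 2 × Fin 2 => H)).symm :
    (Fin 2 × Fin 2 → H) →L[ℂ] H4 H) ∘L
    (ContinuousLinearMap.pi fun q => if q = p then ContinuousLinearMap.id ℂ H else 0)

theorem inj_apply (p q : Fin 2 × Fin 2) (v : H) : (inj p v) q = if q = p then v else 0 := by
  by_cases h : q = p <;> simp [inj, h]

theorem inj_norm (p : Fin 2 × Fin 2) (v : H) : ‖inj p v‖ = ‖v‖ := by
  have h : ‖inj p v‖ ^ 2 = ‖v‖ ^ 2 := by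
    rw [PiLp.norm_sq_eq_of_L2]
    simp only [inj_apply]
    rw [Finset.sum_eq_single p]
    · simp
    · intro b _ hb
      simp [hb]
    · intro h; exact absurd (Finset.mem_univ p) h
  exact (sq_eq_sq₀ (norm_nonneg _) (norm_nonneg _)).1 h

theorem ext4 {v w : H4 H} (h : ∀ i j, v (i, j) = w (i, j)) : v = w := by
  apply PiLp.ext
  rintro ⟨i, j⟩
  exact h i j

theorem star_Lm (a : Fin 2 → Fin 2 → H →L[ℂ] H) : star (Lm a) = Lm (fun i k => star (a k i)) := by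
  rw [ContinuousLinearMap.star_eq_adjoint, eq_comm, ContinuousLinearMap.eq_adjoint_iff]
  intro x y
  rw [PiLp.inner_apply, PiLp.inner_apply]
  simp only [Fintype.sum_prod_type, Fin.sum_univ_two, Lm_apply, inner_add_left, inner_add_right,
    ContinuousLinearMap.star_eq_adjoint, ContinuousLinearMap.adjoint_inner_left]
  ring

theorem star_Rm (y : H →L[ℂ] H) (k l : Fin 2) : star (Rm y k l) = Rm (star y) l k := by
  rw [ContinuousLinearMap.star_eq_adjoint, eq_comm, ContinuousLinearMap.eq_adjoint_iff]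
  intro u v
  rw [PiLp.inner_apply, PiLp.inner_apply]
  fin_cases k <;> fin_cases l <;>
  simp [Fintype.sum_prod_type, Fin.sum_univ_two, Rm_apply,
    ContinuousLinearMap.star_eq_adjoint, ContinuousLinearMap.adjoint_inner_left]

/-- the generators of the commutant -/
def RS (M : VonNeumannAlgebra H) : Set (H4 H →L[ℂ] H4 H) :=
  {T | ∃ y : H →L[ℂ] H, y ∈ M.commutant ∧ ∃ k l : Fin 2, T = Rm y k l}

/-- `M_2(M)` acting on `M_2(H)` -/
def M2 (M : VonNeumannAlgebra H) : VonNeumannAlgebra (H4 H) where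
  __ := StarSubalgebra.centralizer ℂ (RS M)
  centralizer_centralizer' := Set.centralizer_centralizer_centralizer _

theorem mem_M2 {M : VonNeumannAlgebra H} {x : H4 H →L[ℂ] H4 H} :
    x ∈ M2 M ↔ ∀ g ∈ RS M, g * x = x * g ∧ star g * x = x * star g :=
  StarSubalgebra.mem_centralizer_iff ℂ

theorem Lm_mem {M : VonNeumannAlgebra H} {a : Fin 2 → Fin 2 → H →L[ℂ] H} (ha : ∀ i j, a i j ∈ M) :
    Lm a ∈ M2 M := by
  have key : ∀ y : H →L[ℂ] H, y ∈ M.commutant → ∀ k l : Fin 2, Rm y k l * Lm a = Lm a * Rm y k l := by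
    intro y hy k l
    rw [VonNeumannAlgebra.mem_commutant_iff] at hy
    ext v : 1
    apply ext4
    intro i j
    rw [mul_apply_eq_comp, mul_apply_eq_comp, Rm_apply, Lm_apply, Lm_apply]
    simp only [Rm_apply]
    by_cases hj : j = l
    · simp only [hj, if_true, map_sum]
      refine Finset.sum_congr rfl fun m _ => ?_
      have := congrArg (fun T : H →L[ℂ] H => T (v (m, k))) (hy (a i m) (ha i m))
      exact this.symm
    · simp [hj]
  rw [mem_M2]
  rintro g ⟨y, hy, k, l, rfl⟩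
  refine ⟨key y hy k l, ?_⟩
  rw [star_Rm]
  exact key (star y) (star_mem hy) l k

theorem sum_inj (w : H4 H) : w = ∑ k, ∑ m, inj (k, m) (w (k, m)) := by
  apply ext4
  intro i j
  have h1 : (∑ k, ∑ m, inj (k, m) (w (k, m))) (i, j) =
      ∑ k, ∑ m, (inj (k, m) (w (k, m))) (i, j) := by
    simp [Fin.sum_univ_two]
  rw [h1]
  simp only [inj_apply, Fin.sum_univ_two, Prod.mk.injEq]
  fin_cases i <;> fin_cases j <;> simp

theorem of_mem {M : VonNeumannAlgebra H} {x : H4 H →L[ℂ] H4 H} (hx : x ∈ M2 M) :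
    ∃ a : Fin 2 → Fin 2 → H →L[ℂ] H, (∀ i j, a i j ∈ M) ∧ (∀ i j, ‖a i j‖ ≤ ‖x‖) ∧ x = Lm a := by
  rw [mem_M2] at hx
  set a : Fin 2 → Fin 2 → H →L[ℂ] H := fun i k =>
    PiLp.proj 2 (fun _ => H) (i, 0) ∘L x ∘L inj (k, 0) with ha
  have ha' : ∀ i k v, a i k v = (x (inj (k, 0) v)) (i, 0) := by
    intro i k v; simp [ha]
  have hR : ∀ (y : H →L[ℂ] H), y ∈ M.commutant → ∀ (k l : Fin 2) (v : H4 H),
      x (Rm y k l v) = Rm y k l (x v) := by
    intro y hy k l v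
    have := congrArg (fun T : H4 H →L[ℂ] H4 H => T v) (hx _ ⟨y, hy, k, l, rfl⟩).1
    exact this.symm
  have h1 : ∀ (y : H →L[ℂ] H) (k m : Fin 2) (v : H), inj (k, m) (y v) = Rm y 0 m (inj (k, 0) v) := by
    intro y k m v
    apply ext4
    intro i j
    rw [inj_apply, Rm_apply, inj_apply]
    by_cases hj : j = m
    · by_cases hi : i = k
      · simp [hi, hj]
      · simp [hi, hj]
    · simp [hj]
  refine ⟨a, ?_, ?_, ?_⟩
  · intro i k
    rw [← M.commutant_commutant, VonNeumannAlgebra.mem_commutant_iff]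
    intro y hy
    ext v
    rw [mul_apply_eq_comp, mul_apply_eq_comp, ha', ha', h1, hR y hy,
      Rm_apply]
    simp
  · intro i k
    refine ContinuousLinearMap.opNorm_le_bound _ (norm_nonneg _) fun v => ?_
    rw [ha']
    calc ‖(x (inj (k, 0) v)) (i, 0)‖ ≤ ‖x (inj (k, 0) v)‖ := PiLp.norm_apply_le _ _
      _ ≤ ‖x‖ * ‖inj (k, 0) v‖ := x.le_opNorm _
      _ = ‖x‖ * ‖v‖ := by rw [inj_norm]
  · ext w : 1
    apply ext4
    intro i j
    rw [Lm_apply]
    have h2 : ∀ k m (v : H), (x (inj (k, m) v)) (i, j) = if j = m then a i k v else 0 := by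
      intro k m v
      have h3 : inj (k, m) v = Rm 1 0 m (inj (k, 0) v) := by
        have := h1 1 k m v
        simpa using this
      rw [h3, hR 1 (one_mem _), Rm_apply, ha']
      simp
    conv_lhs => rw [sum_inj w]
    rw [map_sum]
    simp only [map_sum]
    have h4 : (∑ k, ∑ m, x (inj (k, m) (w (k, m)))) (i, j) =
        ∑ k, ∑ m, (x (inj (k, m) (w (k, m)))) (i, j) := by
      simp [Fin.sum_univ_two]
    rw [h4]
    simp only [h2, Fin.sum_univ_two]
    fin_cases j <;> simp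


/-- the conjugation of `M_2(H)` -/
def J2 (J : H → H) (v : H4 H) : H4 H := WithLp.toLp 2 (fun p : Fin 2 × Fin 2 => J (v (p.2, p.1)))

theorem J2_apply (J : H → H) (v : H4 H) (i j : Fin 2) : (J2 J v) (i, j) = J (v (j, i)) := rfl

/-- the vector -/
def Om (w : Fin 2 → ℝ) (ξ : H) : H4 H :=
  WithLp.toLp 2 (fun p : Fin 2 × Fin 2 => if p.1 = p.2 then ((w p.1 : ℝ) : ℂ) • ξ else 0)

theorem Om_apply (w : Fin 2 → ℝ) (ξ : H) (i j : Fin 2) :
    (Om w ξ) (i, j) = if i = j then ((w i : ℝ) : ℂ) • ξ else 0 := rfl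

theorem Lm_Om (w : Fin 2 → ℝ) (ξ : H) (b : Fin 2 → Fin 2 → H →L[ℂ] H) (i j : Fin 2) :
    (Lm b (Om w ξ)) (i, j) = ((w j : ℝ) : ℂ) • b i j ξ := by
  rw [Lm_apply]
  simp only [Om_apply]
  rw [Finset.sum_eq_single j]
  · simp
  · intro k _ hk
    simp [hk]
  · intro h; exact absurd (Finset.mem_univ j) h

theorem ac (hUn : S_Un) (hDn : S_Dn) : S_AC := by
  intro H _ _ _ M ξ U J ρ hξ hcyc hsep hU hR c L ε hc hε
  obtain ⟨hpos, hdens⟩ := hDn H M ξ U J ρ hξ hcyc hsep hU hR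
  -- weights
  set q : ℝ := Real.sqrt (1 + c ^ 2) with hq
  have hq0 : 0 < q := Real.sqrt_pos.2 (by positivity)
  have hq2 : q ^ 2 = 1 + c ^ 2 := Real.sq_sqrt (by positivity)
  set w : Fin 2 → ℝ := ![c / q, 1 / q] with hw
  have hw0 : w 0 = c / q := rfl
  have hw1 : w 1 = 1 / q := rfl
  have hwpos : ∀ i, 0 < w i := by
    intro i; fin_cases i
    · change 0 < w 0; rw [hw0]; positivity
    · change 0 < w 1; rw [hw1]; positivity
  have hwsum : w 0 ^ 2 + w 1 ^ 2 = 1 := by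
    rw [hw0, hw1, div_pow, div_pow, hq2]; field_simp; ring
  have hwle : ∀ i, w i ≤ 1 := by
    intro i; fin_cases i
    · change w 0 ≤ 1; nlinarith [hwpos 0, hwpos 1]
    · change w 1 ≤ 1; nlinarith [hwpos 0, hwpos 1]
  have hcw : w 0 = c * w 1 := by rw [hw0, hw1]; ring
  set Ω : H4 H := Om w ξ with hΩ
  have hJn : ∀ x : H, ‖J x‖ = ‖x‖ := RB.J_norm hR
  have hΩn : ‖Ω‖ = 1 := by
    have : ‖Ω‖ ^ 2 = 1 ^ 2 := by
      rw [PiLp.norm_sq_eq_of_L2, Fintype.sum_prod_type]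
      simp only [Fin.sum_univ_two, hΩ, Om_apply]
      simp [norm_smul, hξ, hwsum]
    exact (sq_eq_sq₀ (norm_nonneg _) (by norm_num)).1 this
  have hΩa : ∀ (b : Fin 2 → Fin 2 → H →L[ℂ] H) (i j : Fin 2),
      (Lm b Ω) (i, j) = ((w j : ℝ) : ℂ) • b i j ξ := Lm_Om w ξ
  -- J (a (J (b x))) = b (J (a (J x)))
  have hJc : ∀ (a b : H →L[ℂ] H) (x : H), a ∈ M → b ∈ M → J (a (J (b x))) = b (J (a (J x))) := by
    intro a b x ha hb
    have h1 := hR.comm (star a) b (star_mem ha) hb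
    have h2 := congrArg (fun T : H →L[ℂ] H => T x) h1
    simp only [mul_apply_eq_comp] at h2
    rw [hR.act, hR.act, star_star] at h2
    exact h2
  have hJsum : ∀ f : Fin 2 → H, J (∑ k, f k) = ∑ k, J (f k) := by
    intro f; rw [Fin.sum_univ_two, Fin.sum_univ_two, hR.J_add]
  have h_add : ∀ x y : H4 H, J2 J (x + y) = J2 J x + J2 J y := by
    intro x y
    apply ext4
    intro i j
    rw [J2_apply, PiLp.add_apply, PiLp.add_apply, J2_apply, J2_apply, hR.J_add]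
  have h_smul : ∀ (r : ℂ) (x : H4 H), J2 J (r • x) = (starRingEnd ℂ r) • J2 J x := by
    intro r x
    apply ext4
    intro i j
    rw [J2_apply, PiLp.smul_apply, PiLp.smul_apply, J2_apply, hR.J_smul]
  have h_inv : ∀ x : H4 H, J2 J (J2 J x) = x := by
    intro x
    apply ext4
    intro i j
    rw [J2_apply, J2_apply, hR.J_inv]
  have h_inner : ∀ x y : H4 H, ⟪J2 J x, J2 J y⟫_ℂ = ⟪y, x⟫_ℂ := by
    intro x y
    rw [PiLp.inner_apply, PiLp.inner_apply]
    simp only [Fintype.sum_prod_type, Fin.sum_univ_two, J2_apply, hR.J_inner]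
    ring
  have h_fix : J2 J Ω = Ω := by
    apply ext4
    intro i j
    rw [J2_apply, hΩ, Om_apply, Om_apply]
    by_cases h : i = j
    · subst h
      simp only [if_true]
      rw [hR.J_smul, hR.J_fix, Complex.conj_ofReal]
    · have h' : ¬ j = i := fun e => h e.symm
      simp only [h, h', if_false]
      exact RB.J_zero hR
  have h_comm : ∀ (a b : H4 H →L[ℂ] H4 H) (x : H4 H), a ∈ M2 M → b ∈ M2 M →
      J2 J (a (J2 J (b x))) = b (J2 J (a (J2 J x))) := by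
    intro a b x ha hb
    obtain ⟨α, hα, -, rfl⟩ := of_mem ha
    obtain ⟨β, hβ, -, rfl⟩ := of_mem hb
    apply ext4
    intro i j
    rw [J2_apply, Lm_apply, Lm_apply]
    simp only [J2_apply, Lm_apply]
    simp only [hJsum, map_sum]
    rw [Finset.sum_comm]
    refine Finset.sum_congr rfl fun l _ => ?_
    refine Finset.sum_congr rfl fun k _ => ?_
    exact hJc _ _ _ (hα _ _) (hβ _ _)
  have hJL : ∀ (b : Fin 2 → Fin 2 → H →L[ℂ] H) (i j : Fin 2),
      (J2 J (star (Lm b) Ω)) (i, j) = ((w i : ℝ) : ℂ) • ρ (b i j) ξ := by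
    intro b i j
    rw [J2_apply, star_Lm, hΩa, hR.J_smul, Complex.conj_ofReal, RB.ρ_ξ hR]
  have h_pos : ∀ a : H4 H →L[ℂ] H4 H, a ∈ M2 M → 0 ≤ (⟪a Ω, J2 J (star a Ω)⟫_ℂ).re := by
    intro a ha
    obtain ⟨α, hα, -, rfl⟩ := of_mem ha
    rw [PiLp.inner_apply, Complex.re_sum]
    refine Finset.sum_nonneg fun p _ => ?_
    obtain ⟨i, j⟩ := p
    rw [hΩa, hJL, inner_smul_left, inner_smul_right, Complex.conj_ofReal, ← mul_assoc,
      ← Complex.ofReal_mul, Complex.re_ofReal_mul]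
    exact mul_nonneg (mul_nonneg (hwpos j).le (hwpos i).le) (hpos _ (hα i j))
  have h_dens : ∀ (v : H4 H) (δ : ℝ), 0 < δ → ∃ b : H4 H →L[ℂ] H4 H, b ∈ M2 M ∧
      ‖b Ω + J2 J (star b Ω) - v‖ ≤ δ := by
    intro v δ hδ
    have h1 : ∀ i j : Fin 2, ∃ b : H →L[ℂ] H, b ∈ M ∧
        ‖b ξ + ((w i / w j : ℝ) : ℂ) • ρ b ξ - (((w j)⁻¹ : ℝ) : ℂ) • v (i, j)‖ ≤ δ / 2 :=
      fun i j => hdens (w i / w j) _ (δ / 2) (div_pos (hwpos i) (hwpos j)) (by positivity)
    choose b hbM hb using h1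
    refine ⟨Lm b, Lm_mem hbM, ?_⟩
    have h2 : ∀ i j, ‖(Lm b Ω + J2 J (star (Lm b) Ω) - v) (i, j)‖ ≤ δ / 2 := by
      intro i j
      rw [PiLp.sub_apply, PiLp.add_apply, hΩa, hJL]
      have hwj : ((w j : ℝ) : ℂ) ≠ 0 := by exact_mod_cast (hwpos j).ne'
      have h3 : ((w j : ℝ) : ℂ) • b i j ξ + ((w i : ℝ) : ℂ) • ρ (b i j) ξ - v (i, j) =
          ((w j : ℝ) : ℂ) • (b i j ξ + ((w i / w j : ℝ) : ℂ) • ρ (b i j) ξ -
            (((w j)⁻¹ : ℝ) : ℂ) • v (i, j)) := by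
        rw [smul_sub, smul_add, smul_smul, smul_smul]
        have e1 : ((w j : ℝ) : ℂ) * ((w i / w j : ℝ) : ℂ) = ((w i : ℝ) : ℂ) := by
          push_cast; field_simp
        have e2 : ((w j : ℝ) : ℂ) * (((w j)⁻¹ : ℝ) : ℂ) = 1 := by
          push_cast; field_simp
        rw [e1, e2, one_smul]
      rw [h3, norm_smul, Complex.norm_real, Real.norm_eq_abs, abs_of_pos (hwpos j)]
      calc w j * _ ≤ 1 * (δ / 2) := mul_le_mul (hwle j) (hb i j) (norm_nonneg _) (by norm_num)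
        _ = δ / 2 := one_mul _
    have h4 : ‖Lm b Ω + J2 J (star (Lm b) Ω) - v‖ ^ 2 ≤ δ ^ 2 := by
      rw [PiLp.norm_sq_eq_of_L2, Fintype.sum_prod_type]
      simp only [Fin.sum_univ_two]
      have h5 : ∀ i j, ‖(Lm b Ω + J2 J (star (Lm b) Ω) - v) (i, j)‖ ^ 2 ≤ (δ / 2) ^ 2 :=
        fun i j => pow_le_pow_left₀ (norm_nonneg _) (h2 i j) 2
      have := h5 0 0; have := h5 0 1; have := h5 1 0; have := h5 1 1
      nlinarith
    exact abs_le_of_sq_le_sq' h4 hδ.le |>.2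
  -- bound on the norm
  obtain ⟨δ, hδ, hmain⟩ := step1 hUn (M2 M) Ω (J2 J) hΩn h_add h_smul h_inv h_inner h_fix h_comm
    h_pos h_dens (|L|) (w 1 * ε) (abs_nonneg _) (mul_pos (hwpos 1) hε)
  refine ⟨δ / 2, by positivity, fun a haM haL hφ => ?_⟩
  -- homogeneous version of the hypothesis
  have hφ' : ∀ x : H →L[ℂ] H, x ∈ M →
      ‖vst ξ (x * a) - ((c ^ 2 : ℝ) : ℂ) * vst ξ (a * x)‖ ≤ δ / 2 * ‖x‖ := by
    intro x hx
    by_cases hx0 : x = 0
    · subst hx0; simp [vst]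
    have hxn : 0 < ‖x‖ := norm_pos_iff.2 hx0
    have h1 := hφ (((‖x‖⁻¹ : ℝ) : ℂ) • x) (smul_mem M _ hx) (by
      rw [norm_smul, Complex.norm_real, Real.norm_eq_abs, abs_of_pos (inv_pos.2 hxn),
        inv_mul_cancel₀ hxn.ne'])
    have h2 : vst ξ ((((‖x‖⁻¹ : ℝ) : ℂ) • x) * a) - ((c ^ 2 : ℝ) : ℂ) *
        vst ξ (a * (((‖x‖⁻¹ : ℝ) : ℂ) • x)) =
        ((‖x‖⁻¹ : ℝ) : ℂ) * (vst ξ (x * a) - ((c ^ 2 : ℝ) : ℂ) * vst ξ (a * x)) := by
      simp only [vst, smul_mul_assoc, mul_smul_comm, smul_apply,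
        inner_smul_right]
      ring
    rw [h2, norm_mul, Complex.norm_real, Real.norm_eq_abs, abs_of_pos (inv_pos.2 hxn),
      inv_mul_le_iff₀ hxn] at h1
    linarith
  set α : Fin 2 → Fin 2 → H →L[ℂ] H := ![![0, a], ![star a, 0]] with hα
  have hα00 : α 0 0 = 0 := rfl
  have hα01 : α 0 1 = a := rfl
  have hα10 : α 1 0 = star a := rfl
  have hα11 : α 1 1 = 0 := rfl
  have hαM : ∀ i j, α i j ∈ M := by
    intro i j
    fin_cases i <;> fin_cases j
    · exact zero_mem M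
    · exact haM
    · exact star_mem haM
    · exact zero_mem M
  have hαs : star (Lm α) = Lm α := by
    rw [star_Lm]
    congr 1
    funext i j
    fin_cases i <;> fin_cases j
    · change star (α 0 0) = α 0 0; rw [hα00, star_zero]
    · change star (α 1 0) = α 0 1; rw [hα10, hα01, star_star]
    · change star (α 0 1) = α 1 0; rw [hα10, hα01]
    · change star (α 1 1) = α 1 1; rw [hα11, star_zero]
  have hαn : ‖Lm α‖ ≤ |L| := by
    refine ContinuousLinearMap.opNorm_le_bound _ (abs_nonneg _) fun v => ?_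
    have hLa : ‖a‖ ≤ |L| := haL.trans (le_abs_self L)
    have h1 : ‖Lm α v‖ ^ 2 ≤ (|L| * ‖v‖) ^ 2 := by
      rw [mul_pow, PiLp.norm_sq_eq_of_L2, PiLp.norm_sq_eq_of_L2 _ v, Fintype.sum_prod_type,
        Fintype.sum_prod_type]
      simp only [Fin.sum_univ_two, Lm_apply, hα00, hα01, hα10, hα11,
        zero_apply, zero_add, add_zero]
      have h2 : ∀ x : H, ‖a x‖ ^ 2 ≤ |L| ^ 2 * ‖x‖ ^ 2 := by
        intro x
        rw [← mul_pow]
        exact pow_le_pow_left₀ (norm_nonneg _) ((a.le_opNorm x).trans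
          (mul_le_mul_of_nonneg_right hLa (norm_nonneg _))) 2
      have h3 : ∀ x : H, ‖star a x‖ ^ 2 ≤ |L| ^ 2 * ‖x‖ ^ 2 := by
        intro x
        rw [← mul_pow]
        refine pow_le_pow_left₀ (norm_nonneg _) (((star a).le_opNorm x).trans
          (mul_le_mul_of_nonneg_right ?_ (norm_nonneg _))) 2
        rw [norm_star]; exact hLa
      have := h2 (v (1, 0)); have := h2 (v (1, 1)); have := h3 (v (0, 0)); have := h3 (v (0, 1))
      nlinarith
    exact abs_le_of_sq_le_sq' h1 (by positivity) |>.2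
  have hst : ∀ x : H →L[ℂ] H, vst ξ (star x) = starRingEnd ℂ (vst ξ x) := by
    intro x
    simp only [vst]
    rw [inner_conj_symm, ContinuousLinearMap.star_eq_adjoint,
      ContinuousLinearMap.adjoint_inner_right]
  have hv2 : ∀ β γ : Fin 2 → Fin 2 → H →L[ℂ] H, vst Ω (Lm β * Lm γ) =
      ∑ i, ((w i ^ 2 : ℝ) : ℂ) * ∑ k, vst ξ (β i k * γ k i) := by
    intro β γ
    simp only [vst]
    rw [PiLp.inner_apply, Fintype.sum_prod_type]
    refine Finset.sum_congr rfl fun i _ => ?_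
    rw [Finset.sum_eq_single i]
    · rw [mul_apply_eq_comp, Lm_apply]
      simp only [hΩa]
      rw [hΩ, Om_apply]
      simp only [if_true, map_smul, ← Finset.smul_sum]
      rw [inner_smul_left, inner_smul_right, inner_sum, Complex.conj_ofReal, ← mul_assoc]
      push_cast
      rw [← pow_two]
      rfl
    · intro j _ hj
      have : ¬ i = j := fun e => hj e.symm
      rw [hΩ, Om_apply, if_neg this, inner_zero_left]
    · intro h; exact absurd (Finset.mem_univ i) h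
  have hcom : ∀ x : H4 H →L[ℂ] H4 H, x ∈ M2 M →
      ‖vst Ω (x * Lm α) - vst Ω (Lm α * x)‖ ≤ δ * ‖x‖ := by
    intro x hx
    obtain ⟨χ, hχM, hχn, rfl⟩ := of_mem hx
    rw [hv2, hv2]
    simp only [Fin.sum_univ_two, hα00, hα01, hα10, hα11, mul_zero, zero_mul]
    have hz : vst ξ 0 = 0 := by simp [vst]
    rw [hz]
    have e1 : star (star (χ 0 1) * a) = star a * χ 0 1 := by rw [star_mul, star_star]
    have e2 : star (a * star (χ 0 1)) = χ 0 1 * star a := by rw [star_mul, star_star]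
    have e3 : vst ξ (star a * χ 0 1) = starRingEnd ℂ (vst ξ (star (χ 0 1) * a)) := by
      rw [← hst, e1]
    have e4 : vst ξ (χ 0 1 * star a) = starRingEnd ℂ (vst ξ (a * star (χ 0 1))) := by
      rw [← hst, e2]
    have h1 := hφ' (χ 1 0) (hχM 1 0)
    have h2 := hφ' (star (χ 0 1)) (star_mem (hχM 0 1))
    rw [norm_star] at h2
    have hw02 : ((w 0 ^ 2 : ℝ) : ℂ) = ((w 1 ^ 2 : ℝ) : ℂ) * ((c ^ 2 : ℝ) : ℂ) := by
      rw [hcw]; push_cast; ring
    have e5 : (((w 0 ^ 2 : ℝ) : ℂ) * (0 + vst ξ (χ 0 1 * star a)) +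
        ((w 1 ^ 2 : ℝ) : ℂ) * (vst ξ (χ 1 0 * a) + 0)) -
        (((w 0 ^ 2 : ℝ) : ℂ) * (0 + vst ξ (a * χ 1 0)) +
        ((w 1 ^ 2 : ℝ) : ℂ) * (vst ξ (star a * χ 0 1) + 0)) =
        ((w 1 ^ 2 : ℝ) : ℂ) * (vst ξ (χ 1 0 * a) - ((c ^ 2 : ℝ) : ℂ) * vst ξ (a * χ 1 0)) -
        ((w 1 ^ 2 : ℝ) : ℂ) * starRingEnd ℂ (vst ξ (star (χ 0 1) * a) -
          ((c ^ 2 : ℝ) : ℂ) * vst ξ (a * star (χ 0 1))) := by
      rw [e3, e4, hw02, map_sub, map_mul, Complex.conj_ofReal]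
      ring
    rw [e5]
    have hw12 : w 1 ^ 2 ≤ 1 := by nlinarith [hwpos 0]
    have hn : ‖((w 1 ^ 2 : ℝ) : ℂ)‖ ≤ 1 := by
      rw [Complex.norm_real, Real.norm_eq_abs, abs_of_nonneg (by positivity)]
      exact hw12
    have b1 : δ / 2 * ‖χ 1 0‖ ≤ δ / 2 * ‖Lm χ‖ :=
      mul_le_mul_of_nonneg_left (hχn 1 0) (by positivity)
    have b2 : δ / 2 * ‖χ 0 1‖ ≤ δ / 2 * ‖Lm χ‖ :=
      mul_le_mul_of_nonneg_left (hχn 0 1) (by positivity)
    refine (norm_sub_le _ _).trans ?_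
    rw [norm_mul, norm_mul, RCLike.norm_conj]
    have c1 := mul_le_mul hn h1 (norm_nonneg _) (by norm_num : (0 : ℝ) ≤ 1)
    have c2 := mul_le_mul hn h2 (norm_nonneg _) (by norm_num : (0 : ℝ) ≤ 1)
    rw [one_mul] at c1 c2
    linarith
  have hend := hmain (Lm α) (Lm_mem hαM) hαs hαn hcom
  have h01 : (Lm α Ω - J2 J (Lm α Ω)) (0, 1) = ((w 1 : ℝ) : ℂ) • (a ξ - (c : ℂ) • ρ a ξ) := by
    have h1 : J2 J (Lm α Ω) = J2 J (star (Lm α) Ω) := by rw [hαs]
    rw [h1, PiLp.sub_apply, hΩa, hJL, hα01, hcw, smul_sub, smul_smul]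
    push_cast
    rw [mul_comm (c : ℂ)]
  have h2 := (PiLp.norm_apply_le (Lm α Ω - J2 J (Lm α Ω)) (0, 1)).trans hend
  rw [h01, norm_smul, Complex.norm_real, Real.norm_eq_abs, abs_of_pos (hwpos 1)] at h2
  exact le_of_mul_le_mul_left h2 (hwpos 1)

theorem un_of (h : S_Un') : S_Un := by
  intro H _ _ _ M ξ J h1 h2 h3 h4 h5 h6 h7 h8 h9 u ε h10 h11 h12 h13 h14
  exact h H M.toStarSubalgebra ξ J h1 h2 h3 h4 h5 h6 h7 h8 h9 u ε h10 h11 h12 h13 h14

/-- K4 -/
theorem ac' (hUn : S_Un') (hDn : S_Dn) : S_AC := ac (un_of hUn) hDn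

end

end Pool.Agent.H75.BC.AC
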