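import Pool.Agent.H75.BC.RB

/-!
T8a (helper56): approximate eigenvectors of `Δ^{1/2}` are approximate eigenvectors of `U_t`.
-/

set_option autoImplicit false

open MeasureTheory Filter Topology Complex
open scoped InnerProductSpace ENNReal

namespace Pool.Agent.H75.BC.AnT

open Pool.Agent.W662.CB Pool.Agent.H75.BC

noncomputable section

/-- `1 / cosh (π s)` -/
def se (s : ℝ) : ℝ := (Real.cosh (Real.pi * s))⁻¹

theorem se_pos (s : ℝ) : 0 < se s := inv_pos.2 (Real.cosh_pos _)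

theorem se_cont : Continuous se :=
  (Real.continuous_cosh.comp (continuous_const.mul continuous_id)).inv₀ fun _ => (Real.cosh_pos _).ne'

theorem cosh_ge (s : ℝ) : 1 + s ^ 2 ≤ Real.cosh (Real.pi * s) := by
  have h1 : Real.cosh (Real.pi * s) = 1 + 2 * Real.sinh (Real.pi * s / 2) ^ 2 := by
    have := Real.cosh_two_mul (Real.pi * s / 2)
    rw [show 2 * (Real.pi * s / 2) = Real.pi * s by ring, Real.cosh_sq] at this
    linarith
  have h2 : |Real.pi * s / 2| ≤ |Real.sinh (Real.pi * s / 2)| := by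
    rcases le_total 0 (Real.pi * s / 2) with h | h
    · rw [abs_of_nonneg h, abs_of_nonneg (Real.sinh_nonneg_iff.2 h)]
      exact Real.self_le_sinh_iff.2 h
    · rw [abs_of_nonpos h, abs_of_nonpos (Real.sinh_nonpos_iff.2 h)]
      exact neg_le_neg (Real.sinh_le_self_iff.2 h)
  have h3 : (Real.pi * s / 2) ^ 2 ≤ Real.sinh (Real.pi * s / 2) ^ 2 := sq_le_sq.2 h2
  have h4 : (1 / 2 : ℝ) * s ^ 2 ≤ (Real.pi * s / 2) ^ 2 := by
    have : (Real.pi * s / 2) ^ 2 = Real.pi ^ 2 / 4 * s ^ 2 := by ring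
    rw [this]
    have h5 : (1 / 2 : ℝ) ≤ Real.pi ^ 2 / 4 := by nlinarith [Real.pi_gt_three]
    exact mul_le_mul_of_nonneg_right h5 (sq_nonneg s)
  rw [h1]
  linarith

theorem se_int : Integrable se := by
  refine (integrable_inv_one_add_sq).mono' se_cont.aestronglyMeasurable (ae_of_all _ fun s => ?_)
  rw [Real.norm_eq_abs, abs_of_pos (se_pos s)]
  exact inv_anti₀ (by positivity) (cosh_ge s)

theorem se_S : 0 < ∫ s, se s := by
  rw [integral_pos_iff_support_of_nonneg (fun s => (se_pos s).le) se_int]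
  have : Function.support se = Set.univ := by
    ext s
    simp [(se_pos s).ne']
  rw [this]
  simp

theorem se_shift (t s : ℝ) : se (t - s) ≤ 2 * Real.cosh (Real.pi * t) * se s := by
  unfold se
  have h1 : Real.cosh (Real.pi * s) ≤
      2 * Real.cosh (Real.pi * t) * Real.cosh (Real.pi * (t - s)) := by
    have e : Real.pi * s = Real.pi * t - Real.pi * (t - s) := by ring
    rw [e, Real.cosh_sub]
    have h2 := Real.cosh_pos (Real.pi * t)
    have h3 := Real.cosh_pos (Real.pi * (t - s))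
    have h4 : |Real.sinh (Real.pi * t)| ≤ Real.cosh (Real.pi * t) :=
      abs_le_of_sq_le_sq (by rw [Real.cosh_sq]; linarith) h2.le
    have h5 : |Real.sinh (Real.pi * (t - s))| ≤ Real.cosh (Real.pi * (t - s)) :=
      abs_le_of_sq_le_sq (by rw [Real.cosh_sq]; linarith) h3.le
    have h6 : -(Real.sinh (Real.pi * t) * Real.sinh (Real.pi * (t - s))) ≤
        Real.cosh (Real.pi * t) * Real.cosh (Real.pi * (t - s)) := by
      refine (neg_le_abs _).trans ?_
      rw [abs_mul]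
      exact mul_le_mul h4 h5 (abs_nonneg _) h2.le
    linarith
  have h2 := Real.cosh_pos (Real.pi * s)
  have h3 := Real.cosh_pos (Real.pi * (t - s))
  rw [inv_eq_one_div, inv_eq_one_div, div_le_iff₀ h3]
  rw [show 2 * Real.cosh (Real.pi * t) * (1 / Real.cosh (Real.pi * s)) * Real.cosh (Real.pi * (t - s))
    = (2 * Real.cosh (Real.pi * t) * Real.cosh (Real.pi * (t - s))) / Real.cosh (Real.pi * s) by ring]
  rw [le_div_iff₀ h2, one_mul]
  exact h1

variable {H : Type} [NormedAddCommGroup H] [InnerProductSpace ℂ H] [CompleteSpace H]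
  {M : VonNeumannAlgebra H} {ξ : H} {U : ℝ → H →L[ℂ] H} {J : H → H}
  {ρ : (H →L[ℂ] H) → (H →L[ℂ] H)}

theorem U_inner (hU : IsModular M ξ U) (t : ℝ) (x y : H) : ⟪U t x, y⟫_ℂ = ⟪x, U (-t) y⟫_ℂ := by
  rw [← hU.star_eq, ContinuousLinearMap.star_eq_adjoint, ContinuousLinearMap.adjoint_inner_right]

theorem U_U (hU : IsModular M ξ U) (s t : ℝ) (x : H) : U s (U t x) = U (s + t) x := by
  rw [hU.add]; rfl

theorem U_norm (hU : IsModular M ξ U) (t : ℝ) (x : H) : ‖U t x‖ = ‖x‖ := by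
  have h1 : ⟪U t x, U t x⟫_ℂ = ⟪x, x⟫_ℂ := by
    rw [U_inner hU, U_U hU, neg_add_cancel, hU.zero]; rfl
  rw [inner_self_eq_norm_sq_to_K, inner_self_eq_norm_sq_to_K] at h1
  have h2 : ‖U t x‖ ^ 2 = ‖x‖ ^ 2 := by exact_mod_cast h1
  exact (sq_eq_sq₀ (norm_nonneg _) (norm_nonneg _)).1 h2

/-- the phase -/
def ph (c s : ℝ) : ℂ := Complex.exp (-2 * I * s * Real.log c)

theorem ph_norm (c s : ℝ) : ‖ph c s‖ = 1 := by
  unfold ph
  rw [Complex.norm_exp]
  simp

theorem ph_add (c s t : ℝ) : ph c (s + t) = ph c s * ph c t := by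
  unfold ph
  rw [← Complex.exp_add]
  congr 1
  push_cast; ring

theorem ph_cont (c : ℝ) : Continuous (ph c) := by
  unfold ph
  fun_prop

theorem ph_conj (c s : ℝ) : (starRingEnd ℂ) (ph c s) = Complex.exp (2 * I * s * Real.log c) := by
  unfold ph
  rw [← Complex.exp_conj]
  congr 1
  rw [map_mul, map_mul, map_mul, map_neg, Complex.conj_I, Complex.conj_ofReal, Complex.conj_ofReal,
    Complex.conj_ofNat]
  ring

/-- the defect -/
def df (U : ℝ → H →L[ℂ] H) (c : ℝ) (v : H) (s : ℝ) : ℝ := ‖U s v - ph c s • v‖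

theorem df_cont (hU : IsModular M ξ U) (c : ℝ) (v : H) : Continuous (df U c v) :=
  ((hU.cont v).sub ((ph_cont c).smul continuous_const)).norm

theorem df_add (hU : IsModular M ξ U) (c : ℝ) (v : H) (s t : ℝ) :
    df U c v t ≤ df U c v s + df U c v (t - s) := by
  unfold df
  have e : U t v - ph c t • v = U s (U (t - s) v - ph c (t - s) • v) +
      ph c (t - s) • (U s v - ph c s • v) := by
    rw [map_sub, map_smul, U_U hU, show s + (t - s) = t by ring, smul_sub, smul_smul, ← ph_add,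
      show t - s + s = t by ring]
    abel
  rw [e]
  refine (norm_add_le _ _).trans ?_
  rw [U_norm hU, norm_smul, ph_norm, one_mul, add_comm]

theorem df_le (hU : IsModular M ξ U) (c : ℝ) (v : H) (s : ℝ) : df U c v s ≤ 2 * ‖v‖ := by
  unfold df
  refine (norm_sub_le _ _).trans ?_
  rw [U_norm hU, norm_smul, ph_norm]
  linarith

theorem df_sq (hU : IsModular M ξ U) (c : ℝ) (v : H) (s : ℝ) :
    df U c v s ^ 2 = 2 * ‖v‖ ^ 2 - 2 * (Complex.exp (2 * I * s * Real.log c) * ⟪v, U s v⟫_ℂ).re := by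
  unfold df
  rw [@norm_sub_sq ℂ, U_norm hU, norm_smul, ph_norm, one_mul, inner_smul_right]
  have e : RCLike.re (ph c s * ⟪U s v, v⟫_ℂ) =
      (Complex.exp (2 * I * s * Real.log c) * ⟪v, U s v⟫_ℂ).re := by
    rw [← ph_conj]
    have : ph c s * ⟪U s v, v⟫_ℂ = (starRingEnd ℂ) ((starRingEnd ℂ) (ph c s) * ⟪v, U s v⟫_ℂ) := by
      rw [map_mul, Complex.conj_conj, inner_conj_symm]
    rw [this]
    exact Complex.conj_re _
  rw [e]
  ring

/-- the pointwise estimate follows from the averaged one -/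
theorem pointwise (hU : IsModular M ξ U) (c : ℝ) (v : H) (D t : ℝ) (hD : 0 ≤ D)
    (h : ∫ s, df U c v s ^ 2 * se s ≤ 2 * D ^ 2 * ∫ s, se s) :
    df U c v t ≤ Real.sqrt (4 + 8 * Real.cosh (Real.pi * t)) * D := by
  have hS := se_S
  have hc2 : Continuous fun s => df U c v s ^ 2 := (df_cont hU c v).pow 2
  have hb : ∀ s, ‖df U c v s ^ 2‖ ≤ (2 * ‖v‖) ^ 2 := by
    intro s
    rw [Real.norm_eq_abs, abs_of_nonneg (sq_nonneg _)]
    exact pow_le_pow_left₀ (norm_nonneg _) (df_le hU c v s) 2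
  have i1 : Integrable fun s => df U c v s ^ 2 * se s := by
    have := se_int.bdd_mul (c := (2 * ‖v‖) ^ 2) hc2.aestronglyMeasurable (ae_of_all _ hb)
    exact this
  have i2 : Integrable fun s => df U c v (t - s) ^ 2 * se s := by
    have hc3 : Continuous fun s => df U c v (t - s) ^ 2 :=
      hc2.comp (continuous_const.sub continuous_id)
    have := se_int.bdd_mul (c := (2 * ‖v‖) ^ 2) hc3.aestronglyMeasurable
      (ae_of_all _ fun s => hb (t - s))
    exact this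
  have h1 : ∀ s, df U c v t ^ 2 * se s ≤
      2 * (df U c v s ^ 2 * se s) + 2 * (df U c v (t - s) ^ 2 * se s) := by
    intro s
    have h2 := df_add hU c v s t
    have h3 : df U c v t ^ 2 ≤ 2 * df U c v s ^ 2 + 2 * df U c v (t - s) ^ 2 := by
      have h4 : df U c v t ^ 2 ≤ (df U c v s + df U c v (t - s)) ^ 2 :=
        pow_le_pow_left₀ (norm_nonneg _) h2 2
      nlinarith [sq_nonneg (df U c v s - df U c v (t - s))]
    have := mul_le_mul_of_nonneg_right h3 (se_pos s).le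
    linarith
  have h5 : ∫ s, df U c v (t - s) ^ 2 * se s ≤
      2 * Real.cosh (Real.pi * t) * ∫ s, df U c v s ^ 2 * se s := by
    have e : ∫ s, df U c v (t - s) ^ 2 * se s = ∫ s, df U c v s ^ 2 * se (t - s) := by
      rw [← integral_sub_left_eq_self (fun s => df U c v s ^ 2 * se (t - s)) volume t]
      congr 1
      ext s
      rw [show t - (t - s) = s by ring]
    rw [e, ← integral_const_mul]
    apply integral_mono_of_nonneg (ae_of_all _ fun s => mul_nonneg (sq_nonneg _) (se_pos _).le)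
      (i1.const_mul _)
    refine ae_of_all _ fun s => ?_
    show df U c v s ^ 2 * se (t - s) ≤ 2 * Real.cosh (Real.pi * t) * (df U c v s ^ 2 * se s)
    have := mul_le_mul_of_nonneg_left (se_shift t s) (sq_nonneg (df U c v s))
    linarith
  have h6 : df U c v t ^ 2 * ∫ s, se s ≤
      2 * (∫ s, df U c v s ^ 2 * se s) + 2 * ∫ s, df U c v (t - s) ^ 2 * se s := by
    rw [← integral_const_mul, ← integral_const_mul, ← integral_const_mul,
      ← integral_add (i1.const_mul _) (i2.const_mul _)]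
    exact integral_mono (se_int.const_mul _) ((i1.const_mul _).add (i2.const_mul _)) h1
  have hch := Real.cosh_pos (Real.pi * t)
  have h7 : df U c v t ^ 2 * ∫ s, se s ≤
      ((4 + 8 * Real.cosh (Real.pi * t)) * D ^ 2) * ∫ s, se s := by
    have h8 : 2 * (∫ s, df U c v s ^ 2 * se s) + 2 * ∫ s, df U c v (t - s) ^ 2 * se s ≤
        (2 + 4 * Real.cosh (Real.pi * t)) * ∫ s, df U c v s ^ 2 * se s := by linarith
    have h9 : (2 + 4 * Real.cosh (Real.pi * t)) * ∫ s, df U c v s ^ 2 * se s ≤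
        (2 + 4 * Real.cosh (Real.pi * t)) * (2 * D ^ 2 * ∫ s, se s) :=
      mul_le_mul_of_nonneg_left h (by linarith)
    calc _ ≤ _ := h6
      _ ≤ _ := h8
      _ ≤ _ := h9
      _ = _ := by ring
  have h10 : df U c v t ^ 2 ≤ (4 + 8 * Real.cosh (Real.pi * t)) * D ^ 2 :=
    le_of_mul_le_mul_right h7 hS
  have h11 : df U c v t = Real.sqrt (df U c v t ^ 2) := (Real.sqrt_sq (norm_nonneg _)).symm
  rw [h11]
  calc Real.sqrt (df U c v t ^ 2) ≤ Real.sqrt ((4 + 8 * Real.cosh (Real.pi * t)) * D ^ 2) :=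
        Real.sqrt_le_sqrt h10
    _ = _ := by rw [Real.sqrt_mul (by linarith), Real.sqrt_sq hD]

/-- the exact identity for analytic elements, as an inequality -/
theorem averaged (hA2 : S_A2) (hPoi : S_Poi) (hU : IsModular M ξ U) (hR : RAct M ξ U J ρ)
    (c : ℝ) (hc : 0 < c) (A : ℂ → H →L[ℂ] H) (hA : IsAn M U A) :
    ∫ s, df U c (A 0 ξ) s ^ 2 * se s ≤
      2 * ‖A 0 ξ - (c : ℂ) • ρ (A 0) ξ‖ ^ 2 * ∫ s, se s := by
  set a : H →L[ℂ] H := A 0 with ha
  set v : H := a ξ with hv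
  set w : H := ρ a ξ with hw
  have hw' : w = J (star a ξ) := RB.ρ_ξ hR a
  have haM : a ∈ M := hA.mem 0
  have hstar : ∀ x y : H, ⟪x, star a y⟫_ℂ = ⟪a x, y⟫_ℂ := fun x y => by
    rw [ContinuousLinearMap.star_eq_adjoint, ContinuousLinearMap.adjoint_inner_right]
  have hstar' : ∀ x y : H, ⟪star a x, y⟫_ℂ = ⟪x, a y⟫_ℂ := fun x y => by
    rw [ContinuousLinearMap.star_eq_adjoint, ContinuousLinearMap.adjoint_inner_left]
  -- the function
  set G : ℂ → ℂ := fun z => Complex.exp (2 * I * z * Real.log c) * ⟪ξ, A z (star a ξ)⟫_ℂ with hG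
  have hGd : Differentiable ℂ G := by
    have h1 : Differentiable ℂ fun z : ℂ => ⟪ξ, A z (star a ξ)⟫_ℂ :=
      (innerSL ℂ ξ).differentiable.comp (hA.diff (star a ξ))
    have h2 : Differentiable ℂ fun z : ℂ => Complex.exp (2 * I * z * Real.log c) := by fun_prop
    exact h2.mul h1
  have hbd : ∃ C : ℝ, ∀ z : ℂ, 0 ≤ z.im → z.im ≤ 1 → ‖G z‖ ≤ C := by
    obtain ⟨C, hC⟩ := hA.bdd 1
    refine ⟨Real.exp (2 * |Real.log c|) * (‖ξ‖ * (C * ‖star a ξ‖)), fun z h0 h1 => ?_⟩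
    rw [hG, norm_mul, Complex.norm_exp]
    have e : (2 * I * z * Real.log c).re = -2 * z.im * Real.log c := by
      have : 2 * I * z * Real.log c = ((2 * Real.log c : ℝ) : ℂ) * (I * z) := by push_cast; ring
      rw [this, Complex.re_ofReal_mul, Complex.I_mul_re]
      ring
    rw [e]
    have h2 : -2 * z.im * Real.log c ≤ 2 * |Real.log c| := by
      have h3 : -2 * z.im * Real.log c ≤ |-2 * z.im * Real.log c| := le_abs_self _
      have h4 : |-2 * z.im * Real.log c| = 2 * (z.im * |Real.log c|) := by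
        rw [abs_mul, abs_mul, abs_of_nonneg h0]
        norm_num
        ring
      have h5 : z.im * |Real.log c| ≤ 1 * |Real.log c| :=
        mul_le_mul_of_nonneg_right h1 (abs_nonneg _)
      linarith
    have h6 : ‖⟪ξ, A z (star a ξ)⟫_ℂ‖ ≤ ‖ξ‖ * (C * ‖star a ξ‖) := by
      refine (norm_inner_le_norm _ _).trans (mul_le_mul_of_nonneg_left ?_ (norm_nonneg _))
      refine (ContinuousLinearMap.le_opNorm _ _).trans (mul_le_mul_of_nonneg_right ?_ (norm_nonneg _))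
      apply hC
      rw [abs_of_nonneg h0]
      exact h1
    exact mul_le_mul (Real.exp_le_exp.2 h2) h6 (norm_nonneg _) (Real.exp_pos _).le
  have hP := hPoi G hGd.continuous.continuousOn hGd.differentiableOn hbd
  -- boundary values
  have hb0 : ∀ s : ℝ, G s = Complex.exp (2 * I * s * Real.log c) * ⟪w, U s w⟫_ℂ := by
    intro s
    show Complex.exp (2 * I * s * Real.log c) * ⟪ξ, A s (star a ξ)⟫_ℂ = _
    rw [hA.ext s, ← ha]
    congr 1
    unfold sgm
    rw [hU.star_eq]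
    show ⟪ξ, U s (a (U (-s) (star a ξ)))⟫_ℂ = _
    have h1 : ⟪ξ, U s (a (U (-s) (star a ξ)))⟫_ℂ = ⟪U (-s) ξ, a (U (-s) (star a ξ))⟫_ℂ := by
      rw [U_inner hU, neg_neg]
    rw [h1, hU.fix, ← hstar', hw', ← hR.J_U, hR.J_inner, U_inner hU]
  have hb1 : ∀ s : ℝ, ((c ^ 2 : ℝ) : ℂ) * G (s + I) =
      Complex.exp (2 * I * s * Real.log c) * ⟪v, U s v⟫_ℂ := by
    intro s
    show ((c ^ 2 : ℝ) : ℂ) * (Complex.exp (2 * I * (s + I) * Real.log c) *
      ⟪ξ, A (s + I) (star a ξ)⟫_ℂ) = _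
    have h1 : Complex.exp (2 * I * (s + I) * Real.log c) =
        Complex.exp (2 * I * s * Real.log c) * (((c ^ 2)⁻¹ : ℝ) : ℂ) := by
      have e : 2 * I * (s + I) * Real.log c = 2 * I * s * Real.log c + ((-(2 * Real.log c) : ℝ) : ℂ) := by
        have : 2 * I * ((s : ℂ) + I) * Real.log c = 2 * I * s * Real.log c + 2 * (I * I) * Real.log c := by
          ring
        rw [this, I_mul_I]
        push_cast
        ring
      rw [e, Complex.exp_add, ← Complex.ofReal_exp]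
      congr 2
      rw [Real.exp_neg, show 2 * Real.log c = Real.log (c ^ 2) by
        rw [Real.log_pow]; norm_num, Real.exp_log (by positivity)]
    have h2 : ⟪ξ, A (s + I) (star a ξ)⟫_ℂ = ⟪v, U s v⟫_ℂ := by
      have h3 := hA2 H M ξ U hU A hA (s + I) (star a) (star_mem haM)
      rw [show (s : ℂ) + I - I = s by ring] at h3
      have h4 : vst ξ (A (s + I) * star a) = ⟪ξ, A (s + I) (star a ξ)⟫_ℂ := rfl
      have h5 : vst ξ (star a * A s) = ⟪ξ, star a (A s ξ)⟫_ℂ := rfl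
      rw [← h4, h3, h5, hstar, hA.ext s, ← ha]
      unfold sgm
      rw [hU.star_eq]
      show ⟪a ξ, U s (a (U (-s) ξ))⟫_ℂ = _
      rw [hU.fix]
    rw [h1, h2]
    have hc2 : ((c ^ 2 : ℝ) : ℂ) * (((c ^ 2)⁻¹ : ℝ) : ℂ) = 1 := by
      rw [← Complex.ofReal_mul, mul_inv_cancel₀ (by positivity), Complex.ofReal_one]
    calc ((c ^ 2 : ℝ) : ℂ) * (Complex.exp (2 * I * s * Real.log c) * (((c ^ 2)⁻¹ : ℝ) : ℂ) *
          ⟪v, U s v⟫_ℂ) = (((c ^ 2 : ℝ) : ℂ) * (((c ^ 2)⁻¹ : ℝ) : ℂ)) *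
          (Complex.exp (2 * I * s * Real.log c) * ⟪v, U s v⟫_ℂ) := by ring
      _ = _ := by rw [hc2, one_mul]
  have hb2 : (c : ℂ) * G (I / 2) = ⟪v, w⟫_ℂ := by
    show (c : ℂ) * (Complex.exp (2 * I * (I / 2) * Real.log c) * ⟪ξ, A (I / 2) (star a ξ)⟫_ℂ) = _
    have h1 : Complex.exp (2 * I * (I / 2) * Real.log c) = ((c⁻¹ : ℝ) : ℂ) := by
      have e : 2 * I * (I / 2) * Real.log c = ((-(Real.log c) : ℝ) : ℂ) := by
        have : 2 * I * (I / 2) * (Real.log c : ℂ) = (I * I) * Real.log c := by ring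
        rw [this, I_mul_I]
        push_cast
        ring
      rw [e, ← Complex.ofReal_exp, Real.exp_neg, Real.exp_log hc]
    have h2 : ⟪ξ, A (I / 2) (star a ξ)⟫_ℂ = ⟪v, w⟫_ℂ := by
      have h3 := hA2 H M ξ U hU A hA (I / 2) (star a) (star_mem haM)
      rw [show I / 2 - I = -(I / 2) by ring] at h3
      have h4 : vst ξ (A (I / 2) * star a) = ⟪ξ, A (I / 2) (star a ξ)⟫_ℂ := rfl
      have h5 : vst ξ (star a * A (-(I / 2))) = ⟪ξ, star a (A (-(I / 2)) ξ)⟫_ℂ := rfl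
      rw [← h4, h3, h5, hstar, ← hR.an A hA]
    rw [h1, h2]
    have hc2 : (c : ℂ) ≠ 0 := by exact_mod_cast hc.ne'
    push_cast
    field_simp
  set D : ℝ := ‖v - (c : ℂ) • w‖ with hD
  have hDsq : D ^ 2 = ‖v‖ ^ 2 + c ^ 2 * ‖w‖ ^ 2 - 2 * (c * (⟪v, w⟫_ℂ).re) := by
    rw [hD, @norm_sub_sq ℂ, norm_smul, inner_smul_right]
    have e1 : RCLike.re ((c : ℂ) * ⟪v, w⟫_ℂ) = c * (⟪v, w⟫_ℂ).re := by
      simp
    rw [e1, Complex.norm_real, Real.norm_eq_abs, abs_of_pos hc]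
    ring
  -- pointwise identity
  have hid : ∀ s : ℝ, (df U c v s ^ 2 + c ^ 2 * df U c w s ^ 2 - 2 * D ^ 2) * se s =
      -2 * c ^ 2 * ((G s + G (s + I) - 2 * G (I / 2)) * ((Real.cosh (Real.pi * s))⁻¹ : ℝ)).re := by
    intro s
    have e1 : ((G s + G (s + I) - 2 * G (I / 2)) * ((Real.cosh (Real.pi * s))⁻¹ : ℝ)).re =
        ((G s).re + (G (s + I)).re - 2 * (G (I / 2)).re) * se s := by
      rw [Complex.re_mul_ofReal]
      simp [se]
    rw [e1, df_sq hU, df_sq hU, hDsq, ← hb0 s, ← hb1 s, ← hb2]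
    have e2 : (((c ^ 2 : ℝ) : ℂ) * G (s + I)).re = c ^ 2 * (G (s + I)).re := Complex.re_ofReal_mul _ _
    have e3 : ((c : ℂ) * G (I / 2)).re = c * (G (I / 2)).re := Complex.re_ofReal_mul _ _
    rw [e2, e3]
    ring
  -- integrate
  have hGb : ∀ s : ℝ, ‖G s + G (s + I) - 2 * G (I / 2)‖ ≤ 4 * hbd.choose := by
    intro s
    have h1 := hbd.choose_spec s (by simp) (by simp)
    have h2 := hbd.choose_spec (s + I) (by simp) (by simp)
    have h3 := hbd.choose_spec (I / 2) (by simp) (by simp; norm_num)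
    have h4 : ‖2 * G (I / 2)‖ ≤ 2 * hbd.choose := by
      rw [norm_mul]
      simpa using mul_le_mul_of_nonneg_left h3 (by norm_num : (0 : ℝ) ≤ 2)
    calc _ ≤ ‖G s + G (s + I)‖ + ‖2 * G (I / 2)‖ := norm_sub_le _ _
      _ ≤ (‖G s‖ + ‖G (s + I)‖) + ‖2 * G (I / 2)‖ := by
        have := norm_add_le (G s) (G (s + I))
        linarith
      _ ≤ _ := by linarith
  have hKi : Integrable fun s : ℝ => (G s + G (s + I) - 2 * G (I / 2)) *
      (((Real.cosh (Real.pi * s))⁻¹ : ℝ) : ℂ) := by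
    have hcont : Continuous fun s : ℝ => G s + G (s + I) - 2 * G (I / 2) := by
      have := hGd.continuous
      fun_prop
    exact (se_int.ofReal (𝕜 := ℂ)).bdd_mul (c := 4 * hbd.choose) hcont.aestronglyMeasurable
      (ae_of_all _ hGb)
  have hint : ∫ s : ℝ, (df U c v s ^ 2 + c ^ 2 * df U c w s ^ 2 - 2 * D ^ 2) * se s = 0 := by
    simp only [hid]
    rw [integral_const_mul]
    have h1 : ∫ s : ℝ, ((G s + G (s + I) - 2 * G (I / 2)) * ((Real.cosh (Real.pi * s))⁻¹ : ℝ)).re =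
        (∫ s : ℝ, (G s + G (s + I) - 2 * G (I / 2)) * ((Real.cosh (Real.pi * s))⁻¹ : ℝ)).re :=
      integral_re hKi
    rw [h1, hP]
    simp
  have hb : ∀ (x : H) (s : ℝ), ‖df U c x s ^ 2‖ ≤ (2 * ‖x‖) ^ 2 := by
    intro x s
    rw [Real.norm_eq_abs, abs_of_nonneg (sq_nonneg _)]
    exact pow_le_pow_left₀ (norm_nonneg _) (df_le hU c x s) 2
  have ii : ∀ x : H, Integrable fun s => df U c x s ^ 2 * se s := fun x =>
    se_int.bdd_mul (c := (2 * ‖x‖) ^ 2) ((df_cont hU c x).pow 2).aestronglyMeasurable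
      (ae_of_all _ (hb x))
  have hsplit : ∫ s : ℝ, (df U c v s ^ 2 + c ^ 2 * df U c w s ^ 2 - 2 * D ^ 2) * se s =
      (∫ s, df U c v s ^ 2 * se s) + c ^ 2 * (∫ s, df U c w s ^ 2 * se s) -
        2 * D ^ 2 * ∫ s, se s := by
    have e1 : ∫ s : ℝ, (df U c v s ^ 2 * se s + c ^ 2 * (df U c w s ^ 2 * se s)) =
        (∫ s, df U c v s ^ 2 * se s) + ∫ s, c ^ 2 * (df U c w s ^ 2 * se s) :=
      integral_add (ii v) ((ii w).const_mul _)
    have e2 : ∫ s : ℝ, ((df U c v s ^ 2 * se s + c ^ 2 * (df U c w s ^ 2 * se s)) -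
        2 * D ^ 2 * se s) =
        (∫ s : ℝ, (df U c v s ^ 2 * se s + c ^ 2 * (df U c w s ^ 2 * se s))) -
          ∫ s : ℝ, 2 * D ^ 2 * se s :=
      integral_sub ((ii v).add ((ii w).const_mul _)) (se_int.const_mul _)
    rw [integral_const_mul] at e1
    rw [integral_const_mul, e1] at e2
    rw [← e2]
    congr 1
    ext s
    ring
  have hnn : 0 ≤ ∫ s, df U c w s ^ 2 * se s :=
    integral_nonneg fun s => mul_nonneg (sq_nonneg _) (se_pos s).le
  have : 0 ≤ c ^ 2 * ∫ s, df U c w s ^ 2 * se s := mul_nonneg (sq_nonneg _) hnn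
  linarith

end

end Pool.Agent.H75.BC.AnT

namespace Pool.Agent.H75.BC

open Pool.Agent.W662.CB

/-- T8a -/
theorem s_An (hA2 : S_A2) (hApx : S_Apx) (hPoi : S_Poi) : S_An := by
  intro H _ _ _ M ξ U J ρ h1 hU hR c t hc
  refine ⟨Real.sqrt (4 + 8 * Real.cosh (Real.pi * t)), fun a ha => ?_⟩
  obtain ⟨F, hF, -, hF1, hF2⟩ := hApx H M ξ U hU a ha
  have key : ∀ n, ‖U t (F n 0 ξ) - Complex.exp (-2 * I * t * Real.log c) • F n 0 ξ‖ ≤
      Real.sqrt (4 + 8 * Real.cosh (Real.pi * t)) * ‖F n 0 ξ - (c : ℂ) • ρ (F n 0) ξ‖ := fun n =>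
    AnT.pointwise hU c (F n 0 ξ) _ t (norm_nonneg _)
      (AnT.averaged hA2 hPoi hU hR c hc (F n) (hF n))
  have l1 : Tendsto (fun n => F n 0 ξ) atTop (𝓝 (a ξ)) := hF1 ξ
  have l2 : Tendsto (fun n => ρ (F n 0) ξ) atTop (𝓝 (ρ a ξ)) := by
    have h2 := hF2 ξ
    rw [tendsto_iff_norm_sub_tendsto_zero] at h2 ⊢
    refine h2.congr fun n => ?_
    rw [RB.ρ_ξ hR, RB.ρ_ξ hR, ← RB.J_sub hR, RB.J_norm hR]
  have l3 : Tendsto (fun n => ‖U t (F n 0 ξ) - Complex.exp (-2 * I * t * Real.log c) • F n 0 ξ‖)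
      atTop (𝓝 ‖U t (a ξ) - Complex.exp (-2 * I * t * Real.log c) • a ξ‖) :=
    ((((U t).continuous.tendsto _).comp l1).sub (l1.const_smul _)).norm
  have l4 : Tendsto (fun n => Real.sqrt (4 + 8 * Real.cosh (Real.pi * t)) *
      ‖F n 0 ξ - (c : ℂ) • ρ (F n 0) ξ‖) atTop
      (𝓝 (Real.sqrt (4 + 8 * Real.cosh (Real.pi * t)) * ‖a ξ - (c : ℂ) • ρ a ξ‖)) :=
    ((l1.sub (l2.const_smul _)).norm).const_mul _
  exact le_of_tendsto_of_tendsto' l3 l4 key

end Pool.Agent.H75.BC
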