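import Pool.Agent.H75.BC.Stmts2
import Pool.Agent.H75.L.W883.CB.A8a

/-!
T0a: *-strong approximation by analytic elements (helper83).
-/

set_option autoImplicit false

open MeasureTheory Filter Topology Complex
open scoped InnerProductSpace ENNReal

namespace Pool.Agent.H75.BC

open Pool.Agent.W662.CB Pool.Agent.W883.CB

theorem pApx : S_Apx := by
  intro H _ _ _ M ξ U hm a ha
  refine ⟨fun n => Fo hm a ((n : ℝ) + 1) (by positivity), fun n => Fo_an hm a ha _ _, fun n => ?_,
    fun v => ?_, fun v => ?_⟩
  · refine (Fo_norm hm a _ _ 0).trans ?_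
    simp
  · simp only [Fo_apply]
    have h1 := tendsto_Iv _ (sgm_cont hm a v) _ (sgm_bd hm a v)
    have h2 : sgm U 0 a v = a v := by
      rw [sgm_apply hm, neg_zero, hm.zero]
      rfl
    rw [h2] at h1
    exact h1
  · have h3 : ∀ n : ℕ, star (Fo hm a ((n : ℝ) + 1) (by positivity) 0) =
        Fo hm (star a) ((n : ℝ) + 1) (by positivity) 0 := by
      intro n
      have := Fo_star hm a ((n : ℝ) + 1) (by positivity) 0
      rwa [map_zero] at this
    simp only [h3, Fo_apply]
    have h1 := tendsto_Iv _ (sgm_cont hm (star a) v) _ (sgm_bd hm (star a) v)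
    have h2 : sgm U 0 (star a) v = star a v := by
      rw [sgm_apply hm, neg_zero, hm.zero]
      rfl
    rw [h2] at h1
    exact h1

end Pool.Agent.H75.BC
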