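import Pool.Agent.H75.BC.T.Mm
import Pool.Agent.H75.BC.Stmts3

/-!
K1: the inequality of Bures, Araki and Powers-Stormer: `S_Bur`, from the minimax lemma.
-/

set_option autoImplicit false

open Filter Topology
open scoped InnerProductSpace

namespace Pool.Agent.H75.BC.Bur

variable {H : Type} [NormedAddCommGroup H] [InnerProductSpace ℂ H] [CompleteSpace H]

/-- A vector dominated by `ξ` is the image of `ξ` under a contraction of the commutant. -/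
theorem exists_comm (M : StarSubalgebra ℂ (H →L[ℂ] H)) (ξ ζ : H) (h : ∀ y ∈ M, ‖y ζ‖ ≤ ‖y ξ‖) :
    ∃ t : H →L[ℂ] H, (∀ x : H →L[ℂ] H, x ∈ M → t * x = x * t) ∧ ‖t‖ ≤ 1 ∧ t ξ = ζ := by
  let S : Submodule ℂ (H →L[ℂ] H) := Subalgebra.toSubmodule M.toSubalgebra
  have hS : ∀ y, y ∈ S ↔ y ∈ M := fun y => Iff.rfl
  let ev : H → (H →L[ℂ] H) →ₗ[ℂ] H := fun v => (ContinuousLinearMap.apply ℂ H v).toLinearMap
  have hev : ∀ v y, ev v y = y v := fun v y => rfl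
  let V : Submodule ℂ H := S.map (ev ξ)
  let e : (S × Vᗮ) →ₗ[ℂ] H := LinearMap.coprod ((ev ξ).comp S.subtype) (Vᗮ.subtype)
  let f : (S × Vᗮ) →ₗ[ℂ] H := ((ev ζ).comp S.subtype).comp (LinearMap.fst ℂ S Vᗮ)
  have he : ∀ (y : S) (w : Vᗮ), e (y, w) = (y : H →L[ℂ] H) ξ + w := fun y w => rfl
  have hf : ∀ (y : S) (w : Vᗮ), f (y, w) = (y : H →L[ℂ] H) ζ := fun y w => rfl
  have hdense : DenseRange e := by
    have h1 : V ⊔ Vᗮ ≤ LinearMap.range e := by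
      rw [sup_le_iff]
      constructor
      · rintro _ ⟨y, hy, rfl⟩
        exact ⟨(⟨y, hy⟩, 0), by simp [he, hev]⟩
      · intro w hw
        exact ⟨(0, ⟨w, hw⟩), by simp [he]⟩
    have h2 : (LinearMap.range e)ᗮ = ⊥ := by
      rw [eq_bot_iff]
      refine (Submodule.orthogonal_le h1).trans ?_
      intro x hx
      have hx1 : x ∈ Vᗮ := Submodule.orthogonal_le le_sup_left hx
      have hx2 : x ∈ Vᗮᗮ := Submodule.orthogonal_le le_sup_right hx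
      have := (Submodule.mem_orthogonal _ _).1 hx2 x hx1
      simpa using this
    have h3 := Submodule.topologicalClosure_eq_top_iff.2 h2
    intro x
    have : x ∈ (LinearMap.range e).topologicalClosure := by rw [h3]; trivial
    rwa [← SetLike.mem_coe, Submodule.topologicalClosure_coe] at this
  have hnorm : ∀ x, ‖f x‖ ≤ 1 * ‖e x‖ := by
    rintro ⟨y, w⟩
    rw [he, hf, one_mul]
    refine (h y ((hS _).1 y.2)).trans ?_
    have horth : ⟪(y : H →L[ℂ] H) ξ, (w : H)⟫_ℂ = 0 :=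
      (Submodule.mem_orthogonal _ _).1 w.2 _ ⟨y, y.2, rfl⟩
    have h1 := norm_add_sq_eq_norm_sq_add_norm_sq_of_inner_eq_zero ((y : H →L[ℂ] H) ξ) (w : H) horth
    refine le_of_sq_le_sq ?_ (norm_nonneg _)
    nlinarith [mul_self_nonneg ‖(w : H)‖]
  let t := f.extendOfNorm e
  have ht : ∀ x, t (e x) = f x := LinearMap.extendOfNorm_eq hdense ⟨1, hnorm⟩
  refine ⟨t, ?_, ?_, ?_⟩
  · intro g hg
    have hVg : ∀ w ∈ Vᗮ, g w ∈ Vᗮ := by
      intro w hw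
      rw [Submodule.mem_orthogonal]
      rintro _ ⟨y, hy, rfl⟩
      rw [hev, ← ContinuousLinearMap.adjoint_inner_left]
      have : star g * y ∈ M := mul_mem (star_mem hg) ((hS _).1 hy)
      exact (Submodule.mem_orthogonal _ _).1 hw _ ⟨star g * y, (hS _).2 this, rfl⟩
    symm
    have hfun : (fun v => (g * t) v) = fun v => (t * g) v := by
      refine hdense.equalizer (g * t).continuous (t * g).continuous ?_
      funext x
      obtain ⟨y, w⟩ := x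
      show g (t (e (y, w))) = t (g (e (y, w)))
      have hgy : g * (y : H →L[ℂ] H) ∈ S := (hS _).2 (mul_mem hg ((hS _).1 y.2))
      have h2 : g (e (y, w)) = e (⟨g * y, hgy⟩, ⟨g w, hVg _ w.2⟩) := by
        rw [he, he, map_add]; rfl
      rw [ht, h2, ht, hf, hf]
      rfl
    exact ContinuousLinearMap.ext fun v => congrFun hfun v
  · exact LinearMap.opNorm_extendOfNorm_le hdense zero_le_one hnorm
  · have h1 : e (⟨1, (hS _).2 (one_mem M)⟩, 0) = ξ := by rw [he]; simp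
    have h2 := ht (⟨1, (hS _).2 (one_mem M)⟩, 0)
    rw [h1, hf] at h2
    simpa using h2

/-! ### The resolvent -/

/-- `1 + s h` -/
noncomputable def aa (h : H →L[ℂ] H) (s : ℝ) : H →L[ℂ] H := 1 + s • h

/-- `(1 + s h)⁻¹` -/
noncomputable def RR (h : H →L[ℂ] H) (s : ℝ) : H →L[ℂ] H := Ring.inverse (aa h s)

theorem smul_pos {h : H →L[ℂ] H} (h0 : 0 ≤ h) {s : ℝ} (hs : 0 ≤ s) : 0 ≤ s • h :=
  smul_nonneg hs h0

theorem one_le_aa {h : H →L[ℂ] H} (h0 : 0 ≤ h) {s : ℝ} (hs : 0 ≤ s) : 1 ≤ aa h s :=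
  le_add_of_nonneg_right (smul_pos h0 hs)

theorem unit_aa {h : H →L[ℂ] H} (h0 : 0 ≤ h) {s : ℝ} (hs : 0 ≤ s) : IsUnit (aa h s) :=
  CStarAlgebra.isUnit_of_le 1 (one_le_aa h0 hs)

theorem aa_RR {h : H →L[ℂ] H} (h0 : 0 ≤ h) {s : ℝ} (hs : 0 ≤ s) : aa h s * RR h s = 1 :=
  Ring.mul_inverse_cancel _ (unit_aa h0 hs)

theorem RR_aa {h : H →L[ℂ] H} (h0 : 0 ≤ h) {s : ℝ} (hs : 0 ≤ s) : RR h s * aa h s = 1 :=
  Ring.inverse_mul_cancel _ (unit_aa h0 hs)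

theorem RR_mem {M : StarSubalgebra ℂ (H →L[ℂ] H)} {h : H →L[ℂ] H} (hM : h ∈ M) (h0 : 0 ≤ h) {s : ℝ}
    (hs : 0 ≤ s) : RR h s ∈ M.topologicalClosure := by
  have hM' : aa h s ∈ M.topologicalClosure := by
    refine M.le_topologicalClosure ?_
    unfold aa
    have : (s • h : H →L[ℂ] H) = (s : ℂ) • h := by ext v; simp
    rw [this]
    exact add_mem (one_mem M) (M.toSubalgebra.smul_mem hM _)
  haveI : IsClosed (M.topologicalClosure : Set (H →L[ℂ] H)) := M.isClosed_topologicalClosure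
  have h1 : IsUnit (⟨aa h s, hM'⟩ : M.topologicalClosure) := by
    rw [← StarSubalgebra.coe_isUnit]
    exact unit_aa h0 hs
  obtain ⟨b, hb⟩ := h1.exists_right_inv
  have h2 : aa h s * (b : H →L[ℂ] H) = 1 := congrArg Subtype.val hb
  have h3 : RR h s = (b : H →L[ℂ] H) := by
    calc RR h s = RR h s * (aa h s * b) := by rw [h2, mul_one]
      _ = b := by rw [← mul_assoc, RR_aa h0 hs, one_mul]
  rw [h3]
  exact b.2

theorem RR_sa {h : H →L[ℂ] H} (h0 : 0 ≤ h) {s : ℝ} (hs : 0 ≤ s) : star (RR h s) = RR h s := by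
  have h1 : star (aa h s) = aa h s :=
    (IsSelfAdjoint.of_nonneg (zero_le_one.trans (one_le_aa h0 hs))).star_eq
  calc star (RR h s) = star (RR h s) * (aa h s * RR h s) := by rw [aa_RR h0 hs, mul_one]
    _ = (star (RR h s) * star (aa h s)) * RR h s := by rw [h1, mul_assoc]
    _ = star (aa h s * RR h s) * RR h s := by rw [← star_mul]
    _ = RR h s := by rw [aa_RR h0 hs, star_one, one_mul]

theorem RR_nonneg {h : H →L[ℂ] H} (h0 : 0 ≤ h) {s : ℝ} (hs : 0 ≤ s) : 0 ≤ RR h s := by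
  have h1 : 0 ≤ aa h s := zero_le_one.trans (one_le_aa h0 hs)
  have h2 := star_left_conjugate_nonneg h1 (RR h s)
  rw [RR_sa h0 hs, RR_aa h0 hs, one_mul] at h2
  exact h2

theorem sh_eq (h : H →L[ℂ] H) (s : ℝ) : (s • h : H →L[ℂ] H) = aa h s - 1 := by
  unfold aa; abel

theorem RR_sh {h : H →L[ℂ] H} (h0 : 0 ≤ h) {s : ℝ} (hs : 0 ≤ s) :
    RR h s * (s • h) = 1 - RR h s := by
  rw [sh_eq, mul_sub, RR_aa h0 hs, mul_one]

theorem sh_RR {h : H →L[ℂ] H} (h0 : 0 ≤ h) {s : ℝ} (hs : 0 ≤ s) :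
    (s • h) * RR h s = 1 - RR h s := by
  rw [sh_eq, sub_mul, aa_RR h0 hs, one_mul]

theorem RR_le {h : H →L[ℂ] H} (h0 : 0 ≤ h) {s : ℝ} (hs : 0 ≤ s) : 0 ≤ 1 - RR h s := by
  rw [← RR_sh h0 hs]
  refine Commute.mul_nonneg (RR_nonneg h0 hs) (smul_pos h0 hs) ?_
  show _ = _
  rw [RR_sh h0 hs, sh_RR h0 hs]

theorem norm_RR {h : H →L[ℂ] H} (h0 : 0 ≤ h) {s : ℝ} (hs : 0 ≤ s) : ‖1 - RR h s‖ ≤ 1 := by
  rw [CStarAlgebra.norm_le_one_iff_of_nonneg _ (RR_le h0 hs)]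
  exact sub_le_self _ (RR_nonneg h0 hs)

theorem RR_le' {h : H →L[ℂ] H} (h0 : 0 ≤ h) {s : ℝ} (hs : 0 ≤ s) : 0 ≤ s • h - (1 - RR h s) := by
  have h1 := star_left_conjugate_nonneg (RR_nonneg h0 hs) (s • h)
  rw [(IsSelfAdjoint.of_nonneg (smul_pos h0 hs)).star_eq, sh_RR h0 hs, sub_mul, one_mul,
    RR_sh h0 hs] at h1
  exact h1

theorem re_nonneg {a : H →L[ℂ] H} (ha : 0 ≤ a) (v : H) : 0 ≤ (⟪v, a v⟫_ℂ).re := by
  have h1 := ((ContinuousLinearMap.nonneg_iff_isPositive a).1 ha).inner_nonneg_right v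
  exact (Complex.le_def.1 h1).1

theorem re_smul (s : ℝ) (a : H →L[ℂ] H) (v : H) : (⟪v, (s • a) v⟫_ℂ).re = s * (⟪v, a v⟫_ℂ).re := by
  have : (s • a) v = (s : ℂ) • a v := by simp
  rw [this, inner_smul_right]
  simp

theorem ident {h : H →L[ℂ] H} (h0 : 0 ≤ h) {s : ℝ} (hs : 0 ≤ s) (η : H) :
    ‖RR h s η - η‖ ^ 2 + s * (⟪RR h s η, h (RR h s η)⟫_ℂ).re = (⟪η, (1 - RR h s) η⟫_ℂ).re := by
  have e1 : (s • h) (RR h s η) = η - RR h s η := by
    have := congrArg (fun T : H →L[ℂ] H => T η) (sh_RR h0 hs)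
    simpa using this
  rw [← re_smul, e1, ← norm_neg, neg_sub]
  have e2 : ‖η - RR h s η‖ ^ 2 = (⟪η - RR h s η, η - RR h s η⟫_ℂ).re := by
    rw [← inner_self_eq_norm_sq (𝕜 := ℂ)]; rfl
  rw [e2, ← Complex.add_re, ← inner_add_left]
  congr 2
  abel

theorem hyp_closure {M : StarSubalgebra ℂ (H →L[ℂ] H)} {ξ η : H} {ε : ℝ}
    (hyp : ∀ x ∈ M, ‖⟪η, x η⟫_ℂ - ⟪ξ, x ξ⟫_ℂ‖ ≤ ε * ‖x‖) :
    ∀ x ∈ M.topologicalClosure, ‖⟪η, x η⟫_ℂ - ⟪ξ, x ξ⟫_ℂ‖ ≤ ε * ‖x‖ := by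
  have hcl : IsClosed {x : H →L[ℂ] H | ‖⟪η, x η⟫_ℂ - ⟪ξ, x ξ⟫_ℂ‖ ≤ ε * ‖x‖} := by
    refine isClosed_le ?_ ?_
    · have h1 : ∀ v : H, Continuous fun x : H →L[ℂ] H => ⟪v, x v⟫_ℂ := fun v =>
        continuous_const.inner (ContinuousLinearMap.apply ℂ H v).continuous
      exact ((h1 η).sub (h1 ξ)).norm
    · fun_prop
  intro x hx
  rw [← SetLike.mem_coe, StarSubalgebra.topologicalClosure_coe] at hx
  exact closure_minimal (fun y hy => hyp y hy) hcl hx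

theorem step {M : StarSubalgebra ℂ (H →L[ℂ] H)} {ξ η : H} {ε : ℝ} (hε : 0 ≤ ε)
    (hyp : ∀ x ∈ M, ‖⟪η, x η⟫_ℂ - ⟪ξ, x ξ⟫_ℂ‖ ≤ ε * ‖x‖) {h : H →L[ℂ] H} (hM : h ∈ M)
    (h0 : 0 ≤ h) {δ : ℝ} (hδ : 0 < δ) :
    ∃ ζ : H, ‖ζ - η‖ ≤ Real.sqrt ε ∧ (⟪ζ, h ζ⟫_ℂ).re ≤ (⟪ξ, h ξ⟫_ℂ).re + δ := by
  rcases hε.eq_or_lt with h00 | hε0
  · refine ⟨η, by simp, ?_⟩
    have h1 := hyp h hM
    rw [← h00, zero_mul] at h1
    have h2 := norm_le_zero_iff.1 h1
    rw [sub_eq_zero] at h2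
    rw [h2]; linarith
  have main : ∀ s : ℝ, 0 ≤ s → ‖RR h s η - η‖ ^ 2 + s * (⟪RR h s η, h (RR h s η)⟫_ℂ).re ≤
      ε + s * (⟪ξ, h ξ⟫_ℂ).re := by
    intro s hs
    rw [ident h0 hs]
    have h1 := hyp_closure hyp _ (sub_mem (one_mem _) (RR_mem hM h0 hs))
    have h2 : (⟪η, (1 - RR h s) η⟫_ℂ).re - (⟪ξ, (1 - RR h s) ξ⟫_ℂ).re ≤ ε * 1 := by
      rw [← Complex.sub_re]
      exact (Complex.re_le_norm _).trans (h1.trans (mul_le_mul_of_nonneg_left (norm_RR h0 hs) hε))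
    have h3 := re_nonneg (RR_le' h0 hs) ξ
    have h4 : (⟪ξ, (s • h - (1 - RR h s)) ξ⟫_ℂ).re =
        s * (⟪ξ, h ξ⟫_ℂ).re - (⟪ξ, (1 - RR h s) ξ⟫_ℂ).re := by
      rw [sub_apply, inner_sub_right, Complex.sub_re, re_smul]
    linarith
  by_cases hall : ∀ s : ℝ, 0 ≤ s → ‖RR h s η - η‖ ≤ Real.sqrt ε
  · have hs : 0 < (ε + 1) / δ := by positivity
    refine ⟨RR h ((ε + 1) / δ) η, hall _ hs.le, ?_⟩
    have h1 := main _ hs.le
    have h2 := sq_nonneg ‖RR h ((ε + 1) / δ) η - η‖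
    by_contra hc
    push Not at hc
    have h3 := mul_lt_mul_of_pos_left hc hs
    have h4 : (ε + 1) / δ * ((⟪ξ, h ξ⟫_ℂ).re + δ) = (ε + 1) / δ * (⟪ξ, h ξ⟫_ℂ).re + (ε + 1) := by
      rw [mul_add, div_mul_cancel₀ _ hδ.ne']
    linarith
  · push Not at hall
    obtain ⟨s1, hs1, hs1'⟩ := hall
    have hc : ContinuousOn (fun s : ℝ => ‖RR h s η - η‖) (Set.Icc 0 s1) := by
      intro s hs
      have hu := unit_aa h0 hs.1
      obtain ⟨u, hu⟩ := hu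
      have h1 : ContinuousAt (fun s : ℝ => aa h s) s := by
        unfold aa
        fun_prop
      have h2 : ContinuousAt Ring.inverse (aa h s) := by
        rw [← hu]
        exact NormedRing.inverse_continuousAt u
      have h3 : ContinuousAt (fun s : ℝ => RR h s) s := ContinuousAt.comp (f := fun s : ℝ => aa h s) h2 h1
      have h4 : ContinuousAt (fun s : ℝ => ‖RR h s η - η‖) s := by fun_prop
      exact h4.continuousWithinAt
    have hF0 : ‖RR h 0 η - η‖ = 0 := by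
      have : RR h 0 = 1 := by unfold RR aa; simp
      rw [this]; simp
    have hiv := intermediate_value_Icc hs1 hc
    obtain ⟨s, hs, hsF⟩ := hiv ⟨by simp only [hF0]; exact Real.sqrt_nonneg _, hs1'.le⟩
    simp only at hsF
    have hs0 : 0 < s := by
      rcases hs.1.eq_or_lt with h1 | h1
      · rw [← h1, hF0] at hsF
        have := Real.sqrt_pos.2 hε0
        linarith
      · exact h1
    refine ⟨RR h s η, hsF.le, ?_⟩
    have h1 := main s hs.1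
    rw [hsF, Real.sq_sqrt hε] at h1
    have h2 : (⟪RR h s η, h (RR h s η)⟫_ℂ).re ≤ (⟪ξ, h ξ⟫_ℂ).re := by
      refine le_of_mul_le_mul_left ?_ hs0
      linarith
    linarith

/-- K1. -/
theorem bur' : S_Bur' := by
  intro H _ _ _ M ξ η ε hξ hε hyp
  obtain ⟨ζ, h1, h2⟩ := Mm.mm H {y : H →L[ℂ] H // y ∈ M} (fun y => y.1) (fun y => ‖y.1 ξ‖ ^ 2) η
    (Real.sqrt ε) (Real.sqrt_nonneg _) (fun _ => sq_nonneg _) (by
      intro n i μ hμ hsum δ hδ
      let h : H →L[ℂ] H := ∑ k, (μ k) • (star (i k).1 * (i k).1)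
      have hM : h ∈ M := by
        refine sum_mem fun k _ => ?_
        have : (μ k • (star (i k).1 * (i k).1) : H →L[ℂ] H) = ((μ k : ℝ) : ℂ) • (star (i k).1 * (i k).1) := by
          ext v; simp
        rw [this]
        exact M.toSubalgebra.smul_mem
          (show star (i k).1 * (i k).1 ∈ M from mul_mem (star_mem (i k).2) (i k).2) _
      have h0 : 0 ≤ h := Finset.sum_nonneg fun k _ => smul_pos (star_mul_self_nonneg _) (hμ k)
      have hval : ∀ v : H, (⟪v, h v⟫_ℂ).re = ∑ k, μ k * ‖(i k).1 v‖ ^ 2 := by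
        intro v
        simp only [h, sum_apply, inner_sum, Complex.re_sum]
        refine Finset.sum_congr rfl fun k _ => ?_
        rw [re_smul]
        congr 1
        rw [ContinuousLinearMap.star_eq_adjoint]
        show (⟪v, (ContinuousLinearMap.adjoint (i k).1) ((i k).1 v)⟫_ℂ).re = _
        rw [ContinuousLinearMap.adjoint_inner_right, ← inner_self_eq_norm_sq (𝕜 := ℂ)]
        rfl
      obtain ⟨ζ, h1, h2⟩ := step hε hyp hM h0 hδ
      exact ⟨ζ, h1, by rw [hval, hval] at h2; exact h2⟩)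
  obtain ⟨t, ht, ht1, ht2⟩ := exists_comm M ξ ζ fun y hy =>
    le_of_sq_le_sq (h2 ⟨y, hy⟩) (norm_nonneg _)
  refine ⟨t, ht, ht1, ?_⟩
  rw [ht2, norm_sub_rev]
  calc ‖ζ - η‖ ^ 2 ≤ Real.sqrt ε ^ 2 := pow_le_pow_left₀ (norm_nonneg _) h1 2
    _ = ε := Real.sq_sqrt hε

/-- K1 for von Neumann algebras. -/
theorem bur : S_Bur := by
  intro H _ _ _ M ξ η ε hξ hε hyp
  obtain ⟨t, h1, h2, h3⟩ := bur' H M.toStarSubalgebra ξ η ε hξ hε hyp
  refine ⟨t, ?_, h2, h3⟩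
  rw [VonNeumannAlgebra.mem_commutant_iff]
  exact fun g hg => (h1 g hg).symm

end Pool.Agent.H75.BC.Bur
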