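import Pool.Agent.H75.BC.Stmts4
import Pool.Agent.H75.BC.FB

/-!
CT2: the relative commutant of the core is trivial (helper36).
-/

set_option autoImplicit false

open MeasureTheory Filter Topology Complex
open scoped InnerProductSpace ENNReal

namespace Pool.Agent.H75.BC.T.CT2

open Pool.Agent.W662.CB Pool.Agent.H75.BC

noncomputable section

variable {H : Type} [NormedAddCommGroup H] [InnerProductSpace ℂ H] [CompleteSpace H]
  {K : Type} [NormedAddCommGroup K] [InnerProductSpace ℂ K] [CompleteSpace K]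
  {M N : VonNeumannAlgebra H} {ξ : H} {U : ℝ → H →L[ℂ] H} {J0 : H → H}
  {ρ : (H →L[ℂ] H) → (H →L[ℂ] H)} {κ : (H →L[ℂ] H) →⋆ₐ[ℂ] (K →L[ℂ] K)} {e S : ℝ → K →L[ℂ] K}
  {W : K →L[ℂ] K} {J : ℝ → H →L[ℂ] K} {E : ℝ → ℂ → K →L[ℂ] K} {A : VonNeumannAlgebra K}

/-! ### `ξ` is cyclic for `N'` -/

theorem proj_mem (B : VonNeumannAlgebra H) (D : Set H)
    (h : ∀ y : H →L[ℂ] H, y ∈ B.commutant → ∀ v ∈ D, y v ∈ D) :
    (Submodule.span ℂ D).topologicalClosure.starProjection ∈ B := by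
  have hz : IsStarProjection (Submodule.span ℂ D).topologicalClosure.starProjection :=
    isStarProjection_starProjection
  have hrange : (Submodule.span ℂ D).topologicalClosure.starProjection.range =
      (Submodule.span ℂ D).topologicalClosure := by
    ext w
    constructor
    · rintro ⟨v, rfl⟩
      exact Submodule.starProjection_apply_mem _ v
    · intro hw
      exact ⟨w, Submodule.starProjection_eq_self_iff.mpr hw⟩
  rw [VonNeumannAlgebra.IsStarProjection.mem_iff hz, hrange]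
  intro y hy
  rw [Module.End.mem_invtSubmodule]
  have h1 : Submodule.span ℂ D ≤
      ((Submodule.span ℂ D).topologicalClosure).comap (y : H →ₗ[ℂ] H) :=
    Submodule.span_le.mpr fun v hv =>
      Submodule.le_topologicalClosure _ (Submodule.subset_span (h y hy v hv))
  exact Submodule.topologicalClosure_minimal _ h1
      (IsClosed.preimage y.continuous (Submodule.isClosed_topologicalClosure _))

theorem cyc (hsep : IsSeparating N ξ) (Z : Submodule ℂ H) (hZ : IsClosed (Z : Set H))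
    (h : ∀ y : H →L[ℂ] H, y ∈ N.commutant → y ξ ∈ Z) (v : H) : v ∈ Z := by
  obtain ⟨D, hD⟩ : ∃ D : Set H, D = {v | ∃ y : H →L[ℂ] H, y ∈ N.commutant ∧ y ξ = v} := ⟨_, rfl⟩
  have h1 : (Submodule.span ℂ D).topologicalClosure.starProjection ∈ N := by
    refine proj_mem N D ?_
    intro y hy v hv
    rw [hD] at hv ⊢
    obtain ⟨b, hb, rfl⟩ := hv
    exact ⟨y * b, mul_mem hy hb, rfl⟩
  have h2 : ξ ∈ (Submodule.span ℂ D).topologicalClosure := by
    refine Submodule.le_topologicalClosure _ (Submodule.subset_span ?_)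
    rw [hD]
    exact ⟨1, one_mem _, rfl⟩
  have h3 : (1 : H →L[ℂ] H) - (Submodule.span ℂ D).topologicalClosure.starProjection = 0 := by
    refine hsep _ (sub_mem (one_mem N) h1) ?_
    change ξ - (Submodule.span ℂ D).topologicalClosure.starProjection ξ = 0
    rw [Submodule.starProjection_eq_self_iff.2 h2, sub_self]
  have h4 : v ∈ (Submodule.span ℂ D).topologicalClosure := by
    rw [← Submodule.starProjection_eq_self_iff, ← sub_eq_zero.1 h3]
    rfl
  refine Submodule.topologicalClosure_minimal _ ?_ hZ h4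
  refine Submodule.span_le.mpr fun w hw => ?_
  rw [hD] at hw
  obtain ⟨y, hy, rfl⟩ := hw
  exact h y hy

/-! ### the submodule of null vectors of a bounded sequence -/

/-- the vectors on which a sequence of operators converges to zero -/
def nul (D : ℕ → K →L[ℂ] K) : Submodule ℂ K where
  carrier := {u | Tendsto (fun n => D n u) atTop (𝓝 0)}
  add_mem' := fun {a b} ha hb => by
    have := Tendsto.add (show Tendsto (fun n => D n a) atTop (𝓝 0) from ha)
      (show Tendsto (fun n => D n b) atTop (𝓝 0) from hb)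
    simpa using this
  zero_mem' := by simp
  smul_mem' := fun c a ha => by
    have := Tendsto.const_smul (show Tendsto (fun n => D n a) atTop (𝓝 0) from ha) c
    simpa using this

theorem mem_nul {D : ℕ → K →L[ℂ] K} {u : K} : u ∈ nul D ↔ Tendsto (fun n => D n u) atTop (𝓝 0) :=
  Iff.rfl

theorem nul_closed (D : ℕ → K →L[ℂ] K) (C : ℝ) (hC : ∀ n, ‖D n‖ ≤ C) : IsClosed (nul D : Set K) := by
  refine isClosed_of_closure_subset fun v hv => ?_
  show Tendsto (fun n => D n v) atTop (𝓝 0)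
  have hC0 : 0 ≤ C := (norm_nonneg _).trans (hC 0)
  rw [Metric.tendsto_atTop]
  intro ε hε
  rw [Metric.mem_closure_iff] at hv
  obtain ⟨w, hw, hvw⟩ := hv (ε / (2 * (C + 1))) (by positivity)
  have hw' : Tendsto (fun n => D n w) atTop (𝓝 0) := hw
  obtain ⟨n0, hn0⟩ := Metric.tendsto_atTop.1 hw' (ε / 2) (by positivity)
  refine ⟨n0, fun n hn => ?_⟩
  have h1 := hn0 n hn
  rw [dist_zero_right] at h1 ⊢
  rw [dist_eq_norm] at hvw
  have h2 : ‖D n (v - w)‖ ≤ ε / 2 := by
    refine ((D n).le_opNorm _).trans ?_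
    calc ‖D n‖ * ‖v - w‖ ≤ (C + 1) * (ε / (2 * (C + 1))) :=
          mul_le_mul ((hC n).trans (by linarith)) hvw.le (norm_nonneg _) (by linarith)
      _ = ε / 2 := by field_simp
  have h3 : D n v = D n (v - w) + D n w := by rw [map_sub]; abel
  rw [h3]
  calc ‖D n (v - w) + D n w‖ ≤ ‖D n (v - w)‖ + ‖D n w‖ := norm_add_le _ _
    _ < ε / 2 + ε / 2 := by linarith
    _ = ε := by ring

/-- totality -/
theorem tot (D : CoreD M N ξ U κ e S W J E A) (hsep : IsSeparating N ξ)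
    (T : ℕ → K →L[ℂ] K) (C : ℝ) (hC : ∀ n, ‖T n‖ ≤ C)
    (he : ∀ n t, T n * e t = e t * T n)
    (hκ : ∀ n (y : H →L[ℂ] H), y ∈ N.commutant → T n * κ y = κ y * T n)
    {p r : ℝ} (hr : 0 < r) (h0 : Tendsto (fun n => T n (S p (J r ξ))) atTop (𝓝 0)) (v : K) :
    Tendsto (fun n => T n (bx S E p r v)) atTop (𝓝 0) := by
  have F := D.fr
  have hcl := nul_closed T C hC
  -- step 1
  have h1 : ∀ (t : ℝ) (w : H), S p (e t (J r w)) ∈ nul T := by
    intro t w
    refine cyc hsep ((nul T).comap ((S p * e t) ∘L J r : H →L[ℂ] K).toLinearMap) ?_ ?_ w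
    · exact hcl.preimage ((S p * e t) ∘L J r : H →L[ℂ] K).continuous
    · intro y hy
      show S p (e t (J r (y ξ))) ∈ nul T
      have h2 : S p (e t (J r (y ξ))) =
          Complex.exp (-(2 * Real.pi * I * t * p)) • (e t (κ y (S p (J r ξ)))) := by
        rw [← F.κ_J y r ξ hr]
        have h3 := FB.ap (FB.S_e F t p) (κ y (J r ξ))
        have h4 := FB.ap (F.κ_S y p) (J r ξ)
        have h3' : S p (e t (κ y (J r ξ))) =
            Complex.exp (-(2 * Real.pi * I * t * p)) • e t (S p (κ y (J r ξ))) := h3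
        have h4' : κ y (S p (J r ξ)) = S p (κ y (J r ξ)) := h4
        rw [h3', h4']
      rw [h2]
      refine (nul T).smul_mem _ ?_
      rw [mem_nul]
      have h5 : ∀ n, T n (e t (κ y (S p (J r ξ)))) = (e t * κ y) (T n (S p (J r ξ))) := by
        intro n
        have h6 := FB.ap (he n t) (κ y (S p (J r ξ)))
        have h7 := FB.ap (hκ n y hy) (S p (J r ξ))
        have h6' : T n (e t (κ y (S p (J r ξ)))) = e t (T n (κ y (S p (J r ξ)))) := h6
        have h7' : T n (κ y (S p (J r ξ))) = κ y (T n (S p (J r ξ))) := h7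
        rw [h6', h7']
        rfl
      simp only [h5]
      have h8 := ((e t * κ y).continuous.tendsto 0).comp h0
      rw [map_zero] at h8
      exact h8
  have h2 : bx S E p r v ∈ nul T := by
    have h3 := (F.fourier r hr (S (-p) v)).mapL (S p)
    have h4 : bx S E p r v = S p (E r 0 (S (-p) v)) := rfl
    rw [h4]
    refine hcl.mem_of_tendsto h3 (Eventually.of_forall fun s => ?_)
    exact (nul T).sum_mem fun m _ => h1 _ _
  exact h2

/-- an operator that commutes with everything and kills the boxes of `ξ` -/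
theorem tot0 (D : CoreD M N ξ U κ e S W J E A) (hsep : IsSeparating N ξ)
    (T : K →L[ℂ] K) (he : ∀ t, T * e t = e t * T)
    (hκ : ∀ (y : H →L[ℂ] H), y ∈ N.commutant → T * κ y = κ y * T)
    (h0 : ∀ p r : ℝ, 0 < r → T (S p (J r ξ)) = 0) : T = 0 := by
  have F := D.fr
  have h1 : ∀ (p r : ℝ) (v : K), 0 < r → T (bx S E p r v) = 0 := by
    intro p r v hr
    have h2 := tot D hsep (fun _ => T) ‖T‖ (fun _ => le_rfl) (fun _ t => he t) (fun _ y hy => hκ y hy)
      (p := p) hr (by simp [h0 p r hr]) v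
    exact tendsto_nhds_unique tendsto_const_nhds h2
  ext v
  have h3 := (T.continuous.tendsto v).comp (F.exhaust v)
  have h4 : Tendsto (fun R : ℝ => T (bx S E (-R) (2 * R) v)) atTop (𝓝 0) := by
    refine Tendsto.congr' ?_ tendsto_const_nhds
    filter_upwards [eventually_gt_atTop (0 : ℝ)] with R hR
    exact (h1 _ _ _ (by linarith)).symm
  exact tendsto_nhds_unique h3 h4

/-- `π_σ(y) = κ(y)` if `y` is fixed by the modular flow -/
theorem W_fix (D : CoreD M N ξ U κ e S W J E A) (hsep : IsSeparating N ξ) {y : H →L[ℂ] H}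
    (hy : y ∈ N) (hyU : ∀ t : ℝ, U t * y = y * U t) : W * κ y * star W = κ y := by
  have F := D.fr
  have hm := D.std.modular
  have hUU : ∀ s : ℝ, U (-s) * U s = 1 := fun s => by rw [← hm.add, neg_add_cancel, hm.zero]
  have h1 : W * κ y * star W - κ y = 0 := by
    refine tot0 D hsep _ (fun t => ?_) (fun y' hy' => ?_) (fun p r hr => ?_)
    · -- `e_t W = W κ(U_{-t}) e_t`
      have h2 : e t * W = W * (κ (U (-t)) * e t) := by
        rw [← F.e_W, ← mul_assoc, ← mul_assoc, F.W_un2, one_mul]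
      have h3 : star W * e t = κ (U (-t)) * e t * star W := by
        rw [← F.e_W, mul_assoc, F.W_un2, mul_one]
      have h4 : W * κ y * star W * e t = e t * (W * κ y * star W) := by
        calc W * κ y * star W * e t = W * κ y * (star W * e t) := by simp only [mul_assoc]
          _ = W * (κ y * κ (U (-t))) * (e t * star W) := by rw [h3]; simp only [mul_assoc]
          _ = W * (κ (U (-t)) * κ y) * (e t * star W) := by
              rw [← map_mul, ← hyU (-t), map_mul]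
          _ = W * κ (U (-t)) * (κ y * e t) * star W := by simp only [mul_assoc]
          _ = (W * (κ (U (-t)) * e t)) * (κ y * star W) := by rw [F.κ_e]; simp only [mul_assoc]
          _ = _ := by rw [← h2]; simp only [mul_assoc]
      rw [sub_mul, mul_sub, h4, F.κ_e]
    · have h2 : (W * κ y * star W) * κ y' = κ y' * (W * κ y * star W) := by
        refine F.W_comm y y' fun t => ?_
        have h3 : U (-t) * y * U t = y := by rw [hyU (-t), mul_assoc, hUU, mul_one]
        rw [h3]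
        exact (VonNeumannAlgebra.mem_commutant_iff.1 hy') _ hy
      have h3 : κ y * κ y' = κ y' * κ y := by
        rw [← map_mul, ← map_mul, (VonNeumannAlgebra.mem_commutant_iff.1 hy') _ hy]
      rw [sub_mul, mul_sub, h2, h3]
    · have hξ : ∀ t : ℝ, U t ξ = ξ := hm.fix
      have hyξ : ∀ t : ℝ, U t (y ξ) = y ξ := by
        intro t
        have h2 := DFunLike.congr_fun (hyU t) ξ
        have h3 : U t (y ξ) = y (U t ξ) := h2
        rw [h3, hξ]
      have h2 : star W (J r ξ) = J r ξ := by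
        have h3 := F.W_J r ξ hr hξ
        have h4 := FB.ap F.W_un1 (J r ξ)
        have h5 : star W (W (J r ξ)) = J r ξ := h4
        rwa [h3] at h5
      have h3 : (W * κ y * star W) (S p (J r ξ)) = S p ((W * κ y * star W) (J r ξ)) :=
        (FB.ap (FB.S_comm_W D p y) (J r ξ)).symm
      have h4 : κ y (S p (J r ξ)) = S p (κ y (J r ξ)) := FB.ap (F.κ_S y p) (J r ξ)
      show (W * κ y * star W) (S p (J r ξ)) - κ y (S p (J r ξ)) = 0
      rw [h3, h4]
      have h5 : (W * κ y * star W) (J r ξ) = W (κ y (star W (J r ξ))) := rfl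
      rw [h5, h2, F.κ_J y r ξ hr, F.W_J r (y ξ) hr hyξ, sub_self]
  exact sub_eq_zero.1 h1

theorem κ_mem (D : CoreD M N ξ U κ e S W J E A) (hsep : IsSeparating N ξ) {y : H →L[ℂ] H}
    (hy : y ∈ N) (hyU : ∀ t : ℝ, U t * y = y * U t) : κ y ∈ A := by
  rw [← W_fix D hsep hy hyU]
  exact D.gen_W y hy

/-! ### strong limits and averages -/

theorem S_apply_cont (F : Frame U κ e S W J E) {u : ℝ → K} (hu : Continuous u) :
    Continuous fun s => S s (u s) := by
  rw [continuous_iff_continuousAt]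
  intro s0
  rw [ContinuousAt, tendsto_iff_norm_sub_tendsto_zero]
  have h1 : Tendsto (fun s => ‖u s - u s0‖ + ‖S s (u s0) - S s0 (u s0)‖) (𝓝 s0) (𝓝 0) := by
    have h2 := tendsto_iff_norm_sub_tendsto_zero.1 (hu.tendsto s0)
    have h3 := tendsto_iff_norm_sub_tendsto_zero.1 ((F.S_cont (u s0)).tendsto s0)
    simpa using h2.add h3
  refine squeeze_zero (fun _ => norm_nonneg _) (fun s => ?_) h1
  have h4 : S s (u s) - S s0 (u s0) = S s (u s - u s0) + (S s (u s0) - S s0 (u s0)) := by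
    rw [map_sub]; abel
  rw [h4]
  refine (norm_add_le _ _).trans ?_
  rw [FB.S_norm F]

theorem orb_cont (F : Frame U κ e S W J E) (X : K →L[ℂ] K) (g : K) :
    Continuous fun s => S s (X (S (-s) g)) :=
  S_apply_cont F (X.continuous.comp ((F.S_cont g).comp continuous_neg))

theorem orb_norm (F : Frame U κ e S W J E) (X : K →L[ℂ] K) (g : K) (s : ℝ) :
    ‖S s (X (S (-s) g))‖ ≤ ‖X‖ * ‖g‖ := by
  rw [FB.S_norm F]
  refine (X.le_opNorm _).trans ?_
  rw [FB.S_norm F]

/-- the average `(1/h) ∫_0^h S_s X S_{-s} ds` -/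
def avg (F : Frame U κ e S W J E) (X : K →L[ℂ] K) (h : ℝ) : K →L[ℂ] K :=
  LinearMap.mkContinuous
    { toFun := fun g => (h⁻¹ : ℝ) • ∫ s in (0 : ℝ)..h, S s (X (S (-s) g))
      map_add' := fun f g => by
        rw [← smul_add, ← intervalIntegral.integral_add
          ((orb_cont F X f).intervalIntegrable _ _) ((orb_cont F X g).intervalIntegrable _ _)]
        simp only [map_add]
      map_smul' := fun c g => by
        simp only [map_smul, RingHom.id_apply]
        rw [intervalIntegral.integral_smul, smul_comm] }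
    (|h⁻¹| * (‖X‖ * |h|)) (fun g => by
      show ‖(h⁻¹ : ℝ) • ∫ s in (0 : ℝ)..h, S s (X (S (-s) g))‖ ≤ _
      rw [norm_smul, Real.norm_eq_abs]
      have h1 : ‖∫ s in (0 : ℝ)..h, S s (X (S (-s) g))‖ ≤ (‖X‖ * ‖g‖) * |h - 0| :=
        intervalIntegral.norm_integral_le_of_norm_le_const fun s _ => orb_norm F X g s
      rw [sub_zero] at h1
      calc |h⁻¹| * ‖∫ s in (0 : ℝ)..h, S s (X (S (-s) g))‖ ≤ |h⁻¹| * ((‖X‖ * ‖g‖) * |h|) :=
            mul_le_mul_of_nonneg_left h1 (abs_nonneg _)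
        _ = |h⁻¹| * (‖X‖ * |h|) * ‖g‖ := by ring)

theorem avg_apply (F : Frame U κ e S W J E) (X : K →L[ℂ] K) (h : ℝ) (g : K) :
    avg F X h g = (h⁻¹ : ℝ) • ∫ s in (0 : ℝ)..h, S s (X (S (-s) g)) := rfl

theorem avg_comm (F : Frame U κ e S W J E) (X : K →L[ℂ] K) (h : ℝ) (T : K →L[ℂ] K)
    (hT : ∀ s : ℝ, (S s * X * S (-s)) * T = T * (S s * X * S (-s))) :
    avg F X h * T = T * avg F X h := by
  ext g
  show avg F X h (T g) = T (avg F X h g)
  rw [avg_apply, avg_apply]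
  have h1 : ∀ s : ℝ, S s (X (S (-s) (T g))) = T (S s (X (S (-s) g))) := fun s => FB.ap (hT s) g
  simp only [h1]
  rw [ContinuousLinearMap.intervalIntegral_comp_comm T ((orb_cont F X g).intervalIntegrable _ _)]
  have h2 : ∀ (c : ℝ) (u : K), T (c • u) = c • T u := fun c u => by
    rw [← Complex.coe_smul, map_smul, Complex.coe_smul]
  rw [h2]

theorem avg_RR (D : CoreD M N ξ U κ e S W J E A) {X : K →L[ℂ] K} (hX : X ∈ RR M κ A) (h : ℝ) :
    avg D.fr X h ∈ RR M κ A :=
  ⟨fun y hy => avg_comm D.fr X h _ fun s => (FB.RR_S D s hX).1 y hy,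
    fun Z hZ => avg_comm D.fr X h _ fun s => (FB.RR_S D s hX).2 Z hZ⟩

theorem avg_lip (F : Frame U κ e S W J E) (X : K →L[ℂ] K) {h : ℝ} (hh : 0 < h) (t : ℝ) :
    ‖S t * avg F X h * S (-t) - avg F X h‖ ≤ (2 * ‖X‖ / h) * |t| := by
  refine ContinuousLinearMap.opNorm_le_bound _ (by positivity) fun g => ?_
  show ‖S t (avg F X h (S (-t) g)) - avg F X h g‖ ≤ _
  have hi : ∀ a b : ℝ, IntervalIntegrable (fun s => S s (X (S (-s) g))) volume a b :=
    fun a b => (orb_cont F X g).intervalIntegrable a b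
  have h1 : S t (avg F X h (S (-t) g)) = (h⁻¹ : ℝ) • ∫ s in (0 + t)..(h + t), S s (X (S (-s) g)) := by
    rw [avg_apply]
    have h2 : ∀ (c : ℝ) (u : K), S t (c • u) = c • S t u := fun c u => by
      rw [← Complex.coe_smul, map_smul, Complex.coe_smul]
    rw [h2, ← ContinuousLinearMap.intervalIntegral_comp_comm (S t)
      ((orb_cont F X (S (-t) g)).intervalIntegrable _ _)]
    congr 1
    have h3 : ∀ s : ℝ, S t (S s (X (S (-s) (S (-t) g)))) =
        (fun s => S s (X (S (-s) g))) (s + t) := by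
      intro s
      have h4 : S (t + s) = S t * S s := F.S_add t s
      have h5 : S (-s + -t) = S (-s) * S (-t) := F.S_add (-s) (-t)
      show (S t * S s) (X ((S (-s) * S (-t)) g)) = S (s + t) (X (S (-(s + t)) g))
      rw [← h4, ← h5, add_comm t s, neg_add]
    simp only [h3]
    exact intervalIntegral.integral_comp_add_right (fun s => S s (X (S (-s) g))) t
  rw [h1, avg_apply, ← smul_sub, norm_smul, Real.norm_eq_abs, abs_of_pos (inv_pos.2 hh)]
  have h2 : (∫ s in (0 + t)..(h + t), S s (X (S (-s) g))) - (∫ s in (0 : ℝ)..h, S s (X (S (-s) g))) =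
      (∫ s in h..(h + t), S s (X (S (-s) g))) - ∫ s in (0 : ℝ)..(0 + t), S s (X (S (-s) g)) := by
    have h3 := intervalIntegral.integral_add_adjacent_intervals (hi 0 (0 + t)) (hi (0 + t) (h + t))
    have h4 := intervalIntegral.integral_add_adjacent_intervals (hi 0 h) (hi h (h + t))
    rw [← h4] at h3
    rw [sub_eq_sub_iff_add_eq_add, add_comm, h3, add_comm]
  rw [h2]
  have h3 : ‖∫ s in h..(h + t), S s (X (S (-s) g))‖ ≤ (‖X‖ * ‖g‖) * |h + t - h| :=
    intervalIntegral.norm_integral_le_of_norm_le_const fun s _ => orb_norm F X g s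
  have h4 : ‖∫ s in (0 : ℝ)..(0 + t), S s (X (S (-s) g))‖ ≤ (‖X‖ * ‖g‖) * |0 + t - 0| :=
    intervalIntegral.norm_integral_le_of_norm_le_const fun s _ => orb_norm F X g s
  rw [add_sub_cancel_left] at h3 h4
  calc h⁻¹ * ‖(∫ s in h..(h + t), S s (X (S (-s) g))) - ∫ s in (0 : ℝ)..(0 + t), S s (X (S (-s) g))‖
      ≤ h⁻¹ * ((‖X‖ * ‖g‖) * |t| + (‖X‖ * ‖g‖) * |t|) := by
        refine mul_le_mul_of_nonneg_left ((norm_sub_le _ _).trans (add_le_add h3 h4)) ?_
        positivity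
    _ = 2 * ‖X‖ / h * |t| * ‖g‖ := by ring

theorem avg_tendsto (F : Frame U κ e S W J E) (X : K →L[ℂ] K) (g : K) :
    Tendsto (fun h : ℝ => avg F X h g) (𝓝[≠] 0) (𝓝 (X g)) := by
  have hc := orb_cont F X g
  have h1 : HasDerivAt (fun u : ℝ => ∫ s in (0 : ℝ)..u, S s (X (S (-s) g)))
      (S 0 (X (S (-0) g))) 0 :=
    intervalIntegral.integral_hasDerivAt_right (hc.intervalIntegrable _ _)
      (hc.stronglyMeasurableAtFilter _ _) hc.continuousAt
  have h2 := h1.tendsto_slope_zero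
  simp only [zero_add, intervalIntegral.integral_same, sub_zero, neg_zero, F.S_zero] at h2
  exact h2

/-- if all the averages are scalar then so is `X` -/
theorem scalar_of_avg (F : Frame U κ e S W J E) (X : K →L[ℂ] K) (g0 : K) (hg0 : ‖g0‖ = 1)
    (h : ∀ t : ℝ, 0 < t → ∃ c : ℂ, avg F X t = c • (1 : K →L[ℂ] K)) :
    ∃ c : ℂ, X = c • (1 : K →L[ℂ] K) := by
  refine ⟨⟪g0, X g0⟫_ℂ, ?_⟩
  ext g
  have hle : 𝓝[>] (0 : ℝ) ≤ 𝓝[≠] 0 :=
    nhdsWithin_mono _ fun x (hx : 0 < x) => hx.ne'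
  have h1 := (avg_tendsto F X g).mono_left hle
  have h2 := (avg_tendsto F X g0).mono_left hle
  have h3 : Tendsto (fun t : ℝ => ⟪g0, avg F X t g0⟫_ℂ • g) (𝓝[>] 0) (𝓝 (⟪g0, X g0⟫_ℂ • g)) :=
    (tendsto_const_nhds.inner h2).smul_const g
  refine tendsto_nhds_unique h1 (h3.congr' ?_)
  filter_upwards [self_mem_nhdsWithin] with t ht
  obtain ⟨c, hc⟩ := h t ht
  rw [hc]
  show ⟪g0, c • g0⟫_ℂ • g = c • g
  rw [inner_smul_right, inner_self_eq_norm_sq_to_K, hg0]
  simp

/-! ### values of Lipschitz elements -/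

/-- `x` is the value at `0` of a Lipschitz element -/
def LV (N : VonNeumannAlgebra H) (κ : (H →L[ℂ] H) →⋆ₐ[ℂ] (K →L[ℂ] K)) (S : ℝ → K →L[ℂ] K)
    (J : ℝ → H →L[ℂ] K) (A : VonNeumannAlgebra K) (x : H →L[ℂ] H) : Prop :=
  ∃ (X : K →L[ℂ] K) (L : ℝ), X ∈ RR N κ A ∧ Ev N J X x ∧ ∀ s : ℝ, ‖S s * X * S (-s) - X‖ ≤ L * |s|

theorem LV_mem {x : H →L[ℂ] H} (h : LV N κ S J A x) : x ∈ N := by
  obtain ⟨X, L, hX, hE, hL⟩ := h
  exact hE.1

theorem LV_add {x y : H →L[ℂ] H} (hx : LV N κ S J A x) (hy : LV N κ S J A y) :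
    LV N κ S J A (x + y) := by
  obtain ⟨X, L, hX, hE, hL⟩ := hx
  obtain ⟨Y, L', hY, hE', hL'⟩ := hy
  refine ⟨X + Y, L + L', FB.RR_add hX hY, ⟨add_mem hE.1 hE'.1, fun v => ?_⟩, fun s => ?_⟩
  · have h1 := (hE.2 v).add (hE'.2 v)
    rw [add_zero] at h1
    refine h1.congr fun r => ?_
    show X (J r v) - J r (x v) + (Y (J r v) - J r (y v)) = (X (J r v) + Y (J r v)) - J r (x v + y v)
    rw [map_add]; abel
  · have h1 : S s * (X + Y) * S (-s) - (X + Y) =
        (S s * X * S (-s) - X) + (S s * Y * S (-s) - Y) := by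
      rw [mul_add, add_mul]; abel
    rw [h1]
    refine (norm_add_le _ _).trans ?_
    have h2 := hL s
    have h3 := hL' s
    rw [add_mul]
    exact add_le_add h2 h3

theorem LV_smul (c : ℂ) {x : H →L[ℂ] H} (hx : LV N κ S J A x) : LV N κ S J A (c • x) := by
  obtain ⟨X, L, hX, hE, hL⟩ := hx
  refine ⟨c • X, ‖c‖ * L, FB.RR_smul c hX, ⟨?_, fun v => ?_⟩, fun s => ?_⟩
  · exact StarSubalgebra.smul_mem N.toStarSubalgebra hE.1 c
  · have h1 := (hE.2 v).const_smul c
    rw [smul_zero] at h1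
    refine h1.congr fun r => ?_
    show c • (X (J r v) - J r (x v)) = c • X (J r v) - J r (c • x v)
    rw [smul_sub, map_smul]
  · have h1 : S s * (c • X) * S (-s) - c • X = c • (S s * X * S (-s) - X) := by
      rw [mul_smul_comm, smul_mul_assoc, smul_sub]
    rw [h1, norm_smul, mul_assoc ‖c‖ L |s|]
    exact mul_le_mul_of_nonneg_left (hL s) (norm_nonneg c)

theorem LV_star (D : CoreD N N ξ U κ e S W J E A) (hEv : S_Ev) {x : H →L[ℂ] H}
    (hx : LV N κ S J A x) : LV N κ S J A (star x) := by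
  have F := D.fr
  obtain ⟨X, L, hX, hE, hL⟩ := hx
  have hXs : star X ∈ RR N κ A := FB.RR_star hX
  obtain ⟨y, hy, -⟩ := hEv H K N N ξ U κ e S W J E A D (star X) hXs
  have hy0 := hy 0
  rw [neg_zero, F.S_zero, one_mul, mul_one] at hy0
  have h1 : y 0 = star x := by
    ext w
    refine ext_inner_left ℂ fun v => ?_
    rw [ContinuousLinearMap.star_eq_adjoint, ContinuousLinearMap.adjoint_inner_right]
    have hne : (𝓝[>] (0 : ℝ)).NeBot := inferInstance
    -- `⟪v, y w⟫ = lim ⟪J_r v, X* J_r w⟫`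
    have h2 : Tendsto (fun r : ℝ => ⟪J r v, star X (J r w)⟫_ℂ) (𝓝[>] 0) (𝓝 ⟪v, y 0 w⟫_ℂ) := by
      rw [tendsto_iff_norm_sub_tendsto_zero]
      have h3 := (tendsto_iff_norm_sub_tendsto_zero.1 (hy0.2 w)).const_mul ‖v‖
      rw [mul_zero] at h3
      refine squeeze_zero' (Eventually.of_forall fun _ => norm_nonneg _) ?_ h3
      filter_upwards [self_mem_nhdsWithin] with r hr
      have hr' : 0 < r := hr
      rw [← FB.J_inner F hr' v (y 0 w), ← inner_sub_right, sub_zero]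
      refine (norm_inner_le_norm _ _).trans ?_
      rw [FB.J_norm F hr']
    have h4 : Tendsto (fun r : ℝ => ⟪X (J r v), J r w⟫_ℂ) (𝓝[>] 0) (𝓝 ⟪x v, w⟫_ℂ) := by
      rw [tendsto_iff_norm_sub_tendsto_zero]
      have h3 := (tendsto_iff_norm_sub_tendsto_zero.1 (hE.2 v)).mul_const ‖w‖
      rw [zero_mul] at h3
      refine squeeze_zero' (Eventually.of_forall fun _ => norm_nonneg _) ?_ h3
      filter_upwards [self_mem_nhdsWithin] with r hr
      have hr' : 0 < r := hr
      rw [← FB.J_inner F hr' (x v) w, ← inner_sub_left, sub_zero]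
      refine (norm_inner_le_norm _ _).trans ?_
      rw [FB.J_norm F hr']
    refine tendsto_nhds_unique h2 (h4.congr fun r => ?_)
    rw [ContinuousLinearMap.star_eq_adjoint, ContinuousLinearMap.adjoint_inner_right]
  refine ⟨star X, L, hXs, by rw [← h1]; exact hy0, fun s => ?_⟩
  have h2 : S s * star X * S (-s) - star X = star (S s * X * S (-s) - X) := by
    rw [star_sub, star_mul, star_mul, F.S_star, F.S_star, neg_neg, mul_assoc]
  rw [h2, norm_star]
  exact hL s

theorem LV_sgm (D : CoreD N N ξ U κ e S W J E A) (t : ℝ) {x : H →L[ℂ] H}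
    (hx : LV N κ S J A x) : LV N κ S J A (sgm U t x) := by
  have F := D.fr
  have hm := D.std.modular
  obtain ⟨X, L, hX, hE, hL⟩ := hx
  have hV := FB.RR_V D t hX
  have hXe : X * e (-t) = e (-t) * X := hX.2 _ (D.gen_e (-t))
  have h1 : (e t * κ (U t)) * X * (e (-t) * κ (U (-t))) = κ (U t) * X * κ (U (-t)) := by
    calc (e t * κ (U t)) * X * (e (-t) * κ (U (-t)))
        = (κ (U t) * e t) * (X * e (-t)) * κ (U (-t)) := by rw [F.κ_e]; simp only [mul_assoc]
      _ = κ (U t) * (e t * e (-t)) * X * κ (U (-t)) := by rw [hXe]; simp only [mul_assoc]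
      _ = _ := by rw [FB.e_mul_neg F, mul_one]
  rw [h1] at hV
  have hUn : ∀ (s : ℝ) (v : H), ‖U s v‖ = ‖v‖ := by
    intro s v
    refine FB.norm_le_one_of_un ?_ v
    rw [hm.star_eq, ← hm.add, neg_add_cancel, hm.zero]
  have hκn : ∀ (s : ℝ) (v : K), ‖κ (U s) v‖ = ‖v‖ := by
    intro s v
    refine FB.norm_le_one_of_un ?_ v
    rw [← map_star, ← map_mul, hm.star_eq, ← hm.add, neg_add_cancel, hm.zero, map_one]
  refine ⟨κ (U t) * X * κ (U (-t)), L, hV, ⟨hm.mem t x hE.1, fun v => ?_⟩, fun s => ?_⟩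
  · have h2 := hE.2 (U (-t) v)
    rw [tendsto_zero_iff_norm_tendsto_zero] at h2 ⊢
    refine h2.congr' ?_
    filter_upwards [self_mem_nhdsWithin] with r hr
    have hr' : 0 < r := hr
    have h3 : (κ (U t) * X * κ (U (-t))) (J r v) - J r (sgm U t x v) =
        κ (U t) (X (J r (U (-t) v)) - J r (x (U (-t) v))) := by
      have h4 : κ (U (-t)) (J r v) = J r (U (-t) v) := F.κ_J _ _ _ hr'
      have h5 : κ (U t) (J r (x (U (-t) v))) = J r (U t (x (U (-t) v))) := F.κ_J _ _ _ hr'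
      show κ (U t) (X (κ (U (-t)) (J r v))) - J r (U t (x ((star (U t)) v))) = _
      rw [h4, map_sub, h5, hm.star_eq]
    rw [h3, hκn]
  · have h2 : S s * (κ (U t) * X * κ (U (-t))) * S (-s) - κ (U t) * X * κ (U (-t)) =
        κ (U t) * (S s * X * S (-s) - X) * κ (U (-t)) := by
      have h3 : S s * κ (U t) = κ (U t) * S s := (F.κ_S _ _).symm
      have h4 : κ (U (-t)) * S (-s) = S (-s) * κ (U (-t)) := F.κ_S _ _
      calc S s * (κ (U t) * X * κ (U (-t))) * S (-s) - κ (U t) * X * κ (U (-t))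
          = (S s * κ (U t)) * X * (κ (U (-t)) * S (-s)) - κ (U t) * X * κ (U (-t)) := by
            simp only [mul_assoc]
        _ = _ := by rw [h3, h4]; simp only [mul_assoc, mul_sub, sub_mul]
    rw [h2]
    refine le_trans ?_ (hL s)
    have h3 : ‖κ (U t)‖ ≤ 1 := ContinuousLinearMap.opNorm_le_bound _ zero_le_one fun v => by
      rw [hκn, one_mul]
    have h4 : ‖κ (U (-t))‖ ≤ 1 := ContinuousLinearMap.opNorm_le_bound _ zero_le_one fun v => by
      rw [hκn, one_mul]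
    calc ‖κ (U t) * (S s * X * S (-s) - X) * κ (U (-t))‖
        ≤ ‖κ (U t)‖ * ‖S s * X * S (-s) - X‖ * ‖κ (U (-t))‖ :=
          (norm_mul_le _ _).trans (mul_le_mul_of_nonneg_right (norm_mul_le _ _) (norm_nonneg _))
      _ ≤ 1 * ‖S s * X * S (-s) - X‖ * 1 := by gcongr
      _ = _ := by ring

theorem LV_norm (hCTa : S_CTa) (hEv : S_Ev) (D : CoreD N N ξ U κ e S W J E A)
    (hR : RAct N ξ U J0 ρ) {x : H →L[ℂ] H} (hx : LV N κ S J A x) : ‖star x ξ‖ = ‖x ξ‖ := by
  refine le_antisymm ?_ ?_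
  · obtain ⟨X, L, hX, hE, hL⟩ := hx
    exact hCTa H K N ξ U J0 ρ κ e S W J E A D hR X x L hX hE hL
  · obtain ⟨X, L, hX, hE, hL⟩ := LV_star D hEv hx
    have h1 := hCTa H K N ξ U J0 ρ κ e S W J E A D hR X (star x) L hX hE hL
    rwa [star_star] at h1

/-- the trace property -/
theorem LV_trace (hCTa : S_CTa) (hEv : S_Ev) (D : CoreD N N ξ U κ e S W J E A)
    (hR : RAct N ξ U J0 ρ) {x y : H →L[ℂ] H} (hx : LV N κ S J A x) (hy : LV N κ S J A y) :
    ⟪x ξ, y ξ⟫_ℂ = ⟪star y ξ, star x ξ⟫_ℂ := by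
  have hq : ∀ z : H →L[ℂ] H, LV N κ S J A z → ⟪z ξ, z ξ⟫_ℂ = ⟪star z ξ, star z ξ⟫_ℂ := by
    intro z hz
    rw [inner_self_eq_norm_sq_to_K, inner_self_eq_norm_sq_to_K, LV_norm hCTa hEv D hR hz]
  have h1 := hq _ (LV_add hx hy)
  have h2 := hq _ (LV_add hx (LV_smul I hy))
  have hxx := hq _ hx
  have hyy := hq _ hy
  simp only [add_apply, smul_apply, star_add, star_smul,
    inner_add_left, inner_add_right, inner_smul_left, inner_smul_right, RCLike.star_def,
    Complex.conj_I] at h1 h2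
  generalize ⟪x ξ, x ξ⟫_ℂ = a1 at *
  generalize ⟪y ξ, y ξ⟫_ℂ = a2 at *
  generalize ⟪star x ξ, star x ξ⟫_ℂ = b1 at *
  generalize ⟪star y ξ, star y ξ⟫_ℂ = b2 at *
  generalize ⟪x ξ, y ξ⟫_ℂ = c1 at *
  generalize ⟪y ξ, x ξ⟫_ℂ = c2 at *
  generalize ⟪star x ξ, star y ξ⟫_ℂ = d1 at *
  generalize ⟪star y ξ, star x ξ⟫_ℂ = d2 at *
  rw [map_neg, Complex.conj_I, neg_neg] at h2
  subst hxx hyy
  linear_combination (1 / 2 : ℂ) * h1 - (I / 2) * h2 +
    (1 / 2 : ℂ) * (c1 - c2 - d2 + d1) * Complex.I_mul_I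

/-- values of Lipschitz elements are fixed by the modular flow -/
theorem LV_fix (hCTa : S_CTa) (hPer : S_Per) (hEv : S_Ev) (D : CoreD N N ξ U κ e S W J E A)
    (hR : RAct N ξ U J0 ρ) {y : H →L[ℂ] H} (hy : LV N κ S J A y) (t : ℝ) :
    U t * y = y * U t := by
  have hm := D.std.modular
  have hyN : y ∈ N := LV_mem hy
  have hUn : ∀ (s : ℝ) (v : H), ‖U s v‖ = ‖v‖ := by
    intro s v
    refine FB.norm_le_one_of_un ?_ v
    rw [hm.star_eq, ← hm.add, neg_add_cancel, hm.zero]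
  have hs : ∀ s : ℝ, sgm U s y ξ = U s (y ξ) := by
    intro s
    show U s (y ((star (U s)) ξ)) = U s (y ξ)
    rw [hm.star_eq, hm.fix]
  obtain ⟨F, hF1, hF2, hF3, hF4⟩ := hm.kms y (star y) hyN (star_mem hyN)
  have h1 : ∀ s : ℝ, vst ξ (sgm U s y * star y) = ⟪y ξ, U s (y ξ)⟫_ℂ := by
    intro s
    have h2 := LV_trace hCTa hEv D hR hy (LV_sgm D s hy)
    rw [hs] at h2
    rw [h2]
    show ⟪ξ, (sgm U s y) (star y ξ)⟫_ℂ = _
    rw [← ContinuousLinearMap.adjoint_inner_left, ← ContinuousLinearMap.star_eq_adjoint]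
  have h1' : ∀ s : ℝ, vst ξ (star y * sgm U s y) = ⟪y ξ, U s (y ξ)⟫_ℂ := by
    intro s
    show ⟪ξ, (star y) (sgm U s y ξ)⟫_ℂ = _
    rw [hs, ContinuousLinearMap.star_eq_adjoint, ContinuousLinearMap.adjoint_inner_right]
  have h3 : ∀ s : ℝ, F s = F 0 := by
    refine hPer F hF1 hF2 hF3 fun s => ?_
    rw [(hF4 s).1, (hF4 s).2, h1, h1']
  have h4 : ⟪y ξ, U t (y ξ)⟫_ℂ = ⟪y ξ, y ξ⟫_ℂ := by
    have h5 := h3 t
    have h6 := (hF4 0).1
    rw [Complex.ofReal_zero] at h6
    rw [(hF4 t).1, h6, h1, h1, hm.zero] at h5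
    exact h5
  have h5 : U t (y ξ) = y ξ := by
    rw [← sub_eq_zero, ← norm_eq_zero, ← sq_eq_zero_iff]
    have h6 := @norm_sub_sq ℂ H _ _ _ (U t (y ξ)) (y ξ)
    have h7 : RCLike.re ⟪U t (y ξ), y ξ⟫_ℂ = ‖y ξ‖ ^ 2 := by
      rw [← inner_conj_symm, h4, inner_conj_symm, inner_self_eq_norm_sq]
    rw [h6, h7, hUn]
    ring
  have h6 : sgm U t y - y = 0 := by
    refine D.std.sep _ (sub_mem (hm.mem t y hyN) hyN) ?_
    show sgm U t y ξ - y ξ = 0
    rw [hs, h5, sub_self]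
  have h7 : U t * y * U (-t) = y := by
    have h8 := sub_eq_zero.1 h6
    unfold sgm at h8
    rwa [hm.star_eq] at h8
  calc U t * y = U t * y * (U (-t) * U t) := by rw [← hm.add, neg_add_cancel, hm.zero, mul_one]
    _ = (U t * y * U (-t)) * U t := by simp only [mul_assoc]
    _ = y * U t := by rw [h7]

/-! ### block sums -/

theorem norm_sum_sq_orth (n : ℕ) (u : ℕ → K) (h : ∀ i j, i < j → ⟪u i, u j⟫_ℂ = 0) :
    ‖∑ k ∈ Finset.range n, u k‖ ^ 2 = ∑ k ∈ Finset.range n, ‖u k‖ ^ 2 := by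
  induction n with
  | zero => simp
  | succ n ih =>
    rw [Finset.sum_range_succ, Finset.sum_range_succ, ← ih]
    have h1 : ⟪∑ k ∈ Finset.range n, u k, u n⟫_ℂ = 0 := by
      rw [sum_inner]
      exact Finset.sum_eq_zero fun k hk => h k n (Finset.mem_range.1 hk)
    rw [@norm_add_sq ℂ K, h1]
    simp

/-- subdivision of a box -/
theorem bx_sum (F : Frame U κ e S W J E) (p : ℝ) {r : ℝ} (hr : 0 < r) (n : ℕ) (hn : 0 < n) :
    bx S E p r = ∑ k ∈ Finset.range n, bx S E (p + k * (r / n)) (r / n) := by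
  have h1 : bx S E p r = S p * E r 0 * S (-p) := rfl
  rw [h1, F.box_sum r n hr hn, Finset.mul_sum, Finset.sum_mul]
  exact Finset.sum_congr rfl fun k _ => FB.S_bx F _ _ _

theorem bx_subJ (F : Frame U κ e S W J E) (p : ℝ) {r : ℝ} (hr : 0 < r) (n k : ℕ) (hn : 0 < n)
    (hk : k < n) (v : H) :
    bx S E (p + k * (r / n)) (r / n) (S p (J r v)) =
      ((Real.sqrt ((r / n) / r) : ℝ) : ℂ) • S (p + k * (r / n)) (J (r / n) v) := by
  have hn' : (0 : ℝ) < n := by exact_mod_cast hn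
  have h1 : bx S E (p + k * (r / n)) (r / n) = S p * bx S E (k * (r / n)) (r / n) * S (-p) :=
    (FB.S_bx F _ _ _).symm
  have h2 : S (-p) (S p (J r v)) = J r v := FB.ap (FB.S_neg_mul F p) (J r v)
  have h3 : (k : ℝ) * (r / n) + r / n ≤ r := by
    have h4 : (k : ℝ) + 1 ≤ n := by exact_mod_cast hk
    calc (k : ℝ) * (r / n) + r / n = (k + 1) * (r / n) := by ring
      _ ≤ n * (r / n) := by
          refine mul_le_mul_of_nonneg_right h4 ?_
          positivity
      _ = r := by field_simp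
  rw [h1]
  show S p (bx S E (k * (r / n)) (r / n) (S (-p) (S p (J r v)))) = _
  rw [h2, F.box_J _ _ _ v (by positivity) (by positivity) h3, map_smul]
  have h5 : S (p + k * (r / n)) = S p * S (k * (r / n)) := F.S_add _ _
  rw [h5]
  rfl

theorem bx_orth_inner (F : Frame U κ e S W J E) {p q r r' : ℝ} (hr : 0 < r) (hr' : 0 < r')
    (h : p + r ≤ q) (u v : K) : ⟪bx S E p r u, bx S E q r' v⟫_ℂ = 0 := by
  have h1 : bx S E p r (bx S E q r' v) = 0 := by
    have h2 := FB.ap (F.box_orth p q r r' hr hr' h) v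
    exact h2
  have h3 : ⟪bx S E p r u, bx S E q r' v⟫_ℂ = ⟪u, star (bx S E p r) (bx S E q r' v)⟫_ℂ := by
    rw [ContinuousLinearMap.star_eq_adjoint, ContinuousLinearMap.adjoint_inner_right]
  rw [h3, FB.bx_sa F hr, h1, inner_zero_right]

/-- the block diagonal operators are bounded -/
theorem block_norm (F : Frame U κ e S W J E) (p : ℝ) {r : ℝ} (hr : 0 < r) (n : ℕ) (hn : 0 < n)
    (x : ℕ → H →L[ℂ] H) (C : ℝ) (hC0 : 0 ≤ C) (hC : ∀ k, ∀ v : K, ‖κ (x k) v‖ ≤ C * ‖v‖) :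
    ‖∑ k ∈ Finset.range n, κ (x k) * bx S E (p + k * (r / n)) (r / n)‖ ≤ C := by
  have hn' : (0 : ℝ) < n := by exact_mod_cast hn
  have hrn : 0 < r / n := by positivity
  have hsep : ∀ i j : ℕ, i < j → p + i * (r / n) + r / n ≤ p + j * (r / n) := by
    intro i j hij
    have h1 : (i : ℝ) + 1 ≤ j := by exact_mod_cast hij
    have h2 : ((i : ℝ) + 1) * (r / n) ≤ j * (r / n) := mul_le_mul_of_nonneg_right h1 hrn.le
    linarith
  refine ContinuousLinearMap.opNorm_le_bound _ hC0 fun v => ?_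
  have h1 : (∑ k ∈ Finset.range n, κ (x k) * bx S E (p + k * (r / n)) (r / n)) v =
      ∑ k ∈ Finset.range n, bx S E (p + k * (r / n)) (r / n) (κ (x k) v) := by
    rw [sum_apply]
    refine Finset.sum_congr rfl fun k _ => ?_
    exact FB.ap (FB.κ_bx F hrn (x k) _) v
  have h2 : ‖∑ k ∈ Finset.range n, bx S E (p + k * (r / n)) (r / n) (κ (x k) v)‖ ^ 2 =
      ∑ k ∈ Finset.range n, ‖bx S E (p + k * (r / n)) (r / n) (κ (x k) v)‖ ^ 2 :=
    norm_sum_sq_orth n _ fun i j hij => bx_orth_inner F hrn hrn (hsep i j hij) _ _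
  have h3 : ‖∑ k ∈ Finset.range n, bx S E (p + k * (r / n)) (r / n) v‖ ^ 2 =
      ∑ k ∈ Finset.range n, ‖bx S E (p + k * (r / n)) (r / n) v‖ ^ 2 :=
    norm_sum_sq_orth n _ fun i j hij => bx_orth_inner F hrn hrn (hsep i j hij) _ _
  have h4 : (∑ k ∈ Finset.range n, bx S E (p + k * (r / n)) (r / n) v) = bx S E p r v := by
    rw [bx_sum F p hr n hn, sum_apply]
  have h5 : ‖bx S E p r v‖ ≤ ‖v‖ := by
    have h6 : ‖bx S E p r v‖ ^ 2 ≤ ‖v‖ * ‖bx S E p r v‖ := by
      have h7 : ⟪bx S E p r v, bx S E p r v⟫_ℂ = ⟪v, bx S E p r v⟫_ℂ := by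
        have h8 : ⟪bx S E p r v, bx S E p r v⟫_ℂ = ⟪v, star (bx S E p r) (bx S E p r v)⟫_ℂ := by
          rw [ContinuousLinearMap.star_eq_adjoint, ContinuousLinearMap.adjoint_inner_right]
        have h9 : bx S E p r (bx S E p r v) = bx S E p r v := FB.ap (FB.bx_idem F hr p) v
        rw [h8, FB.bx_sa F hr, h9]
      have h8 : ‖⟪bx S E p r v, bx S E p r v⟫_ℂ‖ ≤ ‖v‖ * ‖bx S E p r v‖ := by
        rw [h7]
        exact norm_inner_le_norm _ _
      rw [inner_self_eq_norm_sq_to_K] at h8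
      simpa using h8
    by_contra hcon
    push Not at hcon
    have h7 : 0 < ‖bx S E p r v‖ := (norm_nonneg v).trans_lt hcon
    nlinarith
  rw [h1]
  refine abs_le_of_sq_le_sq' ?_ (by positivity) |>.2
  rw [h2]
  calc ∑ k ∈ Finset.range n, ‖bx S E (p + k * (r / n)) (r / n) (κ (x k) v)‖ ^ 2
      ≤ ∑ k ∈ Finset.range n, C ^ 2 * ‖bx S E (p + k * (r / n)) (r / n) v‖ ^ 2 := by
        refine Finset.sum_le_sum fun k _ => ?_
        have h6 : bx S E (p + k * (r / n)) (r / n) (κ (x k) v) =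
            κ (x k) (bx S E (p + k * (r / n)) (r / n) v) :=
          (FB.ap (FB.κ_bx F hrn (x k) _) v).symm
        rw [h6, ← mul_pow]
        exact pow_le_pow_left₀ (norm_nonneg _) (hC k _) 2
    _ = C ^ 2 * ‖bx S E p r v‖ ^ 2 := by rw [← Finset.mul_sum, ← h3, h4]
    _ ≤ C ^ 2 * ‖v‖ ^ 2 := by gcongr
    _ = (C * ‖v‖) ^ 2 := by ring

theorem e_bx (F : Frame U κ e S W J E) {r : ℝ} (hr : 0 < r) (t p : ℝ) :
    e t * bx S E p r = bx S E p r * e t := by
  have h1 : S (-p) * e t =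
      Complex.exp (-(2 * Real.pi * I * t * ((-p : ℝ) : ℂ))) • (e t * S (-p)) := FB.S_e F t (-p)
  have h2 : bx S E p r = S p * E r 0 * S (-p) := rfl
  rw [h2]
  calc e t * (S p * E r 0 * S (-p)) = (e t * S p) * E r 0 * S (-p) := by simp only [mul_assoc]
    _ = Complex.exp (2 * Real.pi * I * t * p) • (S p * (e t * E r 0) * S (-p)) := by
        rw [F.e_S]; simp only [mul_assoc, smul_mul_assoc]
    _ = Complex.exp (2 * Real.pi * I * t * p) • (S p * E r 0 * (e t * S (-p))) := by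
        rw [FB.e_E F hr]; simp only [mul_assoc]
    _ = S p * E r 0 * S (-p) * e t := by
        rw [mul_assoc (S p * E r 0) (S (-p)), h1, mul_smul_comm]
        congr 2
        push_cast
        ring

theorem κ_le (x : H →L[ℂ] H) (C : ℝ) (hC : ‖x‖ ≤ C) (v : K) : ‖κ x v‖ ≤ C * ‖v‖ := by
  refine ((κ x).le_opNorm v).trans ?_
  refine mul_le_mul_of_nonneg_right ?_ (norm_nonneg _)
  exact (NonUnitalStarAlgHom.norm_apply_le κ x).trans hC

theorem Ev_norm (F : Frame U κ e S W J E) {X : K →L[ℂ] K} {x : H →L[ℂ] H} (h : Ev M J X x) :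
    ‖x‖ ≤ ‖X‖ := by
  refine ContinuousLinearMap.opNorm_le_bound _ (norm_nonneg _) fun v => ?_
  have h1 := (h.2 v).norm
  rw [norm_zero] at h1
  refine le_of_tendsto_of_tendsto (f := fun _ : ℝ => ‖x v‖)
    (g := fun r : ℝ => ‖X (J r v) - J r (x v)‖ + ‖X‖ * ‖v‖) (b := 𝓝[>] (0 : ℝ))
    tendsto_const_nhds ?_ ?_
  · have h2 := h1.add_const (‖X‖ * ‖v‖)
    rwa [zero_add] at h2
  · filter_upwards [self_mem_nhdsWithin] with r hr
    have hr' : 0 < r := hr
    have h3 : ‖J r (x v)‖ = ‖x v‖ := FB.J_norm F hr' _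
    have h4 : ‖X (J r v)‖ ≤ ‖X‖ * ‖v‖ := by
      refine (X.le_opNorm _).trans ?_
      rw [FB.J_norm F hr']
    calc ‖x v‖ = ‖J r (x v)‖ := h3.symm
      _ = ‖X (J r v) - (X (J r v) - J r (x v))‖ := by rw [sub_sub_cancel]
      _ ≤ ‖X (J r v)‖ + ‖X (J r v) - J r (x v)‖ := norm_sub_le _ _
      _ ≤ _ := by linarith

theorem tr_lip (F : Frame U κ e S W J E) {X : K →L[ℂ] K} {L : ℝ}
    (hL : ∀ s : ℝ, ‖S s * X * S (-s) - X‖ ≤ L * |s|) (p s : ℝ) :
    ‖S s * (S (-p) * X * S p) * S (-s) - S (-p) * X * S p‖ ≤ L * |s| := by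
  have h1 : S s * (S (-p) * X * S p) * S (-s) - S (-p) * X * S p =
      S (-p) * (S s * X * S (-s) - X) * S p := by
    have h2 : S s * S (-p) = S (-p) * S s := by rw [← F.S_add, ← F.S_add, add_comm]
    have h3 : S p * S (-s) = S (-s) * S p := by rw [← F.S_add, ← F.S_add, add_comm]
    calc S s * (S (-p) * X * S p) * S (-s) - S (-p) * X * S p
        = (S s * S (-p)) * X * (S p * S (-s)) - S (-p) * X * S p := by simp only [mul_assoc]
      _ = _ := by rw [h2, h3]; simp only [mul_assoc, mul_sub, sub_mul]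
  rw [h1]
  refine le_trans ?_ (hL s)
  have h3 : ‖S (-p)‖ ≤ 1 := ContinuousLinearMap.opNorm_le_bound _ zero_le_one fun v => by
    rw [FB.S_norm F, one_mul]
  have h4 : ‖S p‖ ≤ 1 := ContinuousLinearMap.opNorm_le_bound _ zero_le_one fun v => by
    rw [FB.S_norm F, one_mul]
  calc ‖S (-p) * (S s * X * S (-s) - X) * S p‖
      ≤ ‖S (-p)‖ * ‖S s * X * S (-s) - X‖ * ‖S p‖ :=
        (norm_mul_le _ _).trans (mul_le_mul_of_nonneg_right (norm_mul_le _ _) (norm_nonneg _))
    _ ≤ 1 * ‖S s * X * S (-s) - X‖ * 1 := by gcongr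
    _ = _ := by ring

/-- a Lipschitz element belongs to the core, on a box -/
theorem lip_box (hCTa : S_CTa) (hPer : S_Per) (hEv : S_Ev) (D : CoreD N N ξ U κ e S W J E A)
    (hR : RAct N ξ U J0 ρ) {X : K →L[ℂ] K} (hX : X ∈ RR N κ A) {L : ℝ}
    (hL : ∀ s : ℝ, ‖S s * X * S (-s) - X‖ ≤ L * |s|) (p : ℝ) {r : ℝ} (hr : 0 < r) :
    X * bx S E p r ∈ A := by
  have F := D.fr
  obtain ⟨x, hx1, -, -, hx2⟩ := hEv H K N N ξ U κ e S W J E A D X hX
  have hx3 := hx2 L hL
  have hLV : ∀ q, LV N κ S J A (x q) := by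
    intro q
    refine ⟨S (-q) * X * S q, L, ?_, hx1 q, fun s => tr_lip F hL q s⟩
    have h1 := FB.RR_S D (-q) hX
    rwa [neg_neg] at h1
  have hxU : ∀ q t, U t * x q = x q * U t := fun q t => LV_fix hCTa hPer hEv D hR (hLV q) t
  have hxN : ∀ q, x q ∈ N := fun q => LV_mem (hLV q)
  have hxA : ∀ q, κ (x q) ∈ A := fun q => κ_mem D D.std.sep (hxN q) (hxU q)
  have hxn : ∀ q, ‖x q‖ ≤ ‖X‖ := by
    intro q
    refine (Ev_norm F (hx1 q)).trans ?_
    refine ContinuousLinearMap.opNorm_le_bound _ (norm_nonneg _) fun v => ?_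
    show ‖S (-q) (X (S q v))‖ ≤ _
    rw [FB.S_norm F]
    refine (X.le_opNorm _).trans ?_
    rw [FB.S_norm F]
  -- the block diagonal approximations
  obtain ⟨Y, hY⟩ : ∃ Y : ℕ → K →L[ℂ] K, ∀ n, Y n = ∑ k ∈ Finset.range (n + 1),
      κ (x (p + k * (r / (n + 1 : ℕ)))) * bx S E (p + k * (r / (n + 1 : ℕ))) (r / (n + 1 : ℕ)) :=
    ⟨_, fun n => rfl⟩
  have hrn : ∀ n : ℕ, 0 < r / (n + 1 : ℕ) := fun n => by positivity
  have hYA : ∀ n, Y n ∈ A := by
    intro n
    rw [hY]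
    exact sum_mem fun k _ => mul_mem (hxA _) (FB.bx_mem D (hrn n) _)
  have hYn : ∀ n, ‖Y n‖ ≤ ‖X‖ := by
    intro n
    rw [hY]
    exact block_norm F p hr (n + 1) (Nat.succ_pos n)
      (fun k => x (p + k * (r / (n + 1 : ℕ)))) ‖X‖ (norm_nonneg _)
      fun k v => κ_le _ _ (hxn _) v
  have hYe : ∀ n t, Y n * e t = e t * Y n := by
    intro n t
    rw [hY, Finset.sum_mul, Finset.mul_sum]
    refine Finset.sum_congr rfl fun k _ => ?_
    rw [mul_assoc, ← e_bx F (hrn n), ← mul_assoc, F.κ_e, mul_assoc]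
  have hYκ : ∀ n (y : H →L[ℂ] H), y ∈ N.commutant → Y n * κ y = κ y * Y n := by
    intro n y hy
    rw [hY, Finset.sum_mul, Finset.mul_sum]
    refine Finset.sum_congr rfl fun k _ => ?_
    rw [mul_assoc, ← FB.κ_bx F (hrn n), ← mul_assoc, ← map_mul,
      (VonNeumannAlgebra.mem_commutant_iff.1 hy) _ (hxN _), map_mul, mul_assoc]
  -- convergence on the box vector of `ξ`
  have hconv : Tendsto (fun n => (Y n - X * bx S E p r) (S p (J r ξ))) atTop (𝓝 0) := by
    have hL0 : 0 ≤ L := by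
      have h1 := (norm_nonneg _).trans (hL 1)
      simpa using h1
    have hb : ∀ n : ℕ, ‖(Y n - X * bx S E p r) (S p (J r ξ))‖ ≤
        L * r * Real.sqrt (1 / (n + 1 : ℕ)) := by
      intro n
      have h1 : (Y n - X * bx S E p r) (S p (J r ξ)) = ∑ k ∈ Finset.range (n + 1),
          ((Real.sqrt ((r / (n + 1 : ℕ)) / r) : ℝ) : ℂ) •
            (S (p + k * (r / (n + 1 : ℕ))) (J (r / (n + 1 : ℕ)) (x (p + k * (r / (n + 1 : ℕ))) ξ)) -
              X (S (p + k * (r / (n + 1 : ℕ))) (J (r / (n + 1 : ℕ)) ξ))) := by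
        have h2 : (X * bx S E p r) (S p (J r ξ)) = ∑ k ∈ Finset.range (n + 1),
            X (bx S E (p + k * (r / (n + 1 : ℕ))) (r / (n + 1 : ℕ)) (S p (J r ξ))) := by
          show X (bx S E p r (S p (J r ξ))) = _
          rw [bx_sum F p hr (n + 1) (Nat.succ_pos n), sum_apply, map_sum]
        have h3 : Y n (S p (J r ξ)) = ∑ k ∈ Finset.range (n + 1),
            κ (x (p + k * (r / (n + 1 : ℕ))))
              (bx S E (p + k * (r / (n + 1 : ℕ))) (r / (n + 1 : ℕ)) (S p (J r ξ))) := by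
          rw [hY, sum_apply]
          rfl
        show Y n (S p (J r ξ)) - (X * bx S E p r) (S p (J r ξ)) = _
        rw [h2, h3, ← Finset.sum_sub_distrib]
        refine Finset.sum_congr rfl fun k hk => ?_
        rw [bx_subJ F p hr (n + 1) k (Nat.succ_pos n) (Finset.mem_range.1 hk) ξ, map_smul, map_smul,
          ← smul_sub]
        congr 2
        have h4 : κ (x (p + k * (r / (n + 1 : ℕ))))
            (S (p + k * (r / (n + 1 : ℕ))) (J (r / (n + 1 : ℕ)) ξ)) =
            S (p + k * (r / (n + 1 : ℕ))) (κ (x (p + k * (r / (n + 1 : ℕ)))) (J (r / (n + 1 : ℕ)) ξ)) :=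
          FB.ap (F.κ_S _ _) _
        rw [h4, F.κ_J _ _ _ (hrn n)]
      rw [h1]
      refine (norm_sum_le _ _).trans ?_
      have h2 : ∀ k ∈ Finset.range (n + 1), ‖((Real.sqrt ((r / (n + 1 : ℕ)) / r) : ℝ) : ℂ) •
            (S (p + k * (r / (n + 1 : ℕ))) (J (r / (n + 1 : ℕ)) (x (p + k * (r / (n + 1 : ℕ))) ξ)) -
              X (S (p + k * (r / (n + 1 : ℕ))) (J (r / (n + 1 : ℕ)) ξ)))‖ ≤
          Real.sqrt (1 / (n + 1 : ℕ)) * (L * (r / (n + 1 : ℕ))) := by
        intro k _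
        rw [norm_smul, norm_sub_rev]
        have h3 : (r / (n + 1 : ℕ)) / r = 1 / (n + 1 : ℕ) := by
          field_simp
        rw [h3]
        have h4 : ‖((Real.sqrt (1 / (n + 1 : ℕ)) : ℝ) : ℂ)‖ = Real.sqrt (1 / (n + 1 : ℕ)) := by
          rw [Complex.norm_real, Real.norm_eq_abs, abs_of_nonneg (Real.sqrt_nonneg _)]
        rw [h4]
        exact mul_le_mul_of_nonneg_left (hx3 _ _ (hrn n)) (Real.sqrt_nonneg _)
      refine (Finset.sum_le_sum h2).trans ?_
      rw [Finset.sum_const, Finset.card_range, nsmul_eq_mul]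
      have h5 : ((n + 1 : ℕ) : ℝ) ≠ 0 := by positivity
      refine le_of_eq ?_
      field_simp
    have hlim : Tendsto (fun n : ℕ => L * r * Real.sqrt (1 / (n + 1 : ℕ))) atTop (𝓝 0) := by
      have h1 : Tendsto (fun n : ℕ => (1 : ℝ) / (n + 1 : ℕ)) atTop (𝓝 0) := by
        have := tendsto_one_div_add_atTop_nhds_zero_nat (𝕜 := ℝ)
        simpa using this
      have h2 := (Real.continuous_sqrt.tendsto 0).comp h1
      rw [Real.sqrt_zero] at h2
      have h3 := h2.const_mul (L * r)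
      rw [mul_zero] at h3
      exact h3
    exact squeeze_zero_norm hb hlim
  -- convergence everywhere
  have hall : ∀ v : K, Tendsto (fun n => (Y n - X * bx S E p r) (bx S E p r v)) atTop (𝓝 0) := by
    intro v
    refine tot D D.std.sep (fun n => Y n - X * bx S E p r) (‖X‖ + ‖X * bx S E p r‖) (fun n => ?_)
      (fun n t => ?_) (fun n y hy => ?_) hr hconv v
    · exact (norm_sub_le _ _).trans (add_le_add (hYn n) le_rfl)
    · have h1 : X * e t = e t * X := hX.2 _ (D.gen_e t)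
      rw [sub_mul, mul_sub, hYe, mul_assoc X, ← e_bx F hr, ← mul_assoc X, h1, mul_assoc (e t)]
    · have h1 : X * κ y = κ y * X := hX.1 y hy
      rw [sub_mul, mul_sub, hYκ n y hy, mul_assoc X, ← FB.κ_bx F hr, ← mul_assoc X, h1,
        mul_assoc (κ y)]
  have hbb : ∀ v : K, bx S E p r (bx S E p r v) = bx S E p r v := fun v =>
    FB.ap (FB.bx_idem F hr p) v
  have hlimY : ∀ v : K, Tendsto (fun n => Y n (bx S E p r v)) atTop (𝓝 (X (bx S E p r v))) := by
    intro v
    have h1 := (hall v).add_const (X (bx S E p r v))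
    rw [zero_add] at h1
    refine h1.congr fun n => ?_
    show Y n (bx S E p r v) - X (bx S E p r (bx S E p r v)) + X (bx S E p r v) = _
    rw [hbb, sub_add_cancel]
  refine FB.mem_of_comm D fun R hRc => ?_
  ext v
  show R (X (bx S E p r v)) = X (bx S E p r (R v))
  have h1 := (R.continuous.tendsto _).comp (hlimY v)
  have h2 := hlimY (R v)
  refine tendsto_nhds_unique h1 (h2.congr fun n => ?_)
  have h3 : R (bx S E p r v) = bx S E p r (R v) := FB.ap (hRc _ (FB.bx_mem D hr p)) v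
  have h4 : R (Y n (bx S E p r v)) = Y n (R (bx S E p r v)) := FB.ap (hRc _ (hYA n)) _
  show Y n (bx S E p r (R v)) = R (Y n (bx S E p r v))
  rw [h4, h3]

theorem lip_scalar (hCTa : S_CTa) (hPer : S_Per) (hEv : S_Ev) (D : CoreD N N ξ U κ e S W J E A)
    (hR : RAct N ξ U J0 ρ) {X : K →L[ℂ] K} (hX : X ∈ RR N κ A) {L : ℝ}
    (hL : ∀ s : ℝ, ‖S s * X * S (-s) - X‖ ≤ L * |s|) : ∃ c : ℂ, X = c • (1 : K →L[ℂ] K) := by
  have F := D.fr
  have hXA : X ∈ A := by
    refine FB.mem_of_comm D fun R hRc => ?_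
    ext v
    show R (X v) = X (R v)
    have h1 : Tendsto (fun n : ℝ => R (X (bx S E (-n) (2 * n) v))) atTop (𝓝 (R (X v))) :=
      ((R * X).continuous.tendsto v).comp (F.exhaust v)
    have h2 : Tendsto (fun n : ℝ => X (bx S E (-n) (2 * n) (R v))) atTop (𝓝 (X (R v))) :=
      (X.continuous.tendsto _).comp (F.exhaust (R v))
    refine tendsto_nhds_unique h1 (h2.congr' ?_)
    filter_upwards [eventually_gt_atTop (0 : ℝ)] with n hn
    have h3 := lip_box hCTa hPer hEv D hR hX hL (-n) (r := 2 * n) (by linarith)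
    exact (FB.ap (hRc _ h3) v).symm
  exact D.fac X hXA fun Z hZ => (hX.2 Z hZ).symm

/-- the relative commutant of the core is trivial -/
theorem main (hCTa : S_CTa) (hPer : S_Per) (hEv : S_Ev) : S_CT := by
  intro H K _ _ _ _ _ _ N ξ U J0 ρ κ e S W J E A D hR X hX
  have F := D.fr
  refine scalar_of_avg F X (J 1 ξ) ?_ fun t ht => ?_
  · rw [FB.J_norm F zero_lt_one, D.std.unit]
  · exact lip_scalar hCTa hPer hEv D hR (avg_RR D hX t) (avg_lip F X ht)

end

end Pool.Agent.H75.BC.T.CT2
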