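import Pool.Agent.H75.BC.T.Ev

/-!
CT1: the trace inequality for Lipschitz elements of the relative commutant (helper53).
-/

set_option autoImplicit false

open MeasureTheory Filter Topology Complex
open scoped InnerProductSpace ENNReal

namespace Pool.Agent.H75.BC.CTa

open Pool.Agent.W662.CB Pool.Agent.H75.BC Pool.Agent.H75.BC.FB Pool.Agent.H75.BC.Ev

noncomputable section

variable {H : Type} [NormedAddCommGroup H] [InnerProductSpace ℂ H] [CompleteSpace H]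
  {K : Type} [NormedAddCommGroup K] [InnerProductSpace ℂ K] [CompleteSpace K]
  {M N : VonNeumannAlgebra H} {ξ : H} {U : ℝ → H →L[ℂ] H} {J0 : H → H}
  {ρ : (H →L[ℂ] H) → (H →L[ℂ] H)}
  {κ : (H →L[ℂ] H) →⋆ₐ[ℂ] (K →L[ℂ] K)} {e S : ℝ → K →L[ℂ] K}
  {W : K →L[ℂ] K} {J : ℝ → H →L[ℂ] K} {E : ℝ → ℂ → K →L[ℂ] K} {A : VonNeumannAlgebra K}

section fr

variable (F : Frame U κ e S W J E)
include F

/-- the value is determined by matrix coefficients -/
theorem val_inner {X : K →L[ℂ] K} {x : H →L[ℂ] H} (hx : Ev M J X x) (v w : H) :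
    Tendsto (fun r : ℝ => ⟪J r w, X (J r v)⟫_ℂ) (𝓝[>] 0) (𝓝 ⟪w, x v⟫_ℂ) := by
  have h1 := (hx.2 v).norm
  rw [norm_zero] at h1
  have h2 : Tendsto (fun r : ℝ => ‖w‖ * ‖X (J r v) - J r (x v)‖) (𝓝[>] 0) (𝓝 0) := by
    have := h1.const_mul ‖w‖
    rwa [mul_zero] at this
  refine tendsto_iff_norm_sub_tendsto_zero.2 (squeeze_zero' (Eventually.of_forall fun _ => norm_nonneg _) ?_ h2)
  filter_upwards [self_mem_nhdsWithin] with r hr
  have hr : 0 < r := hr
  have h3 : ⟪J r w, X (J r v)⟫_ℂ - ⟪w, x v⟫_ℂ = ⟪J r w, X (J r v) - J r (x v)⟫_ℂ := by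
    rw [inner_sub_right, J_inner F hr]
  rw [h3]
  refine (norm_inner_le_norm _ _).trans ?_
  rw [J_norm F hr]

theorem val_unique {X : K →L[ℂ] K} {x x' : H →L[ℂ] H} (hx : Ev M J X x) (hx' : Ev M J X x') :
    x = x' := by
  ext v
  refine ext_inner_left ℂ fun w => ?_
  exact tendsto_nhds_unique (val_inner F hx v w) (val_inner F hx' v w)

theorem val_star {X : K →L[ℂ] K} {x x' : H →L[ℂ] H} (hx : Ev M J X x) (hx' : Ev M J (star X) x') :
    x' = star x := by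
  ext v
  refine ext_inner_left ℂ fun w => ?_
  refine tendsto_nhds_unique (val_inner F hx' v w) ?_
  have h1 := (val_inner F hx w v).star
  have h2 : star ⟪v, x w⟫_ℂ = ⟪w, star x v⟫_ℂ := by
    rw [ContinuousLinearMap.star_eq_adjoint, ContinuousLinearMap.adjoint_inner_right]
    exact inner_conj_symm _ _
  rw [h2] at h1
  refine h1.congr fun r => ?_
  show star ⟪J r v, X (J r w)⟫_ℂ = ⟪J r w, star X (J r v)⟫_ℂ
  rw [ContinuousLinearMap.star_eq_adjoint, ContinuousLinearMap.adjoint_inner_right]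
  exact inner_conj_symm _ _

/-- `e_t W* J_r v = W* e_t J_r U_t v` -/
theorem e_Ws (hU : U 0 = 1 ∧ ∀ s t : ℝ, U (s + t) = U s * U t) (t r : ℝ) (hr : 0 < r) (v : H) :
    e t (star W (J r v)) = star W (e t (J r (U t v))) := by
  have h1 := F.e_W t
  have h2 : star W * e t = κ (U (-t)) * e t * star W := by
    rw [← h1]
    simp only [mul_assoc, F.W_un2, mul_one]
  have h3 : κ (U t) * κ (U (-t)) = 1 := by
    rw [← map_mul, ← hU.2, add_neg_cancel, hU.1, map_one]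
  have h4 : κ (U t) * star W = star W * κ (U t) := by
    calc κ (U t) * star W = star W * (W * κ (U t)) * star W := by
          rw [← mul_assoc, F.W_un1, one_mul]
      _ = star W * (κ (U t) * W) * star W := by rw [F.W_U]
      _ = star W * κ (U t) := by simp only [mul_assoc, F.W_un2, mul_one]
  have h5 : e t * star W = star W * (e t * κ (U t)) := by
    calc e t * star W = κ (U t) * (κ (U (-t)) * e t * star W) := by
          rw [← mul_assoc, ← mul_assoc, h3, one_mul]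
      _ = κ (U t) * star W * e t := by rw [← h2, mul_assoc]
      _ = star W * (κ (U t) * e t) := by rw [h4, mul_assoc]
      _ = _ := by rw [F.κ_e]
  have h6 := ap h5 (J r v)
  have h7 : e t (star W (J r v)) = star W (e t (κ (U t) (J r v))) := h6
  rw [h7, F.κ_J _ _ _ hr]

theorem bx_contr {r : ℝ} (hr : 0 < r) (p : ℝ) (u : K) : ‖bx S E p r u‖ ≤ ‖u‖ := by
  have h7 : ‖bx S E p r u‖ ^ 2 ≤ ‖bx S E p r u‖ * ‖u‖ := by
    have h8 : ⟪bx S E p r u, bx S E p r u⟫_ℂ = ⟪bx S E p r u, u⟫_ℂ := by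
      rw [inner_bx F hr]
      have := ap (bx_idem F hr p) u
      have h9 : bx S E p r (bx S E p r u) = bx S E p r u := this
      rw [h9, inner_bx F hr]
    have h9 : ((‖bx S E p r u‖ ^ 2 : ℝ) : ℂ) = ⟪bx S E p r u, u⟫_ℂ := by
      rw [← h8, inner_self_eq_norm_sq_to_K]; norm_cast
    calc ‖bx S E p r u‖ ^ 2 = ‖((‖bx S E p r u‖ ^ 2 : ℝ) : ℂ)‖ := by
          rw [Complex.norm_real, Real.norm_eq_abs, abs_of_nonneg (by positivity)]
      _ = ‖⟪bx S E p r u, u⟫_ℂ‖ := by rw [h9]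
      _ ≤ _ := norm_inner_le_norm _ _
  rcases eq_or_lt_of_le (norm_nonneg (bx S E p r u)) with h8 | h8
  · rw [← h8]; exact norm_nonneg _
  · rw [sq] at h7
    exact le_of_mul_le_mul_left h7 h8

theorem bx_inner_self {r : ℝ} (hr : 0 < r) (p : ℝ) (u : K) :
    ⟪u, bx S E p r u⟫_ℂ = ((‖bx S E p r u‖ ^ 2 : ℝ) : ℂ) := by
  have h9 : bx S E p r (bx S E p r u) = bx S E p r u := ap (bx_idem F hr p) u
  rw [← h9, ← inner_bx F hr, inner_self_eq_norm_sq_to_K, h9]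
  norm_cast

/-- the window `[-mr, mr]` is the sum of `2m` boxes -/
theorem window {r : ℝ} (hr : 0 < r) {m : ℕ} (hm : 0 < m) :
    bx S E (-((m : ℝ) * r)) (2 * ((m : ℝ) * r)) =
      ∑ k ∈ Finset.range (2 * m), bx S E (-((m : ℝ) * r) + (k : ℝ) * r) r := by
  have hm' : (0 : ℝ) < m := by exact_mod_cast hm
  have h1 := F.box_sum (2 * ((m : ℝ) * r)) (2 * m) (by positivity) (by omega)
  have h2 : 2 * ((m : ℝ) * r) / ((2 * m : ℕ) : ℝ) = r := by
    push_cast; field_simp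
  rw [h2] at h1
  have h3 : bx S E (-((m : ℝ) * r)) (2 * ((m : ℝ) * r)) =
      S (-((m : ℝ) * r)) * E (2 * ((m : ℝ) * r)) 0 * S (-(-((m : ℝ) * r))) := rfl
  rw [h3, h1, Finset.mul_sum, Finset.sum_mul]
  exact Finset.sum_congr rfl fun k _ => S_bx F _ _ _

theorem bessel {r : ℝ} (hr : 0 < r) {m : ℕ} (hm : 0 < m) (u : K) :
    ∑ k ∈ Finset.range (2 * m), ‖bx S E (-((m : ℝ) * r) + (k : ℝ) * r) r u‖ ^ 2 ≤ ‖u‖ ^ 2 := by
  have hm' : (0 : ℝ) < m := by exact_mod_cast hm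
  have h1 : ((∑ k ∈ Finset.range (2 * m), ‖bx S E (-((m : ℝ) * r) + (k : ℝ) * r) r u‖ ^ 2 : ℝ) : ℂ) =
      ((‖bx S E (-((m : ℝ) * r)) (2 * ((m : ℝ) * r)) u‖ ^ 2 : ℝ) : ℂ) := by
    rw [← bx_inner_self F (by positivity), window F hr hm, sum_apply, inner_sum]
    push_cast
    refine Finset.sum_congr rfl fun k _ => ?_
    rw [bx_inner_self F hr]
    push_cast
    rfl
  have h2 : ∑ k ∈ Finset.range (2 * m), ‖bx S E (-((m : ℝ) * r) + (k : ℝ) * r) r u‖ ^ 2 =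
      ‖bx S E (-((m : ℝ) * r)) (2 * ((m : ℝ) * r)) u‖ ^ 2 := by exact_mod_cast h1
  rw [h2]
  exact pow_le_pow_left₀ (norm_nonneg _) (bx_contr F (by positivity) _ _) 2

end fr

section core

variable (D : CoreD M N ξ U κ e S W J E A)
  (hF : ∀ T : K →L[ℂ] K, T ∈ RR M κ A → ∀ p r : ℝ, 0 < r →
    ⟪S p (J r ξ), T (S p (J r ξ))⟫_ℂ = ⟪J 1 ξ, T (J 1 ξ)⟫_ℂ)
include D hF

/-- the form `t ↦ ⟪x_p ξ, U_t x_p ξ⟫` does not depend on `p` -/
theorem diag {X : K →L[ℂ] K} (hX : X ∈ RR M κ A) (p : ℝ) {z : H}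
    (hz : ∀ ε : ℝ, 0 < ε → ∃ r0 : ℝ, 0 < r0 ∧ ∀ r : ℝ, 0 < r → r ≤ r0 →
      ‖X (S p (J r ξ)) - S p (J r z)‖ ≤ ε) (t : ℝ) :
    ⟪z, U t z⟫_ℂ = ⟪J 1 ξ, (star X * ((e t * κ (U t)) * X * (e (-t) * κ (U (-t))))) (J 1 ξ)⟫_ℂ := by
  have F := D.fr
  have hD : star X * ((e t * κ (U t)) * X * (e (-t) * κ (U (-t)))) ∈ RR M κ A :=
    RR_mul (RR_star hX) (RR_V D t hX)
  have h1 : ∀ r : ℝ, 0 < r → ⟪X (S p (J r ξ)), κ (U t) (X (S p (J r ξ)))⟫_ℂ =
      ⟪J 1 ξ, (star X * ((e t * κ (U t)) * X * (e (-t) * κ (U (-t))))) (J 1 ξ)⟫_ℂ := by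
    intro r hr
    rw [← hF _ hD p r hr]
    have h2 : (star X * ((e t * κ (U t)) * X * (e (-t) * κ (U (-t))))) (S p (J r ξ)) =
        star X (κ (U t) (X (S p (J r ξ)))) := by
      show star X (e t (κ (U t) (X (e (-t) (κ (U (-t)) (S p (J r ξ))))))) = _
      have h3 : κ (U (-t)) (S p (J r ξ)) = S p (J r ξ) := by
        have h4 : κ (U (-t)) (S p (J r ξ)) = S p (κ (U (-t)) (J r ξ)) := ap (F.κ_S _ p) _
        rw [h4, F.κ_J _ _ _ hr, D.std.modular.fix]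
      have h5 : X (e (-t) (S p (J r ξ))) = e (-t) (X (S p (J r ξ))) := ap (hX.2 _ (D.gen_e (-t))) _
      have h6 : κ (U t) (e (-t) (X (S p (J r ξ)))) = e (-t) (κ (U t) (X (S p (J r ξ)))) :=
        ap (F.κ_e _ (-t)) _
      have h7 : ∀ f : K, e t (e (-t) f) = f := fun f => ap (e_mul_neg F t) f
      rw [h3, h5, h6, h7]
    rw [h2, ContinuousLinearMap.star_eq_adjoint, ContinuousLinearMap.adjoint_inner_right]
  rw [← sub_eq_zero, ← norm_le_zero_iff]
  refine le_of_forall_pos_le_add fun ε hε => ?_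
  rw [zero_add]
  set C : ℝ := ‖κ (U t)‖ * (‖X‖ * ‖ξ‖ + ‖z‖) + 1 with hC
  have hC0 : 0 < C := by positivity
  obtain ⟨r0, hr0, h2⟩ := hz (ε / C) (by positivity)
  have h3 := h2 r0 hr0 le_rfl
  rw [← h1 r0 hr0]
  have h4 : ⟪z, U t z⟫_ℂ = ⟪S p (J r0 z), κ (U t) (S p (J r0 z))⟫_ℂ := by
    have h5 : κ (U t) (S p (J r0 z)) = S p (J r0 (U t z)) := by
      have h4 : κ (U t) (S p (J r0 z)) = S p (κ (U t) (J r0 z)) := ap (F.κ_S _ p) _
      rw [h4, F.κ_J _ _ _ hr0]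
    rw [h5]
    have h6 : ∀ a b : K, ⟪S p a, S p b⟫_ℂ = ⟪a, b⟫_ℂ := by
      intro a b
      rw [← ContinuousLinearMap.adjoint_inner_right, ← ContinuousLinearMap.star_eq_adjoint,
        F.S_star, S_cancel' F]
    rw [h6, J_inner F hr0]
  set a := X (S p (J r0 ξ)) with ha
  set b := S p (J r0 z) with hb
  have h5 : ⟪z, U t z⟫_ℂ - ⟪a, κ (U t) a⟫_ℂ = -(⟪a - b, κ (U t) a⟫_ℂ + ⟪b, κ (U t) (a - b)⟫_ℂ) := by
    rw [h4, inner_sub_left, map_sub, inner_sub_right]; ring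
  rw [h5, norm_neg]
  have ha' : ‖a‖ ≤ ‖X‖ * ‖ξ‖ := by
    have h6 : ‖X (S p (J r0 ξ))‖ ≤ ‖X‖ * ‖S p (J r0 ξ)‖ := X.le_opNorm _
    rwa [S_norm F, J_norm F hr0] at h6
  have hb' : ‖b‖ = ‖z‖ := by rw [hb, S_norm F, J_norm F hr0]
  have h6 : ‖⟪a - b, κ (U t) a⟫_ℂ‖ ≤ ε / C * (‖κ (U t)‖ * (‖X‖ * ‖ξ‖)) := by
    refine (norm_inner_le_norm _ _).trans ?_
    refine mul_le_mul h3 ?_ (norm_nonneg _) (by positivity)
    exact ((κ (U t)).le_opNorm _).trans (mul_le_mul_of_nonneg_left ha' (norm_nonneg _))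
  have h7 : ‖⟪b, κ (U t) (a - b)⟫_ℂ‖ ≤ ‖z‖ * (‖κ (U t)‖ * (ε / C)) := by
    refine (norm_inner_le_norm _ _).trans ?_
    rw [hb']
    refine mul_le_mul_of_nonneg_left ?_ (norm_nonneg _)
    exact ((κ (U t)).le_opNorm _).trans (mul_le_mul_of_nonneg_left h3 (norm_nonneg _))
  calc ‖⟪a - b, κ (U t) a⟫_ℂ + ⟪b, κ (U t) (a - b)⟫_ℂ‖
      ≤ ε / C * (‖κ (U t)‖ * (‖X‖ * ‖ξ‖)) + ‖z‖ * (‖κ (U t)‖ * (ε / C)) :=
        (norm_add_le _ _).trans (add_le_add h6 h7)
    _ = ε / C * (C - 1) := by rw [hC]; ring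
    _ ≤ ε / C * C := mul_le_mul_of_nonneg_left (by linarith) (by positivity)
    _ = ε := by field_simp

omit hF in
/-- `W* J_r ξ = J_r ξ` -/
theorem Ws_J {r : ℝ} (hr : 0 < r) : star W (J r ξ) = J r ξ := by
  have F := D.fr
  have h1 : W (J r ξ) = J r ξ := F.W_J r ξ hr D.std.modular.fix
  calc star W (J r ξ) = star W (W (J r ξ)) := by rw [h1]
    _ = J r ξ := ap F.W_un1 _

omit hF in
theorem π_SJ (y : H →L[ℂ] H) (p : ℝ) {r : ℝ} (hr : 0 < r) :
    (W * κ y * star W) (S p (J r ξ)) = W (S p (J r (y ξ))) := by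
  have F := D.fr
  have h1 : (W * κ y * star W) (S p (J r ξ)) = S p ((W * κ y * star W) (J r ξ)) :=
    (ap (S_comm_W D p y) _).symm
  have h2 : (W * κ y * star W) (J r ξ) = W (J r (y ξ)) := by
    show W (κ y (star W (J r ξ))) = _
    rw [Ws_J D hr, F.κ_J _ _ _ hr]
  have h3 : W (S p (J r (y ξ))) = S p (W (J r (y ξ))) := ap (F.W_S p) _
  rw [h1, h2, h3]

omit hF in
/-- the estimate at scale `r` with `2m` boxes -/
theorem main_est {X : K →L[ℂ] K} (hX : X ∈ RR M κ A) {x : H →L[ℂ] H} {z : ℝ → H} {L r : ℝ}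
    (hL : 0 ≤ L) (hr : 0 < r) {m : ℕ} (hm : 0 < m) (hxN : star x ∈ N)
    (hz : ∀ p : ℝ, ‖X (S p (J r ξ)) - S p (J r (z p))‖ ≤ L * r)
    (hzs : ‖star X (J r ξ) - J r (star x ξ)‖ ≤ L * r)
    (hform : ∀ p t : ℝ, ⟪z p, U t (z p)⟫_ℂ = ⟪x ξ, U t (x ξ)⟫_ℂ) :
    ‖bx S E (-((m : ℝ) * r)) (2 * ((m : ℝ) * r)) (star W (J r (star x ξ)))‖ ^ 2 ≤
      ‖x ξ‖ ^ 2 + 2 * (L * r) * ‖W * κ (star x) * star W‖ * Real.sqrt (2 * m) := by
  have F := D.fr
  have hm' : (0 : ℝ) < m := by exact_mod_cast hm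
  set P : K →L[ℂ] K := W * κ (star x) * star W with hP
  set pk : ℕ → ℝ := fun k => -((m : ℝ) * r) + (k : ℝ) * r with hpk
  have hSp : ∀ (k : ℕ) (f : K), S (pk k) f = S (-((m : ℝ) * r)) (S ((k : ℝ) * r) f) := by
    intro k f
    rw [hpk]
    simp only
    rw [F.S_add]; rfl
  set g : K := ∑ k ∈ Finset.range (2 * m), S (pk k) (J r ξ) with hg
  set gx : K := ∑ k ∈ Finset.range (2 * m), S (pk k) (J r (z (pk k))) with hgx
  have hg1 : ‖g‖ ≤ Real.sqrt (2 * m) := by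
    apply Real.le_sqrt_of_sq_le
    have h1 : g = S (-((m : ℝ) * r)) (∑ k ∈ Finset.range (2 * m), S ((k : ℝ) * r) (J r ξ)) := by
      rw [hg, map_sum]
      exact Finset.sum_congr rfl fun k _ => hSp k _
    rw [h1, S_norm F, norm_sum_box F hr (2 * m) (fun _ => J r ξ) fun _ => F.E_J r ξ hr]
    simp only [J_norm F hr, D.std.unit, one_pow, Finset.sum_const, Finset.card_range,
      nsmul_eq_mul, mul_one]
    push_cast
    exact le_rfl
  have hgx1 : ‖X g - gx‖ ≤ L * r * Real.sqrt (2 * m) := by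
    have h1 : X g - gx = S (-((m : ℝ) * r)) (∑ k ∈ Finset.range (2 * m), S ((k : ℝ) * r)
        ((S (-(pk k)) * X * S (pk k)) (J r ξ) - J r (z (pk k)))) := by
      rw [hg, hgx, map_sum, map_sum, ← Finset.sum_sub_distrib]
      refine Finset.sum_congr rfl fun k _ => ?_
      rw [← hSp, map_sub]
      congr 1
      show _ = S (pk k) (S (-(pk k)) (X (S (pk k) (J r ξ))))
      rw [S_cancel F]
    have h2 : ‖X g - gx‖ ^ 2 ≤ (L * r * Real.sqrt (2 * m)) ^ 2 := by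
      rw [h1, S_norm F, norm_sum_box F hr (2 * m)]
      · rw [mul_pow, Real.sq_sqrt (by positivity)]
        calc ∑ k ∈ Finset.range (2 * m), ‖(S (-(pk k)) * X * S (pk k)) (J r ξ) - J r (z (pk k))‖ ^ 2
            ≤ ∑ k ∈ Finset.range (2 * m), (L * r) ^ 2 := by
              refine Finset.sum_le_sum fun k _ => pow_le_pow_left₀ (norm_nonneg _) ?_ 2
              have h3 : (S (-(pk k)) * X * S (pk k)) (J r ξ) - J r (z (pk k)) =
                  S (-(pk k)) (X (S (pk k) (J r ξ)) - S (pk k) (J r (z (pk k)))) := by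
                rw [map_sub, S_cancel' F]; rfl
              rw [h3, S_norm F]
              exact hz _
          _ = _ := by
              rw [Finset.sum_const, Finset.card_range, nsmul_eq_mul]
              push_cast
              ring
      · intro k
        rw [map_sub, E_fix D (shift_mem D hX _) hr (F.E_J _ _ hr), F.E_J _ _ hr]
    exact (le_abs_self _).trans (abs_le_of_sq_le_sq h2 (by positivity))
  have hPA : P ∈ A := D.gen_W _ hxN
  -- (i)
  have h1 : ⟪star X (J r ξ), P g⟫_ℂ = ⟪J r ξ, P (X g)⟫_ℂ := by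
    rw [ContinuousLinearMap.star_eq_adjoint, ContinuousLinearMap.adjoint_inner_left]
    have h2 : X (P g) = P (X g) := ap (hX.2 _ hPA) g
    rw [h2]
  -- (iv)
  have h2 : ⟪J r (star x ξ), P g⟫_ℂ =
      ((‖bx S E (-((m : ℝ) * r)) (2 * ((m : ℝ) * r)) (star W (J r (star x ξ)))‖ ^ 2 : ℝ) : ℂ) := by
    rw [← bx_inner_self F (by positivity), window F hr hm, sum_apply, inner_sum, hg, map_sum,
      inner_sum]
    refine Finset.sum_congr rfl fun k _ => ?_
    have hWi : ∀ a b : K, ⟪star W a, b⟫_ℂ = ⟪a, W b⟫_ℂ := by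
      intro a b
      rw [ContinuousLinearMap.star_eq_adjoint, ContinuousLinearMap.adjoint_inner_left]
    rw [hP, π_SJ D _ _ hr, F.W_box' _ _ _ _ hr, hWi]
  -- (v)
  have h3 : ‖⟪J r ξ, P gx⟫_ℂ‖ ≤ ‖x ξ‖ ^ 2 := by
    have h4 : ⟪J r ξ, P gx⟫_ℂ = ∑ k ∈ Finset.range (2 * m),
        ⟪W (J r (x ξ)), bx S E (pk k) r (W (J r (z (pk k))))⟫_ℂ := by
      have h5 : star P = W * κ x * star W := by
        rw [hP, star_mul, star_mul, star_star, ← map_star, star_star, mul_assoc]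
      rw [← ContinuousLinearMap.adjoint_inner_left, ← ContinuousLinearMap.star_eq_adjoint, h5]
      have h6 : (W * κ x * star W) (J r ξ) = W (J r (x ξ)) := by
        show W (κ x (star W (J r ξ))) = _
        rw [Ws_J D hr, F.κ_J _ _ _ hr]
      rw [h6, hgx, inner_sum]
      exact Finset.sum_congr rfl fun k _ => (F.W_box _ _ _ _ hr).symm
    rw [h4]
    refine (norm_sum_le _ _).trans ?_
    have h5 : ∀ k ∈ Finset.range (2 * m), ‖⟪W (J r (x ξ)), bx S E (pk k) r (W (J r (z (pk k))))⟫_ℂ‖ ≤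
        ‖bx S E (pk k) r (W (J r (x ξ)))‖ ^ 2 := by
      intro k _
      have h6 : ‖bx S E (pk k) r (W (J r (z (pk k))))‖ = ‖bx S E (pk k) r (W (J r (x ξ)))‖ := by
        have h7 : ((‖bx S E (pk k) r (W (J r (z (pk k))))‖ ^ 2 : ℝ) : ℂ) =
            ((‖bx S E (pk k) r (W (J r (x ξ)))‖ ^ 2 : ℝ) : ℂ) := by
          rw [← bx_inner_self F hr, ← bx_inner_self F hr, F.W_box _ _ _ _ hr, F.W_box _ _ _ _ hr]
          exact F.W_form _ _ _ _ hr (hform _)
        have h8 : ‖bx S E (pk k) r (W (J r (z (pk k))))‖ ^ 2 =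
            ‖bx S E (pk k) r (W (J r (x ξ)))‖ ^ 2 := by exact_mod_cast h7
        exact (sq_eq_sq₀ (norm_nonneg _) (norm_nonneg _)).1 h8
      have h7 : bx S E (pk k) r (bx S E (pk k) r (W (J r (z (pk k))))) =
          bx S E (pk k) r (W (J r (z (pk k)))) := ap (bx_idem F hr _) _
      rw [← h7, ← inner_bx F hr]
      refine (norm_inner_le_norm _ _).trans ?_
      rw [h6, sq]
    refine (Finset.sum_le_sum h5).trans ?_
    have h6 := bessel F hr hm (W (J r (x ξ)))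
    rwa [W_norm F, J_norm F hr] at h6
  -- assembly
  have h4 : ⟪J r (star x ξ), P g⟫_ℂ = ⟪J r ξ, P gx⟫_ℂ + ⟪J r ξ, P (X g - gx)⟫_ℂ -
      ⟪star X (J r ξ) - J r (star x ξ), P g⟫_ℂ := by
    rw [inner_sub_left, h1, map_sub, inner_sub_right]; ring
  have h5 : ‖⟪J r ξ, P (X g - gx)⟫_ℂ‖ ≤ ‖P‖ * (L * r * Real.sqrt (2 * m)) := by
    refine (norm_inner_le_norm _ _).trans ?_
    rw [J_norm F hr, D.std.unit, one_mul]
    exact (P.le_opNorm _).trans (mul_le_mul_of_nonneg_left hgx1 (norm_nonneg _))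
  have h6 : ‖⟪star X (J r ξ) - J r (star x ξ), P g⟫_ℂ‖ ≤ L * r * (‖P‖ * Real.sqrt (2 * m)) := by
    refine (norm_inner_le_norm _ _).trans ?_
    refine mul_le_mul hzs ?_ (norm_nonneg _) (by positivity)
    exact (P.le_opNorm _).trans (mul_le_mul_of_nonneg_left hg1 (norm_nonneg _))
  have h7 : ‖bx S E (-((m : ℝ) * r)) (2 * ((m : ℝ) * r)) (star W (J r (star x ξ)))‖ ^ 2 =
      ‖⟪J r (star x ξ), P g⟫_ℂ‖ := by
    rw [h2, Complex.norm_real, Real.norm_eq_abs, abs_of_nonneg (by positivity)]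
  rw [h7, h4]
  refine (norm_sub_le _ _).trans ?_
  refine (add_le_add ((norm_add_le _ _).trans (add_le_add h3 h5)) h6).trans (le_of_eq ?_)
  ring

end core

/-- **CT1: the trace inequality.** -/
theorem pCTa (hF : S_F1c) (hE : S_Ev) : S_CTa := by
  intro H K _ _ _ _ _ _ N ξ U J0 ρ κ e S W J E A D hR X x L hX hx hL
  have F := D.fr
  have hF' : ∀ T : K →L[ℂ] K, T ∈ RR N κ A → ∀ p r : ℝ, 0 < r →
      ⟪S p (J r ξ), T (S p (J r ξ))⟫_ℂ = ⟪J 1 ξ, T (J 1 ξ)⟫_ℂ :=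
    fun T hT p r hr => hF H K N N ξ U κ e S W J E A D T hT p r hr
  have hU : U 0 = 1 ∧ ∀ s t : ℝ, U (s + t) = U s * U t := ⟨D.std.modular.zero, D.std.modular.add⟩
  have hL0 : 0 ≤ L := by
    have h4 := (norm_nonneg _).trans (hL 1)
    rwa [abs_one, mul_one] at h4
  obtain ⟨z, hz1, -, hz3, hz4⟩ := hE H K N N ξ U κ e S W J E A D X hX
  have hz4' := hz4 L hL
  have h0 : ∀ Y : K →L[ℂ] K, S (-0) * Y * S 0 = Y := by
    intro Y
    rw [neg_zero, F.S_zero, one_mul, mul_one]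
  have hz0 : z 0 = x := by
    have h1 := hz1 0
    rw [h0] at h1
    exact val_unique F h1 hx
  -- the adjoint
  have hLs : ∀ s : ℝ, ‖S s * star X * S (-s) - star X‖ ≤ L * |s| := by
    intro s
    have h1 : S s * star X * S (-s) - star X = star (S s * X * S (-s) - X) := by
      rw [star_sub, star_mul, star_mul, F.S_star, F.S_star, neg_neg, mul_assoc]
    rw [h1, norm_star]
    exact hL s
  obtain ⟨z', hz1', -, -, hz4s⟩ := hE H K N N ξ U κ e S W J E A D (star X) (RR_star hX)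
  have hz0' : z' 0 = star x := by
    have h1 := hz1' 0
    rw [h0] at h1
    exact val_star F hx h1
  have hzs : ∀ r : ℝ, 0 < r → ‖star X (J r ξ) - J r (star x ξ)‖ ≤ L * r := by
    intro r hr
    have h1 := hz4s L hLs 0 r hr
    rwa [hz0', F.S_zero] at h1
  -- the form
  have hdiag : ∀ p t : ℝ, ⟪z p ξ, U t (z p ξ)⟫_ℂ =
      ⟪J 1 ξ, (star X * ((e t * κ (U t)) * X * (e (-t) * κ (U (-t))))) (J 1 ξ)⟫_ℂ := by
    intro p t
    refine diag D hF' hX p (fun ε hε => ?_) t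
    obtain ⟨r0, hr0, h1⟩ := hz3 ε hε
    exact ⟨r0, hr0, fun r hr hrr => (h1 p r hr hrr).1⟩
  have hform : ∀ p t : ℝ, ⟪z p ξ, U t (z p ξ)⟫_ℂ = ⟪x ξ, U t (x ξ)⟫_ℂ := by
    intro p t
    rw [hdiag p t, ← hz0, hdiag 0 t]
  have hxN : star x ∈ N := star_mem hx.1
  -- the tail
  refine le_of_forall_pos_le_add fun ε hε => ?_
  set v : H := star x ξ with hv
  obtain ⟨η, hη, h1⟩ : ∃ η : ℝ, 0 < η ∧ ∀ t : ℝ, |t| ≤ η → ‖U t v - v‖ ≤ ε / 8 ∧
      (Real.exp (2 * Real.pi * |t|) - 1) * ‖v‖ ≤ ε / 8 := by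
    have h1 : Tendsto (fun t : ℝ => ‖U t v - v‖) (𝓝 0) (𝓝 0) := by
      have h2 : Continuous fun t : ℝ => ‖U t v - v‖ :=
        ((D.std.modular.cont v).sub continuous_const).norm
      have h3 := h2.tendsto 0
      rwa [hU.1, one_apply_eq_self, sub_self, norm_zero] at h3
    have h2 : Tendsto (fun t : ℝ => (Real.exp (2 * Real.pi * |t|) - 1) * ‖v‖) (𝓝 0) (𝓝 0) := by
      have h2 : Continuous fun t : ℝ => (Real.exp (2 * Real.pi * |t|) - 1) * ‖v‖ := by fun_prop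
      have h3 := h2.tendsto 0
      simpa using h3
    have h3 := (h1.eventually (eventually_le_nhds (show (0 : ℝ) < ε / 8 by positivity))).and
      (h2.eventually (eventually_le_nhds (show (0 : ℝ) < ε / 8 by positivity)))
    obtain ⟨δ, hδ, h4⟩ := Metric.eventually_nhds_iff.1 h3
    refine ⟨δ / 2, by positivity, fun t ht => h4 ?_⟩
    rw [Real.dist_eq, sub_zero]
    linarith
  have htail : ∀ r : ℝ, 0 < r → r ≤ 1 → ∀ t : ℝ, |t| ≤ η →
      ‖e t (star W (J r v)) - star W (J r v)‖ ≤ ε / 4 := by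
    intro r hr hr1 t ht
    rw [e_Ws F hU t r hr, ← map_sub, Ws_norm F]
    have h2 : e t (J r (U t v)) - J r v = e t (J r (U t v - v)) + (E r t - E r 0) (J r v) := by
      have h3 : (E r t - E r 0) (J r v) = E r t (J r v) - E r 0 (J r v) := rfl
      rw [h3, ← F.e_J _ _ _ hr, F.E_J _ _ hr, map_sub, map_sub]
      abel
    rw [h2]
    refine (norm_add_le _ _).trans ?_
    rw [e_norm F, J_norm F hr]
    obtain ⟨h3, h4⟩ := h1 t ht
    have h5 : ‖(E r t - E r 0) (J r v)‖ ≤ ε / 8 := by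
      refine (ContinuousLinearMap.le_opNorm _ _).trans ?_
      rw [J_norm F hr]
      refine le_trans (mul_le_mul_of_nonneg_right ?_ (norm_nonneg _)) h4
      refine (F.E_norm r t hr).trans ?_
      rw [Complex.norm_real, Real.norm_eq_abs]
      have h6 : 2 * Real.pi * |t| * r ≤ 2 * Real.pi * |t| := by
        have h7 : 0 ≤ 2 * Real.pi * |t| := by positivity
        nlinarith
      have := Real.exp_le_exp.2 h6
      linarith
    linarith
  set R : ℝ := 1 / η with hR'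
  have hR0 : 0 < R := by positivity
  have hRη : 1 / R = η := by rw [hR']; field_simp
  -- the limit
  set C : ℝ := ‖W * κ (star x) * star W‖ with hC
  have hlim : Tendsto (fun n : ℕ => Real.sqrt (‖x ξ‖ ^ 2 + 2 * L * C * R * Real.sqrt 2 * (1 / ((n : ℝ) + 1))) + ε / 2)
      atTop (𝓝 (‖x ξ‖ + ε / 2)) := by
    have h2 : Tendsto (fun n : ℕ => ‖x ξ‖ ^ 2 + 2 * L * C * R * Real.sqrt 2 * (1 / ((n : ℝ) + 1))) atTop
        (𝓝 (‖x ξ‖ ^ 2 + 2 * L * C * R * Real.sqrt 2 * 0)) :=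
      tendsto_const_nhds.add (tendsto_one_div_add_atTop_nhds_zero_nat.const_mul _)
    have h3 := ((Real.continuous_sqrt.tendsto _).comp h2).add_const (ε / 2)
    rw [mul_zero, add_zero, Real.sqrt_sq (norm_nonneg _)] at h3
    exact h3
  have hfin : ‖star x ξ‖ ≤ ‖x ξ‖ + ε / 2 := by
    refine ge_of_tendsto hlim ?_
    obtain ⟨n0, hn0⟩ := exists_nat_gt R
    filter_upwards [eventually_ge_atTop n0] with n hn
    have hnn : R < (n : ℝ) + 1 := by
      have : (n0 : ℝ) ≤ n := by exact_mod_cast hn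
      linarith
    have hn1 : (0 : ℝ) < (n : ℝ) + 1 := by positivity
    set m : ℕ := (n + 1) ^ 2 with hm
    have hm0 : 0 < m := by positivity
    have hmR : (m : ℝ) = ((n : ℝ) + 1) ^ 2 := by rw [hm]; push_cast; ring
    set r : ℝ := R / m with hr'
    have hr : 0 < r := by positivity
    have hr1 : r ≤ 1 := by
      rw [hr', div_le_one (by positivity), hmR]
      have h1 : (1 : ℝ) ≤ (n : ℝ) + 1 := by
        have : (0 : ℝ) ≤ n := by positivity
        linarith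
      nlinarith
    have hm0' : (m : ℝ) ≠ 0 := by positivity
    have hmr : (m : ℝ) * r = R := by rw [hr', mul_div_cancel₀ _ hm0']
    have h2 := main_est D hX (x := x) (z := fun p => z p ξ) hL0 hr hm0 hxN
      (fun p => hz4' p r hr) (hzs r hr) hform
    rw [hmr] at h2
    have h3 := F.tail (star W (J r v)) R (ε / 4) hR0 fun t ht => htail r hr hr1 t (by rwa [hRη] at ht)
    have h4 : ‖v‖ = ‖star W (J r v)‖ := by rw [Ws_norm F, J_norm F hr]
    have h5 : ‖star W (J r v)‖ ≤ ‖bx S E (-R) (2 * R) (star W (J r v))‖ +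
        ‖star W (J r v) - bx S E (-R) (2 * R) (star W (J r v))‖ := by
      have h6 : star W (J r v) = bx S E (-R) (2 * R) (star W (J r v)) +
        (star W (J r v) - bx S E (-R) (2 * R) (star W (J r v))) := by abel
      calc ‖star W (J r v)‖ = ‖bx S E (-R) (2 * R) (star W (J r v)) +
        (star W (J r v) - bx S E (-R) (2 * R) (star W (J r v)))‖ := by rw [← h6]
        _ ≤ _ := norm_add_le _ _
    have h6 : ‖bx S E (-R) (2 * R) (star W (J r v))‖ ≤
        Real.sqrt (‖x ξ‖ ^ 2 + 2 * L * C * R * Real.sqrt 2 * (1 / ((n : ℝ) + 1))) := by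
      apply Real.le_sqrt_of_sq_le
      refine h2.trans (le_of_eq ?_)
      have h7 : Real.sqrt (2 * (m : ℝ)) = Real.sqrt 2 * ((n : ℝ) + 1) := by
        rw [hmR, Real.sqrt_mul (by norm_num), Real.sqrt_sq hn1.le]
      rw [h7, hr', hmR, ← hC]
      field_simp
    rw [h4]
    linarith
  linarith

end

end Pool.Agent.H75.BC.CTa
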