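import Pool.Agent.H75.BC.RB

/-!
T4, T4b: the finite estimates (helper18).
-/

set_option autoImplicit false
set_option linter.unusedSectionVars false
set_option linter.deprecated false

open MeasureTheory Filter Topology Complex
open scoped InnerProductSpace ENNReal

namespace Pool.Agent.H75.BC.Fin

open Pool.Agent.W662.CB Pool.Agent.H75.BC Pool.Agent.H75.BC.RB

noncomputable section

variable {H : Type} [NormedAddCommGroup H] [InnerProductSpace ℂ H] [CompleteSpace H]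

/-! ### `ℓ²` norms of finite families -/

/-- the `ℓ²` norm of a finite family of vectors -/
def l2 {ι : Type} [Fintype ι] (f : ι → H) : ℝ := Real.sqrt (∑ i, ‖f i‖ ^ 2)

theorem l2_eq {ι : Type} [Fintype ι] (f : ι → H) :
    l2 f = ‖(WithLp.toLp 2 f : PiLp 2 (fun _ : ι => H))‖ := by
  rw [PiLp.norm_eq_of_L2]
  rfl

theorem l2_nonneg {ι : Type} [Fintype ι] (f : ι → H) : 0 ≤ l2 f := Real.sqrt_nonneg _

theorem l2_sq {ι : Type} [Fintype ι] (f : ι → H) : l2 f ^ 2 = ∑ i, ‖f i‖ ^ 2 :=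
  Real.sq_sqrt (Finset.sum_nonneg fun _ _ => sq_nonneg _)

theorem l2_add {ι : Type} [Fintype ι] (f g : ι → H) : l2 (fun i => f i + g i) ≤ l2 f + l2 g := by
  rw [l2_eq, l2_eq, l2_eq]
  exact norm_add_le (WithLp.toLp 2 f : PiLp 2 (fun _ : ι => H)) (WithLp.toLp 2 g)

theorem l2_neg {ι : Type} [Fintype ι] (f : ι → H) : l2 (fun i => -f i) = l2 f := by
  unfold l2
  simp only [norm_neg]

theorem l2_sub {ι : Type} [Fintype ι] (f g : ι → H) : l2 (fun i => f i - g i) ≤ l2 f + l2 g := by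
  have h := l2_add f (fun i => -g i)
  rw [l2_neg] at h
  simpa [sub_eq_add_neg] using h

theorem l2_le {ι : Type} [Fintype ι] {f : ι → H} {c : ℝ} (hc : 0 ≤ c)
    (h : ∑ i, ‖f i‖ ^ 2 ≤ c ^ 2) : l2 f ≤ c := by
  unfold l2
  rw [← Real.sqrt_sq hc]
  exact Real.sqrt_le_sqrt h

theorem l2_mono {ι : Type} [Fintype ι] {f : ι → H} {g : ι → H}
    (h : ∀ i, ‖f i‖ ≤ ‖g i‖) : l2 f ≤ l2 g :=
  Real.sqrt_le_sqrt (Finset.sum_le_sum fun i _ => pow_le_pow_left₀ (norm_nonneg _) (h i) 2)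

theorem l2_smul {ι : Type} [Fintype ι] (c : ℂ) (f : ι → H) :
    l2 (fun i => c • f i) = ‖c‖ * l2 f := by
  rw [l2_eq, l2_eq, ← norm_smul]
  rfl

theorem l2_mul_le {ι : Type} [Fintype ι] {f g : ι → H} {c : ℝ} (hc : 0 ≤ c)
    (h : ∀ i, ‖f i‖ ≤ c * ‖g i‖) : l2 f ≤ c * l2 g := by
  refine l2_le (mul_nonneg hc (l2_nonneg g)) ?_
  rw [mul_pow, l2_sq, Finset.mul_sum]
  refine Finset.sum_le_sum fun i _ => ?_
  rw [← mul_pow]
  exact pow_le_pow_left₀ (norm_nonneg _) (h i) 2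

theorem l2_sum {ι κ : Type} [Fintype ι] [Fintype κ] (f : κ → ι → H) :
    l2 (fun i => ∑ j, f j i) ≤ ∑ j, l2 (f j) := by
  simp only [l2_eq]
  have h : (WithLp.toLp 2 (fun i => ∑ j, f j i) : PiLp 2 (fun _ : ι => H)) =
      ∑ j, (WithLp.toLp 2 (f j) : PiLp 2 (fun _ : ι => H)) := by
    ext i
    simp
  rw [h]
  exact norm_sum_le _ _

/-- the adjoint of a column contraction is a contraction -/
theorem col_adj {ι : Type} [Fintype ι] (C : ι → H →L[ℂ] H)
    (hC : ∀ v : H, ∑ i, ‖C i v‖ ^ 2 ≤ ‖v‖ ^ 2) (η : ι → H) :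
    ‖∑ i, star (C i) (η i)‖ ≤ l2 η := by
  set v : H := ∑ i, star (C i) (η i) with hv
  rcases eq_or_lt_of_le (norm_nonneg v) with h0 | h0
  · rw [← h0]; exact l2_nonneg η
  have h1 : ‖v‖ ^ 2 ≤ ∑ i, ‖η i‖ * ‖C i v‖ := by
    have h2 : (⟪v, v⟫_ℂ) = ∑ i, ⟪η i, C i v⟫_ℂ := by
      conv_lhs => rw [hv]
      rw [sum_inner, ← hv]
      refine Finset.sum_congr rfl fun i _ => ?_
      rw [ContinuousLinearMap.star_eq_adjoint, ContinuousLinearMap.adjoint_inner_left]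
    have h3 : ‖v‖ ^ 2 = ‖(⟪v, v⟫_ℂ)‖ := by
      rw [inner_self_eq_norm_sq_to_K]
      simp
    rw [h3, h2]
    exact (norm_sum_le _ _).trans (Finset.sum_le_sum fun i _ => norm_inner_le_norm _ _)
  have h2 : ∑ i, ‖η i‖ * ‖C i v‖ ≤ l2 η * ‖v‖ := by
    have h3 := Finset.sum_mul_sq_le_sq_mul_sq Finset.univ (fun i => ‖η i‖) (fun i => ‖C i v‖)
    have h4 : (∑ i, ‖η i‖ * ‖C i v‖) ^ 2 ≤ (l2 η * ‖v‖) ^ 2 := by
      refine h3.trans ?_
      rw [mul_pow, l2_sq]
      exact mul_le_mul_of_nonneg_left (hC v) (Finset.sum_nonneg fun _ _ => sq_nonneg _)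
    exact (pow_le_pow_iff_left₀ (Finset.sum_nonneg fun _ _ => mul_nonneg (norm_nonneg _)
      (norm_nonneg _)) (mul_nonneg (l2_nonneg _) (norm_nonneg _)) two_ne_zero).1 h4
  have h3 : ‖v‖ * ‖v‖ ≤ l2 η * ‖v‖ := by
    rw [← sq]
    exact h1.trans h2
  exact le_of_mul_le_mul_right h3 h0

/-- columns with `∑ C* C = 1` are isometric -/
theorem col_norm {ι : Type} [Fintype ι] (C : ι → H →L[ℂ] H)
    (hC : ∑ i, star (C i) * C i = 1) (v : H) : ∑ i, ‖C i v‖ ^ 2 = ‖v‖ ^ 2 := by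
  have h1 : (⟪v, (∑ i, star (C i) * C i) v⟫_ℂ) = ((∑ i, ‖C i v‖ ^ 2 : ℝ) : ℂ) := by
    rw [ContinuousLinearMap.sum_apply, inner_sum, Complex.ofReal_sum]
    refine Finset.sum_congr rfl fun i _ => ?_
    rw [ContinuousLinearMap.mul_apply, ContinuousLinearMap.star_eq_adjoint,
      ContinuousLinearMap.adjoint_inner_right, inner_self_eq_norm_sq_to_K]
    push_cast
    rfl
  rw [hC, ContinuousLinearMap.one_apply, inner_self_eq_norm_sq_to_K] at h1
  have h2 : ((∑ i, ‖C i v‖ ^ 2 : ℝ) : ℂ) = ((‖v‖ ^ 2 : ℝ) : ℂ) := by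
    rw [← h1]
    push_cast
    rfl
  exact Complex.ofReal_injective h2

theorem col_l2 {ι : Type} [Fintype ι] (C : ι → H →L[ℂ] H)
    (hC : ∑ i, star (C i) * C i = 1) (v : H) : l2 (fun i => C i v) = ‖v‖ := by
  unfold l2
  rw [col_norm C hC, Real.sqrt_sq (norm_nonneg _)]

theorem sum_apply_eq {ι : Type} [Fintype ι] (C : ι → H →L[ℂ] H)
    (hC : ∑ i, star (C i) * C i = 1) (v : H) : ∑ i, star (C i) (C i v) = v := by
  have h := congrArg (fun T : H →L[ℂ] H => T v) hC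
  simpa [ContinuousLinearMap.sum_apply] using h

variable {M N : VonNeumannAlgebra H} {ξ : H} {U : ℝ → H →L[ℂ] H} {J : H → H}
  {ρ : (H →L[ℂ] H) → (H →L[ℂ] H)}

theorem J_sum (h : RAct M ξ U J ρ) {ι : Type} [Fintype ι] (f : ι → H) :
    J (∑ i, f i) = ∑ i, J (f i) := by
  classical
  induction (Finset.univ : Finset ι) using Finset.induction_on with
  | empty => simp [J_zero h]
  | insert a s ha ih => rw [Finset.sum_insert ha, Finset.sum_insert ha, h.J_add, ih]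

theorem ρ_sum (h : RAct M ξ U J ρ) {ι : Type} [Fintype ι] (f : ι → H →L[ℂ] H) :
    ρ (∑ i, f i) = ∑ i, ρ (f i) := by
  classical
  induction (Finset.univ : Finset ι) using Finset.induction_on with
  | empty => simp [ρ_zero h]
  | insert a s ha ih => rw [Finset.sum_insert ha, Finset.sum_insert ha, ρ_add h, ih]

/-- the same for the right action -/
theorem ρcol_adj (h : RAct M ξ U J ρ) {ι : Type} [Fintype ι] (C : ι → H →L[ℂ] H)
    (hC : ∀ v : H, ∑ i, ‖C i v‖ ^ 2 ≤ ‖v‖ ^ 2) (η : ι → H) :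
    ‖∑ i, ρ (C i) (η i)‖ ≤ l2 η := by
  have h1 : ∑ i, ρ (C i) (η i) = J (∑ i, star (C i) (J (η i))) := by
    rw [J_sum h]
    exact Finset.sum_congr rfl fun i _ => h.act _ _
  rw [h1, J_norm h]
  refine (col_adj C hC _).trans (le_of_eq ?_)
  unfold l2
  simp only [J_norm h]

theorem ρ_star_col (h : RAct M ξ U J ρ) {ι : Type} [Fintype ι] (C : ι → H →L[ℂ] H)
    (hC : ∑ i, star (C i) * C i = 1) (v : H) : ∑ i, ‖ρ (star (C i)) v‖ ^ 2 = ‖v‖ ^ 2 := by
  have h1 : ∀ i, ‖ρ (star (C i)) v‖ = ‖C i (J v)‖ := fun i => by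
    rw [h.act, star_star, J_norm h]
  simp only [h1]
  rw [col_norm C hC, J_norm h]

theorem ρ_row (h : RAct M ξ U J ρ) {ι : Type} [Fintype ι] (C : ι → H →L[ℂ] H)
    (hR : ∀ v : H, ∑ i, ‖star (C i) v‖ ^ 2 ≤ 2 * ‖v‖ ^ 2) (v : H) :
    l2 (fun i => ρ (C i) v) ≤ 2 * ‖v‖ := by
  refine l2_le (by positivity) ?_
  have h1 : ∀ i, ‖ρ (C i) v‖ = ‖star (C i) (J v)‖ := fun i => by
    rw [h.act, J_norm h]
  simp only [h1]
  refine (hR _).trans ?_
  rw [J_norm h]
  nlinarith [sq_nonneg ‖v‖]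

/-- `x^{(p)}` applied to a vector -/
theorem X_apply {ι : Type} [Fintype ι] (C : ι → H →L[ℂ] H) (x : H →L[ℂ] H) (v : H) :
    (∑ i, star (C i) * x * C i) v = ∑ i, star (C i) (x (C i v)) := by
  rw [ContinuousLinearMap.sum_apply]
  rfl

theorem X_norm {ι : Type} [Fintype ι] (C : ι → H →L[ℂ] H)
    (hC : ∑ i, star (C i) * C i = 1) (x : H →L[ℂ] H) (v : H) :
    ‖(∑ i, star (C i) * x * C i) v‖ ≤ ‖x‖ * ‖v‖ := by
  rw [X_apply]
  refine (col_adj C (fun w => (col_norm C hC w).le) _).trans ?_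
  rw [← col_l2 C hC v]
  exact l2_mul_le (norm_nonneg _) fun i => ContinuousLinearMap.le_opNorm _ _

/-- (3a) -/
theorem est_u (h : RAct M ξ U J ρ) {ι : Type} [Fintype ι] (C : ι → H →L[ℂ] H)
    (hCM : ∀ i, C i ∈ M) (hC : ∑ i, star (C i) * C i = 1)
    (hR : ∀ v : H, ∑ i, ‖star (C i) v‖ ^ 2 ≤ 2 * ‖v‖ ^ 2) {lam η ε : ℝ} (hη : 0 ≤ η)
    (hE : ∑ i, ‖ρ (C i) ξ - ((lam : ℝ) : ℂ) • C i ξ‖ ^ 2 ≤ η ^ 2) {x : H →L[ℂ] H} (hx : x ∈ M)
    {ζ : H} (hζ : ‖ζ - x ξ‖ ≤ ε) :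
    ‖(lam : ℂ) • (∑ i, star (C i) * x * C i) ξ - ∑ i, star (C i) (ρ (C i) ζ)‖ ≤
      2 * ε + ‖x‖ * η := by
  have hc : ∀ v : H, ∑ i, ‖C i v‖ ^ 2 ≤ ‖v‖ ^ 2 := fun v => (col_norm C hC v).le
  have h1 : (lam : ℂ) • (∑ i, star (C i) * x * C i) ξ - ∑ i, star (C i) (ρ (C i) ζ) =
      -(∑ i, star (C i) (ρ (C i) (ζ - x ξ)) +
        ∑ i, star (C i) (x (ρ (C i) ξ - (lam : ℂ) • C i ξ))) := by
    rw [X_apply, ← Finset.sum_add_distrib, Finset.smul_sum, ← Finset.sum_sub_distrib,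
      ← Finset.sum_neg_distrib]
    refine Finset.sum_congr rfl fun i _ => ?_
    rw [map_sub (ρ (C i)), comm_apply h (hCM i) hx]
    simp only [map_sub, map_smul]
    abel
  rw [h1, norm_neg]
  refine (norm_add_le _ _).trans (add_le_add ?_ ?_)
  · refine (col_adj C hc _).trans ((ρ_row h C hR _).trans ?_)
    linarith
  · refine (col_adj C hc _).trans ?_
    refine (l2_mul_le (g := fun i => ρ (C i) ξ - (lam : ℂ) • C i ξ) (norm_nonneg x)
      fun i => ContinuousLinearMap.le_opNorm _ _).trans ?_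
    exact mul_le_mul_of_nonneg_left (l2_le hη hE) (norm_nonneg _)

/-- T4b -/
theorem fin2 : S_Fin2 := by
  intro H _ _ _ M N ξ U J0 ρ hS h x hx ζ ε C hC0 hζ hL k c lam η hη hlam hlam1 hcN hc hR hE
  have hcM : ∀ i, c i ∈ M := fun i => hS.le _ (hcN i)
  have hu := est_u h c hcM hc hR hη hE hx hζ
  have hX := X_norm c hc x ξ
  rw [hS.unit, mul_one] at hX
  have hcc : ∀ v : H, ∑ i, ‖c i v‖ ^ 2 ≤ ‖v‖ ^ 2 := fun v => (col_norm c hc v).le
  have hd : ‖∑ i, star (c i) (ρ (c i) ζ) - ζ‖ ≤ C * (η + (1 - lam)) := by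
    have h1 : ∑ i, star (c i) (ρ (c i) ζ) - ζ = ∑ i, star (c i) (ρ (c i) ζ - c i ζ) := by
      simp only [map_sub, Finset.sum_sub_distrib]
      rw [sum_apply_eq c hc ζ]
    rw [h1]
    refine (col_adj c hcc _).trans ?_
    have h2 : l2 (fun i => ρ (c i) ζ - c i ζ) ≤ C * l2 (fun i => c i ξ - ρ (c i) ξ) := by
      refine l2_mul_le hC0 fun i => ?_
      rw [norm_sub_rev]
      exact hL (c i) (hcN i)
    refine h2.trans (mul_le_mul_of_nonneg_left ?_ hC0)
    have h3 : (fun i => c i ξ - ρ (c i) ξ) =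
        fun i => ((1 - lam : ℝ) : ℂ) • c i ξ - (ρ (c i) ξ - (lam : ℂ) • c i ξ) := by
      funext i
      push_cast
      rw [sub_smul, one_smul]
      abel
    rw [h3]
    refine (l2_sub _ _).trans ?_
    rw [l2_smul, col_l2 c hc, hS.unit, mul_one, add_comm]
    refine add_le_add (l2_le hη hE) (le_of_eq ?_)
    rw [Complex.norm_real, Real.norm_eq_abs, abs_of_nonneg (by linarith)]
  have h4 : (∑ i, star (c i) * x * c i) ξ - x ξ =
      ((1 - lam : ℝ) : ℂ) • (∑ i, star (c i) * x * c i) ξ +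
      ((lam : ℂ) • (∑ i, star (c i) * x * c i) ξ - ∑ i, star (c i) (ρ (c i) ζ)) +
      (∑ i, star (c i) (ρ (c i) ζ) - ζ) + (ζ - x ξ) := by
    push_cast
    rw [sub_smul, one_smul]
    abel
  rw [h4]
  have h5 : ‖((1 - lam : ℝ) : ℂ) • (∑ i, star (c i) * x * c i) ξ‖ ≤ (1 - lam) * ‖x‖ := by
    rw [norm_smul, Complex.norm_real, Real.norm_eq_abs, abs_of_nonneg (by linarith)]
    exact mul_le_mul_of_nonneg_left hX (by linarith)
  refine (norm_add_le _ _).trans ?_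
  refine (add_le_add (norm_add_le _ _) le_rfl).trans ?_
  refine (add_le_add (add_le_add (norm_add_le _ _) le_rfl) le_rfl).trans ?_
  linarith

/-- the three terms of `[a, ξ]` for `a = c Y c*` -/
theorem three (h : RAct M ξ U J ρ) {c d Y : H →L[ℂ] H} (hc : c ∈ M) (hd : d ∈ M) (hY : Y ∈ M)
    (l m : ℂ) :
    (c * Y * star d) ξ - ρ (c * Y * star d) ξ =
      c (Y (star d ξ - l • ρ (star d) ξ)) + c (ρ (star d) (l • Y ξ - m • ρ Y ξ)) +
      ρ (star d) (ρ Y (m • c ξ - ρ c ξ)) := by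
  have hds : star d ∈ M := star_mem hd
  have h1 : ρ (c * Y * star d) ξ = ρ (star d) (ρ Y (ρ c ξ)) := by
    rw [ρ_mul h, ρ_mul h]
    rfl
  have h2 : (c * Y * star d) ξ = c (Y (star d ξ)) := rfl
  rw [h1, h2]
  simp only [map_sub, map_smul]
  have h3 : c (ρ (star d) (Y ξ)) = c (Y (ρ (star d) ξ)) := by rw [comm_apply h hds hY]
  have h4 : c (ρ (star d) (ρ Y ξ)) = ρ (star d) (ρ Y (c ξ)) := by
    rw [comm_apply h hY hc, comm_apply h hds hc]
  rw [h3, h4]
  abel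

theorem sq_add3 (a b c : H) : ‖a + b + c‖ ^ 2 ≤ 3 * (‖a‖ ^ 2 + ‖b‖ ^ 2 + ‖c‖ ^ 2) := by
  have h1 : ‖a + b + c‖ ≤ ‖a‖ + ‖b‖ + ‖c‖ :=
    (norm_add_le _ _).trans (add_le_add (norm_add_le _ _) le_rfl)
  have h2 : ‖a + b + c‖ ^ 2 ≤ (‖a‖ + ‖b‖ + ‖c‖) ^ 2 :=
    pow_le_pow_left₀ (norm_nonneg _) h1 2
  nlinarith [sq_nonneg (‖a‖ - ‖b‖), sq_nonneg (‖b‖ - ‖c‖), sq_nonneg (‖a‖ - ‖c‖)]

/-- T4 -/
theorem fin1 : S_Fin := by
  intro H _ _ _ M N ξ U J0 ρ hS h x hx ζ ε C hC0 hζ hL n k c lam η hη hlam hcN hc hR hE Y hYN hY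
    τ β hτ hβ hτY g hg
  have hcM : ∀ p i, c p i ∈ M := fun p i => hS.le _ (hcN p i)
  have hYM : ∀ p j, Y p j ∈ M := fun p j => hS.le _ (hYN p j)
  have hcc : ∀ p (v : H), ∑ i, ‖c p i v‖ ^ 2 ≤ ‖v‖ ^ 2 := fun p v => (col_norm (c p) (hc p) v).le
  -- notation
  set X : Fin n → H →L[ℂ] H := fun p => ∑ i, star (c p i) * x * c p i with hXdef
  set Z : Fin n → H := fun p => ∑ i, star (c p i) (ρ (c p i) ζ) with hZdef
  set u : Fin n → H := fun p => (lam p : ℂ) • X p ξ - Z p with hudef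
  set m : Fin n → Fin n → H := fun p j => (lam j : ℂ) • Y p j ξ - (lam p : ℂ) • ρ (Y p j) ξ
    with hmdef
  set D : Fin n → Fin n → H := fun j p => Y p j (Z j) - ρ (Y p j) (Z p) with hDdef
  set B : ℝ := 2 * ε + ‖x‖ * η with hBdef
  have hε : 0 ≤ ε := (norm_nonneg _).trans hζ
  have hB : 0 ≤ B := by positivity
  have hu : ∀ p, ‖u p‖ ≤ B := fun p => est_u h (c p) (hcM p) (hc p) (hR p) hη (hE p) hx hζ
  -- contractivity of `Y`
  have hY1 : ∀ j (w : H), ∑ p, ‖Y p j w‖ ^ 2 ≤ ‖w‖ ^ 2 := by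
    intro j w
    have h1 := hY (fun j' => if j' = j then w else 0)
    have h2 : ∀ p, ∑ j', Y p j' (if j' = j then w else 0) = Y p j w := by
      intro p
      rw [Finset.sum_eq_single j]
      · rw [if_pos rfl]
      · intro b _ hb
        rw [if_neg hb, map_zero]
      · intro hj
        exact absurd (Finset.mem_univ j) hj
    have h3 : ∑ j', ‖(if j' = j then w else 0 : H)‖ ^ 2 = ‖w‖ ^ 2 := by
      rw [Finset.sum_eq_single j]
      · rw [if_pos rfl]
      · intro b _ hb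
        rw [if_neg hb, norm_zero]
        simp
      · intro hj
        exact absurd (Finset.mem_univ j) hj
    simp only [h2, h3] at h1
    exact h1
  have hYn : ∀ p j, ‖Y p j‖ ≤ 1 := by
    intro p j
    refine ContinuousLinearMap.opNorm_le_bound _ zero_le_one fun w => ?_
    rw [one_mul]
    have h1 : ‖Y p j w‖ ^ 2 ≤ ‖w‖ ^ 2 :=
      (Finset.single_le_sum (f := fun p => ‖Y p j w‖ ^ 2) (fun _ _ => sq_nonneg _)
        (Finset.mem_univ p)).trans (hY1 j w)
    exact (pow_le_pow_iff_left₀ (norm_nonneg _) (norm_nonneg _) two_ne_zero).1 h1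
  have hρYn : ∀ p j (w : H), ‖ρ (Y p j) w‖ ≤ ‖w‖ := by
    intro p j w
    refine (ContinuousLinearMap.le_opNorm _ _).trans ?_
    have h1 : ‖ρ (Y p j)‖ ≤ 1 := (ρ_norm_le h _).trans (hYn p j)
    nlinarith [norm_nonneg w]
  -- (3b)
  have hDb : ∀ j, l2 (D j) ≤ C * Real.sqrt (3 * ((n + 1) * η ^ 2 + τ ^ 2)) := by
    intro j
    -- the elements a
    have hD1 : ∀ p, D j p = ∑ i, star (c p i) (∑ l, ρ (c j l)
        ((c p i * Y p j * star (c j l)) ζ - ρ (c p i * Y p j * star (c j l)) ζ)) := by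
      intro p
      have e1 : ∑ i, star (c p i) (∑ l, ρ (c j l) ((c p i * Y p j * star (c j l)) ζ)) =
          Y p j (Z j) := by
        have e2 : ∀ i, ∑ l, ρ (c j l) ((c p i * Y p j * star (c j l)) ζ) =
            c p i (Y p j (Z j)) := by
          intro i
          rw [hZdef]
          simp only [map_sum]
          refine Finset.sum_congr rfl fun l _ => ?_
          have hm : c p i * Y p j * star (c j l) ∈ M :=
            mul_mem (mul_mem (hcM p i) (hYM p j)) (star_mem (hcM j l))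
          rw [comm_apply h (hcM j l) hm]
          rfl
        simp only [e2]
        exact sum_apply_eq (c p) (hc p) _
      have e3 : ∑ i, star (c p i) (∑ l, ρ (c j l) (ρ (c p i * Y p j * star (c j l)) ζ)) =
          ρ (Y p j) (Z p) := by
        have e4 : ∀ i, ∑ l, ρ (c j l) (ρ (c p i * Y p j * star (c j l)) ζ) =
            ρ (Y p j) (ρ (c p i) ζ) := by
          intro i
          have e5 : ∀ l, ρ (c j l) (ρ (c p i * Y p j * star (c j l)) ζ) =
              ρ (c p i * Y p j * (star (c j l) * c j l)) ζ := by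
            intro l
            rw [← mul_assoc, ρ_mul h (c p i * Y p j * star (c j l)) (c j l)]
            rfl
          simp only [e5]
          have e6 : ∑ l, ρ (c p i * Y p j * (star (c j l) * c j l)) ζ =
              ρ (c p i * Y p j) ζ := by
            rw [← ContinuousLinearMap.sum_apply, ← ρ_sum h, ← Finset.mul_sum, hc j, mul_one]
          rw [e6, ρ_mul h]
          rfl
        simp only [e4]
        rw [hZdef]
        simp only [map_sum]
        refine Finset.sum_congr rfl fun i _ => ?_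
        rw [comm_apply h (hYM p j) (star_mem (hcM p i))]
      rw [hDdef]
      simp only
      rw [← e1, ← e3, ← Finset.sum_sub_distrib]
      refine Finset.sum_congr rfl fun i _ => ?_
      rw [← map_sub, ← Finset.sum_sub_distrib]
      simp only [map_sub]
    have hD2 : ∀ p, ‖D j p‖ ^ 2 ≤ C ^ 2 * ∑ i, ∑ l, ‖(c p i * Y p j * star (c j l)) ξ -
        ρ (c p i * Y p j * star (c j l)) ξ‖ ^ 2 := by
      intro p
      have h1 : ‖D j p‖ ^ 2 ≤ ∑ i, ‖∑ l, ρ (c j l)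
          ((c p i * Y p j * star (c j l)) ζ - ρ (c p i * Y p j * star (c j l)) ζ)‖ ^ 2 := by
        rw [hD1 p, ← l2_sq]
        exact pow_le_pow_left₀ (norm_nonneg _) (col_adj (c p) (hcc p) _) 2
      refine h1.trans ?_
      rw [Finset.mul_sum]
      refine Finset.sum_le_sum fun i _ => ?_
      have h2 := pow_le_pow_left₀ (norm_nonneg _) (ρcol_adj h (c j) (hcc j) (fun l =>
        (c p i * Y p j * star (c j l)) ζ - ρ (c p i * Y p j * star (c j l)) ζ)) 2
      refine h2.trans ?_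
      rw [l2_sq, Finset.mul_sum]
      refine Finset.sum_le_sum fun l _ => ?_
      have hm : c p i * Y p j * star (c j l) ∈ N :=
        mul_mem (mul_mem (hcN p i) (hYN p j)) (star_mem (hcN j l))
      rw [← mul_pow]
      exact pow_le_pow_left₀ (norm_nonneg _) (hL _ hm) 2
    -- the three sums
    set z : Fin (k j) → H := fun l => star (c j l) ξ - (lam j : ℂ) • ρ (star (c j l)) ξ with hzdef
    have hz : ∑ l, ‖z l‖ ^ 2 ≤ η ^ 2 := by
      refine (Finset.sum_le_sum fun l _ => le_of_eq ?_).trans (hE j)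
      rw [hzdef]
      simp only
      rw [sym h]
    have hD3 : ∑ p, ∑ i, ∑ l, ‖(c p i * Y p j * star (c j l)) ξ -
        ρ (c p i * Y p j * star (c j l)) ξ‖ ^ 2 ≤ 3 * ((n + 1) * η ^ 2 + τ ^ 2) := by
      have h1 : ∀ p i l, ‖(c p i * Y p j * star (c j l)) ξ -
          ρ (c p i * Y p j * star (c j l)) ξ‖ ^ 2 ≤ 3 * (‖c p i (Y p j (z l))‖ ^ 2 +
            ‖c p i (ρ (star (c j l)) (m p j))‖ ^ 2 +
            ‖ρ (star (c j l)) (ρ (Y p j) ((lam p : ℂ) • c p i ξ - ρ (c p i) ξ))‖ ^ 2) := by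
        intro p i l
        rw [three h (hcM p i) (hcM j l) (hYM p j) (lam j) (lam p)]
        exact sq_add3 _ _ _
      refine (Finset.sum_le_sum fun p _ => Finset.sum_le_sum fun i _ =>
        Finset.sum_le_sum fun l _ => h1 p i l).trans ?_
      simp only [← Finset.mul_sum, Finset.sum_add_distrib]
      have t1 : ∑ p, ∑ i, ∑ l, ‖c p i (Y p j (z l))‖ ^ 2 ≤ η ^ 2 := by
        have e1 : ∀ p, ∑ i, ∑ l, ‖c p i (Y p j (z l))‖ ^ 2 = ∑ l, ‖Y p j (z l)‖ ^ 2 := by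
          intro p
          rw [Finset.sum_comm]
          exact Finset.sum_congr rfl fun l _ => col_norm (c p) (hc p) _
        simp only [e1]
        rw [Finset.sum_comm]
        exact (Finset.sum_le_sum fun l _ => hY1 j (z l)).trans hz
      have t2 : ∑ p, ∑ i, ∑ l, ‖c p i (ρ (star (c j l)) (m p j))‖ ^ 2 ≤ τ ^ 2 := by
        have e1 : ∀ p, ∑ i, ∑ l, ‖c p i (ρ (star (c j l)) (m p j))‖ ^ 2 = ‖m p j‖ ^ 2 := by
          intro p
          rw [Finset.sum_comm]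
          have e2 : ∀ l, ∑ i, ‖c p i (ρ (star (c j l)) (m p j))‖ ^ 2 =
              ‖ρ (star (c j l)) (m p j)‖ ^ 2 := fun l => col_norm (c p) (hc p) _
          simp only [e2]
          exact ρ_star_col h (c j) (hc j) _
        simp only [e1]
        exact hτY j
      have t3 : ∑ p, ∑ i, ∑ l, ‖ρ (star (c j l)) (ρ (Y p j) ((lam p : ℂ) • c p i ξ -
          ρ (c p i) ξ))‖ ^ 2 ≤ n * η ^ 2 := by
        have e1 : ∀ p, ∑ i, ∑ l, ‖ρ (star (c j l)) (ρ (Y p j) ((lam p : ℂ) • c p i ξ -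
            ρ (c p i) ξ))‖ ^ 2 ≤ η ^ 2 := by
          intro p
          refine le_trans (Finset.sum_le_sum fun i _ => ?_) (hE p)
          rw [ρ_star_col h (c j) (hc j)]
          refine pow_le_pow_left₀ (norm_nonneg _) ?_ 2
          refine (hρYn p j _).trans (le_of_eq ?_)
          rw [norm_sub_rev]
        refine (Finset.sum_le_sum fun p _ => e1 p).trans ?_
        simp
      nlinarith [t1, t2, t3]
    have h5 : ∑ p, ‖D j p‖ ^ 2 ≤ C ^ 2 * (3 * ((n + 1) * η ^ 2 + τ ^ 2)) := by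
      refine (Finset.sum_le_sum fun p _ => hD2 p).trans ?_
      rw [← Finset.mul_sum]
      exact mul_le_mul_of_nonneg_left hD3 (sq_nonneg _)
    refine l2_le (by positivity) ?_
    rw [mul_pow, Real.sq_sqrt (by positivity)]
    exact h5
  -- the decomposition of `T`
  have hT : ∀ p, ∑ j, ((lam j * g j : ℝ) : ℂ) • (Y p j (X j ξ) - X p (Y p j ξ)) =
      (∑ j, (g j : ℂ) • D j p + ∑ j, Y p j ((g j : ℂ) • u j)) -
      X p (∑ j, (g j : ℂ) • m p j) - ρ (∑ j, (g j : ℂ) • Y p j) (u p) := by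
    intro p
    have hx1 : X p (∑ j, (g j : ℂ) • m p j) = ∑ j, X p ((g j : ℂ) • m p j) :=
      map_sum (X p) _ _
    have hρ1 : ρ (∑ j, (g j : ℂ) • Y p j) (u p) = ∑ j, ρ ((g j : ℂ) • Y p j) (u p) := by
      rw [ρ_sum h]
      exact ContinuousLinearMap.sum_apply _ _ _
    rw [hx1, hρ1, ← Finset.sum_add_distrib, ← Finset.sum_sub_distrib, ← Finset.sum_sub_distrib]
    refine Finset.sum_congr rfl fun j _ => ?_
    have hXp : X p ∈ M := by
      rw [hXdef]
      exact sum_mem fun i _ => mul_mem (mul_mem (star_mem (hcM p i)) hx) (hcM p i)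
    have h1 : X p (ρ (Y p j) ξ) = ρ (Y p j) (X p ξ) := (comm_apply h (hYM p j) hXp ξ).symm
    rw [ρ_smul h, hDdef, hmdef, hudef]
    simp only [map_sub, map_smul, smul_sub, ContinuousLinearMap.smul_apply]
    rw [h1]
    simp only [smul_smul, Complex.ofReal_mul]
    have h2 : (lam j : ℂ) * (g j : ℂ) = (g j : ℂ) * (lam j : ℂ) := mul_comm _ _
    rw [h2, mul_comm (lam p : ℂ) (g j : ℂ)]
    abel
  have hX : ∀ p (v : H), ‖X p v‖ ≤ ‖x‖ * ‖v‖ := fun p v => X_norm (c p) (hc p) x v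
  show l2 (fun p => ∑ j, ((lam j * g j : ℝ) : ℂ) • (Y p j (X j ξ) - X p (Y p j ξ))) ≤ _
  simp only [hT]
  refine (l2_sub _ _).trans (add_le_add ((l2_sub _ _).trans (add_le_add ((l2_add _ _).trans
    (add_le_add ?_ ?_)) ?_)) ?_)
  · refine (l2_sum _).trans ?_
    rw [Finset.sum_mul, Finset.sum_mul]
    refine Finset.sum_le_sum fun j _ => ?_
    rw [l2_smul, Complex.norm_real, Real.norm_eq_abs, mul_assoc]
    exact mul_le_mul_of_nonneg_left (hDb j) (abs_nonneg _)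
  · refine l2_le (by positivity) ?_
    refine (hY _).trans ?_
    rw [mul_pow, Real.sq_sqrt (Finset.sum_nonneg fun _ _ => sq_nonneg _), Finset.mul_sum]
    refine Finset.sum_le_sum fun j _ => ?_
    rw [norm_smul, mul_pow, Complex.norm_real, Real.norm_eq_abs, sq_abs, mul_comm]
    exact mul_le_mul_of_nonneg_right (pow_le_pow_left₀ (norm_nonneg _) (hu j) 2) (sq_nonneg _)
  · refine (l2_mul_le (g := fun p => ∑ j, (g j : ℂ) • m p j) (norm_nonneg x)
      fun p => hX p _).trans ?_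
    rw [mul_assoc]
    refine mul_le_mul_of_nonneg_left ?_ (norm_nonneg _)
    refine (l2_sum _).trans ?_
    rw [Finset.sum_mul]
    refine Finset.sum_le_sum fun j _ => ?_
    rw [l2_smul, Complex.norm_real, Real.norm_eq_abs]
    exact mul_le_mul_of_nonneg_left (l2_le hτ (hτY j)) (abs_nonneg _)
  · refine l2_le (by positivity) ?_
    rw [mul_pow]
    refine le_trans ?_ (mul_le_mul_of_nonneg_right hg (sq_nonneg B))
    rw [Finset.sum_mul]
    refine Finset.sum_le_sum fun p _ => ?_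
    rw [← mul_pow]
    refine pow_le_pow_left₀ (norm_nonneg _) ?_ 2
    refine (ContinuousLinearMap.le_opNorm _ _).trans ?_
    exact mul_le_mul (ρ_norm_le h _) (hu p) (norm_nonneg _) (norm_nonneg _)

end

end Pool.Agent.H75.BC.Fin

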