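import Pool.Agent.H75.BC.Stmts3
import Pool.Agent.H75.BC.T.Fin

/-!
C3b: `S_Col` from `S_Col0` (helper18).
-/

set_option autoImplicit false
set_option linter.unusedSectionVars false
set_option linter.deprecated false

open MeasureTheory Filter Topology Complex
open scoped InnerProductSpace ENNReal

namespace Pool.Agent.H75.BC.Col

open Pool.Agent.W662.CB Pool.Agent.H75.BC Pool.Agent.H75.BC.RB Pool.Agent.H75.BC.Fin

noncomputable section

variable {H : Type} [NormedAddCommGroup H] [InnerProductSpace ℂ H] [CompleteSpace H]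

/-- membership through the bicommutant -/
theorem mem_of_commutant (N : VonNeumannAlgebra H) {T : H →L[ℂ] H}
    (h : ∀ y : H →L[ℂ] H, y ∈ N.commutant → y * T = T * y) : T ∈ N := by
  rw [← VonNeumannAlgebra.commutant_commutant N, VonNeumannAlgebra.mem_commutant_iff]
  exact h

/-- the square root of a positive element of a von Neumann algebra -/
theorem exists_sqrt (N : VonNeumannAlgebra H) {T : H →L[ℂ] H} (hT : 0 ≤ T) (hTN : T ∈ N) :
    ∃ R : H →L[ℂ] H, R ∈ N ∧ star R = R ∧ R * R = T := by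
  refine ⟨CFC.sqrt T, ?_, ?_, CFC.sqrt_mul_sqrt_self T hT⟩
  · refine mem_of_commutant N fun y hy => ?_
    have h1 : Commute T y := by
      rw [VonNeumannAlgebra.mem_commutant_iff] at hy
      exact hy T hTN
    have h2 : Commute (CFC.sqrt T) y := by
      unfold CFC.sqrt
      exact h1.cfcₙ_nnreal _
    exact h2.symm
  · exact (IsSelfAdjoint.of_nonneg (CFC.sqrt_nonneg T))

theorem col (h0 : S_Col0) : S_Col := by
  intro H K _ _ _ _ _ _ M N ξ U J0 ρ κ e S W J E A hD h s ε hs hε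
  have hξ : ‖ξ‖ = 1 := hD.std.unit
  set δ : ℝ := min (ε / 2) (ε ^ 2 / 8) with hδdef
  have hδ0 : 0 < δ := lt_min (by positivity) (by positivity)
  have hδ1 : δ ≤ ε / 2 := min_le_left _ _
  have hδ2 : δ ≤ ε ^ 2 / 8 := min_le_right _ _
  obtain ⟨n, C, hCN, hcol, hrow, hdef, hnear⟩ :=
    h0 H K M N ξ U J0 ρ κ e S W J E A hD h s δ hs hδ0
  set T : H →L[ℂ] H := ∑ i, star (C i) * C i with hTdef
  have hTv : ∀ v : H, ⟪v, T v⟫_ℂ = ((∑ i, ‖C i v‖ ^ 2 : ℝ) : ℂ) := by
    intro v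
    rw [hTdef, ContinuousLinearMap.sum_apply, inner_sum, Complex.ofReal_sum]
    refine Finset.sum_congr rfl fun i _ => ?_
    rw [ContinuousLinearMap.mul_apply, ContinuousLinearMap.star_eq_adjoint,
      ContinuousLinearMap.adjoint_inner_right, inner_self_eq_norm_sq_to_K]
    push_cast
    rfl
  have h1T : ∀ v : H, ⟪v, (1 - T) v⟫_ℂ = ((‖v‖ ^ 2 - ∑ i, ‖C i v‖ ^ 2 : ℝ) : ℂ) := by
    intro v
    rw [ContinuousLinearMap.sub_apply, ContinuousLinearMap.one_apply, inner_sub_right, hTv,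
      inner_self_eq_norm_sq_to_K]
    push_cast
    rfl
  have hTsa : star T = T := by
    rw [hTdef, star_sum]
    refine Finset.sum_congr rfl fun i _ => ?_
    rw [star_mul, star_star]
  have hpos : (0 : H →L[ℂ] H) ≤ 1 - T := by
    rw [ContinuousLinearMap.nonneg_iff_isPositive]
    refine (ContinuousLinearMap.isPositive_iff' _).2 ⟨?_, fun v => ?_⟩
    · rw [IsSelfAdjoint, star_sub, star_one, hTsa]
    · rw [← inner_conj_symm, h1T v, Complex.conj_ofReal]
      have := hcol v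
      have h2 : (0 : ℝ) ≤ ‖v‖ ^ 2 - ∑ i, ‖C i v‖ ^ 2 := by linarith
      exact_mod_cast h2
  have hTN : (1 - T) ∈ N := by
    refine sub_mem (one_mem _) ?_
    rw [hTdef]
    exact sum_mem fun i _ => mul_mem (star_mem (hCN i)) (hCN i)
  obtain ⟨R, hRN, hRs, hRR⟩ := exists_sqrt N hpos hTN
  have hRv : ∀ v : H, ‖R v‖ ^ 2 = ‖v‖ ^ 2 - ∑ i, ‖C i v‖ ^ 2 := by
    intro v
    have h2 : ⟪v, (R * R) v⟫_ℂ = ((‖R v‖ ^ 2 : ℝ) : ℂ) := by
      rw [ContinuousLinearMap.mul_apply]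
      conv_lhs => rw [← hRs]
      rw [ContinuousLinearMap.star_eq_adjoint, ContinuousLinearMap.adjoint_inner_right,
        ← ContinuousLinearMap.star_eq_adjoint, hRs, inner_self_eq_norm_sq_to_K]
      push_cast
      rfl
    rw [hRR, h1T v] at h2
    exact (Complex.ofReal_injective h2).symm
  refine ⟨n + 1, Fin.cons R C, ?_, ?_, ?_, ?_⟩
  · intro i
    refine Fin.cases ?_ (fun j => ?_) i
    · simpa using hRN
    · simpa using hCN j
  · rw [Fin.sum_univ_succ]
    simp only [Fin.cons_zero, Fin.cons_succ]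
    rw [hRs, hRR, hTdef]
    abel
  · intro v
    rw [Fin.sum_univ_succ]
    simp only [Fin.cons_zero, Fin.cons_succ]
    rw [hRs, hRv]
    have h2 := hrow v
    have h3 : 0 ≤ ∑ i, ‖C i v‖ ^ 2 := Finset.sum_nonneg fun _ _ => sq_nonneg _
    linarith
  · rw [Fin.sum_univ_succ]
    simp only [Fin.cons_zero, Fin.cons_succ]
    have hR1 : ‖R ξ‖ ^ 2 ≤ δ := by
      rw [hRv, hξ]
      linarith
    have hρR : ‖ρ R ξ‖ = ‖R ξ‖ := by
      rw [ρ_ξ h, J_norm h, hRs]
    have he1 : Real.exp (Real.pi * s) ≤ 1 := by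
      rw [Real.exp_le_one_iff]
      exact mul_nonpos_of_nonneg_of_nonpos Real.pi_pos.le hs
    have h4 : ‖ρ R ξ - ((Real.exp (Real.pi * s) : ℝ) : ℂ) • R ξ‖ ≤ 2 * ‖R ξ‖ := by
      refine (norm_sub_le _ _).trans ?_
      rw [norm_smul, Complex.norm_real, Real.norm_eq_abs, abs_of_pos (Real.exp_pos _), hρR]
      nlinarith [norm_nonneg (R ξ)]
    have h5 : ‖ρ R ξ - ((Real.exp (Real.pi * s) : ℝ) : ℂ) • R ξ‖ ^ 2 ≤ 4 * δ := by
      have h6 := pow_le_pow_left₀ (norm_nonneg _) h4 2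
      rw [mul_pow] at h6
      linarith
    have h7 : δ ^ 2 ≤ (ε / 2) ^ 2 := pow_le_pow_left₀ hδ0.le hδ1 2
    have h8 := hnear
    nlinarith

end

end Pool.Agent.H75.BC.Col

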