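import Pool.Agent.H75.BC.FB
import Pool.Agent.H75.BC.Stmts3

/-!
C3a: averaged truncated columns (helper2).
-/

set_option autoImplicit false

open MeasureTheory Filter Topology Complex
open scoped InnerProductSpace ENNReal

namespace Pool.Agent.H75.BC.Col0

open Pool.Agent.W662.CB Pool.Agent.H75.BC

noncomputable section

variable {H : Type} [NormedAddCommGroup H] [InnerProductSpace ℂ H] [CompleteSpace H]
  {K : Type} [NormedAddCommGroup K] [InnerProductSpace ℂ K] [CompleteSpace K]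
  {M N : VonNeumannAlgebra H} {ξ : H} {U : ℝ → H →L[ℂ] H} {J0 : H → H}
  {ρ : (H →L[ℂ] H) → (H →L[ℂ] H)} {κ : (H →L[ℂ] H) →⋆ₐ[ℂ] (K →L[ℂ] K)} {e S : ℝ → K →L[ℂ] K}
  {W : K →L[ℂ] K} {J : ℝ → H →L[ℂ] K} {E : ℝ → ℂ → K →L[ℂ] K} {A : VonNeumannAlgebra K}

/-- the modular data of `N` -/
theorem modN (hs : Std M N ξ U) : IsModular N ξ U where
  zero := hs.modular.zero
  add := hs.modular.add
  star_eq := hs.modular.star_eq
  cont := hs.modular.cont
  fix := hs.modular.fix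
  mem := hs.inv
  kms := fun a b ha hb => hs.modular.kms a b (hs.le _ ha) (hs.le _ hb)

/-- Parseval on the box -/
theorem parseval (F : Frame U κ e S W J E) {r : ℝ} (hr : 0 < r) (u : K) :
    HasSum (fun m : ℤ => ‖ContinuousLinearMap.adjoint (J r) (e (-((m : ℝ) / r)) u)‖ ^ 2)
      (‖E r 0 u‖ ^ 2) := by
  have h1 := F.fourier r hr u
  have h2 := (innerSL ℂ u).hasSum h1
  have e1 : ∀ m : ℤ, innerSL ℂ u (e ((m : ℝ) / r) (J r (ContinuousLinearMap.adjoint (J r)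
      (e (-((m : ℝ) / r)) u)))) =
      ((‖ContinuousLinearMap.adjoint (J r) (e (-((m : ℝ) / r)) u)‖ ^ 2 : ℝ) : ℂ) := by
    intro m
    rw [innerSL_apply_apply]
    set w := ContinuousLinearMap.adjoint (J r) (e (-((m : ℝ) / r)) u) with hw
    have h3 : ⟪u, e ((m : ℝ) / r) (J r w)⟫_ℂ = ⟪w, w⟫_ℂ := by
      have h4 : e ((m : ℝ) / r) = star (e (-((m : ℝ) / r))) := by rw [F.e_star, neg_neg]
      rw [h4, ContinuousLinearMap.star_eq_adjoint, ContinuousLinearMap.adjoint_inner_right,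
        ← ContinuousLinearMap.adjoint_inner_left]
    rw [h3, inner_self_eq_norm_sq_to_K]
    push_cast
    rfl
  have e2 : innerSL ℂ u (E r 0 u) = ((‖E r 0 u‖ ^ 2 : ℝ) : ℂ) := by
    rw [innerSL_apply_apply]
    have h3 : E r 0 u = E r 0 (E r 0 u) := by
      have := FB.ap (FB.E_idem F hr) u
      exact this.symm
    conv_lhs => rw [h3]
    have h4 : ⟪u, E r 0 (E r 0 u)⟫_ℂ = ⟪E r 0 u, E r 0 u⟫_ℂ := by
      conv_lhs => rw [← FB.E_sa F hr]
      rw [ContinuousLinearMap.star_eq_adjoint, ContinuousLinearMap.adjoint_inner_right,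
        ← ContinuousLinearMap.star_eq_adjoint, FB.E_sa F hr]
    rw [h4, inner_self_eq_norm_sq_to_K]
    push_cast
    rfl
  rw [e2] at h2
  have h3 : HasSum (fun m : ℤ => ((‖ContinuousLinearMap.adjoint (J r)
      (e (-((m : ℝ) / r)) u)‖ ^ 2 : ℝ) : ℂ)) ((‖E r 0 u‖ ^ 2 : ℝ) : ℂ) := by
    refine h2.congr_fun ?_
    intro m
    exact (e1 m).symm
  exact_mod_cast h3

/-- the partial isometry of the box -/
structure YP (N : VonNeumannAlgebra H) (U : ℝ → H →L[ℂ] H) (κ : (H →L[ℂ] H) →⋆ₐ[ℂ] (K →L[ℂ] K))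
    (e : ℝ → K →L[ℂ] K) (E : ℝ → ℂ → K →L[ℂ] K) (r s : ℝ) (Y : K →L[ℂ] K) : Prop where
  h1 : star Y * Y = E r 0
  h2 : E r 0 * Y = Y
  h3 : ∀ y : H →L[ℂ] H, y ∈ N.commutant → Y * κ y = κ y * Y
  h4 : ∀ t : ℝ, (e t * κ (U t)) * Y =
    Complex.exp (2 * Real.pi * I * s * t) • (Y * (e t * κ (U t)))

theorem norm_sq {Y P : K →L[ℂ] K} (h : star Y * Y = P) (v : K) :
    ((‖Y v‖ ^ 2 : ℝ) : ℂ) = ⟪v, P v⟫_ℂ := by
  have h1 : ⟪v, P v⟫_ℂ = ⟪Y v, Y v⟫_ℂ := by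
    rw [← h]
    change ⟪v, star Y (Y v)⟫_ℂ = _
    rw [ContinuousLinearMap.star_eq_adjoint, ContinuousLinearMap.adjoint_inner_right]
  rw [h1, inner_self_eq_norm_sq_to_K]
  push_cast
  rfl

section Y

variable (F : Frame U κ e S W J E) {r s : ℝ} (hr : 0 < r) {Y : K →L[ℂ] K} (P : YP N U κ e E r s Y)
include F hr P

theorem E0_norm (v : K) : ‖E r 0 v‖ ≤ ‖v‖ := by
  have h := norm_sq (Y := E r 0) (P := E r 0) (by rw [FB.E_sa F hr, FB.E_idem F hr]) v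
  have h2 : ‖E r 0 v‖ ^ 2 ≤ ‖v‖ * ‖E r 0 v‖ := by
    have h3 : ‖((‖E r 0 v‖ ^ 2 : ℝ) : ℂ)‖ = ‖E r 0 v‖ ^ 2 := by
      rw [Complex.norm_real, Real.norm_of_nonneg (by positivity)]
    rw [← h3, h]
    exact norm_inner_le_norm _ _
  rcases eq_or_lt_of_le (norm_nonneg (E r 0 v)) with h4 | h4
  · rw [← h4]
    exact norm_nonneg _
  · rw [sq] at h2
    exact le_of_mul_le_mul_right h2 h4

theorem Y_norm (v : K) : ‖Y v‖ ≤ ‖v‖ := by
  have h := norm_sq P.h1 v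
  have h2 : ‖Y v‖ ^ 2 ≤ ‖v‖ ^ 2 := by
    have h3 : ‖((‖Y v‖ ^ 2 : ℝ) : ℂ)‖ = ‖Y v‖ ^ 2 := by
      rw [Complex.norm_real, Real.norm_of_nonneg (by positivity)]
    rw [← h3, h, sq]
    exact (norm_inner_le_norm _ _).trans
      (mul_le_mul_of_nonneg_left (E0_norm F hr P v) (norm_nonneg _))
  exact (sq_le_sq₀ (norm_nonneg _) (norm_nonneg _)).1 h2

theorem Y_E (v : K) : Y (E r 0 v) = Y v := by
  have h := norm_sq P.h1 (E r 0 v - v)
  have h2 : E r 0 (E r 0 v - v) = 0 := by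
    rw [map_sub]
    have := FB.ap (FB.E_idem F hr) v
    change E r 0 (E r 0 v) = E r 0 v at this
    rw [this, sub_self]
  rw [h2, inner_zero_right] at h
  have h3 : ‖Y (E r 0 v - v)‖ ^ 2 = 0 := by exact_mod_cast h
  have h4 : Y (E r 0 v - v) = 0 := by
    rw [sq_eq_zero_iff] at h3
    exact norm_eq_zero.1 h3
  rw [map_sub, sub_eq_zero] at h4
  exact h4

theorem Y_Em : Y * E r 0 = Y := ContinuousLinearMap.ext fun v => Y_E F hr P v

theorem Ys_norm (v : K) : ‖star Y v‖ ≤ ‖v‖ := by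
  have h1 : ‖Y‖ ≤ 1 := ContinuousLinearMap.opNorm_le_bound _ zero_le_one fun v => by
    rw [one_mul]; exact Y_norm F hr P v
  refine ((star Y).le_opNorm v).trans ?_
  rw [norm_star]
  exact mul_le_of_le_one_left (norm_nonneg _) h1

/-- `Y` is isometric on the box -/
theorem Y_iso (v : H) : ‖Y (J r v)‖ = ‖v‖ := by
  have h := norm_sq P.h1 (J r v)
  rw [F.E_J r v hr, FB.J_inner F hr, inner_self_eq_norm_sq_to_K] at h
  have h3 : ((‖Y (J r v)‖ ^ 2 : ℝ) : ℂ) = ((‖v‖ ^ 2 : ℝ) : ℂ) := by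
    rw [h]
    push_cast
    rfl
  have h2 : ‖Y (J r v)‖ ^ 2 = ‖v‖ ^ 2 := Complex.ofReal_injective h3
  exact (sq_eq_sq₀ (norm_nonneg _) (norm_nonneg _)).1 h2

end Y

/-- `C_{mk} = J* e_{-m/r} Y e_{k/r} J` -/
def Cm (J : ℝ → H →L[ℂ] K) (e : ℝ → K →L[ℂ] K) (r : ℝ) (Y : K →L[ℂ] K) (m k : ℤ) : H →L[ℂ] H :=
  sl (J r) (e (-((m : ℝ) / r)) * Y * e ((k : ℝ) / r))

theorem Cm_apply (r : ℝ) (Y : K →L[ℂ] K) (m k : ℤ) (v : H) : Cm J e r Y m k v =
    ContinuousLinearMap.adjoint (J r) (e (-((m : ℝ) / r)) (Y (e ((k : ℝ) / r) (J r v)))) := rfl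

theorem sl_star (r : ℝ) (Z : K →L[ℂ] K) : star (sl (J r) Z) = sl (J r) (star Z) := by
  refine ContinuousLinearMap.ext fun v => ext_inner_left ℂ fun w => ?_
  rw [ContinuousLinearMap.star_eq_adjoint, ContinuousLinearMap.adjoint_inner_right]
  change ⟪ContinuousLinearMap.adjoint (J r) (Z (J r w)), v⟫_ℂ =
    ⟪w, ContinuousLinearMap.adjoint (J r) (star Z (J r v))⟫_ℂ
  rw [ContinuousLinearMap.adjoint_inner_left, ContinuousLinearMap.adjoint_inner_right,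
    ContinuousLinearMap.star_eq_adjoint, ContinuousLinearMap.adjoint_inner_right]

section C

variable (F : Frame U κ e S W J E) {r s : ℝ} (hr : 0 < r) {Y : K →L[ℂ] K} (P : YP N U κ e E r s Y)
include F hr P

theorem Cm_star (m k : ℤ) (v : H) : star (Cm J e r Y m k) v =
    ContinuousLinearMap.adjoint (J r) (e (-((k : ℝ) / r)) (star Y (e ((m : ℝ) / r) (J r v)))) := by
  unfold Cm
  rw [sl_star, star_mul, star_mul, F.e_star, F.e_star, neg_neg]
  rfl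

theorem col_sum (t : Finset ℤ) (k : ℤ) (v : H) : ∑ m ∈ t, ‖Cm J e r Y m k v‖ ^ 2 ≤ ‖v‖ ^ 2 := by
  have h1 := parseval F hr (Y (e ((k : ℝ) / r) (J r v)))
  have h2 := sum_le_hasSum t (fun m _ => by positivity) h1
  have h3 : ‖E r 0 (Y (e ((k : ℝ) / r) (J r v)))‖ ≤ ‖v‖ := by
    refine (E0_norm F hr P _).trans ((Y_norm F hr P _).trans ?_)
    rw [FB.e_norm F, FB.J_norm F hr]
  refine le_trans (le_of_eq (Finset.sum_congr rfl fun m _ => by rw [Cm_apply])) (h2.trans ?_)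
  gcongr

theorem row_sum (t : Finset ℤ) (m : ℤ) (v : H) :
    ∑ k ∈ t, ‖star (Cm J e r Y m k) v‖ ^ 2 ≤ ‖v‖ ^ 2 := by
  have h1 := parseval F hr (star Y (e ((m : ℝ) / r) (J r v)))
  have h2 := sum_le_hasSum t (fun m _ => by positivity) h1
  have h3 : ‖E r 0 (star Y (e ((m : ℝ) / r) (J r v)))‖ ≤ ‖v‖ := by
    refine (E0_norm F hr P _).trans ((Ys_norm F hr P _).trans ?_)
    rw [FB.e_norm F, FB.J_norm F hr]
  refine le_trans (le_of_eq (Finset.sum_congr rfl fun k _ => by rw [Cm_star F hr P]))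
    (h2.trans ?_)
  gcongr

theorem def_sum (hξ : ‖ξ‖ = 1) : HasSum (fun m : ℤ => ‖Cm J e r Y m 0 ξ‖ ^ 2) 1 := by
  have h1 := parseval F hr (Y (J r ξ))
  have e1 : ‖E r 0 (Y (J r ξ))‖ ^ 2 = 1 := by
    have := FB.ap P.h2 (J r ξ)
    change E r 0 (Y (J r ξ)) = Y (J r ξ) at this
    rw [this, Y_iso F hr P, hξ]
    norm_num
  rw [e1] at h1
  refine h1.congr_fun fun m => ?_
  rw [Cm_apply]
  have : e (((0 : ℤ) : ℝ) / r) = 1 := by
    rw [Int.cast_zero, zero_div, F.e_zero]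
  rw [this]
  rfl

/-- `V_t J_r ξ = e_t J_r ξ` -/
theorem V_J (hm : IsModular M ξ U) (t : ℝ) : (e t * κ (U t)) (J r ξ) = e t (J r ξ) := by
  change e t (κ (U t) (J r ξ)) = _
  rw [F.κ_J _ _ _ hr, hm.fix]

theorem Cm_shift (hm : IsModular M ξ U) (m k : ℤ) :
    ‖Cm J e r Y m k ξ‖ = ‖Cm J e r Y (m - k) 0 ξ‖ := by
  have h0 : e (((0 : ℤ) : ℝ) / r) = 1 := by
    rw [Int.cast_zero, zero_div, F.e_zero]
  rw [Cm_apply, Cm_apply, h0]
  change _ = ‖ContinuousLinearMap.adjoint (J r) (e (-(((m - k : ℤ) : ℝ) / r)) (Y (J r ξ)))‖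
  rw [← V_J F hr P hm ((k : ℝ) / r)]
  have h1 : Y ((e ((k : ℝ) / r) * κ (U ((k : ℝ) / r))) (J r ξ)) =
      Complex.exp (-(2 * Real.pi * I * s * ((k : ℝ) / r : ℝ))) •
        (e ((k : ℝ) / r) * κ (U ((k : ℝ) / r))) (Y (J r ξ)) := by
    have h2 := FB.ap (P.h4 ((k : ℝ) / r)) (J r ξ)
    change (e ((k : ℝ) / r) * κ (U ((k : ℝ) / r))) (Y (J r ξ)) =
      Complex.exp (2 * Real.pi * I * s * ((k : ℝ) / r : ℝ)) •
        Y ((e ((k : ℝ) / r) * κ (U ((k : ℝ) / r))) (J r ξ)) at h2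
    rw [h2, smul_smul, ← Complex.exp_add, neg_add_cancel, Complex.exp_zero, one_smul]
  rw [h1, map_smul, map_smul, norm_smul]
  have h2 : ‖Complex.exp (-(2 * Real.pi * I * s * ((k : ℝ) / r : ℝ)))‖ = 1 := by
    have : -(2 * (Real.pi : ℂ) * I * s * ((k : ℝ) / r : ℝ)) =
        ((-(2 * Real.pi * s * ((k : ℝ) / r)) : ℝ) : ℂ) * I := by
      push_cast
      ring
    rw [this, Complex.norm_exp_ofReal_mul_I]
  rw [h2, one_mul]
  have h3 : e (-((m : ℝ) / r)) ((e ((k : ℝ) / r) * κ (U ((k : ℝ) / r))) (Y (J r ξ))) =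
      κ (U ((k : ℝ) / r)) (e (-(((m - k : ℤ) : ℝ) / r)) (Y (J r ξ))) := by
    have h4 : e (-((m : ℝ) / r)) * (e ((k : ℝ) / r) * κ (U ((k : ℝ) / r))) =
        κ (U ((k : ℝ) / r)) * e (-(((m - k : ℤ) : ℝ) / r)) := by
      rw [← mul_assoc, ← F.e_add, F.κ_e]
      congr 2
      push_cast
      ring
    exact FB.ap h4 _
  rw [h3, FB.κ_adj F hr]
  have h4 : star (U ((k : ℝ) / r)) * U ((k : ℝ) / r) = 1 := by
    rw [hm.star_eq, ← hm.add, neg_add_cancel, hm.zero]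
  exact FB.norm_le_one_of_un h4 _

theorem Cm_mem (hSl : S_Sl) (hs : Std M N ξ U) (R : RAct M ξ U J0 ρ) (m k : ℤ) :
    Cm J e r Y m k ∈ N ∧ ρ (Cm J e r Y m k) ξ = ((Real.exp (Real.pi * s) : ℝ) : ℂ) •
      ContinuousLinearMap.adjoint (J r) (E r (I / 2) ((e (-((m : ℝ) / r)) * Y * e ((k : ℝ) / r))
        (E r (-(I / 2)) (J r ξ)))) := by
  refine hSl H K N ξ U J0 ρ κ e S W J E (modN hs) (RB.restrict R hs.le) F
    (e (-((m : ℝ) / r)) * Y * e ((k : ℝ) / r)) s r hr (fun y hy => ?_) (fun t => ?_)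
  · calc e (-((m : ℝ) / r)) * Y * e ((k : ℝ) / r) * κ y
        = e (-((m : ℝ) / r)) * Y * (κ y * e ((k : ℝ) / r)) := by rw [F.κ_e]; simp only [mul_assoc]
      _ = e (-((m : ℝ) / r)) * (Y * κ y) * e ((k : ℝ) / r) := by simp only [mul_assoc]
      _ = (e (-((m : ℝ) / r)) * κ y) * Y * e ((k : ℝ) / r) := by
          rw [P.h3 y hy]; simp only [mul_assoc]
      _ = _ := by rw [← F.κ_e]; simp only [mul_assoc]
  · have hV : ∀ a : ℝ, (e t * κ (U t)) * e a = e a * (e t * κ (U t)) := by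
      intro a
      calc (e t * κ (U t)) * e a = e t * (κ (U t) * e a) := mul_assoc _ _ _
        _ = (e t * e a) * κ (U t) := by rw [F.κ_e, mul_assoc]
        _ = (e a * e t) * κ (U t) := by rw [← F.e_add, ← F.e_add, add_comm]
        _ = _ := mul_assoc _ _ _
    calc (e t * κ (U t)) * (e (-((m : ℝ) / r)) * Y * e ((k : ℝ) / r))
        = ((e t * κ (U t)) * e (-((m : ℝ) / r))) * Y * e ((k : ℝ) / r) := by
          simp only [mul_assoc]
      _ = e (-((m : ℝ) / r)) * ((e t * κ (U t)) * Y) * e ((k : ℝ) / r) := by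
          rw [hV]; simp only [mul_assoc]
      _ = Complex.exp (2 * Real.pi * I * s * t) •
          (e (-((m : ℝ) / r)) * Y * ((e t * κ (U t)) * e ((k : ℝ) / r))) := by
          rw [P.h4, mul_smul_comm, smul_mul_assoc]; simp only [mul_assoc]
      _ = _ := by rw [hV]; simp only [mul_assoc]

/-- `D = E(i/2) Y E(-i/2) - Y` is small -/
theorem D_norm {a : ℝ} (ha : Real.exp (Real.pi * r) - 1 ≤ a) (ha1 : a ≤ 1) (v : K) :
    ‖(E r (I / 2) * Y * E r (-(I / 2)) - Y) v‖ ≤ 3 * a * ‖v‖ := by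
  have hn : ‖(I / 2 : ℂ)‖ = 1 / 2 := by
    rw [norm_div, Complex.norm_I]
    norm_num
  have h1 : ‖E r (I / 2) - E r 0‖ ≤ a := by
    refine (F.E_norm r (I / 2) hr).trans ?_
    rw [hn]
    have : 2 * Real.pi * (1 / 2) * r = Real.pi * r := by ring
    rw [this]
    exact ha
  have h2 : ‖E r (-(I / 2)) - E r 0‖ ≤ a := by
    refine (F.E_norm r (-(I / 2)) hr).trans ?_
    rw [norm_neg, hn]
    have : 2 * Real.pi * (1 / 2) * r = Real.pi * r := by ring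
    rw [this]
    exact ha
  have ha0 : 0 ≤ a := (norm_nonneg _).trans h1
  have h3 : ‖E r (-(I / 2)) v‖ ≤ (1 + a) * ‖v‖ := by
    have h4 : E r (-(I / 2)) v = E r 0 v + (E r (-(I / 2)) - E r 0) v := by
      rw [ContinuousLinearMap.sub_apply]
      abel
    rw [h4]
    refine (norm_add_le _ _).trans ?_
    have h5 := E0_norm F hr P v
    have h6 := ((E r (-(I / 2)) - E r 0).le_opNorm v).trans
      (mul_le_mul_of_nonneg_right h2 (norm_nonneg v))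
    linarith
  have e1 : (E r (I / 2) * Y * E r (-(I / 2)) - Y) v =
      (E r (I / 2) - E r 0) (Y (E r (-(I / 2)) v)) + Y ((E r (-(I / 2)) - E r 0) v) := by
    have h4 : ∀ w, E r 0 (Y w) = Y w := fun w => FB.ap P.h2 w
    change E r (I / 2) (Y (E r (-(I / 2)) v)) - Y v = _
    rw [ContinuousLinearMap.sub_apply, ContinuousLinearMap.sub_apply, map_sub, h4,
      Y_E F hr P]
    abel
  rw [e1]
  refine (norm_add_le _ _).trans ?_
  have h5 : ‖(E r (I / 2) - E r 0) (Y (E r (-(I / 2)) v))‖ ≤ a * ((1 + a) * ‖v‖) := by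
    refine ((E r (I / 2) - E r 0).le_opNorm _).trans ?_
    exact mul_le_mul h1 ((Y_norm F hr P _).trans h3) (norm_nonneg _) ha0
  have h6 : ‖Y ((E r (-(I / 2)) - E r 0) v)‖ ≤ a * ‖v‖ :=
    (Y_norm F hr P _).trans (((E r (-(I / 2)) - E r 0).le_opNorm v).trans
      (mul_le_mul_of_nonneg_right h2 (norm_nonneg v)))
  have h7 : 0 ≤ a * ‖v‖ := by positivity
  nlinarith

theorem near_sum (hSl : S_Sl) (hs : Std M N ξ U) (R : RAct M ξ U J0 ρ) (hs0 : s ≤ 0) {a : ℝ}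
    (ha : Real.exp (Real.pi * r) - 1 ≤ a) (ha1 : a ≤ 1) (t : Finset ℤ) (k : ℤ) :
    ∑ m ∈ t, ‖ρ (Cm J e r Y m k) ξ - ((Real.exp (Real.pi * s) : ℝ) : ℂ) • Cm J e r Y m k ξ‖ ^ 2 ≤
      (3 * a) ^ 2 := by
  set D : K →L[ℂ] K := E r (I / 2) * Y * E r (-(I / 2)) - Y with hD
  have hexp : Real.exp (Real.pi * s) ≤ 1 := by
    rw [← Real.exp_zero]
    exact Real.exp_le_exp.2 (mul_nonpos_of_nonneg_of_nonpos Real.pi_pos.le hs0)
  have ha0 : 0 ≤ a := by
    have : 0 ≤ Real.exp (Real.pi * r) - 1 := by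
      have := Real.one_le_exp (x := Real.pi * r) (by positivity)
      linarith
    linarith
  have e1 : ∀ m : ℤ, ρ (Cm J e r Y m k) ξ - ((Real.exp (Real.pi * s) : ℝ) : ℂ) • Cm J e r Y m k ξ =
      ((Real.exp (Real.pi * s) : ℝ) : ℂ) • ContinuousLinearMap.adjoint (J r)
        (e (-((m : ℝ) / r)) (D (e ((k : ℝ) / r) (J r ξ)))) := by
    intro m
    rw [(Cm_mem F hr P hSl hs R m k).2, ← smul_sub, Cm_apply, ← map_sub]
    congr 2
    have h1 : e (-((m : ℝ) / r)) * E r (I / 2) = E r (I / 2) * e (-((m : ℝ) / r)) :=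
      FB.e_E F hr _ _
    have h2 : e ((k : ℝ) / r) * E r (-(I / 2)) = E r (-(I / 2)) * e ((k : ℝ) / r) :=
      FB.e_E F hr _ _
    have h3 : E r (I / 2) * (e (-((m : ℝ) / r)) * Y * e ((k : ℝ) / r)) * E r (-(I / 2)) =
        e (-((m : ℝ) / r)) * (E r (I / 2) * Y * E r (-(I / 2))) * e ((k : ℝ) / r) := by
      calc E r (I / 2) * (e (-((m : ℝ) / r)) * Y * e ((k : ℝ) / r)) * E r (-(I / 2))
          = (E r (I / 2) * e (-((m : ℝ) / r))) * Y * (e ((k : ℝ) / r) * E r (-(I / 2))) := by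
            simp only [mul_assoc]
        _ = _ := by rw [← h1, h2]; simp only [mul_assoc]
    have h4 := FB.ap h3 (J r ξ)
    change E r (I / 2) ((e (-((m : ℝ) / r)) * Y * e ((k : ℝ) / r)) (E r (-(I / 2)) (J r ξ))) =
      e (-((m : ℝ) / r)) ((E r (I / 2) * Y * E r (-(I / 2))) (e ((k : ℝ) / r) (J r ξ))) at h4
    rw [h4, ← map_sub]
    rfl
  have h1 := parseval F hr (D (e ((k : ℝ) / r) (J r ξ)))
  have h2 := sum_le_hasSum t (fun m _ => by positivity) h1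
  have h3 : ‖E r 0 (D (e ((k : ℝ) / r) (J r ξ)))‖ ≤ 3 * a := by
    refine (E0_norm F hr P _).trans ((D_norm F hr P ha ha1 _).trans ?_)
    rw [FB.e_norm F, FB.J_norm F hr, hs.unit, mul_one]
  refine le_trans (Finset.sum_le_sum fun m _ => ?_) (h2.trans ?_)
  · rw [e1, norm_smul, Complex.norm_real, Real.norm_of_nonneg (Real.exp_pos _).le, mul_pow]
    refine mul_le_of_le_one_left (by positivity) ?_
    have := (Real.exp_pos (Real.pi * s)).le
    nlinarith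
  · gcongr

end C

/-! ### The averaged family -/

/-- the finite statement for a finite index type -/
theorem reindex {ι : Type} [Fintype ι] {C : ι → H →L[ℂ] H} {ε l : ℝ}
    (h1 : ∀ i, C i ∈ N) (h2 : ∀ v : H, ∑ i, ‖C i v‖ ^ 2 ≤ ‖v‖ ^ 2)
    (h3 : ∀ v : H, ∑ i, ‖star (C i) v‖ ^ 2 ≤ ‖v‖ ^ 2) (h4 : 1 - ε ≤ ∑ i, ‖C i ξ‖ ^ 2)
    (h5 : ∑ i, ‖ρ (C i) ξ - ((l : ℝ) : ℂ) • C i ξ‖ ^ 2 ≤ ε ^ 2) :
    ∃ (n : ℕ) (C : Fin n → H →L[ℂ] H), (∀ i, C i ∈ N) ∧
    (∀ v : H, ∑ i, ‖C i v‖ ^ 2 ≤ ‖v‖ ^ 2) ∧ (∀ v : H, ∑ i, ‖star (C i) v‖ ^ 2 ≤ ‖v‖ ^ 2) ∧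
    1 - ε ≤ ∑ i, ‖C i ξ‖ ^ 2 ∧
    ∑ i, ‖ρ (C i) ξ - ((l : ℝ) : ℂ) • C i ξ‖ ^ 2 ≤ ε ^ 2 := by
  set f := (Fintype.equivFin ι).symm
  refine ⟨Fintype.card ι, fun i => C (f i), fun i => h1 _, fun v => ?_, fun v => ?_, ?_, ?_⟩
  · rw [f.sum_comp fun i => ‖C i v‖ ^ 2]
    exact h2 v
  · rw [f.sum_comp fun i => ‖star (C i) v‖ ^ 2]
    exact h3 v
  · rw [f.sum_comp fun i => ‖C i ξ‖ ^ 2]
    exact h4
  · rw [f.sum_comp fun i => ‖ρ (C i) ξ - ((l : ℝ) : ℂ) • C i ξ‖ ^ 2]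
    exact h5

theorem exists_r {r0 ε : ℝ} (h0 : 0 < r0) (hε : 0 < ε) :
    ∃ r : ℝ, 0 < r ∧ r ≤ r0 ∧ Real.exp (Real.pi * r) - 1 ≤ min 1 (ε / 3) := by
  set t : ℝ := min 1 (ε / 3) with ht
  have htp : 0 < t := lt_min one_pos (by positivity)
  have hlog : 0 < Real.log (1 + t) := Real.log_pos (by linarith)
  refine ⟨min r0 (Real.log (1 + t) / Real.pi), lt_min h0 (div_pos hlog Real.pi_pos),
    min_le_left _ _, ?_⟩
  have h1 : Real.pi * min r0 (Real.log (1 + t) / Real.pi) ≤ Real.log (1 + t) := by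
    calc Real.pi * min r0 (Real.log (1 + t) / Real.pi) ≤ Real.pi * (Real.log (1 + t) / Real.pi) :=
          mul_le_mul_of_nonneg_left (min_le_right _ _) Real.pi_pos.le
      _ = Real.log (1 + t) := by
          field_simp
  have h2 := Real.exp_le_exp.2 h1
  rw [Real.exp_log (by linarith)] at h2
  linarith

/-- **C3a** -/
theorem col0 (hSl : S_Sl) (hV : S_V) : S_Col0 := by
  intro H K _ _ _ _ _ _ M N ξ U J0 ρ κ e S W J E A D R s ε hs0 hε
  have F := D.fr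
  have hm := D.std.modular
  obtain ⟨r0, hr0, hVr⟩ := hV H K M N ξ U κ e S W J E A D
  obtain ⟨r, hr, hrr, hra⟩ := exists_r hr0 hε
  obtain ⟨V, hVA, hVV, hEV⟩ := hVr r s hr hrr hs0
  set a : ℝ := min 1 (ε / 3) with ha
  have ha1 : a ≤ 1 := min_le_left _ _
  have ha3 : 3 * a ≤ ε := by
    have : a ≤ ε / 3 := min_le_right _ _
    linarith
  have ha0 : 0 ≤ a := le_min zero_le_one (by positivity)
  set Y : K →L[ℂ] K := V * S s with hY
  have P : YP N U κ e E r s Y := by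
    refine ⟨?_, ?_, fun y hy => ?_, fun t => ?_⟩
    · rw [hY, star_mul, F.S_star]
      calc S (-s) * star V * (V * S s) = S (-s) * (star V * V) * S s := by simp only [mul_assoc]
        _ = (S (-s) * S s) * E r 0 * (S (-s) * S s) := by
            rw [hVV]
            unfold bx
            simp only [mul_assoc]
        _ = E r 0 := by rw [FB.S_neg_mul F, one_mul, mul_one]
    · rw [hY, ← mul_assoc, hEV]
    · rw [hY, mul_assoc, ← F.κ_S, ← mul_assoc, ← FB.κ_comm D hVA hy, mul_assoc]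
    · rw [hY]
      calc (e t * κ (U t)) * (V * S s) = ((e t * κ (U t)) * V) * S s := by simp only [mul_assoc]
        _ = V * (e t * (κ (U t) * S s)) := by rw [FB.V_comm D hVA]; simp only [mul_assoc]
        _ = V * ((e t * S s) * κ (U t)) := by rw [F.κ_S]; simp only [mul_assoc]
        _ = Complex.exp (2 * Real.pi * I * t * s) • (V * (S s * (e t * κ (U t)))) := by
            rw [F.e_S, smul_mul_assoc, mul_smul_comm]; simp only [mul_assoc]
        _ = _ := by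
            rw [← mul_assoc V]
            congr 2
            ring
  -- choice of `L` and `n`
  have hsum := def_sum F hr P (ξ := ξ) D.std.unit
  obtain ⟨L, hL⟩ : ∃ L : ℕ, 1 - ε / 2 ≤ ∑ m ∈ Finset.Icc (-(L : ℤ)) L,
      ‖Cm J e r Y m 0 ξ‖ ^ 2 := by
    have h1 : ∀ᶠ t : Finset ℤ in atTop, 1 - ε / 2 < ∑ m ∈ t, ‖Cm J e r Y m 0 ξ‖ ^ 2 := by
      have h2 : Tendsto (fun t : Finset ℤ => ∑ m ∈ t, ‖Cm J e r Y m 0 ξ‖ ^ 2) atTop (𝓝 1) := hsum
      exact h2.eventually (lt_mem_nhds (by linarith))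
    obtain ⟨t, ht⟩ := h1.exists
    have : ∃ L : ℕ, t ⊆ Finset.Icc (-(L : ℤ)) L := by
      refine ⟨t.sup fun m => m.natAbs, fun m hmt => ?_⟩
      have h3 : m.natAbs ≤ t.sup fun m => m.natAbs := Finset.le_sup (f := fun m : ℤ => m.natAbs) hmt
      rw [Finset.mem_Icc]
      omega
    obtain ⟨L, hL⟩ := this
    refine ⟨L, ht.le.trans (Finset.sum_le_sum_of_subset_of_nonneg hL fun m _ _ => by positivity)⟩
  obtain ⟨n, hn0, hn⟩ : ∃ n : ℕ, 0 < n ∧ (1 - ε) * ((n : ℝ) + 2 * L) ≤ n * (1 - ε / 2) := by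
    obtain ⟨n, hn⟩ := exists_nat_gt (4 * (L : ℝ) / ε)
    refine ⟨n + 1, Nat.succ_pos n, ?_⟩
    rw [div_lt_iff₀ hε] at hn
    push_cast
    have : 0 ≤ (L : ℝ) := Nat.cast_nonneg L
    nlinarith
  set Q : ℝ := (n : ℝ) + 2 * L with hQ
  have hQp : 0 < Q := by
    have : 0 < (n : ℝ) := by exact_mod_cast hn0
    positivity
  set q : ℝ := (Real.sqrt Q)⁻¹ with hq
  have hq2 : q ^ 2 = Q⁻¹ := by
    rw [hq, inv_pow, Real.sq_sqrt hQp.le]
  set T : Finset ℤ := Finset.Ico (-(L : ℤ)) (n + L) with hT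
  have hTc : (T.card : ℝ) = Q := by
    rw [hT, Int.card_Ico]
    have : ((n : ℤ) + L - -(L : ℤ)).toNat = n + 2 * L := by omega
    rw [this, hQ]
    push_cast
    ring
  -- the family
  set C : Fin n × T → H →L[ℂ] H := fun x => ((q : ℝ) : ℂ) • Cm J e r Y x.2.1 (x.1 : ℕ) with hC
  have hnorm : ∀ (Z : H →L[ℂ] H) (v : H), ‖(((q : ℝ) : ℂ) • Z) v‖ ^ 2 = Q⁻¹ * ‖Z v‖ ^ 2 := by
    intro Z v
    rw [ContinuousLinearMap.smul_apply, norm_smul, Complex.norm_real, mul_pow, Real.norm_eq_abs,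
      sq_abs, hq2]
  have hsT : ∀ f : ℤ → ℝ, ∑ m : T, f m.1 = ∑ m ∈ T, f m := fun f => Finset.sum_coe_sort T f
  refine reindex (C := C) (fun x => ?_) (fun v => ?_) (fun v => ?_) ?_ ?_
  · exact N.toStarSubalgebra.smul_mem (Cm_mem F hr P hSl D.std R _ _).1 _
  · rw [Fintype.sum_prod_type]
    have h1 : ∀ k : Fin n, ∑ m : T, ‖C (k, m) v‖ ^ 2 ≤ Q⁻¹ * ‖v‖ ^ 2 := by
      intro k
      have h2 : ∀ m : T, ‖C (k, m) v‖ ^ 2 = Q⁻¹ * ‖Cm J e r Y m.1 (k : ℕ) v‖ ^ 2 := fun m =>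
        hnorm _ v
      rw [Finset.sum_congr rfl fun m _ => h2 m, ← Finset.mul_sum,
        hsT fun m => ‖Cm J e r Y m (k : ℕ) v‖ ^ 2]
      exact mul_le_mul_of_nonneg_left (col_sum F hr P T _ v) (by positivity)
    refine (Finset.sum_le_sum fun k _ => h1 k).trans ?_
    rw [Finset.sum_const, Finset.card_univ, Fintype.card_fin, nsmul_eq_mul, ← mul_assoc]
    refine mul_le_of_le_one_left (by positivity) ?_
    rw [← div_eq_mul_inv, div_le_one hQp, hQ]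
    have : 0 ≤ (L : ℝ) := Nat.cast_nonneg L
    linarith
  · rw [Fintype.sum_prod_type_right]
    have h1 : ∀ m : T, ∑ k : Fin n, ‖star (C (k, m)) v‖ ^ 2 ≤ Q⁻¹ * ‖v‖ ^ 2 := by
      intro m
      have h2 : ∀ k : Fin n, ‖star (C (k, m)) v‖ ^ 2 =
          Q⁻¹ * ‖star (Cm J e r Y m.1 (k : ℕ)) v‖ ^ 2 := by
        intro k
        have : star (C (k, m)) = ((q : ℝ) : ℂ) • star (Cm J e r Y m.1 (k : ℕ)) := by
          rw [hC]
          simp only
          rw [star_smul]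
          congr 1
          exact Complex.conj_ofReal q
        rw [this]
        exact hnorm _ v
      rw [Finset.sum_congr rfl fun k _ => h2 k, ← Finset.mul_sum]
      refine mul_le_mul_of_nonneg_left ?_ (by positivity)
      have h3 := row_sum F hr P ((Finset.range n).map Nat.castEmbedding) m.1 v
      rw [Finset.sum_map] at h3
      refine le_trans (le_of_eq ?_) h3
      rw [Finset.sum_range]
      rfl
    refine (Finset.sum_le_sum fun m _ => h1 m).trans ?_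
    rw [Finset.sum_const, Finset.card_univ, Fintype.card_coe, nsmul_eq_mul, hTc, ← mul_assoc,
      mul_inv_cancel₀ hQp.ne', one_mul]
  · rw [Fintype.sum_prod_type]
    have h1 : ∀ k : Fin n, Q⁻¹ * (1 - ε / 2) ≤ ∑ m : T, ‖C (k, m) ξ‖ ^ 2 := by
      intro k
      have h2 : ∀ m : T, ‖C (k, m) ξ‖ ^ 2 = Q⁻¹ * ‖Cm J e r Y (m.1 - (k : ℕ)) 0 ξ‖ ^ 2 := by
        intro m
        rw [← Cm_shift F hr P hm]
        exact hnorm _ ξ
      rw [Finset.sum_congr rfl fun m _ => h2 m, ← Finset.mul_sum,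
        hsT fun m => ‖Cm J e r Y (m - (k : ℕ)) 0 ξ‖ ^ 2]
      refine mul_le_mul_of_nonneg_left ?_ (by positivity)
      refine hL.trans ?_
      have h3 : ∑ m ∈ T, ‖Cm J e r Y (m - (k : ℕ)) 0 ξ‖ ^ 2 =
          ∑ m ∈ T.map (Equiv.subRight ((k : ℕ) : ℤ)).toEmbedding, ‖Cm J e r Y m 0 ξ‖ ^ 2 := by
        rw [Finset.sum_map]
        rfl
      rw [h3]
      refine Finset.sum_le_sum_of_subset_of_nonneg (fun j hj => ?_) fun m _ _ => by positivity
      rw [Finset.mem_map]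
      refine ⟨j + (k : ℕ), ?_, ?_⟩
      · rw [hT, Finset.mem_Ico]
        rw [Finset.mem_Icc] at hj
        have := k.2
        omega
      · change j + (k : ℕ) - (k : ℕ) = j
        omega
    refine le_trans ?_ (Finset.sum_le_sum fun k _ => h1 k)
    rw [Finset.sum_const, Finset.card_univ, Fintype.card_fin, nsmul_eq_mul]
    have : (n : ℝ) * (Q⁻¹ * (1 - ε / 2)) = (n * (1 - ε / 2)) / Q := by
      rw [div_eq_mul_inv]
      ring
    rw [this, le_div_iff₀ hQp]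
    exact hn
  · rw [Fintype.sum_prod_type]
    have h1 : ∀ k : Fin n, ∑ m : T, ‖ρ (C (k, m)) ξ - ((Real.exp (Real.pi * s) : ℝ) : ℂ) •
        C (k, m) ξ‖ ^ 2 ≤ Q⁻¹ * (3 * a) ^ 2 := by
      intro k
      have h2 : ∀ m : T, ‖ρ (C (k, m)) ξ - ((Real.exp (Real.pi * s) : ℝ) : ℂ) • C (k, m) ξ‖ ^ 2 =
          Q⁻¹ * ‖ρ (Cm J e r Y m.1 (k : ℕ)) ξ -
            ((Real.exp (Real.pi * s) : ℝ) : ℂ) • Cm J e r Y m.1 (k : ℕ) ξ‖ ^ 2 := by
        intro m
        have : ρ (C (k, m)) ξ - ((Real.exp (Real.pi * s) : ℝ) : ℂ) • C (k, m) ξ =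
            ((q : ℝ) : ℂ) • (ρ (Cm J e r Y m.1 (k : ℕ)) ξ -
            ((Real.exp (Real.pi * s) : ℝ) : ℂ) • Cm J e r Y m.1 (k : ℕ) ξ) := by
          rw [hC]
          simp only
          rw [RB.ρ_smul R, smul_sub, ContinuousLinearMap.smul_apply,
            ContinuousLinearMap.smul_apply, smul_comm]
        rw [this, norm_smul, Complex.norm_real, mul_pow, Real.norm_eq_abs, sq_abs, hq2]
      rw [Finset.sum_congr rfl fun m _ => h2 m, ← Finset.mul_sum,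
        hsT fun m => ‖ρ (Cm J e r Y m (k : ℕ)) ξ -
            ((Real.exp (Real.pi * s) : ℝ) : ℂ) • Cm J e r Y m (k : ℕ) ξ‖ ^ 2]
      exact mul_le_mul_of_nonneg_left (near_sum F hr P hSl D.std R hs0 hra ha1 T _) (by positivity)
    refine (Finset.sum_le_sum fun k _ => h1 k).trans ?_
    rw [Finset.sum_const, Finset.card_univ, Fintype.card_fin, nsmul_eq_mul, ← mul_assoc]
    have h4 : (n : ℝ) * Q⁻¹ ≤ 1 := by
      rw [← div_eq_mul_inv, div_le_one hQp, hQ]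
      have : 0 ≤ (L : ℝ) := Nat.cast_nonneg L
      linarith
    refine (mul_le_of_le_one_left (by positivity) h4).trans ?_
    have : 0 ≤ 3 * a := by positivity
    gcongr

end

end Pool.Agent.H75.BC.Col0
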