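import Pool.Agent.H75.BC.Stmts2
import Pool.Agent.H75.L.W298.CB2.Q1
import Pool.Agent.H75.L8.H770R2.Kad.Kap

/-!
Project BIC, task X2 (S_Cor): from the corner to the whole algebra (helper85).
-/

set_option autoImplicit false

open MeasureTheory Filter Topology Complex
open scoped InnerProductSpace ENNReal

namespace Pool.Agent.H75.BC.Cor

open Pool.Agent.W662.CB Pool.Agent.H75.BC

noncomputable section

variable {K : Type} [NormedAddCommGroup K] [InnerProductSpace ℂ K] [CompleteSpace K]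

/-- density of a `*`-algebra in its bicommutant, on two vectors -/
theorem dens (C : StarSubalgebra ℂ (K →L[ℂ] K)) (Z : K →L[ℂ] K)
    (hZ : ∀ T : K →L[ℂ] K, (∀ a ∈ C, T * a = a * T) → T * Z = Z * T) (u v : K) (ε : ℝ) (hε : 0 < ε) :
    ∃ a ∈ C, ‖a u - Z u‖ < ε ∧ ‖a v - Z v‖ < ε := by
  have hcl : IsClosed (C.topologicalClosure : Set (K →L[ℂ] K)) :=
    StarSubalgebra.isClosed_topologicalClosure C
  let _ : CStarAlgebra C.topologicalClosure :=
    StarSubalgebra.cstarAlgebra C.topologicalClosure (h_closed := hcl)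
  obtain ⟨a, ha⟩ := H770R2.Kad.bicomm (C.topologicalClosure.subtype) Z (fun y hy => hZ y fun b hb =>
    hy ⟨b, StarSubalgebra.le_topologicalClosure C hb⟩) 2 ![u, v] (ε / 2) (half_pos hε)
  have h1 : (a : K →L[ℂ] K) ∈ closure (C : Set (K →L[ℂ] K)) := a.2
  have hpos : 0 < ε / (2 * (‖u‖ + ‖v‖ + 1)) := by positivity
  obtain ⟨b, hb, hab⟩ := Metric.mem_closure_iff.1 h1 _ hpos
  have hu : ‖(a : K →L[ℂ] K) u - Z u‖ < ε / 2 := ha 0
  have hv : ‖(a : K →L[ℂ] K) v - Z v‖ < ε / 2 := ha 1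
  rw [dist_eq_norm] at hab
  have key : ∀ w : K, ‖w‖ ≤ ‖u‖ + ‖v‖ → ‖b w - (a : K →L[ℂ] K) w‖ ≤ ε / 2 := by
    intro w hw
    have h2 : b w - (a : K →L[ℂ] K) w = -(((a : K →L[ℂ] K) - b) w) := by
      rw [sub_apply]; abel
    rw [h2, norm_neg]
    refine (ContinuousLinearMap.le_opNorm _ _).trans ?_
    have h3 : ‖(a : K →L[ℂ] K) - b‖ * ‖w‖ ≤ ε / (2 * (‖u‖ + ‖v‖ + 1)) * (‖u‖ + ‖v‖ + 1) :=
      mul_le_mul hab.le (by linarith) (norm_nonneg _) hpos.le
    refine h3.trans (le_of_eq ?_)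
    have : ‖u‖ + ‖v‖ + 1 ≠ 0 := by positivity
    field_simp
  refine ⟨b, hb, ?_, ?_⟩
  · calc ‖b u - Z u‖ = ‖(b u - (a : K →L[ℂ] K) u) + ((a : K →L[ℂ] K) u - Z u)‖ := by congr 1; abel
      _ ≤ ‖b u - (a : K →L[ℂ] K) u‖ + ‖(a : K →L[ℂ] K) u - Z u‖ := norm_add_le _ _
      _ < ε := by linarith [key u (by linarith [norm_nonneg v])]
  · calc ‖b v - Z v‖ = ‖(b v - (a : K →L[ℂ] K) v) + ((a : K →L[ℂ] K) v - Z v)‖ := by congr 1; abel
      _ ≤ ‖b v - (a : K →L[ℂ] K) v‖ + ‖(a : K →L[ℂ] K) v - Z v‖ := norm_add_le _ _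
      _ < ε := by linarith [key v (by linarith [norm_nonneg u])]

/-- an element of a corner that commutes with the compressions of a `*`-algebra commutes with the corner of
its bicommutant -/
theorem corner (C : StarSubalgebra ℂ (K →L[ℂ] K)) (P X : K →L[ℂ] K)
    (hP : P * P = P) (hX : P * X * P = X) (hXC : ∀ a ∈ C, X * (P * a * P) = (P * a * P) * X)
    (Z : K →L[ℂ] K) (hZ : ∀ T : K →L[ℂ] K, (∀ a ∈ C, T * a = a * T) → T * Z = Z * T)
    (hZP : P * Z * P = Z) : Z * X = X * Z := by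
  have hXP : X * P = X := by rw [← hX, mul_assoc, hP]
  have hPX : P * X = X := by rw [← hX, ← mul_assoc, ← mul_assoc, hP]
  refine ContinuousLinearMap.ext fun v => ?_
  by_contra hne
  have hpos : 0 < ‖(Z * X) v - (X * Z) v‖ := norm_pos_iff.2 (sub_ne_zero.2 hne)
  set d := ‖(Z * X) v - (X * Z) v‖ with hd
  set B := ‖P‖ + ‖X‖ * ‖P‖ + 1 with hB
  have hB0 : 0 < B := by positivity
  obtain ⟨a, haC, h1, h2⟩ := dens C Z hZ (X v) (P v) (d / (2 * B)) (by positivity)
  have e1 : (Z * X) v = P (Z (X v)) := by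
    have h3 : Z * X = P * Z * X := by
      rw [← hZP]
      calc P * Z * P * X = P * Z * (P * X) := by rw [mul_assoc]
        _ = P * Z * X := by rw [hPX]
        _ = P * (P * Z * P) * X := by
          rw [hZP]
    rw [h3]; rfl
  have e2 : (X * Z) v = X (P (Z (P v))) := by
    have h3 : X * Z = X * (P * Z * P) := by rw [hZP]
    rw [h3]; rfl
  have e3 : X (P (a (P v))) = P (a (X v)) := by
    have h4 := congrArg (fun T : K →L[ℂ] K => T v) (hXC a haC)
    simp only [mul_apply_eq_comp] at h4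
    rw [h4]
    have h5 : P (X v) = X v := congrArg (fun T : K →L[ℂ] K => T v) hPX
    rw [h5]
  have e4 : (Z * X) v - (X * Z) v = -(P (a (X v) - Z (X v))) + X (P (a (P v) - Z (P v))) := by
    rw [e1, e2, map_sub, map_sub, map_sub, e3]
    abel
  have e5 : d = ‖-(P (a (X v) - Z (X v))) + X (P (a (P v) - Z (P v)))‖ := by rw [hd, e4]
  have h6 : d ≤ ‖P‖ * (d / (2 * B)) + ‖X‖ * (‖P‖ * (d / (2 * B))) := by
    refine e5.le.trans ?_
    refine (norm_add_le _ _).trans (add_le_add ?_ ?_)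
    · rw [norm_neg]
      exact (ContinuousLinearMap.le_opNorm _ _).trans
        (mul_le_mul_of_nonneg_left h1.le (norm_nonneg _))
    · refine (ContinuousLinearMap.le_opNorm _ _).trans
        (mul_le_mul_of_nonneg_left ?_ (norm_nonneg _))
      exact (ContinuousLinearMap.le_opNorm _ _).trans
        (mul_le_mul_of_nonneg_left h2.le (norm_nonneg _))
  have h7 : ‖P‖ * (d / (2 * B)) + ‖X‖ * (‖P‖ * (d / (2 * B))) = (B - 1) / B * (d / 2) := by
    rw [hB]
    have : ‖P‖ + ‖X‖ * ‖P‖ + 1 ≠ 0 := by positivity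
    field_simp
    ring
  have h8 : (B - 1) / B ≤ 1 := by rw [div_le_one hB0]; linarith
  have h9 : 0 ≤ (B - 1) / B := by
    apply div_nonneg _ hB0.le
    rw [hB]
    have : 0 ≤ ‖P‖ + ‖X‖ * ‖P‖ := by positivity
    linarith
  rw [h7] at h6
  nlinarith

/-- the von Neumann algebra `S'` (commutant of `S ∪ S*`) -/
def vnCen (G : Set (K →L[ℂ] K)) : VonNeumannAlgebra K where
  __ := StarSubalgebra.centralizer ℂ G
  centralizer_centralizer' := Set.centralizer_centralizer_centralizer _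

theorem mem_vnCen (G : Set (K →L[ℂ] K)) (T : K →L[ℂ] K) : T ∈ vnCen G ↔
    ∀ g ∈ G, g * T = T * g ∧ star g * T = T * star g := by
  have h : T ∈ vnCen G ↔ T ∈ StarSubalgebra.centralizer ℂ G := Iff.rfl
  rw [h, StarSubalgebra.mem_centralizer_iff]

section frame

variable {H : Type} [NormedAddCommGroup H] [InnerProductSpace ℂ H] [CompleteSpace H]
  {M N : VonNeumannAlgebra H} {ξ : H} {U : ℝ → H →L[ℂ] H}
  {κ : (H →L[ℂ] H) →⋆ₐ[ℂ] (K →L[ℂ] K)} {e S : ℝ → K →L[ℂ] K}
  {W : K →L[ℂ] K} {J : ℝ → H →L[ℂ] K} {E : ℝ → ℂ → K →L[ℂ] K} {A : VonNeumannAlgebra K}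

/-- `e_t π_σ(y) = π_σ(σ_{-t}(y)) e_t` -/
theorem e_pi (D : CoreD M N ξ U κ e S W J E A) (t : ℝ) (y : H →L[ℂ] H) :
    e t * (W * κ y * star W) = (W * κ (sgm U (-t) y) * star W) * e t := by
  have F := D.fr
  have hm := D.std.modular
  have h1 : e t * W = W * κ (U (-t)) * e t := by
    calc e t * W = (W * star W) * e t * W := by rw [F.W_un2, one_mul]
      _ = W * (star W * e t * W) := by simp only [mul_assoc]
      _ = _ := by rw [F.e_W, mul_assoc]
  have hUU : U t * U (-t) = 1 := by rw [← hm.add, add_neg_cancel, hm.zero]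
  have h2 : e t * star W = κ (U t) * star W * e t := by
    calc e t * star W = κ (U t * U (-t)) * (e t * star W) := by rw [hUU, map_one, one_mul]
      _ = κ (U t) * (κ (U (-t)) * e t) * star W := by rw [map_mul]; simp only [mul_assoc]
      _ = κ (U t) * (star W * e t * W) * star W := by rw [F.e_W]
      _ = κ (U t) * star W * e t * (W * star W) := by simp only [mul_assoc]
      _ = _ := by rw [F.W_un2, mul_one]
  have h3 : sgm U (-t) y = U (-t) * y * U t := by
    unfold sgm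
    rw [hm.star_eq, neg_neg]
  calc e t * (W * κ y * star W) = (e t * W) * κ y * star W := by simp only [mul_assoc]
    _ = W * κ (U (-t)) * (e t * κ y) * star W := by rw [h1]; simp only [mul_assoc]
    _ = W * κ (U (-t)) * κ y * (e t * star W) := by rw [← F.κ_e]; simp only [mul_assoc]
    _ = W * (κ (U (-t)) * κ y * κ (U t)) * star W * e t := by rw [h2]; simp only [mul_assoc]
    _ = _ := by rw [h3, map_mul, map_mul]

/-- the elementary products -/
def gens (N : VonNeumannAlgebra H) (κ : (H →L[ℂ] H) →⋆ₐ[ℂ] (K →L[ℂ] K)) (e : ℝ → K →L[ℂ] K)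
    (W : K →L[ℂ] K) : Set (K →L[ℂ] K) :=
  {T | ∃ y : H →L[ℂ] H, y ∈ N ∧ ∃ t : ℝ, T = W * κ y * star W * e t}

theorem gens_mul (D : CoreD M N ξ U κ e S W J E A) {a b : K →L[ℂ] K} (ha : a ∈ gens N κ e W)
    (hb : b ∈ gens N κ e W) : a * b ∈ gens N κ e W := by
  obtain ⟨y, hy, t, rfl⟩ := ha
  obtain ⟨z, hz, s, rfl⟩ := hb
  have F := D.fr
  refine ⟨y * sgm U (-t) z, mul_mem hy (D.std.inv _ _ hz), t + s, ?_⟩
  calc W * κ y * star W * e t * (W * κ z * star W * e s)
      = W * κ y * star W * (e t * (W * κ z * star W)) * e s := by simp only [mul_assoc]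
    _ = W * κ y * (star W * W) * κ (sgm U (-t) z) * star W * (e t * e s) := by
        rw [e_pi D]; simp only [mul_assoc]
    _ = _ := by rw [F.W_un1, mul_one, ← F.e_add, map_mul]; simp only [mul_assoc]

theorem gens_star (D : CoreD M N ξ U κ e S W J E A) {a : K →L[ℂ] K} (ha : a ∈ gens N κ e W) :
    star a ∈ gens N κ e W := by
  obtain ⟨y, hy, t, rfl⟩ := ha
  have F := D.fr
  refine ⟨sgm U t (star y), D.std.inv _ _ (star_mem hy), -t, ?_⟩
  have h1 := e_pi D (-t) (star y)
  rw [neg_neg] at h1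
  rw [← h1, star_mul, F.e_star, star_mul, star_mul, star_star, ← map_star]
  simp only [mul_assoc]

theorem gens_one (D : CoreD M N ξ U κ e S W J E A) : (1 : K →L[ℂ] K) ∈ gens N κ e W :=
  ⟨1, one_mem _, 0, by rw [map_one, mul_one, D.fr.W_un2, one_mul, D.fr.e_zero]⟩

/-- the `*`-algebra spanned by the `π_σ(y) e_t` -/
def alg (D : CoreD M N ξ U κ e S W J E A) : StarSubalgebra ℂ (K →L[ℂ] K) where
  carrier := Submodule.span ℂ (gens N κ e W)
  mul_mem' := by
    intro a b ha hb
    have h1 : a * b ∈ Submodule.span ℂ (gens N κ e W) * Submodule.span ℂ (gens N κ e W) :=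
      Submodule.mul_mem_mul ha hb
    rw [Submodule.span_mul_span] at h1
    refine Submodule.span_mono ?_ h1
    rintro _ ⟨a, ha, b, hb, rfl⟩
    exact gens_mul D ha hb
  one_mem' := Submodule.subset_span (gens_one D)
  add_mem' := fun ha hb => Submodule.add_mem _ ha hb
  zero_mem' := Submodule.zero_mem _
  algebraMap_mem' := by
    intro r
    rw [Algebra.algebraMap_eq_smul_one]
    exact Submodule.smul_mem _ r (Submodule.subset_span (gens_one D))
  star_mem' := by
    intro a ha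
    refine Submodule.span_induction (p := fun x _ => star x ∈ Submodule.span ℂ (gens N κ e W))
      ?_ ?_ ?_ ?_ ha
    · intro x hx
      exact Submodule.subset_span (gens_star D hx)
    · rw [star_zero]; exact Submodule.zero_mem _
    · intro x y _ _ hx hy
      rw [star_add]; exact Submodule.add_mem _ hx hy
    · intro c x _ hx
      rw [star_smul]; exact Submodule.smul_mem _ _ hx

theorem bx_e (F : Frame U κ e S W J E) {r : ℝ} (hr : 0 < r) (p t : ℝ) :
    e t * bx S E p r = bx S E p r * e t := by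
  unfold bx
  have h1 := F.e_S t p
  have h2 := F.e_S t (-p)
  calc e t * (S p * E r 0 * S (-p)) = (e t * S p) * E r 0 * S (-p) := by simp only [mul_assoc]
    _ = Complex.exp (2 * Real.pi * I * t * p) • (S p * (e t * E r 0) * S (-p)) := by
        rw [h1, smul_mul_assoc, smul_mul_assoc]; simp only [mul_assoc]
    _ = Complex.exp (2 * Real.pi * I * t * p) • (S p * E r 0 * (e t * S (-p))) := by
        rw [FB.e_E F hr]; simp only [mul_assoc]
    _ = S p * E r 0 * S (-p) * e t := by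
        rw [h2, mul_smul_comm, smul_smul, ← Complex.exp_add]
        have h3 : 2 * (Real.pi : ℂ) * I * t * p + 2 * Real.pi * I * t * ((-p : ℝ) : ℂ) = 0 := by
          push_cast; ring
        rw [h3, Complex.exp_zero, one_smul]
        simp only [mul_assoc]

theorem alg_gen (D : CoreD M N ξ U κ e S W J E A) {Z : K →L[ℂ] K} (hZ : Z ∈ A) (T : K →L[ℂ] K)
    (hT : ∀ a ∈ alg D, T * a = a * T) : T * Z = Z * T := by
  have F := D.fr
  refine D.gen_min Z hZ T (fun y hy => hT _ ?_) fun t => hT _ ?_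
  · refine Submodule.subset_span ⟨y, hy, 0, ?_⟩
    rw [F.e_zero, mul_one]
  · refine Submodule.subset_span ⟨1, one_mem _, t, ?_⟩
    rw [map_one, mul_one, F.W_un2, one_mul]

theorem cor : S_Cor := by
  intro H K _ _ _ _ _ _ M N ξ U κ e S W J E A D p r hr X hX hXκ hXe hXN
  have F := D.fr
  set P := bx S E p r with hP
  have hPA : P ∈ A := FB.bx_mem D hr p
  have hPP : P * P = P := FB.bx_idem F hr p
  have hPs : star P = P := FB.bx_sa F hr p
  have hPe : ∀ t, e t * P = P * e t := fun t => bx_e F hr p t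
  have hXC : ∀ a ∈ alg D, X * (P * a * P) = (P * a * P) * X := by
    intro a ha
    refine Submodule.span_induction (p := fun x _ => X * (P * x * P) = (P * x * P) * X)
      ?_ ?_ ?_ ?_ ha
    · rintro _ ⟨y, hy, t, rfl⟩
      have h1 : P * (W * κ y * star W * e t) * P = P * (W * κ y * star W) * P * e t := by
        calc P * (W * κ y * star W * e t) * P = P * (W * κ y * star W) * (e t * P) := by
              simp only [mul_assoc]
          _ = _ := by rw [hPe]; simp only [mul_assoc]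
      rw [h1, ← mul_assoc, hXN y hy, mul_assoc _ X, hXe, ← mul_assoc]
    · simp
    · intro x y _ _ hx hy
      rw [mul_add, add_mul, mul_add, add_mul, hx, hy]
    · intro c x _ hx
      rw [mul_smul_comm, smul_mul_assoc, mul_smul_comm, smul_mul_assoc, hx]
  have hMN : ∀ y : H →L[ℂ] H, y ∈ M.commutant → y ∈ N.commutant := by
    intro y hy
    rw [VonNeumannAlgebra.mem_commutant_iff] at hy ⊢
    exact fun g hg => hy g (D.std.le g hg)
  have hAB : ∀ x : K →L[ℂ] K, x ∈ A → x ∈ vnCen (κ '' {y | y ∈ M.commutant}) := by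
    intro x hx
    rw [mem_vnCen]
    rintro _ ⟨y, hy, rfl⟩
    refine ⟨FB.κ_comm D hx (hMN y hy), ?_⟩
    rw [← map_star]
    exact FB.κ_comm D hx (hMN _ (star_mem hy))
  have hXB : X ∈ vnCen (κ '' {y | y ∈ M.commutant}) := by
    rw [mem_vnCen]
    rintro _ ⟨y, hy, rfl⟩
    refine ⟨(hXκ y hy).symm, ?_⟩
    rw [← map_star]
    exact (hXκ _ (star_mem hy)).symm
  obtain ⟨S0, h1, h2, h3⟩ := Pool.Agent.W298.CB2.Q1.q1 K A _ hAB P hPA hPP hPs X hXB hX
    fun Z hZ hPZ => corner (alg D) P X hPP hX hXC Z (fun T hT => alg_gen D hZ T hT) hPZ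
  refine ⟨S0, ⟨fun y hy => ?_, fun Z hZ => (h1.2 Z hZ).symm⟩, h2, h3⟩
  have h4 := (mem_vnCen _ _).1 h1.1 (κ y) ⟨y, hy, rfl⟩
  exact h4.1.symm

end frame

end

end Pool.Agent.H75.BC.Cor
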