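import Pool.Agent.H75.BC.T.Jc

/-!
K3: positivity of `Δ^{1/2}` and density of the range of `1 + c Δ^{1/2}`: `S_Dn`.
-/

set_option autoImplicit false

open MeasureTheory Filter Topology Complex
open scoped InnerProductSpace ENNReal ComplexConjugate

namespace Pool.Agent.H75.BC.Dn

open Pool.Agent.W662.CB Pool.Agent.H75.BC Pool.Agent.H75.BC.JC

variable {H : Type} [NormedAddCommGroup H] [InnerProductSpace ℂ H] [CompleteSpace H]
  {M : VonNeumannAlgebra H} {ξ : H} {U : ℝ → H →L[ℂ] H}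
  {J : H → H} {ρ : (H →L[ℂ] H) → (H →L[ℂ] H)}

/-- positivity for analytic elements -/
theorem pos_an (hm : IsModular M ξ U) {F : ℂ → H →L[ℂ] H} (hF : IsAn M U F) :
    ⟪F 0 ξ, F (-(I / 2)) ξ⟫_ℂ = ((‖F (-(I / 4)) ξ‖ ^ 2 : ℝ) : ℂ) := by
  have h1 := vst_const hm (an_mul hm (an_star hm hF) (an_shift hm hF (-(I / 2)))) (I / 4)
  have e0 : conj (I / 4 : ℂ) = -(I / 4) := by
    rw [map_div₀, Complex.conj_I, map_ofNat, neg_div]
  have e1 : (I / 4 + -(I / 2) : ℂ) = -(I / 4) := by ring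
  simp only [e0, e1, map_zero, zero_add] at h1
  unfold vst at h1
  change ⟪ξ, star (F (-(I / 4))) (F (-(I / 4)) ξ)⟫_ℂ = ⟪ξ, star (F 0) (F (-(I / 2)) ξ)⟫_ℂ at h1
  rw [ContinuousLinearMap.star_eq_adjoint, ContinuousLinearMap.star_eq_adjoint,
    ContinuousLinearMap.adjoint_inner_right, ContinuousLinearMap.adjoint_inner_right,
    inner_self_eq_norm_sq_to_K] at h1
  rw [← h1]
  push_cast
  rfl

theorem J_norm (hr : RAct M ξ U J ρ) (x : H) : ‖J x‖ = ‖x‖ := by
  have h1 : ((‖J x‖ : ℂ)) ^ 2 = (‖x‖ : ℂ) ^ 2 := by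
    have h := hr.J_inner x x
    rw [inner_self_eq_norm_sq_to_K, inner_self_eq_norm_sq_to_K] at h
    exact h
  have h2 : ‖J x‖ ^ 2 = ‖x‖ ^ 2 := by exact_mod_cast h1
  exact (pow_left_inj₀ (norm_nonneg _) (norm_nonneg _) two_ne_zero).1 h2

theorem J_sub (hr : RAct M ξ U J ρ) (x y : H) : J x - J y = J (x - y) := by
  have h1 : J (-y) = -J y := by
    have := hr.J_smul (-1) y
    simpa using this
  rw [sub_eq_add_neg, sub_eq_add_neg, hr.J_add, h1]

theorem J_cont (hr : RAct M ξ U J ρ) : Continuous J := by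
  have : LipschitzWith 1 J := LipschitzWith.of_dist_le_mul fun x y => by
    rw [dist_eq_norm, dist_eq_norm, J_sub hr, J_norm hr]; simp
  exact this.continuous

theorem ρ_ξ (hr : RAct M ξ U J ρ) (a : H →L[ℂ] H) : ρ a ξ = J (star a ξ) := by
  rw [hr.act, hr.J_fix]

/-- approximation of `a ξ` and `ρ a ξ` simultaneously by analytic elements -/
theorem approx (hm : IsModular M ξ U) (hr : RAct M ξ U J ρ) {a : H →L[ℂ] H} (ha : a ∈ M) :
    ∃ F : ℕ → ℂ → H →L[ℂ] H, (∀ n, IsAn M U (F n)) ∧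
      Tendsto (fun n => F n 0 ξ) atTop (𝓝 (a ξ)) ∧
      Tendsto (fun n => F n (-(I / 2)) ξ) atTop (𝓝 (ρ a ξ)) := by
  obtain ⟨F, hF, -, h1, h2⟩ := pApx H M ξ U hm a ha
  refine ⟨F, hF, h1 ξ, ?_⟩
  have e1 : (fun n => F n (-(I / 2)) ξ) = fun n => J (star (F n 0) ξ) := by
    funext n
    rw [← hr.an _ (hF n), ρ_ξ hr]
  rw [e1, ρ_ξ hr]
  exact ((J_cont hr).tendsto _).comp (h2 ξ)

theorem pos (hm : IsModular M ξ U) (hr : RAct M ξ U J ρ) {a : H →L[ℂ] H} (ha : a ∈ M) :
    0 ≤ (⟪a ξ, ρ a ξ⟫_ℂ).re := by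
  obtain ⟨F, hF, h1, h2⟩ := approx hm hr ha
  have h3 : Tendsto (fun n => (⟪F n 0 ξ, F n (-(I / 2)) ξ⟫_ℂ).re) atTop (𝓝 (⟪a ξ, ρ a ξ⟫_ℂ).re) :=
    (Complex.continuous_re.tendsto _).comp (h1.inner h2)
  refine ge_of_tendsto' h3 fun n => ?_
  rw [pos_an hm (hF n), Complex.ofReal_re]
  positivity

/-- a vector orthogonal to the range of `1 + c Δ^{1/2}` is zero -/
theorem orth (hcyc : IsCyclic M ξ) (hm : IsModular M ξ U) {c : ℝ} (hc : 0 < c) (v : H)
    (hv : ∀ F : ℂ → H →L[ℂ] H, IsAn M U F → ⟪v, F 0 ξ + (c : ℂ) • F (-(I / 2)) ξ⟫_ℂ = 0) : v = 0 := by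
  have key : ∀ F : ℂ → H →L[ℂ] H, IsAn M U F → ⟪v, F 0 ξ⟫_ℂ = 0 := by
    intro F hF
    let L : ℂ := ((Real.log c : ℝ) : ℂ)
    let k : ℂ → ℂ := fun z => Complex.exp (2 * I * L * z) * ⟪v, F z ξ⟫_ℂ
    have hanti : ∀ z : ℂ, k (z - I / 2) = -k z := by
      intro z
      have h1 := hv _ (an_shift hm hF z)
      simp only [zero_add] at h1
      have e1 : (-(I / 2) + z : ℂ) = z - I / 2 := by ring
      rw [e1, inner_add_right, inner_smul_right] at h1
      have e2 : Complex.exp (2 * I * L * (z - I / 2)) = Complex.exp (2 * I * L * z) * (c : ℂ) := by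
        have : (2 * I * L * (z - I / 2) : ℂ) = 2 * I * L * z + L := by
          ring_nf
          rw [Complex.I_sq]; ring
        rw [this, Complex.exp_add]
        congr 1
        show Complex.exp (((Real.log c : ℝ)) : ℂ) = _
        rw [← Complex.ofReal_exp, Real.exp_log hc]
      show Complex.exp (2 * I * L * (z - I / 2)) * ⟪v, F (z - I / 2) ξ⟫_ℂ = _
      rw [e2]
      have h2 : (c : ℂ) * ⟪v, F (z - I / 2) ξ⟫_ℂ = -⟪v, F z ξ⟫_ℂ := by
        linear_combination h1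
      rw [mul_assoc, h2]
      show _ = -(Complex.exp (2 * I * L * z) * ⟪v, F z ξ⟫_ℂ)
      ring
    have hper : ∀ z : ℂ, k (z - I) = k z := by
      intro z
      have e1 : (z - I : ℂ) = (z - I / 2) - I / 2 := by ring
      rw [e1, hanti, hanti, neg_neg]
    have hdiff : Differentiable ℂ k := by
      refine Differentiable.mul ?_ ((innerSL ℂ v).differentiable.comp (hF.diff ξ))
      exact (differentiable_id.const_mul (2 * I * L)).cexp
    obtain ⟨C, hC⟩ := hF.bdd 1
    have hbd1 : ∀ z : ℂ, |z.im| ≤ 1 → ‖k z‖ ≤ Real.exp (2 * |Real.log c|) * (‖v‖ * (C * ‖ξ‖)) := by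
      intro z hz
      show ‖Complex.exp (2 * I * L * z) * ⟪v, F z ξ⟫_ℂ‖ ≤ _
      rw [norm_mul]
      have h1 : ‖Complex.exp (2 * I * L * z)‖ ≤ Real.exp (2 * |Real.log c|) := by
        rw [Complex.norm_exp]
        refine Real.exp_le_exp.2 ?_
        have e1 : (2 * I * L * z : ℂ).re = -(2 * Real.log c * z.im) := by
          simp [L, Complex.mul_re, Complex.mul_im]
        rw [e1]
        calc -(2 * Real.log c * z.im) ≤ |2 * Real.log c * z.im| := neg_le_abs _
          _ = 2 * |Real.log c| * |z.im| := by rw [abs_mul, abs_mul]; norm_num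
          _ ≤ 2 * |Real.log c| * 1 := by gcongr
          _ = 2 * |Real.log c| := mul_one _
      have h2 : ‖⟪v, F z ξ⟫_ℂ‖ ≤ ‖v‖ * (C * ‖ξ‖) := by
        refine (norm_inner_le_norm _ _).trans ?_
        refine mul_le_mul_of_nonneg_left ?_ (norm_nonneg _)
        exact ((F z).le_opNorm ξ).trans (mul_le_mul_of_nonneg_right (hC z hz) (norm_nonneg _))
      exact mul_le_mul h1 h2 (norm_nonneg _) (Real.exp_pos _).le
    have hpern : ∀ (n : ℕ) (z : ℂ), k (z - n * I) = k z := by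
      intro n
      induction n with
      | zero => intro z; simp
      | succ n ih =>
        intro z
        have e1 : (z - ((n + 1 : ℕ) : ℂ) * I : ℂ) = (z - n * I) - I := by push_cast; ring
        rw [e1, hper, ih]
    have hpern' : ∀ (n : ℕ) (z : ℂ), k (z + n * I) = k z := by
      intro n z
      have := hpern n (z + n * I)
      rw [add_sub_cancel_right] at this
      exact this.symm
    have hbd : ∀ z : ℂ, ‖k z‖ ≤ Real.exp (2 * |Real.log c|) * (‖v‖ * (C * ‖ξ‖)) := by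
      intro z
      obtain ⟨m, hm'⟩ : ∃ m : ℤ, |z.im - m| ≤ 1 := by
        refine ⟨⌊z.im⌋, ?_⟩
        rw [abs_le]
        constructor
        · linarith [Int.floor_le z.im]
        · linarith [Int.lt_floor_add_one z.im]
      have hz : k (z - m * I) = k z := by
        obtain ⟨n, rfl | rfl⟩ := m.eq_nat_or_neg
        · exact_mod_cast hpern n z
        · have := hpern' n z
          push_cast
          rw [neg_mul, sub_neg_eq_add]
          exact this
      rw [← hz]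
      refine hbd1 _ ?_
      simpa using hm'
    have hconst : k 0 = k (0 - I / 2) :=
      hdiff.apply_eq_apply_of_bounded (isBounded_iff_forall_norm_le.2 ⟨_, by
        rintro _ ⟨z, rfl⟩; exact hbd z⟩) _ _
    rw [hanti] at hconst
    have h0 : k 0 = 0 := by
      have : (2 : ℂ) * k 0 = 0 := by linear_combination hconst
      simpa using this
    have : k 0 = ⟪v, F 0 ξ⟫_ℂ := by
      show Complex.exp (2 * I * L * 0) * ⟪v, F 0 ξ⟫_ℂ = _
      simp
    rw [← this, h0]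
  have hd := dense_an hcyc hm
  have hall : ∀ w : H, ⟪v, w⟫_ℂ = 0 := by
    intro w
    have hcl : IsClosed {w : H | ⟪v, w⟫_ℂ = 0} := isClosed_eq (by fun_prop) continuous_const
    have hsub : {w : H | ∃ F : ℂ → H →L[ℂ] H, IsAn M U F ∧ F 0 ξ = w} ⊆ {w : H | ⟪v, w⟫_ℂ = 0} := by
      rintro w ⟨F, hF, rfl⟩
      exact key F hF
    exact hcl.closure_subset_iff.2 hsub (hd w)
  exact inner_self_eq_zero.1 (hall v)

theorem dn : S_Dn := by
  intro H _ _ _ M ξ U J ρ hξ hcyc hsep hm hr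
  refine ⟨fun a ha => pos hm hr ha, fun c v δ hc hδ => ?_⟩
  -- the subspace of the `b ξ + c ρ(b) ξ`, `b` analytic
  let L : Submodule ℂ H :=
    { carrier := {w | ∃ F : ℂ → H →L[ℂ] H, IsAn M U F ∧ F 0 ξ + (c : ℂ) • F (-(I / 2)) ξ = w}
      add_mem' := by
        rintro _ _ ⟨F, hF, rfl⟩ ⟨G, hG, rfl⟩
        refine ⟨_, an_add hF hG, ?_⟩
        simp only [ContinuousLinearMap.add_apply, smul_add]
        abel
      zero_mem' := by
        refine ⟨_, an_smul (an_one hm) 0, ?_⟩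
        simp
      smul_mem' := by
        rintro r _ ⟨F, hF, rfl⟩
        refine ⟨_, an_smul hF r, ?_⟩
        simp only [ContinuousLinearMap.smul_apply, smul_add]
        rw [smul_comm] }
  have hL : Lᗮ = ⊥ := by
    rw [eq_bot_iff]
    intro w hw
    rw [Submodule.mem_bot]
    refine orth hcyc hm hc w fun F hF => ?_
    exact (Submodule.mem_orthogonal' _ _).1 hw _ ⟨F, hF, rfl⟩
  have h3 := Submodule.topologicalClosure_eq_top_iff.2 hL
  have h4 : v ∈ closure (L : Set H) := by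
    rw [← Submodule.topologicalClosure_coe, h3]; trivial
  obtain ⟨w, ⟨F, hF, rfl⟩, hw⟩ := Metric.mem_closure_iff.1 h4 δ hδ
  refine ⟨F 0, hF.mem 0, ?_⟩
  rw [hr.an F hF, ← dist_eq_norm, dist_comm]
  exact hw.le

end Pool.Agent.H75.BC.Dn
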