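import Pool.Agent.H75.BC.Stmts2

/-!
E1, E1b: evaluation of elements of the relative commutant at points (helper53).
-/

set_option autoImplicit false

open MeasureTheory Filter Topology Complex
open scoped InnerProductSpace ENNReal

namespace Pool.Agent.H75.BC.Ev

open Pool.Agent.W662.CB Pool.Agent.H75.BC Pool.Agent.H75.BC.FB

noncomputable section

variable {H : Type} [NormedAddCommGroup H] [InnerProductSpace ℂ H] [CompleteSpace H]
  {K : Type} [NormedAddCommGroup K] [InnerProductSpace ℂ K] [CompleteSpace K]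
  {M N : VonNeumannAlgebra H} {ξ : H} {U : ℝ → H →L[ℂ] H}
  {κ : (H →L[ℂ] H) →⋆ₐ[ℂ] (K →L[ℂ] K)} {e S : ℝ → K →L[ℂ] K}
  {W : K →L[ℂ] K} {J : ℝ → H →L[ℂ] K} {E : ℝ → ℂ → K →L[ℂ] K} {A : VonNeumannAlgebra K}

theorem ap_H {T T' : H →L[ℂ] H} (h : T = T') (x : H) : T x = T' x := by rw [h]

/-! ### `ξ` is cyclic for the commutant -/

/-- the subspace `M' ξ` -/
def cSub (M : VonNeumannAlgebra H) (ξ : H) : Submodule ℂ H where
  carrier := {v | ∃ y : H →L[ℂ] H, y ∈ M.commutant ∧ y ξ = v}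
  add_mem' := by
    rintro a b ⟨y, hy, rfl⟩ ⟨z, hz, rfl⟩
    exact ⟨y + z, add_mem hy hz, rfl⟩
  zero_mem' := ⟨0, zero_mem _, rfl⟩
  smul_mem' := by
    rintro c _ ⟨y, hy, rfl⟩
    exact ⟨c • y, M.commutant.toStarSubalgebra.smul_mem hy c, rfl⟩

theorem dense_comm (M : VonNeumannAlgebra H) (ξ : H) (hs : IsSeparating M ξ) :
    Dense {v : H | ∃ y : H →L[ℂ] H, y ∈ M.commutant ∧ y ξ = v} := by
  have hz : IsStarProjection (cSub M ξ).topologicalClosure.starProjection :=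
    isStarProjection_starProjection
  have hrange : (cSub M ξ).topologicalClosure.starProjection.range =
      (cSub M ξ).topologicalClosure := by
    ext w
    constructor
    · rintro ⟨v, rfl⟩
      exact Submodule.starProjection_apply_mem _ v
    · intro hw
      exact ⟨w, Submodule.starProjection_eq_self_iff.mpr hw⟩
  have hzM : (cSub M ξ).topologicalClosure.starProjection ∈ M := by
    rw [VonNeumannAlgebra.IsStarProjection.mem_iff hz, hrange]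
    intro y hy
    rw [Module.End.mem_invtSubmodule]
    have h1 : cSub M ξ ≤ ((cSub M ξ).topologicalClosure).comap (y : H →ₗ[ℂ] H) := by
      rintro _ ⟨z, hz, rfl⟩
      exact Submodule.le_topologicalClosure _ ⟨y * z, mul_mem hy hz, rfl⟩
    exact Submodule.topologicalClosure_minimal _ h1
      (IsClosed.preimage y.continuous (Submodule.isClosed_topologicalClosure _))
  have hξ : ξ ∈ (cSub M ξ).topologicalClosure :=
    Submodule.le_topologicalClosure _ ⟨1, one_mem _, rfl⟩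
  have h3 : (cSub M ξ).topologicalClosure.starProjection ξ = ξ :=
    Submodule.starProjection_eq_self_iff.mpr hξ
  have h4 : (1 : H →L[ℂ] H) - (cSub M ξ).topologicalClosure.starProjection = 0 := by
    refine hs _ (sub_mem (one_mem _) hzM) ?_
    have h4' : ((1 : H →L[ℂ] H) - (cSub M ξ).topologicalClosure.starProjection) ξ =
        ξ - (cSub M ξ).topologicalClosure.starProjection ξ := rfl
    rw [h4', h3, sub_self]
  have h5 : (cSub M ξ).topologicalClosure = ⊤ := by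
    rw [Submodule.eq_top_iff']
    intro w
    rw [← Submodule.starProjection_eq_self_iff, ← sub_eq_zero.1 h4]
    rfl
  have h6 := Submodule.dense_iff_topologicalClosure_eq_top.2 h5
  exact h6

/-! ### Boxes -/

section fr

variable (F : Frame U κ e S W J E)
include F

theorem S_cancel (s : ℝ) (x : K) : S s (S (-s) x) = x := ap (S_mul_neg F s) x

theorem S_cancel' (s : ℝ) (x : K) : S (-s) (S s x) = x := ap (S_neg_mul F s) x

theorem bx_S {δ : ℝ} (s : ℝ) {u : K} (hu : E δ 0 u = u) : bx S E s δ (S s u) = S s u := by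
  show S s (E δ 0 (S (-s) (S s u))) = S s u
  rw [S_cancel' F, hu]

theorem inner_bx {δ : ℝ} (hδ : 0 < δ) (s : ℝ) (x y : K) :
    ⟪bx S E s δ x, y⟫_ℂ = ⟪x, bx S E s δ y⟫_ℂ := by
  rw [← ContinuousLinearMap.adjoint_inner_right, ← ContinuousLinearMap.star_eq_adjoint, bx_sa F hδ]

theorem orth_box {δ : ℝ} (hδ : 0 < δ) {k l : ℕ} (hkl : k < l) {u v : K} (hu : E δ 0 u = u)
    (hv : E δ 0 v = v) : ⟪S ((k : ℝ) * δ) u, S ((l : ℝ) * δ) v⟫_ℂ = 0 := by
  rw [← bx_S F ((k : ℝ) * δ) hu, ← bx_S F ((l : ℝ) * δ) hv, inner_bx F hδ]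
  have h1 : bx S E ((k : ℝ) * δ) δ * bx S E ((l : ℝ) * δ) δ = 0 := by
    refine F.box_orth _ _ _ _ hδ hδ ?_
    have h2 : (k : ℝ) + 1 ≤ l := by exact_mod_cast hkl
    nlinarith
  have h3 := ap h1 (S ((l : ℝ) * δ) v)
  have h4 : bx S E ((k : ℝ) * δ) δ (bx S E ((l : ℝ) * δ) δ (S ((l : ℝ) * δ) v)) = 0 := h3
  rw [h4, inner_zero_right]

theorem norm_sum_box {δ : ℝ} (hδ : 0 < δ) (n : ℕ) (u : ℕ → K) (hu : ∀ k, E δ 0 (u k) = u k) :
    ‖∑ k ∈ Finset.range n, S ((k : ℝ) * δ) (u k)‖ ^ 2 = ∑ k ∈ Finset.range n, ‖u k‖ ^ 2 := by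
  induction n with
  | zero => simp
  | succ n ih =>
    rw [Finset.sum_range_succ, Finset.sum_range_succ, ← ih]
    have h1 : ⟪∑ k ∈ Finset.range n, S ((k : ℝ) * δ) (u k), S ((n : ℝ) * δ) (u n)⟫_ℂ = 0 := by
      rw [sum_inner]
      refine Finset.sum_eq_zero fun k hk => ?_
      exact orth_box F hδ (Finset.mem_range.1 hk) (hu k) (hu n)
    have h2 := norm_add_sq_eq_norm_sq_add_norm_sq_of_inner_eq_zero _ _ h1
    rw [sq, h2, S_norm F, sq, sq]

theorem avg_le {δ B : ℝ} (hδ : 0 < δ) (hB : 0 ≤ B) {n : ℕ} (hn : 0 < n) (u : ℕ → K)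
    (hu : ∀ k, E δ 0 (u k) = u k) (hb : ∀ k, k < n → ‖u k‖ ≤ B) :
    ‖∑ k ∈ Finset.range n, ((Real.sqrt (1 / n) : ℝ) : ℂ) • S ((k : ℝ) * δ) (u k)‖ ≤ B := by
  rw [← Finset.smul_sum, norm_smul]
  have hn' : (0 : ℝ) < n := by exact_mod_cast hn
  have h1 : ‖((Real.sqrt (1 / n) : ℝ) : ℂ)‖ = Real.sqrt (1 / n) := by
    rw [Complex.norm_real, Real.norm_eq_abs, abs_of_nonneg (Real.sqrt_nonneg _)]
  rw [h1]
  have h2 : ‖∑ k ∈ Finset.range n, S ((k : ℝ) * δ) (u k)‖ ^ 2 ≤ n * B ^ 2 := by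
    rw [norm_sum_box F hδ n u hu]
    calc ∑ k ∈ Finset.range n, ‖u k‖ ^ 2 ≤ ∑ k ∈ Finset.range n, B ^ 2 :=
          Finset.sum_le_sum fun k hk =>
            pow_le_pow_left₀ (norm_nonneg _) (hb k (Finset.mem_range.1 hk)) 2
      _ = n * B ^ 2 := by rw [Finset.sum_const, Finset.card_range, nsmul_eq_mul]
  have h3 : (Real.sqrt (1 / n) * ‖∑ k ∈ Finset.range n, S ((k : ℝ) * δ) (u k)‖) ^ 2 ≤ B ^ 2 := by
    rw [mul_pow, Real.sq_sqrt (by positivity)]
    calc 1 / (n : ℝ) * ‖∑ k ∈ Finset.range n, S ((k : ℝ) * δ) (u k)‖ ^ 2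
        ≤ 1 / (n : ℝ) * (n * B ^ 2) := by
          refine mul_le_mul_of_nonneg_left h2 (by positivity)
      _ = B ^ 2 := by field_simp
  exact (le_abs_self _).trans (abs_le_of_sq_le_sq h3 hB)

theorem J_split {r : ℝ} (hr : 0 < r) {n : ℕ} (hn : 0 < n) (v : H) :
    J r v = ∑ k ∈ Finset.range n, ((Real.sqrt (1 / n) : ℝ) : ℂ) •
      S ((k : ℝ) * (r / n)) (J (r / n) v) := by
  have hn' : (0 : ℝ) < n := by exact_mod_cast hn
  have h1 : J r v = (∑ k ∈ Finset.range n, bx S E ((k : ℝ) * (r / n)) (r / n)) (J r v) := by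
    rw [← F.box_sum r n hr hn, F.E_J r v hr]
  rw [h1, ContinuousLinearMap.sum_apply]
  refine Finset.sum_congr rfl fun k hk => ?_
  have hk' : (k : ℝ) + 1 ≤ n := by exact_mod_cast Finset.mem_range.1 hk
  have hd : 0 < r / n := by positivity
  have h2 : (k : ℝ) * (r / n) + r / n ≤ r := by
    calc (k : ℝ) * (r / n) + r / n = ((k : ℝ) + 1) * (r / n) := by ring
      _ ≤ n * (r / n) := mul_le_mul_of_nonneg_right hk' hd.le
      _ = r := by field_simp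
  rw [F.box_J _ _ _ v hd (by positivity) h2]
  congr 3
  field_simp

theorem E_fix_J {r : ℝ} (hr : 0 < r) (v : H) : E r 0 (J r v) = J r v := F.E_J r v hr

theorem adj_E {r : ℝ} (hr : 0 < r) (x : K) : ContinuousLinearMap.adjoint (J r) (E r 0 x) =
    ContinuousLinearMap.adjoint (J r) x := by
  refine ext_inner_left ℂ fun v => ?_
  rw [ContinuousLinearMap.adjoint_inner_right, ContinuousLinearMap.adjoint_inner_right]
  have h1 : ⟪J r v, E r 0 x⟫_ℂ = ⟪E r 0 (J r v), x⟫_ℂ := by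
    rw [← ContinuousLinearMap.adjoint_inner_left, ← ContinuousLinearMap.star_eq_adjoint,
      E_sa F hr]
  rw [h1, F.E_J r v hr]

/-- `J J* x` is the best approximation of `x` in the range of `J`. -/
theorem pyth {r : ℝ} (hr : 0 < r) (x : K) (w : H) :
    ‖x - J r w‖ * ‖x - J r w‖ =
      ‖x - J r (ContinuousLinearMap.adjoint (J r) x)‖ *
        ‖x - J r (ContinuousLinearMap.adjoint (J r) x)‖ +
      ‖ContinuousLinearMap.adjoint (J r) x - w‖ * ‖ContinuousLinearMap.adjoint (J r) x - w‖ := by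
  have h1 : ⟪x - J r (ContinuousLinearMap.adjoint (J r) x),
      J r (ContinuousLinearMap.adjoint (J r) x - w)⟫_ℂ = 0 := by
    rw [← ContinuousLinearMap.adjoint_inner_left, map_sub, F.J_iso _ _ hr, sub_self,
      inner_zero_left]
  have h2 := norm_add_sq_eq_norm_sq_add_norm_sq_of_inner_eq_zero _ _ h1
  rw [J_norm F hr] at h2
  rw [← h2]
  have h3 : x - J r (ContinuousLinearMap.adjoint (J r) x) +
      J r (ContinuousLinearMap.adjoint (J r) x - w) = x - J r w := by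
    rw [map_sub]; abel
  rw [h3]

theorem dist_proj {r : ℝ} (hr : 0 < r) (x : K) (w : H) :
    ‖x - J r (ContinuousLinearMap.adjoint (J r) x)‖ ≤ ‖x - J r w‖ := by
  have h := pyth F hr x w
  have h1 := mul_self_nonneg ‖ContinuousLinearMap.adjoint (J r) x - w‖
  exact (abs_le_of_sq_le_sq (by rw [sq, sq]; linarith) (norm_nonneg _)).trans' (le_abs_self _)

theorem dist_adj {r : ℝ} (hr : 0 < r) (x : K) (w : H) :
    ‖ContinuousLinearMap.adjoint (J r) x - w‖ ≤ ‖x - J r w‖ := by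
  have h := pyth F hr x w
  have h1 := mul_self_nonneg ‖x - J r (ContinuousLinearMap.adjoint (J r) x)‖
  exact (abs_le_of_sq_le_sq (by rw [sq, sq]; linarith) (norm_nonneg _)).trans' (le_abs_self _)

end fr

/-! ### The modulus of continuity -/

/-- the modulus -/
def om (S : ℝ → K →L[ℂ] K) (J : ℝ → H →L[ℂ] K) (ξ : H) (X : K →L[ℂ] K) (s : ℝ) : ℝ :=
  ‖(S s * X * S (-s) - X) (J 1 ξ)‖

section core

variable (D : CoreD M N ξ U κ e S W J E A)
  (hF : ∀ T : K →L[ℂ] K, T ∈ RR M κ A → ∀ p r : ℝ, 0 < r →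
    ⟪S p (J r ξ), T (S p (J r ξ))⟫_ℂ = ⟪J 1 ξ, T (J 1 ξ)⟫_ℂ)
include D hF

theorem normF {Y : K →L[ℂ] K} (hY : Y ∈ RR M κ A) (p r : ℝ) (hr : 0 < r) :
    ‖Y (S p (J r ξ))‖ = ‖Y (J 1 ξ)‖ := by
  have h1 : ∀ v : K, ⟪v, (star Y * Y) v⟫_ℂ = ((‖Y v‖ ^ 2 : ℝ) : ℂ) := by
    intro v
    have h2 : (star Y * Y) v = star Y (Y v) := rfl
    rw [h2, ContinuousLinearMap.star_eq_adjoint, ContinuousLinearMap.adjoint_inner_right,
      inner_self_eq_norm_sq_to_K]
    norm_cast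
  have h2 := hF (star Y * Y) (RR_mul (RR_star hY) hY) p r hr
  rw [h1, h1] at h2
  have h3 : ‖Y (S p (J r ξ))‖ ^ 2 = ‖Y (J 1 ξ)‖ ^ 2 := by exact_mod_cast h2
  exact (sq_eq_sq₀ (norm_nonneg _) (norm_nonneg _)).1 h3

theorem om_eq {X : K →L[ℂ] K} (hX : X ∈ RR M κ A) (s p r : ℝ) (hr : 0 < r) :
    ‖(S s * X * S (-s) - X) (S p (J r ξ))‖ = om S J ξ X s :=
  normF D hF (RR_sub (RR_S D s hX) hX) p r hr

theorem om_neg {X : K →L[ℂ] K} (hX : X ∈ RR M κ A) (s : ℝ) :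
    om S J ξ X (-s) = om S J ξ X s := by
  have F := D.fr
  rw [← om_eq D hF hX s s 1 one_pos]
  unfold om
  rw [neg_neg]
  have h1 : (S (-s) * X * S s - X) (J 1 ξ) =
      -(S (-s) ((S s * X * S (-s) - X) (S s (J 1 ξ)))) := by
    show S (-s) (X (S s (J 1 ξ))) - X (J 1 ξ) =
      -(S (-s) (S s (X (S (-s) (S s (J 1 ξ)))) - X (S s (J 1 ξ))))
    rw [map_sub, S_cancel' F, S_cancel' F, neg_sub]
  rw [h1, norm_neg, S_norm F]

theorem om_shift {X : K →L[ℂ] K} (hX : X ∈ RR M κ A) (p s : ℝ) :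
    om S J ξ (S (-p) * X * S p) s = om S J ξ X s := by
  have F := D.fr
  rw [← om_eq D hF hX s p 1 one_pos]
  unfold om
  have h1 : (S s * (S (-p) * X * S p) * S (-s) - S (-p) * X * S p) (J 1 ξ) =
      S (-p) ((S s * X * S (-s) - X) (S p (J 1 ξ))) := by
    show S s (S (-p) (X (S p (S (-s) (J 1 ξ))))) - S (-p) (X (S p (J 1 ξ))) =
      S (-p) (S s (X (S (-s) (S p (J 1 ξ)))) - X (S p (J 1 ξ)))
    rw [map_sub]
    have h2 : ∀ (a b : ℝ) (y : K), S a (S b y) = S b (S a y) := by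
      intro a b y
      have h3 : S a * S b = S b * S a := by rw [← F.S_add, ← F.S_add, add_comm]
      exact ap h3 y
    rw [h2 s (-p), h2 p (-s)]
  rw [h1, S_norm F]

omit hF in
theorem om_tendsto (X : K →L[ℂ] K) : Tendsto (om S J ξ X) (𝓝 0) (𝓝 0) := by
  have F := D.fr
  have h1 : Tendsto (fun s : ℝ => S s (X (J 1 ξ)) - X (J 1 ξ)) (𝓝 0) (𝓝 0) := by
    have h2 : Continuous fun s : ℝ => S s (X (J 1 ξ)) - X (J 1 ξ) :=
      (F.S_cont _).sub continuous_const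
    have h3 := h2.tendsto 0
    rwa [F.S_zero, ContinuousLinearMap.one_apply, sub_self] at h3
  have h2 : Tendsto (fun s : ℝ => X (S (-s) (J 1 ξ) - J 1 ξ)) (𝓝 0) (𝓝 0) := by
    have h2 : Continuous fun s : ℝ => X (S (-s) (J 1 ξ) - J 1 ξ) :=
      X.continuous.comp (((F.S_cont _).comp continuous_neg).sub continuous_const)
    have h3 := h2.tendsto 0
    rwa [neg_zero, F.S_zero, ContinuousLinearMap.one_apply, sub_self, map_zero] at h3
  have h3 : Tendsto (fun s : ℝ => ‖X (S (-s) (J 1 ξ) - J 1 ξ)‖ + ‖S s (X (J 1 ξ)) - X (J 1 ξ)‖)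
      (𝓝 0) (𝓝 0) := by
    have := h2.norm.add h1.norm
    simpa using this
  refine squeeze_zero (fun s => norm_nonneg _) (fun s => ?_) h3
  have h4 : (S s * X * S (-s) - X) (J 1 ξ) = S s (X (S (-s) (J 1 ξ) - J 1 ξ)) +
      (S s (X (J 1 ξ)) - X (J 1 ξ)) := by
    show S s (X (S (-s) (J 1 ξ))) - X (J 1 ξ) = _
    rw [map_sub, map_sub]; abel
  unfold om
  rw [h4]
  refine (norm_add_le _ _).trans ?_
  rw [S_norm F]

omit hF in
/-- elements of the relative commutant preserve the boxes -/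
theorem E_fix {X : K →L[ℂ] K} (hX : X ∈ RR M κ A) {δ : ℝ} (hδ : 0 < δ) {u : K} (hu : E δ 0 u = u) :
    E δ 0 (X u) = X u := by
  have h1 : E δ 0 (X u) = X (E δ 0 u) := (ap (hX.2 _ (E_mem D hδ 0)) u).symm
  rw [h1, hu]

omit hF in
theorem shift_mem {X : K →L[ℂ] K} (hX : X ∈ RR M κ A) (s : ℝ) : S (-s) * X * S s ∈ RR M κ A := by
  have h := RR_S D (-s) hX
  rwa [neg_neg] at h

omit hF in
theorem XJ_split {X : K →L[ℂ] K} {r : ℝ} (hr : 0 < r) {n : ℕ} (hn : 0 < n) (v : H) :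
    X (J r v) = ∑ k ∈ Finset.range n, ((Real.sqrt (1 / n) : ℝ) : ℂ) •
      S ((k : ℝ) * (r / n)) ((S (-((k : ℝ) * (r / n))) * X * S ((k : ℝ) * (r / n))) (J (r / n) v)) := by
  have F := D.fr
  rw [J_split F hr hn v, map_sum]
  refine Finset.sum_congr rfl fun k _ => ?_
  rw [map_smul]
  congr 1
  show _ = S ((k : ℝ) * (r / n)) (S (-((k : ℝ) * (r / n))) (X (S ((k : ℝ) * (r / n)) _)))
  rw [S_cancel F]

theorem err_le {X : K →L[ℂ] K} (hX : X ∈ RR M κ A) {r c : ℝ}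
    (hc : ∀ s : ℝ, 0 ≤ s → s ≤ r → om S J ξ X s ≤ c) {n : ℕ} (hn : 0 < n) (hr : 0 < r) (k : ℕ)
    (hk : k < n) :
    ‖(S (-((k : ℝ) * (r / n))) * X * S ((k : ℝ) * (r / n))) (J (r / n) ξ) - X (J (r / n) ξ)‖ ≤ c := by
  have F := D.fr
  have hn' : (0 : ℝ) < n := by exact_mod_cast hn
  have hk' : (k : ℝ) ≤ n := by exact_mod_cast hk.le
  have hd : 0 < r / n := by positivity
  have h2 : (k : ℝ) * (r / n) ≤ r := by
    calc (k : ℝ) * (r / n) ≤ n * (r / n) := mul_le_mul_of_nonneg_right hk' hd.le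
      _ = r := by field_simp
  have h3 := om_eq D hF hX (-((k : ℝ) * (r / n))) 0 (r / n) hd
  rw [neg_neg, F.S_zero, om_neg D hF hX] at h3
  have h4 := hc ((k : ℝ) * (r / n)) (by positivity) h2
  rw [← h3] at h4
  exact h4

/-- refinement of the box -/
theorem key1 {X : K →L[ℂ] K} (hX : X ∈ RR M κ A) {r c : ℝ} (hr : 0 < r) (hc0 : 0 ≤ c)
    (hc : ∀ s : ℝ, 0 ≤ s → s ≤ r → om S J ξ X s ≤ c) {n : ℕ} (hn : 0 < n) (w : H) :
    ‖X (J r ξ) - J r w‖ ≤ c + ‖X (J (r / n) ξ) - J (r / n) w‖ := by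
  have F := D.fr
  have hn' : (0 : ℝ) < n := by exact_mod_cast hn
  have hd : 0 < r / n := by positivity
  rw [XJ_split D hr hn, J_split F hr hn w, ← Finset.sum_sub_distrib]
  have h1 : ∀ k ∈ Finset.range n, ((Real.sqrt (1 / n) : ℝ) : ℂ) •
      S ((k : ℝ) * (r / n)) ((S (-((k : ℝ) * (r / n))) * X * S ((k : ℝ) * (r / n))) (J (r / n) ξ)) -
      ((Real.sqrt (1 / n) : ℝ) : ℂ) • S ((k : ℝ) * (r / n)) (J (r / n) w) =
      ((Real.sqrt (1 / n) : ℝ) : ℂ) • S ((k : ℝ) * (r / n))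
        ((S (-((k : ℝ) * (r / n))) * X * S ((k : ℝ) * (r / n))) (J (r / n) ξ) - J (r / n) w) := by
    intro k _
    rw [map_sub, smul_sub]
  rw [Finset.sum_congr rfl h1]
  refine avg_le F hd (by positivity) hn _ (fun k => ?_) fun k hk => ?_
  · rw [map_sub, E_fix D (shift_mem D hX _) hd (F.E_J _ _ hd), F.E_J _ _ hd]
  · have h2 := err_le D hF hX hc hn hr k hk
    calc ‖(S (-((k : ℝ) * (r / n))) * X * S ((k : ℝ) * (r / n))) (J (r / n) ξ) - J (r / n) w‖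
        = ‖((S (-((k : ℝ) * (r / n))) * X * S ((k : ℝ) * (r / n))) (J (r / n) ξ) - X (J (r / n) ξ)) +
          (X (J (r / n) ξ) - J (r / n) w)‖ := by congr 1; abel
      _ ≤ _ := (norm_add_le _ _).trans (add_le_add_left h2 _)

/-- the slice vector `J_r^* X J_r ξ` -/
def av (J : ℝ → H →L[ℂ] K) (ξ : H) (X : K →L[ℂ] K) (r : ℝ) : H :=
  ContinuousLinearMap.adjoint (J r) (X (J r ξ))

/-- the flat projection -/
def Qn (S : ℝ → K →L[ℂ] K) (J : ℝ → H →L[ℂ] K) (r : ℝ) (n : ℕ) (u : K) : K :=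
  ∑ k ∈ Finset.range n, S ((k : ℝ) * (r / n)) (J (r / n) (ContinuousLinearMap.adjoint (J (r / n))
    (S (-((k : ℝ) * (r / n))) u)))

theorem key2 {X : K →L[ℂ] K} (hX : X ∈ RR M κ A) {r c : ℝ} (hr : 0 < r) (hc0 : 0 ≤ c)
    (hc : ∀ s : ℝ, 0 ≤ s → s ≤ r → om S J ξ X s ≤ c) {n : ℕ} (hn : 0 < n) :
    ‖X (J r ξ) - J r (av J ξ X (r / n))‖ ≤ ‖X (J r ξ) - Qn S J r n (X (J r ξ))‖ + c := by
  have F := D.fr
  have hn' : (0 : ℝ) < n := by exact_mod_cast hn
  have hd : 0 < r / n := by positivity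
  -- the slices of `X J_r ξ`
  have h1 : ∀ k, k < n → ContinuousLinearMap.adjoint (J (r / n)) (S (-((k : ℝ) * (r / n))) (X (J r ξ))) =
      ((Real.sqrt (1 / n) : ℝ) : ℂ) • ContinuousLinearMap.adjoint (J (r / n))
        ((S (-((k : ℝ) * (r / n))) * X * S ((k : ℝ) * (r / n))) (J (r / n) ξ)) := by
    intro k hk
    have hk' : (k : ℝ) + 1 ≤ n := by exact_mod_cast hk
    have h2 : (k : ℝ) * (r / n) + r / n ≤ r := by
      calc (k : ℝ) * (r / n) + r / n = ((k : ℝ) + 1) * (r / n) := by ring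
        _ ≤ n * (r / n) := mul_le_mul_of_nonneg_right hk' hd.le
        _ = r := by field_simp
    have h3 : bx S E ((k : ℝ) * (r / n)) (r / n) (X (J r ξ)) =
        X (((Real.sqrt (1 / n) : ℝ) : ℂ) • S ((k : ℝ) * (r / n)) (J (r / n) ξ)) := by
      have h4 := ap (hX.2 _ (bx_mem D hd ((k : ℝ) * (r / n)))) (J r ξ)
      have h5 : bx S E ((k : ℝ) * (r / n)) (r / n) (X (J r ξ)) =
        X (bx S E ((k : ℝ) * (r / n)) (r / n) (J r ξ)) := h4.symm
      rw [h5, F.box_J _ _ _ ξ hd (by positivity) h2]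
      congr 4
      field_simp
    have h6 : E (r / n) 0 (S (-((k : ℝ) * (r / n))) (X (J r ξ))) =
        S (-((k : ℝ) * (r / n))) (bx S E ((k : ℝ) * (r / n)) (r / n) (X (J r ξ))) := by
      show _ = S (-((k : ℝ) * (r / n))) (S ((k : ℝ) * (r / n)) (E (r / n) 0 (S (-((k : ℝ) * (r / n))) _)))
      rw [S_cancel' F]
    rw [← adj_E F hd, h6, h3, map_smul, map_smul, map_smul]
    rfl
  have h7 : X (J r ξ) - J r (av J ξ X (r / n)) = (X (J r ξ) - Qn S J r n (X (J r ξ))) +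
      ∑ k ∈ Finset.range n, ((Real.sqrt (1 / n) : ℝ) : ℂ) • S ((k : ℝ) * (r / n))
        (J (r / n) (ContinuousLinearMap.adjoint (J (r / n))
          ((S (-((k : ℝ) * (r / n))) * X * S ((k : ℝ) * (r / n))) (J (r / n) ξ) - X (J (r / n) ξ)))) := by
    have h8 : Qn S J r n (X (J r ξ)) = ∑ k ∈ Finset.range n, ((Real.sqrt (1 / n) : ℝ) : ℂ) •
        S ((k : ℝ) * (r / n)) (J (r / n) (ContinuousLinearMap.adjoint (J (r / n))
          ((S (-((k : ℝ) * (r / n))) * X * S ((k : ℝ) * (r / n))) (J (r / n) ξ)))) := by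
      unfold Qn
      refine Finset.sum_congr rfl fun k hk => ?_
      rw [h1 k (Finset.mem_range.1 hk), map_smul, map_smul]
    have h9 : J r (av J ξ X (r / n)) = ∑ k ∈ Finset.range n, ((Real.sqrt (1 / n) : ℝ) : ℂ) •
        S ((k : ℝ) * (r / n)) (J (r / n) (ContinuousLinearMap.adjoint (J (r / n))
          (X (J (r / n) ξ)))) := J_split F hr hn _
    rw [h8, h9]
    have h10 : ∑ k ∈ Finset.range n, ((Real.sqrt (1 / n) : ℝ) : ℂ) • S ((k : ℝ) * (r / n))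
        (J (r / n) (ContinuousLinearMap.adjoint (J (r / n))
          ((S (-((k : ℝ) * (r / n))) * X * S ((k : ℝ) * (r / n))) (J (r / n) ξ) - X (J (r / n) ξ)))) =
        ∑ k ∈ Finset.range n, ((Real.sqrt (1 / n) : ℝ) : ℂ) •
        S ((k : ℝ) * (r / n)) (J (r / n) (ContinuousLinearMap.adjoint (J (r / n))
          ((S (-((k : ℝ) * (r / n))) * X * S ((k : ℝ) * (r / n))) (J (r / n) ξ)))) -
        ∑ k ∈ Finset.range n, ((Real.sqrt (1 / n) : ℝ) : ℂ) •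
        S ((k : ℝ) * (r / n)) (J (r / n) (ContinuousLinearMap.adjoint (J (r / n))
          (X (J (r / n) ξ)))) := by
      rw [← Finset.sum_sub_distrib]
      refine Finset.sum_congr rfl fun k _ => ?_
      rw [map_sub, map_sub, map_sub, smul_sub]
    rw [h10]
    abel
  rw [h7]
  refine (norm_add_le _ _).trans (add_le_add_right ?_ _)
  refine avg_le F hd hc0 hn _ (fun k => F.E_J _ _ hd) fun k hk => ?_
  rw [J_norm F hd]
  exact (Ja_norm F hd _).trans (err_le D hF hX hc hn hr k hk)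

theorem key3 {X : K →L[ℂ] K} (hX : X ∈ RR M κ A) {r c : ℝ} (hr : 0 < r) (hc0 : 0 ≤ c)
    (hc : ∀ s : ℝ, 0 ≤ s → s ≤ r → om S J ξ X s ≤ c) :
    ‖X (J r ξ) - J r (av J ξ X r)‖ ≤ c := by
  have F := D.fr
  have h1 : Tendsto (fun n : ℕ => ‖X (J r ξ) - Qn S J r (n + 1) (X (J r ξ))‖ + c) atTop (𝓝 (0 + c)) := by
    refine Tendsto.add ?_ tendsto_const_nhds
    have h2 := F.flat r hr (X (J r ξ))
    rw [E_fix D hX hr (F.E_J r ξ hr)] at h2
    have h3 := (h2.const_sub (X (J r ξ))).norm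
    rw [sub_self, norm_zero] at h3
    exact h3
  rw [zero_add] at h1
  refine ge_of_tendsto' h1 fun n => ?_
  exact (dist_proj F hr _ _).trans (key2 D hF hX hr hc0 hc (Nat.succ_pos n))

theorem key4 {X : K →L[ℂ] K} (hX : X ∈ RR M κ A) {r c : ℝ} (hr : 0 < r) (hc0 : 0 ≤ c)
    (hc : ∀ s : ℝ, 0 ≤ s → s ≤ r → om S J ξ X s ≤ c) {r' : ℝ} (h1 : r' ≤ r) (h2 : r ≤ 2 * r') :
    ‖av J ξ X r' - av J ξ X r‖ ≤ 2 * c := by
  have F := D.fr
  have hr' : 0 < r' := by linarith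
  have h3 := key3 D hF hX hr hc0 hc
  have h4 : E r' 0 (X (J r ξ) - J r (av J ξ X r)) =
      ((Real.sqrt (r' / r) : ℝ) : ℂ) • (X (J r' ξ) - J r' (av J ξ X r)) := by
    have h5 : ∀ v : H, E r' 0 (J r v) = ((Real.sqrt (r' / r) : ℝ) : ℂ) • J r' v := by
      intro v
      have h6 := F.box_J 0 r' r v hr' le_rfl (by linarith)
      rwa [bx_zero F, F.S_zero] at h6
    have h7 : E r' 0 (X (J r ξ)) = X (E r' 0 (J r ξ)) := (ap (hX.2 _ (E_mem D hr' 0)) _).symm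
    rw [map_sub, h7, h5, h5, map_smul, smul_sub]
  have h5 : ‖E r' 0 (X (J r ξ) - J r (av J ξ X r))‖ ≤ c := by
    refine le_trans ?_ h3
    have h6 : ∀ x : K, ‖E r' 0 x‖ ≤ ‖x‖ := by
      intro x
      have h7 : ‖E r' 0 x‖ ^ 2 ≤ ‖E r' 0 x‖ * ‖x‖ := by
        have h8 : ⟪E r' 0 x, E r' 0 x⟫_ℂ = ⟪E r' 0 x, x⟫_ℂ := by
          rw [← ContinuousLinearMap.adjoint_inner_left, ← ContinuousLinearMap.star_eq_adjoint,
            E_sa F hr']
          exact congrArg (fun z => ⟪z, x⟫_ℂ) (ap (E_idem F hr') x)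
        have h9 : ((‖E r' 0 x‖ ^ 2 : ℝ) : ℂ) = ⟪E r' 0 x, x⟫_ℂ := by
          rw [← h8, inner_self_eq_norm_sq_to_K]; norm_cast
        calc ‖E r' 0 x‖ ^ 2 = ‖((‖E r' 0 x‖ ^ 2 : ℝ) : ℂ)‖ := by
              rw [Complex.norm_real, Real.norm_eq_abs, abs_of_nonneg (by positivity)]
          _ = ‖⟪E r' 0 x, x⟫_ℂ‖ := by rw [h9]
          _ ≤ _ := norm_inner_le_norm _ _
      rcases eq_or_lt_of_le (norm_nonneg (E r' 0 x)) with h8 | h8
      · rw [← h8]; exact norm_nonneg _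
      · rw [sq] at h7
        exact le_of_mul_le_mul_left h7 h8
    exact h6 _
  rw [h4, norm_smul, Complex.norm_real, Real.norm_eq_abs, abs_of_nonneg (Real.sqrt_nonneg _)] at h5
  have h6 : (1 / 2 : ℝ) ≤ Real.sqrt (r' / r) := by
    apply Real.le_sqrt_of_sq_le
    rw [le_div_iff₀ hr]
    nlinarith
  have h7 := dist_adj F hr' (X (J r' ξ)) (av J ξ X r)
  have h8 : (1 / 2 : ℝ) * ‖X (J r' ξ) - J r' (av J ξ X r)‖ ≤ c :=
    (mul_le_mul_of_nonneg_right h6 (norm_nonneg _)).trans h5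
  have h9 : ‖av J ξ X r' - av J ξ X r‖ ≤ ‖X (J r' ξ) - J r' (av J ξ X r)‖ := h7
  linarith

theorem key5 {X : K →L[ℂ] K} (hX : X ∈ RR M κ A) {r c : ℝ} (hr : 0 < r) (hc0 : 0 ≤ c)
    (hc : ∀ s : ℝ, 0 ≤ s → s ≤ r → om S J ξ X s ≤ c) {n : ℕ} (hn : 0 < n) :
    ‖av J ξ X r - av J ξ X (r / n)‖ ≤ 2 * c := by
  have F := D.fr
  have hn' : (1 : ℝ) ≤ n := by exact_mod_cast hn
  have hd : 0 < r / n := by positivity
  have hdr : r / n ≤ r := div_le_self hr.le hn'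
  have h1 := key1 D hF hX hr hc0 hc hn (av J ξ X (r / n))
  have h2 := key3 D hF hX hd hc0 fun s h0 h1 => hc s h0 (h1.trans hdr)
  have h3 : ‖av J ξ X r - av J ξ X (r / n)‖ ≤ _ := dist_adj F hr (X (J r ξ)) (av J ξ X (r / n))
  linarith

theorem key6 {X : K →L[ℂ] K} (hX : X ∈ RR M κ A) {r c : ℝ} (hr : 0 < r) (hc0 : 0 ≤ c)
    (hc : ∀ s : ℝ, 0 ≤ s → s ≤ r → om S J ξ X s ≤ c) {r' : ℝ} (hr' : 0 < r') (h : r' ≤ r) :
    ‖av J ξ X r' - av J ξ X r‖ ≤ 4 * c := by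
  have hn : 0 < ⌊r / r'⌋₊ := Nat.floor_pos.2 ((one_le_div hr').2 h)
  have hn' : (1 : ℝ) ≤ (⌊r / r'⌋₊ : ℝ) := by exact_mod_cast hn
  have h1 : ((⌊r / r'⌋₊ : ℕ) : ℝ) ≤ r / r' := Nat.floor_le (by positivity)
  have h2 : r / r' < (⌊r / r'⌋₊ : ℝ) + 1 := Nat.lt_floor_add_one _
  have h3 : r' ≤ r / (⌊r / r'⌋₊ : ℝ) := by
    rw [le_div_iff₀ (by linarith), mul_comm]
    exact (le_div_iff₀ hr').1 h1
  have h4 : r / (⌊r / r'⌋₊ : ℝ) ≤ 2 * r' := by
    rw [div_le_iff₀ (by linarith)]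
    have h5 := (div_lt_iff₀ hr').1 h2
    nlinarith
  have h5 : r / (⌊r / r'⌋₊ : ℝ) ≤ r := div_le_self hr.le hn'
  have h6 := key5 D hF hX hr hc0 hc hn
  have h7 := key4 D hF hX (r := r / (⌊r / r'⌋₊ : ℝ)) (by positivity) hc0
    (fun s h0 h1 => hc s h0 (h1.trans h5)) h3 h4
  have h8 : av J ξ X r' - av J ξ X r = (av J ξ X r' - av J ξ X (r / (⌊r / r'⌋₊ : ℝ))) -
      (av J ξ X r - av J ξ X (r / (⌊r / r'⌋₊ : ℝ))) := by abel
  rw [h8]
  refine (norm_sub_le _ _).trans ?_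
  linarith

omit hF in
theorem om_small (X : K →L[ℂ] K) {ε : ℝ} (hε : 0 < ε) :
    ∃ r0 : ℝ, 0 < r0 ∧ ∀ s : ℝ, 0 ≤ s → s ≤ r0 → om S J ξ X s ≤ ε := by
  have h1 := (om_tendsto D X).eventually (eventually_le_nhds hε)
  obtain ⟨δ, hδ, h2⟩ := Metric.eventually_nhds_iff.1 h1
  refine ⟨δ / 2, by positivity, fun s h0 h3 => h2 ?_⟩
  rw [Real.dist_eq, sub_zero, abs_of_nonneg h0]
  linarith

theorem lim_exists {X : K →L[ℂ] K} (hX : X ∈ RR M κ A) :
    ∃ a : H, Tendsto (av J ξ X) (𝓝[>] 0) (𝓝 a) := by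
  rw [← cauchy_map_iff_exists_tendsto, Metric.cauchy_iff]
  refine ⟨inferInstance, fun ε hε => ?_⟩
  obtain ⟨r0, hr0, h1⟩ := om_small D (ξ := ξ) (J := J) (S := S) X (ε := ε / 16) (by positivity)
  refine ⟨av J ξ X '' (Set.Ioc 0 r0), image_mem_map (Ioc_mem_nhdsGT hr0), ?_⟩
  rintro _ ⟨s, hs, rfl⟩ _ ⟨t, ht, rfl⟩
  have h2 := key6 D hF hX hr0 (by positivity : (0 : ℝ) ≤ ε / 16) h1 hs.1 hs.2
  have h3 := key6 D hF hX hr0 (by positivity : (0 : ℝ) ≤ ε / 16) h1 ht.1 ht.2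
  rw [dist_eq_norm]
  have h4 : av J ξ X s - av J ξ X t = (av J ξ X s - av J ξ X r0) - (av J ξ X t - av J ξ X r0) := by
    abel
  rw [h4]
  refine (norm_sub_le _ _).trans_lt ?_
  linarith

/-- the sharp estimate -/
theorem key7 {X : K →L[ℂ] K} (hX : X ∈ RR M κ A) {a : H} (ha : Tendsto (av J ξ X) (𝓝[>] 0) (𝓝 a))
    {r c : ℝ} (hr : 0 < r) (hc0 : 0 ≤ c) (hc : ∀ s : ℝ, 0 ≤ s → s ≤ r → om S J ξ X s ≤ c) :
    ‖X (J r ξ) - J r a‖ ≤ c := by
  have F := D.fr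
  refine le_of_forall_pos_le_add fun ε hε => ?_
  obtain ⟨r0, hr0, h1⟩ := om_small D (ξ := ξ) (J := J) (S := S) X (ε := ε / 5) (by positivity)
  obtain ⟨n, hn⟩ := exists_nat_gt (r / r0)
  have hn0 : 0 < n := by
    rcases Nat.eq_zero_or_pos n with h | h
    · subst h
      have : (0 : ℝ) < r / r0 := by positivity
      simp at hn; linarith
    · exact h
  have hn' : (0 : ℝ) < n := by exact_mod_cast hn0
  have hd : 0 < r / n := by positivity
  have hdr : r / n ≤ r0 := by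
    rw [div_le_iff₀ hn']
    have := (div_lt_iff₀ hr0).1 hn
    linarith
  have h2 := key3 D hF hX hd (by positivity : (0 : ℝ) ≤ ε / 5) fun s h0 h3 => h1 s h0 (h3.trans hdr)
  have h3 : ‖av J ξ X (r / n) - a‖ ≤ 4 * (ε / 5) := by
    have h4 : Tendsto (fun s => ‖av J ξ X (r / n) - av J ξ X s‖) (𝓝[>] 0)
        (𝓝 ‖av J ξ X (r / n) - a‖) := (tendsto_const_nhds.sub ha).norm
    refine le_of_tendsto h4 ?_
    filter_upwards [Ioc_mem_nhdsGT hd] with s hs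
    rw [norm_sub_rev]
    exact key6 D hF hX hd (by positivity) (fun s h0 h3 => h1 s h0 (h3.trans hdr)) hs.1 hs.2
  have h4 := key1 D hF hX hr hc0 hc hn0 a
  have h5 : ‖X (J (r / n) ξ) - J (r / n) a‖ ≤ ε / 5 + 4 * (ε / 5) := by
    have h6 : X (J (r / n) ξ) - J (r / n) a = (X (J (r / n) ξ) - J (r / n) (av J ξ X (r / n))) +
        J (r / n) (av J ξ X (r / n) - a) := by rw [map_sub]; abel
    rw [h6]
    refine (norm_add_le _ _).trans (add_le_add h2 ?_)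
    rw [J_norm F hd]
    exact h3
  linarith

omit hF in
/-- slices lie in `M` -/
theorem sl_mem {X : K →L[ℂ] K} (hX : X ∈ RR M κ A) {r : ℝ} (hr : 0 < r) : sl (J r) X ∈ M := by
  have F := D.fr
  rw [← VonNeumannAlgebra.commutant_commutant M, VonNeumannAlgebra.mem_commutant_iff]
  intro y hy
  ext v
  show y (ContinuousLinearMap.adjoint (J r) (X (J r v))) =
    ContinuousLinearMap.adjoint (J r) (X (J r (y v)))
  rw [← κ_adj F hr, ← F.κ_J _ _ _ hr]
  congr 1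
  exact (ap (hX.1 y hy) (J r v)).symm

omit hF in
theorem sl_comm {X : K →L[ℂ] K} (hX : X ∈ RR M κ A) {r : ℝ} (hr : 0 < r) {y : H →L[ℂ] H}
    (hy : y ∈ M.commutant) (v : H) : sl (J r) X (y v) = y (sl (J r) X v) :=
  ap_H (VonNeumannAlgebra.mem_commutant_iff.1 hy _ (sl_mem D hX hr)) v

omit hF in
theorem sl_norm (X : K →L[ℂ] K) {r : ℝ} (hr : 0 < r) (v : H) : ‖sl (J r) X v‖ ≤ ‖X‖ * ‖v‖ := by
  have F := D.fr
  refine (Ja_norm F hr _).trans ?_
  have h1 : ‖X (J r v)‖ ≤ ‖X‖ * ‖J r v‖ := X.le_opNorm _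
  rwa [J_norm F hr] at h1

theorem exists_val {X : K →L[ℂ] K} (hX : X ∈ RR M κ A) : ∃ x : H →L[ℂ] H, Ev M J X x ∧
    ∀ r c : ℝ, 0 < r → 0 ≤ c → (∀ s : ℝ, 0 ≤ s → s ≤ r → om S J ξ X s ≤ c) →
      ‖X (J r ξ) - J r (x ξ)‖ ≤ c := by
  have F := D.fr
  obtain ⟨a, ha⟩ := lim_exists D hF hX
  have hdense := dense_comm M ξ D.std.sep
  have hX0 : 0 ≤ ‖X‖ := norm_nonneg _
  -- pointwise convergence
  have hlim : ∀ v : H, ∃ b : H, Tendsto (fun r => sl (J r) X v) (𝓝[>] 0) (𝓝 b) := by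
    intro v
    rw [← cauchy_map_iff_exists_tendsto, Metric.cauchy_iff]
    refine ⟨inferInstance, fun ε hε => ?_⟩
    obtain ⟨_, ⟨y, hy, rfl⟩, hv⟩ := hdense.exists_dist_lt v
      (show (0 : ℝ) < ε / (4 * (‖X‖ + 1)) by positivity)
    have h1 : Tendsto (fun r => y (av J ξ X r)) (𝓝[>] 0) (𝓝 (y a)) :=
      (y.continuous.tendsto a).comp ha
    have h2 := (Metric.tendsto_nhds.1 h1 (ε / 4) (by positivity)).and self_mem_nhdsWithin
    refine ⟨_, image_mem_map h2, ?_⟩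
    rintro _ ⟨s, ⟨hs, hs0⟩, rfl⟩ _ ⟨t, ⟨ht, ht0⟩, rfl⟩
    have h3 : ∀ r : ℝ, 0 < r → dist (y (av J ξ X r)) (y a) < ε / 4 →
        dist (sl (J r) X v) (y a) < ε / 2 := by
      intro r hr h4
      have h5 : sl (J r) X (y ξ) = y (av J ξ X r) := sl_comm D hX hr hy ξ
      have h6 : dist (sl (J r) X v) (sl (J r) X (y ξ)) ≤ ε / 4 := by
        rw [dist_eq_norm, ← map_sub]
        refine (sl_norm D X hr _).trans ?_
        rw [dist_eq_norm] at hv
        calc ‖X‖ * ‖v - y ξ‖ ≤ (‖X‖ + 1) * (ε / (4 * (‖X‖ + 1))) :=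
              mul_le_mul (by linarith) hv.le (norm_nonneg _) (by linarith)
          _ = ε / 4 := by field_simp
      calc dist (sl (J r) X v) (y a) ≤ _ := dist_triangle _ (sl (J r) X (y ξ)) _
        _ < ε / 4 + ε / 4 := add_lt_add_of_le_of_lt h6 (by rw [h5]; exact h4)
        _ = ε / 2 := by ring
    have h7 := h3 s hs0 hs
    have h8 := h3 t ht0 ht
    calc dist (sl (J s) X v) (sl (J t) X v) ≤ dist (sl (J s) X v) (y a) + dist (sl (J t) X v) (y a) :=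
          dist_triangle_right _ _ _
      _ < ε / 2 + ε / 2 := add_lt_add h7 h8
      _ = ε := by ring
  choose f hf using hlim
  have hpi : Tendsto (fun (r : ℝ) (v : H) => sl (J r) X v) (𝓝[>] 0) (𝓝 f) := tendsto_pi_nhds.2 hf
  obtain ⟨x, hx⟩ : ∃ x : H →L[ℂ] H, ∀ v, x v = f v :=
    ⟨continuousLinearMapOfTendsto (fun r : ℝ => sl (J r) X) hpi, fun v => rfl⟩
  have hxl : ∀ v : H, Tendsto (fun r => sl (J r) X v) (𝓝[>] 0) (𝓝 (x v)) := fun v => by
    rw [hx]; exact hf v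
  have hxξ : x ξ = a := tendsto_nhds_unique (hxl ξ) ha
  have hxM : x ∈ M := by
    rw [← VonNeumannAlgebra.commutant_commutant M, VonNeumannAlgebra.mem_commutant_iff]
    intro y hy
    ext v
    refine tendsto_nhds_unique ((y.continuous.tendsto _).comp (hxl v)) ?_
    refine (hxl (y v)).congr' ?_
    filter_upwards [self_mem_nhdsWithin] with r hr
    exact sl_comm D hX hr hy v
  have hkey : ∀ r c : ℝ, 0 < r → 0 ≤ c → (∀ s : ℝ, 0 ≤ s → s ≤ r → om S J ξ X s ≤ c) →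
      ‖X (J r ξ) - J r (x ξ)‖ ≤ c := by
    intro r c hr hc0 hc
    rw [hxξ]
    exact key7 D hF hX ha hr hc0 hc
  have hξ0 : Tendsto (fun r : ℝ => X (J r ξ) - J r (x ξ)) (𝓝[>] 0) (𝓝 0) := by
    rw [Metric.tendsto_nhds]
    intro ε hε
    obtain ⟨r0, hr0, h1⟩ := om_small D (ξ := ξ) (J := J) (S := S) X (ε := ε / 2) (by positivity)
    filter_upwards [Ioc_mem_nhdsGT hr0] with r hr
    rw [dist_eq_norm, sub_zero]
    have := hkey r (ε / 2) hr.1 (by positivity) fun s h0 h2 => h1 s h0 (h2.trans hr.2)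
    linarith
  refine ⟨x, ⟨hxM, fun v => ?_⟩, hkey⟩
  rw [Metric.tendsto_nhds]
  intro ε hε
  obtain ⟨_, ⟨y, hy, rfl⟩, hv⟩ := hdense.exists_dist_lt v
    (show (0 : ℝ) < ε / (4 * (‖X‖ + ‖x‖ + 1)) by positivity)
  have h1 : Tendsto (fun r : ℝ => κ y (X (J r ξ) - J r (x ξ))) (𝓝[>] 0) (𝓝 0) := by
    have h2 := ((κ y).continuous.tendsto 0).comp hξ0
    rwa [map_zero] at h2
  filter_upwards [(Metric.tendsto_nhds.1 h1 (ε / 4) (by positivity)), self_mem_nhdsWithin]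
    with r hr1 hr
  have hr : 0 < r := hr
  rw [dist_eq_norm, sub_zero] at hr1 ⊢
  have h3 : κ y (X (J r ξ) - J r (x ξ)) = X (J r (y ξ)) - J r (x (y ξ)) := by
    rw [map_sub, F.κ_J _ _ _ hr]
    have h4 : κ y (X (J r ξ)) = X (κ y (J r ξ)) := (ap (hX.1 y hy) _).symm
    have h5 : y (x ξ) = x (y ξ) := (ap_H (VonNeumannAlgebra.mem_commutant_iff.1 hy _ hxM) ξ).symm
    rw [h4, F.κ_J _ _ _ hr, h5]
  have h6 : X (J r v) - J r (x v) = (X (J r (y ξ)) - J r (x (y ξ))) +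
      (X (J r (v - y ξ)) - J r (x (v - y ξ))) := by
    simp only [map_sub]; abel
  rw [h6, ← h3]
  rw [dist_eq_norm] at hv
  have h7 : ‖X (J r (v - y ξ)) - J r (x (v - y ξ))‖ ≤ (‖X‖ + ‖x‖) * ‖v - y ξ‖ := by
    refine (norm_sub_le _ _).trans ?_
    rw [J_norm F hr, add_mul]
    refine add_le_add ((X.le_opNorm _).trans (by rw [J_norm F hr])) (x.le_opNorm _)
  have h8 : (‖X‖ + ‖x‖) * ‖v - y ξ‖ ≤ ε / 4 := by
    calc (‖X‖ + ‖x‖) * ‖v - y ξ‖ ≤ (‖X‖ + ‖x‖ + 1) * (ε / (4 * (‖X‖ + ‖x‖ + 1))) :=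
          mul_le_mul (by linarith) hv.le (norm_nonneg _) (by positivity)
      _ = ε / 4 := by field_simp
  refine (norm_add_le _ _).trans_lt ?_
  linarith

end core

/-- **E1: evaluation at points.** -/
theorem pEv (hF : S_F1c) : S_Ev := by
  intro H K _ _ _ _ _ _ M N ξ U κ e S W J E A D X hX
  have F := D.fr
  have hF' : ∀ T : K →L[ℂ] K, T ∈ RR M κ A → ∀ p r : ℝ, 0 < r →
      ⟪S p (J r ξ), T (S p (J r ξ))⟫_ℂ = ⟪J 1 ξ, T (J 1 ξ)⟫_ℂ :=
    fun T hT p r hr => hF H K M N ξ U κ e S W J E A D T hT p r hr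
  have h1 : ∀ p : ℝ, ∃ x : H →L[ℂ] H, Ev M J (S (-p) * X * S p) x ∧
      ∀ r c : ℝ, 0 < r → 0 ≤ c → (∀ s : ℝ, 0 ≤ s → s ≤ r → om S J ξ X s ≤ c) →
        ‖X (S p (J r ξ)) - S p (J r (x ξ))‖ ≤ c := by
    intro p
    obtain ⟨x, hx1, hx2⟩ := exists_val D hF' (shift_mem D hX p)
    refine ⟨x, hx1, fun r c hr hc0 hc => ?_⟩
    have h2 := hx2 r c hr hc0 fun s h0 h1 => by rw [om_shift D hF' hX]; exact hc s h0 h1
    have h3 : (S (-p) * X * S p) (J r ξ) - J r (x ξ) =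
        S (-p) (X (S p (J r ξ)) - S p (J r (x ξ))) := by
      rw [map_sub, S_cancel' F]; rfl
    rwa [h3, S_norm F] at h2
  choose x hx1 hx2 using h1
  refine ⟨x, hx1, fun p => ?_, fun ε hε => ?_, fun L hL p r hr => ?_⟩
  · have h2 : Tendsto (fun r : ℝ => ‖(S (-p) * X * S p) (J r ξ) - J r (x p ξ)‖) (𝓝[>] 0) (𝓝 0) := by
      have := ((hx1 p).2 ξ).norm
      rwa [norm_zero] at this
    have h3 : |‖X (J 1 ξ)‖ - ‖x p ξ‖| ≤ 0 := by
      refine ge_of_tendsto h2 ?_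
      filter_upwards [self_mem_nhdsWithin] with r hr
      have hr : 0 < r := hr
      have h4 : ‖(S (-p) * X * S p) (J r ξ)‖ = ‖X (J 1 ξ)‖ := by
        rw [← normF D hF' hX p r hr]
        exact S_norm F (-p) (X (S p (J r ξ)))
      rw [← h4, ← J_norm F hr (x p ξ)]
      exact abs_norm_sub_norm_le _ _
    have h5 := abs_nonneg (‖X (J 1 ξ)‖ - ‖x p ξ‖)
    have h6 := abs_eq_zero.1 (le_antisymm h3 h5)
    linarith
  · obtain ⟨r0, hr0, h2⟩ := om_small D (ξ := ξ) (J := J) (S := S) X (ε := ε / 2) (by positivity)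
    refine ⟨r0, hr0, fun p r hr hrr => ⟨?_, ?_⟩⟩
    · have := hx2 p r (ε / 2) hr (by positivity) fun s h0 h1 => h2 s h0 (h1.trans hrr)
      linarith
    · have h3 := hx2 p r (ε / 2) hr (by positivity) fun s h0 h1 => h2 s h0 (h1.trans hrr)
      have h4 : X (S (p - r) (J r ξ)) - S (p - r) (J r (x p ξ)) =
          S (-r) (((S r * X * S (-r) - X) (S p (J r ξ))) + (X (S p (J r ξ)) - S p (J r (x p ξ)))) := by
        have h5 : ∀ y : K, S (p - r) y = S (-r) (S p y) := by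
          intro y
          rw [sub_eq_neg_add, F.S_add]; rfl
        rw [h5, h5]
        show _ = S (-r) ((S r (X (S (-r) (S p (J r ξ)))) - X (S p (J r ξ))) + _)
        rw [sub_add_sub_cancel, map_sub, S_cancel' F]
      rw [h4, S_norm F]
      refine (norm_add_le _ _).trans ?_
      rw [om_eq D hF' hX _ _ _ hr]
      have := h2 r hr.le hrr
      linarith
  · refine hx2 p r (L * r) hr ?_ fun s h0 h1 => ?_
    · have h3 := (norm_nonneg _).trans (hL r)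
      rwa [abs_of_pos hr] at h3
    · have h3 := hL s
      rw [abs_of_nonneg h0] at h3
      have hL0 : 0 ≤ L := by
        have h4 := (norm_nonneg _).trans (hL 1)
        rwa [abs_one, mul_one] at h4
      calc om S J ξ X s ≤ ‖S s * X * S (-s) - X‖ * ‖J 1 ξ‖ := ContinuousLinearMap.le_opNorm _ _
        _ = ‖S s * X * S (-s) - X‖ := by rw [J_norm F one_pos, D.std.unit, mul_one]
        _ ≤ L * s := h3
        _ ≤ L * r := mul_le_mul_of_nonneg_left h1 hL0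

/-- **E1b: the evaluation is injective.** -/
theorem pInj (hF : S_F1c) : S_Inj := by
  intro H K _ _ _ _ _ _ M N ξ U κ e S W J E A D X hX h0
  have F := D.fr
  have hF' : ∀ T : K →L[ℂ] K, T ∈ RR M κ A → ∀ p r : ℝ, 0 < r →
      ⟪S p (J r ξ), T (S p (J r ξ))⟫_ℂ = ⟪J 1 ξ, T (J 1 ξ)⟫_ℂ :=
    fun T hT p r hr => hF H K M N ξ U κ e S W J E A D T hT p r hr
  have h1 : ∀ p r : ℝ, 0 < r → X (S p (J r ξ)) = 0 := by
    intro p r hr
    rw [← norm_eq_zero, normF D hF' hX p r hr, h0, norm_zero]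
  have h2 : ∀ p r : ℝ, 0 < r → ∀ v : H, X (S p (J r v)) = 0 := by
    intro p r hr v
    have h3 : Continuous fun v : H => X (S p (J r v)) :=
      X.continuous.comp ((S p).continuous.comp (J r).continuous)
    have h4 : (fun v : H => X (S p (J r v))) = fun _ => 0 := by
      refine Continuous.ext_on (dense_comm M ξ D.std.sep) h3 continuous_const ?_
      rintro _ ⟨y, hy, rfl⟩
      show X (S p (J r (y ξ))) = 0
      rw [← F.κ_J _ _ _ hr]
      have h5 : S p (κ y (J r ξ)) = κ y (S p (J r ξ)) := (ap (F.κ_S y p) _).symm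
      have h6 : X (κ y (S p (J r ξ))) = κ y (X (S p (J r ξ))) := ap (hX.1 y hy) _
      rw [h5, h6, h1 p r hr, map_zero]
    exact congrFun h4 v
  have h3 : ∀ p r : ℝ, 0 < r → ∀ u : K, X (bx S E p r u) = 0 := by
    intro p r hr u
    have h4 := (F.fourier r hr (S (-p) u)).mapL (X ∘L S p)
    have h5 : (fun m : ℤ => (X ∘L S p) (e ((m : ℝ) / r) (J r (ContinuousLinearMap.adjoint (J r)
        (e (-((m : ℝ) / r)) (S (-p) u)))))) = fun _ => 0 := by
      funext m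
      show X (S p (e ((m : ℝ) / r) _)) = 0
      have h6 := ap (S_e F ((m : ℝ) / r) p) (J r (ContinuousLinearMap.adjoint (J r)
        (e (-((m : ℝ) / r)) (S (-p) u))))
      have h7 : S p (e ((m : ℝ) / r) (J r (ContinuousLinearMap.adjoint (J r)
        (e (-((m : ℝ) / r)) (S (-p) u))))) = Complex.exp (-(2 * Real.pi * I * ((m / r : ℝ) : ℂ) * p)) •
          e ((m : ℝ) / r) (S p (J r (ContinuousLinearMap.adjoint (J r)
        (e (-((m : ℝ) / r)) (S (-p) u))))) := h6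
      rw [h7, map_smul]
      have h8 := ap (hX.2 _ (D.gen_e ((m : ℝ) / r))) (S p (J r (ContinuousLinearMap.adjoint (J r)
        (e (-((m : ℝ) / r)) (S (-p) u)))))
      have h9 : X (e ((m : ℝ) / r) (S p (J r (ContinuousLinearMap.adjoint (J r)
        (e (-((m : ℝ) / r)) (S (-p) u)))))) = e ((m : ℝ) / r) (X (S p (J r
          (ContinuousLinearMap.adjoint (J r) (e (-((m : ℝ) / r)) (S (-p) u)))))) := h8
      rw [h9, h2 p r hr, map_zero, smul_zero]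
    rw [h5] at h4
    exact h4.unique hasSum_zero
  ext u
  have h4 := (X.continuous.tendsto u).comp (F.exhaust u)
  have h5 : Tendsto (fun R : ℝ => X (bx S E (-R) (2 * R) u)) atTop (𝓝 0) := by
    refine tendsto_const_nhds.congr' ?_
    filter_upwards [eventually_gt_atTop 0] with R hR
    rw [h3 _ _ (by positivity)]
  exact tendsto_nhds_unique h4 h5

end

end Pool.Agent.H75.BC.Ev
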