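import Pool.Agent.H75.BC.T.Ex8

/-!
S_Ex, part 9: the limit operator, assembly (helper20).
-/

set_option autoImplicit false

open MeasureTheory Filter Topology Complex
open scoped InnerProductSpace ENNReal

namespace Pool.Agent.H75.BC.Ex

open Pool.Agent.W662.CB Pool.Agent.H75.BC

noncomputable section

variable {H : Type} [NormedAddCommGroup H] [InnerProductSpace ℂ H] [CompleteSpace H]
  {K : Type} [NormedAddCommGroup K] [InnerProductSpace ℂ K] [CompleteSpace K]
  {M N : VonNeumannAlgebra H} {ξ : H} {U : ℝ → H →L[ℂ] H} {J0 : H → H}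
  {ρ : (H →L[ℂ] H) → (H →L[ℂ] H)} {κ : (H →L[ℂ] H) →⋆ₐ[ℂ] (K →L[ℂ] K)} {e S : ℝ → K →L[ℂ] K}
  {W : K →L[ℂ] K} {J : ℝ → H →L[ℂ] K} {E : ℝ → ℂ → K →L[ℂ] K} {A : VonNeumannAlgebra K}

theorem adj_l (T : K →L[ℂ] K) (x y : K) : ⟪star T x, y⟫_ℂ = ⟪x, T y⟫_ℂ := by
  rw [ContinuousLinearMap.star_eq_adjoint, ContinuousLinearMap.adjoint_inner_left]

theorem bx_e (F : Frame U κ e S W J E) {r : ℝ} (hr : 0 < r) (p t : ℝ) :
    bx S E p r * e t = e t * bx S E p r := by
  unfold bx
  have hs : ∀ q : ℝ, S q * e t = Complex.exp (-(2 * Real.pi * I * t * q)) • (e t * S q) :=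
    fun q => FB.S_e F t q
  calc S p * E r 0 * S (-p) * e t = S p * E r 0 * (S (-p) * e t) := by simp only [mul_assoc]
    _ = Complex.exp (-(2 * Real.pi * I * t * ((-p : ℝ) : ℂ))) •
        (S p * (E r 0 * e t) * S (-p)) := by rw [hs, mul_smul_comm]; simp only [mul_assoc]
    _ = Complex.exp (-(2 * Real.pi * I * t * ((-p : ℝ) : ℂ))) •
        ((S p * e t) * E r 0 * S (-p)) := by rw [← FB.e_E F hr]; simp only [mul_assoc]
    _ = _ := by
        rw [hs, smul_mul_assoc, smul_mul_assoc, smul_smul, ← Complex.exp_add]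
        have h4 : -(2 * (Real.pi : ℂ) * I * t * ((-p : ℝ) : ℂ)) + -(2 * Real.pi * I * t * p) = 0 := by
          push_cast; ring
        rw [h4, Complex.exp_zero, one_smul]
        simp only [mul_assoc]

/-- `π_σ(y) e_t = e_t π_σ(σ_t(y))` -/
theorem pi_e (D : CoreD M N ξ U κ e S W J E A) (y : H →L[ℂ] H) (t : ℝ) :
    (W * κ y * star W) * e t = e t * (W * κ (sgm U t y) * star W) := by
  have F := D.fr
  have hm := D.std.modular
  have hU : ∀ s : ℝ, U s * U (-s) = 1 := fun s => by rw [← hm.add, add_neg_cancel, hm.zero]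
  have hU' : ∀ s : ℝ, U (-s) * U s = 1 := fun s => by rw [← hm.add, neg_add_cancel, hm.zero]
  have h1 : ∀ s : ℝ, e s * W = W * (κ (U (-s)) * e s) := by
    intro s
    rw [← F.e_W, ← mul_assoc, ← mul_assoc, F.W_un2, one_mul]
  have h2 : ∀ s : ℝ, star W * e s = (κ (U (-s)) * e s) * star W := by
    intro s
    calc star W * e s = star W * e s * (W * star W) := by rw [F.W_un2, mul_one]
      _ = (star W * e s * W) * star W := by simp only [mul_assoc]
      _ = _ := by rw [F.e_W]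
  unfold sgm
  rw [hm.star_eq]
  calc (W * κ y * star W) * e t = W * κ y * (star W * e t) := by simp only [mul_assoc]
    _ = W * (κ y * κ (U (-t))) * e t * star W := by rw [h2]; simp only [mul_assoc]
    _ = W * ((κ (U (-t)) * κ (U t)) * (κ y * κ (U (-t)))) * e t * star W := by
        rw [← map_mul κ (U (-t)) (U t), hU', map_one, one_mul]
    _ = W * κ (U (-t)) * κ (U t * y * U (-t)) * e t * star W := by
        rw [map_mul, map_mul]; simp only [mul_assoc]
    _ = (W * (κ (U (-t)) * e t)) * κ (U t * y * U (-t)) * star W := by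
        rw [mul_assoc (W * κ (U (-t))) (κ (U t * y * U (-t))) (e t), F.κ_e]
        simp only [mul_assoc]
    _ = _ := by rw [← h1]; simp only [mul_assoc]

theorem pi_norm (F : Frame U κ e S W J E) (y : H →L[ℂ] H) : ‖W * κ y * star W‖ ≤ ‖y‖ := by
  refine ContinuousLinearMap.opNorm_le_bound _ (norm_nonneg _) fun u => ?_
  show ‖W (κ y (star W u))‖ ≤ _
  rw [FB.W_norm F]
  calc ‖κ y (star W u)‖ ≤ ‖κ y‖ * ‖star W u‖ := ContinuousLinearMap.le_opNorm _ _
    _ ≤ ‖y‖ * ‖u‖ := by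
        rw [FB.Ws_norm F]
        exact mul_le_mul_of_nonneg_right (κ_norm F y) (norm_nonneg _)

theorem bx_jz (F : Frame U κ e S W J E) {n : ℕ} (p : Fin n) (v : H) :
    bx S E (-1) 1 (jz S J (1 / n) (ix p) v) = jz S J (1 / n) (ix p) v := by
  have hn : 0 < n := lt_of_le_of_lt (Nat.zero_le _) p.2
  have hr : (0 : ℝ) < 1 / n := by positivity
  have hB := bz_OP F hr
  have h0 : bx S E (-1) 1 = ∑ p : Fin n, bz S E (1 / n) (ix p) := by
    rw [bx_split F 1 n one_pos hn, ← Fin.sum_univ_eq_sum_range]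
    rfl
  rw [h0, sum_ap, Finset.sum_eq_single p]
  · exact bz_jz F hr _ _
  · intro q _ hq
    rw [← bz_jz F hr (ix p) v]
    exact FB.ap (hB.1 _ _ fun hc => hq (ix_inj hc)) _
  · intro h
    exact absurd (Finset.mem_univ _) h

/-- the value at the small boxes -/
theorem value (hFin2 : S_Fin2) (D : CoreD M N ξ U κ e S W J E A) (R : RAct M ξ U J0 ρ)
    {x : H →L[ℂ] H} (hx : x ∈ M) {ζ : H} {ε C : ℝ} (hC : 0 ≤ C) (hζ : ‖ζ - x ξ‖ ≤ ε)
    (hL : Lip N ξ ρ C ζ) {n n' k : ℕ} (hnp' : 0 < n') (hnn : n = n' * 2 ^ k) {η : ℝ} (hη : 0 ≤ η)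
    {y : Fin n → H →L[ℂ] H} (hy : ColD N ξ ρ x n η y) :
    ‖Xn κ S E n y (S (-((1 / 2 : ℝ) ^ k)) (J ((1 / 2 : ℝ) ^ k) ξ)) -
      S (-((1 / 2 : ℝ) ^ k)) (J ((1 / 2 : ℝ) ^ k) (x ξ))‖ ≤
      (C + ‖x‖) * (η + Real.pi * (1 / 2 : ℝ) ^ k) + 3 * ε := by
  have F := D.fr
  have hε : 0 ≤ ε := (norm_nonneg _).trans hζ
  have hnp : 0 < n := by rw [hnn]; positivity
  have hle : n' ≤ n := by
    rw [hnn]
    exact Nat.le_mul_of_pos_right _ (by positivity)
  have hr : (0 : ℝ) < 1 / n := by positivity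
  have hnR : (n : ℝ) = n' * 2 ^ k := by
    rw [hnn]
    push_cast
    ring
  have hn'R : (0 : ℝ) < n' := Nat.cast_pos.2 hnp'
  have hrr : ((1 / 2 : ℝ) ^ k) / n' = 1 / n := by
    rw [hnR, one_div, inv_pow]
    field_simp
  have hrr2 : (n' : ℝ) / n = (1 / 2 : ℝ) ^ k := by
    rw [hnR, one_div, inv_pow]
    field_simp
  set B : ℝ := (C + ‖x‖) * (η + Real.pi * (1 / 2 : ℝ) ^ k) + 3 * ε with hB
  have hB0 : 0 ≤ B := by
    have := Real.pi_pos
    positivity
  have hone : ∀ p : Fin n, (p : ℕ) < n' → ‖y p ξ - x ξ‖ ≤ B := by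
    intro p hp
    obtain ⟨kk, c, h1, h2, h3, h4, h5⟩ := hy
    have h6 := hFin2 H M N ξ U J0 ρ D.std R x hx ζ ε C hC hζ hL (kk p) (c p) (lm p) η hη
      (lm_pos p) (lm_le p) (h1 p) (h2 p) (h3 p) (h4 p)
    rw [← h5] at h6
    have h7 : 1 - lm p ≤ Real.pi * (1 / 2 : ℝ) ^ k := by
      have h8 : Real.pi * ((ix p : ℝ) * (1 / n)) + 1 ≤ lm p := Real.add_one_le_exp _
      have h9 : (ix p : ℝ) = -((p : ℕ) + 1) := by
        unfold ix
        push_cast
        ring
      have h10 : ((p : ℕ) + 1 : ℝ) ≤ n' := by exact_mod_cast hp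
      have h11 : ((p : ℕ) + 1 : ℝ) * (1 / n) ≤ (1 / 2 : ℝ) ^ k := by
        rw [← hrr2, mul_one_div]
        exact div_le_div_of_nonneg_right h10 (by positivity)
      rw [h9] at h8
      have h12 : Real.pi * (((p : ℕ) + 1 : ℝ) * (1 / n)) ≤ Real.pi * (1 / 2 : ℝ) ^ k :=
        mul_le_mul_of_nonneg_left h11 Real.pi_pos.le
      have h13 : Real.pi * (-((p : ℕ) + 1 : ℝ) * (1 / n)) =
        -(Real.pi * (((p : ℕ) + 1 : ℝ) * (1 / n))) := by ring
      rw [h13] at h8
      linarith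
    refine h6.trans ?_
    rw [hB]
    have h14 : 0 ≤ ‖x‖ := norm_nonneg _
    nlinarith [mul_le_mul_of_nonneg_left h7 hC, mul_le_mul_of_nonneg_right h7 h14]
  -- decomposition
  set c0 : ℝ := Real.sqrt (1 / n') with hc0
  have hc02 : c0 ^ 2 = 1 / n' := Real.sq_sqrt (by positivity)
  have hdec : ∀ v : H, S (-((1 / 2 : ℝ) ^ k)) (J ((1 / 2 : ℝ) ^ k) v) =
      ∑ p ∈ Finset.range n', ((c0 : ℝ) : ℂ) • jz S J (1 / n) (-((p : ℤ) + 1)) v := by
    intro v
    rw [J_split F ((1 / 2 : ℝ) ^ k) n' (by positivity) hnp' v, hrr]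
  set yy : ℕ → H →L[ℂ] H := fun p => if h : p < n then y ⟨p, h⟩ else 0 with hyy
  have hXj : ∀ p ∈ Finset.range n', ∀ v : H, Xn κ S E n y (jz S J (1 / n) (-((p : ℤ) + 1)) v) =
      jz S J (1 / n) (-((p : ℤ) + 1)) (yy p v) := by
    intro p hp v
    have hp' : p < n := lt_of_lt_of_le (Finset.mem_range.1 hp) hle
    have h1 := Xn_jz F hnp y ⟨p, hp'⟩ v
    have h2 : yy p = y ⟨p, hp'⟩ := by
      rw [hyy]
      simp only
      rw [dif_pos hp']
    rw [h2]
    exact h1
  rw [hdec ξ, hdec (x ξ), map_sum, ← Finset.sum_sub_distrib]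
  have hsum : ∑ p ∈ Finset.range n', (Xn κ S E n y (((c0 : ℝ) : ℂ) •
      jz S J (1 / n) (-((p : ℤ) + 1)) ξ) - ((c0 : ℝ) : ℂ) • jz S J (1 / n) (-((p : ℤ) + 1)) (x ξ)) =
      ∑ p ∈ Finset.range n', jz S J (1 / n) (-((p : ℤ) + 1))
        (((c0 : ℝ) : ℂ) • (yy p ξ - x ξ)) := by
    refine Finset.sum_congr rfl fun p hp => ?_
    rw [map_smul, hXj p hp, ← smul_sub, ← map_sub, map_smul]
  rw [hsum]
  have hO : OI fun b : ℕ => jz S J (1 / n) (-((b : ℤ) + 1)) :=
    (jz_OI F hr).comp (fun b : ℕ => -((b : ℤ) + 1)) (by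
      intro a b hab
      simpa using hab)
  have hsq := hO.sum_sq (Finset.range n') fun p => ((c0 : ℝ) : ℂ) • (yy p ξ - x ξ)
  refine (sq_le_sq₀ (norm_nonneg _) hB0).1 ?_
  rw [hsq]
  calc ∑ p ∈ Finset.range n', ‖((c0 : ℝ) : ℂ) • (yy p ξ - x ξ)‖ ^ 2
      ≤ ∑ p ∈ Finset.range n', (1 / n') * B ^ 2 := by
        refine Finset.sum_le_sum fun p hp => ?_
        have hp1 : p < n' := Finset.mem_range.1 hp
        have hp' : p < n := lt_of_lt_of_le hp1 hle
        have h2 : yy p = y ⟨p, hp'⟩ := by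
          rw [hyy]
          simp only
          rw [dif_pos hp']
        rw [norm_smul, mul_pow, Complex.norm_real, Real.norm_eq_abs, sq_abs, hc02, h2]
        exact mul_le_mul_of_nonneg_left
          (pow_le_pow_left₀ (norm_nonneg _) (hone ⟨p, hp'⟩ hp1) 2) (by positivity)
    _ = B ^ 2 := by
        rw [Finset.sum_const, Finset.card_range, nsmul_eq_mul]
        field_simp

theorem ex_of (hFin : S_Fin) (hFin2 : S_Fin2) (hSl : S_Sl) (hCol : S_Col) (hCor : S_Cor) :
    S_Ex := by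
  intro H K _ _ _ _ _ _ M N ξ U J0 ρ κ e S W J E A D R x hx hLip
  have F := D.fr
  have hcd : ∀ m : ℕ, ∃ y, ColD N ξ ρ x (2 ^ m) ((1 / 4 : ℝ) ^ m) y :=
    fun m => exists_ColD hCol D R x _ (by positivity)
  choose y hy using hcd
  set X : ℕ → K →L[ℂ] K := fun m => Xn κ S E (2 ^ m) (y m) with hX
  have hXn : ∀ m, ‖X m‖ ≤ ‖x‖ := fun m =>
    Xn_norm F (by positivity) (y m) _ (norm_nonneg _) fun p => (hy m).norm_le p
  obtain ⟨X', hX'n, hX'⟩ := Pool.Agent.W196.WD.exists_wlim (hyperfilter ℕ) X ‖x‖ hXn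
  have hlim : ∀ u v : K, Tendsto (fun m => ⟪v, X m u⟫_ℂ) (hyperfilter ℕ : Filter ℕ)
      (𝓝 ⟪v, X' u⟫_ℂ) := fun u v => hX' u v
  have hle : (hyperfilter ℕ : Filter ℕ) ≤ atTop := Nat.hyperfilter_le_atTop
  have hne : (hyperfilter ℕ : Filter ℕ).NeBot := inferInstance
  -- commutation passes to the limit
  have hcomm : ∀ T T' : K →L[ℂ] K, (∀ m, X m * T = T' * X m) → X' * T = T' * X' := by
    intro T T' h
    refine ContinuousLinearMap.ext fun u => ext_inner_left ℂ fun v => ?_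
    show ⟪v, X' (T u)⟫_ℂ = ⟪v, T' (X' u)⟫_ℂ
    rw [← adj_l T']
    refine tendsto_nhds_unique (hlim (T u) v) ?_
    refine (hlim u (star T' v)).congr fun m => ?_
    rw [adj_l]
    have h1 : X m (T u) = T' (X m u) := FB.ap (h m) u
    rw [h1]
  have hκ : ∀ y' : H →L[ℂ] H, y' ∈ M.commutant → X' * κ y' = κ y' * X' := by
    intro y' hy'
    refine hcomm _ _ fun m => Xn_κ F (by positivity) (y m) y' fun p => ?_
    exact (VonNeumannAlgebra.mem_commutant_iff.1 hy') _ ((hy m).mem hx D.std.le p)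
  have he : ∀ t : ℝ, X' * e t = e t * X' := fun t =>
    hcomm _ _ fun m => Xn_e F (by positivity) (y m) t
  have hb1 : X' * bx S E (-1) 1 = X' := by
    have h1 := hcomm (bx S E (-1) 1) 1 fun m => by
      rw [one_mul]
      exact (Xn_bx F (by positivity) (y m)).2
    rwa [one_mul] at h1
  have hb2 : bx S E (-1) 1 * X' = X' := by
    have h1 := hcomm 1 (bx S E (-1) 1) fun m => by
      rw [mul_one]
      exact (Xn_bx F (by positivity) (y m)).1.symm
    rw [mul_one] at h1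
    exact h1.symm
  have hbs : star (bx S E (-1) 1) = bx S E (-1) 1 := FB.bx_sa F one_pos _
  have hbi : bx S E (-1) 1 * bx S E (-1) 1 = bx S E (-1) 1 := FB.bx_idem F one_pos _
  -- vanishing for contractions
  have hvan1 : ∀ P : K →L[ℂ] K, P ∈ A → ‖P‖ ≤ 1 → (∀ t : ℝ, S t * P = P * S t) →
      ∀ v : K, bx S E (-1) 1 v = v → ⟪v, (P * X' - X' * P) (Finf S J E ξ)⟫_ℂ = 0 := by
    intro P hP hP1 hPS v hv
    have h1 := (lim_zero hFin hSl D R hx hLip y hy hP hP1 hPS v hv).mono_left hle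
    refine tendsto_nhds_unique ?_ h1
    have h2 := (hlim (Finf S J E ξ) (star P v)).sub (hlim (P (Finf S J E ξ)) v)
    have h3 : ⟪star P v, X' (Finf S J E ξ)⟫_ℂ - ⟪v, X' (P (Finf S J E ξ))⟫_ℂ =
        ⟪v, (P * X' - X' * P) (Finf S J E ξ)⟫_ℂ := by
      rw [adj_l, ← inner_sub_right]
      rfl
    rw [h3] at h2
    refine h2.congr fun m => ?_
    rw [adj_l, ← inner_sub_right]
    rfl
  -- vanishing for `π_σ(y)`
  have hvan2 : ∀ y : H →L[ℂ] H, y ∈ N → ∀ v : K, bx S E (-1) 1 v = v →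
      ⟪v, ((W * κ y * star W) * X' - X' * (W * κ y * star W)) (Finf S J E ξ)⟫_ℂ = 0 := by
    intro y hy v hv
    by_cases h0 : ‖y‖ = 0
    · have h1 : y = 0 := norm_eq_zero.1 h0
      rw [h1]
      simp
    · set c : ℂ := ((‖y‖ : ℝ) : ℂ) with hc
      have hc0 : c ≠ 0 := by
        rw [hc]
        exact_mod_cast h0
      set y1 : H →L[ℂ] H := c⁻¹ • y with hy1
      have h2 : y = c • y1 := by rw [hy1, smul_smul, mul_inv_cancel₀ hc0, one_smul]
      have h3 : ‖y1‖ ≤ 1 := by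
        rw [hy1, norm_smul, norm_inv, hc, Complex.norm_real, norm_norm,
          inv_mul_cancel₀ h0]
      have h4 : y1 ∈ N := N.toStarSubalgebra.toSubalgebra.smul_mem hy _
      have h5 := hvan1 (W * κ y1 * star W) (D.gen_W _ h4) ((pi_norm F _).trans h3)
        (fun t => FB.S_comm_W D t y1) v hv
      have h6 : (W * κ y * star W) * X' - X' * (W * κ y * star W) =
          c • ((W * κ y1 * star W) * X' - X' * (W * κ y1 * star W)) := by
        rw [h2, map_smul, mul_smul_comm, smul_mul_assoc, smul_mul_assoc, mul_smul_comm, smul_sub]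
      rw [h6, ContinuousLinearMap.smul_apply, inner_smul_right, h5, mul_zero]
  -- the commutator vanishes on the window
  have hPX : ∀ y : H →L[ℂ] H, y ∈ N → X' * (bx S E (-1) 1 * (W * κ y * star W) * bx S E (-1) 1) =
      (bx S E (-1) 1 * (W * κ y * star W) * bx S E (-1) 1) * X' := by
    intro y hy
    set P : K →L[ℂ] K := W * κ y * star W with hP
    set T : K →L[ℂ] K := bx S E (-1) 1 * (P * X' - X' * P) with hT
    have hL : ∀ w : K, bx S E (-1) 1 w ∈ LinearMap.ker (T : K →ₗ[ℂ] K) := by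
      intro w
      refine total D (LinearMap.ker (T : K →ₗ[ℂ] K)) T.isClosed_ker ?_ w
      intro t y' hy'
      rw [LinearMap.mem_ker]
      show T (e t (κ y' (Finf S J E ξ))) = 0
      refine ext_inner_left ℂ fun v => ?_
      rw [inner_zero_right]
      -- move `e_t κ(y')` to the left
      set P2 : K →L[ℂ] K := W * κ (sgm U t y) * star W with hP2
      have hmem : sgm U t y ∈ N := D.std.inv t y hy
      have hcomm2 : (P * X' - X' * P) * (e t * κ y') = (e t * κ y') * (P2 * X' - X' * P2) := by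
        have hPe : P * e t = e t * P2 := pi_e D y t
        have hPκ : P2 * κ y' = κ y' * P2 := by
          have hy'' : y' ∈ N.commutant := by
            rw [VonNeumannAlgebra.mem_commutant_iff] at hy' ⊢
            exact fun g hg => hy' g (D.std.le g hg)
          exact (FB.κ_comm D (D.gen_W _ hmem) hy'').symm
        have a1 : P * X' * (e t * κ y') = (e t * κ y') * (P2 * X') := by
          calc P * X' * (e t * κ y') = P * (X' * e t) * κ y' := by simp only [mul_assoc]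
            _ = (P * e t) * (X' * κ y') := by rw [he]; simp only [mul_assoc]
            _ = e t * (P2 * κ y') * X' := by rw [hPe, hκ y' hy']; simp only [mul_assoc]
            _ = _ := by rw [hPκ]; simp only [mul_assoc]
        have a2 : X' * P * (e t * κ y') = (e t * κ y') * (X' * P2) := by
          calc X' * P * (e t * κ y') = X' * (P * e t) * κ y' := by simp only [mul_assoc]
            _ = (X' * e t) * (P2 * κ y') := by rw [hPe]; simp only [mul_assoc]
            _ = e t * (X' * κ y') * P2 := by rw [he, hPκ]; simp only [mul_assoc]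
            _ = _ := by rw [hκ y' hy']; simp only [mul_assoc]
        rw [sub_mul, mul_sub, a1, a2]
      have h1 : T (e t (κ y' (Finf S J E ξ))) =
          (bx S E (-1) 1 * ((e t * κ y') * (P2 * X' - X' * P2))) (Finf S J E ξ) := by
        rw [← hcomm2]
        rfl
      rw [h1]
      have h2 : bx S E (-1) 1 * ((e t * κ y') * (P2 * X' - X' * P2)) =
          (bx S E (-1) 1 * (e t * κ y')) * (P2 * X' - X' * P2) := by simp only [mul_assoc]
      rw [h2]
      show ⟪v, (bx S E (-1) 1 * (e t * κ y')) ((P2 * X' - X' * P2) (Finf S J E ξ))⟫_ℂ = 0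
      rw [← adj_l]
      refine hvan2 _ hmem _ ?_
      -- the vector lies in the window
      have h3 : bx S E (-1) 1 * star (bx S E (-1) 1 * (e t * κ y')) =
          star (bx S E (-1) 1 * (e t * κ y')) := by
        have h4 : (bx S E (-1) 1 * (e t * κ y')) * bx S E (-1) 1 =
            bx S E (-1) 1 * (e t * κ y') := by
          calc (bx S E (-1) 1 * (e t * κ y')) * bx S E (-1) 1
              = bx S E (-1) 1 * e t * (κ y' * bx S E (-1) 1) := by simp only [mul_assoc]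
            _ = bx S E (-1) 1 * (e t * bx S E (-1) 1) * κ y' := by
                rw [FB.κ_bx F one_pos]; simp only [mul_assoc]
            _ = (bx S E (-1) 1 * bx S E (-1) 1) * e t * κ y' := by
                rw [← bx_e F one_pos]; simp only [mul_assoc]
            _ = _ := by rw [hbi]; simp only [mul_assoc]
        have h5 := congrArg star h4
        rw [star_mul, hbs] at h5
        exact h5
      exact FB.ap h3 v
    have h1 : T * bx S E (-1) 1 = 0 := by
      ext w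
      have h2 := hL w
      rw [LinearMap.mem_ker] at h2
      exact h2
    have h2 : bx S E (-1) 1 * P * X' = X' * P * bx S E (-1) 1 := by
      have h3 : bx S E (-1) 1 * P * (X' * bx S E (-1) 1) -
          (bx S E (-1) 1 * X') * P * bx S E (-1) 1 = 0 := by
        rw [← h1, hT]
        rw [mul_sub, sub_mul]
        simp only [mul_assoc]
      rw [hb1, hb2] at h3
      exact sub_eq_zero.1 h3
    calc X' * (bx S E (-1) 1 * P * bx S E (-1) 1) = (X' * bx S E (-1) 1) * P * bx S E (-1) 1 := by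
          simp only [mul_assoc]
      _ = X' * P * bx S E (-1) 1 := by rw [hb1]
      _ = bx S E (-1) 1 * P * X' := h2.symm
      _ = bx S E (-1) 1 * P * (bx S E (-1) 1 * X') := by rw [hb2]
      _ = _ := by simp only [mul_assoc]
  -- extension
  obtain ⟨Y, hY1, hY2, hY3⟩ := hCor H K M N ξ U κ e S W J E A D (-1) 1 one_pos X'
    (by rw [hb2, hb1]) hκ he hPX
  refine ⟨Y, hY1, hY3.trans hX'n, fun ε hε => ?_⟩
  obtain ⟨C, ζ, hC, hζ, hLi⟩ := hLip (ε / 4) (by linarith)
  refine ⟨(C + ‖x‖) * Real.pi, by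
    have := Real.pi_pos
    positivity, fun k => ?_⟩
  set u : K := S (-((1 / 2 : ℝ) ^ k)) (J ((1 / 2 : ℝ) ^ k) ξ) with hu
  set v : K := S (-((1 / 2 : ℝ) ^ k)) (J ((1 / 2 : ℝ) ^ k) (x ξ)) with hv
  have hYu : Y u = X' u := by
    have h1 : bx S E (-1) 1 u = u := by
      have h2 := bx_jz F (n := 2 ^ k) ⟨0, by positivity⟩ ξ (S := S) (E := E) (J := J)
      have h3 : jz S J (1 / ((2 ^ k : ℕ) : ℝ)) (ix (⟨0, by positivity⟩ : Fin (2 ^ k))) ξ = u := by
        have h4 : (1 / ((2 ^ k : ℕ) : ℝ)) = (1 / 2 : ℝ) ^ k := by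
          push_cast
          rw [one_div, one_div, inv_pow]
        rw [jz_apply, h4, hu]
        congr 2
        unfold ix
        push_cast
        ring
      rw [h3] at h2
      exact h2
    calc Y u = Y (bx S E (-1) 1 u) := by rw [h1]
      _ = (Y * bx S E (-1) 1) u := rfl
      _ = X' u := by rw [hY2]
  rw [hYu]
  set w : K := X' u - v with hw
  have hη : Tendsto (fun m : ℕ => (C + ‖x‖) * (1 / 4 : ℝ) ^ m) atTop (𝓝 0) := by
    have h1 : Tendsto (fun m : ℕ => (1 / 4 : ℝ) ^ m) atTop (𝓝 0) :=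
      tendsto_pow_atTop_nhds_zero_of_lt_one (by norm_num) (by norm_num)
    have h2 := h1.const_mul (C + ‖x‖)
    rwa [mul_zero] at h2
  have hev : ∀ᶠ m in atTop, ‖X m u - v‖ ≤ (C + ‖x‖) * Real.pi * (1 / 2 : ℝ) ^ k + ε := by
    filter_upwards [hη.eventually (gt_mem_nhds (show (0 : ℝ) < ε / 4 by linarith)),
      eventually_ge_atTop k] with m hm1 hm2
    have hmk : 2 ^ m = 2 ^ (m - k) * 2 ^ k := by
      rw [← pow_add]
      congr 1
      omega
    have h1 := value hFin2 D R hx hC hζ hLi (n' := 2 ^ (m - k)) (by positivity) hmk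
      (by positivity) (hy m)
    refine h1.trans ?_
    have h2 : (C + ‖x‖) * ((1 / 4 : ℝ) ^ m + Real.pi * (1 / 2 : ℝ) ^ k) =
      (C + ‖x‖) * (1 / 4 : ℝ) ^ m + (C + ‖x‖) * Real.pi * (1 / 2 : ℝ) ^ k := by ring
    rw [h2]
    linarith
  have hlim2 : Tendsto (fun m => ‖⟪w, X m u - v⟫_ℂ‖) (hyperfilter ℕ : Filter ℕ)
      (𝓝 ‖⟪w, X' u - v⟫_ℂ‖) := by
    refine Tendsto.norm ?_
    simp only [inner_sub_right]
    exact (hlim u w).sub tendsto_const_nhds
  have hle2 : ‖⟪w, X' u - v⟫_ℂ‖ ≤ ‖w‖ * ((C + ‖x‖) * Real.pi * (1 / 2 : ℝ) ^ k + ε) := by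
    refine le_of_tendsto hlim2 ((hev.filter_mono hle).mono fun m hm => ?_)
    exact (norm_inner_le_norm _ _).trans (mul_le_mul_of_nonneg_left hm (norm_nonneg _))
  have hww : ‖⟪w, X' u - v⟫_ℂ‖ = ‖w‖ * ‖w‖ := by
    rw [← hw, inner_self_eq_norm_sq_to_K]
    rw [norm_pow]
    simp [sq]
  rw [hww] at hle2
  by_contra hcon
  have h1 : (C + ‖x‖) * Real.pi * (1 / 2 : ℝ) ^ k + ε < ‖w‖ := not_le.1 hcon
  have h2 : 0 < ‖w‖ := lt_of_le_of_lt (by
    have := Real.pi_pos
    positivity) h1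
  have h3 := le_of_mul_le_mul_left hle2 h2
  linarith

end

end Pool.Agent.H75.BC.Ex
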