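import Pool.Agent.H75.BC.T.F1v

/-!
Project BIC, task T6 (S_F1c): diagonal values of elements of the relative commutant are constant (helper85).
-/

set_option autoImplicit false

open MeasureTheory Filter Topology Complex
open scoped InnerProductSpace ENNReal

namespace Pool.Agent.H75.BC.F1c

open Pool.Agent.W662.CB Pool.Agent.H75.BC

theorem f1c : S_F1c := by
  intro H K _ _ _ _ _ _ M N ξ U κ e S W J E A D X hX p r hr
  obtain ⟨D', h1, h2, h3⟩ := Pool.Agent.H75.BC.Avg.avg_s H K M N ξ U κ e S W J E A D X hX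
  have h4 := Pool.Agent.H75.BC.F1v.f1v H K M N ξ U κ e S W J E A D D' h1 h2 p r hr
  rw [h3 p r hr] at h4
  have h5 := h3 0 1 one_pos
  rw [D.fr.S_zero] at h5
  have h6 : ⟪J 1 ξ, D' (J 1 ξ)⟫_ℂ = ⟪J 1 ξ, X (J 1 ξ)⟫_ℂ := h5
  rw [h4, h6]

end Pool.Agent.H75.BC.F1c
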