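import Pool.Agent.H75.BC.Stmts4
import Pool.Agent.H75.L.W52.CB2.Q6

/-!
FR4b: the Fourier transform of the library maps `h_r ⊗ v` to `r^{-1/2} 1_{[0,r]} ⊗ v`.
-/

set_option autoImplicit false

open MeasureTheory Filter Topology Complex
open scoped InnerProductSpace ENNReal SchwartzMap FourierTransform ContDiff

namespace Pool.Agent.H75.BC.T.FR4b

open Pool.Agent.H75.BC
open Pool.Agent.W662.CB
open Pool.Agent.W509.CB (four_post four_shift tl tl_ae mul_sch shift_ae)
open Pool.Agent.W52.CB2 (finv_shift)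

noncomputable section

variable {H : Type} [NormedAddCommGroup H] [InnerProductSpace ℂ H] [CompleteSpace H]

theorem ker_cont : Continuous (fun x : ℝ × ℝ => Complex.exp (2 * Real.pi * I * x.1 * x.2)) := by
  fun_prop

theorem ker_norm (w s : ℝ) : ‖Complex.exp (2 * Real.pi * I * w * s)‖ = 1 := by
  have : (2 * Real.pi * I * w * s : ℂ) = ((2 * Real.pi * w * s : ℝ) : ℂ) * I := by
    push_cast; ring
  rw [this, Complex.norm_exp_ofReal_mul_I]

theorem ir_cont (r : ℝ) : Continuous (ir r) := by
  unfold ir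
  refine continuous_of_dominated (bound := fun _ => 1) ?_ ?_ ?_ ?_
  · intro s
    exact (by fun_prop : Continuous fun w : ℝ => Complex.exp (2 * Real.pi * I * w * s)).aestronglyMeasurable
  · intro s
    exact Eventually.of_forall fun w => (ker_norm w s).le
  · exact integrableOn_const (by simp)
  · exact Eventually.of_forall fun w => by fun_prop

theorem hr_cont (r : ℝ) : Continuous (hr r) := by
  unfold hr
  exact continuous_const.mul (ir_cont r)

/-- Fubini. -/
theorem fub (r : ℝ) (φ : 𝓢(ℝ, ℂ)) :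
    ∫ w in Set.Icc (0 : ℝ) r, (𝓕⁻ φ) w = ∫ s : ℝ, φ s * ir r s := by
  have h1 : ∀ w : ℝ, (𝓕⁻ φ) w = ∫ s : ℝ, φ s * Complex.exp (2 * Real.pi * I * w * s) := by
    intro w
    rw [SchwartzMap.fourierInv_coe, Real.fourierInv_eq' ]
    refine integral_congr_ae (Eventually.of_forall fun s => ?_)
    simp only [smul_eq_mul]
    rw [mul_comm]
    congr 2
    simp
    ring
  simp_rw [h1]
  rw [integral_integral_swap]
  · refine integral_congr_ae (Eventually.of_forall fun s => ?_)
    simp only [ir]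
    rw [integral_const_mul]
  · have hi : Integrable (fun x : ℝ × ℝ => (1 : ℂ) * φ x.2)
        ((volume.restrict (Set.Icc (0 : ℝ) r)).prod volume) := by
      refine Integrable.mul_prod (f := fun _ : ℝ => (1 : ℂ)) (g := fun s => φ s) ?_ φ.integrable
      exact integrableOn_const (by simp)
    refine hi.mono ?_ ?_
    · exact ((φ.continuous.comp continuous_snd).mul ker_cont).aestronglyMeasurable
    · refine Eventually.of_forall fun x => ?_
      simp only [Function.uncurry, norm_mul, one_mul, ker_norm, mul_one]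
      exact le_rfl

theorem main : S_FourJ := by
  intro H _ _ _
  refine ⟨Lp.fourierTransformₗᵢ ℝ H, ?_, ?_, ?_, ?_⟩
  · intro y S hS f
    have hSf : ∀ g : 𝓢(ℝ, H), S (g.toLp 2) = (g.postcompCLM y).toLp 2 := by
      intro g
      apply Lp.ext
      refine (hS _).trans ?_
      filter_upwards [g.coeFn_toLp 2 volume, (g.postcompCLM y).coeFn_toLp 2 volume] with s h1 h2
      rw [h1, h2, SchwartzMap.postcompCLM_apply]
    refine DenseRange.induction_on (p := fun f => (Lp.fourierTransformₗᵢ ℝ H) (S f) =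
      S ((Lp.fourierTransformₗᵢ ℝ H) f))
      (SchwartzMap.denseRange_toLpCLM (F := H) (μ := (volume : Measure ℝ)) (p := 2)
        ENNReal.ofNat_ne_top) f ?_ ?_
    · exact isClosed_eq ((Lp.fourierTransformₗᵢ ℝ H).continuous.comp S.continuous)
        (S.continuous.comp (Lp.fourierTransformₗᵢ ℝ H).continuous)
    · intro g
      rw [SchwartzMap.toLpCLM_apply]
      rw [hSf]
      have e1 : (Lp.fourierTransformₗᵢ ℝ H) ((g.postcompCLM y).toLp 2) =
        (𝓕 (g.postcompCLM y)).toLp 2 := SchwartzMap.toLp_fourier_eq _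
      have e2 : (Lp.fourierTransformₗᵢ ℝ H) (g.toLp 2) = (𝓕 g).toLp 2 :=
        SchwartzMap.toLp_fourier_eq _
      rw [e1, e2, hSf]
      congr 1
      ext w
      rw [four_post, SchwartzMap.postcompCLM_apply]
  · intro t S S' hS hS' f
    have hSf : ∀ g : 𝓢(ℝ, H), S (g.toLp 2) = (g.compSubConstCLM ℂ t).toLp 2 := by
      intro g
      apply Lp.ext
      refine (hS _).trans ?_
      refine (shift_ae t (g.coeFn_toLp 2 volume)).trans ?_
      filter_upwards [(g.compSubConstCLM ℂ t).coeFn_toLp 2 volume] with s h2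
      rw [h2, SchwartzMap.compSubConstCLM_apply]
    refine DenseRange.induction_on (p := fun f => (Lp.fourierTransformₗᵢ ℝ H) (S f) =
      S' ((Lp.fourierTransformₗᵢ ℝ H) f))
      (SchwartzMap.denseRange_toLpCLM (F := H) (μ := (volume : Measure ℝ)) (p := 2)
        ENNReal.ofNat_ne_top) f ?_ ?_
    · exact isClosed_eq ((Lp.fourierTransformₗᵢ ℝ H).continuous.comp S.continuous)
        (S'.continuous.comp (Lp.fourierTransformₗᵢ ℝ H).continuous)
    · intro g
      rw [SchwartzMap.toLpCLM_apply]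
      rw [hSf]
      have e1 : (Lp.fourierTransformₗᵢ ℝ H) ((g.compSubConstCLM ℂ t).toLp 2) =
        (𝓕 (g.compSubConstCLM ℂ t)).toLp 2 := SchwartzMap.toLp_fourier_eq _
      have e2 : (Lp.fourierTransformₗᵢ ℝ H) (g.toLp 2) = (𝓕 g).toLp 2 :=
        SchwartzMap.toLp_fourier_eq _
      rw [e1, e2]
      exact mul_sch t S' hS' _ _ (four_shift t g)
  · intro t S S' hS hS' f
    have hSf : ∀ g : 𝓢(ℝ, H), S (g.toLp 2) = (g.compSubConstCLM ℂ t).toLp 2 := by
      intro g
      apply Lp.ext
      refine (hS _).trans ?_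
      refine (shift_ae t (g.coeFn_toLp 2 volume)).trans ?_
      filter_upwards [(g.compSubConstCLM ℂ t).coeFn_toLp 2 volume] with s h2
      rw [h2, SchwartzMap.compSubConstCLM_apply]
    have key : ∀ g : LR H, (Lp.fourierTransformₗᵢ ℝ H).symm (S g) =
        S' ((Lp.fourierTransformₗᵢ ℝ H).symm g) := by
      intro g
      refine DenseRange.induction_on (p := fun f => (Lp.fourierTransformₗᵢ ℝ H).symm (S f) =
        S' ((Lp.fourierTransformₗᵢ ℝ H).symm f))
        (SchwartzMap.denseRange_toLpCLM (F := H) (μ := (volume : Measure ℝ)) (p := 2)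
          ENNReal.ofNat_ne_top) g ?_ ?_
      · exact isClosed_eq ((Lp.fourierTransformₗᵢ ℝ H).symm.continuous.comp S.continuous)
          (S'.continuous.comp (Lp.fourierTransformₗᵢ ℝ H).symm.continuous)
      · intro g
        rw [SchwartzMap.toLpCLM_apply]
        rw [hSf]
        have e1 : (Lp.fourierTransformₗᵢ ℝ H).symm ((g.compSubConstCLM ℂ t).toLp 2) =
          (𝓕⁻ (g.compSubConstCLM ℂ t)).toLp 2 := SchwartzMap.toLp_fourierInv_eq _
        have e2 : (Lp.fourierTransformₗᵢ ℝ H).symm (g.toLp 2) = (𝓕⁻ g).toLp 2 :=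
          SchwartzMap.toLp_fourierInv_eq _
        rw [e1, e2]
        show tl (𝓕⁻ (g.compSubConstCLM ℂ t)) = S' (tl (𝓕⁻ g))
        apply Lp.ext
        refine EventuallyEq.trans ?_ (hS' _).symm
        filter_upwards [tl_ae (𝓕⁻ (g.compSubConstCLM ℂ t)), tl_ae (𝓕⁻ g)] with w k1 k3
        rw [k1, k3]
        exact finv_shift t g w
    have h1 := key ((Lp.fourierTransformₗᵢ ℝ H) f)
    rw [LinearIsometryEquiv.symm_apply_apply] at h1
    rw [← h1, LinearIsometryEquiv.apply_symm_apply]
  · intro r v f g hr0 hg hf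
    have hfg : f = 𝓕⁻ g := by
      rw [← hf]
      exact ((Lp.fourierTransformₗᵢ ℝ H).symm_apply_apply f).symm
    refine ae_eq_of_integral_contDiff_smul_eq
      ((Lp.memLp f).locallyIntegrable (by norm_num))
      ((hr_cont r).smul continuous_const).locallyIntegrable ?_
    intro φ φ_smooth φ_cpt
    have hg₁ : HasCompactSupport (Complex.ofRealCLM ∘ φ) := φ_cpt.comp_left rfl
    have hg₂ : ContDiff ℝ ∞ (Complex.ofRealCLM ∘ φ) := by fun_prop
    set ψ : 𝓢(ℝ, ℂ) := hg₁.toSchwartzMap hg₂ with hψ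
    have hψφ : ∀ s, ψ s = ((φ s : ℝ) : ℂ) := fun s => rfl
    have e1 : ∫ s : ℝ, φ s • f s = ∫ s : ℝ, ψ s • f s := by
      refine integral_congr_ae (Eventually.of_forall fun s => ?_)
      simp only [hψφ]
      exact (Complex.coe_smul _ _).symm
    have e2 : ∫ s : ℝ, ψ s • f s = ∫ w : ℝ, (𝓕⁻ ψ) w • g w := by
      rw [← Lp.toTemperedDistribution_apply f ψ, hfg, ← Lp.fourierInv_toTemperedDistribution_eq,
        TemperedDistribution.fourierInv_apply, Lp.toTemperedDistribution_apply]
    have e3 : ∫ w : ℝ, (𝓕⁻ ψ) w • g w =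
        (∫ w in Set.Icc (0 : ℝ) r, (𝓕⁻ ψ) w) • ((((Real.sqrt r)⁻¹ : ℝ) : ℂ) • v) := by
      rw [← integral_smul_const, ← integral_indicator measurableSet_Icc]
      refine integral_congr_ae ?_
      filter_upwards [hg] with w hw
      rw [hw]
      by_cases h : w ∈ Set.Icc (0 : ℝ) r
      · simp [h]
      · simp [h]
    rw [e1, e2, e3, fub, smul_smul, ← integral_mul_const, ← integral_smul_const]
    refine integral_congr_ae (Eventually.of_forall fun s => ?_)
    simp only [hψφ, hr]
    rw [← Complex.coe_smul, smul_smul]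
    congr 1
    ring

end

end Pool.Agent.H75.BC.T.FR4b
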