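import Pool.Agent.H75.BC.Stmts2

/-!
T8 = `S_Flow` (helper56): the defining property of the flow for approximate eigenvectors.
-/

set_option autoImplicit false

open MeasureTheory Filter Topology Complex
open scoped InnerProductSpace ENNReal

namespace Pool.Agent.H75.BC.Flow

open Pool.Agent.W662.CB Pool.Agent.H75.BC

noncomputable section

variable {H : Type} [NormedAddCommGroup H] [InnerProductSpace ℂ H] [CompleteSpace H]
  {K : Type} [NormedAddCommGroup K] [InnerProductSpace ℂ K] [CompleteSpace K]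
  {M N : VonNeumannAlgebra H} {ξ : H} {U : ℝ → H →L[ℂ] H} {J0 : H → H}
  {ρ : (H →L[ℂ] H) → (H →L[ℂ] H)} {κ : (H →L[ℂ] H) →⋆ₐ[ℂ] (K →L[ℂ] K)} {e S : ℝ → K →L[ℂ] K}
  {W : K →L[ℂ] K} {J : ℝ → H →L[ℂ] K} {E : ℝ → ℂ → K →L[ℂ] K} {A : VonNeumannAlgebra K}

/-- A separating vector of `M` is cyclic for `M'`. -/
theorem comm_cyc (hsep : IsSeparating M ξ) : IsCyclic M.commutant ξ := by
  let V : Submodule ℂ H :=
    { carrier := {v : H | ∃ x : H →L[ℂ] H, x ∈ M.commutant ∧ x ξ = v}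
      add_mem' := by
        rintro _ _ ⟨x, hx, rfl⟩ ⟨y, hy, rfl⟩
        exact ⟨x + y, add_mem hx hy, rfl⟩
      zero_mem' := ⟨0, zero_mem _, rfl⟩
      smul_mem' := by
        rintro c _ ⟨x, hx, rfl⟩
        exact ⟨c • x, M.commutant.toStarSubalgebra.smul_mem hx c, rfl⟩ }
  let C : Submodule ℂ H := V.topologicalClosure
  have hCc : IsClosed (C : Set H) := V.isClosed_topologicalClosure
  have : CompleteSpace C := hCc.completeSpace_coe
  have hinv : ∀ T : H →L[ℂ] H, T ∈ M.commutant → ∀ v ∈ C, T v ∈ C := by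
    intro T hT v hv
    have hv' : v ∈ closure (V : Set H) := hv
    refine map_mem_closure T.continuous hv' ?_
    rintro _ ⟨x, hx, rfl⟩
    exact ⟨T * x, mul_mem hT hx, rfl⟩
  have hP : C.starProjection ∈ M := by
    rw [← VonNeumannAlgebra.commutant_commutant M, VonNeumannAlgebra.mem_commutant_iff]
    intro T hT
    ext v
    refine (Submodule.eq_starProjection_of_mem_of_inner_eq_zero
      (hinv T hT _ (C.starProjection_apply_mem v)) fun w hw => ?_).symm
    have h1 : star T w ∈ C := hinv _ (star_mem hT) w hw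
    have h2 : ⟪v - C.starProjection v, star T w⟫_ℂ = 0 := C.starProjection_inner_eq_zero v _ h1
    rw [ContinuousLinearMap.star_eq_adjoint, ContinuousLinearMap.adjoint_inner_right, map_sub] at h2
    exact h2
  have hξ : ξ ∈ C := V.le_topologicalClosure ⟨1, one_mem _, rfl⟩
  have h0 : (1 - C.starProjection) = (0 : H →L[ℂ] H) := by
    refine hsep _ (sub_mem (one_mem _) hP) ?_
    show ξ - C.starProjection ξ = 0
    rw [Submodule.starProjection_eq_self_iff.2 hξ, sub_self]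
  intro v
  have h1 : C.starProjection v = v := by
    have h2 := congrArg (fun T : H →L[ℂ] H => T v) h0
    have h3 : v - C.starProjection v = 0 := h2
    exact (sub_eq_zero.1 h3).symm
  have h4 : v ∈ C := Submodule.starProjection_eq_self_iff.1 h1
  exact h4

/-- strong convergence is tested on `M'ξ` -/
theorem tend_of_comm (hsep : IsSeparating M ξ) (T : ℕ → H →L[ℂ] H) (C : ℝ) (hC : ∀ n, ‖T n‖ ≤ C)
    (h : ∀ m : H →L[ℂ] H, m ∈ M.commutant → Tendsto (fun n => T n (m ξ)) atTop (𝓝 0)) (v : H) :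
    Tendsto (fun n => T n v) atTop (𝓝 0) := by
  have hC0 : 0 ≤ C := (norm_nonneg _).trans (hC 0)
  rw [Metric.tendsto_atTop]
  intro ε hε
  obtain ⟨w, hw, hw1⟩ := Metric.mem_closure_iff.1 (comm_cyc hsep v) (ε / (2 * (C + 1))) (by positivity)
  obtain ⟨m, hm, rfl⟩ := hw
  obtain ⟨n0, hn0⟩ := Metric.tendsto_atTop.1 (h m hm) (ε / 2) (by positivity)
  refine ⟨n0, fun n hn => ?_⟩
  have h1 := hn0 n hn
  rw [dist_zero_right] at h1 ⊢
  rw [dist_eq_norm] at hw1
  have e1 : T n v = T n (v - m ξ) + T n (m ξ) := by rw [map_sub]; abel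
  have h2 : ‖T n (v - m ξ)‖ ≤ C * ‖v - m ξ‖ :=
    ((T n).le_opNorm _).trans (mul_le_mul_of_nonneg_right (hC n) (norm_nonneg _))
  have h3 : C * ‖v - m ξ‖ ≤ (C + 1) * (ε / (2 * (C + 1))) :=
    mul_le_mul (by linarith) hw1.le (norm_nonneg _) (by linarith)
  have h4 : (C + 1) * (ε / (2 * (C + 1))) = ε / 2 := by field_simp
  rw [e1]
  refine (norm_add_le _ _).trans_lt ?_
  linarith

theorem κ_norm_le (κ : (H →L[ℂ] H) →⋆ₐ[ℂ] (K →L[ℂ] K)) (b : H →L[ℂ] H) : ‖κ b‖ ≤ ‖b‖ :=
  NonUnitalStarAlgHom.norm_apply_le κ b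

/-- Step 1: the hypothesis of `Frame.conv`. -/
theorem step1 (hAn : S_An) (D : CoreD M N ξ U κ e S W J E A) (R : RAct M ξ U J0 ρ) {c p : ℝ}
    (hc : 0 < c) (hp : Real.pi * p = Real.log c) {a : ℕ → H →L[ℂ] H} (ha : ∀ n, a n ∈ N) {L : ℝ}
    (hL : ∀ n, ‖a n‖ ≤ L)
    (ht : Tendsto (fun n => ‖a n ξ - (c : ℂ) • ρ (a n) ξ‖) atTop (𝓝 0)) (t : ℝ) (v : H) :
    Tendsto (fun n => (U (-t) * a n * U t - Complex.exp (2 * Real.pi * I * p * t) • a n) v)
      atTop (𝓝 0) := by
  have hm := D.std.modular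
  have hUn : ∀ s : ℝ, ‖U s‖ ≤ 1 := by
    intro s
    refine ContinuousLinearMap.opNorm_le_bound _ zero_le_one fun x => ?_
    rw [one_mul]
    refine le_of_eq (FB.norm_le_one_of_un ?_ x)
    rw [hm.star_eq, ← hm.add, neg_add_cancel, hm.zero]
  have hph : ‖Complex.exp (2 * Real.pi * I * p * t)‖ = 1 := by
    rw [show (2 * Real.pi * I * p * t : ℂ) = ((2 * Real.pi * p * t : ℝ) : ℂ) * I by
      push_cast; ring]
    exact Complex.norm_exp_ofReal_mul_I _
  have hL0 : 0 ≤ L := (norm_nonneg _).trans (hL 0)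
  refine tend_of_comm D.std.sep _ (2 * L) (fun n => ?_) (fun m hm' => ?_) v
  · refine (norm_sub_le _ _).trans ?_
    have h1 : ‖U (-t) * a n * U t‖ ≤ 1 * L * 1 := by
      refine (norm_mul_le _ _).trans (mul_le_mul ?_ (hUn t) (norm_nonneg _) (by linarith))
      exact (norm_mul_le _ _).trans (mul_le_mul (hUn _) (hL n) (norm_nonneg _) zero_le_one)
    have h2 : ‖Complex.exp (2 * Real.pi * I * p * t) • a n‖ ≤ L := by
      rw [norm_smul, hph, one_mul]
      exact hL n
    linarith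
  · obtain ⟨C, hC⟩ := hAn H M ξ U J0 ρ D.std.unit hm R c (-t) hc
    have hb : Tendsto (fun n => ‖m‖ * (C * ‖a n ξ - (c : ℂ) • ρ (a n) ξ‖)) atTop (𝓝 0) := by
      have := (ht.const_mul C).const_mul ‖m‖
      simpa using this
    refine squeeze_zero_norm (fun n => ?_) hb
    have h1 : U (-t) * a n * U t ∈ M := by
      have h2 := hm.mem (-t) (a n) (D.std.le _ (ha n))
      unfold sgm at h2
      rw [hm.star_eq, neg_neg] at h2
      exact h2
    have h3 := (VonNeumannAlgebra.mem_commutant_iff.1 hm') _ h1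
    have h4 := (VonNeumannAlgebra.mem_commutant_iff.1 hm') _ (D.std.le _ (ha n))
    have e1 : (U (-t) * a n * U t - Complex.exp (2 * Real.pi * I * p * t) • a n) (m ξ) =
        m (U (-t) (a n ξ) - Complex.exp (2 * Real.pi * I * p * t) • a n ξ) := by
      have h5 : (U (-t) * a n * U t) (m ξ) = m (U (-t) (a n ξ)) := by
        have h6 : (U (-t) * a n * U t) (m ξ) = m ((U (-t) * a n * U t) ξ) :=
          congrArg (fun T : H →L[ℂ] H => T ξ) h3
        rw [h6]
        show m (U (-t) (a n (U t ξ))) = _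
        rw [hm.fix]
      have h7 : a n (m ξ) = m (a n ξ) := congrArg (fun T : H →L[ℂ] H => T ξ) h4
      rw [ContinuousLinearMap.sub_apply, h5, ContinuousLinearMap.smul_apply, h7, map_sub, map_smul]
    have e2 : Complex.exp (-2 * I * ((-t : ℝ) : ℂ) * Real.log c) =
        Complex.exp (2 * Real.pi * I * p * t) := by
      rw [← hp]
      congr 1
      push_cast; ring
    have h8 := hC (a n) (D.std.le _ (ha n))
    rw [e2] at h8
    rw [e1]
    exact (m.le_opNorm _).trans (mul_le_mul_of_nonneg_left h8 (norm_nonneg _))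

/-- Step 3 -/
theorem step3 (hAn : S_An) (D : CoreD M N ξ U κ e S W J E A) (R : RAct M ξ U J0 ρ) {c p : ℝ}
    (hc : 0 < c) (hp : Real.pi * p = Real.log c) {a : ℕ → H →L[ℂ] H} (ha : ∀ n, a n ∈ N) {L : ℝ}
    (hL : ∀ n, ‖a n‖ ≤ L)
    (ht : Tendsto (fun n => ‖a n ξ - (c : ℂ) • ρ (a n) ξ‖) atTop (𝓝 0))
    {X : K →L[ℂ] K} (hX : X ∈ RR M κ A) (g : K) :
    Tendsto (fun n => X (κ (a n) g) - κ (a n) ((S p * X * S (-p)) g)) atTop (𝓝 0) := by
  have F := D.fr
  have h1 : ∀ f : K, Tendsto (fun n => (W * κ (a n) * star W - κ (a n) * S p) f) atTop (𝓝 0) :=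
    F.conv a p L hL fun t v => step1 hAn D R hc hp ha hL ht t v
  have h2 : Tendsto (fun n => (W * κ (a n) * star W - κ (a n) * S p) (X (S (-p) g)) -
      X ((W * κ (a n) * star W - κ (a n) * S p) (S (-p) g))) atTop (𝓝 0) := by
    have h3 := (h1 (X (S (-p) g))).sub ((X.continuous.tendsto 0).comp (h1 (S (-p) g)))
    simpa using h3
  refine h2.congr fun n => ?_
  have h3 : X ((W * κ (a n) * star W) (S (-p) g)) = (W * κ (a n) * star W) (X (S (-p) g)) :=
    congrArg (fun T : K →L[ℂ] K => T (S (-p) g)) (hX.2 _ (D.gen_W _ (ha n)))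
  have h4 : S p (S (-p) g) = g := congrArg (fun T : K →L[ℂ] K => T g) (FB.S_mul_neg F p)
  have h5 : (κ (a n) * S p) (S (-p) g) = κ (a n) g := by
    show κ (a n) (S p (S (-p) g)) = _
    rw [h4]
  rw [ContinuousLinearMap.sub_apply, ContinuousLinearMap.sub_apply, map_sub, h3, h5]
  show _ - κ (a n) (S p (X (S (-p) g))) - _ = X (κ (a n) g) - κ (a n) (S p (X (S (-p) g)))
  abel

end

end Pool.Agent.H75.BC.Flow

namespace Pool.Agent.H75.BC

open Pool.Agent.W662.CB

/-- T8 -/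
theorem s_Flow (hAn : S_An) : S_Flow := by
  intro H K _ _ _ _ _ _ M N ξ U J0 ρ κ e S W J E A D R X hX x y c p hc hp hx hy a ha hL ht
  obtain ⟨L, hL⟩ := hL
  have F := D.fr
  have hL0 : 0 ≤ L := (norm_nonneg _).trans (hL 0)
  have hxM := hx.1
  refine Flow.tend_of_comm D.std.sep (fun n => x * a n - a n * y) (‖x‖ * L + L * ‖y‖)
    (fun n => ?_) fun m hm => ?_
  · refine (norm_sub_le _ _).trans (add_le_add ?_ ?_)
    · exact (norm_mul_le _ _).trans (mul_le_mul_of_nonneg_left (hL n) (norm_nonneg _))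
    · exact (norm_mul_le _ _).trans (mul_le_mul_of_nonneg_right (hL n) (norm_nonneg _))
  · set v : H := m ξ with hv
    -- the small parameter
    have l1 : Tendsto (fun r : ℝ => ‖κ m‖ * (c * (L * ‖X (J r ξ) - J r (x ξ)‖)) +
        L * ‖(S p * X * S (-p)) (J r v) - J r (y v)‖) (𝓝[>] 0) (𝓝 0) := by
      have h1 := (((hx.2 ξ).norm.const_mul L).const_mul c).const_mul ‖κ m‖
      have h2 := (hy.2 v).norm.const_mul L
      have h3 := h1.add h2
      simpa using h3
    rw [Metric.tendsto_atTop]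
    intro ε hε
    have l2 : ∀ᶠ r : ℝ in 𝓝[>] 0, ‖κ m‖ * (c * (L * ‖X (J r ξ) - J r (x ξ)‖)) +
        L * ‖(S p * X * S (-p)) (J r v) - J r (y v)‖ < ε / 2 :=
      l1.eventually (gt_mem_nhds (by positivity))
    obtain ⟨r, hr1, hr0⟩ := (l2.and self_mem_nhdsWithin).exists
    have hr : 0 < r := hr0
    have l3 : Tendsto (fun n => ‖κ m‖ * ((‖x‖ + ‖X‖) * ‖a n ξ - (c : ℂ) • ρ (a n) ξ‖) +
        ‖X (κ (a n) (J r v)) - κ (a n) ((S p * X * S (-p)) (J r v))‖) atTop (𝓝 0) := by
      have h1 := (ht.const_mul (‖x‖ + ‖X‖)).const_mul ‖κ m‖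
      have h2 := (Flow.step3 (g := J r v) hAn D R hc hp ha hL ht hX).norm
      have h3 := h1.add h2
      simpa using h3
    obtain ⟨n0, hn0⟩ := Metric.tendsto_atTop.1 l3 (ε / 2) (by positivity)
    refine ⟨n0, fun n hn => ?_⟩
    have hn1 := hn0 n hn
    rw [Real.dist_eq, sub_zero] at hn1
    have hn2 := (le_abs_self _).trans_lt hn1
    rw [dist_zero_right]
    -- the comparison
    have hkm : ∀ w : H, κ m (J r w) = J r (m w) := fun w => F.κ_J m r w hr
    have hXm : ∀ f : K, X (κ m f) = κ m (X f) := fun f =>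
      congrArg (fun T : K →L[ℂ] K => T f) (hX.1 m hm)
    have ham : a n v = m (a n ξ) :=
      congrArg (fun T : H →L[ℂ] H => T ξ)
        ((VonNeumannAlgebra.mem_commutant_iff.1 hm) _ (D.std.le _ (ha n)))
    have hxm : ∀ w : H, x (m w) = m (x w) := fun w =>
      congrArg (fun T : H →L[ℂ] H => T w) ((VonNeumannAlgebra.mem_commutant_iff.1 hm) _ hxM)
    -- first term
    have t1 : ‖J r (x (a n v)) - X (J r (a n v))‖ ≤
        ‖κ m‖ * ((‖x‖ + ‖X‖) * ‖a n ξ - (c : ℂ) • ρ (a n) ξ‖ +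
          c * (L * ‖X (J r ξ) - J r (x ξ)‖)) := by
      have e1 : J r (x (a n v)) - X (J r (a n v)) =
          κ m (J r (x (a n ξ)) - X (J r (a n ξ))) := by
        rw [ham, hxm, ← hkm, ← hkm, hXm, map_sub]
      rw [e1]
      refine (ContinuousLinearMap.le_opNorm _ _).trans (mul_le_mul_of_nonneg_left ?_ (norm_nonneg _))
      have hρ : ρ (a n) ∈ M.commutant := RB.ρ_mem R (D.std.le _ (ha n))
      have hρn : ‖ρ (a n)‖ ≤ L := (RB.ρ_norm_le R _).trans (hL n)
      obtain ⟨w, hw⟩ : ∃ w : H, w = a n ξ - (c : ℂ) • ρ (a n) ξ := ⟨_, rfl⟩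
      have e2 : a n ξ = w + (c : ℂ) • ρ (a n) ξ := by rw [hw]; abel
      have e3 : X (J r (ρ (a n) ξ)) = κ (ρ (a n)) (X (J r ξ)) := by
        rw [← F.κ_J _ _ _ hr]
        exact congrArg (fun T : K →L[ℂ] K => T (J r ξ)) (hX.1 _ hρ)
      have e4 : J r (x (ρ (a n) ξ)) = κ (ρ (a n)) (J r (x ξ)) := by
        rw [F.κ_J _ _ _ hr]
        congr 1
        exact congrArg (fun T : H →L[ℂ] H => T ξ) ((VonNeumannAlgebra.mem_commutant_iff.1 hρ) _ hxM)
      have e5 : J r (x (a n ξ)) - X (J r (a n ξ)) = (J r (x w) - X (J r w)) -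
          (c : ℂ) • κ (ρ (a n)) (X (J r ξ) - J r (x ξ)) := by
        rw [e2, map_add, map_add, map_add, map_add, map_smul, map_smul, map_smul, map_smul, e3, e4,
          map_sub, smul_sub]
        abel
      rw [e5, ← hw]
      refine (norm_sub_le _ _).trans (add_le_add ?_ ?_)
      · refine (norm_sub_le _ _).trans ?_
        rw [FB.J_norm F hr, add_mul]
        refine add_le_add (x.le_opNorm _) ?_
        refine (X.le_opNorm _).trans ?_
        rw [FB.J_norm F hr]
      · rw [norm_smul, Complex.norm_real, Real.norm_of_nonneg hc.le]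
        refine mul_le_mul_of_nonneg_left ?_ hc.le
        refine (ContinuousLinearMap.le_opNorm _ _).trans (mul_le_mul_of_nonneg_right ?_ (norm_nonneg _))
        exact (Flow.κ_norm_le κ _).trans hρn
    -- third term
    have t3 : ‖κ (a n) ((S p * X * S (-p)) (J r v)) - J r (a n (y v))‖ ≤
        L * ‖(S p * X * S (-p)) (J r v) - J r (y v)‖ := by
      rw [← F.κ_J (a n) r (y v) hr, ← map_sub]
      exact (ContinuousLinearMap.le_opNorm _ _).trans
        (mul_le_mul_of_nonneg_right ((Flow.κ_norm_le κ _).trans (hL n)) (norm_nonneg _))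
    have e6 : ‖(x * a n - a n * y) v‖ = ‖(J r (x (a n v)) - X (J r (a n v))) +
        (X (κ (a n) (J r v)) - κ (a n) ((S p * X * S (-p)) (J r v))) +
        (κ (a n) ((S p * X * S (-p)) (J r v)) - J r (a n (y v)))‖ := by
      rw [← FB.J_norm F hr]
      congr 1
      show J r (x (a n v) - a n (y v)) = _
      rw [map_sub, F.κ_J (a n) r v hr]
      abel
    have t4 := norm_add_le ((J r (x (a n v)) - X (J r (a n v))) +
        (X (κ (a n) (J r v)) - κ (a n) ((S p * X * S (-p)) (J r v))))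
        (κ (a n) ((S p * X * S (-p)) (J r v)) - J r (a n (y v)))
    have t5 := norm_add_le (J r (x (a n v)) - X (J r (a n v)))
        (X (κ (a n) (J r v)) - κ (a n) ((S p * X * S (-p)) (J r v)))
    rw [e6]
    rw [mul_add] at t1
    linarith

end Pool.Agent.H75.BC
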