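import Pool.Agent.H75.BC.Stmts4

/-!
FR5: assembly of the concrete frame (helper69).
-/

set_option autoImplicit false

open MeasureTheory Filter Topology Complex
open scoped InnerProductSpace ENNReal

namespace Pool.Agent.H75.BC.Fr

open Pool.Agent.W662.CB Pool.Agent.H75.BC

noncomputable section

theorem fr (hA : S_FrA) (hB : S_FrB) (hFJ : S_FourJ) (hBI : S_BoxInt) (hX : S_FrX') (hW : S_FrW) :
    S_Fr := by
  intro H _ _ _ M ξ U hU
  obtain ⟨κ, e, S, J, E, F0, hκ, he, hS, hE, hJ⟩ := hA H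
  obtain ⟨Φ, hΦc, hΦs, hΦm, hΦJ⟩ := hFJ H
  have hBI0 := hBI H e S E he hS hE
  set e' : ℝ → LR H →L[ℂ] LR H := fun t => S (-t) with he'
  set S' : ℝ → LR H →L[ℂ] LR H := fun p => e p with hS'
  have hsh : ∀ t : ℝ, IsShift t (e' (-t)) := by
    intro t
    simp only [he', neg_neg]
    exact hS t
  have hmu : ∀ p : ℝ, IsMulOp (fun s : ℝ => Complex.exp (2 * Real.pi * I * p * s)) (S' p) :=
    fun p => he p
  have r1 : ∀ (y : H →L[ℂ] H) (f : LR H), Φ (κ y f) = κ y (Φ f) := fun y f => hΦc y (κ y) (hκ y) f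
  have r2 : ∀ (t : ℝ) (f : LR H), Φ (e' t f) = e t (Φ f) := by
    intro t f
    refine hΦs (-t) (e' t) (e t) (hS (-t)) ?_ f
    simp only [neg_neg]
    exact he t
  have r3 : ∀ (t : ℝ) (f : LR H), Φ (S' t f) = S t (Φ f) := fun t f =>
    hΦm t (S t) (S' t) (hS t) (he t) f
  obtain ⟨J', E', F', rJ, rE⟩ := hB H (LR H) (LR H) κ e S J E F0 κ e' S' Φ r1 r2 r3
  have hJ' : ∀ (r : ℝ) (v : H), 0 < r → (J' r v : ℝ → H) =ᵐ[volume] fun s => hr r s • v :=
    fun r v hr => hΦJ r v (J' r v) (J r v) hr (hJ r v hr) (rJ r v)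
  have hbx : ∀ (p r : ℝ) (f : LR H), Φ (bx S' E' p r f) = bx S E p r (Φ f) := by
    intro p r f
    simp only [bx, mul_apply_eq_comp]
    rw [r3, rE, r3]
  have hBI' : BoxInt e' S' E' := by
    intro f g p r hr
    have h1 := hBI0 (Φ f) (Φ g) p r hr
    have h2 : ∀ t : ℝ, ⟪Φ f, e t (Φ g)⟫_ℂ = ⟪f, e' t g⟫_ℂ := by
      intro t
      rw [← r2, Φ.inner_map_map]
    have h3 : ⟪Φ f, bx S E p r (Φ g)⟫_ℂ = ⟪f, bx S' E' p r g⟫_ℂ := by
      rw [← hbx, Φ.inner_map_map]
    simp only [h2, h3] at h1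
    exact h1
  obtain ⟨W, w1, w2, w3, w4, w5, w6, w7, w8, w9, w10⟩ :=
    hW H U hU.zero hU.add hU.star_eq hU.cont κ e' S' hκ hsh hmu
  obtain ⟨x1, x2, x3, x4⟩ := hX H U hU.zero hU.add hU.star_eq hU.cont κ e' S' J' E' W F' hκ hsh hmu
    hJ' hBI' w1 w2
  refine ⟨κ, e', S', W, J', E', ?_, hκ, hsh, hmu, ?_⟩
  · exact
      { e_zero := F'.e_zero
        e_add := F'.e_add
        e_star := F'.e_star
        e_cont := F'.e_cont
        S_zero := F'.S_zero
        S_add := F'.S_add
        S_star := F'.S_star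
        S_cont := F'.S_cont
        e_S := F'.e_S
        κ_e := F'.κ_e
        κ_S := F'.κ_S
        κ_E := F'.κ_E
        J_iso := F'.J_iso
        κ_J := F'.κ_J
        E_add := F'.E_add
        E_star := F'.E_star
        E_diff := F'.E_diff
        E_norm := F'.E_norm
        E_comm := F'.E_comm
        e_J := F'.e_J
        E_J := F'.E_J
        box_E := F'.box_E
        box_J := F'.box_J
        box_orth := F'.box_orth
        box_sum := F'.box_sum
        fourier := F'.fourier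
        flat := F'.flat
        exhaust := F'.exhaust
        tail := F'.tail
        W_un1 := w3
        W_un2 := w4
        W_S := w5
        e_W := w6
        W_U := w7
        W_J := x1
        W_comm := w8
        W_box := x2
        W_box' := x3
        W_form := x4
        conv := w9 }
  · intro y f
    filter_upwards [w10 y f] with s hs
    rw [hs, sgm, hU.star_eq, neg_neg]
    rfl

end

end Pool.Agent.H75.BC.Fr
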