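import Pool.Agent.H75.BC.Stmts2

/-!
BIC: convergence of the flat projections, from the other properties of a frame (helper89).
-/

set_option autoImplicit false

open MeasureTheory Filter Topology Complex
open scoped InnerProductSpace ENNReal

namespace Pool.Agent.H75.BC.Flat

open Pool.Agent.W662.CB Pool.Agent.H75.BC

noncomputable section

/-- `Frame0` without `flat`, `exhaust` and `tail` -/
structure Pre {H K : Type} [NormedAddCommGroup H] [InnerProductSpace ℂ H] [CompleteSpace H]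
    [NormedAddCommGroup K] [InnerProductSpace ℂ K] [CompleteSpace K]
    (e S : ℝ → K →L[ℂ] K)
    (J : ℝ → H →L[ℂ] K) (E : ℝ → ℂ → K →L[ℂ] K) : Prop where
  e_add : ∀ s t : ℝ, e (s + t) = e s * e t
  S_zero : S 0 = 1
  S_add : ∀ s t : ℝ, S (s + t) = S s * S t
  S_star : ∀ t : ℝ, star (S t) = S (-t)
  e_S : ∀ t p : ℝ, e t * S p = Complex.exp (2 * Real.pi * I * t * p) • (S p * e t)
  J_iso : ∀ (r : ℝ) (v : H), 0 < r → ContinuousLinearMap.adjoint (J r) (J r v) = v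
  E_add : ∀ (r : ℝ) (z w : ℂ), 0 < r → E r (z + w) = E r z * E r w
  E_star : ∀ (r : ℝ) (z : ℂ), 0 < r → star (E r z) = E r (-(starRingEnd ℂ z))
  E_norm : ∀ (r : ℝ) (z : ℂ), 0 < r → ‖E r z - E r 0‖ ≤ Real.exp (2 * Real.pi * ‖z‖ * r) - 1
  e_E : ∀ (r : ℝ) (z : ℂ) (t : ℝ), 0 < r → e t * E r z = E r z * e t
  e_J : ∀ (r t : ℝ) (v : H), 0 < r → e t (J r v) = E r t (J r v)
  E_J : ∀ (r : ℝ) (v : H), 0 < r → E r 0 (J r v) = J r v
  box_E : ∀ (p r r' : ℝ) (z : ℂ), 0 < r → 0 ≤ p → p + r ≤ r' →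
    bx S E p r * E r' z = Complex.exp (2 * Real.pi * I * z * p) • (S p * E r z * S (-p))
  box_J : ∀ (p r r' : ℝ) (v : H), 0 < r → 0 ≤ p → p + r ≤ r' →
    bx S E p r (J r' v) = ((Real.sqrt (r / r') : ℝ) : ℂ) • S p (J r v)
  box_orth : ∀ p q r r' : ℝ, 0 < r → 0 < r' → p + r ≤ q → bx S E p r * bx S E q r' = 0
  box_sum : ∀ (r : ℝ) (n : ℕ), 0 < r → 0 < n →
    E r 0 = ∑ k ∈ Finset.range n, bx S E (k * (r / n)) (r / n)
  fourier : ∀ (r : ℝ), 0 < r → ∀ u : K, HasSum (fun m : ℤ => e ((m : ℝ) / r)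
    (J r (ContinuousLinearMap.adjoint (J r) (e (-((m : ℝ) / r)) u)))) (E r 0 u)

variable {H : Type} [NormedAddCommGroup H] [InnerProductSpace ℂ H] [CompleteSpace H]
  {K : Type} [NormedAddCommGroup K] [InnerProductSpace ℂ K] [CompleteSpace K]
  {e S : ℝ → K →L[ℂ] K} {J : ℝ → H →L[ℂ] K} {E : ℝ → ℂ → K →L[ℂ] K}

theorem ap {T T' : K →L[ℂ] K} (h : T = T') (x : K) : T x = T' x := by rw [h]

theorem norm_of_iso {T : K →L[ℂ] K} (h : star T * T = 1) (x : K) : ‖T x‖ = ‖x‖ := by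
  have h1 : ⟪T x, T x⟫_ℂ = ⟪x, x⟫_ℂ := by
    rw [← ContinuousLinearMap.adjoint_inner_right T x (T x), ← ContinuousLinearMap.star_eq_adjoint]
    exact congrArg (fun z => ⟪x, z⟫_ℂ) (ap h x)
  rw [inner_self_eq_norm_sq_to_K, inner_self_eq_norm_sq_to_K] at h1
  have h2 : ‖T x‖ ^ 2 = ‖x‖ ^ 2 := by exact_mod_cast h1
  exact (sq_eq_sq₀ (norm_nonneg _) (norm_nonneg _)).1 h2

theorem norm_sum_sq (n : ℕ) (x : ℕ → K) (h : ∀ i j, i ≠ j → ⟪x i, x j⟫_ℂ = 0) :
    ‖∑ k ∈ Finset.range n, x k‖ ^ 2 = ∑ k ∈ Finset.range n, ‖x k‖ ^ 2 := by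
  induction n with
  | zero => simp
  | succ n ih =>
    rw [Finset.sum_range_succ, Finset.sum_range_succ, ← ih]
    have h1 : ⟪∑ k ∈ Finset.range n, x k, x n⟫_ℂ = 0 := by
      rw [sum_inner]
      refine Finset.sum_eq_zero fun k hk => h k n ?_
      exact (Finset.mem_range.1 hk).ne
    have := norm_add_sq_eq_norm_sq_add_norm_sq_of_inner_eq_zero _ _ h1
    nlinarith [this]

section pre

variable (F : Pre e S J E)
include F

theorem S_neg_mul (s : ℝ) : S (-s) * S s = 1 := by rw [← F.S_add, neg_add_cancel, F.S_zero]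

theorem S_norm (s : ℝ) (x : K) : ‖S s x‖ = ‖x‖ :=
  norm_of_iso (by rw [F.S_star]; exact S_neg_mul F s) x

theorem J_norm {r : ℝ} (hr : 0 < r) (v : H) : ‖J r v‖ = ‖v‖ := by
  have h1 : ⟪J r v, J r v⟫_ℂ = ⟪v, v⟫_ℂ := by
    rw [← ContinuousLinearMap.adjoint_inner_right (J r) v (J r v), F.J_iso r v hr]
  rw [inner_self_eq_norm_sq_to_K, inner_self_eq_norm_sq_to_K] at h1
  have h2 : ‖J r v‖ ^ 2 = ‖v‖ ^ 2 := by exact_mod_cast h1
  exact (sq_eq_sq₀ (norm_nonneg _) (norm_nonneg _)).1 h2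

theorem Ja_norm {r : ℝ} (hr : 0 < r) (x : K) : ‖ContinuousLinearMap.adjoint (J r) x‖ ≤ ‖x‖ := by
  have h1 : ‖J r‖ ≤ 1 := ContinuousLinearMap.opNorm_le_bound _ zero_le_one fun v => by
    rw [J_norm F hr, one_mul]
  have h2 : ‖ContinuousLinearMap.adjoint (J r)‖ ≤ 1 := by
    rw [LinearIsometryEquiv.norm_map]
    exact h1
  calc ‖ContinuousLinearMap.adjoint (J r) x‖ ≤ ‖ContinuousLinearMap.adjoint (J r)‖ * ‖x‖ :=
        ContinuousLinearMap.le_opNorm _ _
    _ ≤ 1 * ‖x‖ := mul_le_mul_of_nonneg_right h2 (norm_nonneg _)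
    _ = ‖x‖ := one_mul _

theorem E_sa {r : ℝ} (hr : 0 < r) : star (E r 0) = E r 0 := by
  rw [F.E_star r 0 hr]; simp

theorem E_idem {r : ℝ} (hr : 0 < r) : E r 0 * E r 0 = E r 0 := by
  rw [← F.E_add r 0 0 hr, add_zero]

theorem E_norm_le {r : ℝ} (hr : 0 < r) (x : K) : ‖E r 0 x‖ ≤ ‖x‖ := by
  have h1 : ⟪E r 0 x, E r 0 x⟫_ℂ = ⟪x, E r 0 x⟫_ℂ := by
    rw [← ContinuousLinearMap.adjoint_inner_right (E r 0) x (E r 0 x),
      ← ContinuousLinearMap.star_eq_adjoint, E_sa F hr]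
    exact congrArg (fun z => ⟪x, z⟫_ℂ) (ap (E_idem F hr) x)
  have h2 : ‖E r 0 x‖ ^ 2 ≤ ‖x‖ * ‖E r 0 x‖ := by
    have h3 : ‖⟪E r 0 x, E r 0 x⟫_ℂ‖ = ‖E r 0 x‖ ^ 2 := by
      rw [inner_self_eq_norm_sq_to_K]
      simp
    rw [← h3, h1]
    exact norm_inner_le_norm _ _
  by_contra hc
  push Not at hc
  nlinarith [norm_nonneg x]

theorem bx_sa {r : ℝ} (hr : 0 < r) (p : ℝ) : star (bx S E p r) = bx S E p r := by
  unfold bx
  rw [star_mul, star_mul, F.S_star, F.S_star, E_sa F hr, neg_neg, mul_assoc]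

theorem bx_idem {r : ℝ} (hr : 0 < r) (p : ℝ) : bx S E p r * bx S E p r = bx S E p r := by
  unfold bx
  have h1 : S p * E r 0 * S (-p) * (S p * E r 0 * S (-p)) =
      S p * (E r 0 * (S (-p) * S p) * E r 0) * S (-p) := by simp only [mul_assoc]
  rw [h1, S_neg_mul F, mul_one, E_idem F hr]

theorem S_bx (r p : ℝ) (u : K) : S (-p) (bx S E p r u) = E r 0 (S (-p) u) := by
  have := ap (S_neg_mul F p) (E r 0 (S (-p) u))
  exact this

theorem bx_orth {r : ℝ} (hr : 0 < r) {p q : ℝ} (h : p + r ≤ q) (x y : K) :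
    ⟪bx S E p r x, bx S E q r y⟫_ℂ = 0 := by
  rw [← ContinuousLinearMap.adjoint_inner_right (bx S E p r) x (bx S E q r y),
      ← ContinuousLinearMap.star_eq_adjoint, bx_sa F hr]
  have := ap (F.box_orth p q r r hr hr h) y
  have h2 : (bx S E p r) (bx S E q r y) = 0 := this
  rw [h2, inner_zero_right]

theorem bx_orth' {r : ℝ} (hr : 0 < r) {i j : ℕ} (h : i ≠ j) (x y : K) :
    ⟪bx S E (i * r) r x, bx S E (j * r) r y⟫_ℂ = 0 := by
  rcases lt_or_gt_of_ne h with h | h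
  · refine bx_orth F hr ?_ x y
    have : (i : ℝ) + 1 ≤ j := by exact_mod_cast h
    nlinarith
  · rw [← inner_conj_symm, bx_orth F hr (p := j * r) (q := i * r) ?_ y x, map_zero]
    have : (j : ℝ) + 1 ≤ i := by exact_mod_cast h
    nlinarith

/-- one term of the flat projection -/
def trm (S : ℝ → K →L[ℂ] K) (J : ℝ → H →L[ℂ] K) (p h : ℝ) (u : K) : K :=
  S p (J h (ContinuousLinearMap.adjoint (J h) (S (-p) u)))

omit F in
theorem trm_sub (p h : ℝ) (u v : K) : trm S J p h (u - v) = trm S J p h u - trm S J p h v := by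
  unfold trm
  simp only [map_sub]

theorem bx_trm {h : ℝ} (hh : 0 < h) (p : ℝ) (u : K) :
    bx S E p h (trm S J p h u) = trm S J p h u := by
  unfold trm bx
  have h1 := ap (S_neg_mul F p) (J h (ContinuousLinearMap.adjoint (J h) (S (-p) u)))
  have h2 : S (-p) (S p (J h (ContinuousLinearMap.adjoint (J h) (S (-p) u)))) =
    J h (ContinuousLinearMap.adjoint (J h) (S (-p) u)) := h1
  show S p (E h 0 (S (-p) (S p _))) = _
  rw [h2, F.E_J h _ hh]

theorem Ja_E {h : ℝ} (hh : 0 < h) (u : K) :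
    ContinuousLinearMap.adjoint (J h) (E h 0 u) = ContinuousLinearMap.adjoint (J h) u := by
  refine ext_inner_left ℂ fun v => ?_
  rw [ContinuousLinearMap.adjoint_inner_right, ContinuousLinearMap.adjoint_inner_right,
    ← ContinuousLinearMap.adjoint_inner_left (E h 0), ← ContinuousLinearMap.star_eq_adjoint,
    E_sa F hh, F.E_J h v hh]

theorem trm_bx {h : ℝ} (hh : 0 < h) (p : ℝ) (u : K) :
    trm S J p h (bx S E p h u) = trm S J p h u := by
  unfold trm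
  rw [S_bx F, Ja_E F hh]

theorem trm_norm {h : ℝ} (hh : 0 < h) (p : ℝ) (u : K) :
    ‖trm S J p h u‖ ≤ ‖bx S E p h u‖ := by
  rw [← trm_bx F hh]
  unfold trm
  rw [S_norm F, J_norm F hh]
  refine (Ja_norm F hh _).trans ?_
  rw [S_norm F]

/-- the flat projection -/
def Q (S : ℝ → K →L[ℂ] K) (J : ℝ → H →L[ℂ] K) (n : ℕ) (h : ℝ) (u : K) : K :=
  ∑ k ∈ Finset.range n, trm S J (k * h) h u

omit F in
theorem Q_sub (n : ℕ) (h : ℝ) (u v : K) : Q S J n h (u - v) = Q S J n h u - Q S J n h v := by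
  unfold Q
  rw [← Finset.sum_sub_distrib]
  exact Finset.sum_congr rfl fun k _ => trm_sub _ _ _ _

omit F in
theorem Q_add (n : ℕ) (h : ℝ) (u v : K) : Q S J n h (u + v) = Q S J n h u + Q S J n h v := by
  unfold Q trm
  rw [← Finset.sum_add_distrib]
  simp only [map_add]

omit F in
theorem Q_sum {ι : Type*} (s : Finset ι) (n : ℕ) (h : ℝ) (u : ι → K) :
    Q S J n h (∑ i ∈ s, u i) = ∑ i ∈ s, Q S J n h (u i) := by
  unfold Q trm
  rw [Finset.sum_comm]
  simp only [map_sum]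

theorem sum_bx {r : ℝ} (hr : 0 < r) {n : ℕ} (hn : 0 < n) (u : K) :
    ∑ k ∈ Finset.range n, bx S E (k * (r / n)) (r / n) u = E r 0 u := by
  have := ap (F.box_sum r n hr hn) u
  rw [this, ContinuousLinearMap.sum_apply]

theorem Q_norm {r : ℝ} (hr : 0 < r) {n : ℕ} (hn : 0 < n) (u : K) :
    ‖Q S J n (r / n) u‖ ≤ ‖u‖ := by
  have hh : 0 < r / n := by positivity
  have h1 : ‖Q S J n (r / n) u‖ ^ 2 = ∑ k ∈ Finset.range n, ‖trm S J (k * (r / n)) (r / n) u‖ ^ 2 := by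
    refine norm_sum_sq n _ fun i j hij => ?_
    rw [← bx_trm F hh, ← bx_trm F hh (j * (r / n))]
    exact bx_orth' F hh hij _ _
  have h2 : ‖E r 0 u‖ ^ 2 = ∑ k ∈ Finset.range n, ‖bx S E (k * (r / n)) (r / n) u‖ ^ 2 := by
    rw [← sum_bx F hr hn]
    exact norm_sum_sq n _ fun i j hij => bx_orth' F hh hij _ _
  have h3 : ‖Q S J n (r / n) u‖ ^ 2 ≤ ‖E r 0 u‖ ^ 2 := by
    rw [h1, h2]
    exact Finset.sum_le_sum fun k _ => pow_le_pow_left₀ (norm_nonneg _) (trm_norm F hh _ _) 2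
  have h4 := (sq_le_sq₀ (norm_nonneg _) (norm_nonneg _)).1 h3
  exact h4.trans (E_norm_le F hr u)

theorem Q_E {r : ℝ} (hr : 0 < r) {n : ℕ} (hn : 0 < n) (u : K) :
    Q S J n (r / n) (E r 0 u) = Q S J n (r / n) u := by
  have hh : 0 < r / n := by positivity
  unfold Q
  refine Finset.sum_congr rfl fun k hk => ?_
  rw [← trm_bx F hh, ← trm_bx F hh _ u]
  congr 1
  have hk' : k < n := Finset.mem_range.1 hk
  have h1 := F.box_E (k * (r / n)) (r / n) r 0 hh (by positivity) (by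
    have h2 : (k : ℝ) + 1 ≤ n := by exact_mod_cast hk'
    have h3 : (k : ℝ) * (r / n) + r / n = (k + 1) * (r / n) := by ring
    rw [h3]
    have h4 : (n : ℝ) * (r / n) = r := by field_simp
    nlinarith)
  have h2 := ap h1 u
  rw [mul_zero, zero_mul, Complex.exp_zero, one_smul] at h2
  exact h2

/-- the main estimate on a box vector -/
theorem est {r : ℝ} (hr : 0 < r) {n : ℕ} (hn : 0 < n) (t : ℝ) (v : H) {k : ℕ} (hk : k < n) :
    ‖bx S E (k * (r / n)) (r / n) (e t (J r v)) - trm S J (k * (r / n)) (r / n) (e t (J r v))‖ ^ 2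
      ≤ (1 / n) * (2 * ((Real.exp (2 * Real.pi * ‖(t : ℂ)‖ * (r / n)) - 1) * ‖v‖)) ^ 2 := by
  have hh : 0 < r / n := by positivity
  set h := r / n with hhd
  set p : ℝ := k * h with hp
  -- the vector `x = E_h0 S(-p) u`
  have hpr : p + h ≤ r := by
    have h2 : (k : ℝ) + 1 ≤ n := by exact_mod_cast hk
    have h3 : p + h = (k + 1) * h := by rw [hp]; ring
    rw [h3]
    have h4 : (n : ℝ) * h = r := by rw [hhd]; field_simp
    nlinarith
  have hp0 : 0 ≤ p := by positivity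
  have hx : ∃ c : ℂ, ‖c‖ = Real.sqrt (h / r) ∧
      E h 0 (S (-p) (e t (J r v))) = c • E h t (J h v) := by
    have h1 := ap (F.e_S t (-p)) (J r v)
    have h2 : e t (S (-p) (J r v)) = Complex.exp (2 * Real.pi * I * t * ((-p : ℝ) : ℂ)) •
      S (-p) (e t (J r v)) := h1
    have h3 : S (-p) (e t (J r v)) = Complex.exp (-(2 * Real.pi * I * t * ((-p : ℝ) : ℂ))) •
        e t (S (-p) (J r v)) := by
      rw [h2, smul_smul, ← Complex.exp_add, neg_add_cancel, Complex.exp_zero, one_smul]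
    have h4 : E h 0 (e t (S (-p) (J r v))) = e t (E h 0 (S (-p) (J r v))) :=
      (ap (F.e_E h 0 t hh) (S (-p) (J r v))).symm
    have h5 : E h 0 (S (-p) (J r v)) = ((Real.sqrt (h / r) : ℝ) : ℂ) • J h v := by
      rw [← S_bx F, F.box_J p h r v hh hp0 hpr, map_smul]
      congr 1
      exact ap (S_neg_mul F p) (J h v)
    refine ⟨Complex.exp (-(2 * Real.pi * I * t * ((-p : ℝ) : ℂ))) * ((Real.sqrt (h / r) : ℝ) : ℂ),
      ?_, ?_⟩
    · have h6 : -(2 * Real.pi * I * t * ((-p : ℝ) : ℂ)) = ((2 * Real.pi * t * p : ℝ) : ℂ) * I := by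
        push_cast
        ring
      rw [norm_mul, h6, Complex.norm_exp_ofReal_mul_I, one_mul, Complex.norm_real,
        Real.norm_of_nonneg (Real.sqrt_nonneg _)]
    · rw [h3, map_smul, h4, h5, map_smul, F.e_J h t v hh, smul_smul]
  obtain ⟨c, hc, hx⟩ := hx
  have h1 : bx S E p h (e t (J r v)) = S p (c • E h t (J h v)) := by
    rw [← hx]
    rfl
  have h2 : trm S J p h (e t (J r v)) =
      S p (c • J h (ContinuousLinearMap.adjoint (J h) (E h t (J h v)))) := by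
    unfold trm
    rw [← Ja_E F hh, hx, map_smul, map_smul]
  rw [h1, h2, ← map_sub, S_norm F, ← smul_sub, norm_smul, hc]
  -- replace `E_t J v` by `(E_t - E_0) J v`
  set y : K := E h t (J h v) - J h v with hy
  have h3 : E h t (J h v) - J h (ContinuousLinearMap.adjoint (J h) (E h t (J h v))) =
      y - J h (ContinuousLinearMap.adjoint (J h) y) := by
    rw [hy, map_sub, map_sub, F.J_iso h v hh]
    abel
  have h4 : ‖y‖ ≤ (Real.exp (2 * Real.pi * ‖(t : ℂ)‖ * h) - 1) * ‖v‖ := by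
    have h5 : y = (E h t - E h 0) (J h v) := by
      rw [hy, ContinuousLinearMap.sub_apply, F.E_J h v hh]
    rw [h5]
    refine (ContinuousLinearMap.le_opNorm _ _).trans ?_
    rw [J_norm F hh]
    exact mul_le_mul_of_nonneg_right (F.E_norm h t hh) (norm_nonneg _)
  have h5 : ‖y - J h (ContinuousLinearMap.adjoint (J h) y)‖ ≤ 2 * ‖y‖ := by
    refine (norm_sub_le _ _).trans ?_
    rw [J_norm F hh]
    have := Ja_norm F hh y
    linarith
  rw [h3, mul_pow, Real.sq_sqrt (by positivity)]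
  have h6 : h / r = 1 / n := by
    rw [hhd]
    field_simp
  rw [h6]
  refine mul_le_mul_of_nonneg_left (pow_le_pow_left₀ (norm_nonneg _) (h5.trans ?_) 2) (by positivity)
  linarith

theorem est_sum {r : ℝ} (hr : 0 < r) {n : ℕ} (hn : 0 < n) (t : ℝ) (v : H) :
    ‖Q S J n (r / n) (e t (J r v)) - E r 0 (e t (J r v))‖ ≤
      2 * ((Real.exp (2 * Real.pi * ‖(t : ℂ)‖ * (r / n)) - 1) * ‖v‖) := by
  have hh : 0 < r / n := by positivity
  have hn' : (0 : ℝ) < n := by exact_mod_cast hn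
  have h0 : 0 ≤ Real.exp (2 * Real.pi * ‖(t : ℂ)‖ * (r / n)) - 1 := by
    have := Real.one_le_exp (show 0 ≤ 2 * Real.pi * ‖(t : ℂ)‖ * (r / n) by positivity)
    linarith
  refine (sq_le_sq₀ (norm_nonneg _) (by positivity)).1 ?_
  rw [← norm_neg, neg_sub, ← sum_bx F hr hn]
  unfold Q
  rw [← Finset.sum_sub_distrib, norm_sum_sq]
  · refine (Finset.sum_le_sum fun k hk => est F hr hn t v (Finset.mem_range.1 hk)).trans ?_
    rw [Finset.sum_const, Finset.card_range, nsmul_eq_mul, ← mul_assoc]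
    rw [mul_one_div_cancel hn'.ne', one_mul]
  · intro i j hij
    have h1 : ∀ k : ℕ, bx S E (k * (r / n)) (r / n) (e t (J r v)) -
        trm S J (k * (r / n)) (r / n) (e t (J r v)) = bx S E (k * (r / n)) (r / n)
        (bx S E (k * (r / n)) (r / n) (e t (J r v)) -
        trm S J (k * (r / n)) (r / n) (e t (J r v))) := by
      intro k
      rw [map_sub, bx_trm F hh]
      congr 1
      exact (ap (bx_idem F hh (k * (r / n))) _).symm
    rw [h1 i, h1 j]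
    exact bx_orth' F hh hij _ _

theorem flat {r : ℝ} (hr : 0 < r) (u : K) : Tendsto (fun n : ℕ => ∑ k ∈ Finset.range (n + 1),
    S (k * (r / (n + 1 : ℕ))) (J (r / (n + 1 : ℕ)) (ContinuousLinearMap.adjoint (J (r / (n + 1 : ℕ)))
      (S (-(k * (r / (n + 1 : ℕ)))) u)))) atTop (𝓝 (E r 0 u)) := by
  show Tendsto (fun n : ℕ => Q S J (n + 1) (r / (n + 1 : ℕ)) u) atTop (𝓝 (E r 0 u))
  -- one Fourier mode
  have hmode : ∀ (t : ℝ) (v : H), Tendsto (fun n : ℕ =>
      ‖Q S J (n + 1) (r / (n + 1 : ℕ)) (e t (J r v)) - E r 0 (e t (J r v))‖) atTop (𝓝 0) := by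
    intro t v
    have h1 : Tendsto (fun n : ℕ => r / ((n + 1 : ℕ) : ℝ)) atTop (𝓝 0) :=
      Tendsto.div_atTop tendsto_const_nhds
        (tendsto_natCast_atTop_atTop.comp (tendsto_add_atTop_nat 1))
    have h2 : Continuous fun x : ℝ => 2 * ((Real.exp (2 * Real.pi * ‖(t : ℂ)‖ * x) - 1) * ‖v‖) := by
      fun_prop
    have h3 := (h2.tendsto 0).comp h1
    have h4 : 2 * ((Real.exp (2 * Real.pi * ‖(t : ℂ)‖ * 0) - 1) * ‖v‖) = 0 := by simp
    rw [h4] at h3
    refine squeeze_zero (fun _ => norm_nonneg _) (fun n => ?_) h3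
    exact est_sum F hr (Nat.succ_pos n) t v
  rw [Metric.tendsto_atTop]
  intro ε hε
  have hs := F.fourier r hr u
  obtain ⟨s, hs'⟩ := (Metric.tendsto_atTop.1 hs) (ε / 4) (by positivity)
  have hs1 := hs' s le_rfl
  set w : ℤ → K := fun m : ℤ => e ((m : ℝ) / r)
    (J r (ContinuousLinearMap.adjoint (J r) (e (-((m : ℝ) / r)) u))) with hw
  have hfin : Tendsto (fun n : ℕ => ∑ m ∈ s,
      ‖Q S J (n + 1) (r / (n + 1 : ℕ)) (w m) - E r 0 (w m)‖) atTop (𝓝 0) := by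
    have := tendsto_finset_sum s (fun m _ => hmode ((m : ℝ) / r)
      (ContinuousLinearMap.adjoint (J r) (e (-((m : ℝ) / r)) u)))
    simpa using this
  obtain ⟨n0, hn0⟩ := (Metric.tendsto_atTop.1 hfin) (ε / 4) (by positivity)
  refine ⟨n0, fun n hn => ?_⟩
  have h1 := hn0 n hn
  rw [Real.dist_eq, sub_zero, abs_of_nonneg (Finset.sum_nonneg fun _ _ => norm_nonneg _)] at h1
  rw [dist_eq_norm] at hs1 ⊢
  set y : K := ∑ m ∈ s, w m with hy
  have hs2 : ‖y - E r 0 u‖ < ε / 4 := hs1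
  -- `Q u = Q (E u)`
  have h2 : Q S J (n + 1) (r / (n + 1 : ℕ)) u = Q S J (n + 1) (r / (n + 1 : ℕ)) (E r 0 u) :=
    (Q_E F hr (Nat.succ_pos n) u).symm
  have h3 : ‖Q S J (n + 1) (r / (n + 1 : ℕ)) (E r 0 u) - Q S J (n + 1) (r / (n + 1 : ℕ)) y‖ <
      ε / 4 := by
    rw [← Q_sub]
    refine (Q_norm F hr (Nat.succ_pos n) _).trans_lt ?_
    rw [← norm_neg, neg_sub]
    exact hs2
  have h4 : ‖Q S J (n + 1) (r / (n + 1 : ℕ)) y - E r 0 y‖ < ε / 4 := by
    rw [hy, Q_sum, map_sum, ← Finset.sum_sub_distrib]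
    exact (norm_sum_le _ _).trans_lt h1
  have h5 : ‖E r 0 y - E r 0 u‖ < ε / 4 := by
    have h6 : E r 0 y - E r 0 u = E r 0 (y - E r 0 u) := by
      rw [map_sub]
      congr 1
      exact (ap (E_idem F hr) u).symm
    rw [h6]
    exact (E_norm_le F hr _).trans_lt hs2
  have h7 : Q S J (n + 1) (r / (n + 1 : ℕ)) u - E r 0 u =
      (Q S J (n + 1) (r / (n + 1 : ℕ)) (E r 0 u) - Q S J (n + 1) (r / (n + 1 : ℕ)) y) +
      (Q S J (n + 1) (r / (n + 1 : ℕ)) y - E r 0 y) + (E r 0 y - E r 0 u) := by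
    rw [h2]
    abel
  rw [h7]
  calc _ ≤ _ := norm_add₃_le
    _ < ε := by linarith

end pre

end

end Pool.Agent.H75.BC.Flat
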