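import Pool.Agent.H75.BC.T.MulOp
import Pool.Agent.H75.BC.T.Flat
import Pool.Agent.H75.L.W132.CB.E1
import Pool.Agent.H75.L.W685.CB.E4
import Pool.Agent.H75.L.W554.CB.E5
import Pool.Agent.H75.L.W821.CB.E6
import Pool.Agent.H75.L.W52.CB2.Q6

/-!
BIC FR1: the frequency picture on `L²(ℝ; H)` (helper89).
-/

set_option autoImplicit false

open MeasureTheory Filter Topology Complex
open scoped InnerProductSpace ENNReal

namespace Pool.Agent.H75.BC.FrA

open Pool.Agent.W662.CB Pool.Agent.H75.BC Pool.Agent.W919.CB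

noncomputable section

variable {H : Type} [NormedAddCommGroup H] [InnerProductSpace ℂ H] [CompleteSpace H]

/-- strong continuity of the characters -/
theorem e_cont {e : ℝ → LR H →L[ℂ] LR H} (he : ∀ t, IsMulOp (ch t) (e t)) (f : LR H) :
    Continuous fun t : ℝ => e t f := by
  rw [continuous_iff_continuousAt]
  intro t0
  refine MulOp.conv (g := ch) (g0 := ch t0) (C := 1) (fun t => ch_meas t) (ch_meas t0)
    (fun t w => ch_norm t w) (fun w => ch_norm t0 w) (fun w => ?_) he (he t0) f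
  have : Continuous fun t : ℝ => ch t w := by
    unfold ch
    fun_prop
  exact this.tendsto t0

/-- strong continuity of the translations -/
theorem S_cont {e S : ℝ → LR H →L[ℂ] LR H} (he : ∀ t, IsMulOp (ch t) (e t))
    (hS : ∀ p, IsShift p (S p)) (f : LR H) : Continuous fun t : ℝ => S t f := by
  obtain ⟨Φ, -, h2, -⟩ := Pool.Agent.W52.CB2.q6 H
  have h3 : ∀ t : ℝ, S t f = Φ.symm (e (-t) (Φ f)) := by
    intro t
    have h4 := h2 t (S t) (e (-t)) (hS t) (he (-t)) f
    rw [← h4, LinearIsometryEquiv.symm_apply_apply]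
  simp only [h3]
  exact Φ.symm.continuous.comp ((e_cont he (Φ f)).comp continuous_neg)

/-- the multiplier of the translated box -/
theorem mz_zero (r : ℝ) : mz r 0 = Set.indicator (Set.Icc 0 r) (fun _ => (1 : ℂ)) := by
  funext w
  by_cases hw : w ∈ Set.Icc 0 r
  · rw [mz_mem 0 hw, Set.indicator_of_mem hw]; simp
  · rw [mz_not 0 hw, Set.indicator_of_notMem hw]

/-- the indicator of `[a, b]` -/
def ind (a b : ℝ) : ℝ → ℂ := Set.indicator (Set.Icc a b) (fun _ => (1 : ℂ))

theorem ind_shift (p r : ℝ) : (fun w => mz r 0 (w - p)) = ind p (p + r) := by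
  funext w
  unfold ind
  by_cases hw : w ∈ Set.Icc p (p + r)
  · rw [Set.indicator_of_mem hw, mz_mem 0 ⟨by linarith [hw.1], by linarith [hw.2]⟩]
    simp
  · rw [Set.indicator_of_notMem hw, mz_not]
    intro h
    exact hw ⟨by linarith [h.1], by linarith [h.2]⟩

theorem bx_mul {S : ℝ → LR H →L[ℂ] LR H} {E : ℝ → ℂ → LR H →L[ℂ] LR H}
    (hS : ∀ p, IsShift p (S p)) (hE : ∀ (r : ℝ) (z : ℂ), 0 < r → IsMulOp (mz r z) (E r z))
    (p r : ℝ) (hr : 0 < r) : IsMulOp (ind p (p + r)) (bx S E p r) := by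
  rw [← ind_shift]
  exact MulOp.shift (hE r 0 hr) (hS p) (hS (-p))

theorem ind_norm (a b w : ℝ) : ‖ind a b w‖ ≤ 1 := by
  unfold ind
  by_cases hw : w ∈ Set.Icc a b
  · rw [Set.indicator_of_mem hw]; simp
  · rw [Set.indicator_of_notMem hw]; simp

theorem ind_meas (a b : ℝ) : Measurable (ind a b) :=
  measurable_const.indicator measurableSet_Icc

theorem exhaust {S : ℝ → LR H →L[ℂ] LR H} {E : ℝ → ℂ → LR H →L[ℂ] LR H}
    (hS : ∀ p, IsShift p (S p)) (hE : ∀ (r : ℝ) (z : ℂ), 0 < r → IsMulOp (mz r z) (E r z))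
    (u : LR H) : Tendsto (fun R : ℝ => bx S E (-R) (2 * R) u) atTop (𝓝 u) := by
  -- a modified family, defined for all `R`
  have hex : ∀ R : ℝ, ∃ T : LR H →L[ℂ] LR H, IsMulOp (ind (-R) R) T := fun R => by
    obtain ⟨T, hT, -⟩ := Pool.Agent.W227.CB.e2 H (ind (-R) R) 1 (ind_meas _ _) (ind_norm _ _)
    exact ⟨T, hT⟩
  choose T hT using hex
  have h1 : Tendsto (fun R : ℝ => T R u) atTop (𝓝 ((1 : LR H →L[ℂ] LR H) u)) := by
    refine MulOp.conv (g := fun R : ℝ => ind (-R) R) (g0 := fun _ => (1 : ℂ)) (C := 1)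
      (fun R => ind_meas _ _) measurable_const (fun R w => ind_norm _ _ _) (fun w => by simp)
      (fun w => ?_) hT mulop_one u
    refine tendsto_const_nhds.congr' ?_
    filter_upwards [eventually_ge_atTop |w|] with R hR
    unfold ind
    rw [Set.indicator_of_mem]
    exact ⟨by linarith [neg_abs_le w], by linarith [le_abs_self w]⟩
  refine h1.congr' ?_
  filter_upwards [eventually_gt_atTop (0 : ℝ)] with R hR
  have h2 := bx_mul hS hE (-R) (2 * R) (by positivity)
  have h3 : -R + 2 * R = R := by ring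
  rw [h3] at h2
  rw [MulOp.uq h2 (hT R)]

/-- a lower bound for `∫_0^T |e^{2πitw} - 1|² dt` -/
theorem int_lower {T w : ℝ} (hT : 0 < T) (hw : 1 / T < |w|) :
    T ≤ ∫ t in (0 : ℝ)..T, ‖ch t w - 1‖ ^ 2 := by
  have hw0 : w ≠ 0 := by
    rintro rfl
    rw [abs_zero] at hw
    exact absurd hw (not_lt.2 (by positivity))
  have hwa : 0 < |w| := abs_pos.2 hw0
  have h1 : ∀ t : ℝ, ‖ch t w - 1‖ ^ 2 = 2 - 2 * Real.cos (2 * Real.pi * w * t) := by
    intro t
    have h2 : ch t w = Complex.exp (((2 * Real.pi * w * t : ℝ) : ℂ) * I) := by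
      unfold ch
      congr 1
      push_cast
      ring
    rw [h2]
    generalize 2 * Real.pi * w * t = θ
    rw [← Complex.normSq_eq_norm_sq, Complex.exp_mul_I, ← Complex.ofReal_cos,
      ← Complex.ofReal_sin, Complex.normSq_apply]
    simp only [Complex.sub_re, Complex.add_re, Complex.ofReal_re, Complex.mul_re, Complex.I_re,
      mul_zero, Complex.ofReal_im, Complex.I_im, mul_one, sub_self, add_zero, Complex.one_re,
      Complex.sub_im, Complex.add_im, Complex.mul_im, zero_add, Complex.one_im, sub_zero]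
    have := Real.sin_sq_add_cos_sq θ
    nlinarith
  simp only [h1]
  have hpi := Real.pi_pos
  have h3 : ∫ t in (0 : ℝ)..T, (2 - 2 * Real.cos (2 * Real.pi * w * t)) =
      2 * T - 2 * (Real.sin (2 * Real.pi * w * T) / (2 * Real.pi * w)) := by
    rw [intervalIntegral.integral_sub (by simp) (by
      apply Continuous.intervalIntegrable
      fun_prop), intervalIntegral.integral_const_mul,
      intervalIntegral.integral_comp_mul_left (fun x => Real.cos x) (by positivity)]
    simp
    ring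
  rw [h3]
  have h4 : |Real.sin (2 * Real.pi * w * T) / (2 * Real.pi * w)| ≤ T / 2 := by
    rw [abs_div, abs_mul, abs_of_pos (show 0 < 2 * Real.pi by positivity)]
    rw [div_le_iff₀ (by positivity)]
    have h5 := Real.abs_sin_le_one (2 * Real.pi * w * T)
    have h6 : 1 < T * |w| := by
      rw [div_lt_iff₀ hT] at hw
      linarith
    have h7 := Real.pi_gt_three
    nlinarith
  have h5 := abs_le.1 h4
  linarith

theorem tail {e S : ℝ → LR H →L[ℂ] LR H} {E : ℝ → ℂ → LR H →L[ℂ] LR H}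
    (he : ∀ t, IsMulOp (ch t) (e t))
    (hS : ∀ p, IsShift p (S p)) (hE : ∀ (r : ℝ) (z : ℂ), 0 < r → IsMulOp (mz r z) (E r z))
    (u : LR H) (R δ : ℝ) (hR : 0 < R) (h : ∀ t : ℝ, |t| ≤ 1 / R → ‖e t u - u‖ ≤ δ) :
    ‖u - bx S E (-R) (2 * R) u‖ ≤ 2 * δ := by
  have hδ : 0 ≤ δ := by
    have := h 0 (by rw [abs_zero]; positivity)
    exact (norm_nonneg _).trans this
  set T : ℝ := 1 / R with hT
  have hT0 : 0 < T := by positivity
  -- the integrand
  set φ : ℝ → ℝ → ℝ := fun t w => ‖ch t w - 1‖ ^ 2 * ‖(u : ℝ → H) w‖ ^ 2 with hφ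
  have h1 : ∀ t : ℝ, t ∈ Set.Icc 0 T → ∫ w, φ t w ≤ δ ^ 2 := by
    intro t ht
    have h2 := MulOp.norm_sq_app (MulOp.sub (he t) (mulop_one (H := H))) u
    have h3 : (e t - 1) u = e t u - u := rfl
    rw [h3] at h2
    rw [hφ]
    simp only []
    rw [← h2]
    refine pow_le_pow_left₀ (norm_nonneg _) (h t ?_) 2
    rw [abs_of_nonneg ht.1]
    exact ht.2
  have hint : Integrable (Function.uncurry φ)
      ((volume.restrict (Set.Icc 0 T)).prod (volume : Measure ℝ)) := by
    have h2 : Integrable (fun x : ℝ × ℝ => 4 * ‖(u : ℝ → H) x.2‖ ^ 2)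
        ((volume.restrict (Set.Icc 0 T)).prod (volume : Measure ℝ)) :=
      ((MulOp.int_norm_sq u).comp_snd _).const_mul 4
    refine h2.mono' ?_ (Eventually.of_forall fun x => ?_)
    · have h3 : AEStronglyMeasurable (fun x : ℝ × ℝ => ‖(u : ℝ → H) x.2‖ ^ 2)
          ((volume.restrict (Set.Icc 0 T)).prod (volume : Measure ℝ)) :=
        ((MulOp.int_norm_sq u).comp_snd _).aestronglyMeasurable
      have h4 : Continuous fun x : ℝ × ℝ => ‖ch x.1 x.2 - 1‖ ^ 2 := by
        unfold ch
        fun_prop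
      exact h4.aestronglyMeasurable.mul h3
    · have h3 : ‖ch x.1 x.2 - 1‖ ≤ 2 := by
        have := norm_sub_le (ch x.1 x.2) 1
        rw [norm_one] at this
        linarith [ch_norm x.1 x.2]
      have h4 : ‖ch x.1 x.2 - 1‖ ^ 2 ≤ 4 := by nlinarith [norm_nonneg (ch x.1 x.2 - 1)]
      rw [Real.norm_of_nonneg (by simp only [Function.uncurry, hφ]; positivity)]
      exact mul_le_mul_of_nonneg_right h4 (by positivity)
  -- Fubini
  have hfub := integral_integral_swap hint
  have h2 : ∫ t in Set.Icc 0 T, (∫ w, φ t w) ≤ T * δ ^ 2 := by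
    have h3 : ∫ t in Set.Icc 0 T, (∫ w, φ t w) ≤ ∫ _ in Set.Icc 0 T, δ ^ 2 := by
      refine setIntegral_mono_on ?_ ?_ measurableSet_Icc h1
      · exact hint.integral_prod_left
      · exact integrableOn_const (by simp)
    refine h3.trans ?_
    rw [setIntegral_const, measureReal_def, Real.volume_Icc, sub_zero, ENNReal.toReal_ofReal hT0.le,
      smul_eq_mul]
  rw [hfub] at h2
  -- lower bound
  have h3 : ‖u - bx S E (-R) (2 * R) u‖ ^ 2 =
      ∫ w, ‖1 - ind (-R) R w‖ ^ 2 * ‖(u : ℝ → H) w‖ ^ 2 := by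
    have h4 := bx_mul hS hE (-R) (2 * R) (by positivity)
    have h5 : -R + 2 * R = R := by ring
    rw [h5] at h4
    exact MulOp.norm_sq_app (MulOp.sub (mulop_one (H := H)) h4) u
  have h4 : T * ‖u - bx S E (-R) (2 * R) u‖ ^ 2 ≤ T * δ ^ 2 := by
    refine le_trans ?_ h2
    rw [h3, ← integral_const_mul]
    refine integral_mono_of_nonneg (Eventually.of_forall fun w => by positivity)
      hint.integral_prod_right (Eventually.of_forall fun w => ?_)
    show T * (‖1 - ind (-R) R w‖ ^ 2 * ‖(u : ℝ → H) w‖ ^ 2) ≤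
      ∫ t in Set.Icc 0 T, ‖ch t w - 1‖ ^ 2 * ‖(u : ℝ → H) w‖ ^ 2
    rw [integral_mul_const]
    by_cases hw : w ∈ Set.Icc (-R) R
    · have h5 : ind (-R) R w = 1 := by
        unfold ind
        rw [Set.indicator_of_mem hw]
      rw [h5]
      simp only [sub_self, norm_zero]
      have h6 : 0 ≤ ∫ t in Set.Icc 0 T, ‖ch t w - 1‖ ^ 2 := integral_nonneg fun t => by positivity
      have h7 : (0 : ℝ) ^ 2 = 0 := by norm_num
      rw [h7, zero_mul, mul_zero]
      positivity
    · have h5 : ind (-R) R w = 0 := by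
        unfold ind
        rw [Set.indicator_of_notMem hw]
      rw [h5]
      simp only [sub_zero, norm_one, one_pow, one_mul]
      refine mul_le_mul_of_nonneg_right ?_ (by positivity)
      rw [integral_Icc_eq_integral_Ioc, ← intervalIntegral.integral_of_le hT0.le]
      refine int_lower hT0 ?_
      rw [hT, one_div_one_div]
      by_contra hc
      push Not at hc
      exact hw (abs_le.1 hc)
  have h5 : ‖u - bx S E (-R) (2 * R) u‖ ^ 2 ≤ δ ^ 2 := le_of_mul_le_mul_left h4 hT0
  have h6 := (sq_le_sq₀ (norm_nonneg _) hδ).1 h5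
  linarith

/-- sum of the indicators of consecutive intervals -/
theorem ind_sum {h : ℝ} (hh : 0 < h) {w : ℝ} (hw : ∀ k : ℕ, w ≠ k * h) (n : ℕ) :
    ∑ k ∈ Finset.range n, ind (k * h) (k * h + h) w = ind 0 (n * h) w := by
  induction n with
  | zero =>
    have h0 := hw 0
    unfold ind
    rw [Set.indicator_of_notMem]
    · simp
    · rintro ⟨h1, h2⟩
      apply h0
      rw [Nat.cast_zero, zero_mul] at h2 ⊢
      linarith
  | succ n ih =>
    rw [Finset.sum_range_succ, ih]
    have hn := hw n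
    have hnn : (0 : ℝ) ≤ n * h := by positivity
    have h3 : ((n + 1 : ℕ) : ℝ) * h = n * h + h := by push_cast; ring
    rw [h3]
    unfold ind
    rcases lt_or_gt_of_ne hn with h1 | h1
    · rw [Set.indicator_of_notMem (s := Set.Icc ((n : ℝ) * h) (n * h + h)), add_zero]
      · by_cases h0 : 0 ≤ w
        · rw [Set.indicator_of_mem (Set.mem_Icc.2 ⟨h0, h1.le⟩),
            Set.indicator_of_mem (Set.mem_Icc.2 ⟨h0, by linarith⟩)]
        · rw [Set.indicator_of_notMem, Set.indicator_of_notMem]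
          · exact fun h2 => h0 h2.1
          · exact fun h2 => h0 h2.1
      · exact fun h2 => absurd h2.1 (not_le.2 h1)
    · rw [Set.indicator_of_notMem (s := Set.Icc (0 : ℝ) (n * h)), zero_add]
      · by_cases h0 : w ≤ n * h + h
        · rw [Set.indicator_of_mem (Set.mem_Icc.2 ⟨h1.le, h0⟩),
            Set.indicator_of_mem (Set.mem_Icc.2 ⟨by linarith, h0⟩)]
        · rw [Set.indicator_of_notMem, Set.indicator_of_notMem]
          · exact fun h2 => h0 h2.2
          · exact fun h2 => h0 h2.2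
      · exact fun h2 => absurd h2.2 (not_le.2 h1)

theorem frA : S_FrA := by
  intro H _ _ _
  obtain ⟨κ, hκ⟩ := Pool.Agent.W132.CB.e1 H
  obtain ⟨S, hS, S_zero, S_add, S_star, S_κ⟩ := Pool.Agent.W509.CB.e3 H
  have he' : ∀ t : ℝ, ∃ T : LR H →L[ℂ] LR H, IsMulOp (ch t) T := fun t => by
    obtain ⟨T, hT, -⟩ := Pool.Agent.W227.CB.e2 H (ch t) 1 (ch_meas t) (ch_norm t)
    exact ⟨T, hT⟩
  choose e he using he'
  have hE' : ∀ r : ℝ, ∃ E : ℂ → LR H →L[ℂ] LR H, 0 < r →
      (∀ z : ℂ, IsMulOp (mz r z) (E z)) ∧ Differentiable ℂ E ∧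
      ∀ z : ℂ, ‖E z - E 0‖ ≤ Real.exp (2 * Real.pi * ‖z‖ * r) - 1 := fun r => by
    by_cases hr : 0 < r
    · obtain ⟨E, h1, h2, h3⟩ := Pool.Agent.W685.CB.E4.e4 Pool.Agent.W227.CB.e2
        Pool.Agent.W227.CB.e2b H r hr
      exact ⟨E, fun _ => ⟨h1, h2, h3⟩⟩
    · exact ⟨fun _ => 0, fun h => absurd h hr⟩
  choose E hE using hE'
  have hJ' : ∀ r : ℝ, ∃ J : H →L[ℂ] LR H, 0 < r →
      (∀ v : H, (J v : ℝ → H) =ᵐ[volume] fun w => Set.indicator (Set.Icc 0 r)
        (fun _ => (((Real.sqrt r)⁻¹ : ℝ) : ℂ) • v) w) ∧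
      (∀ v : H, ContinuousLinearMap.adjoint J (J v) = v) ∧
      ∀ f : LR H, ContinuousLinearMap.adjoint J f =
        (((Real.sqrt r)⁻¹ : ℝ) : ℂ) • ∫ w in Set.Icc 0 r, f w := fun r => by
    by_cases hr : 0 < r
    · obtain ⟨J, h1, h2, h3⟩ := Pool.Agent.W554.CB.e5 H r hr
      exact ⟨J, fun _ => ⟨h1, h2, h3⟩⟩
    · exact ⟨0, fun h => absurd h hr⟩
  choose J hJ using hJ'
  have hEm : ∀ (r : ℝ) (z : ℂ), 0 < r → IsMulOp (mz r z) (E r z) := fun r z hr => (hE r hr).1 z
  -- algebra of the characters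
  have e_zero : e 0 = 1 := by
    have := he 0
    rw [ch_zero] at this
    exact MulOp.uq this mulop_one
  have e_add : ∀ s t : ℝ, e (s + t) = e s * e t := fun s t => by
    have h := MulOp.mul (he s) (he t)
    rw [ch_mul] at h
    exact MulOp.uq (he (s + t)) h
  have e_star : ∀ t : ℝ, star (e t) = e (-t) := fun t => by
    refine (Pool.Agent.W227.CB.e2b H).2.1 _ _ _ (he t) ?_
    rw [ch_conj]
    exact he (-t)
  have e_S : ∀ t p : ℝ, e t * S p = Complex.exp (2 * Real.pi * I * t * p) • (S p * e t) := by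
    intro t p
    refine ContinuousLinearMap.ext fun f => Lp.ext ?_
    have h0 : (Complex.exp (2 * Real.pi * I * t * p) • (S p * e t)) f =
      Complex.exp (2 * Real.pi * I * t * p) • (S p (e t f)) := rfl
    have h00 : (e t * S p) f = e t (S p f) := rfl
    rw [h0, h00]
    filter_upwards [he t (S p f), hS p f, Lp.coeFn_smul (Complex.exp (2 * Real.pi * I * t * p))
      (S p (e t f)), hS p (e t f), Pool.Agent.W509.CB.shift_ae p (he t f)] with w h1 h2 h3 h4 h5
    rw [h1, h2, h3, Pi.smul_apply, h4, h5, smul_smul]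
    congr 1
    unfold ch
    rw [← Complex.exp_add]
    congr 1
    push_cast
    ring
  have κ_e : ∀ (y : H →L[ℂ] H) (t : ℝ), κ y * e t = e t * κ y := fun y t =>
    ((Pool.Agent.W227.CB.e2b H).2.2.2 _ y _ _ (he t) (hκ y)).symm
  have κ_S : ∀ (y : H →L[ℂ] H) (p : ℝ), κ y * S p = S p * κ y := fun y p =>
    (S_κ p y _ (hκ y)).symm
  have κ_E : ∀ (y : H →L[ℂ] H) (r : ℝ) (z : ℂ), 0 < r → κ y * E r z = E r z * κ y :=
    fun y r z hr => ((Pool.Agent.W227.CB.e2b H).2.2.2 _ y _ _ (hEm r z hr) (hκ y)).symm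
  have J_iso : ∀ (r : ℝ) (v : H), 0 < r → ContinuousLinearMap.adjoint (J r) (J r v) = v :=
    fun r v hr => (hJ r hr).2.1 v
  have κ_J : ∀ (y : H →L[ℂ] H) (r : ℝ) (v : H), 0 < r → κ y (J r v) = J r (y v) := by
    intro y r v hr
    apply Lp.ext
    filter_upwards [hκ y (J r v), (hJ r hr).1 v, (hJ r hr).1 (y v)] with s h1 h2' h3
    rw [h1, h2', h3]
    by_cases hs : s ∈ Set.Icc 0 r
    · rw [Set.indicator_of_mem hs, Set.indicator_of_mem hs, map_smul]
    · rw [Set.indicator_of_notMem hs, Set.indicator_of_notMem hs, map_zero]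
  have E_add : ∀ (r : ℝ) (z w : ℂ), 0 < r → E r (z + w) = E r z * E r w := fun r z w hr => by
    have h := MulOp.mul (hEm r z hr) (hEm r w hr)
    rw [mz_mul] at h
    exact MulOp.uq (hEm r (z + w) hr) h
  have E_star : ∀ (r : ℝ) (z : ℂ), 0 < r → star (E r z) = E r (-(starRingEnd ℂ z)) :=
    fun r z hr => by
    refine (Pool.Agent.W227.CB.e2b H).2.1 _ _ _ (hEm r z hr) ?_
    rw [mz_conj]
    exact hEm r _ hr
  have E_comm : ∀ T : LR H →L[ℂ] LR H, (∀ t : ℝ, T * e t = e t * T) → ∀ (r : ℝ) (z : ℂ), 0 < r →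
      T * E r z = E r z * T := fun T hT r z hr => MulOp.comm_all he hT (hEm r z hr)
  have e_J : ∀ (r t : ℝ) (v : H), 0 < r → e t (J r v) = E r t (J r v) := by
    intro r t v hr
    apply Lp.ext
    filter_upwards [he t (J r v), hEm r t hr (J r v), (hJ r hr).1 v] with s h1 h2' h3
    rw [h1, h2', h3]
    by_cases hs : s ∈ Set.Icc 0 r
    · rw [mz_mem _ hs]
      rfl
    · rw [Set.indicator_of_notMem hs, smul_zero, smul_zero]
  have E_J : ∀ (r : ℝ) (v : H), 0 < r → E r 0 (J r v) = J r v := by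
    intro r v hr
    apply Lp.ext
    filter_upwards [hEm r 0 hr (J r v), (hJ r hr).1 v] with s h1 h2'
    rw [h1, h2']
    by_cases hs : s ∈ Set.Icc 0 r
    · rw [mz_mem _ hs]
      simp
    · rw [Set.indicator_of_notMem hs, smul_zero]
  have hbx : ∀ p r : ℝ, 0 < r → IsMulOp (ind p (p + r)) (bx S E p r) := fun p r hr =>
    bx_mul hS hEm p r hr
  have box_E : ∀ (p r r' : ℝ) (z : ℂ), 0 < r → 0 ≤ p → p + r ≤ r' →
      bx S E p r * E r' z = Complex.exp (2 * Real.pi * I * z * p) • (S p * E r z * S (-p)) := by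
    intro p r r' z hr hp hpr
    have h1 := MulOp.mul (hbx p r hr) (hEm r' z (by linarith))
    have h2 := MulOp.smul (Complex.exp (2 * Real.pi * I * z * p))
      (MulOp.shift (hEm r z hr) (hS p) (hS (-p)))
    have h3 : (fun s => ind p (p + r) s * mz r' z s) =
        fun s => Complex.exp (2 * Real.pi * I * z * p) * mz r z (s - p) := by
      funext w
      unfold ind
      by_cases hw : w ∈ Set.Icc p (p + r)
      · rw [Set.indicator_of_mem hw, mz_mem z ⟨by linarith [hw.1], by linarith [hw.2]⟩,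
          mz_mem z ⟨by linarith [hw.1], by linarith [hw.2]⟩, one_mul, ← Complex.exp_add]
        congr 1
        push_cast
        ring
      · rw [Set.indicator_of_notMem hw, zero_mul, mz_not z, mul_zero]
        intro h
        exact hw ⟨by linarith [h.1], by linarith [h.2]⟩
    rw [h3] at h1
    exact MulOp.uq h1 h2
  have box_J : ∀ (p r r' : ℝ) (v : H), 0 < r → 0 ≤ p → p + r ≤ r' →
      bx S E p r (J r' v) = ((Real.sqrt (r / r') : ℝ) : ℂ) • S p (J r v) := by
    intro p r r' v hr hp hpr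
    have hr' : 0 < r' := by linarith
    apply Lp.ext
    filter_upwards [hbx p r hr (J r' v), (hJ r' hr').1 v, hS p (J r v),
      Pool.Agent.W509.CB.shift_ae p ((hJ r hr).1 v),
      Lp.coeFn_smul ((Real.sqrt (r / r') : ℝ) : ℂ) (S p (J r v))] with w h1 h2 h3 h4 h5
    rw [h1, h2, h5, Pi.smul_apply, h3, h4]
    unfold ind
    by_cases hw : w ∈ Set.Icc p (p + r)
    · rw [Set.indicator_of_mem hw,
        Set.indicator_of_mem (Set.mem_Icc.2 ⟨by linarith [hw.1], by linarith [hw.2]⟩),
        Set.indicator_of_mem (Set.mem_Icc.2 ⟨by linarith [hw.1], by linarith [hw.2]⟩),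
        one_smul, smul_smul]
      congr 1
      rw [← Complex.ofReal_mul, Real.sqrt_div hr.le]
      congr 1
      have h6 : Real.sqrt r ≠ 0 := (Real.sqrt_pos.2 hr).ne'
      field_simp
    · rw [Set.indicator_of_notMem hw, zero_smul, Set.indicator_of_notMem, smul_zero]
      intro h
      exact hw ⟨by linarith [h.1], by linarith [h.2]⟩
  have box_orth : ∀ p q r r' : ℝ, 0 < r → 0 < r' → p + r ≤ q →
      bx S E p r * bx S E q r' = 0 := by
    intro p q r r' hr hr' hpq
    refine MulOp.uq_ae (MulOp.mul (hbx p r hr) (hbx q r' hr')) MulOp.zero ?_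
    have h1 : ∀ᵐ w ∂(volume : Measure ℝ), w ≠ q := by
      have := (Set.countable_singleton q).ae_notMem (volume : Measure ℝ)
      filter_upwards [this] with w hw
      exact hw
    filter_upwards [h1] with w hw
    unfold ind
    rcases lt_or_gt_of_ne hw with h2 | h2
    · rw [Set.indicator_of_notMem (s := Set.Icc q (q + r')), mul_zero]
      exact fun h => absurd h.1 (not_le.2 h2)
    · rw [Set.indicator_of_notMem (s := Set.Icc p (p + r)), zero_mul]
      exact fun h => absurd (h.2.trans hpq) (not_le.2 h2)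
  have box_sum : ∀ (r : ℝ) (n : ℕ), 0 < r → 0 < n →
      E r 0 = ∑ k ∈ Finset.range n, bx S E (k * (r / n)) (r / n) := by
    intro r n hr hn
    have hh : 0 < r / n := by positivity
    refine MulOp.uq_ae (hEm r 0 hr)
      (MulOp.sum (Finset.range n) fun k _ => hbx (k * (r / n)) (r / n) hh) ?_
    have h1 := (Set.countable_range (fun k : ℕ => (k : ℝ) * (r / n))).ae_notMem
      (volume : Measure ℝ)
    filter_upwards [h1] with w hw
    rw [ind_sum hh (fun k hk => hw ⟨k, hk.symm⟩) n, mz_zero]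
    have h2 : (n : ℝ) * (r / n) = r := by
      have : (n : ℝ) ≠ 0 := by positivity
      field_simp
    rw [h2]
    rfl
  have Ja_e : ∀ (r t : ℝ) (u : LR H), 0 < r → ContinuousLinearMap.adjoint (J r) (e (-t) u) =
      ContinuousLinearMap.adjoint (J r) (E r ((-t : ℝ) : ℂ) u) := by
    intro r t u hr
    refine ext_inner_left ℂ fun v => ?_
    rw [ContinuousLinearMap.adjoint_inner_right, ContinuousLinearMap.adjoint_inner_right,
      ← e_star, ContinuousLinearMap.star_eq_adjoint, ContinuousLinearMap.adjoint_inner_right,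
      e_J r t v hr, ← ContinuousLinearMap.adjoint_inner_right (E r t),
      ← ContinuousLinearMap.star_eq_adjoint, E_star r t hr, Complex.conj_ofReal]
    push_cast
    rfl
  have fourier : ∀ (r : ℝ), 0 < r → ∀ u : LR H, HasSum (fun m : ℤ => e ((m : ℝ) / r)
      (J r (ContinuousLinearMap.adjoint (J r) (e (-((m : ℝ) / r)) u)))) (E r 0 u) := by
    intro r hr u
    have h1 := (Pool.Agent.W821.CB.e6 H r hr (E r) (J r) (hE r hr).1 (hJ r hr).1 (hJ r hr).2.1
      (hJ r hr).2.2).2 u
    refine h1.congr_fun fun m => ?_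
    rw [e_J r _ _ hr, Ja_e r _ u hr, div_eq_mul_one_div]
  have P : Flat.Pre e S J E := ⟨e_add, S_zero, S_add, S_star, e_S, J_iso, E_add, E_star,
    fun r z hr => (hE r hr).2.2 z,
    fun r z t hr => E_comm (e t) (fun s => by rw [← e_add, ← e_add, add_comm]) r z hr,
    e_J, E_J, box_E, box_J, box_orth, box_sum, fourier⟩
  refine ⟨κ, e, S, J, E, ?_, hκ, he, hS, hEm, fun r v hr => (hJ r hr).1 v⟩
  exact
    { e_zero := e_zero
      e_add := e_add
      e_star := e_star
      e_cont := e_cont he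
      S_zero := S_zero
      S_add := S_add
      S_star := S_star
      S_cont := S_cont he hS
      e_S := e_S
      κ_e := κ_e
      κ_S := κ_S
      κ_E := κ_E
      J_iso := J_iso
      κ_J := κ_J
      E_add := E_add
      E_star := E_star
      E_diff := fun r hr => (hE r hr).2.1
      E_norm := fun r z hr => (hE r hr).2.2 z
      E_comm := E_comm
      e_J := e_J
      E_J := E_J
      box_E := box_E
      box_J := box_J
      box_orth := box_orth
      box_sum := box_sum
      fourier := fourier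
      flat := fun r hr u => Flat.flat P hr u
      exhaust := exhaust hS hEm
      tail := tail he hS hEm }

end

end Pool.Agent.H75.BC.FrA
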