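import Pool.Agent.H75.BC.Stmts2
import Pool.Agent.H75.L.W672.CB.E8

/-!
BIC FR2: transport of a frame by a unitary (helper89).
-/

set_option autoImplicit false

open MeasureTheory Filter Topology Complex
open scoped InnerProductSpace ENNReal

namespace Pool.Agent.H75.BC.FrB

open Pool.Agent.W662.CB Pool.Agent.H75.BC Pool.Agent.W672.CB

noncomputable section

section

variable {K L : Type} [NormedAddCommGroup K] [InnerProductSpace ℂ K] [CompleteSpace K]
  [NormedAddCommGroup L] [InnerProductSpace ℂ L] [CompleteSpace L]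

theorem cj_one (Φ : L ≃ₗᵢ[ℂ] K) : cj Φ (1 : K →L[ℂ] K) = 1 := by
  ext f
  rw [cj_apply, one_apply_eq_self, LinearIsometryEquiv.symm_apply_apply]
  rfl

theorem cj_zero (Φ : L ≃ₗᵢ[ℂ] K) : cj Φ (0 : K →L[ℂ] K) = 0 := by
  ext f
  rw [cj_apply]
  show Φ.symm 0 = 0
  rw [map_zero]

theorem cj_smul (Φ : L ≃ₗᵢ[ℂ] K) (c : ℂ) (A : K →L[ℂ] K) : cj Φ (c • A) = c • cj Φ A := by
  ext f
  rw [cj_apply]
  show Φ.symm (c • A (Φ f)) = c • cj Φ A f
  rw [map_smul, cj_apply]

theorem cj_sum (Φ : L ≃ₗᵢ[ℂ] K) {ι : Type*} (s : Finset ι) (A : ι → K →L[ℂ] K) :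
    cj Φ (∑ i ∈ s, A i) = ∑ i ∈ s, cj Φ (A i) := by
  ext f
  rw [cj_apply, sum_apply, sum_apply, map_sum]
  rfl

end

theorem frB : S_FrB := by
  intro H K L _ _ _ _ _ _ _ _ _ κ e S J E F κ' e' S' Φ hκ he hS
  let J' : ℝ → H →L[ℂ] L := fun r => (Φ.symm.toContinuousLinearEquiv : K →L[ℂ] L) ∘L J r
  let E' : ℝ → ℂ → L →L[ℂ] L := fun r z => cj Φ (E r z)
  have hJ' : ∀ r v, J' r v = Φ.symm (J r v) := fun r v => rfl
  have hE' : ∀ r z, E' r z = cj Φ (E r z) := fun r z => rfl
  have hκ' : ∀ y, κ' y = cj Φ (κ y) := by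
    intro y
    ext f
    apply Φ.injective
    rw [hκ, Phi_cj]
  have he' : ∀ t, e' t = cj Φ (e t) := by
    intro t
    ext f
    apply Φ.injective
    rw [he, Phi_cj]
  have hS' : ∀ t, S' t = cj Φ (S t) := by
    intro t
    ext f
    apply Φ.injective
    rw [hS, Phi_cj]
  have hadj : ∀ (r : ℝ) (f : L), ContinuousLinearMap.adjoint (J' r) f =
      ContinuousLinearMap.adjoint (J r) (Φ f) := by
    intro r f
    apply ext_inner_right ℂ
    intro v
    rw [ContinuousLinearMap.adjoint_inner_left, ContinuousLinearMap.adjoint_inner_left, hJ',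
      ← Φ.inner_map_map, LinearIsometryEquiv.apply_symm_apply]
  have hbx : ∀ p r : ℝ, bx S' E' p r = cj Φ (bx S E p r) := by
    intro p r
    unfold bx
    rw [hS', hS', hE', cj_mul, cj_mul]
  refine ⟨J', E', ?_, fun r v => by rw [hJ', LinearIsometryEquiv.apply_symm_apply],
    fun r z f => Phi_cj Φ (E r z) f⟩
  constructor
  · rw [he', F.e_zero, cj_one]
  · intro s t
    rw [he', he', he', F.e_add, cj_mul]
  · intro t
    rw [he', he', cj_star, F.e_star]
  · intro f
    have : (fun t : ℝ => e' t f) = fun t => Φ.symm (e t (Φ f)) := by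
      funext t
      rw [he']
      rfl
    rw [this]
    exact Φ.symm.continuous.comp (F.e_cont (Φ f))
  · rw [hS', F.S_zero, cj_one]
  · intro s t
    rw [hS', hS', hS', F.S_add, cj_mul]
  · intro t
    rw [hS', hS', cj_star, F.S_star]
  · intro f
    have : (fun t : ℝ => S' t f) = fun t => Φ.symm (S t (Φ f)) := by
      funext t
      rw [hS']
      rfl
    rw [this]
    exact Φ.symm.continuous.comp (F.S_cont (Φ f))
  · intro t p
    rw [he', hS', ← cj_mul, ← cj_mul, ← cj_smul, F.e_S]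
  · intro y t
    rw [hκ', he', ← cj_mul, ← cj_mul, F.κ_e]
  · intro y p
    rw [hκ', hS', ← cj_mul, ← cj_mul, F.κ_S]
  · intro y r z hr
    rw [hκ', hE', ← cj_mul, ← cj_mul, F.κ_E y r z hr]
  · intro r v hr
    rw [hadj, hJ', LinearIsometryEquiv.apply_symm_apply, F.J_iso r v hr]
  · intro y r v hr
    rw [hκ', hJ', hJ', cj_symm, F.κ_J y r v hr]
  · intro r z w hr
    rw [hE', hE', hE', F.E_add r z w hr, cj_mul]
  · intro r z hr
    rw [hE', hE', cj_star, F.E_star r z hr]
  · intro r hr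
    exact (differentiable_const _).clm_comp ((F.E_diff r hr).clm_comp (differentiable_const _))
  · intro r z hr
    rw [hE', hE', ← cj_sub]
    exact (cj_norm Φ _).trans (F.E_norm r z hr)
  · intro T hT r z hr
    -- conjugate `T` to `K`
    have h1 : T = cj Φ (cj Φ.symm T) := by
      ext f
      rw [cj_apply, cj_apply, LinearIsometryEquiv.symm_symm,
        LinearIsometryEquiv.symm_apply_apply, LinearIsometryEquiv.symm_apply_apply]
    have h2 : ∀ A B : K →L[ℂ] K, cj Φ A = cj Φ B → A = B := by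
      intro A B hAB
      ext f
      have h3 : Φ (cj Φ A (Φ.symm f)) = Φ (cj Φ B (Φ.symm f)) := by rw [hAB]
      rw [Phi_cj, Phi_cj, LinearIsometryEquiv.apply_symm_apply] at h3
      exact h3
    rw [h1, hE', ← cj_mul, ← cj_mul, F.E_comm (cj Φ.symm T) (fun t => ?_) r z hr]
    apply h2
    rw [cj_mul, cj_mul, ← h1, ← he', hT t]
  · intro r t v hr
    rw [he', hJ', hE', cj_symm, cj_symm, F.e_J r t v hr]
  · intro r v hr
    rw [hE', hJ', cj_symm, F.E_J r v hr]
  · intro p r r' z hr hp hpr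
    rw [hbx, hE', hS', hE', hS', ← cj_mul, ← cj_mul, ← cj_mul, ← cj_smul, F.box_E p r r' z hr hp hpr]
  · intro p r r' v hr hp hpr
    rw [hbx, hJ', hS', hJ', cj_symm, cj_symm, F.box_J p r r' v hr hp hpr, map_smul]
  · intro p q r r' hr hr' hpq
    rw [hbx, hbx, ← cj_mul, F.box_orth p q r r' hr hr' hpq, cj_zero]
  · intro r n hr hn
    rw [hE', F.box_sum r n hr hn, cj_sum]
    exact Finset.sum_congr rfl fun k _ => (hbx _ _).symm
  · intro r hr u
    have h1 := (F.fourier r hr (Φ u)).mapL (Φ.symm.toContinuousLinearEquiv : K →L[ℂ] L)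
    have h2 : ∀ m : ℤ, e' ((m : ℝ) / r) (J' r (ContinuousLinearMap.adjoint (J' r)
        (e' (-((m : ℝ) / r)) u))) = Φ.symm (e ((m : ℝ) / r)
        (J r (ContinuousLinearMap.adjoint (J r) (e (-((m : ℝ) / r)) (Φ u))))) := by
      intro m
      rw [hadj, he', he', hJ', Phi_cj, cj_symm]
    simp_rw [h2]
    exact h1
  · intro r hr u
    have h1 := ((Φ.symm.continuous.tendsto _).comp (F.flat r hr (Φ u)))
    have h3 : (Φ.symm (E r 0 (Φ u))) = E' r 0 u := rfl
    rw [h3] at h1
    refine h1.congr fun n => ?_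
    simp only [Function.comp]
    rw [map_sum]
    refine Finset.sum_congr rfl fun k _ => ?_
    rw [hadj, hS', hS', hJ', Phi_cj, cj_symm]
  · intro u
    have h1 := ((Φ.symm.continuous.tendsto _).comp (F.exhaust (Φ u)))
    rw [LinearIsometryEquiv.symm_apply_apply] at h1
    refine h1.congr fun R => ?_
    rw [hbx]
    rfl
  · intro u R δ hR h
    rw [hbx, ← Φ.norm_map, map_sub, Phi_cj]
    refine F.tail (Φ u) R δ hR fun t ht => ?_
    have h1 := h t ht
    rw [← Φ.norm_map, map_sub, he] at h1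
    exact h1

end

end Pool.Agent.H75.BC.FrB
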