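import Pool.Agent.H75.BC.T.MulOp

/-!
FR3: the unitary `(W f)(s) = U(-s) f(s)` (helper69).
-/

set_option autoImplicit false

open MeasureTheory Filter Topology Complex
open scoped InnerProductSpace ENNReal

namespace Pool.Agent.H75.BC.FrW

open Pool.Agent.W662.CB Pool.Agent.H75.BC

noncomputable section

variable {H : Type} [NormedAddCommGroup H] [InnerProductSpace ℂ H] [CompleteSpace H]

theorem joint_cont {V : ℝ → H →L[ℂ] H} (hV : ∀ s v, ‖V s v‖ = ‖v‖)
    (hc : ∀ v, Continuous fun s => V s v) : Continuous fun p : ℝ × H => V p.1 p.2 := by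
  rw [continuous_iff_continuousAt]
  rintro ⟨s0, v0⟩
  have h1 : Tendsto (fun p : ℝ × H => V p.1 (p.2 - v0)) (𝓝 (s0, v0)) (𝓝 0) := by
    rw [tendsto_zero_iff_norm_tendsto_zero]
    simp only [hV]
    have h2 : Continuous fun p : ℝ × H => ‖p.2 - v0‖ := by fun_prop
    have h3 := h2.tendsto (s0, v0)
    simpa using h3
  have h4 : Tendsto (fun p : ℝ × H => V p.1 v0) (𝓝 (s0, v0)) (𝓝 (V s0 v0)) :=
    ((hc v0).comp continuous_fst).tendsto (s0, v0)
  have h5 := h1.add h4
  rw [zero_add] at h5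
  refine h5.congr fun p => ?_
  rw [map_sub]; abel

theorem aesm {V : ℝ → H →L[ℂ] H} (hV : ∀ s v, ‖V s v‖ = ‖v‖)
    (hc : ∀ v, Continuous fun s => V s v) (f : LR H) :
    AEStronglyMeasurable (fun s : ℝ => V s (f s)) volume :=
  (joint_cont hV hc).comp_aestronglyMeasurable
    (aestronglyMeasurable_id.prodMk (Lp.aestronglyMeasurable f))

theorem memLp {V : ℝ → H →L[ℂ] H} (hV : ∀ s v, ‖V s v‖ = ‖v‖)
    (hc : ∀ v, Continuous fun s => V s v) (f : LR H) :
    MemLp (fun s : ℝ => V s (f s)) 2 volume :=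
  (Lp.memLp f).congr_norm (aesm hV hc f) (Eventually.of_forall fun s => (hV s _).symm)

/-- the operator `(T f)(s) = V_s f(s)` -/
theorem tw {V : ℝ → H →L[ℂ] H} (hV : ∀ s v, ‖V s v‖ = ‖v‖)
    (hc : ∀ v, Continuous fun s => V s v) :
    ∃ T : LR H →L[ℂ] LR H, (∀ f : LR H, (T f : ℝ → H) =ᵐ[volume] fun s => V s (f s)) := by
  let T0 : LR H →ₗᵢ[ℂ] LR H :=
    { toFun := fun f => (memLp hV hc f).toLp _
      map_add' := by
        intro f g
        rw [← MemLp.toLp_add]
        apply MemLp.toLp_congr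
        filter_upwards [Lp.coeFn_add f g] with s hs
        simp only [Pi.add_apply]
        rw [hs, Pi.add_apply, map_add]
      map_smul' := by
        intro c f
        rw [RingHom.id_apply, ← MemLp.toLp_const_smul]
        apply MemLp.toLp_congr
        filter_upwards [Lp.coeFn_smul c f] with s hs
        simp only [Pi.smul_apply]
        rw [hs, Pi.smul_apply, map_smul]
      norm_map' := by
        intro f
        change ‖(memLp hV hc f).toLp _‖ = ‖f‖
        rw [Lp.norm_toLp, Lp.norm_def]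
        congr 1
        apply eLpNorm_congr_norm_ae
        exact Eventually.of_forall fun s => hV s _ }
  refine ⟨T0.toContinuousLinearMap, fun f => ?_⟩
  exact MemLp.coeFn_toLp (memLp hV hc f)

theorem adj {V V' : ℝ → H →L[ℂ] H} (h : ∀ s, star (V s) = V' s) {T T' : LR H →L[ℂ] LR H}
    (hT : ∀ f : LR H, (T f : ℝ → H) =ᵐ[volume] fun s => V s (f s))
    (hT' : ∀ f : LR H, (T' f : ℝ → H) =ᵐ[volume] fun s => V' s (f s)) : star T = T' := by
  rw [ContinuousLinearMap.star_eq_adjoint, eq_comm, ContinuousLinearMap.eq_adjoint_iff]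
  intro f g
  rw [L2.inner_def, L2.inner_def]
  refine integral_congr_ae ?_
  filter_upwards [hT' f, hT g] with s h1 h2
  rw [h1, h2, ← h, ContinuousLinearMap.star_eq_adjoint, ContinuousLinearMap.adjoint_inner_left]

/-- quasi-invariance -/
theorem shp {p q : ℝ → H} (t : ℝ) (h : p =ᵐ[volume] q) :
    (fun s => p (s + t)) =ᵐ[volume] fun s => q (s + t) :=
  (measurePreserving_add_right (volume : Measure ℝ) t).quasiMeasurePreserving.ae_eq_comp h

theorem frW : S_FrW := by
  intro H _ _ _ U hU0 hUa hUs hUc κ e S hκ he hS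
  have hUU : ∀ s, U (-s) * U s = 1 := fun s => by rw [← hUa, neg_add_cancel, hU0]
  have hUU' : ∀ s, U s * U (-s) = 1 := fun s => by rw [← hUa, add_neg_cancel, hU0]
  have hUUa : ∀ s v, U (-s) (U s v) = v := fun s v => by
    have := congrArg (fun T : H →L[ℂ] H => T v) (hUU s)
    simpa using this
  have hUUb : ∀ s v, U s (U (-s) v) = v := fun s v => by
    have := congrArg (fun T : H →L[ℂ] H => T v) (hUU' s)
    simpa using this
  have hUab : ∀ s t v, U (s + t) v = U s (U t v) := fun s t v => by rw [hUa]; rfl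
  have hUn : ∀ s v, ‖U s v‖ = ‖v‖ := by
    intro s v
    have h1 : ⟪U s v, U s v⟫_ℂ = ⟪v, v⟫_ℂ := by
      rw [← ContinuousLinearMap.adjoint_inner_right (U s) v (U s v),
        ← ContinuousLinearMap.star_eq_adjoint, hUs, hUUa]
    rw [inner_self_eq_norm_sq_to_K, inner_self_eq_norm_sq_to_K] at h1
    have h2 : ‖U s v‖ ^ 2 = ‖v‖ ^ 2 := by exact_mod_cast h1
    exact (sq_eq_sq₀ (norm_nonneg _) (norm_nonneg _)).1 h2
  obtain ⟨W, hW⟩ := tw (V := fun s => U (-s)) (fun s v => hUn (-s) v)
    (fun v => (hUc v).comp continuous_neg)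
  obtain ⟨W', hW'⟩ := tw (V := U) hUn hUc
  have hWs : star W = W' := adj (fun s => by rw [hUs, neg_neg]) hW hW'
  have he' : ∀ (t : ℝ) (f : LR H), (e t f : ℝ → H) =ᵐ[volume] fun s => f (s + t) := by
    intro t f
    have h1 := he (-t) f
    rw [neg_neg] at h1
    filter_upwards [h1] with s hs
    rw [hs, sub_neg_eq_add]
  refine ⟨W, hW, ?_, ?_, ?_, ?_, ?_, ?_, ?_, ?_, ?_⟩
  · rw [hWs]; exact hW'
  · rw [hWs]
    refine ContinuousLinearMap.ext fun f => Lp.ext ?_
    rw [mul_apply_eq_comp, one_apply_eq_self]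
    filter_upwards [hW' (W f), hW f] with s h1 h2
    rw [h1, h2, hUUb]
  · rw [hWs]
    refine ContinuousLinearMap.ext fun f => Lp.ext ?_
    rw [mul_apply_eq_comp, one_apply_eq_self]
    filter_upwards [hW (W' f), hW' f] with s h1 h2
    rw [h1, h2, hUUa]
  · intro p
    refine ContinuousLinearMap.ext fun f => Lp.ext ?_
    rw [mul_apply_eq_comp, mul_apply_eq_comp]
    filter_upwards [hW (S p f), hS p f, hS p (W f), hW f] with s h1 h2 h3 h4
    rw [h1, h2, h3, h4, map_smul]
  · intro t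
    rw [hWs]
    refine ContinuousLinearMap.ext fun f => Lp.ext ?_
    rw [mul_apply_eq_comp, mul_apply_eq_comp, mul_apply_eq_comp]
    filter_upwards [hW' (e t (W f)), he' t (W f), shp t (hW f), hκ (U (-t)) (e t f), he' t f]
      with s h1 h2 h3 h4 h5
    rw [h1, h2, h3, h4, h5]
    have h6 : -(s + t) = -s + -t := by ring
    rw [h6, hUab, hUUb]
  · intro t
    refine ContinuousLinearMap.ext fun f => Lp.ext ?_
    rw [mul_apply_eq_comp, mul_apply_eq_comp]
    filter_upwards [hW (κ (U t) f), hκ (U t) f, hκ (U t) (W f), hW f] with s h1 h2 h3 h4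
    rw [h1, h2, h3, h4, ← hUab, ← hUab, add_comm]
  · intro y y' hyy
    rw [hWs]
    refine ContinuousLinearMap.ext fun f => Lp.ext ?_
    simp only [mul_apply_eq_comp]
    filter_upwards [hW (κ y (W' (κ y' f))), hκ y (W' (κ y' f)), hW' (κ y' f), hκ y' f,
      hκ y' (W (κ y (W' f))), hW (κ y (W' f)), hκ y (W' f), hW' f] with s h1 h2 h3 h4 h5 h6 h7 h8
    rw [h1, h2, h3, h4, h5, h6, h7, h8]
    have := congrArg (fun T : H →L[ℂ] H => T (f s)) (hyy s)
    simpa [mul_apply_eq_comp] using this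
  · intro a p C ha hconv f
    rw [hWs]
    have hpt : ∀ n, ((W * κ (a n) * W' - κ (a n) * S p) f : ℝ → H) =ᵐ[volume] fun s =>
        (U (-s) * a n * U s - Complex.exp (2 * Real.pi * I * p * s) • a n) (f s) := by
      intro n
      have h0 : (W * κ (a n) * W' - κ (a n) * S p) f =
          W (κ (a n) (W' f)) - κ (a n) (S p f) := rfl
      rw [h0]
      filter_upwards [Lp.coeFn_sub (W (κ (a n) (W' f))) (κ (a n) (S p f)), hW (κ (a n) (W' f)),
        hκ (a n) (W' f), hW' f, hκ (a n) (S p f), hS p f] with s h1 h2 h3 h4 h5 h6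
      rw [h1, Pi.sub_apply, h2, h3, h4, h5, h6]
      simp [mul_apply_eq_comp, map_smul]
    have hC : 0 ≤ C := (norm_nonneg _).trans (ha 0)
    have hnb : ∀ n (s : ℝ) (v : H),
        ‖(U (-s) * a n * U s - Complex.exp (2 * Real.pi * I * p * s) • a n) v‖ ≤ 2 * C * ‖v‖ := by
      intro n s v
      have h1 : (U (-s) * a n * U s - Complex.exp (2 * Real.pi * I * p * s) • a n) v =
          U (-s) (a n (U s v)) - Complex.exp (2 * Real.pi * I * p * s) • a n v := rfl
      rw [h1]
      have h2 : ‖U (-s) (a n (U s v))‖ ≤ C * ‖v‖ := by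
        rw [hUn]
        calc ‖a n (U s v)‖ ≤ ‖a n‖ * ‖U s v‖ := (a n).le_opNorm _
          _ ≤ C * ‖v‖ := by rw [hUn]; exact mul_le_mul_of_nonneg_right (ha n) (norm_nonneg _)
      have h3 : ‖Complex.exp (2 * Real.pi * I * p * s) • a n v‖ ≤ C * ‖v‖ := by
        have h4 : ‖Complex.exp (2 * Real.pi * I * p * s)‖ = 1 := by
          have : 2 * Real.pi * I * p * s = ((2 * Real.pi * p * s : ℝ) : ℂ) * I := by
            push_cast; ring
          rw [this, Complex.norm_exp_ofReal_mul_I]
        rw [norm_smul, h4, one_mul]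
        exact ((a n).le_opNorm _).trans (mul_le_mul_of_nonneg_right (ha n) (norm_nonneg _))
      calc _ ≤ ‖U (-s) (a n (U s v))‖ + ‖Complex.exp (2 * Real.pi * I * p * s) • a n v‖ :=
            norm_sub_le _ _
        _ ≤ C * ‖v‖ + C * ‖v‖ := add_le_add h2 h3
        _ = 2 * C * ‖v‖ := by ring
    have hsq : ∀ n, ‖(W * κ (a n) * W' - κ (a n) * S p) f‖ ^ 2 =
        ∫ s, ‖((W * κ (a n) * W' - κ (a n) * S p) f : ℝ → H) s‖ ^ 2 := fun n => MulOp.norm_sq _
    have hlim : Tendsto (fun n => ∫ s, ‖((W * κ (a n) * W' - κ (a n) * S p) f : ℝ → H) s‖ ^ 2)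
        atTop (𝓝 (∫ _ : ℝ, (0 : ℝ))) := by
      refine tendsto_integral_filter_of_dominated_convergence
        (fun s => (2 * C) ^ 2 * ‖(f : ℝ → H) s‖ ^ 2) ?_ ?_ ?_ ?_
      · refine Eventually.of_forall fun n => ?_
        exact (MulOp.int_norm_sq _).aestronglyMeasurable
      · refine Eventually.of_forall fun n => ?_
        filter_upwards [hpt n] with s hs
        rw [hs, Real.norm_of_nonneg (by positivity), ← mul_pow]
        exact pow_le_pow_left₀ (norm_nonneg _) (hnb n s _) 2
      · exact (MulOp.int_norm_sq f).const_mul _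
      · have hall : ∀ᵐ s : ℝ, ∀ n, ((W * κ (a n) * W' - κ (a n) * S p) f : ℝ → H) s =
            (U (-s) * a n * U s - Complex.exp (2 * Real.pi * I * p * s) • a n) (f s) :=
          ae_all_iff.2 hpt
        filter_upwards [hall] with s hs
        simp only [hs]
        have h1 := (tendsto_zero_iff_norm_tendsto_zero.1 (hconv s (f s))).pow 2
        simpa using h1
    have h3 : Tendsto (fun n => ‖(W * κ (a n) * W' - κ (a n) * S p) f‖ ^ 2) atTop (𝓝 0) := by
      simp only [hsq]
      simpa using hlim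
    have h4 := (Real.continuous_sqrt.tendsto 0).comp h3
    rw [Real.sqrt_zero] at h4
    rw [tendsto_zero_iff_norm_tendsto_zero]
    refine h4.congr fun n => ?_
    simp only [Function.comp]
    exact Real.sqrt_sq (norm_nonneg _)
  · intro y f
    rw [hWs]
    simp only [mul_apply_eq_comp]
    filter_upwards [hW (κ y (W' f)), hκ y (W' f), hW' f] with s h1 h2 h3
    rw [h1, h2, h3]

end

end Pool.Agent.H75.BC.FrW
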