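import Pool.Agent.H75.BC.Stmts2
import Pool.Agent.H75.L.W227.CB.E2
import Pool.Agent.H75.L.W509.CB.E3
import Pool.Agent.H75.L.W748.CB.E10
import Pool.Agent.H75.L.W919.CB.E7

/-!
BIC: tools for multiplication operators on `L²(ℝ; H)` (helper89).
-/

set_option autoImplicit false

open MeasureTheory Filter Topology Complex
open scoped InnerProductSpace ENNReal

namespace Pool.Agent.H75.BC.MulOp

open Pool.Agent.W662.CB Pool.Agent.H75.BC Pool.Agent.W919.CB

noncomputable section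

variable {H : Type} [NormedAddCommGroup H] [InnerProductSpace ℂ H] [CompleteSpace H]

theorem uq {g : ℝ → ℂ} {T T' : LR H →L[ℂ] LR H} (h : IsMulOp g T) (h' : IsMulOp g T') : T = T' :=
  (Pool.Agent.W227.CB.e2b H).1 g T T' h h'

theorem congr_ae {g g' : ℝ → ℂ} {T : LR H →L[ℂ] LR H} (h : IsMulOp g T) (hg : g =ᵐ[volume] g') :
    IsMulOp g' T := by
  intro f
  filter_upwards [h f, hg] with s h1 h2
  rw [h1, h2]

theorem uq_ae {g g' : ℝ → ℂ} {T T' : LR H →L[ℂ] LR H} (h : IsMulOp g T) (h' : IsMulOp g' T')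
    (hg : g =ᵐ[volume] g') : T = T' :=
  uq (congr_ae h hg) h'

theorem mul {g g' : ℝ → ℂ} {T T' : LR H →L[ℂ] LR H} (h : IsMulOp g T) (h' : IsMulOp g' T') :
    IsMulOp (fun s => g s * g' s) (T * T') :=
  (Pool.Agent.W227.CB.e2b H).2.2.1 g g' T T' h h'

theorem smul {g : ℝ → ℂ} {T : LR H →L[ℂ] LR H} (c : ℂ) (h : IsMulOp g T) :
    IsMulOp (fun s => c * g s) (c • T) := by
  intro f
  have h1 : (c • T) f = c • T f := rfl
  rw [h1]
  filter_upwards [Lp.coeFn_smul c (T f), h f] with s e1 e2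
  rw [e1, Pi.smul_apply, e2, smul_smul]

theorem add {g g' : ℝ → ℂ} {T T' : LR H →L[ℂ] LR H} (h : IsMulOp g T) (h' : IsMulOp g' T') :
    IsMulOp (fun s => g s + g' s) (T + T') := by
  intro f
  have h1 : (T + T') f = T f + T' f := rfl
  rw [h1]
  filter_upwards [Lp.coeFn_add (T f) (T' f), h f, h' f] with s e1 e2 e3
  rw [e1, Pi.add_apply, e2, e3, add_smul]

theorem sub {g g' : ℝ → ℂ} {T T' : LR H →L[ℂ] LR H} (h : IsMulOp g T) (h' : IsMulOp g' T') :
    IsMulOp (fun s => g s - g' s) (T - T') := by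
  intro f
  have h1 : (T - T') f = T f - T' f := rfl
  rw [h1]
  filter_upwards [Lp.coeFn_sub (T f) (T' f), h f, h' f] with s e1 e2 e3
  rw [e1, Pi.sub_apply, e2, e3, sub_smul]

theorem zero : IsMulOp (fun _ => (0 : ℂ)) (0 : LR H →L[ℂ] LR H) := by
  intro f
  have h1 : (0 : LR H →L[ℂ] LR H) f = 0 := rfl
  rw [h1]
  filter_upwards [Lp.coeFn_zero H 2 (volume : Measure ℝ)] with s e1
  rw [e1, zero_smul]
  rfl

theorem sum {ι : Type*} (s : Finset ι) {g : ι → ℝ → ℂ} {T : ι → LR H →L[ℂ] LR H}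
    (h : ∀ i ∈ s, IsMulOp (g i) (T i)) :
    IsMulOp (fun w => ∑ i ∈ s, g i w) (∑ i ∈ s, T i) := by
  classical
  induction s using Finset.induction_on with
  | empty => simpa using zero (H := H)
  | insert a s ha ih =>
    have h1 := add (h a (Finset.mem_insert_self _ _))
      (ih fun i hi => h i (Finset.mem_insert_of_mem hi))
    simpa only [Finset.sum_insert ha] using h1

/-- conjugation by a translation -/
theorem shift {g : ℝ → ℂ} {T S S' : LR H →L[ℂ] LR H} {p : ℝ} (h : IsMulOp g T) (hS : IsShift p S)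
    (hS' : IsShift (-p) S') : IsMulOp (fun w => g (w - p)) (S * T * S') := by
  intro f
  have h1 := hS (T (S' f))
  have h2 := Pool.Agent.W509.CB.shift_ae p (h (S' f))
  have h3 := Pool.Agent.W509.CB.shift_ae p (hS' f)
  have h0 : (S * T * S') f = S (T (S' f)) := rfl
  rw [h0]
  filter_upwards [h1, h2, h3] with w e1 e2 e3
  rw [e1, e2, e3]
  congr 2
  ring

theorem shift_comm {g : ℝ → ℂ} {T T' S : LR H →L[ℂ] LR H} {p : ℝ} (h : IsMulOp g T)
    (hS : IsShift p S) (h' : IsMulOp (fun w => g (w - p)) T') : S * T = T' * S := by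
  refine ContinuousLinearMap.ext fun f => Lp.ext ?_
  have h1 := hS (T f)
  have h2 := Pool.Agent.W509.CB.shift_ae p (h f)
  have h3 := h' (S f)
  have h4 := hS f
  rw [mul_apply_eq_comp, mul_apply_eq_comp]
  filter_upwards [h1, h2, h3, h4] with w e1 e2 e3 e4
  rw [e1, e2, e3, e4]

theorem norm_sq (F : LR H) : ‖F‖ ^ 2 = ∫ w, ‖(F : ℝ → H) w‖ ^ 2 := by
  have h1 : ((‖F‖ ^ 2 : ℝ) : ℂ) = ⟪F, F⟫_ℂ := by
    rw [inner_self_eq_norm_sq_to_K]
    push_cast
    rfl
  have h2 : ⟪F, F⟫_ℂ = ∫ w, (((‖(F : ℝ → H) w‖ ^ 2 : ℝ)) : ℂ) := by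
    rw [L2.inner_def]
    refine integral_congr_ae (Eventually.of_forall fun w => ?_)
    simp only []
    rw [inner_self_eq_norm_sq_to_K]
    push_cast
    rfl
  rw [h2, integral_complex_ofReal] at h1
  exact_mod_cast h1

theorem int_norm_sq (F : LR H) : Integrable (fun w => ‖(F : ℝ → H) w‖ ^ 2) := by
  have h1 := (L2.integrable_inner (𝕜 := ℂ) F F)
  have h2 := h1.re
  refine h2.congr (Eventually.of_forall fun w => ?_)
  simp only []
  rw [inner_self_eq_norm_sq_to_K]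
  norm_cast

/-- the norm of the value of a multiplication operator -/
theorem norm_sq_app {g : ℝ → ℂ} {T : LR H →L[ℂ] LR H} (h : IsMulOp g T) (f : LR H) :
    ‖T f‖ ^ 2 = ∫ w, ‖g w‖ ^ 2 * ‖(f : ℝ → H) w‖ ^ 2 := by
  rw [norm_sq]
  refine integral_congr_ae ?_
  filter_upwards [h f] with w hw
  rw [hw, norm_smul, mul_pow]

/-- dominated convergence -/
theorem conv {ι : Type*} {l : Filter ι} [l.IsCountablyGenerated] {g : ι → ℝ → ℂ} {g0 : ℝ → ℂ}
    {C : ℝ} (hm : ∀ i, Measurable (g i)) (hm0 : Measurable g0)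
    (hb : ∀ i w, ‖g i w‖ ≤ C) (hb0 : ∀ w, ‖g0 w‖ ≤ C)
    (hl : ∀ w, Tendsto (fun i => g i w) l (𝓝 (g0 w))) {T : ι → LR H →L[ℂ] LR H}
    {T0 : LR H →L[ℂ] LR H} (hT : ∀ i, IsMulOp (g i) (T i)) (hT0 : IsMulOp g0 T0) (f : LR H) :
    Tendsto (fun i => T i f) l (𝓝 (T0 f)) := by
  rw [tendsto_iff_norm_sub_tendsto_zero]
  have h1 : ∀ i, ‖T i f - T0 f‖ ^ 2 = ∫ w, ‖g i w - g0 w‖ ^ 2 * ‖(f : ℝ → H) w‖ ^ 2 := fun i =>
    norm_sq_app (sub (hT i) hT0) f
  have h2 : Tendsto (fun i => ∫ w, ‖g i w - g0 w‖ ^ 2 * ‖(f : ℝ → H) w‖ ^ 2) l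
      (𝓝 (∫ _ : ℝ, (0 : ℝ))) := by
    refine tendsto_integral_filter_of_dominated_convergence
      (fun w => (2 * C) ^ 2 * ‖(f : ℝ → H) w‖ ^ 2) ?_ ?_ ?_ ?_
    · refine Eventually.of_forall fun i => ?_
      exact ((((hm i).sub hm0).norm.pow_const 2).aestronglyMeasurable).mul
        (int_norm_sq f).aestronglyMeasurable
    · refine Eventually.of_forall fun i => Eventually.of_forall fun w => ?_
      have h3 : ‖g i w - g0 w‖ ≤ 2 * C := by
        have := norm_sub_le (g i w) (g0 w)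
        linarith [hb i w, hb0 w]
      rw [Real.norm_of_nonneg (by positivity)]
      exact mul_le_mul_of_nonneg_right (pow_le_pow_left₀ (norm_nonneg _) h3 2) (by positivity)
    · exact (int_norm_sq f).const_mul _
    · refine Eventually.of_forall fun w => ?_
      have h4 : Tendsto (fun i => ‖g i w - g0 w‖) l (𝓝 0) :=
        tendsto_iff_norm_sub_tendsto_zero.1 (hl w)
      have h5 := (h4.pow 2).mul_const (‖(f : ℝ → H) w‖ ^ 2)
      simpa using h5
  have h3 : Tendsto (fun i => ‖T i f - T0 f‖ ^ 2) l (𝓝 0) := by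
    simp only [h1]
    simpa using h2
  have h4 := (Real.continuous_sqrt.tendsto 0).comp h3
  rw [Real.sqrt_zero] at h4
  refine h4.congr fun i => ?_
  simp only [Function.comp]
  exact Real.sqrt_sq (norm_nonneg _)

/-- an operator that commutes with the characters commutes with all multiplication operators -/
theorem comm_all {e : ℝ → LR H →L[ℂ] LR H}
    (he : ∀ t : ℝ, IsMulOp (fun w : ℝ => Complex.exp (2 * Real.pi * I * t * w)) (e t))
    {X : LR H →L[ℂ] LR H} (hX : ∀ t : ℝ, X * e t = e t * X) {g : ℝ → ℂ} {S : LR H →L[ℂ] LR H}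
    (hS : IsMulOp g S) : X * S = S * X := by
  apply ContinuousLinearMap.ext
  intro f
  apply ext_inner_left ℂ
  intro f'
  have h0 : ∀ᵐ w, Pool.Agent.W748.CB.dens X f f' w = 0 := by
    apply Pool.Agent.W748.CB.ae_zero_of_chars (Pool.Agent.W748.CB.dens_integrable X f f')
    intro t
    rw [← Pool.Agent.W748.CB.pair X (e t) _ (he t) f f', hX t, sub_self]
  rw [← sub_eq_zero, Pool.Agent.W748.CB.pair X S _ hS f f']
  rw [integral_eq_zero_of_ae]
  filter_upwards [h0] with w hw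
  rw [hw, mul_zero]
  rfl

end

end Pool.Agent.H75.BC.MulOp
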