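import Pool.Agent.H75.BC.Stmts4
import Pool.Agent.H75.BC.T.MulOp
import Pool.Agent.H75.BC.T.Flat

/-!
BIC FR4c: the relations between `W` and the boxes (helper89).
-/

set_option autoImplicit false

open MeasureTheory Filter Topology Complex
open scoped InnerProductSpace ENNReal

namespace Pool.Agent.H75.BC.FrX

open Pool.Agent.W662.CB Pool.Agent.H75.BC Pool.Agent.H75.BC.Flat

noncomputable section

/-! ### The scalar integrals -/

theorem ir_def' (r s : ℝ) (hr : 0 ≤ r) :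
    ir r s = ∫ w in (0 : ℝ)..r, Complex.exp (2 * Real.pi * I * w * s) := by
  unfold ir
  rw [integral_Icc_eq_integral_Ioc, intervalIntegral.integral_of_le hr]

theorem exp_cont (s : ℝ) : Continuous fun w : ℝ => Complex.exp (2 * Real.pi * I * w * s) := by
  fun_prop

theorem ir_neg (r s : ℝ) : ir r (-s) = starRingEnd ℂ (ir r s) := by
  unfold ir
  rw [← integral_conj]
  refine integral_congr_ae (Eventually.of_forall fun w => ?_)
  simp only []
  rw [← Complex.exp_conj]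
  congr 1
  simp only [map_mul, Complex.conj_ofReal, Complex.conj_I, map_ofNat]
  push_cast
  ring

theorem ir_norm (r s : ℝ) (hr : 0 ≤ r) : ‖ir r s‖ ≤ r := by
  rw [ir_def' r s hr]
  have := intervalIntegral.norm_integral_le_of_norm_le_const (a := (0 : ℝ)) (b := r) (C := 1)
    (f := fun w : ℝ => Complex.exp (2 * Real.pi * I * w * s)) (fun w _ => by
      have : 2 * Real.pi * I * w * s = ((2 * Real.pi * w * s : ℝ) : ℂ) * I := by
        push_cast
        ring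
      rw [this, Complex.norm_exp_ofReal_mul_I])
  rw [sub_zero, abs_of_nonneg hr, one_mul] at this
  exact this

/-- `|∫_0^h e^{2πiwt} dw - h| ≤ h (e^{2π|t|h} - 1)` -/
theorem ir_sub (h t : ℝ) (hh : 0 ≤ h) :
    ‖ir h t - h‖ ≤ h * (Real.exp (2 * Real.pi * ‖(t : ℂ)‖ * h) - 1) := by
  have h1 : ir h t - h = ∫ w in (0 : ℝ)..h, (Complex.exp (2 * Real.pi * I * w * t) - 1) := by
    rw [intervalIntegral.integral_sub ((exp_cont t).intervalIntegrable _ _) (by simp), ← ir_def' h t hh]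
    simp
  rw [h1]
  have hpi := Real.pi_pos
  have := intervalIntegral.norm_integral_le_of_norm_le_const (a := (0 : ℝ)) (b := h)
    (C := Real.exp (2 * Real.pi * ‖(t : ℂ)‖ * h) - 1)
    (f := fun w : ℝ => Complex.exp (2 * Real.pi * I * w * t) - 1) (fun w hw => by
      rw [Set.uIoc_of_le hh] at hw
      have h3 : ‖2 * Real.pi * I * w * t‖ ≤ 2 * Real.pi * ‖(t : ℂ)‖ * h := by
        rw [norm_mul, norm_mul, norm_mul, norm_mul, Complex.norm_I, Complex.norm_real,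
          Complex.norm_real, Real.norm_eq_abs, Real.norm_eq_abs, abs_of_pos hpi,
          abs_of_pos hw.1, Complex.norm_ofNat, mul_one]
        have h4 : 2 * Real.pi * w ≤ 2 * Real.pi * h :=
          mul_le_mul_of_nonneg_left hw.2 (by positivity)
        nlinarith [norm_nonneg (t : ℂ)]
      -- `|e^z - 1| ≤ e^{|z|} - 1`
      have h5 : ‖Complex.exp (2 * Real.pi * I * w * t) - 1‖ ≤
          Real.exp ‖2 * Real.pi * I * w * t‖ - 1 := by
        have := Complex.norm_exp_sub_sum_le_exp_norm_sub_sum (2 * Real.pi * I * w * t) 1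
        simpa using this
      have h6 := Real.exp_le_exp.2 h3
      linarith)
  rw [sub_zero, abs_of_nonneg hh] at this
  refine this.trans (le_of_eq ?_)
  ring

/-- the integral over `[0, n h]` -/
theorem ir_add (r h t : ℝ) (hr : 0 ≤ r) (hh : 0 ≤ h) :
    ir (r + h) t = ir r t + Complex.exp (2 * Real.pi * I * t * r) * ir h t := by
  rw [ir_def' _ _ (by positivity), ir_def' _ _ hr, ir_def' _ _ hh,
    ← intervalIntegral.integral_add_adjacent_intervals
      ((exp_cont t).intervalIntegrable 0 r) ((exp_cont t).intervalIntegrable r (r + h))]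
  congr 1
  have h1 := intervalIntegral.integral_comp_add_right (a := (0 : ℝ)) (b := h)
    (fun w : ℝ => Complex.exp (2 * Real.pi * I * w * t)) r
  rw [zero_add, add_comm h r] at h1
  rw [← h1, ← intervalIntegral.integral_const_mul]
  refine intervalIntegral.integral_congr fun w _ => ?_
  show Complex.exp (2 * Real.pi * I * ((w + r : ℝ) : ℂ) * t) =
    Complex.exp (2 * Real.pi * I * t * r) * Complex.exp (2 * Real.pi * I * w * t)
  rw [← Complex.exp_add]
  congr 1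
  push_cast
  ring

theorem ir_sum (h t : ℝ) (hh : 0 ≤ h) (n : ℕ) :
    ir (n * h) t = ∑ k ∈ Finset.range n, Complex.exp (2 * Real.pi * I * t * ((k * h : ℝ) : ℂ)) *
      ir h t := by
  induction n with
  | zero =>
    simp [ir]
  | succ n ih =>
    rw [Finset.sum_range_succ, ← ih]
    have h1 : ((n + 1 : ℕ) : ℝ) * h = n * h + h := by push_cast; ring
    rw [h1, ir_add _ _ _ (by positivity) hh]

section frame

variable {H : Type} [NormedAddCommGroup H] [InnerProductSpace ℂ H] [CompleteSpace H]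
  {K : Type} [NormedAddCommGroup K] [InnerProductSpace ℂ K] [CompleteSpace K]
  {κ : (H →L[ℂ] H) →⋆ₐ[ℂ] (K →L[ℂ] K)} {e S : ℝ → K →L[ℂ] K}
  {J : ℝ → H →L[ℂ] K} {E : ℝ → ℂ → K →L[ℂ] K}

theorem pre (F : Frame0 κ e S J E) : Pre e S J E :=
  ⟨F.e_add, F.S_zero, F.S_add, F.S_star, F.e_S, F.J_iso, F.E_add, F.E_star, F.E_norm,
    fun r z t hr => F.E_comm (e t) (fun s => by rw [← F.e_add, ← F.e_add, add_comm]) r z hr,
    F.e_J, F.E_J, F.box_E, F.box_J, F.box_orth, F.box_sum, F.fourier⟩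

theorem e_bx (P : Pre e S J E) {r : ℝ} (hr : 0 < r) (t p : ℝ) (u : K) :
    e t (bx S E p r u) = bx S E p r (e t u) := by
  have h1 := ap (P.e_S t p) (E r 0 (S (-p) u))
  have h2 := ap (P.e_E r 0 t hr) (S (-p) u)
  have h3 := ap (P.e_S t (-p)) u
  have h1' : e t (S p (E r 0 (S (-p) u))) =
    Complex.exp (2 * Real.pi * I * t * p) • S p (e t (E r 0 (S (-p) u))) := h1
  have h2' : e t (E r 0 (S (-p) u)) = E r 0 (e t (S (-p) u)) := h2
  have h3' : e t (S (-p) u) = Complex.exp (2 * Real.pi * I * t * ((-p : ℝ) : ℂ)) •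
    S (-p) (e t u) := h3
  show e t (S p (E r 0 (S (-p) u))) = S p (E r 0 (S (-p) (e t u)))
  rw [h1', h2', h3', map_smul, map_smul, smul_smul, ← Complex.exp_add]
  have h4 : 2 * Real.pi * I * t * p + 2 * Real.pi * I * t * ((-p : ℝ) : ℂ) = 0 := by
    push_cast
    ring
  rw [h4, Complex.exp_zero, one_smul]

theorem S_inner (P : Pre e S J E) (p : ℝ) (x y : K) : ⟪S p x, S p y⟫_ℂ = ⟪x, y⟫_ℂ := by
  rw [← ContinuousLinearMap.adjoint_inner_right (S p), ← ContinuousLinearMap.star_eq_adjoint,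
    P.S_star]
  exact congrArg (fun z => ⟪x, z⟫_ℂ) (ap (S_neg_mul P p) y)

/-- decomposition of the matrix coefficient -/
theorem coef_sum (P : Pre e S J E) {r : ℝ} (hr : 0 < r) {n : ℕ} (hn : 0 < n) (t : ℝ) (v w : H) :
    (r : ℂ) * ⟪J r v, e t (J r w)⟫_ℂ = ∑ k ∈ Finset.range n,
      Complex.exp (2 * Real.pi * I * t * ((k * (r / n) : ℝ) : ℂ)) *
        (((r / n : ℝ) : ℂ) * ⟪J (r / n) v, e t (J (r / n) w)⟫_ℂ) := by
  have hh : 0 < r / n := by positivity
  set h := r / n with hhd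
  have h1 : e t (J r w) = ∑ k ∈ Finset.range n, bx S E (k * h) h (e t (J r w)) := by
    rw [hhd, sum_bx P hr hn]
    have := ap (P.e_E r 0 t hr) (J r w)
    have h2 : e t (E r 0 (J r w)) = E r 0 (e t (J r w)) := this
    rw [← h2, P.E_J r w hr]
  rw [h1, inner_sum, Finset.mul_sum]
  refine Finset.sum_congr rfl fun k hk => ?_
  have hk' : k < n := Finset.mem_range.1 hk
  have hpr : (k : ℝ) * h + h ≤ r := by
    have h2 : (k : ℝ) + 1 ≤ n := by exact_mod_cast hk'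
    have h3 : (k : ℝ) * h + h = (k + 1) * h := by ring
    rw [h3]
    have h4 : (n : ℝ) * h = r := by rw [hhd]; field_simp
    nlinarith
  have hp0 : 0 ≤ (k : ℝ) * h := by positivity
  set p : ℝ := k * h with hp
  have h2 : ⟪J r v, bx S E p h (e t (J r w))⟫_ℂ = ⟪bx S E p h (J r v), bx S E p h (e t (J r w))⟫_ℂ := by
    rw [← ContinuousLinearMap.adjoint_inner_right (bx S E p h) (J r v),
      ← ContinuousLinearMap.star_eq_adjoint, bx_sa P hh]
    exact congrArg (fun z => ⟪J r v, z⟫_ℂ) (ap (bx_idem P hh p) (e t (J r w))).symm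
  have h3 : bx S E p h (e t (J r w)) = ((Real.sqrt (h / r) : ℝ) : ℂ) •
      (Complex.exp (2 * Real.pi * I * t * p) • S p (e t (J h w))) := by
    rw [← e_bx P hh, P.box_J p h r w hh hp0 hpr, map_smul]
    congr 1
    exact ap (P.e_S t p) (J h w)
  rw [h2, h3, P.box_J p h r v hh hp0 hpr, inner_smul_left, inner_smul_right, inner_smul_right,
    S_inner P, Complex.conj_ofReal]
  have h4 : ((Real.sqrt (h / r) : ℝ) : ℂ) * ((Real.sqrt (h / r) : ℝ) : ℂ) = ((h / r : ℝ) : ℂ) := by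
    rw [← Complex.ofReal_mul, Real.mul_self_sqrt (by positivity)]
  have h5 : (r : ℂ) * ((h / r : ℝ) : ℂ) = (h : ℂ) := by
    rw [← Complex.ofReal_mul]
    congr 1
    field_simp
  calc (r : ℂ) * (((Real.sqrt (h / r) : ℝ) : ℂ) * (((Real.sqrt (h / r) : ℝ) : ℂ) *
        (Complex.exp (2 * Real.pi * I * t * p) * ⟪J h v, e t (J h w)⟫_ℂ)))
      = (r : ℂ) * (((Real.sqrt (h / r) : ℝ) : ℂ) * ((Real.sqrt (h / r) : ℝ) : ℂ)) *
        (Complex.exp (2 * Real.pi * I * t * p) * ⟪J h v, e t (J h w)⟫_ℂ) := by ring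
    _ = _ := by
      rw [h4, h5]
      ring

theorem coef_sub (P : Pre e S J E) {h : ℝ} (hh : 0 < h) (t : ℝ) (v w : H) :
    ‖⟪J h v, e t (J h w)⟫_ℂ - ⟪v, w⟫_ℂ‖ ≤
      (Real.exp (2 * Real.pi * ‖(t : ℂ)‖ * h) - 1) * (‖v‖ * ‖w‖) := by
  have h1 : ⟪v, w⟫_ℂ = ⟪J h v, E h 0 (J h w)⟫_ℂ := by
    rw [P.E_J h w hh, ← ContinuousLinearMap.adjoint_inner_right (J h), P.J_iso h w hh]
  rw [h1, P.e_J h t w hh, ← inner_sub_right]
  have h2 : E h t (J h w) - E h 0 (J h w) = (E h t - E h 0) (J h w) := rfl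
  rw [h2]
  refine (norm_inner_le_norm _ _).trans ?_
  rw [J_norm P hh]
  have h3 := (ContinuousLinearMap.le_opNorm (E h t - E h 0) (J h w))
  rw [J_norm P hh] at h3
  have h4 := mul_le_mul_of_nonneg_right (P.E_norm h t hh) (norm_nonneg w)
  calc ‖v‖ * ‖(E h t - E h 0) (J h w)‖ ≤ ‖v‖ * ((Real.exp (2 * Real.pi * ‖(t : ℂ)‖ * h) - 1) * ‖w‖) :=
        mul_le_mul_of_nonneg_left (h3.trans h4) (norm_nonneg _)
    _ = _ := by ring

/-- `⟪J_r v, e_t J_r w⟫ = r⁻¹ ∫_0^r e^{2πitw} dw ⟪v, w⟫` -/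
theorem coef (P : Pre e S J E) {r : ℝ} (hr : 0 < r) (t : ℝ) (v w : H) :
    (r : ℂ) * ⟪J r v, e t (J r w)⟫_ℂ = ir r t * ⟪v, w⟫_ℂ := by
  rw [← sub_eq_zero, ← norm_eq_zero]
  set D : ℂ := (r : ℂ) * ⟪J r v, e t (J r w)⟫_ℂ - ir r t * ⟪v, w⟫_ℂ with hD
  have hb : ∀ n : ℕ, ‖D‖ ≤ 2 * r * ((Real.exp (2 * Real.pi * ‖(t : ℂ)‖ * (r / (n + 1 : ℕ))) - 1) *
      (‖v‖ * ‖w‖)) := by
    intro n
    have hn : 0 < n + 1 := Nat.succ_pos n
    have hn' : (0 : ℝ) < (n + 1 : ℕ) := by exact_mod_cast hn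
    set h := r / (n + 1 : ℕ) with hhd
    have hh : 0 < h := by positivity
    have hnh : ((n + 1 : ℕ) : ℝ) * h = r := by rw [hhd]; field_simp
    have h1 : D = ∑ k ∈ Finset.range (n + 1), Complex.exp (2 * Real.pi * I * t * ((k * h : ℝ) : ℂ)) *
        ((h : ℂ) * ⟪J h v, e t (J h w)⟫_ℂ - ir h t * ⟪v, w⟫_ℂ) := by
      rw [hD, coef_sum P hr hn t v w]
      have h2 := ir_sum h t hh.le (n + 1)
      rw [hnh] at h2
      rw [h2, Finset.sum_mul, ← Finset.sum_sub_distrib]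
      refine Finset.sum_congr rfl fun k _ => ?_
      ring
    rw [h1]
    have h3 : ∀ k ∈ Finset.range (n + 1), ‖Complex.exp (2 * Real.pi * I * t * ((k * h : ℝ) : ℂ)) *
        ((h : ℂ) * ⟪J h v, e t (J h w)⟫_ℂ - ir h t * ⟪v, w⟫_ℂ)‖ ≤
        2 * h * ((Real.exp (2 * Real.pi * ‖(t : ℂ)‖ * h) - 1) * (‖v‖ * ‖w‖)) := by
      intro k _
      have h4 : 2 * Real.pi * I * t * ((k * h : ℝ) : ℂ) = ((2 * Real.pi * t * (k * h) : ℝ) : ℂ) * I := by
        push_cast
        ring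
      rw [norm_mul, h4, Complex.norm_exp_ofReal_mul_I, one_mul]
      have h5 : (h : ℂ) * ⟪J h v, e t (J h w)⟫_ℂ - ir h t * ⟪v, w⟫_ℂ =
          (h : ℂ) * (⟪J h v, e t (J h w)⟫_ℂ - ⟪v, w⟫_ℂ) - (ir h t - h) * ⟪v, w⟫_ℂ := by ring
      rw [h5]
      refine (norm_sub_le _ _).trans ?_
      rw [norm_mul, norm_mul, Complex.norm_real, Real.norm_of_nonneg hh.le]
      have h6 := mul_le_mul_of_nonneg_left (coef_sub P hh t v w) hh.le
      have h7 := mul_le_mul (ir_sub h t hh.le) (norm_inner_le_norm (𝕜 := ℂ) v w) (norm_nonneg _)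
        ((norm_nonneg _).trans (ir_sub h t hh.le))
      linarith
    refine (norm_sum_le_of_le _ h3).trans (le_of_eq ?_)
    rw [Finset.sum_const, Finset.card_range, nsmul_eq_mul, ← hnh]
    ring
  have hlim : Tendsto (fun n : ℕ => 2 * r * ((Real.exp (2 * Real.pi * ‖(t : ℂ)‖ *
      (r / (n + 1 : ℕ))) - 1) * (‖v‖ * ‖w‖))) atTop (𝓝 0) := by
    have h1 : Tendsto (fun n : ℕ => r / ((n + 1 : ℕ) : ℝ)) atTop (𝓝 0) :=
      Tendsto.div_atTop tendsto_const_nhds
        (tendsto_natCast_atTop_atTop.comp (tendsto_add_atTop_nat 1))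
    have h2 : Continuous fun x : ℝ => 2 * r * ((Real.exp (2 * Real.pi * ‖(t : ℂ)‖ * x) - 1) *
      (‖v‖ * ‖w‖)) := by fun_prop
    have h3 := (h2.tendsto 0).comp h1
    have h4 : 2 * r * ((Real.exp (2 * Real.pi * ‖(t : ℂ)‖ * 0) - 1) * (‖v‖ * ‖w‖)) = 0 := by simp
    rw [h4] at h3
    exact h3
  exact le_antisymm (ge_of_tendsto' hlim hb) (norm_nonneg _)

end frame

theorem ir_cont (r : ℝ) (hr : 0 ≤ r) : Continuous fun t : ℝ => ir r t := by
  have h1 : (fun t : ℝ => ir r t) = fun t : ℝ => ∫ w in (0 : ℝ)..r,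
      Complex.exp (2 * Real.pi * I * w * t) := by
    funext t
    exact ir_def' r t hr
  rw [h1]
  exact intervalIntegral.continuous_parametric_intervalIntegral_of_continuous'
    (f := fun (t w : ℝ) => Complex.exp (2 * Real.pi * I * w * t)) (by fun_prop) 0 r

theorem hr_sq {r : ℝ} (hr0 : 0 < r) (t : ℝ) : ‖hr r t‖ ^ 2 = ‖ir r t‖ ^ 2 / r := by
  unfold hr
  rw [norm_mul, mul_pow, Complex.norm_real, Real.norm_of_nonneg (by positivity), inv_pow,
    Real.sq_sqrt hr0.le]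
  ring

theorem hr_neg (r t : ℝ) : ‖hr r (-t)‖ = ‖hr r t‖ := by
  unfold hr
  rw [norm_mul, norm_mul, ir_neg, RCLike.norm_conj]

section main

variable {H : Type} [NormedAddCommGroup H] [InnerProductSpace ℂ H] [CompleteSpace H]
  {U : ℝ → H →L[ℂ] H} {κ : (H →L[ℂ] H) →⋆ₐ[ℂ] (LR H →L[ℂ] LR H)} {e S : ℝ → LR H →L[ℂ] LR H}
  {J : ℝ → H →L[ℂ] LR H} {E : ℝ → ℂ → LR H →L[ℂ] LR H} {W : LR H →L[ℂ] LR H}

theorem U_inner (hs : ∀ t : ℝ, star (U t) = U (-t)) (t : ℝ) (v w : H) :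
    ⟪U (-t) v, w⟫_ℂ = ⟪v, U t w⟫_ℂ := by
  rw [← ContinuousLinearMap.adjoint_inner_right (U (-t)), ← ContinuousLinearMap.star_eq_adjoint,
    hs, neg_neg]

theorem rhs (hs : ∀ t : ℝ, star (U t) = U (-t))
    (hS : ∀ p : ℝ, IsMulOp (fun s : ℝ => Complex.exp (2 * Real.pi * I * p * s)) (S p))
    (hJ : ∀ (r : ℝ) (v : H), 0 < r → (J r v : ℝ → H) =ᵐ[volume] fun s => hr r s • v)
    (hW : ∀ f : LR H, W f =ᵐ[volume] fun s => U (-s) (f s)) (p r : ℝ) (v w : H) (h0 : 0 < r) :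
    ⟪W (J r v), S p (J r w)⟫_ℂ = ∫ s : ℝ, ((‖hr r s‖ ^ 2 : ℝ) : ℂ) *
      (Complex.exp (2 * Real.pi * I * p * s) * ⟪v, U s w⟫_ℂ) := by
  rw [L2.inner_def]
  refine integral_congr_ae ?_
  filter_upwards [hW (J r v), hJ r v h0, hS p (J r w), hJ r w h0] with s h1 h2 h3 h4
  rw [h1, h2, h3, h4, map_smul, inner_smul_left, inner_smul_right, inner_smul_right, U_inner hs]
  have h5 : ((‖hr r s‖ ^ 2 : ℝ) : ℂ) = starRingEnd ℂ (hr r s) * hr r s := by
    rw [mul_comm, Complex.mul_conj, Complex.normSq_eq_norm_sq]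
  rw [h5]
  ring

theorem inner_e (h0 : U 0 = 1) (ha : ∀ s t : ℝ, U (s + t) = U s * U t)
    (hs : ∀ t : ℝ, star (U t) = U (-t)) (he : ∀ t, IsShift t (e (-t)))
    (hJ : ∀ (r : ℝ) (v : H), 0 < r → (J r v : ℝ → H) =ᵐ[volume] fun s => hr r s • v)
    (hW : ∀ f : LR H, W f =ᵐ[volume] fun s => U (-s) (f s)) (t r : ℝ) (v w : H) (hr0 : 0 < r) :
    ⟪W (J r v), e t (W (J r w))⟫_ℂ = ⟪J r v, e t (J r (U (-t) w))⟫_ℂ := by
  rw [L2.inner_def, L2.inner_def]
  refine integral_congr_ae ?_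
  have he' : IsShift (-t) (e t) := by
    have := he (-t)
    rw [neg_neg] at this
    exact this
  filter_upwards [hW (J r v), hJ r v hr0, he' (W (J r w)),
    Pool.Agent.W509.CB.shift_ae (-t) (hW (J r w)), Pool.Agent.W509.CB.shift_ae (-t) (hJ r w hr0),
    he' (J r (U (-t) w)), Pool.Agent.W509.CB.shift_ae (-t) (hJ r (U (-t) w) hr0)]
    with s h1 h2 h3 h4 h5 h6 h7
  rw [h1, h2, h3, h4, h5, h6, h7, map_smul, map_smul, inner_smul_left, inner_smul_right,
    inner_smul_left, inner_smul_right, U_inner hs]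
  congr 3
  have h8 : U s (U (-(s - -t)) w) = U (s + -(s - -t)) w := by
    rw [ha]
    rfl
  rw [h8]
  congr 2
  ring

theorem hr_int {r : ℝ} (hr0 : 0 < r)
    (hJ : ∀ (r : ℝ) (v : H), 0 < r → (J r v : ℝ → H) =ᵐ[volume] fun s => hr r s • v)
    {v : H} (hv : v ≠ 0) : Integrable fun s : ℝ => ‖hr r s‖ ^ 2 := by
  have h1 := (MulOp.int_norm_sq (J r v)).mul_const ((‖v‖ ^ 2)⁻¹)
  refine h1.congr ?_
  filter_upwards [hJ r v hr0] with s h2
  rw [h2, norm_smul, mul_pow]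
  have : ‖v‖ ≠ 0 := norm_ne_zero_iff.2 hv
  field_simp

theorem hr_cont (r : ℝ) (hr0 : 0 < r) : Continuous fun t : ℝ => hr r t := by
  unfold hr
  exact continuous_const.mul (ir_cont r hr0.le)

theorem box (P : Pre e S J E) (h0 : U 0 = 1) (ha : ∀ s t : ℝ, U (s + t) = U s * U t)
    (hs : ∀ t : ℝ, star (U t) = U (-t)) (hc : ∀ v : H, Continuous fun t : ℝ => U t v)
    (he : ∀ t, IsShift t (e (-t)))
    (hS : ∀ p : ℝ, IsMulOp (fun s : ℝ => Complex.exp (2 * Real.pi * I * p * s)) (S p))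
    (hJ : ∀ (r : ℝ) (v : H), 0 < r → (J r v : ℝ → H) =ᵐ[volume] fun s => hr r s • v)
    (hB : BoxInt e S E)
    (hW : ∀ f : LR H, W f =ᵐ[volume] fun s => U (-s) (f s)) (p r : ℝ) (v w : H) (hr0 : 0 < r) :
    ⟪W (J r v), bx S E p r (W (J r w))⟫_ℂ = ⟪W (J r v), S p (J r w)⟫_ℂ := by
  by_cases hv : v = 0
  · rw [hv, map_zero, map_zero, inner_zero_left, inner_zero_left]
  have hnormU : ∀ t : ℝ, ‖U t w‖ = ‖w‖ := by
    intro t
    refine norm_of_iso (T := U t) ?_ w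
    rw [hs, ← ha, neg_add_cancel, h0]
  have hint := hr_int hr0 hJ hv
  -- the integrand
  have h1 : ∀ (n : ℕ) (t : ℝ), Gn p r n t * ⟪W (J r v), e t (W (J r w))⟫_ℂ =
      Gn p r n t * ((ir r t / r) * ⟪v, U (-t) w⟫_ℂ) := by
    intro n t
    rw [inner_e h0 ha hs he hJ hW t r v w hr0]
    congr 1
    have h2 := coef P hr0 t v (U (-t) w)
    have h3 : (r : ℂ) ≠ 0 := by exact_mod_cast hr0.ne'
    field_simp
    rw [← h2]
    ring
  have hlim := hB (W (J r v)) (W (J r w)) p r hr0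
  simp only [h1] at hlim
  refine tendsto_nhds_unique hlim ?_
  rw [rhs hs hS hJ hW p r v w hr0]
  -- substitution
  have hsub : ∫ s : ℝ, ((‖hr r s‖ ^ 2 : ℝ) : ℂ) *
      (Complex.exp (2 * Real.pi * I * p * s) * ⟪v, U s w⟫_ℂ) =
      ∫ t : ℝ, ((‖hr r t‖ ^ 2 : ℝ) : ℂ) *
      (Complex.exp (2 * Real.pi * I * p * (-t : ℝ)) * ⟪v, U (-t) w⟫_ℂ) := by
    rw [← integral_neg_eq_self (fun s : ℝ => ((‖hr r s‖ ^ 2 : ℝ) : ℂ) *
      (Complex.exp (2 * Real.pi * I * p * s) * ⟪v, U s w⟫_ℂ)) volume]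
    refine integral_congr_ae (Eventually.of_forall fun t => ?_)
    simp only [hr_neg]
  rw [hsub]
  have hUc : Continuous fun t : ℝ => ⟪v, U (-t) w⟫_ℂ :=
    Continuous.inner continuous_const ((hc w).comp continuous_neg)
  have hgn : ∀ n : ℕ, ∀ t : ℝ, ‖((n + 1 : ℕ) : ℂ) * ir (1 / (n + 1 : ℕ)) (-t)‖ ≤ 1 := by
    intro n t
    have hn : (0 : ℝ) < (n + 1 : ℕ) := by exact_mod_cast Nat.succ_pos n
    have h2 := ir_norm (1 / (n + 1 : ℕ)) (-t) (by positivity)
    rw [norm_mul, Complex.norm_natCast]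
    have h3 := mul_le_mul_of_nonneg_left h2 hn.le
    have h4 : ((n + 1 : ℕ) : ℝ) * (1 / (n + 1 : ℕ)) = 1 := by field_simp
    rw [h4] at h3
    exact h3
  refine tendsto_integral_of_dominated_convergence
    (fun t : ℝ => ‖hr r t‖ ^ 2 * (‖v‖ * ‖w‖)) ?_ ?_ ?_ ?_
  · intro n
    have h2 : Continuous fun t : ℝ => Gn p r n t * ((ir r t / r) * ⟪v, U (-t) w⟫_ℂ) := by
      unfold Gn
      have h3 := (ir_cont r hr0.le)
      have h4 := (ir_cont r hr0.le).comp continuous_neg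
      have h5 := (ir_cont (1 / (n + 1 : ℕ)) (by positivity)).comp continuous_neg
      simp only [Function.comp_def] at h4 h5
      have h6 : Continuous fun t : ℝ => Complex.exp (2 * Real.pi * I * p * (-t : ℝ)) := by fun_prop
      exact ((h6.mul h4).mul (continuous_const.mul h5)).mul ((h3.div_const _).mul hUc)
    exact h2.aestronglyMeasurable
  · exact hint.mul_const _
  · intro n
    refine Eventually.of_forall fun t => ?_
    unfold Gn
    have h2 : 2 * Real.pi * I * p * (-t : ℝ) = ((2 * Real.pi * p * (-t) : ℝ) : ℂ) * I := by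
      push_cast
      ring
    rw [norm_mul, norm_mul, norm_mul, h2, Complex.norm_exp_ofReal_mul_I, one_mul,
      norm_mul (ir r t / r), norm_div, Complex.norm_real, Real.norm_of_nonneg hr0.le,
      ir_neg r t, RCLike.norm_conj, hr_sq hr0 t]
    have h3 := norm_inner_le_norm (𝕜 := ℂ) v (U (-t) w)
    rw [hnormU] at h3
    have h4 := hgn n t
    have h5 : 0 ≤ ‖ir r t‖ := norm_nonneg _
    calc ‖ir r t‖ * ‖((n + 1 : ℕ) : ℂ) * ir (1 / (n + 1 : ℕ)) (-t)‖ *
          (‖ir r t‖ / r * ‖⟪v, U (-t) w⟫_ℂ‖)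
        ≤ ‖ir r t‖ * 1 * (‖ir r t‖ / r * (‖v‖ * ‖w‖)) := by gcongr
      _ = _ := by ring
  · refine Eventually.of_forall fun t => ?_
    -- `(n+1) ir (1/(n+1)) (-t) → 1`
    have h2 : Tendsto (fun n : ℕ => ((n + 1 : ℕ) : ℂ) * ir (1 / (n + 1 : ℕ)) (-t)) atTop (𝓝 1) := by
      rw [tendsto_iff_norm_sub_tendsto_zero]
      have h3 : Tendsto (fun n : ℕ => (1 : ℝ) / ((n + 1 : ℕ) : ℝ)) atTop (𝓝 0) :=
        Tendsto.div_atTop tendsto_const_nhds
          (tendsto_natCast_atTop_atTop.comp (tendsto_add_atTop_nat 1))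
      have h4 : Continuous fun x : ℝ => Real.exp (2 * Real.pi * ‖((-t : ℝ) : ℂ)‖ * x) - 1 := by
        fun_prop
      have h5 := (h4.tendsto 0).comp h3
      have h6 : Real.exp (2 * Real.pi * ‖((-t : ℝ) : ℂ)‖ * 0) - 1 = 0 := by simp
      rw [h6] at h5
      refine squeeze_zero (fun _ => norm_nonneg _) (fun n => ?_) h5
      have hn : (0 : ℝ) < (n + 1 : ℕ) := by exact_mod_cast Nat.succ_pos n
      have h7 := ir_sub (1 / (n + 1 : ℕ)) (-t) (by positivity)
      have h8 : ((n + 1 : ℕ) : ℂ) * ir (1 / (n + 1 : ℕ)) (-t) - 1 =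
          ((n + 1 : ℕ) : ℂ) * (ir (1 / (n + 1 : ℕ)) (-t) - ((1 / (n + 1 : ℕ) : ℝ) : ℂ)) := by
        have h9 : ((n + 1 : ℕ) : ℂ) ≠ 0 := by exact_mod_cast (Nat.succ_ne_zero n)
        push_cast at h9 ⊢
        field_simp
      rw [h8, norm_mul, Complex.norm_natCast]
      have h9 := mul_le_mul_of_nonneg_left h7 hn.le
      refine h9.trans (le_of_eq ?_)
      simp only [Function.comp]
      field_simp
    have h3 : Tendsto (fun n : ℕ => Gn p r n t * ((ir r t / r) * ⟪v, U (-t) w⟫_ℂ)) atTop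
        (𝓝 (Complex.exp (2 * Real.pi * I * p * (-t : ℝ)) * ir r (-t) * 1 *
          ((ir r t / r) * ⟪v, U (-t) w⟫_ℂ))) := by
      unfold Gn
      exact (h2.const_mul _).mul_const _
    have h4 : Complex.exp (2 * Real.pi * I * p * (-t : ℝ)) * ir r (-t) * 1 *
          ((ir r t / r) * ⟪v, U (-t) w⟫_ℂ) = ((‖hr r t‖ ^ 2 : ℝ) : ℂ) *
      (Complex.exp (2 * Real.pi * I * p * (-t : ℝ)) * ⟪v, U (-t) w⟫_ℂ) := by
      rw [hr_sq hr0 t]
      have h5 : ((‖ir r t‖ ^ 2 / r : ℝ) : ℂ) = ir r (-t) * ir r t / r := by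
        rw [ir_neg, mul_comm (starRingEnd ℂ _), Complex.mul_conj, Complex.normSq_eq_norm_sq]
        push_cast
        rfl
      rw [h5]
      ring
    rw [h4] at h3
    exact h3

end main

theorem frX : S_FrX' := by
  intro H _ _ _ U h0 ha hs hc κ e S J E W F hκ he hS hJ hB hW hWs
  have P := pre F
  refine ⟨?_, ?_, ?_, ?_⟩
  · intro r v hr0 hv
    apply Lp.ext
    filter_upwards [hW (J r v), hJ r v hr0] with s h1 h2
    rw [h1, h2, map_smul, hv]
  · intro p r v w hr0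
    exact box P h0 ha hs hc he hS hJ hB hW p r v w hr0
  · intro p r v w hr0
    refine box (U := fun t => U (-t)) P ?_ ?_ ?_ ?_ he hS hJ hB ?_ p r v w hr0
    · show U (-0) = 1
      rw [neg_zero, h0]
    · intro s t
      show U (-(s + t)) = U (-s) * U (-t)
      rw [neg_add, ha]
    · intro t
      exact hs (-t)
    · intro v
      exact (hc v).comp continuous_neg
    · intro f
      simp only [neg_neg]
      exact hWs f
  · intro p r v w hr0 hvw
    rw [rhs hs hS hJ hW p r v v hr0, rhs hs hS hJ hW p r w w hr0]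
    refine integral_congr_ae (Eventually.of_forall fun s => ?_)
    simp only [hvw s]

end

end Pool.Agent.H75.BC.FrX
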