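import Pool.Agent.H75.BC.T.Apx
import Pool.Agent.H75.L.W303.CB.A2
import Pool.Agent.H75.L.W557.CB.A1

/-!
T0: the modular conjugation and the right action (helper83).
-/

set_option autoImplicit false

open MeasureTheory Filter Topology Complex
open scoped InnerProductSpace ENNReal ComplexConjugate

namespace Pool.Agent.H75.BC.JC

open Pool.Agent.W662.CB Pool.Agent.W883.CB Pool.Agent.H75.BC

noncomputable section

variable {H : Type} [NormedAddCommGroup H] [InnerProductSpace ℂ H] [CompleteSpace H]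
  {M : VonNeumannAlgebra H} {ξ : H} {U : ℝ → H →L[ℂ] H}

theorem star_U_mul (hm : IsModular M ξ U) (t : ℝ) : star (U t) * U t = 1 := by
  rw [hm.star_eq, ← hm.add, neg_add_cancel, hm.zero]

theorem an_one (hm : IsModular M ξ U) : IsAn M U (fun _ => 1) where
  mem _ := one_mem M
  diff v := by simp
  diff' v := by simp
  ext t := by
    unfold sgm
    rw [mul_one, hm.star_eq, ← hm.add, add_neg_cancel, hm.zero]
  bdd R := ⟨‖(1 : H →L[ℂ] H)‖, fun _ _ => le_rfl⟩

theorem an_star {F : ℂ → H →L[ℂ] H} (hm : IsModular M ξ U) (h : IsAn M U F) :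
    IsAn M U (fun z => star (F (conj z))) where
  mem z := star_mem (h.mem _)
  diff v := h.diff' v
  diff' v := by
    simp only [Complex.conj_conj, star_star]
    exact h.diff v
  ext t := by
    rw [Complex.conj_ofReal, h.ext t, sgm_star hm, map_zero]
  bdd R := by
    obtain ⟨C, hC⟩ := h.bdd R
    refine ⟨C, fun z hz => ?_⟩
    rw [norm_star]
    apply hC
    rw [Complex.conj_im, abs_neg]
    exact hz

theorem an_shift {F : ℂ → H →L[ℂ] H} (hm : IsModular M ξ U) (h : IsAn M U F) (w : ℂ) :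
    IsAn M U (fun z => F (z + w)) where
  mem z := h.mem _
  diff v := (h.diff v).comp (differentiable_id.add (differentiable_const w))
  diff' v := by
    have h1 := (h.diff' v).comp (differentiable_id.add (differentiable_const (conj w)))
    have e1 : (fun z : ℂ => star (F (conj z + w)) v) =
        ((fun z : ℂ => star (F (conj z)) v) ∘ (id + fun _ => conj w)) := by
      funext z
      simp
    rw [e1]
    exact h1
  ext t := by
    rw [Pool.Agent.W303.CB.a2a H M ξ U hm F h t w, zero_add]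
  bdd R := by
    obtain ⟨C, hC⟩ := h.bdd (R + |w.im|)
    refine ⟨C, fun z hz => hC _ ?_⟩
    rw [Complex.add_im]
    exact (abs_add_le _ _).trans (by linarith)

/-- strong differentiability of a product -/
theorem diff_apply {F : ℂ → H →L[ℂ] H} (hd : ∀ v : H, Differentiable ℂ fun z => F z v)
    (hb : ∀ R : ℝ, ∃ C : ℝ, ∀ z : ℂ, |z.im| ≤ R → ‖F z‖ ≤ C) {g : ℂ → H}
    (hg : Differentiable ℂ g) : Differentiable ℂ fun z => F z (g z) := by
  intro z
  have hg' := (hg z).hasDerivAt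
  have hF' := (hd (g z) z).hasDerivAt
  obtain ⟨C, hC⟩ := hb (|z.im| + 1)
  refine HasDerivAt.differentiableAt (f' := deriv (fun w => F w (g z)) z + F z (deriv g z)) ?_
  rw [hasDerivAt_iff_tendsto_slope] at hg' hF' ⊢
  have e : ∀ w : ℂ, slope (fun w => F w (g w)) z w =
      slope (fun w => F w (g z)) z w + F w (slope g z w - deriv g z) + F w (deriv g z) := by
    intro w
    simp only [slope, vsub_eq_sub]
    rw [map_sub, map_smul, map_sub, add_assoc, sub_add_cancel, ← smul_add]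
    congr 1
    abel
  have hfun : slope (fun w => F w (g w)) z = fun w =>
      slope (fun w => F w (g z)) z w + F w (slope g z w - deriv g z) + F w (deriv g z) := funext e
  rw [hfun]
  have h1 : Tendsto (fun w => F w (slope g z w - deriv g z)) (𝓝[≠] z) (𝓝 0) := by
    have h2 : Tendsto (fun w => C * ‖slope g z w - deriv g z‖) (𝓝[≠] z) (𝓝 0) := by
      have h3 : Tendsto (fun w => slope g z w - deriv g z) (𝓝[≠] z) (𝓝 0) := by
        have := hg'.sub_const (deriv g z)
        rwa [sub_self] at this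
      have := (h3.norm).const_mul C
      simpa using this
    refine squeeze_zero_norm' ?_ h2
    have hnear : ∀ᶠ w in 𝓝[≠] z, |w.im| ≤ |z.im| + 1 := by
      apply eventually_nhdsWithin_of_eventually_nhds
      have hc : Continuous fun w : ℂ => |w.im| := by fun_prop
      have : ∀ᶠ w in 𝓝 z, |w.im| < |z.im| + 1 :=
        (hc.tendsto z).eventually_lt_const (by linarith)
      exact this.mono fun w hw => hw.le
    refine hnear.mono fun w hw => ?_
    exact (F w).le_of_opNorm_le (hC w hw) _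
  have h4 : Tendsto (fun w => F w (deriv g z)) (𝓝[≠] z) (𝓝 (F z (deriv g z))) :=
    ((hd (deriv g z)).continuous.tendsto z).mono_left nhdsWithin_le_nhds
  have h5 := (hF'.add h1).add h4
  rwa [add_zero] at h5

theorem an_mul {F G : ℂ → H →L[ℂ] H} (hm : IsModular M ξ U) (hF : IsAn M U F) (hG : IsAn M U G) :
    IsAn M U (fun z => F z * G z) where
  mem z := mul_mem (hF.mem z) (hG.mem z)
  diff v := diff_apply hF.diff hF.bdd (hG.diff v)
  diff' v := by
    have h1 := diff_apply (an_star hm hG).diff (an_star hm hG).bdd ((an_star hm hF).diff v)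
    have e1 : (fun z : ℂ => star (F (conj z) * G (conj z)) v) =
        fun z : ℂ => star (G (conj z)) (star (F (conj z)) v) := by
      funext z
      rw [star_mul]
      rfl
    rw [e1]
    exact h1
  ext t := by
    rw [hF.ext, hG.ext]
    unfold sgm
    have : U t * F 0 * star (U t) * (U t * G 0 * star (U t)) =
        U t * F 0 * (star (U t) * U t) * G 0 * star (U t) := by simp only [mul_assoc]
    rw [this, star_U_mul hm, mul_one]
    simp only [mul_assoc]
  bdd R := by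
    obtain ⟨C, hC⟩ := hF.bdd R
    obtain ⟨D, hD⟩ := hG.bdd R
    refine ⟨C * D, fun z hz => (norm_mul_le _ _).trans ?_⟩
    exact mul_le_mul (hC z hz) (hD z hz) (norm_nonneg _) ((norm_nonneg _).trans (hC z hz))

theorem an_add {F G : ℂ → H →L[ℂ] H} (hF : IsAn M U F) (hG : IsAn M U G) :
    IsAn M U (fun z => F z + G z) where
  mem z := add_mem (hF.mem z) (hG.mem z)
  diff v := (hF.diff v).add (hG.diff v)
  diff' v := by
    have e1 : (fun z : ℂ => star (F (conj z) + G (conj z)) v) =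
        (fun z : ℂ => star (F (conj z)) v) + fun z : ℂ => star (G (conj z)) v := by
      funext z
      rw [star_add]
      rfl
    rw [e1]
    exact (hF.diff' v).add (hG.diff' v)
  ext t := by
    rw [hF.ext, hG.ext]
    unfold sgm
    rw [mul_add, add_mul]
  bdd R := by
    obtain ⟨C, hC⟩ := hF.bdd R
    obtain ⟨D, hD⟩ := hG.bdd R
    exact ⟨C + D, fun z hz => (norm_add_le _ _).trans (add_le_add (hC z hz) (hD z hz))⟩

theorem an_smul {F : ℂ → H →L[ℂ] H} (hF : IsAn M U F) (c : ℂ) : IsAn M U (fun z => c • F z) where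
  mem z := M.toStarSubalgebra.smul_mem (hF.mem z) c
  diff v := (hF.diff v).const_smul c
  diff' v := by
    have e1 : (fun z : ℂ => star (c • F (conj z)) v) =
        star c • fun z : ℂ => star (F (conj z)) v := by
      funext z
      rw [star_smul]
      rfl
    rw [e1]
    exact (hF.diff' v).const_smul (star c)
  ext t := by
    rw [hF.ext]
    unfold sgm
    rw [mul_smul_comm, smul_mul_assoc]
  bdd R := by
    obtain ⟨C, hC⟩ := hF.bdd R
    refine ⟨‖c‖ * C, fun z hz => ?_⟩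
    rw [norm_smul]
    exact mul_le_mul_of_nonneg_left (hC z hz) (norm_nonneg _)

/-- invariance of the state under `σ_z` -/
theorem vst_const {P : ℂ → H →L[ℂ] H} (hm : IsModular M ξ U) (hP : IsAn M U P) (z : ℂ) :
    vst ξ (P z) = vst ξ (P 0) := by
  have h1 : Differentiable ℂ (fun z => vst ξ (P z)) := (innerSL ℂ ξ).differentiable.comp (hP.diff ξ)
  have h2 := Pool.Agent.W303.CB.entire_eq (fun z => vst ξ (P z)) (fun _ => vst ξ (P 0)) h1
    (differentiable_const _) (by
      intro s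
      rw [hP.ext]
      unfold vst
      rw [sgm_apply hm, hm.fix, ← ContinuousLinearMap.adjoint_inner_left,
        ← ContinuousLinearMap.star_eq_adjoint, hm.star_eq, hm.fix])
  exact congrFun h2 z

theorem half_conj : conj (I / 2 : ℂ) = -(I / 2) := by
  rw [map_div₀, Complex.conj_I, map_ofNat, neg_div]

/-- the inner product identity -/
theorem pair {F G : ℂ → H →L[ℂ] H} (hm : IsModular M ξ U) (hF : IsAn M U F) (hG : IsAn M U G) :
    ⟪star (F (I / 2)) ξ, star (G (I / 2)) ξ⟫_ℂ = ⟪G 0 ξ, F 0 ξ⟫_ℂ := by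
  have hk := Pool.Agent.W303.CB.a2 Pool.Agent.W557.CB.a1 Pool.Agent.W303.CB.a2a H M ξ U hm F hF (I / 2)
    (star (G (I / 2))) (star_mem (hG.mem _))
  have e1 : (I / 2 - I : ℂ) = -(I / 2) := by ring
  rw [e1] at hk
  have h1 : ⟪star (F (I / 2)) ξ, star (G (I / 2)) ξ⟫_ℂ =
      vst ξ (F (I / 2) * star (G (I / 2))) := by
    unfold vst
    rw [ContinuousLinearMap.star_eq_adjoint (F (I / 2)), ContinuousLinearMap.adjoint_inner_left]
    rfl
  have h2 := vst_const hm (an_mul hm (an_star hm hG) hF) (-(I / 2))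
  have e2 : conj (-(I / 2) : ℂ) = I / 2 := by rw [map_neg, half_conj, neg_neg]
  simp only [e2, map_zero] at h2
  rw [h1, hk, h2]
  unfold vst
  change ⟪ξ, star (G 0) (F 0 ξ)⟫_ℂ = _
  rw [ContinuousLinearMap.star_eq_adjoint, ContinuousLinearMap.adjoint_inner_right]

theorem norm_pair {F G : ℂ → H →L[ℂ] H} (hm : IsModular M ξ U) (hF : IsAn M U F)
    (hG : IsAn M U G) :
    ‖star (F (I / 2)) ξ - star (G (I / 2)) ξ‖ = ‖F 0 ξ - G 0 ξ‖ := by
  have h1 := an_add hF (an_smul hG (-1))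
  have h2 := pair hm h1 h1
  have e1 : star (F (I / 2) + (-1 : ℂ) • G (I / 2)) ξ =
      star (F (I / 2)) ξ - star (G (I / 2)) ξ := by
    rw [star_add, star_smul]
    simp [sub_eq_add_neg]
  have e2 : (F 0 + (-1 : ℂ) • G 0) ξ = F 0 ξ - G 0 ξ := by
    simp [sub_eq_add_neg]
  rw [e1, e2, inner_self_eq_norm_sq_to_K, inner_self_eq_norm_sq_to_K] at h2
  have h3 : ‖star (F (I / 2)) ξ - star (G (I / 2)) ξ‖ ^ 2 = ‖F 0 ξ - G 0 ξ‖ ^ 2 := by
    exact_mod_cast h2
  exact (sq_eq_sq₀ (norm_nonneg _) (norm_nonneg _)).1 h3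

theorem dense_an (hcyc : IsCyclic M ξ) (hm : IsModular M ξ U) :
    Dense {v : H | ∃ F : ℂ → H →L[ℂ] H, IsAn M U F ∧ F 0 ξ = v} := by
  rw [Metric.dense_iff]
  intro x r hr
  obtain ⟨v, hv, a, ha, rfl⟩ := Metric.dense_iff.1 hcyc x (r / 2) (half_pos hr)
  obtain ⟨F, hF, -, hlim, -⟩ := pApx H M ξ U hm a ha
  have h1 := (Metric.tendsto_atTop.1 (hlim ξ)) (r / 2) (half_pos hr)
  obtain ⟨n, hn⟩ := h1
  refine ⟨F n 0 ξ, ?_, F n, hF n, rfl⟩
  rw [Metric.mem_ball] at hv ⊢
  have := hn n le_rfl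
  linarith [dist_triangle (F n 0 ξ) (a ξ) x]

theorem exists_J (hcyc : IsCyclic M ξ) (hm : IsModular M ξ U) (x : H) :
    ∃ y : H, ∀ G : ℂ → H →L[ℂ] H, IsAn M U G → ‖star (G (I / 2)) ξ - y‖ = ‖G 0 ξ - x‖ := by
  have hd := dense_an hcyc hm
  have h1 : ∀ n : ℕ, ∃ F : ℂ → H →L[ℂ] H, IsAn M U F ∧ ‖F 0 ξ - x‖ < 1 / ((n : ℝ) + 1) := by
    intro n
    obtain ⟨v, hv, F, hF, rfl⟩ := Metric.dense_iff.1 hd x (1 / ((n : ℝ) + 1)) (by positivity)
    refine ⟨F, hF, ?_⟩
    rwa [Metric.mem_ball, dist_eq_norm] at hv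
  choose F hF hFx using h1
  have hlim : Tendsto (fun n => F n 0 ξ) atTop (𝓝 x) := by
    rw [tendsto_iff_norm_sub_tendsto_zero]
    exact squeeze_zero (fun _ => norm_nonneg _) (fun n => (hFx n).le)
      tendsto_one_div_add_atTop_nhds_zero_nat
  have hcau : CauchySeq (fun n => star (F n (I / 2)) ξ) := by
    have h2 := hlim.cauchySeq
    rw [Metric.cauchySeq_iff] at h2 ⊢
    intro ε hε
    obtain ⟨N, hN⟩ := h2 ε hε
    refine ⟨N, fun m hm' n hn => ?_⟩
    rw [dist_eq_norm, norm_pair hm (hF m) (hF n), ← dist_eq_norm]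
    exact hN m hm' n hn
  obtain ⟨y, hy⟩ := cauchySeq_tendsto_of_complete hcau
  refine ⟨y, fun G hG => ?_⟩
  have h3 : Tendsto (fun n => ‖star (G (I / 2)) ξ - star (F n (I / 2)) ξ‖) atTop
      (𝓝 ‖star (G (I / 2)) ξ - y‖) := (hy.const_sub _).norm
  have h4 : Tendsto (fun n => ‖G 0 ξ - F n 0 ξ‖) atTop (𝓝 ‖G 0 ξ - x‖) := (hlim.const_sub _).norm
  have h5 : (fun n => ‖star (G (I / 2)) ξ - star (F n (I / 2)) ξ‖) =
      fun n => ‖G 0 ξ - F n 0 ξ‖ := funext fun n => norm_pair hm hG (hF n)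
  rw [h5] at h3
  exact tendsto_nhds_unique h3 h4

/-- the modular conjugation -/
def Jm (hcyc : IsCyclic M ξ) (hm : IsModular M ξ U) (x : H) : H :=
  Classical.choose (exists_J hcyc hm x)

section J

variable (hcyc : IsCyclic M ξ) (hm : IsModular M ξ U)

theorem Jm_spec (x : H) (G : ℂ → H →L[ℂ] H) (hG : IsAn M U G) :
    ‖star (G (I / 2)) ξ - Jm hcyc hm x‖ = ‖G 0 ξ - x‖ :=
  Classical.choose_spec (exists_J hcyc hm x) G hG

theorem Jm_an {G : ℂ → H →L[ℂ] H} (hG : IsAn M U G) :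
    Jm hcyc hm (G 0 ξ) = star (G (I / 2)) ξ := by
  have h1 := Jm_spec hcyc hm (G 0 ξ) G hG
  rw [sub_self, norm_zero, norm_eq_zero, sub_eq_zero] at h1
  exact h1.symm

theorem Jm_isom (x y : H) : ‖Jm hcyc hm x - Jm hcyc hm y‖ = ‖x - y‖ := by
  have h1 : Dense {v : H | ∃ F : ℂ → H →L[ℂ] H, IsAn M U F ∧ F 0 ξ = v} := dense_an hcyc hm
  have key : ∀ ε : ℝ, 0 < ε → |‖Jm hcyc hm x - Jm hcyc hm y‖ - ‖x - y‖| ≤ 2 * ε := by
    intro ε hε
    obtain ⟨v, hv, G, hG, rfl⟩ := Metric.dense_iff.1 h1 x ε hε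
    rw [Metric.mem_ball, dist_eq_norm] at hv
    have e1 := Jm_spec hcyc hm x G hG
    have e2 := Jm_spec hcyc hm y G hG
    have a1 : |‖Jm hcyc hm x - Jm hcyc hm y‖ - ‖star (G (I / 2)) ξ - Jm hcyc hm y‖| ≤
        ‖G 0 ξ - x‖ := by
      refine (abs_norm_sub_norm_le _ _).trans ?_
      rw [sub_sub_sub_cancel_right, norm_sub_rev, e1]
    have a2 : |‖G 0 ξ - y‖ - ‖x - y‖| ≤ ‖G 0 ξ - x‖ := by
      refine (abs_norm_sub_norm_le _ _).trans ?_
      rw [sub_sub_sub_cancel_right]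
    rw [e2] at a1
    have := abs_sub_le ‖Jm hcyc hm x - Jm hcyc hm y‖ ‖G 0 ξ - y‖ ‖x - y‖
    linarith
  have h2 : |‖Jm hcyc hm x - Jm hcyc hm y‖ - ‖x - y‖| ≤ 0 := by
    refine le_of_forall_pos_le_add fun ε hε => ?_
    have := key (ε / 2) (half_pos hε)
    linarith
  have h3 := abs_nonpos_iff.1 h2
  linarith

theorem Jm_cont : Continuous (Jm hcyc hm) := by
  refine (Isometry.of_dist_eq fun x y => ?_).continuous
  rw [dist_eq_norm, dist_eq_norm, Jm_isom]

/-- an equality of continuous functions is checked at the vectors of analytic elements -/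
theorem ext_an {X : Type} [TopologicalSpace X] [T2Space X] {f g : H → X} (hcyc : IsCyclic M ξ)
    (hm : IsModular M ξ U) (hf : Continuous f) (hg : Continuous g)
    (h : ∀ F : ℂ → H →L[ℂ] H, IsAn M U F → f (F 0 ξ) = g (F 0 ξ)) (x : H) : f x = g x := by
  have h1 := Continuous.ext_on (dense_an hcyc hm) hf hg (by
    rintro v ⟨F, hF, rfl⟩
    exact h F hF)
  exact congrFun h1 x

theorem Jm_add (x y : H) : Jm hcyc hm (x + y) = Jm hcyc hm x + Jm hcyc hm y := by
  have hJ := Jm_cont hcyc hm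
  refine ext_an (f := fun x => Jm hcyc hm (x + y)) (g := fun x => Jm hcyc hm x + Jm hcyc hm y)
    hcyc hm (hJ.comp (continuous_id.add continuous_const)) (hJ.add continuous_const) ?_ x
  intro F hF
  refine ext_an (f := fun y => Jm hcyc hm (F 0 ξ + y))
    (g := fun y => Jm hcyc hm (F 0 ξ) + Jm hcyc hm y)
    hcyc hm (hJ.comp (continuous_const.add continuous_id)) (continuous_const.add hJ) ?_ y
  intro G hG
  have h1 := Jm_an hcyc hm (an_add hF hG)
  simp only [add_apply, star_add] at h1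
  rw [h1, Jm_an hcyc hm hF, Jm_an hcyc hm hG]

theorem Jm_smul (c : ℂ) (x : H) : Jm hcyc hm (c • x) = conj c • Jm hcyc hm x := by
  have hJ := Jm_cont hcyc hm
  refine ext_an (f := fun x => Jm hcyc hm (c • x)) (g := fun x => conj c • Jm hcyc hm x)
    hcyc hm (hJ.comp (continuous_const_smul c)) (hJ.const_smul _) ?_ x
  intro F hF
  have h1 := Jm_an hcyc hm (an_smul hF c)
  simp only [smul_apply, star_smul] at h1
  rw [h1, Jm_an hcyc hm hF]
  rfl

theorem Jm_inv (x : H) : Jm hcyc hm (Jm hcyc hm x) = x := by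
  have hJ := Jm_cont hcyc hm
  refine ext_an (f := fun x => Jm hcyc hm (Jm hcyc hm x)) (g := fun x => x)
    hcyc hm (hJ.comp hJ) continuous_id ?_ x
  intro F hF
  rw [Jm_an hcyc hm hF]
  have hG := an_shift hm (an_star hm hF) (-(I / 2))
  have h1 := Jm_an hcyc hm hG
  have e1 : conj (0 + -(I / 2) : ℂ) = I / 2 := by rw [zero_add, map_neg, half_conj, neg_neg]
  have e2 : conj (I / 2 + -(I / 2) : ℂ) = 0 := by rw [add_neg_cancel, map_zero]
  simp only [e1, e2, star_star] at h1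
  exact h1

theorem Jm_inner (x y : H) : ⟪Jm hcyc hm x, Jm hcyc hm y⟫_ℂ = ⟪y, x⟫_ℂ := by
  have hJ := Jm_cont hcyc hm
  refine ext_an (f := fun x => ⟪Jm hcyc hm x, Jm hcyc hm y⟫_ℂ) (g := fun x => ⟪y, x⟫_ℂ)
    hcyc hm (hJ.inner continuous_const) (continuous_const.inner continuous_id) ?_ x
  intro F hF
  refine ext_an (f := fun y => ⟪Jm hcyc hm (F 0 ξ), Jm hcyc hm y⟫_ℂ) (g := fun y => ⟪y, F 0 ξ⟫_ℂ)
    hcyc hm (continuous_const.inner hJ) (continuous_id.inner continuous_const) ?_ y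
  intro G hG
  rw [Jm_an hcyc hm hF, Jm_an hcyc hm hG, pair hm hF hG]

theorem Jm_fix : Jm hcyc hm ξ = ξ := by
  have h1 := Jm_an hcyc hm (an_one hm)
  simpa using h1

theorem Jm_U (t : ℝ) (x : H) : Jm hcyc hm (U t x) = U t (Jm hcyc hm x) := by
  have hJ := Jm_cont hcyc hm
  refine ext_an (f := fun x => Jm hcyc hm (U t x)) (g := fun x => U t (Jm hcyc hm x))
    hcyc hm (hJ.comp (U t).continuous) ((U t).continuous.comp hJ) ?_ x
  intro F hF
  have h1 := Jm_an hcyc hm (an_shift hm hF (t : ℂ))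
  have e1 : F (0 + (t : ℂ)) ξ = U t (F 0 ξ) := by
    rw [zero_add, hF.ext, sgm_apply hm, hm.fix]
  have e2 : star (F (I / 2 + (t : ℂ))) ξ = U t (star (F (I / 2)) ξ) := by
    rw [add_comm, Pool.Agent.W303.CB.a2a H M ξ U hm F hF t (I / 2), sgm_star hm, sgm_apply hm, hm.fix]
  simp only [e1, e2] at h1
  rw [h1, Jm_an hcyc hm hF]

/-- the right action -/
def Rm (a : H →L[ℂ] H) : H →L[ℂ] H :=
  LinearMap.mkContinuous
    { toFun := fun x => Jm hcyc hm (star a (Jm hcyc hm x))
      map_add' := by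
        intro x y
        rw [Jm_add, map_add, Jm_add]
      map_smul' := by
        intro c x
        rw [Jm_smul, map_smul, Jm_smul, Complex.conj_conj]
        rfl } ‖a‖ (by
      intro x
      have h0 : ∀ x, ‖Jm hcyc hm x‖ = ‖x‖ := by
        intro x
        have h1 := Jm_isom hcyc hm x 0
        have h2 : Jm hcyc hm 0 = 0 := by
          have := Jm_smul hcyc hm 0 0
          simpa using this
        rwa [h2, sub_zero, sub_zero] at h1
      change ‖Jm hcyc hm (star a (Jm hcyc hm x))‖ ≤ _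
      rw [h0]
      refine (ContinuousLinearMap.le_opNorm _ _).trans ?_
      rw [norm_star, h0])

theorem Rm_apply (a : H →L[ℂ] H) (x : H) :
    Rm hcyc hm a x = Jm hcyc hm (star a (Jm hcyc hm x)) := rfl

/-- the right action of analytic elements -/
theorem Rm_an {F X : ℂ → H →L[ℂ] H} (hF : IsAn M U F) (hX : IsAn M U X) :
    Rm hcyc hm (F 0) (X 0 ξ) = X 0 (F (-(I / 2)) ξ) := by
  rw [Rm_apply, Jm_an hcyc hm hX]
  have hY := an_star hm (an_mul hm (an_shift hm hX (I / 2)) hF)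
  have h1 := Jm_an hcyc hm hY
  simp only [map_zero, zero_add, star_star, half_conj, neg_add_cancel] at h1
  rw [star_mul] at h1
  exact h1

theorem Rm_comm_an {F B : ℂ → H →L[ℂ] H} (hF : IsAn M U F) (hB : IsAn M U B) (x : H) :
    Rm hcyc hm (F 0) (B 0 x) = B 0 (Rm hcyc hm (F 0) x) := by
  refine ext_an (f := fun x => Rm hcyc hm (F 0) (B 0 x)) (g := fun x => B 0 (Rm hcyc hm (F 0) x))
    hcyc hm (by fun_prop) (by fun_prop) ?_ x
  intro X hX
  have h1 := Rm_an hcyc hm hF (an_mul hm hB hX)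
  have h2 : (B 0 * X 0) ξ = B 0 (X 0 ξ) := rfl
  simp only [h2] at h1
  rw [h1, Rm_an hcyc hm hF hX]
  rfl

theorem Rm_comm {a b : H →L[ℂ] H} (ha : a ∈ M) (hb : b ∈ M) (x : H) :
    Rm hcyc hm a (b x) = b (Rm hcyc hm a x) := by
  obtain ⟨F, hF, -, -, hFs⟩ := pApx H M ξ U hm a ha
  obtain ⟨G, hG, -, hGl, -⟩ := pApx H M ξ U hm b hb
  -- first `b`
  have h1 : ∀ n : ℕ, ∀ x : H, Rm hcyc hm (F n 0) (b x) = b (Rm hcyc hm (F n 0) x) := by
    intro n x
    have a1 : Tendsto (fun k => Rm hcyc hm (F n 0) (G k 0 x)) atTop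
        (𝓝 (Rm hcyc hm (F n 0) (b x))) :=
      ((Rm hcyc hm (F n 0)).continuous.tendsto _).comp (hGl x)
    have a2 : Tendsto (fun k => G k 0 (Rm hcyc hm (F n 0) x)) atTop
        (𝓝 (b (Rm hcyc hm (F n 0) x))) := hGl _
    have a3 : (fun k => Rm hcyc hm (F n 0) (G k 0 x)) = fun k => G k 0 (Rm hcyc hm (F n 0) x) :=
      funext fun k => Rm_comm_an hcyc hm (hF n) (hG k) x
    rw [a3] at a1
    exact tendsto_nhds_unique a1 a2
  have h2 : ∀ x : H, Tendsto (fun n => Rm hcyc hm (F n 0) x) atTop (𝓝 (Rm hcyc hm a x)) := by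
    intro x
    simp only [Rm_apply]
    exact ((Jm_cont hcyc hm).tendsto _).comp (hFs _)
  have a1 := h2 (b x)
  have a2 := (b.continuous.tendsto _).comp (h2 x)
  have a3 : (fun n => Rm hcyc hm (F n 0) (b x)) = (⇑b ∘ fun n => Rm hcyc hm (F n 0) x) :=
    funext fun n => h1 n x
  rw [a3] at a1
  exact tendsto_nhds_unique a1 a2

end J

end

end Pool.Agent.H75.BC.JC

namespace Pool.Agent.H75.BC

open Pool.Agent.W662.CB JC

theorem pJ : S_J := by
  intro H _ _ _ M ξ U _ hcyc _ hm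
  refine ⟨Jm hcyc hm, Rm hcyc hm, ?_⟩
  exact
    { J_add := Jm_add hcyc hm
      J_smul := Jm_smul hcyc hm
      J_inv := Jm_inv hcyc hm
      J_inner := Jm_inner hcyc hm
      J_fix := Jm_fix hcyc hm
      J_U := Jm_U hcyc hm
      act := fun a x => Rm_apply hcyc hm a x
      comm := fun a b ha hb => ContinuousLinearMap.ext fun x => Rm_comm hcyc hm ha hb x
      an := fun F hF => by
        have h1 := Rm_an hcyc hm hF (an_one hm)
        simpa using h1 }

end Pool.Agent.H75.BC
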