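import Pool.Agent.H75.BC.Stmts2

/-!
L2: minimax (helper2).
-/

set_option autoImplicit false

open MeasureTheory Filter Topology Complex
open scoped InnerProductSpace ENNReal

namespace Pool.Agent.H75.BC.Mm

open Pool.Agent.W662.CB Pool.Agent.H75.BC

noncomputable section

variable {H : Type} [NormedAddCommGroup H] [InnerProductSpace ℂ H] [CompleteSpace H]

theorem sq_conv (T : H →L[ℂ] H) (v w : H) {s t : ℝ} (h0 : 0 ≤ s) (h0' : 0 ≤ t) (hst : s + t = 1) :
    ‖T (s • v + t • w)‖ ^ 2 ≤ s * ‖T v‖ ^ 2 + t * ‖T w‖ ^ 2 := by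
  have e1 : T (s • v + t • w) = s • T v + t • T w := by
    rw [map_add]
    congr 1
    · exact T.toLinearMap.map_smul_of_tower s v
    · exact T.toLinearMap.map_smul_of_tower t w
  have h1 : ‖T (s • v + t • w)‖ ≤ s * ‖T v‖ + t * ‖T w‖ := by
    rw [e1]
    refine (norm_add_le _ _).trans ?_
    rw [norm_smul, norm_smul, Real.norm_of_nonneg h0, Real.norm_of_nonneg h0']
  have h2 : ‖T (s • v + t • w)‖ ^ 2 ≤ (s * ‖T v‖ + t * ‖T w‖) ^ 2 := by gcongr
  have h3 : s * ‖T v‖ ^ 2 + t * ‖T w‖ ^ 2 - (s * ‖T v‖ + t * ‖T w‖) ^ 2 =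
      s * t * (‖T v‖ - ‖T w‖) ^ 2 := by
    have : t = 1 - s := by linarith
    subst this
    ring
  have h4 : 0 ≤ s * t * (‖T v‖ - ‖T w‖) ^ 2 := by positivity
  linarith

/-- the finite minimax lemma -/
theorem fin_mm {n : ℕ} (T : Fin n → H →L[ℂ] H) (b : Fin n → ℝ) (η : H) (ε δ : ℝ) (hε : 0 ≤ ε)
    (hδ : 0 < δ)
    (h : ∀ μ : Fin n → ℝ, (∀ k, 0 ≤ μ k) → ∑ k, μ k = 1 → ∀ δ : ℝ, 0 < δ →
      ∃ ζ : H, ‖ζ - η‖ ≤ ε ∧ ∑ k, μ k * ‖T k ζ‖ ^ 2 ≤ ∑ k, μ k * b k + δ) :
    ∃ ζ : H, ‖ζ - η‖ ≤ ε ∧ ∀ k, ‖T k ζ‖ ^ 2 < b k + δ := by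
  by_contra hcon
  push Not at hcon
  set s : Set (Fin n → ℝ) := {d | ∀ k, d k < b k + δ} with hs
  set t : Set (Fin n → ℝ) := {d | ∃ ζ : H, ‖ζ - η‖ ≤ ε ∧ ∀ k, ‖T k ζ‖ ^ 2 ≤ d k} with ht
  have hs1 : Convex ℝ s := by
    intro x hx y hy p q h0 h0' hpq k
    have h1 := hx k
    have h2 := hy k
    change p * x k + q * y k < b k + δ
    have e : p * (b k + δ) + q * (b k + δ) = b k + δ := by rw [← add_mul, hpq, one_mul]
    rcases eq_or_lt_of_le h0 with h3 | h3
    · have hq : q = 1 := by linarith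
      rw [← h3, hq]
      linarith
    · have h4 := mul_lt_mul_of_pos_left h1 h3
      have h5 := mul_le_mul_of_nonneg_left h2.le h0'
      linarith
  have hs2 : IsOpen s := by
    have : s = ⋂ k : Fin n, {d : Fin n → ℝ | d k < b k + δ} := by
      ext d
      simp [hs]
    rw [this]
    exact isOpen_iInter_of_finite fun k => isOpen_lt (continuous_apply k) continuous_const
  have ht1 : Convex ℝ t := by
    rintro x ⟨v, hv, hv'⟩ y ⟨w, hw, hw'⟩ p q h0 h0' hpq
    refine ⟨p • v + q • w, ?_, fun k => ?_⟩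
    · have e : p • v + q • w - η = p • (v - η) + q • (w - η) := by
        have : η = p • η + q • η := by rw [← add_smul, hpq, one_smul]
        nth_rewrite 1 [this]
        rw [smul_sub, smul_sub]
        abel
      rw [e]
      refine (norm_add_le _ _).trans ?_
      rw [norm_smul, norm_smul, Real.norm_of_nonneg h0, Real.norm_of_nonneg h0']
      have h1 := mul_le_mul_of_nonneg_left hv h0
      have h2 := mul_le_mul_of_nonneg_left hw h0'
      have h3 : p * ε + q * ε = ε := by rw [← add_mul, hpq, one_mul]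
      linarith
    · refine (sq_conv (T k) v w h0 h0' hpq).trans ?_
      have h1 := mul_le_mul_of_nonneg_left (hv' k) h0
      have h2 := mul_le_mul_of_nonneg_left (hw' k) h0'
      change _ ≤ p * x k + q * y k
      linarith
  have hdisj : Disjoint s t := by
    rw [Set.disjoint_left]
    rintro d hd ⟨ζ, hζ, hζ'⟩
    obtain ⟨k, hk⟩ := hcon ζ hζ
    have := hd k
    have := hζ' k
    linarith
  obtain ⟨f, u, hf1, hf2⟩ := geometric_hahn_banach_open hs1 hs2 ht1 hdisj
  set μ : Fin n → ℝ := fun k => f (Pi.single k 1) with hμ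
  have hf : ∀ d : Fin n → ℝ, f d = ∑ k, μ k * d k := by
    intro d
    have : d = ∑ k, d k • (Pi.single k (1 : ℝ) : Fin n → ℝ) := by
      ext j
      simp [Finset.sum_apply, Pi.single_apply]
    conv_lhs => rw [this]
    rw [map_sum]
    refine Finset.sum_congr rfl fun k _ => ?_
    rw [map_smul, smul_eq_mul, mul_comm]
  set d0 : Fin n → ℝ := fun k => ‖T k η‖ ^ 2 with hd0
  have hd0t : d0 ∈ t := ⟨η, by rw [sub_self, norm_zero]; exact hε, fun k => le_rfl⟩
  have hμ0 : ∀ k, 0 ≤ μ k := by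
    intro k
    by_contra hk
    push Not at hk
    set c : ℝ := (f d0 - u + 1) / (-μ k) with hc
    have hfd := hf2 d0 hd0t
    have hc0 : 0 ≤ c := div_nonneg (by linarith) (by linarith)
    have h1 : d0 + c • (Pi.single k (1 : ℝ) : Fin n → ℝ) ∈ t := by
      refine ⟨η, by rw [sub_self, norm_zero]; exact hε, fun j => ?_⟩
      have : 0 ≤ c * (Pi.single k (1 : ℝ) : Fin n → ℝ) j := by
        refine mul_nonneg hc0 ?_
        rw [Pi.single_apply]
        split_ifs <;> norm_num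
      change ‖T j η‖ ^ 2 ≤ ‖T j η‖ ^ 2 + c * (Pi.single k (1 : ℝ) : Fin n → ℝ) j
      linarith
    have h2 := hf2 _ h1
    rw [map_add, map_smul, smul_eq_mul] at h2
    change u ≤ f d0 + c * μ k at h2
    have h3 : c * μ k = -(f d0 - u + 1) := by
      have hk' : -μ k ≠ 0 := by linarith
      have : c * (-μ k) = f d0 - u + 1 := by
        rw [hc]
        exact div_mul_cancel₀ _ hk'
      linarith
    rw [h3] at h2
    linarith
  set m : ℝ := ∑ k, μ k with hm
  have hm0 : 0 ≤ m := Finset.sum_nonneg fun k _ => hμ0 k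
  have hmp : 0 < m := by
    rcases eq_or_lt_of_le hm0 with h1 | h1
    · exfalso
      have h2 : ∀ k, μ k = 0 := by
        intro k
        have := (Finset.sum_eq_zero_iff_of_nonneg fun k _ => hμ0 k).1 h1.symm k (Finset.mem_univ k)
        exact this
      have h3 : ∀ d, f d = 0 := by
        intro d
        rw [hf]
        exact Finset.sum_eq_zero fun k _ => by rw [h2 k, zero_mul]
      have h4 := hf1 b fun k => by linarith
      have h5 := hf2 d0 hd0t
      rw [h3] at h4 h5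
      linarith
    · exact h1
  obtain ⟨ζ, hζ, hζ'⟩ := h (fun k => μ k / m) (fun k => div_nonneg (hμ0 k) hm0)
    (by rw [← Finset.sum_div, ← hm, div_self hmp.ne']) (δ / 2) (by positivity)
  have h1 := hf2 (fun k => ‖T k ζ‖ ^ 2) ⟨ζ, hζ, fun k => le_rfl⟩
  have h2 := hf1 (fun k => b k + δ / 2) fun k => by linarith
  rw [hf] at h1 h2
  have h3 : ∑ k, μ k * (b k + δ / 2) = ∑ k, μ k * b k + m * (δ / 2) := by
    rw [hm, Finset.sum_mul, ← Finset.sum_add_distrib]
    exact Finset.sum_congr rfl fun k _ => by ring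
  have h4 : ∑ k, μ k / m * ‖T k ζ‖ ^ 2 = (∑ k, μ k * ‖T k ζ‖ ^ 2) / m := by
    rw [Finset.sum_div]
    exact Finset.sum_congr rfl fun k _ => by ring
  have h5 : ∑ k, μ k / m * b k = (∑ k, μ k * b k) / m := by
    rw [Finset.sum_div]
    exact Finset.sum_congr rfl fun k _ => by ring
  rw [h4, h5, div_add' _ _ _ hmp.ne', div_le_div_iff_of_pos_right hmp] at hζ'
  linarith

/-- **L2** -/
theorem mm : S_Mm := by
  intro H _ _ _ ι T b η ε hε hb h
  set K : Set (WeakDual ℂ H) := WeakDual.toStrongDual ⁻¹'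
    Metric.closedBall (InnerProductSpace.toDual ℂ H η) ε with hK
  have hKc : IsCompact K := WeakDual.isCompact_closedBall (𝕜 := ℂ) (E := H) _ _
  set Z : WeakDual ℂ H → H := fun l => (InnerProductSpace.toDual ℂ H).symm (WeakDual.toStrongDual l)
    with hZ
  have hZi : ∀ (l : WeakDual ℂ H) (v : H), ⟪Z l, v⟫_ℂ = l v := by
    intro l v
    exact InnerProductSpace.toDual_symm_apply
  set C : ι × ℕ → Set (WeakDual ℂ H) := fun i => {l | ‖T i.1 (Z l)‖ ≤
    Real.sqrt (b i.1 + 1 / (i.2 + 1))} with hC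
  have hCc : ∀ i, IsClosed (C i) := by
    intro i
    have e : C i = ⋂ w : H, {l : WeakDual ℂ H | ‖l (star (T i.1) w)‖ ≤
        Real.sqrt (b i.1 + 1 / (i.2 + 1)) * ‖w‖} := by
      ext l
      simp only [hC, Set.mem_setOf_eq, Set.mem_iInter]
      have key : ∀ w : H, l (star (T i.1) w) = ⟪T i.1 (Z l), w⟫_ℂ := by
        intro w
        rw [← hZi, ContinuousLinearMap.star_eq_adjoint, ContinuousLinearMap.adjoint_inner_right]
      constructor
      · intro h1 w
        rw [key w]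
        refine (norm_inner_le_norm _ _).trans ?_
        exact mul_le_mul_of_nonneg_right h1 (norm_nonneg _)
      · intro h1
        have h2 := h1 (T i.1 (Z l))
        rw [key, inner_self_eq_norm_sq_to_K] at h2
        have h3 : ‖((‖T i.1 (Z l)‖ : ℂ)) ^ 2‖ = ‖T i.1 (Z l)‖ ^ 2 := by
          rw [norm_pow, Complex.norm_real, norm_norm]
        have h4 : ‖T i.1 (Z l)‖ ^ 2 ≤ Real.sqrt (b i.1 + 1 / (i.2 + 1)) * ‖T i.1 (Z l)‖ := by
          rw [← h3]
          exact h2
        rcases eq_or_lt_of_le (norm_nonneg (T i.1 (Z l))) with h5 | h5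
        · rw [← h5]
          exact Real.sqrt_nonneg _
        · rw [sq] at h4
          exact le_of_mul_le_mul_right h4 h5
    rw [e]
    refine isClosed_iInter fun w => isClosed_le ?_ continuous_const
    exact (WeakDual.eval_continuous _).norm
  have hfin : ∀ u : Finset (ι × ℕ), (K ∩ ⋂ i ∈ u, C i).Nonempty := by
    intro u
    classical
    obtain ⟨δ, hδ, hδu⟩ : ∃ δ : ℝ, 0 < δ ∧ ∀ i ∈ u, δ ≤ 1 / ((i.2 : ℝ) + 1) := by
      refine ⟨1 / ((u.sup fun i => i.2 : ℕ) + 1 : ℝ), by positivity, fun i hi => ?_⟩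
      have : i.2 ≤ u.sup fun i => i.2 := Finset.le_sup (f := fun i : ι × ℕ => i.2) hi
      have : (i.2 : ℝ) ≤ (u.sup fun i => i.2 : ℕ) := by exact_mod_cast this
      exact one_div_le_one_div_of_le (by positivity) (by linarith)
    set n := u.card with hn
    set g : Fin n → ι := fun k => ((u.equivFin.symm k : u) : ι × ℕ).1 with hg
    obtain ⟨ζ, hζ, hζ'⟩ := fin_mm (fun k => T (g k)) (fun k => b (g k)) η ε δ hε hδ
      (fun μ h1 h2 δ h3 => h n g μ h1 h2 δ h3)
    refine ⟨StrongDual.toWeakDual (InnerProductSpace.toDual ℂ H ζ), ?_, ?_⟩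
    · change dist (InnerProductSpace.toDual ℂ H ζ) (InnerProductSpace.toDual ℂ H η) ≤ ε
      rw [LinearIsometryEquiv.dist_map, dist_eq_norm]
      exact hζ
    · rw [Set.mem_iInter₂]
      intro i hi
      change ‖T i.1 ((InnerProductSpace.toDual ℂ H).symm (InnerProductSpace.toDual ℂ H ζ))‖ ≤
        Real.sqrt (b i.1 + 1 / (i.2 + 1))
      rw [LinearIsometryEquiv.symm_apply_apply]
      have h1 := hζ' (u.equivFin ⟨i, hi⟩)
      have h2 : g (u.equivFin ⟨i, hi⟩) = i.1 := by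
        rw [hg]
        simp
      rw [h2] at h1
      refine Real.le_sqrt_of_sq_le ?_
      have := hδu i hi
      linarith
  obtain ⟨l, hlK, hlC⟩ := hKc.inter_iInter_nonempty C hCc hfin
  refine ⟨Z l, ?_, fun i => ?_⟩
  · have h1 : dist (WeakDual.toStrongDual l) (InnerProductSpace.toDual ℂ H η) ≤ ε := hlK
    have h2 : Z l - η = (InnerProductSpace.toDual ℂ H).symm
        (WeakDual.toStrongDual l - InnerProductSpace.toDual ℂ H η) := by
      rw [map_sub, LinearIsometryEquiv.symm_apply_apply]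
    rw [h2, LinearIsometryEquiv.norm_map, ← dist_eq_norm]
    exact h1
  · rw [Set.mem_iInter] at hlC
    have h1 : ∀ n : ℕ, ‖T i (Z l)‖ ^ 2 ≤ b i + 1 / ((n : ℝ) + 1) := by
      intro n
      have h2 : ‖T i (Z l)‖ ≤ Real.sqrt (b i + 1 / ((n : ℝ) + 1)) := hlC (i, n)
      have h3 : 0 ≤ b i + 1 / ((n : ℝ) + 1) := add_nonneg (hb i) (by positivity)
      calc ‖T i (Z l)‖ ^ 2 ≤ Real.sqrt (b i + 1 / ((n : ℝ) + 1)) ^ 2 := by gcongr
        _ = _ := Real.sq_sqrt h3
    have h2 : Tendsto (fun n : ℕ => b i + 1 / ((n : ℝ) + 1)) atTop (𝓝 (b i + 0)) :=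
      tendsto_const_nhds.add tendsto_one_div_add_atTop_nhds_zero_nat
    rw [add_zero] at h2
    exact ge_of_tendsto' h2 h1

end

end Pool.Agent.H75.BC.Mm
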