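import Pool.Agent.H75.BC.T.Lw
import Pool.Agent.H75.BC.T.Mm

/-!
T1: the Lipschitz lemma (helper2).
-/

set_option autoImplicit false

open MeasureTheory Filter Topology Complex
open scoped InnerProductSpace ENNReal

namespace Pool.Agent.H75.BC.Lip

open Pool.Agent.W662.CB Pool.Agent.H75.BC

noncomputable section

variable {H : Type} [NormedAddCommGroup H] [InnerProductSpace ℂ H] [CompleteSpace H]
variable {M N : VonNeumannAlgebra H} {ξ : H} {U : ℝ → H →L[ℂ] H} {J : H → H}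
  {ρ : (H →L[ℂ] H) → (H →L[ℂ] H)}

/-- `|φ(xa) - φ(ax)| ≤ 2 ‖x‖ ‖aξ - ξa‖` -/
theorem vst_comm_le (hs : Std M N ξ U) (hr : RAct M ξ U J ρ) {a x : H →L[ℂ] H} (ha : a ∈ M)
    (hx : x ∈ M) : ‖vst ξ (x * a) - vst ξ (a * x)‖ ≤ 2 * ‖x‖ * ‖a ξ - ρ a ξ‖ := by
  have e1 : vst ξ (x * a) = ⟪star x ξ, a ξ⟫_ℂ := by
    unfold vst
    rw [ContinuousLinearMap.star_eq_adjoint, ContinuousLinearMap.adjoint_inner_left]
    rfl
  have e2 : vst ξ (a * x) = ⟪star a ξ, x ξ⟫_ℂ := by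
    unfold vst
    rw [ContinuousLinearMap.star_eq_adjoint, ContinuousLinearMap.adjoint_inner_left]
    rfl
  have e3 : ⟪star x ξ, ρ a ξ⟫_ℂ = ⟪ρ (star a) ξ, x ξ⟫_ℂ := by
    rw [ContinuousLinearMap.star_eq_adjoint, ContinuousLinearMap.adjoint_inner_left,
      ← RB.comm_apply hr ha hx, RB.ρ_star hr, ContinuousLinearMap.star_eq_adjoint,
      ContinuousLinearMap.adjoint_inner_left]
  have e4 : vst ξ (x * a) - vst ξ (a * x) =
      ⟪star x ξ, a ξ - ρ a ξ⟫_ℂ - ⟪star a ξ - ρ (star a) ξ, x ξ⟫_ℂ := by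
    rw [e1, e2, inner_sub_right, inner_sub_left, e3]
    ring
  have h1 : ‖star x ξ‖ ≤ ‖x‖ := by
    have := (star x).le_opNorm ξ
    rwa [hs.unit, mul_one, norm_star] at this
  have h2 : ‖x ξ‖ ≤ ‖x‖ := by
    have := x.le_opNorm ξ
    rwa [hs.unit, mul_one] at this
  have h3 : ‖⟪star x ξ, a ξ - ρ a ξ⟫_ℂ‖ ≤ ‖x‖ * ‖a ξ - ρ a ξ‖ :=
    (norm_inner_le_norm _ _).trans (mul_le_mul_of_nonneg_right h1 (norm_nonneg _))
  have h4 : ‖⟪star a ξ - ρ (star a) ξ, x ξ⟫_ℂ‖ ≤ ‖a ξ - ρ a ξ‖ * ‖x‖ := by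
    refine (norm_inner_le_norm _ _).trans ?_
    rw [RB.sym1 hr]
    exact mul_le_mul_of_nonneg_left h2 (norm_nonneg _)
  rw [e4]
  refine (norm_sub_le _ _).trans ?_
  linarith

theorem fnorm_nonneg (c : ℝ) (a : H →L[ℂ] H) : 0 ≤ fnorm N ξ c a := by
  refine Real.sSup_nonneg ?_
  rintro r ⟨x, -, -, rfl⟩
  exact norm_nonneg _

theorem fnorm_le (hs : Std M N ξ U) (hr : RAct M ξ U J ρ) {a : H →L[ℂ] H} (ha : a ∈ N) :
    fnorm N ξ 1 a ≤ 2 * ‖a ξ - ρ a ξ‖ := by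
  refine Real.sSup_le ?_ (by positivity)
  rintro r ⟨x, hx, hx1, rfl⟩
  rw [Complex.ofReal_one, one_mul]
  refine (vst_comm_le hs hr (hs.le _ ha) (hs.le _ hx)).trans ?_
  refine mul_le_mul_of_nonneg_right ?_ (norm_nonneg _)
  linarith

theorem un_norm_le {w : H →L[ℂ] H} (h : star w * w = 1) : ‖w‖ ≤ 1 :=
  ContinuousLinearMap.opNorm_le_bound _ zero_le_one fun v => by rw [Lw.norm_un h, one_mul]

/-- the modulus of continuity -/
theorem modulus (hs : Std M N ξ U) (hr : RAct M ξ U J ρ) {x : H →L[ℂ] H} (hx : x ∈ Bic N M ξ) :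
    ∀ ε : ℝ, 0 < ε → ∃ A : ℝ, 0 ≤ A ∧ ∀ w : H →L[ℂ] H, w ∈ N → star w * w = 1 → w * star w = 1 →
      ‖(x * w - w * x) ξ‖ ^ 2 ≤ ε + A * ‖w ξ - ρ w ξ‖ ^ 2 := by
  intro ε hε
  by_contra hcon
  push Not at hcon
  have h1 : ∀ n : ℕ, ∃ w : H →L[ℂ] H, w ∈ N ∧ star w * w = 1 ∧ w * star w = 1 ∧
      ε + ((n : ℝ) + 1) * ‖w ξ - ρ w ξ‖ ^ 2 < ‖(x * w - w * x) ξ‖ ^ 2 := fun n =>
    hcon _ (by positivity)
  choose w hw1 hw2 hw3 hw4 using h1
  have hxn : ∀ n, ‖(x * w n - w n * x) ξ‖ ≤ 2 * ‖x‖ := by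
    intro n
    have h2 : ‖x (w n ξ)‖ ≤ ‖x‖ := by
      have := x.le_opNorm (w n ξ)
      rwa [Lw.norm_un (hw2 n), hs.unit, mul_one] at this
    have h3 : ‖w n (x ξ)‖ ≤ ‖x‖ := by
      rw [Lw.norm_un (hw2 n)]
      have := x.le_opNorm ξ
      rwa [hs.unit, mul_one] at this
    change ‖x (w n ξ) - w n (x ξ)‖ ≤ 2 * ‖x‖
    refine (norm_sub_le _ _).trans ?_
    linarith
  have h2 : ∀ n : ℕ, ‖w n ξ - ρ (w n) ξ‖ ^ 2 ≤ (4 * ‖x‖ ^ 2) * (1 / ((n : ℝ) + 1)) := by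
    intro n
    have h3 := hw4 n
    have h4 : ‖(x * w n - w n * x) ξ‖ ^ 2 ≤ (2 * ‖x‖) ^ 2 := by
      have := hxn n
      gcongr
    rw [mul_one_div, le_div_iff₀ (by positivity)]
    nlinarith
  have h3 : Tendsto (fun n => ‖w n ξ - ρ (w n) ξ‖ ^ 2) atTop (𝓝 0) := by
    refine squeeze_zero (fun n => by positivity) h2 ?_
    have := (tendsto_one_div_add_atTop_nhds_zero_nat (𝕜 := ℝ)).const_mul (4 * ‖x‖ ^ 2)
    rwa [mul_zero] at this
  have h4 : Tendsto (fun n => ‖w n ξ - ρ (w n) ξ‖) atTop (𝓝 0) := by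
    have h5 := h3.sqrt
    rw [Real.sqrt_zero] at h5
    refine h5.congr fun n => ?_
    exact Real.sqrt_sq (norm_nonneg _)
  have hAC : IsAC N ξ 1 w := by
    refine ⟨hw1, ⟨1, fun n => un_norm_le (hw2 n)⟩, ?_⟩
    refine squeeze_zero (fun n => fnorm_nonneg 1 _) (fun n => fnorm_le hs hr (hw1 n)) ?_
    have := h4.const_mul 2
    rwa [mul_zero] at this
  have h5 := hx.2 w hAC ξ
  have h6 : Tendsto (fun n => ‖(x * w n - w n * x) ξ‖ ^ 2) atTop (𝓝 0) := by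
    have := h5.norm.pow 2
    rwa [norm_zero, zero_pow two_ne_zero] at this
  have h7 := (h6.eventually (gt_mem_nhds hε)).exists
  obtain ⟨n, hn⟩ := h7
  have h8 := hw4 n
  have h9 : 0 ≤ ((n : ℝ) + 1) * ‖w n ξ - ρ (w n) ξ‖ ^ 2 := by positivity
  linarith

theorem mem_of_comm {x : H →L[ℂ] H} (h : ∀ b ∈ N.commutant, b * x = x * b) : x ∈ N := by
  rw [← N.commutant_commutant, VonNeumannAlgebra.mem_commutant_iff]
  exact h

theorem exp_mem {a : H →L[ℂ] H} (ha : a ∈ N) (c : ℂ) : NormedSpace.exp (c • a) ∈ N := by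
  refine mem_of_comm fun b hb => ?_
  have h1 : Commute b a := by
    have := (VonNeumannAlgebra.mem_commutant_iff.1 hb) a ha
    exact this.symm
  exact ((h1.smul_right c).exp_right).eq

/-- the Lipschitz estimate for unitaries implies it for self-adjoint elements -/
theorem lip_sa (hr : RAct M ξ U J ρ) {C : ℝ} {ζ : H}
    (h : ∀ w : H →L[ℂ] H, Lw.Un N w → ‖w ζ - ρ w ζ‖ ^ 2 ≤ C * ‖w ξ - ρ w ξ‖ ^ 2)
    {a : H →L[ℂ] H} (ha : a ∈ N) (hsa : IsSelfAdjoint a) :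
    ‖a ζ - ρ a ζ‖ ^ 2 ≤ C * ‖a ξ - ρ a ξ‖ ^ 2 := by
  set x : H →L[ℂ] H := I • a with hx
  set u : ℝ → H →L[ℂ] H := fun t => NormedSpace.exp (t • x) with hu
  have hxs : x ∈ skewAdjoint (H →L[ℂ] H) := hsa.smul_mem_skewAdjoint conj_I
  have hun : ∀ t, Lw.Un N (u t) := by
    intro t
    have h1 : t • x ∈ skewAdjoint (H →L[ℂ] H) := skewAdjoint.smul_mem t hxs
    have h2 : NormedSpace.exp (t • x) ∈ unitary (H →L[ℂ] H) := by
      let +nondep : NormedAlgebra ℚ (H →L[ℂ] H) := .restrictScalars ℚ ℂ (H →L[ℂ] H)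
      exact NormedSpace.exp_mem_unitary_of_mem_skewAdjoint h1
    have h3 : t • x = ((t : ℂ) * I) • a := by
      rw [hx, mul_smul]
      exact (Complex.coe_smul t (I • a)).symm
    refine ⟨?_, h2.1, h2.2⟩
    rw [hu]
    simp only
    rw [h3]
    exact exp_mem ha _
  set D : ℝ → H →L[ℂ] H := fun t => t⁻¹ • (u t - 1) with hD
  have hD1 : Tendsto D (𝓝[≠] 0) (𝓝 x) := by
    have h1 := (hasDerivAt_exp_smul_const x (0 : ℝ)).tendsto_slope_zero
    simp only [zero_smul, NormedSpace.exp_zero, one_mul, zero_add] at h1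
    exact h1
  have key : ∀ v : H, Tendsto (fun t => D t v - ρ (D t) v) (𝓝[≠] 0) (𝓝 (x v - ρ x v)) := by
    intro v
    have h1 : Tendsto (fun t => D t v) (𝓝[≠] 0) (𝓝 (x v)) :=
      ((ContinuousLinearMap.apply ℂ H v).continuous.tendsto x).comp hD1
    have h2 : Tendsto (fun t => ρ (D t) v) (𝓝[≠] 0) (𝓝 (ρ x v)) := by
      rw [tendsto_iff_norm_sub_tendsto_zero]
      have h3 : Tendsto (fun t => ‖D t - x‖ * ‖v‖) (𝓝[≠] 0) (𝓝 0) := by
        have := (tendsto_iff_norm_sub_tendsto_zero.1 hD1).mul_const ‖v‖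
        rwa [zero_mul] at this
      refine squeeze_zero (fun t => norm_nonneg _) (fun t => ?_) h3
      have h4 : ρ (D t) v - ρ x v = ρ (D t - x) v := by
        rw [RB.ρ_sub hr, ContinuousLinearMap.sub_apply]
      rw [h4]
      exact ((ρ (D t - x)).le_opNorm v).trans
        (mul_le_mul_of_nonneg_right (RB.ρ_norm_le hr _) (norm_nonneg _))
    exact h1.sub h2
  have hscale : ∀ (t : ℝ) (v : H), D t v - ρ (D t) v = t⁻¹ • (u t v - ρ (u t) v) := by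
    intro t v
    have h1 : D t = ((t⁻¹ : ℝ) : ℂ) • (u t - 1) := by
      rw [hD]
      exact (Complex.coe_smul t⁻¹ (u t - 1)).symm
    rw [h1, RB.ρ_smul hr, RB.ρ_sub hr, RB.ρ_one hr]
    simp only [ContinuousLinearMap.smul_apply, ContinuousLinearMap.sub_apply]
    rw [← smul_sub, Complex.coe_smul]
    congr 1
    abel
  have hle : ∀ t, ‖D t ζ - ρ (D t) ζ‖ ^ 2 ≤ C * ‖D t ξ - ρ (D t) ξ‖ ^ 2 := by
    intro t
    rw [hscale, hscale, norm_smul, norm_smul, mul_pow, mul_pow]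
    have := mul_le_mul_of_nonneg_left (h (u t) (hun t)) (sq_nonneg ‖t⁻¹‖)
    linarith
  have hlim := le_of_tendsto_of_tendsto' ((key ζ).norm.pow 2) (((key ξ).norm.pow 2).const_mul C) hle
  have e : ∀ v : H, ‖x v - ρ x v‖ = ‖a v - ρ a v‖ := by
    intro v
    rw [hx, RB.ρ_smul hr]
    simp only [ContinuousLinearMap.smul_apply]
    rw [← smul_sub, norm_smul, Complex.norm_I, one_mul]
  rw [e, e] at hlim
  exact hlim

/-- **T1** -/
theorem lip : S_L := by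
  intro H _ _ _ M N ξ U J ρ hs hr x hx ε hε
  obtain ⟨C, hC0, hC⟩ := Lw.lw H M N ξ U J ρ hs hr x hx.1 (modulus hs hr hx) ε hε
  obtain ⟨ζ, hζ, hζ'⟩ := Mm.mm H {w : H →L[ℂ] H // Lw.Un N w} (fun w => w.1 - ρ w.1)
    (fun w => C * ‖w.1 ξ - ρ w.1 ξ‖ ^ 2) (x ξ) ε hε.le (fun w => by positivity)
    (fun n i μ hμ hμ1 δ hδ => by
      obtain ⟨ζ, h1, h2⟩ := hC n (fun k => (i k).1) μ (fun k => (i k).2) hμ hμ1 δ hδ
      refine ⟨ζ, h1, ?_⟩
      have e : ∑ k, μ k * (C * ‖(i k).1 ξ - ρ (i k).1 ξ‖ ^ 2) =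
          C * ∑ k, μ k * ‖(i k).1 ξ - ρ (i k).1 ξ‖ ^ 2 := by
        rw [Finset.mul_sum]
        exact Finset.sum_congr rfl fun k _ => by ring
      rw [e]
      exact h2)
  have hun : ∀ w : H →L[ℂ] H, Lw.Un N w → ‖w ζ - ρ w ζ‖ ^ 2 ≤ C * ‖w ξ - ρ w ξ‖ ^ 2 :=
    fun w hw => hζ' ⟨w, hw⟩
  have hsa : ∀ a : H →L[ℂ] H, a ∈ N → IsSelfAdjoint a →
      ‖a ζ - ρ a ζ‖ ≤ Real.sqrt C * ‖a ξ - ρ a ξ‖ := by
    intro a ha hsa
    have h1 := lip_sa hr hun ha hsa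
    have h2 : C * ‖a ξ - ρ a ξ‖ ^ 2 = (Real.sqrt C * ‖a ξ - ρ a ξ‖) ^ 2 := by
      rw [mul_pow, Real.sq_sqrt hC0]
    rw [h2] at h1
    exact (sq_le_sq₀ (norm_nonneg _) (by positivity)).1 h1
  refine ⟨2 * Real.sqrt C, ζ, by positivity, hζ, fun a ha => ?_⟩
  set b : H →L[ℂ] H := (1 / 2 : ℂ) • (a + star a) with hb
  set c : H →L[ℂ] H := (-(I / 2)) • (a - star a) with hc
  have hbN : b ∈ N := by
    rw [hb]
    exact N.toStarSubalgebra.smul_mem (add_mem ha (star_mem ha)) _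
  have hcN : c ∈ N := by
    rw [hc]
    exact N.toStarSubalgebra.smul_mem (sub_mem ha (star_mem ha)) _
  have hbs : IsSelfAdjoint b := by
    rw [hb, IsSelfAdjoint, star_smul, star_add, star_star, add_comm]
    congr 1
    simp
  have hcs : IsSelfAdjoint c := by
    rw [hc, IsSelfAdjoint, star_smul, star_sub, star_star]
    have : star (-(I / 2)) = -(-(I / 2)) := by
      rw [star_neg]
      congr 1
      change (starRingEnd ℂ) (I / 2) = -(I / 2)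
      rw [map_div₀, Complex.conj_I, map_ofNat, neg_div]
    rw [this, neg_smul, ← smul_neg, neg_sub]
  have e0 : a = b + I • c := by
    rw [hb, hc, smul_smul]
    have : I * -(I / 2) = 1 / 2 := by
      linear_combination (-(1 / 2 : ℂ)) * Complex.I_mul_I
    rw [this, ← smul_add]
    have e : a + star a + (a - star a) = (2 : ℂ) • a := by
      rw [two_smul]
      abel
    rw [e, smul_smul]
    have : (1 / 2 : ℂ) * 2 = 1 := by norm_num
    rw [this, one_smul]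
  have e1 : ∀ v : H, a v - ρ a v = (b v - ρ b v) + I • (c v - ρ c v) := by
    intro v
    have h1 : ρ a = ρ b + I • ρ c := by
      conv_lhs => rw [e0]
      rw [RB.ρ_add hr, RB.ρ_smul hr I c]
    have h2 : a v = b v + I • c v := by
      conv_lhs => rw [e0]
      rfl
    rw [h1, h2]
    simp only [ContinuousLinearMap.add_apply, ContinuousLinearMap.smul_apply]
    rw [smul_sub]
    abel
  have hs1 := RB.sym1 hr a
  have e2 : ‖b ξ - ρ b ξ‖ ≤ ‖a ξ - ρ a ξ‖ := by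
    have h1 : b ξ - ρ b ξ = (1 / 2 : ℂ) • ((a ξ - ρ a ξ) + (star a ξ - ρ (star a) ξ)) := by
      rw [hb, RB.ρ_smul hr, RB.ρ_add hr]
      simp only [ContinuousLinearMap.add_apply, ContinuousLinearMap.smul_apply]
      rw [← smul_sub]
      congr 1
      abel
    rw [h1, norm_smul]
    have h2 : ‖(1 / 2 : ℂ)‖ = 1 / 2 := by norm_num
    rw [h2]
    have := norm_add_le (a ξ - ρ a ξ) (star a ξ - ρ (star a) ξ)
    rw [hs1] at this
    linarith
  have e3 : ‖c ξ - ρ c ξ‖ ≤ ‖a ξ - ρ a ξ‖ := by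
    have h1 : c ξ - ρ c ξ = (-(I / 2)) • ((a ξ - ρ a ξ) - (star a ξ - ρ (star a) ξ)) := by
      rw [hc, RB.ρ_smul hr, RB.ρ_sub hr]
      simp only [ContinuousLinearMap.sub_apply, ContinuousLinearMap.smul_apply]
      rw [← smul_sub]
      congr 1
      abel
    rw [h1, norm_smul]
    have h2 : ‖(-(I / 2))‖ = 1 / 2 := by
      rw [norm_neg, norm_div, Complex.norm_I]
      norm_num
    rw [h2]
    have := norm_sub_le (a ξ - ρ a ξ) (star a ξ - ρ (star a) ξ)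
    rw [hs1] at this
    linarith
  have e4 := hsa b hbN hbs
  have e5 := hsa c hcN hcs
  have e6 : ‖a ζ - ρ a ζ‖ ≤ ‖b ζ - ρ b ζ‖ + ‖c ζ - ρ c ζ‖ := by
    rw [e1]
    refine (norm_add_le _ _).trans ?_
    rw [norm_smul, Complex.norm_I, one_mul]
  have h7 := mul_le_mul_of_nonneg_left e2 (Real.sqrt_nonneg C)
  have h8 := mul_le_mul_of_nonneg_left e3 (Real.sqrt_nonneg C)
  linarith

end

end Pool.Agent.H75.BC.Lip
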