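import Pool.Agent.H75.BC.Stmts

/-!
Tasks P1 and P2 (helper56): Poisson formula in the middle of the strip; periodic bounded analytic
functions on the strip are constant on the boundary.
-/

set_option autoImplicit false

open MeasureTheory Filter Topology Complex Set
open scoped InnerProductSpace ENNReal

namespace Pool.Agent.H75.BC.PoiAux

noncomputable section

/-- the closed strip -/
def cs : Set ℂ := {z : ℂ | 0 ≤ z.im ∧ z.im ≤ 1}

/-- the open strip -/
def os : Set ℂ := {z : ℂ | 0 < z.im ∧ z.im < 1}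

theorem os_open : IsOpen os :=
  (isOpen_lt continuous_const continuous_im).inter (isOpen_lt continuous_im continuous_const)

theorem os_sub : os ⊆ cs := fun _ hz => ⟨hz.1.le, hz.2.le⟩

theorem rect {f : ℂ → ℂ} (hc : ContinuousOn f cs) (hd : DifferentiableOn ℂ f os) (R : ℝ) :
    (∫ x : ℝ in (-R)..R, f x) - (∫ x : ℝ in (-R)..R, f (x + I)) +
      I * (∫ y : ℝ in (0 : ℝ)..1, f (R + y * I)) -
      I * (∫ y : ℝ in (0 : ℝ)..1, f (-R + y * I)) = 0 := by
  have h := Complex.integral_boundary_rect_eq_zero_of_continuousOn_of_differentiableOn f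
    (-(R : ℂ)) ((R : ℂ) + I) (hc.mono ?_) (hd.mono ?_)
  · simpa using h
  · intro z hz
    rw [Complex.mem_reProdIm] at hz
    have h2 := hz.2
    simp only [neg_im, ofReal_im, neg_zero, add_im, I_im, zero_add] at h2
    rw [uIcc_of_le zero_le_one] at h2
    exact ⟨h2.1, h2.2⟩
  · intro z hz
    rw [Complex.mem_reProdIm] at hz
    have h2 := hz.2
    simp only [neg_im, ofReal_im, neg_zero, add_im, I_im, zero_add] at h2
    rw [min_eq_left zero_le_one, max_eq_right zero_le_one] at h2
    exact ⟨h2.1, h2.2⟩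

/-- `sinh (π (z - c))` -/
def sn (c z : ℂ) : ℂ := Complex.sinh (Real.pi * (z - c))

theorem sn_self (c : ℂ) : sn c c = 0 := by simp [sn]

theorem hasDeriv_sn (c z : ℂ) :
    HasDerivAt (sn c) (Real.pi * Complex.cosh (Real.pi * (z - c))) z := by
  have h1 : HasDerivAt (fun z : ℂ => (Real.pi : ℂ) * (z - c)) (Real.pi : ℂ) z := by
    simpa using ((hasDerivAt_id z).sub_const c).const_mul (Real.pi : ℂ)
  have h2 := (Complex.hasDerivAt_sinh ((Real.pi : ℂ) * (z - c))).comp z h1
  rw [mul_comm] at h2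
  exact h2

theorem sn_diff (c : ℂ) : Differentiable ℂ (sn c) := fun z => (hasDeriv_sn c z).differentiableAt

theorem sinh_eq_zero {w : ℂ} (h : Complex.sinh w = 0) : ∃ n : ℤ, w = n * Real.pi * I := by
  have h1 : Complex.sin (w * I) = 0 := by rw [Complex.sin_mul_I, h, zero_mul]
  obtain ⟨k, hk⟩ := Complex.sin_eq_zero_iff.1 h1
  refine ⟨-k, ?_⟩
  have : w = -(w * I) * I := by
    have : -(w * I) * I = -(w * (I * I)) := by ring
    rw [this, I_mul_I]; ring
  rw [this, hk]; push_cast; ring

/-- the zeros of `sn c` in the closed strip for `c` in the open strip -/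
theorem sn_ne {c z : ℂ} (hc : c ∈ os) (hz : z ∈ cs) (hne : z ≠ c) : sn c z ≠ 0 := by
  intro h
  obtain ⟨n, hn⟩ := sinh_eq_zero h
  have hpi : (Real.pi : ℂ) ≠ 0 := by exact_mod_cast Real.pi_ne_zero
  have h1 : z - c = n * I := by
    have : (Real.pi : ℂ) * (z - c) = Real.pi * (n * I) := by rw [hn]; ring
    exact mul_left_cancel₀ hpi this
  have h2 : z.im - c.im = n := by
    have := congrArg Complex.im h1
    simpa using this
  have h3 : (n : ℝ) < 1 := by
    have := hz.2; have := hc.1; linarith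
  have h4 : (-1 : ℝ) < n := by
    have := hz.1; have := hc.2; linarith
  have h5 : n < 1 := by exact_mod_cast h3
  have h6 : -1 < n := by exact_mod_cast h4
  have h7 : n = 0 := by omega
  rw [h7] at h1
  apply hne
  have : z - c = 0 := by rw [h1]; simp
  exact sub_eq_zero.1 this

theorem dslope_sn_ne {c z : ℂ} (hc : c ∈ os) (hz : z ∈ cs) : dslope (sn c) c z ≠ 0 := by
  by_cases h : z = c
  · subst h
    rw [dslope_same, (hasDeriv_sn z z).deriv]
    simp [Real.pi_ne_zero]
  · rw [dslope_of_ne _ h, slope_def_field, sn_self, sub_zero]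
    exact div_ne_zero (sn_ne hc hz h) (sub_ne_zero.2 h)

/-- removable singularity: `(f z - f c) g z / sinh (π (z - c))` -/
theorem quot {f : ℂ → ℂ} (hc : ContinuousOn f cs) (hd : DifferentiableOn ℂ f os) {c : ℂ}
    (hcs : c ∈ os) :
    ∃ G : ℂ → ℂ, ContinuousOn G cs ∧ DifferentiableOn ℂ G os ∧
      ∀ z ∈ cs, z ≠ c → G z = (f z - f c) / sn c z := by
  have hn : os ∈ 𝓝 c := os_open.mem_nhds hcs
  have hn' : cs ∈ 𝓝 c := mem_of_superset hn os_sub
  have hfc : DifferentiableAt ℂ f c := hd.differentiableAt hn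
  refine ⟨fun z => dslope f c z / dslope (sn c) c z, ?_, ?_, ?_⟩
  · refine ContinuousOn.div ((continuousOn_dslope hn').2 ⟨hc, hfc⟩)
      ((continuousOn_dslope hn').2 ⟨(sn_diff c).continuous.continuousOn, (sn_diff c) c⟩) ?_
    intro z hz
    exact dslope_sn_ne hcs hz
  · refine DifferentiableOn.div ((Complex.differentiableOn_dslope hn).2 hd)
      ((Complex.differentiableOn_dslope hn).2 (sn_diff c).differentiableOn) ?_
    intro z hz
    exact dslope_sn_ne hcs (os_sub hz)
  · intro z hz hne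
    show dslope f c z / dslope (sn c) c z = _
    rw [dslope_of_ne _ hne, dslope_of_ne _ hne, slope_def_field, slope_def_field, sn_self, sub_zero]
    have h1 : z - c ≠ 0 := sub_ne_zero.2 hne
    have h2 := sn_ne hcs hz hne
    field_simp

/-- lower bound of `|sinh|` -/
theorem norm_sinh_ge (w : ℂ) : |Real.sinh w.re| ≤ ‖Complex.sinh w‖ := by
  have h1 : Complex.sinh w = (Real.sinh w.re * Real.cos w.im : ℝ) + (Real.cosh w.re * Real.sin w.im : ℝ) * I := by
    conv_lhs => rw [← Complex.re_add_im w]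
    rw [Complex.sinh_add, Complex.sinh_mul_I, Complex.cosh_mul_I]
    push_cast
    ring
  have h2 : ‖Complex.sinh w‖ ^ 2 = Real.sinh w.re ^ 2 + Real.sin w.im ^ 2 := by
    rw [h1, Complex.sq_norm, Complex.normSq_add_mul_I]
    have e1 := Real.cosh_sq w.re
    have e2 := Real.sin_sq_add_cos_sq w.im
    have : Real.cos w.im ^ 2 = 1 - Real.sin w.im ^ 2 := by linarith
    calc (Real.sinh w.re * Real.cos w.im) ^ 2 + (Real.cosh w.re * Real.sin w.im) ^ 2
        = Real.sinh w.re ^ 2 * Real.cos w.im ^ 2 + Real.cosh w.re ^ 2 * Real.sin w.im ^ 2 := by ring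
      _ = _ := by rw [this, e1]; ring
  rw [← Real.sqrt_sq_eq_abs, ← Real.sqrt_sq (norm_nonneg (Complex.sinh w)), h2]
  exact Real.sqrt_le_sqrt (by nlinarith [sq_nonneg (Real.sin w.im)])


theorem real_mem (s : ℝ) : (s : ℂ) ∈ cs := by constructor <;> simp

theorem real_mem' (s : ℝ) : (s : ℂ) + I ∈ cs := by constructor <;> simp

theorem vert_mem (a y : ℝ) (hy : y ∈ Set.Icc (0 : ℝ) 1) : (a : ℂ) + y * I ∈ cs := by
  constructor
  · simpa using hy.1
  · simpa using hy.2

theorem cont_bot {f : ℂ → ℂ} (hc : ContinuousOn f cs) : Continuous fun s : ℝ => f s :=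
  hc.comp_continuous Complex.continuous_ofReal real_mem

theorem cont_top {f : ℂ → ℂ} (hc : ContinuousOn f cs) : Continuous fun s : ℝ => f (s + I) :=
  hc.comp_continuous (Complex.continuous_ofReal.add continuous_const) real_mem'

/-- integrals over vertical sides -/
theorem vert_le {G : ℂ → ℂ} {D a : ℝ} (hG : ∀ y ∈ Set.Icc (0 : ℝ) 1, ‖G (a + y * I)‖ ≤ D) :
    ‖∫ y : ℝ in (0 : ℝ)..1, G (a + y * I)‖ ≤ D := by
  have h := intervalIntegral.norm_integral_le_of_norm_le_const (a := (0 : ℝ)) (b := 1) (C := D)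
    (f := fun y : ℝ => G (a + y * I)) (fun y hy => by
      rw [uIoc_of_le zero_le_one] at hy
      exact hG y ⟨hy.1.le, hy.2⟩)
  simpa using h

theorem half_mem : I / 2 ∈ os := by
  constructor
  · simp
  · simp; norm_num

theorem sn_half (s : ℝ) : sn (I / 2) s = -(I * (Real.cosh (Real.pi * s) : ℝ)) := by
  unfold sn
  have : (Real.pi : ℂ) * (s - I / 2) = (Real.pi * s : ℝ) - (Real.pi / 2 : ℝ) * I := by
    push_cast; ring
  rw [this, Complex.sinh_sub, Complex.sinh_mul_I, Complex.cosh_mul_I, ← Complex.ofReal_cos,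
    ← Complex.ofReal_sin, Real.cos_pi_div_two, Real.sin_pi_div_two, ← Complex.ofReal_cosh]
  push_cast; ring

theorem sn_half' (s : ℝ) : sn (I / 2) (s + I) = I * (Real.cosh (Real.pi * s) : ℝ) := by
  unfold sn
  have : (Real.pi : ℂ) * (s + I - I / 2) = (Real.pi * s : ℝ) + (Real.pi / 2 : ℝ) * I := by
    push_cast; ring
  rw [this, Complex.sinh_add, Complex.sinh_mul_I, Complex.cosh_mul_I, ← Complex.ofReal_cos,
    ← Complex.ofReal_sin, Real.cos_pi_div_two, Real.sin_pi_div_two, ← Complex.ofReal_cosh]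
  push_cast; ring

theorem poi (F : ℂ → ℂ) (hc : ContinuousOn F cs) (hd : DifferentiableOn ℂ F os)
    (hb : ∃ C : ℝ, ∀ z : ℂ, 0 ≤ z.im → z.im ≤ 1 → ‖F z‖ ≤ C) :
    ∫ s : ℝ, (F s + F (s + I) - 2 * F (I / 2)) * ((Real.cosh (Real.pi * s))⁻¹ : ℝ) = 0 := by
  obtain ⟨C, hC⟩ := hb
  obtain ⟨G, hGc, hGd, hG⟩ := quot hc hd half_mem
  set K : ℝ → ℂ := fun s => (F s + F (s + I) - 2 * F (I / 2)) * ((Real.cosh (Real.pi * s))⁻¹ : ℝ)
    with hK
  by_cases hint : Integrable K
  swap
  · exact integral_undef hint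
  have hC0 : 0 ≤ C := le_trans (norm_nonneg _) (hC 0 (by simp) (by simp))
  have hbot : ∀ s : ℝ, G s - G (s + I) = I * K s := by
    intro s
    have h1 : G s = (F s - F (I / 2)) / sn (I / 2) s := by
      apply hG _ (real_mem s)
      intro h
      have := congrArg Complex.im h
      simp at this
    have h2 : G (s + I) = (F (s + I) - F (I / 2)) / sn (I / 2) (s + I) := by
      apply hG _ (real_mem' s)
      intro h
      have := congrArg Complex.im h
      simp at this
    rw [h1, h2, sn_half, sn_half', hK]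
    have hco : ((Real.cosh (Real.pi * s) : ℝ) : ℂ) ≠ 0 := by
      exact_mod_cast (Real.cosh_pos _).ne'
    have hI : I ≠ 0 := I_ne_zero
    push_cast at hco ⊢
    field_simp
    rw [I_sq]
    ring
  have hvert : ∀ a : ℝ, a ≠ 0 → ∀ y ∈ Set.Icc (0 : ℝ) 1,
      ‖G (a + y * I)‖ ≤ 2 * C / |Real.sinh (Real.pi * a)| := by
    intro a ha y hy
    have hm := vert_mem a y hy
    rw [hG _ hm (by
      intro h
      have := congrArg Complex.re h
      simp at this
      exact ha this), norm_div]
    have h1 : ‖F (a + y * I) - F (I / 2)‖ ≤ 2 * C := by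
      have e1 := hC (a + y * I) hm.1 hm.2
      have e2 := hC (I / 2) half_mem.1.le half_mem.2.le
      calc _ ≤ ‖F (a + y * I)‖ + ‖F (I / 2)‖ := norm_sub_le _ _
        _ ≤ _ := by linarith
    have h2 : |Real.sinh (Real.pi * a)| ≤ ‖sn (I / 2) (a + y * I)‖ := by
      have := norm_sinh_ge ((Real.pi : ℂ) * (a + y * I - I / 2))
      have e : ((Real.pi : ℂ) * (a + y * I - I / 2)).re = Real.pi * a := by simp
      rw [e] at this
      exact this
    have h3 : 0 < |Real.sinh (Real.pi * a)| := by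
      rw [abs_pos]
      intro h
      rw [Real.sinh_eq_zero] at h
      rcases mul_eq_zero.1 h with h | h
      · exact Real.pi_ne_zero h
      · exact ha h
    exact div_le_div₀ (by linarith) h1 h3 h2
  have hkey : ∀ R : ℝ, 0 < R → ‖∫ s in (-R)..R, K s‖ ≤ 4 * C / |Real.sinh (Real.pi * R)| := by
    intro R hR
    have h := rect hGc hGd R
    have i1 : IntervalIntegrable (fun s : ℝ => G s) volume (-R) R :=
      (cont_bot hGc).intervalIntegrable _ _
    have i2 : IntervalIntegrable (fun s : ℝ => G (s + I)) volume (-R) R :=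
      (cont_top hGc).intervalIntegrable _ _
    rw [← intervalIntegral.integral_sub i1 i2] at h
    simp only [hbot] at h
    rw [intervalIntegral.integral_const_mul] at h
    have h1 : ∫ s in (-R)..R, K s = (∫ y : ℝ in (0 : ℝ)..1, G (-R + y * I)) -
        ∫ y : ℝ in (0 : ℝ)..1, G (R + y * I) := by
      have hI : I ≠ 0 := I_ne_zero
      apply mul_left_cancel₀ hI
      linear_combination h
    rw [h1]
    have v1 := vert_le (G := G) (a := R) (hvert R hR.ne')
    have v2 := vert_le (G := G) (a := -R) (hvert (-R) (by linarith))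
    have e : |Real.sinh (Real.pi * -R)| = |Real.sinh (Real.pi * R)| := by
      rw [mul_neg, Real.sinh_neg, abs_neg]
    rw [e] at v2
    push_cast at v2
    calc _ ≤ _ + _ := norm_sub_le _ _
      _ ≤ 2 * C / |Real.sinh (Real.pi * R)| + 2 * C / |Real.sinh (Real.pi * R)| := add_le_add v2 v1
      _ = _ := by ring
  have hlim := intervalIntegral_tendsto_integral hint (tendsto_neg_atTop_atBot) tendsto_id
  have hz : Tendsto (fun R : ℝ => 4 * C / |Real.sinh (Real.pi * R)|) atTop (𝓝 0) := by
    apply Tendsto.const_div_atTop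
    have : Tendsto (fun R : ℝ => Real.sinh (Real.pi * R)) atTop atTop := by
      refine tendsto_atTop_mono' _ ?_ (tendsto_id.const_mul_atTop Real.pi_pos)
      filter_upwards [eventually_ge_atTop (0 : ℝ)] with R hR
      exact Real.self_le_sinh_iff.2 (mul_nonneg Real.pi_pos.le hR)
    exact tendsto_abs_atTop_atTop.comp this
  have hz2 : Tendsto (fun R : ℝ => ∫ s in (-R)..R, K s) atTop (𝓝 0) := by
    apply squeeze_zero_norm' _ hz
    filter_upwards [eventually_gt_atTop (0 : ℝ)] with R hR
    exact hkey R hR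
  exact tendsto_nhds_unique hlim hz2


/-- `π coth`-type function: `cosh (π (z - c)) / sinh (π (z - c)) * (f z - f c)` -/
theorem quot_coth {f : ℂ → ℂ} (hc : ContinuousOn f cs) (hd : DifferentiableOn ℂ f os) {c : ℂ}
    (hcs : c ∈ os) :
    ∃ G : ℂ → ℂ, ContinuousOn G cs ∧ DifferentiableOn ℂ G os ∧
      ∀ z ∈ cs, z ≠ c → G z = (f z - f c) * (Complex.cosh (Real.pi * (z - c)) / sn c z) := by
  obtain ⟨G, h1, h2, h3⟩ := quot hc hd hcs
  have hch : Differentiable ℂ fun z : ℂ => Complex.cosh (Real.pi * (z - c)) := by fun_prop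
  refine ⟨fun z => G z * Complex.cosh (Real.pi * (z - c)), h1.mul hch.continuous.continuousOn,
    h2.mul hch.differentiableOn, ?_⟩
  intro z hz hne
  show G z * _ = _
  rw [h3 z hz hne]
  ring

theorem coth_per (c z : ℂ) : Complex.cosh (Real.pi * (z + I - c)) / sn c (z + I) =
    Complex.cosh (Real.pi * (z - c)) / sn c z := by
  have e : (Real.pi : ℂ) * (z + I - c) = Real.pi * (z - c) + Real.pi * I := by ring
  have e1 : Complex.cosh (Real.pi * (z + I - c)) = - Complex.cosh (Real.pi * (z - c)) := by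
    rw [e, Complex.cosh_add, Complex.cosh_mul_I, Complex.sinh_mul_I, Complex.cos_pi, Complex.sin_pi]
    ring
  have e2 : sn c (z + I) = - sn c z := by
    unfold sn
    rw [e, Complex.sinh_add, Complex.cosh_mul_I, Complex.sinh_mul_I, Complex.cos_pi, Complex.sin_pi]
    ring
  rw [e1, e2, neg_div_neg_eq]

/-- `|coth w - 1| ≤ 2 / (exp (2 re w) - 1)` for `re w > 0` -/
theorem coth_sub_one (w : ℂ) (h : 0 < w.re) :
    ‖Complex.cosh w / Complex.sinh w - 1‖ ≤ 2 / (Real.exp (2 * w.re) - 1) := by
  have hs : Complex.sinh w ≠ 0 := by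
    intro h0
    have := norm_sinh_ge w
    rw [h0, norm_zero] at this
    have h2 : Real.sinh w.re = 0 := abs_eq_zero.1 (le_antisymm this (abs_nonneg _))
    rw [Real.sinh_eq_zero] at h2
    linarith
  have h1 : Complex.cosh w / Complex.sinh w - 1 = Complex.exp (-w) / Complex.sinh w := by
    rw [div_sub_one hs, Complex.cosh_sub_sinh]
  have h2 : Complex.sinh w = Complex.exp (-w) * (Complex.exp (2 * w) - 1) / 2 := by
    rw [mul_sub, ← Complex.exp_add, mul_one, Complex.sinh]
    congr 2
    congr 1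
    ring
  have h3 : Complex.exp (2 * w) - 1 ≠ 0 := by
    intro h0; apply hs; rw [h2, h0]; ring
  have h4 : Complex.cosh w / Complex.sinh w - 1 = 2 / (Complex.exp (2 * w) - 1) := by
    rw [h1, h2]
    have := Complex.exp_ne_zero (-w)
    field_simp
  rw [h4, norm_div]
  have h5 : 1 < Real.exp (2 * w.re) := Real.one_lt_exp_iff.2 (by linarith)
  have h6 : Real.exp (2 * w.re) - 1 ≤ ‖Complex.exp (2 * w) - 1‖ := by
    have := norm_sub_norm_le (Complex.exp (2 * w)) 1
    rw [Complex.norm_exp, norm_one] at this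
    have e : (2 * w).re = 2 * w.re := by simp
    rw [e] at this
    exact this
  rw [show ‖(2 : ℂ)‖ = 2 by simp]
  exact div_le_div_of_nonneg_left (by norm_num) (by linarith) h6

theorem coth_add_one (w : ℂ) (h : w.re < 0) :
    ‖Complex.cosh w / Complex.sinh w + 1‖ ≤ 2 / (Real.exp (-2 * w.re) - 1) := by
  have h1 := coth_sub_one (-w) (by simpa using h)
  rw [Complex.cosh_neg, Complex.sinh_neg, div_neg] at h1
  have e : -(Complex.cosh w / Complex.sinh w) - 1 = -(Complex.cosh w / Complex.sinh w + 1) := by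
    ring
  rw [e, norm_neg] at h1
  simpa using h1

theorem per_int (F : ℂ → ℂ) (hc : ContinuousOn F cs) (hd : DifferentiableOn ℂ F os)
    (hb : ∃ C : ℝ, ∀ z : ℂ, 0 ≤ z.im → z.im ≤ 1 → ‖F z‖ ≤ C)
    (hp : ∀ t : ℝ, F t = F (t + I)) {a b : ℂ} (ha : a ∈ os) (hbo : b ∈ os) : F a = F b := by
  obtain ⟨C, hC⟩ := hb
  have hC0 : 0 ≤ C := le_trans (norm_nonneg _) (hC 0 (by simp) (by simp))
  obtain ⟨G, hGc, hGd, hG⟩ := quot_coth hc hd ha
  obtain ⟨G', hGc', hGd', hG'⟩ := quot_coth hc hd hbo
  set H : ℂ → ℂ := fun z => G z - G' z with hH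
  have hHc : ContinuousOn H cs := hGc.sub hGc'
  have hHd : DifferentiableOn ℂ H os := hGd.sub hGd'
  have hne : ∀ (c : ℂ), c ∈ os → ∀ s : ℝ, (s : ℂ) ≠ c ∧ (s : ℂ) + I ≠ c := by
    intro c hc s
    constructor
    · intro h
      have := hc.1
      rw [← h] at this
      simp at this
    · intro h
      have := hc.2
      rw [← h] at this
      simp at this
  have hper : ∀ s : ℝ, H s - H (s + I) = 0 := by
    intro s
    simp only [hH]
    rw [hG _ (real_mem s) (hne a ha s).1, hG _ (real_mem' s) (hne a ha s).2,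
      hG' _ (real_mem s) (hne b hbo s).1, hG' _ (real_mem' s) (hne b hbo s).2,
      coth_per, coth_per, ← hp s]
    ring
  -- the sides
  have hside : ∀ R : ℝ, |a.re| < R → |b.re| < R → ∀ y ∈ Set.Icc (0 : ℝ) 1,
      ‖H (R + y * I) - (F b - F a)‖ ≤
        2 * C * (2 / (Real.exp (2 * (Real.pi * (R - a.re))) - 1)) +
        2 * C * (2 / (Real.exp (2 * (Real.pi * (R - b.re))) - 1)) := by
    intro R hRa hRb y hy
    have hm := vert_mem R y hy
    have hna : (R : ℂ) + y * I ≠ a := by
      intro h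
      have := congrArg Complex.re h
      simp at this
      rw [← this] at hRa
      exact absurd (lt_of_le_of_lt (le_abs_self R) hRa) (lt_irrefl _)
    have hnb : (R : ℂ) + y * I ≠ b := by
      intro h
      have := congrArg Complex.re h
      simp at this
      rw [← this] at hRb
      exact absurd (lt_of_le_of_lt (le_abs_self R) hRb) (lt_irrefl _)
    have key : ∀ c : ℂ, c ∈ os → |c.re| < R →
        ‖(F (R + y * I) - F c) *
          (Complex.cosh (Real.pi * ((R : ℂ) + y * I - c)) / sn c (R + y * I) - 1)‖ ≤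
        2 * C * (2 / (Real.exp (2 * (Real.pi * (R - c.re))) - 1)) := by
      intro c hc hcR
      rw [norm_mul]
      have hcR' : c.re < R := lt_of_le_of_lt (le_abs_self _) hcR
      have h1 : ‖F (R + y * I) - F c‖ ≤ 2 * C := by
        have e1 := hC (R + y * I) hm.1 hm.2
        have e2 := hC c hc.1.le hc.2.le
        calc _ ≤ ‖F (R + y * I)‖ + ‖F c‖ := norm_sub_le _ _
          _ ≤ _ := by linarith
      have e : ((Real.pi : ℂ) * ((R : ℂ) + y * I - c)).re = Real.pi * (R - c.re) := by simp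
      have h2 := coth_sub_one ((Real.pi : ℂ) * ((R : ℂ) + y * I - c)) (by
        rw [e]; exact mul_pos Real.pi_pos (by linarith))
      rw [e] at h2
      exact mul_le_mul h1 h2 (norm_nonneg _) (by linarith)
    have e : H (R + y * I) - (F b - F a) =
        (F (R + y * I) - F a) *
          (Complex.cosh (Real.pi * ((R : ℂ) + y * I - a)) / sn a (R + y * I) - 1) -
        (F (R + y * I) - F b) *
          (Complex.cosh (Real.pi * ((R : ℂ) + y * I - b)) / sn b (R + y * I) - 1) := by
      simp only [hH]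
      rw [hG _ hm hna, hG' _ hm hnb]
      ring
    rw [e]
    exact le_trans (norm_sub_le _ _) (add_le_add (key a ha hRa) (key b hbo hRb))
  have hside' : ∀ R : ℝ, |a.re| < R → |b.re| < R → ∀ y ∈ Set.Icc (0 : ℝ) 1,
      ‖H (((-R : ℝ) : ℂ) + y * I) + (F b - F a)‖ ≤
        2 * C * (2 / (Real.exp (2 * (Real.pi * (R + a.re))) - 1)) +
        2 * C * (2 / (Real.exp (2 * (Real.pi * (R + b.re))) - 1)) := by
    intro R hRa hRb y hy
    have hm := vert_mem (-R) y hy
    have hna : ((-R : ℝ) : ℂ) + y * I ≠ a := by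
      intro h
      have := congrArg Complex.re h
      simp at this
      rw [← this, abs_neg] at hRa
      exact absurd (lt_of_le_of_lt (le_abs_self R) hRa) (lt_irrefl _)
    have hnb : ((-R : ℝ) : ℂ) + y * I ≠ b := by
      intro h
      have := congrArg Complex.re h
      simp at this
      rw [← this, abs_neg] at hRb
      exact absurd (lt_of_le_of_lt (le_abs_self R) hRb) (lt_irrefl _)
    have key : ∀ c : ℂ, c ∈ os → |c.re| < R →
        ‖(F (((-R : ℝ) : ℂ) + y * I) - F c) *
          (Complex.cosh (Real.pi * (((-R : ℝ) : ℂ) + y * I - c)) /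
            sn c (((-R : ℝ) : ℂ) + y * I) + 1)‖ ≤
        2 * C * (2 / (Real.exp (2 * (Real.pi * (R + c.re))) - 1)) := by
      intro c hc hcR
      rw [norm_mul]
      have hcR' : -R < c.re := by
        have := neg_abs_le c.re
        linarith
      have h1 : ‖F (((-R : ℝ) : ℂ) + y * I) - F c‖ ≤ 2 * C := by
        have e1 := hC (((-R : ℝ) : ℂ) + y * I) hm.1 hm.2
        have e2 := hC c hc.1.le hc.2.le
        calc _ ≤ ‖F (((-R : ℝ) : ℂ) + y * I)‖ + ‖F c‖ := norm_sub_le _ _
          _ ≤ _ := by linarith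
      have e : ((Real.pi : ℂ) * (((-R : ℝ) : ℂ) + y * I - c)).re = Real.pi * (-R - c.re) := by
        simp
      have h2 := coth_add_one ((Real.pi : ℂ) * (((-R : ℝ) : ℂ) + y * I - c)) (by
        rw [e]; exact mul_neg_of_pos_of_neg Real.pi_pos (by linarith))
      rw [e] at h2
      have e' : -2 * (Real.pi * (-R - c.re)) = 2 * (Real.pi * (R + c.re)) := by ring
      rw [e'] at h2
      exact mul_le_mul h1 h2 (norm_nonneg _) (by linarith)
    have e : H (((-R : ℝ) : ℂ) + y * I) + (F b - F a) =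
        (F (((-R : ℝ) : ℂ) + y * I) - F a) *
          (Complex.cosh (Real.pi * (((-R : ℝ) : ℂ) + y * I - a)) /
            sn a (((-R : ℝ) : ℂ) + y * I) + 1) -
        (F (((-R : ℝ) : ℂ) + y * I) - F b) *
          (Complex.cosh (Real.pi * (((-R : ℝ) : ℂ) + y * I - b)) /
            sn b (((-R : ℝ) : ℂ) + y * I) + 1) := by
      simp only [hH]
      rw [hG _ hm hna, hG' _ hm hnb]
      ring
    rw [e]
    exact le_trans (norm_sub_le _ _) (add_le_add (key a ha hRa) (key b hbo hRb))
  have hlimexp : ∀ c : ℝ, Tendsto (fun R : ℝ => 2 * C * (2 / (Real.exp (2 * (Real.pi * (R + c))) - 1)))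
      atTop (𝓝 0) := by
    intro c
    have h1 : Tendsto (fun R : ℝ => Real.exp (2 * (Real.pi * (R + c))) - 1) atTop atTop := by
      apply tendsto_atTop_add_const_right
      apply Real.tendsto_exp_atTop.comp
      apply Tendsto.const_mul_atTop (by norm_num)
      apply Tendsto.const_mul_atTop Real.pi_pos
      exact tendsto_atTop_add_const_right _ _ tendsto_id
    have h2 := (h1.const_div_atTop 2).const_mul (2 * C)
    simpa using h2
  set E : ℝ → ℝ := fun R =>
    (2 * C * (2 / (Real.exp (2 * (Real.pi * (R + -a.re))) - 1)) +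
      2 * C * (2 / (Real.exp (2 * (Real.pi * (R + -b.re))) - 1))) +
    (2 * C * (2 / (Real.exp (2 * (Real.pi * (R + a.re))) - 1)) +
      2 * C * (2 / (Real.exp (2 * (Real.pi * (R + b.re))) - 1))) with hE
  have hElim : Tendsto E atTop (𝓝 0) := by
    have := ((hlimexp (-a.re)).add (hlimexp (-b.re))).add ((hlimexp a.re).add (hlimexp b.re))
    simpa using this
  have hbd : ∀ᶠ R : ℝ in atTop, ‖2 * (F b - F a)‖ ≤ E R := by
    filter_upwards [eventually_gt_atTop |a.re|, eventually_gt_atTop |b.re|] with R hRa hRb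
    have h := rect hHc hHd R
    have i1 : IntervalIntegrable (fun s : ℝ => H s) volume (-R) R :=
      (cont_bot hHc).intervalIntegrable _ _
    have i2 : IntervalIntegrable (fun s : ℝ => H (s + I)) volume (-R) R :=
      (cont_top hHc).intervalIntegrable _ _
    rw [← intervalIntegral.integral_sub i1 i2] at h
    simp only [hper] at h
    rw [intervalIntegral.integral_zero, zero_add] at h
    have h1 : (∫ y : ℝ in (0 : ℝ)..1, H (R + y * I)) =
        ∫ y : ℝ in (0 : ℝ)..1, H (((-R : ℝ) : ℂ) + y * I) := by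
      have hI : I ≠ 0 := I_ne_zero
      apply mul_left_cancel₀ hI
      push_cast
      linear_combination h
    have cv : ∀ r : ℝ, IntervalIntegrable (fun y : ℝ => H ((r : ℂ) + y * I)) volume 0 1 := by
      intro r
      apply ContinuousOn.intervalIntegrable
      rw [uIcc_of_le zero_le_one]
      apply hHc.comp (by fun_prop)
      intro y hy
      exact vert_mem r y hy
    have v1 := vert_le (G := fun z => H z - (F b - F a)) (a := R) (hside R hRa hRb)
    have v2 := vert_le (G := fun z => H z + (F b - F a)) (a := -R) (hside' R hRa hRb)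
    rw [intervalIntegral.integral_sub (cv R) intervalIntegrable_const] at v1
    rw [intervalIntegral.integral_add (cv (-R)) intervalIntegrable_const] at v2
    rw [intervalIntegral.integral_const] at v1 v2
    rw [h1] at v1
    simp only [sub_zero, one_smul] at v1 v2
    have e : 2 * (F b - F a) = ((∫ y : ℝ in (0 : ℝ)..1, H (((-R : ℝ) : ℂ) + y * I)) + (F b - F a)) -
      ((∫ y : ℝ in (0 : ℝ)..1, H (((-R : ℝ) : ℂ) + y * I)) - (F b - F a)) := by ring
    rw [e]
    refine le_trans (norm_sub_le _ _) (le_trans (add_le_add v2 v1) (le_of_eq ?_))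
    simp only [hE, sub_eq_add_neg]
    ring
  have h0 : ‖2 * (F b - F a)‖ ≤ 0 := ge_of_tendsto hElim hbd
  have h1 : 2 * (F b - F a) = 0 := norm_le_zero_iff.1 h0
  have h2 : F b - F a = 0 := by
    rcases mul_eq_zero.1 h1 with h | h
    · norm_num at h
    · exact h
  exact (sub_eq_zero.1 h2).symm

theorem per (F : ℂ → ℂ) (hc : ContinuousOn F cs) (hd : DifferentiableOn ℂ F os)
    (hb : ∃ C : ℝ, ∀ z : ℂ, 0 ≤ z.im → z.im ≤ 1 → ‖F z‖ ≤ C)
    (hp : ∀ t : ℝ, F t = F (t + I)) (t : ℝ) : F t = F 0 := by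
  have key : ∀ s : ℝ, F s = F (I / 2) := by
    intro s
    have h1 : Tendsto (fun y : ℝ => F (s + y * I)) (𝓝[Set.Ioo (0 : ℝ) 1] 0) (𝓝 (F s)) := by
      have h2 : ContinuousWithinAt F cs s := hc s (real_mem s)
      have h3 : Tendsto (fun y : ℝ => (s : ℂ) + y * I) (𝓝[Set.Ioo (0 : ℝ) 1] 0) (𝓝[cs] (s : ℂ)) := by
        apply tendsto_nhdsWithin_iff.2
        constructor
        · have : Continuous fun y : ℝ => (s : ℂ) + y * I := by fun_prop
          have h4 := this.tendsto 0
          simp only [ofReal_zero, zero_mul, add_zero] at h4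
          exact h4.mono_left nhdsWithin_le_nhds
        · filter_upwards [self_mem_nhdsWithin] with y hy
          exact vert_mem s y ⟨hy.1.le, hy.2.le⟩
      exact h2.tendsto.comp h3
    have h5 : Tendsto (fun y : ℝ => F (s + y * I)) (𝓝[Set.Ioo (0 : ℝ) 1] 0) (𝓝 (F (I / 2))) := by
      apply tendsto_const_nhds.congr'
      filter_upwards [self_mem_nhdsWithin] with y hy
      apply per_int F hc hd hb hp half_mem
      constructor
      · simpa using hy.1
      · simpa using hy.2
    have : (𝓝[Set.Ioo (0 : ℝ) 1] (0 : ℝ)).NeBot := by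
      apply mem_closure_iff_nhdsWithin_neBot.1
      rw [closure_Ioo (by norm_num)]
      exact ⟨le_refl _, zero_le_one⟩
    exact tendsto_nhds_unique h1 h5
  have h0 := key 0
  rw [key t, ← h0]
  simp

end

end Pool.Agent.H75.BC.PoiAux

namespace Pool.Agent.H75.BC

/-- P1 -/
theorem s_Poi : S_Poi := fun F h1 h2 h3 => PoiAux.poi F h1 h2 h3

/-- P2 -/
theorem s_Per : S_Per := fun F h1 h2 h3 h4 t => PoiAux.per F h1 h2 h3 h4 t

end Pool.Agent.H75.BC
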