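import Pool.Agent.H75.BC.FB

/-!
S_Sl: twisted analytic slices (helper94).
-/

set_option autoImplicit false

open MeasureTheory Filter Topology Complex
open scoped InnerProductSpace ENNReal

namespace Pool.Agent.H75.BC.Sl

open Pool.Agent.W662.CB Pool.Agent.H75.BC Pool.Agent.H75.BC.FB

noncomputable section

theorem sl_star {H K : Type} [NormedAddCommGroup H] [InnerProductSpace ℂ H] [CompleteSpace H]
    [NormedAddCommGroup K] [InnerProductSpace ℂ K] [CompleteSpace K]
    (J : H →L[ℂ] K) (X : K →L[ℂ] K) : star (sl J X) = sl J (star X) := by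
  unfold sl
  rw [ContinuousLinearMap.star_eq_adjoint, ContinuousLinearMap.star_eq_adjoint,
    ContinuousLinearMap.adjoint_comp, ContinuousLinearMap.adjoint_comp,
    ContinuousLinearMap.adjoint_adjoint]
  rfl

variable {H : Type} [NormedAddCommGroup H] [InnerProductSpace ℂ H] [CompleteSpace H]
  {K : Type} [NormedAddCommGroup K] [InnerProductSpace ℂ K] [CompleteSpace K]
  {M : VonNeumannAlgebra H} {ξ : H} {U : ℝ → H →L[ℂ] H}
  {κ : (H →L[ℂ] H) →⋆ₐ[ℂ] (K →L[ℂ] K)} {e S : ℝ → K →L[ℂ] K}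
  {W : K →L[ℂ] K} {J : ℝ → H →L[ℂ] K} {E : ℝ → ℂ → K →L[ℂ] K}

/-- the norm of `E r t` for real `t` -/
theorem E_real_norm (F : Frame U κ e S W J E) {r : ℝ} (hr : 0 < r) (t : ℝ) (x : K) :
    ‖E r (t : ℂ) x‖ ≤ ‖x‖ := by
  have h1 : star (E r (t : ℂ)) * E r (t : ℂ) = E r 0 := by
    rw [F.E_star r _ hr, Complex.conj_ofReal, ← F.E_add r _ _ hr, neg_add_cancel]
  have h0 : ∀ y : K, ⟪y, E r 0 y⟫_ℂ = ⟪E r 0 y, E r 0 y⟫_ℂ := fun y => by
    have h2 : E r 0 y = E r 0 (E r 0 y) := (ap (E_idem F hr) y).symm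
    have h3 : ⟪y, E r 0 (E r 0 y)⟫_ℂ = ⟪E r 0 y, E r 0 y⟫_ℂ := by
      rw [← ContinuousLinearMap.adjoint_inner_left, ← ContinuousLinearMap.star_eq_adjoint,
        E_sa F hr]
    rw [← h3, ← h2]
  have hE0 : ‖E r 0 x‖ ≤ ‖x‖ := by
    have h4 : ‖E r 0 x‖ ^ 2 ≤ ‖x‖ * ‖E r 0 x‖ := by
      have h5 := norm_inner_le_norm (𝕜 := ℂ) x (E r 0 x)
      rw [h0 x, inner_self_eq_norm_sq_to_K] at h5
      have h6 : ‖((‖E r 0 x‖ : ℂ)) ^ 2‖ = ‖E r 0 x‖ ^ 2 := by
        rw [norm_pow, Complex.norm_real, norm_norm]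
      exact h6 ▸ h5
    by_cases h7 : ‖E r 0 x‖ = 0
    · rw [h7]; exact norm_nonneg _
    · have h8 : 0 < ‖E r 0 x‖ := lt_of_le_of_ne (norm_nonneg _) (Ne.symm h7)
      nlinarith
  have h9 : ⟪E r (t : ℂ) x, E r (t : ℂ) x⟫_ℂ = ⟪E r 0 x, E r 0 x⟫_ℂ := by
    rw [← h0 x, ← h1]
    show _ = ⟪x, (star (E r (t : ℂ))) (E r (t : ℂ) x)⟫_ℂ
    rw [ContinuousLinearMap.star_eq_adjoint, ContinuousLinearMap.adjoint_inner_right]
  rw [inner_self_eq_norm_sq_to_K, inner_self_eq_norm_sq_to_K] at h9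
  have h10 : ‖E r (t : ℂ) x‖ ^ 2 = ‖E r 0 x‖ ^ 2 := by exact_mod_cast h9
  rw [(sq_eq_sq₀ (norm_nonneg _) (norm_nonneg _)).1 h10]
  exact hE0

theorem E_bdd (F : Frame U κ e S W J E) {r : ℝ} (hr : 0 < r) (R : ℝ) :
    ∃ C : ℝ, 0 ≤ C ∧ ∀ z : ℂ, |z.im| ≤ R → ‖E r z‖ ≤ C := by
  refine ⟨1 + Real.exp (2 * Real.pi * R * r), by positivity, fun z hz => ?_⟩
  have hR : 0 ≤ R := (abs_nonneg _).trans hz
  have h1 : E r z = E r (z.re : ℂ) * E r ((z.im : ℂ) * I) := by
    rw [← F.E_add r _ _ hr, Complex.re_add_im]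
  have h2 : ‖E r (z.re : ℂ)‖ ≤ 1 := ContinuousLinearMap.opNorm_le_bound _ zero_le_one fun x => by
    rw [one_mul]; exact E_real_norm F hr _ x
  have h3 : ‖E r 0‖ ≤ 1 := ContinuousLinearMap.opNorm_le_bound _ zero_le_one fun x => by
    rw [one_mul]; simpa using E_real_norm F hr 0 x
  have h4 : ‖E r ((z.im : ℂ) * I)‖ ≤ 1 + Real.exp (2 * Real.pi * R * r) := by
    have h5 := F.E_norm r ((z.im : ℂ) * I) hr
    have h6 : ‖(z.im : ℂ) * I‖ = |z.im| := by
      rw [norm_mul, Complex.norm_I, mul_one, Complex.norm_real, Real.norm_eq_abs]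
    rw [h6] at h5
    have h7 : Real.exp (2 * Real.pi * |z.im| * r) ≤ Real.exp (2 * Real.pi * R * r) := by
      refine Real.exp_le_exp.2 (mul_le_mul_of_nonneg_right (mul_le_mul_of_nonneg_left hz ?_) hr.le)
      positivity
    have h8 : ‖E r ((z.im : ℂ) * I)‖ ≤ ‖E r 0‖ + ‖E r ((z.im : ℂ) * I) - E r 0‖ := by
      have := norm_add_le (E r 0) (E r ((z.im : ℂ) * I) - E r 0)
      rwa [add_sub_cancel] at this
    linarith
  rw [h1]
  refine (norm_mul_le _ _).trans ?_
  calc ‖E r (z.re : ℂ)‖ * ‖E r ((z.im : ℂ) * I)‖ ≤ 1 * ‖E r ((z.im : ℂ) * I)‖ :=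
        mul_le_mul_of_nonneg_right h2 (norm_nonneg _)
    _ ≤ _ := by rw [one_mul]; exact h4

/-- slices of operators affiliated with `M ⊗ B(L²)` belong to `M` -/
theorem sl_mem (F : Frame U κ e S W J E) {r : ℝ} (hr : 0 < r) {X : K →L[ℂ] K}
    (hX : ∀ y : H →L[ℂ] H, y ∈ M.commutant → X * κ y = κ y * X) : sl (J r) X ∈ M := by
  rw [← VonNeumannAlgebra.commutant_commutant M, VonNeumannAlgebra.mem_commutant_iff]
  intro y hy
  ext v
  show y (ContinuousLinearMap.adjoint (J r) (X (J r v))) =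
    ContinuousLinearMap.adjoint (J r) (X (J r (y v)))
  rw [← κ_adj F hr, ← F.κ_J _ _ _ hr]
  exact congrArg _ (ap (hX y hy) (J r v)).symm

/-- `J_r* e_{-t} = J_r* E_r(-t)` -/
theorem adj_e (F : Frame U κ e S W J E) {r : ℝ} (hr : 0 < r) (t : ℝ) (x : K) :
    ContinuousLinearMap.adjoint (J r) (e (-t) x) =
      ContinuousLinearMap.adjoint (J r) (E r (-(t : ℂ)) x) := by
  refine ext_inner_left ℂ fun v => ?_
  rw [ContinuousLinearMap.adjoint_inner_right, ContinuousLinearMap.adjoint_inner_right,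
    ← F.e_star, ContinuousLinearMap.star_eq_adjoint, ContinuousLinearMap.adjoint_inner_right,
    F.e_J _ _ _ hr]
  have h1 : E r (-(t : ℂ)) = star (E r (t : ℂ)) := by
    rw [F.E_star r _ hr, Complex.conj_ofReal]
  rw [h1, ContinuousLinearMap.star_eq_adjoint, ContinuousLinearMap.adjoint_inner_right]

/-- the twisted slice is analytic -/
theorem an (F : Frame U κ e S W J E) (hM : IsModular M ξ U) {r : ℝ} (hr : 0 < r)
    (Z : K →L[ℂ] K) (q : ℝ)
    (hZ : ∀ y : H →L[ℂ] H, y ∈ M.commutant → Z * κ y = κ y * Z)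
    (hV : ∀ t : ℝ, (e t * κ (U t)) * Z =
      Complex.exp (2 * Real.pi * I * q * t) • (Z * (e t * κ (U t)))) :
    IsAn M U (fun z : ℂ => Complex.exp (2 * Real.pi * I * q * z) •
      sl (J r) (E r (-z) * Z * E r z)) := by
  have hd : Differentiable ℂ (E r) := F.E_diff r hr
  have hc : Differentiable ℂ fun z : ℂ => Complex.exp (2 * Real.pi * I * q * z) := by fun_prop
  have hF0 : sl (J r) (E r (-0) * Z * E r 0) = sl (J r) Z := by
    ext v
    have h1 := adj_e F hr 0 (Z (E r 0 (J r v)))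
    simp only [neg_zero, F.e_zero, Complex.ofReal_zero] at h1
    show ContinuousLinearMap.adjoint (J r) (E r (-0) (Z (E r 0 (J r v)))) =
      ContinuousLinearMap.adjoint (J r) (Z (J r v))
    rw [neg_zero, ← h1, F.E_J r v hr]
    rfl
  refine ⟨?_, ?_, ?_, ?_, ?_⟩
  · intro z
    refine M.smul_mem (sl_mem F hr fun y hy => ?_) _
    calc E r (-z) * Z * E r z * κ y = E r (-z) * (Z * κ y) * E r z := by
          rw [mul_assoc, ← F.κ_E y r z hr]; simp only [mul_assoc]
      _ = (κ y * E r (-z)) * Z * E r z := by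
          rw [hZ y hy, F.κ_E y r (-z) hr]; simp only [mul_assoc]
      _ = _ := by simp only [mul_assoc]
  · intro v
    have h4 : Differentiable ℂ fun z : ℂ => E r (-z) := hd.comp differentiable_neg
    have h5 : Differentiable ℂ fun z : ℂ => E r z (J r v) :=
      hd.clm_apply (differentiable_const _)
    have h6 : Differentiable ℂ fun z : ℂ => Z (E r z (J r v)) := Z.differentiable.comp h5
    have h7 : Differentiable ℂ fun z : ℂ => E r (-z) (Z (E r z (J r v))) := h4.clm_apply h6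
    exact hc.smul ((ContinuousLinearMap.adjoint (J r)).differentiable.comp h7)
  · intro v
    have h4 : Differentiable ℂ fun z : ℂ => E r (-z) := hd.comp differentiable_neg
    have h5 : Differentiable ℂ fun z : ℂ => E r z (J r v) :=
      hd.clm_apply (differentiable_const _)
    have h6 : Differentiable ℂ fun z : ℂ => (star Z) (E r z (J r v)) :=
      (star Z).differentiable.comp h5
    have h7 : Differentiable ℂ fun z : ℂ => E r (-z) ((star Z) (E r z (J r v))) :=
      h4.clm_apply h6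
    have h8 := (ContinuousLinearMap.adjoint (J r)).differentiable.comp h7
    have hc' : Differentiable ℂ fun z : ℂ => Complex.exp (-(2 * Real.pi * I * q * z)) := by
      fun_prop
    have h9 : (fun z : ℂ => star (Complex.exp (2 * Real.pi * I * q * (starRingEnd ℂ z)) •
        sl (J r) (E r (-(starRingEnd ℂ z)) * Z * E r (starRingEnd ℂ z))) v) =
        fun z : ℂ => Complex.exp (-(2 * Real.pi * I * q * z)) •
          ContinuousLinearMap.adjoint (J r) (E r (-z) ((star Z) (E r z (J r v)))) := by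
      funext z
      rw [star_smul, sl_star, star_mul, star_mul, F.E_star r _ hr, F.E_star r _ hr]
      have h10 : star (Complex.exp (2 * Real.pi * I * q * (starRingEnd ℂ z))) =
          Complex.exp (-(2 * Real.pi * I * q * z)) := by
        rw [Complex.star_def, ← Complex.exp_conj]
        congr 1
        simp only [map_mul, Complex.conj_ofReal, Complex.conj_I, Complex.conj_conj, map_ofNat]
        ring
      rw [h10]
      simp [sl, ContinuousLinearMap.comp_apply]
    exact h9 ▸ hc'.smul h8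
  · intro t
    show Complex.exp (2 * Real.pi * I * q * (t : ℂ)) •
        sl (J r) (E r (-(t : ℂ)) * Z * E r (t : ℂ)) =
      sgm U t (Complex.exp (2 * Real.pi * I * q * 0) • sl (J r) (E r (-0) * Z * E r 0))
    rw [hF0, mul_zero, Complex.exp_zero, one_smul]
    ext v
    unfold sgm
    rw [hM.star_eq]
    show Complex.exp (2 * Real.pi * I * q * (t : ℂ)) •
        ContinuousLinearMap.adjoint (J r) (E r (-(t : ℂ)) (Z (E r (t : ℂ) (J r v)))) =
      U t (ContinuousLinearMap.adjoint (J r) (Z (J r (U (-t) v))))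
    rw [← κ_adj F hr, ← F.κ_J _ _ _ hr, ← F.e_J r t v hr, ← adj_e F hr, ← map_smul]
    congr 1
    -- `κ(U_t) Z κ(U_{-t}) = e^{2πiqt} e_{-t} Z e_t`
    have hU : κ (U t) * κ (U (-t)) = 1 := by
      rw [← map_mul, ← hM.add, add_neg_cancel, hM.zero, map_one]
    have h1 : Complex.exp (2 * Real.pi * I * q * (t : ℂ)) • (e (-t) * Z * e t) =
        κ (U t) * Z * κ (U (-t)) := by
      calc Complex.exp (2 * Real.pi * I * q * (t : ℂ)) • (e (-t) * Z * e t)
          = Complex.exp (2 * Real.pi * I * q * (t : ℂ)) • (e (-t) * Z * e t * (κ (U t) * κ (U (-t)))) := by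
            rw [hU, mul_one]
        _ = e (-t) * (Complex.exp (2 * Real.pi * I * q * (t : ℂ)) • (Z * (e t * κ (U t)))) *
              κ (U (-t)) := by
            rw [mul_smul_comm, smul_mul_assoc]; simp only [mul_assoc]
        _ = (e (-t) * e t) * κ (U t) * Z * κ (U (-t)) := by
            rw [← hV]; simp only [mul_assoc]
        _ = _ := by rw [e_neg_mul F, one_mul]
    exact ap h1 (J r v)
  · intro R
    obtain ⟨C, hC0, hC⟩ := E_bdd F hr R
    refine ⟨Real.exp (2 * Real.pi * |q| * R) * (C * ‖Z‖ * C), fun z hz => ?_⟩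
    rw [norm_smul]
    have h10 : ‖sl (J r) (E r (-z) * Z * E r z)‖ ≤ ‖E r (-z) * Z * E r z‖ := by
      refine ContinuousLinearMap.opNorm_le_bound _ (norm_nonneg _) fun v => ?_
      simp only [sl, ContinuousLinearMap.comp_apply]
      refine (Ja_norm F hr _).trans ?_
      refine (ContinuousLinearMap.le_opNorm _ _).trans ?_
      rw [J_norm F hr]
    have h11 : ‖E r (-z) * Z * E r z‖ ≤ C * ‖Z‖ * C := by
      refine (norm_mul_le _ _).trans ?_
      refine mul_le_mul ((norm_mul_le _ _).trans ?_) (hC z hz) (norm_nonneg _) (by positivity)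
      exact mul_le_mul_of_nonneg_right (hC (-z) (by simpa using hz)) (norm_nonneg _)
    have h12 : ‖Complex.exp (2 * Real.pi * I * q * z)‖ ≤ Real.exp (2 * Real.pi * |q| * R) := by
      rw [Complex.norm_exp]
      refine Real.exp_le_exp.2 ?_
      have h13 : (2 * (Real.pi : ℂ) * I * q * z).re = -(2 * Real.pi * (q * z.im)) := by
        simp [Complex.mul_re, Complex.mul_im]
        ring
      rw [h13]
      have h14 : -(q * z.im) ≤ |q| * R := by
        calc -(q * z.im) ≤ |q * z.im| := neg_le_abs _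
          _ = |q| * |z.im| := abs_mul _ _
          _ ≤ |q| * R := mul_le_mul_of_nonneg_left hz (abs_nonneg _)
      have h15 : 0 < 2 * Real.pi := by positivity
      nlinarith [mul_le_mul_of_nonneg_left h14 h15.le]
    exact mul_le_mul h12 (h10.trans h11) (norm_nonneg _) (Real.exp_nonneg _)

end

end Pool.Agent.H75.BC.Sl

namespace Pool.Agent.H75.BC

open Pool.Agent.W662.CB Pool.Agent.H75.BC Pool.Agent.H75.BC.FB

theorem s_Sl : S_Sl := by
  intro H K _ _ _ _ _ _ M ξ U J0 ρ κ e S W J E hM hR hF Z q r hr hZ hV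
  refine ⟨Sl.sl_mem hF hr hZ, ?_⟩
  have hAn := Sl.an hF hM hr Z q hZ hV
  have h1 := hR.an _ hAn
  have hF0 : sl (J r) (E r (-0) * Z * E r 0) = sl (J r) Z := by
    ext v
    have h1 := Sl.adj_e hF hr 0 (Z (E r 0 (J r v)))
    simp only [neg_zero, hF.e_zero, Complex.ofReal_zero] at h1
    show ContinuousLinearMap.adjoint (J r) (E r (-0) (Z (E r 0 (J r v)))) =
      ContinuousLinearMap.adjoint (J r) (Z (J r v))
    rw [neg_zero, ← h1, hF.E_J r v hr]
    rfl
  simp only [hF0, mul_zero, Complex.exp_zero, one_smul] at h1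
  rw [h1]
  have h2 : Complex.exp (2 * Real.pi * I * q * (-(I / 2))) = ((Real.exp (Real.pi * q) : ℝ) : ℂ) := by
    rw [Complex.ofReal_exp]
    congr 1
    push_cast
    have : I * I = -1 := Complex.I_mul_I
    linear_combination (-(Real.pi : ℂ) * q) * this
  rw [h2, neg_neg]
  rfl

end Pool.Agent.H75.BC
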