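import Pool.Agent.H75.BC.Stmts3

/-!
K2: the asymptotic centraliser lemma for unitaries: `S_Un'` from `S_Bur'`.
-/

set_option autoImplicit false

open Filter Topology
open scoped InnerProductSpace

namespace Pool.Agent.H75.BC.Un

open Pool.Agent.W662.CB

theorem re_le {H : Type} [NormedAddCommGroup H] [InnerProductSpace ℂ H] (x y : H) :
    (⟪x, y⟫_ℂ).re ≤ ‖x‖ * ‖y‖ := (Complex.re_le_norm _).trans (norm_inner_le_norm x y)

theorem sq_re {H : Type} [NormedAddCommGroup H] [InnerProductSpace ℂ H] (x : H) :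
    ‖x‖ ^ 2 = (⟪x, x⟫_ℂ).re := by
  rw [← inner_self_eq_norm_sq (𝕜 := ℂ)]; rfl

theorem un' (hB : S_Bur') : S_Un' := by
  intro H _ _ _ M ξ J hξ Jadd Jsmul Jinv Jin Jξ hcomm hpos hdense u ε hu hu1 hu2 hε hyp
  have hus : star u ∈ M := star_mem hu
  -- properties of `J`
  have Jneg : ∀ x : H, J (-x) = -J x := fun x => by
    have := Jsmul (-1) x
    simpa using this
  have Jsub : ∀ x y : H, J (x - y) = J x - J y := fun x y => by
    rw [sub_eq_add_neg, Jadd, Jneg, ← sub_eq_add_neg]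
  have Jnorm : ∀ x : H, ‖J x‖ = ‖x‖ := fun x => by
    have h1 : ‖J x‖ ^ 2 = ‖x‖ ^ 2 := by rw [sq_re, sq_re, Jin]
    exact (pow_left_inj₀ (norm_nonneg _) (norm_nonneg _) two_ne_zero).1 h1
  have Jξin : ∀ w : H, ⟪ξ, J w⟫_ℂ = ⟪w, ξ⟫_ℂ := fun w => by
    have := Jin ξ w
    rwa [Jξ] at this
  -- unitaries
  have unorm : ∀ v : H, ‖u v‖ = ‖v‖ := fun v => by
    have h1 : ‖u v‖ ^ 2 = ‖v‖ ^ 2 := by
      rw [sq_re, sq_re, ← ContinuousLinearMap.adjoint_inner_right]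
      have : (ContinuousLinearMap.adjoint u) (u v) = (star u * u) v := rfl
      rw [this, hu1]; rfl
    exact (pow_left_inj₀ (norm_nonneg _) (norm_nonneg _) two_ne_zero).1 h1
  have usnorm : ∀ v : H, ‖star u v‖ = ‖v‖ := fun v => by
    have h1 : ‖star u v‖ ^ 2 = ‖v‖ ^ 2 := by
      rw [sq_re, sq_re, ContinuousLinearMap.star_eq_adjoint, ContinuousLinearMap.adjoint_inner_left]
      have : u ((ContinuousLinearMap.adjoint u) v) = (u * star u) v := rfl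
      rw [this, hu2]; rfl
    exact (pow_left_inj₀ (norm_nonneg _) (norm_nonneg _) two_ne_zero).1 h1
  have usop : ‖star u‖ ≤ 1 := ContinuousLinearMap.opNorm_le_bound _ zero_le_one fun v => by
    rw [usnorm, one_mul]
  -- Bures
  obtain ⟨t, ht, ht1, ht2⟩ := hB H M ξ (u ξ) ε hξ hε (by
    intro x hx
    have h1 := hyp (star u * x) (mul_mem hus hx)
    have e1 : vst ξ (star u * x * u) = ⟪u ξ, x (u ξ)⟫_ℂ := by
      unfold vst
      rw [← ContinuousLinearMap.adjoint_inner_right]; rfl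
    have e2 : vst ξ (u * (star u * x)) = ⟪ξ, x ξ⟫_ℂ := by
      unfold vst
      rw [← mul_assoc, hu2, one_mul]
    rw [e1, e2] at h1
    refine h1.trans (mul_le_mul_of_nonneg_left ?_ hε)
    exact (norm_mul_le _ _).trans (mul_le_of_le_one_left (norm_nonneg _) usop))
  set s := Real.sqrt (Real.sqrt ε) with hs
  have hs0 : 0 ≤ s := Real.sqrt_nonneg _
  have hs2 : s ^ 2 = Real.sqrt ε := Real.sq_sqrt (Real.sqrt_nonneg _)
  have hs4 : s ^ 4 = ε := by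
    have : s ^ 4 = (s ^ 2) ^ 2 := by ring
    rw [this, hs2, Real.sq_sqrt hε]
  have K1 : ‖u ξ - t ξ‖ ≤ s ^ 2 := by
    rw [hs2]; exact Real.le_sqrt_of_sq_le ht2
  have tadj : ∀ x y : H, ⟪star t x, y⟫_ℂ = ⟪x, t y⟫_ℂ := fun x y => by
    rw [ContinuousLinearMap.star_eq_adjoint, ContinuousLinearMap.adjoint_inner_left]
  have hts : ‖star t‖ ≤ 1 := by rwa [norm_star]
  have K2 : ‖star u ξ - star t ξ‖ ≤ 2 * s := by
    refine le_of_sq_le_sq ?_ (by positivity)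
    have e1 : ‖star u ξ - star t ξ‖ ^ 2 = ‖star u ξ‖ ^ 2 - 2 * (⟪star t ξ, star u ξ⟫_ℂ).re +
        ‖star t ξ‖ ^ 2 := by
      rw [@norm_sub_sq ℂ, inner_re_symm (𝕜 := ℂ)]
      rfl
    have e2 : ⟪star t ξ, star u ξ⟫_ℂ = ⟪u ξ, t ξ⟫_ℂ := by
      rw [tadj]
      have h1 : t (star u ξ) = star u (t ξ) := by
        have := congrArg (fun T : H →L[ℂ] H => T ξ) (ht _ hus)
        exact this
      rw [h1, ContinuousLinearMap.star_eq_adjoint, ContinuousLinearMap.adjoint_inner_right]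
    have e3 : (⟪u ξ, t ξ⟫_ℂ).re = 1 - (⟪u ξ, u ξ - t ξ⟫_ℂ).re := by
      rw [inner_sub_right, Complex.sub_re, ← sq_re, unorm, hξ]; ring
    have e4 : (⟪u ξ, u ξ - t ξ⟫_ℂ).re ≤ s ^ 2 := by
      refine (re_le _ _).trans ?_
      rw [unorm, hξ, one_mul]; exact K1
    have e5 : ‖star t ξ‖ ≤ 1 := by
      refine ((star t).le_opNorm ξ).trans ?_
      rw [hξ, mul_one]; exact hts
    have e6 : ‖star t ξ‖ ^ 2 ≤ 1 := pow_le_one₀ (norm_nonneg _) e5
    rw [e1, e2, e3, usnorm, hξ]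
    nlinarith
  -- the vector `d`
  set d := u ξ - J (star t ξ) with hd
  have key : ∀ b ∈ M, ⟪d, b ξ + J (star b ξ)⟫_ℂ =
      ⟪(u ξ - t ξ) + (J (star u ξ) - J (star t ξ)), b ξ⟫_ℂ := by
    intro b hb
    have hbs : star b ∈ M := star_mem hb
    have e1 : ⟪u ξ, J (star b ξ)⟫_ℂ = ⟪J (star u ξ), b ξ⟫_ℂ := by
      have h1 : ⟪u ξ, J (star b ξ)⟫_ℂ = ⟪star b ξ, J (u ξ)⟫_ℂ := by
        conv_lhs => rw [← Jinv (u ξ)]
        rw [Jin]
      have h2 : b (J (u ξ)) = J (u (J (b ξ))) := by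
        rw [hcomm u b ξ hu hb, Jξ]
      rw [h1, ContinuousLinearMap.star_eq_adjoint, ContinuousLinearMap.adjoint_inner_left, h2]
      rw [Jξin]
      have h3 : ⟪u (J (b ξ)), ξ⟫_ℂ = ⟪J (b ξ), star u ξ⟫_ℂ := by
        rw [ContinuousLinearMap.star_eq_adjoint, ContinuousLinearMap.adjoint_inner_right]
      rw [h3]
      conv_lhs => rw [← Jinv (star u ξ)]
      rw [Jin]
    have e2 : ⟪J (star t ξ), J (star b ξ)⟫_ℂ = ⟪t ξ, b ξ⟫_ℂ := by
      rw [Jin]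
      have h1 : ⟪star b ξ, star t ξ⟫_ℂ = ⟪t (star b ξ), ξ⟫_ℂ := by
        rw [ContinuousLinearMap.star_eq_adjoint, ContinuousLinearMap.star_eq_adjoint,
          ContinuousLinearMap.adjoint_inner_right]
      have h2 : t (star b ξ) = star b (t ξ) := by
        have := congrArg (fun T : H →L[ℂ] H => T ξ) (ht _ hbs)
        exact this
      rw [h1, h2, ContinuousLinearMap.star_eq_adjoint, ContinuousLinearMap.adjoint_inner_left]
    rw [hd, inner_sub_left, inner_add_right, inner_add_right, e1, e2, inner_add_left,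
      inner_sub_left, inner_sub_left]
    ring
  have hb_le : ∀ b ∈ M, ‖b ξ‖ ≤ ‖b ξ + J (star b ξ)‖ := by
    intro b hb
    refine le_of_sq_le_sq ?_ (norm_nonneg _)
    rw [@norm_add_sq ℂ]
    have h1 := hpos b hb
    have h2 : RCLike.re ⟪b ξ, J (star b ξ)⟫_ℂ = (⟪b ξ, J (star b ξ)⟫_ℂ).re := rfl
    rw [h2]
    nlinarith [sq_nonneg ‖J (star b ξ)‖]
  have hK : ‖(u ξ - t ξ) + (J (star u ξ) - J (star t ξ))‖ ≤ s ^ 2 + 2 * s := by
    refine (norm_add_le _ _).trans (add_le_add K1 ?_)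
    rw [← Jsub, Jnorm]; exact K2
  have hdn : ‖d‖ ≤ s ^ 2 + 2 * s := by
    have h1 : ∀ δ : ℝ, 0 < δ → ‖d‖ ^ 2 ≤ (s ^ 2 + 2 * s) * ‖d‖ + (‖d‖ + (s ^ 2 + 2 * s)) * δ := by
      intro δ hδ
      obtain ⟨b, hb, hbd⟩ := hdense d δ hδ
      have e1 : ‖d‖ ^ 2 = (⟪d, b ξ + J (star b ξ)⟫_ℂ).re - (⟪d, b ξ + J (star b ξ) - d⟫_ℂ).re := by
        rw [inner_sub_right, Complex.sub_re, ← sq_re]; ring
      have e2 : (⟪d, b ξ + J (star b ξ)⟫_ℂ).re ≤ (s ^ 2 + 2 * s) * (‖d‖ + δ) := by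
        rw [key b hb]
        refine (re_le _ _).trans (mul_le_mul hK ?_ (norm_nonneg _) (by positivity))
        refine (hb_le b hb).trans ?_
        calc ‖b ξ + J (star b ξ)‖ = ‖d + (b ξ + J (star b ξ) - d)‖ := by congr 1; abel
          _ ≤ ‖d‖ + δ := (norm_add_le _ _).trans (by gcongr)
      have e3 : -(⟪d, b ξ + J (star b ξ) - d⟫_ℂ).re ≤ ‖d‖ * δ := by
        rw [← Complex.neg_re, ← inner_neg_right]
        refine (re_le _ _).trans ?_
        rw [norm_neg]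
        exact mul_le_mul_of_nonneg_left hbd (norm_nonneg _)
      rw [e1]; linarith
    have h2 : ‖d‖ ^ 2 ≤ (s ^ 2 + 2 * s) * ‖d‖ := by
      refine le_of_forall_pos_le_add fun e he => ?_
      have hpos' : 0 < ‖d‖ + (s ^ 2 + 2 * s) + 1 := by positivity
      have := h1 (e / (‖d‖ + (s ^ 2 + 2 * s) + 1)) (by positivity)
      refine this.trans ?_
      have h3 : (‖d‖ + (s ^ 2 + 2 * s)) * (e / (‖d‖ + (s ^ 2 + 2 * s) + 1)) ≤ e := by
        rw [mul_div_assoc', div_le_iff₀ hpos']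
        nlinarith
      linarith
    rcases (norm_nonneg d).eq_or_lt with h3 | h3
    · rw [← h3]; positivity
    · have h4 : ‖d‖ * ‖d‖ ≤ (s ^ 2 + 2 * s) * ‖d‖ := by rw [← sq]; exact h2
      exact le_of_mul_le_mul_right h4 h3
  have hfin : ‖u ξ - J (star u ξ)‖ ≤ s ^ 2 + 4 * s := by
    have e1 : u ξ - J (star u ξ) = d - (J (star u ξ) - J (star t ξ)) := by rw [hd]; abel
    rw [e1]
    refine (norm_sub_le _ _).trans ?_
    rw [← Jsub, Jnorm]
    linarith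
  have htriv : ‖u ξ - J (star u ξ)‖ ≤ 2 := by
    refine (norm_sub_le _ _).trans ?_
    rw [Jnorm, unorm, usnorm, hξ]; norm_num
  by_cases h1 : s ≤ 1
  · have h2 : ‖u ξ - J (star u ξ)‖ ≤ 5 * s := by nlinarith
    calc ‖u ξ - J (star u ξ)‖ ^ 4 ≤ (5 * s) ^ 4 := pow_le_pow_left₀ (norm_nonneg _) h2 4
      _ = 625 * ε := by rw [mul_pow, hs4]; norm_num
      _ ≤ 10 ^ 4 * ε := by nlinarith
  · push Not at h1
    have h2 : 1 ≤ ε := by
      rw [← hs4]; exact one_le_pow₀ h1.le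
    calc ‖u ξ - J (star u ξ)‖ ^ 4 ≤ 2 ^ 4 := pow_le_pow_left₀ (norm_nonneg _) htriv 4
      _ ≤ 10 ^ 4 * ε := by nlinarith

/-- K2 for von Neumann algebras. -/
theorem un (hB : S_Bur') : S_Un := by
  intro H _ _ _ M ξ J h1 h2 h3 h4 h5 h6 h7 h8 h9 u ε hu h10 h11 h12 h13
  exact un' hB H M.toStarSubalgebra ξ J h1 h2 h3 h4 h5 h6 h7 h8 h9 u ε hu h10 h11 h12 h13

end Pool.Agent.H75.BC.Un
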