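import Pool.Agent.H75.BC.T.Box
import Pool.Agent.H75.L.W557.CB.A1
import Pool.Agent.H75.L.W303.CB.A2
import Pool.Agent.H75.L.W398.CB.B1
import Pool.Agent.H75.L.W366.CB.B2
import Pool.Agent.H75.L.W110.CB.B3
import Pool.Agent.H75.L.W922.CB.B4
import Pool.Agent.H75.L.W212.CB.B5
import Pool.Agent.H75.L.W509.CB.B6
import Pool.Agent.H75.L.W67.WD.CMP
import Pool.Agent.H75.L.W196.WD.CPT
import Pool.Agent.H75.L.W395.WD.LOC
import Pool.Agent.H75.L.W978.WD.ZSUM

/-!
T3a: comparison of boxes (helper83).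
-/

set_option autoImplicit false

open MeasureTheory Filter Topology Complex
open scoped InnerProductSpace ENNReal

namespace Pool.Agent.H75.BC.VC

open Pool.Agent.W662.CB Pool.Agent.H75.BC Pool.Agent.H75.BC.FB

noncomputable section

theorem qA2 : S_A2 := Pool.Agent.W303.CB.a2 Pool.Agent.W557.CB.a1 Pool.Agent.W303.CB.a2a
theorem qB1 : S_B1 := Pool.Agent.W398.CB.B1.b1
theorem qB2 : S_B2 := Pool.Agent.W366.CB.B2.b2
theorem qB3 : S_B3 := Pool.Agent.W110.CB.B3.b3 qB1 qB2 qA2
theorem qB4 : S_B4 := Pool.Agent.W922.CB.b4 qB1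
theorem qB5 : S_B5 := Pool.Agent.W212.CB.b5 qB1 qB2 qB3 qB4
theorem qB6 : S_B6 := Pool.Agent.W509.CB.b6 qB1 qB2
theorem qCMP : Pool.Agent.W988.WD.S_CMP :=
  Pool.Agent.W67.WD.p_CMP Pool.Agent.W395.WD.p_LOC (Pool.Agent.W978.WD.ZSUM.p_ZSUM Pool.Agent.W196.WD.p_CPT)

variable {H : Type} [NormedAddCommGroup H] [InnerProductSpace ℂ H] [CompleteSpace H]
  {K : Type} [NormedAddCommGroup K] [InnerProductSpace ℂ K] [CompleteSpace K]
  {M N : VonNeumannAlgebra H} {ξ : H} {U : ℝ → H →L[ℂ] H} {J0 : H → H}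
  {ρ : (H →L[ℂ] H) → (H →L[ℂ] H)} {κ : (H →L[ℂ] H) →⋆ₐ[ℂ] (K →L[ℂ] K)} {e S : ℝ → K →L[ℂ] K}
  {W : K →L[ℂ] K} {J : ℝ → H →L[ℂ] K} {E : ℝ → ℂ → K →L[ℂ] K} {A : VonNeumannAlgebra K}

/-- the trace vector `e^{πw} 1_{[0,r]} ⊗ ξ` (normalised by `r^{-1/2}`) -/
def tv (J : ℝ → H →L[ℂ] K) (E : ℝ → ℂ → K →L[ℂ] K) (ξ : H) (r : ℝ) : K := E r (-I / 2) (J r ξ)

theorem norm_sq_star_mul {T : K →L[ℂ] K} {P : K →L[ℂ] K} (h : star T * T = P) (x : K) :
    (‖T x‖ ^ 2 : ℝ) = (⟪x, P x⟫_ℂ).re := by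
  rw [← h]
  change ‖T x‖ ^ 2 = (⟪x, star T (T x)⟫_ℂ).re
  rw [ContinuousLinearMap.star_eq_adjoint, ContinuousLinearMap.adjoint_inner_right,
    inner_self_eq_norm_sq_to_K]
  norm_cast

theorem aff_M (D : CoreD M N ξ U κ e S W J E A) {Z : K →L[ℂ] K} (hZ : Z ∈ A) :
    Aff M κ (fun t => e t * κ (U t)) Z := by
  refine ⟨(aff D hZ).1, fun y hy => (aff D hZ).2 y ?_⟩
  rw [VonNeumannAlgebra.mem_commutant_iff] at hy ⊢
  exact fun a ha => hy a (D.std.le a ha)

/-- the sub-boxes see the trace vector -/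
theorem bx_tv (F : Frame U κ e S W J E) {p r R : ℝ} (hr : 0 < r) (hp : 0 ≤ p) (hR : p + r ≤ R) :
    bx S E p r (tv J E ξ R) =
      ((Real.exp (Real.pi * p) * Real.sqrt (r / R) : ℝ) : ℂ) • S p (tv J E ξ r) := by
  unfold tv
  have hRp : 0 < R := by linarith
  have h1 := ap (F.box_E p r R (-I / 2) hr hp hR) (J R ξ)
  have h2 : cexp (2 * Real.pi * I * (-I / 2) * p) = ((Real.exp (Real.pi * p) : ℝ) : ℂ) := by
    rw [Complex.ofReal_exp]
    congr 1
    push_cast
    have : I * (-I / 2) = 1 / 2 := by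
      rw [mul_div_assoc', mul_neg, Complex.I_mul_I]
      ring
    calc (2 * Real.pi * I * (-I / 2) * p : ℂ) = 2 * Real.pi * (I * (-I / 2)) * p := by ring
      _ = _ := by rw [this]; ring
  rw [h2] at h1
  change bx S E p r (E R (-I / 2) (J R ξ)) = _ at h1
  rw [h1]
  change ((Real.exp (Real.pi * p) : ℝ) : ℂ) • S p (E r (-I / 2) (S (-p) (J R ξ))) = _
  have h3 : E r (-I / 2) (S (-p) (J R ξ)) =
      ((Real.sqrt (r / R) : ℝ) : ℂ) • E r (-I / 2) (J r ξ) := by
    have h4 : E r (-I / 2) = E r (-I / 2) * E r 0 := by rw [← F.E_add _ _ _ hr, add_zero]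
    have h5 : E r 0 (S (-p) (J R ξ)) = S (-p) (bx S E p r (J R ξ)) := by
      unfold bx
      change _ = S (-p) (S p (E r 0 (S (-p) (J R ξ))))
      exact (ap (S_neg_mul F p) _).symm
    have h6 : S (-p) (S p (J r ξ)) = J r ξ := ap (S_neg_mul F p) _
    rw [h4]
    change E r (-I / 2) (E r 0 (S (-p) (J R ξ))) = _
    rw [h5, F.box_J p r R ξ hr hp hR, map_smul, h6, map_smul]
    congr 1

    rw [← h4]
  rw [h3, map_smul, smul_smul, Complex.ofReal_mul]

/-- the statement for one displacement `s` -/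
def Pr (S : ℝ → K →L[ℂ] K) (E : ℝ → ℂ → K →L[ℂ] K) (A : VonNeumannAlgebra K) (r s : ℝ) : Prop :=
  ∃ V : K →L[ℂ] K, V ∈ A ∧ star V * V = bx S E s r ∧ E r 0 * V = V

theorem bx_mul_E (F : Frame U κ e S W J E) {p r R : ℝ} (hr : 0 < r) (hp : 0 ≤ p) (hR : p + r ≤ R) :
    bx S E p r * E R 0 = bx S E p r := by
  have h1 := F.box_E p r R 0 hr hp hR
  rw [h1, mul_zero, zero_mul, Complex.exp_zero, one_smul]
  rfl

theorem E_mul_bx (F : Frame U κ e S W J E) {p r R : ℝ} (hr : 0 < r) (hp : 0 ≤ p) (hR : p + r ≤ R) :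
    E R 0 * bx S E p r = bx S E p r := by
  have h1 := congrArg star (bx_mul_E F hr hp hR)
  rwa [star_mul, bx_sa F hr, E_sa F (by linarith)] at h1

/-- one short step -/
theorem step (D : CoreD M N ξ U κ e S W J E A) {r t : ℝ} (hr : 0 < r) (ht : 0 ≤ t)
    (hR1 : Real.exp (2 * Real.pi * (t + r)) - 1 ≤ 1) : Pr S E A r (-t) := by
  have F := D.fr
  have hR : 0 < t + r := by linarith
  have hbox := boxP F D.std.modular hR hR1
  set p := E r 0 with hp
  set q := bx S E t r with hq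
  have hpA : p ∈ A := E_mem D hr 0
  have hqA : q ∈ A := bx_mem D hr t
  have hpp : Pool.Agent.W988.WD.Prj p := ⟨E_sa F hr, E_idem F hr⟩
  have hqq : Pool.Agent.W988.WD.Prj q := ⟨bx_sa F hr t, bx_idem F hr t⟩
  have hfac : Pool.Agent.W988.WD.Factor A := by
    intro z hz h
    exact D.fac z hz fun Y hY => (h Y hY).symm
  have key : ∃ v : K →L[ℂ] K, v ∈ A ∧ star v * v = p ∧ q * v = v := by
    rcases qCMP K A hfac p hpA q hqA hpp hqq with ⟨v, hv, h1, h2⟩ | ⟨v, hv, h1, h2⟩
    · exact ⟨v, hv, h1, h2⟩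
    · -- `v* v = q`, `p v = v`
      have hp0 : bx S E 0 r = p := bx_zero F r
      have pE : p * E (t + r) 0 = p := by
        rw [← hp0]; exact bx_mul_E F hr le_rfl (by linarith)
      have Ep : E (t + r) 0 * p = p := by
        rw [← hp0]; exact E_mul_bx F hr le_rfl (by linarith)
      have qE : q * E (t + r) 0 = q := bx_mul_E F hr ht le_rfl
      have vq : v * q = v := by
        have h3 : star (v * q - v) * (v * q - v) = 0 := by
          rw [star_sub, star_mul, hqq.1, sub_mul, mul_sub, mul_sub]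
          have a1 : q * star v * (v * q) = q := by
            calc q * star v * (v * q) = q * (star v * v) * q := by simp only [mul_assoc]
              _ = q := by rw [h1, hqq.2, hqq.2]
          have a2 : q * star v * v = q := by rw [mul_assoc, h1, hqq.2]
          have a3 : star v * (v * q) = q := by rw [← mul_assoc, h1, hqq.2]
          rw [a1, a2, a3, h1]
          simp
        exact sub_eq_zero.1 ((CStarRing.star_mul_self_eq_zero_iff _).1 h3)
      set ζ := tv J E ξ (t + r) with hζ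
      have b5 : ∀ Z : K →L[ℂ] K, Z ∈ A → E (t + r) 0 * Z * E (t + r) 0 = Z →
          ‖Z ζ‖ = ‖star Z ζ‖ := fun Z hZ h => qB5 H K M ξ U κ _ _ _ _ _ D.std.modular hbox Z
            (aff_M D hZ) h
      have b6 : ∀ Z : K →L[ℂ] K, Z ∈ A → E (t + r) 0 * Z * E (t + r) 0 = Z → Z ζ = 0 → Z = 0 :=
        fun Z hZ h h0 => qB6 H K M ξ U κ _ _ _ _ _ D.std.modular D.std.sep hbox Z (aff_M D hZ) h h0
      have hvw : E (t + r) 0 * v * E (t + r) 0 = v := by
        calc E (t + r) 0 * v * E (t + r) 0 = E (t + r) 0 * (p * v) * E (t + r) 0 := by rw [h2]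
          _ = (E (t + r) 0 * p) * (v * q) * E (t + r) 0 := by rw [vq]; simp only [mul_assoc]
          _ = p * v * (q * E (t + r) 0) := by rw [Ep]; simp only [mul_assoc]
          _ = v := by rw [qE, h2, vq]
      set p' := v * star v with hp'
      have pp' : p * p' = p' := by rw [hp', ← mul_assoc, h2]
      have p'p : p' * p = p' := by
        have := congrArg star pp'
        rwa [star_mul, hpp.1, hp', star_mul, star_star] at this
      have p'p' : p' * p' = p' := by
        calc p' * p' = v * (star v * v) * star v := by rw [hp']; simp only [mul_assoc]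
          _ = p' := by rw [h1, vq]
      have sp' : star p' = p' := by rw [hp', star_mul, star_star]
      have n1 : ‖v ζ‖ ^ 2 = (⟪ζ, q ζ⟫_ℂ).re := norm_sq_star_mul h1 ζ
      have n2 : ‖star v ζ‖ ^ 2 = (⟪ζ, p' ζ⟫_ℂ).re := norm_sq_star_mul (by rw [star_star]) ζ
      have n3 : ‖q ζ‖ ^ 2 = (⟪ζ, q ζ⟫_ℂ).re := norm_sq_star_mul (by rw [hqq.1, hqq.2]) ζ
      have n4 : ‖p ζ‖ ^ 2 = (⟪ζ, p ζ⟫_ℂ).re := norm_sq_star_mul (by rw [hpp.1, hpp.2]) ζ
      have n5 : ‖(p - p') ζ‖ ^ 2 = (⟪ζ, (p - p') ζ⟫_ℂ).re := norm_sq_star_mul (by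
        rw [star_sub, hpp.1, sp', sub_mul, mul_sub, mul_sub, hpp.2, pp', p'p, p'p']
        simp) ζ
      have n6 := b5 v hv hvw
      have n7 : ‖p ζ‖ ≤ ‖q ζ‖ := by
        have c1 := bx_tv (ξ := ξ) F (p := 0) (r := r) (R := t + r) hr le_rfl (by linarith)
        have c2 := bx_tv (ξ := ξ) F (p := t) (r := r) (R := t + r) hr ht le_rfl
        rw [hp0, mul_zero, Real.exp_zero, one_mul] at c1
        have c1' : ‖p ζ‖ = Real.sqrt (r / (t + r)) * ‖tv J E ξ r‖ := by
          rw [hζ, c1, norm_smul, Complex.norm_real, Real.norm_of_nonneg (Real.sqrt_nonneg _),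
            F.S_zero, one_apply_eq_self]
        have c2' : ‖q ζ‖ = Real.exp (Real.pi * t) * Real.sqrt (r / (t + r)) * ‖tv J E ξ r‖ := by
          rw [hζ, c2, norm_smul, Complex.norm_real, Real.norm_of_nonneg (by positivity),
            S_norm F]
        rw [c1', c2', mul_assoc]
        exact le_mul_of_one_le_left (by positivity) (Real.one_le_exp (by positivity))
      have n8 : (⟪ζ, (p - p') ζ⟫_ℂ).re = (⟪ζ, p ζ⟫_ℂ).re - (⟪ζ, p' ζ⟫_ℂ).re := by
        rw [sub_apply, inner_sub_right, Complex.sub_re]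
      have n9 : ‖(p - p') ζ‖ ^ 2 ≤ 0 := by
        rw [n5, n8, ← n4, ← n2, ← n6, n1, ← n3]
        have := pow_le_pow_left₀ (norm_nonneg _) n7 2
        linarith
      have n10 : (p - p') ζ = 0 := by
        have := (pow_eq_zero_iff two_ne_zero).1 (le_antisymm n9 (sq_nonneg _))
        exact norm_eq_zero.1 this
      have hp'A : p' ∈ A := mul_mem hv (star_mem hv)
      have hwin : E (t + r) 0 * (p - p') * E (t + r) 0 = p - p' := by
        rw [mul_sub, sub_mul]
        have a1 : E (t + r) 0 * p' = p' := by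
          calc E (t + r) 0 * p' = (E (t + r) 0 * p) * p' := by rw [mul_assoc, pp']
            _ = p' := by rw [Ep, pp']
        have a2 : p' * E (t + r) 0 = p' := by
          calc p' * E (t + r) 0 = p' * (p * E (t + r) 0) := by rw [← mul_assoc, p'p]
            _ = p' := by rw [pE, p'p]
        rw [Ep, pE, a1, a2]
      have hfin := b6 (p - p') (sub_mem hpA hp'A) hwin n10
      refine ⟨star v, star_mem hv, ?_, ?_⟩
      · rw [star_star]
        exact (sub_eq_zero.1 hfin).symm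
      · have := congrArg star vq
        rwa [star_mul, hqq.1] at this
  obtain ⟨v, hv, h1, h2⟩ := key
  refine ⟨S (-t) * v * S t, ?_, ?_, ?_⟩
  · have := S_mem D (-t) hv
    rwa [neg_neg] at this
  · rw [star_mul, star_mul, F.S_star, F.S_star, neg_neg]
    calc S (-t) * (star v * S t) * (S (-t) * v * S t)
        = S (-t) * (star v * (S t * S (-t)) * v) * S t := by simp only [mul_assoc]
      _ = S (-t) * (star v * v) * S t := by rw [S_mul_neg F, mul_one]
      _ = _ := by
        rw [h1]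
        unfold bx
        rw [neg_neg]
  · have h3 : S (-t) * q * S t = p := by
      have := S_bx F (-t) t r
      rw [neg_neg, neg_add_cancel, bx_zero F] at this
      exact this
    calc E r 0 * (S (-t) * v * S t) = (S (-t) * q * S t) * (S (-t) * v * S t) := by rw [h3]
      _ = S (-t) * (q * (S t * S (-t)) * v) * S t := by simp only [mul_assoc]
      _ = S (-t) * (q * v) * S t := by rw [S_mul_neg F, mul_one]
      _ = _ := by rw [h2]

/-- composition of two displacements -/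
theorem comp (D : CoreD M N ξ U κ e S W J E A) {r s t : ℝ} (h1 : Pr S E A r s)
    (h2 : Pr S E A r t) : Pr S E A r (s + t) := by
  have F := D.fr
  obtain ⟨V, hV, hV1, hV2⟩ := h1
  obtain ⟨V', hV', hV1', hV2'⟩ := h2
  refine ⟨V * (S s * V' * S (-s)), mul_mem hV (S_mem D s hV'), ?_, ?_⟩
  · have hb : S (-s) * bx S E s r * S s = E r 0 := by
      have := S_bx F (-s) s r
      rw [neg_neg, neg_add_cancel, bx_zero F] at this
      exact this
    calc star (V * (S s * V' * S (-s))) * (V * (S s * V' * S (-s)))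
        = S s * (star V' * ((S (-s) * (star V * V) * S s) * V')) * S (-s) := by
          rw [star_mul, star_mul, star_mul, F.S_star, F.S_star, neg_neg]
          simp only [mul_assoc]
      _ = S s * (star V' * V') * S (-s) := by rw [hV1, hb, hV2']
      _ = bx S E (s + t) r := by rw [hV1', S_bx F]
  · rw [← mul_assoc, hV2]

theorem iter (D : CoreD M N ξ U κ e S W J E A) {r : ℝ} (hr : 0 < r)
    (hR1 : Real.exp (2 * Real.pi * (2 * r)) - 1 ≤ 1) (n : ℕ) :
    ∀ t : ℝ, 0 ≤ t → t ≤ n * r → Pr S E A r (-t) := by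
  have hstep : ∀ t : ℝ, 0 ≤ t → t ≤ r → Pr S E A r (-t) := by
    intro t ht htr
    refine step D hr ht (le_trans ?_ hR1)
    have : 2 * Real.pi * (t + r) ≤ 2 * Real.pi * (2 * r) := by
      have := Real.pi_pos
      apply mul_le_mul_of_nonneg_left _ (by positivity)
      linarith
    linarith [Real.exp_le_exp.2 this]
  induction n with
  | zero =>
    intro t ht htn
    rw [Nat.cast_zero, zero_mul] at htn
    exact hstep t ht (htn.trans hr.le)
  | succ n ih =>
    intro t ht htn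
    rcases le_total t r with h | h
    · exact hstep t ht h
    · have h1 := ih (t - r) (by linarith) (by push_cast at htn; linarith)
      have h2 := comp D h1 (hstep r hr.le le_rfl)
      have h3 : -(t - r) + -r = -t := by ring
      rwa [h3] at h2

end

end Pool.Agent.H75.BC.VC

namespace Pool.Agent.H75.BC

open Pool.Agent.W662.CB VC

theorem pV : S_V := by
  intro H K _ _ _ _ _ _ M N ξ U κ e S W J E A D
  refine ⟨Real.log 2 / (4 * Real.pi), by
    have := Real.pi_pos
    have := Real.log_pos one_lt_two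
    positivity, fun r s hr hr0 hs => ?_⟩
  have h1 : Real.exp (2 * Real.pi * (2 * r)) - 1 ≤ 1 := by
    have h2 : 2 * Real.pi * (2 * r) ≤ Real.log 2 := by
      rw [le_div_iff₀ (by have := Real.pi_pos; positivity)] at hr0
      linarith
    have h3 := Real.exp_le_exp.2 h2
    rw [Real.exp_log two_pos] at h3
    linarith
  obtain ⟨n, hn⟩ := exists_nat_ge (-s / r)
  have h3 := iter D hr h1 n (-s) (by linarith) (by rwa [div_le_iff₀ hr] at hn)
  rw [neg_neg] at h3
  exact h3

end Pool.Agent.H75.BC
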