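import Pool.Agent.H75.BC.T.Tr
import Pool.Agent.H75.BC.RB
import Pool.Agent.H75.L.W28.CB.C13
import Pool.Agent.H75.L.W371.CB.C2
import Pool.Agent.H75.L.W371.CB.C7

/-!
U2: near-eigen sequences separate points (`S_Sep`), from the column theorem `S_Col` and the truncation `S_Tr`.
-/

set_option autoImplicit false
set_option linter.unusedSectionVars false
set_option linter.unusedSimpArgs false
set_option linter.deprecated false

open Complex Filter Topology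
open scoped InnerProductSpace

namespace Pool.Agent.H75.BC.Sep

open Pool.Agent.W662.CB Pool.Agent.H75.BC Pool.Agent.H75.BC.Tr

noncomputable section

variable {H : Type} [NormedAddCommGroup H] [InnerProductSpace ℂ H] [CompleteSpace H]

/-- quantitative form of the hypothesis -/
theorem modulus (N : VonNeumannAlgebra H) (ξ η : H) (l : ℝ)
    (hyp : ∀ a : ℕ → H →L[ℂ] H, (∀ n, a n ∈ N) → (∃ C : ℝ, ∀ n, ‖a n‖ ≤ C) →
      Tendsto (fun n => fnorm N ξ l (a n)) atTop (𝓝 0) →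
      Tendsto (fun n => (a n) η) atTop (𝓝 0)) (ε0 : ℝ) (hε0 : 0 < ε0) :
    ∃ A : ℝ, 0 ≤ A ∧ ∀ a : H →L[ℂ] H, a ∈ N → ‖a‖ ≤ 2 →
      ‖a η‖ ^ 2 ≤ ε0 + A * fnorm N ξ l a ^ 2 := by
  by_contra hcon
  push Not at hcon
  choose a haN ha2 hab using fun n : ℕ => hcon ((n : ℝ) + 1) (by positivity)
  have h1 : ∀ n, fnorm N ξ l (a n) ^ 2 ≤ (4 * ‖η‖ ^ 2) * (1 / ((n : ℝ) + 1)) := by
    intro n
    have h2 : ‖(a n) η‖ ≤ 2 * ‖η‖ :=
      ((a n).le_opNorm η).trans (mul_le_mul_of_nonneg_right (ha2 n) (norm_nonneg _))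
    have h3 : ‖(a n) η‖ ^ 2 ≤ 4 * ‖η‖ ^ 2 := by
      have := pow_le_pow_left₀ (norm_nonneg _) h2 2
      nlinarith
    have h4 := hab n
    have hn : (0 : ℝ) < (n : ℝ) + 1 := by positivity
    rw [mul_one_div, le_div_iff₀ hn]
    nlinarith
  have h5 : Tendsto (fun n => fnorm N ξ l (a n) ^ 2) atTop (𝓝 0) := by
    have h6 : Tendsto (fun n : ℕ => (4 * ‖η‖ ^ 2) * (1 / ((n : ℝ) + 1))) atTop (𝓝 0) := by
      have := (tendsto_one_div_add_atTop_nhds_zero_nat (𝕜 := ℝ)).const_mul (4 * ‖η‖ ^ 2)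
      rwa [mul_zero] at this
    exact squeeze_zero (fun n => sq_nonneg _) h1 h6
  have h7 : Tendsto (fun n => fnorm N ξ l (a n)) atTop (𝓝 0) := by
    have h8 := (Real.continuous_sqrt.tendsto 0).comp h5
    rw [Real.sqrt_zero] at h8
    refine h8.congr fun n => ?_
    simp only [Function.comp]
    exact Real.sqrt_sq (fn_nonneg N ξ l (a n))
  have h9 := hyp a haN ⟨2, ha2⟩ h7
  have h10 : Tendsto (fun n => ‖(a n) η‖ ^ 2) atTop (𝓝 0) := by
    have := (h9.norm).pow 2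
    simpa using this
  have h11 : ∀ n, ε0 ≤ ‖(a n) η‖ ^ 2 := by
    intro n
    have h12 := hab n
    have : 0 ≤ ((n : ℝ) + 1) * fnorm N ξ l (a n) ^ 2 := by positivity
    linarith
  have h13 := ge_of_tendsto' h10 h11
  linarith

/-- `‖a φ - l φ a‖` is controlled by `‖ρ(a) ξ - l^{-1/2} a ξ‖` -/
theorem fn_le_eig {M N : VonNeumannAlgebra H} {ξ : H} {U : ℝ → H →L[ℂ] H} {J0 : H → H}
    {ρ : (H →L[ℂ] H) → (H →L[ℂ] H)} (R : RAct M ξ U J0 ρ)
    (hNM : ∀ x : H →L[ℂ] H, x ∈ N → x ∈ M) (hξ : ‖ξ‖ = 1) (c : ℝ) (hc : 0 < c)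
    (a : H →L[ℂ] H) (ha : a ∈ N) :
    fnorm N ξ (c ^ 2) a ≤ ((1 + c) * c) * ‖ρ a ξ - ((c⁻¹ : ℝ) : ℂ) • a ξ‖ := by
  have hcC : (c : ℂ) ≠ 0 := by exact_mod_cast hc.ne'
  have e1 : ‖a ξ - (c : ℂ) • ρ a ξ‖ = c * ‖ρ a ξ - ((c⁻¹ : ℝ) : ℂ) • a ξ‖ := by
    have : a ξ - (c : ℂ) • ρ a ξ = -((c : ℂ) • (ρ a ξ - ((c⁻¹ : ℝ) : ℂ) • a ξ)) := by
      rw [smul_sub, smul_smul, Complex.ofReal_inv, mul_inv_cancel₀ hcC, one_smul]
      abel
    rw [this, norm_neg, norm_smul, Complex.norm_real, Real.norm_of_nonneg hc.le]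
  refine fn_le N ξ (c ^ 2) a _ (by positivity) ?_
  intro x hx hx1
  have haM := hNM a ha
  have hxM := hNM x hx
  have e2 : ⟪star x ξ, ρ a ξ⟫_ℂ = ⟪ρ (star a) ξ, x ξ⟫_ℂ := by
    rw [ContinuousLinearMap.star_eq_adjoint, ContinuousLinearMap.adjoint_inner_left,
      ← RB.comm_apply R haM hxM, RB.ρ_star R, ContinuousLinearMap.star_eq_adjoint,
      ContinuousLinearMap.adjoint_inner_left]
  have e3 : vst ξ (x * a) = ⟪star x ξ, a ξ⟫_ℂ := by
    unfold vst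
    rw [ContinuousLinearMap.star_eq_adjoint, ContinuousLinearMap.adjoint_inner_left]
    rfl
  have e4 : vst ξ (a * x) = ⟪star a ξ, x ξ⟫_ℂ := by
    unfold vst
    rw [ContinuousLinearMap.star_eq_adjoint, ContinuousLinearMap.adjoint_inner_left]
    rfl
  have e5 : DL ξ (c ^ 2) a x = ⟪star x ξ, a ξ - (c : ℂ) • ρ a ξ⟫_ℂ +
      (c : ℂ) * ⟪ρ (star a) ξ - (c : ℂ) • star a ξ, x ξ⟫_ℂ := by
    unfold DL
    rw [e3, e4, inner_sub_right, inner_smul_right, e2, inner_sub_left, inner_smul_left,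
      Complex.conj_ofReal]
    push_cast
    ring
  have e6 : ‖ρ (star a) ξ - (c : ℂ) • star a ξ‖ = ‖a ξ - (c : ℂ) • ρ a ξ‖ := by
    have := RB.sym R (star a) c
    rw [star_star] at this
    exact this.symm
  have e7 : ‖star x ξ‖ ≤ 1 := by
    refine ((star x).le_opNorm ξ).trans ?_
    rw [hξ, mul_one, norm_star]
    exact hx1
  have e8 : ‖x ξ‖ ≤ 1 := by
    refine (x.le_opNorm ξ).trans ?_
    rw [hξ, mul_one]
    exact hx1
  have e9 : ‖⟪star x ξ, a ξ - (c : ℂ) • ρ a ξ⟫_ℂ‖ ≤ ‖a ξ - (c : ℂ) • ρ a ξ‖ := by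
    refine (norm_inner_le_norm _ _).trans ?_
    calc _ ≤ 1 * ‖a ξ - (c : ℂ) • ρ a ξ‖ := mul_le_mul_of_nonneg_right e7 (norm_nonneg _)
      _ = _ := one_mul _
  have e10 : ‖⟪ρ (star a) ξ - (c : ℂ) • star a ξ, x ξ⟫_ℂ‖ ≤ ‖a ξ - (c : ℂ) • ρ a ξ‖ := by
    refine (norm_inner_le_norm _ _).trans ?_
    rw [e6]
    calc _ ≤ ‖a ξ - (c : ℂ) • ρ a ξ‖ * 1 := mul_le_mul_of_nonneg_left e8 (norm_nonneg _)
      _ = _ := mul_one _
  rw [e5]
  calc _ ≤ ‖⟪star x ξ, a ξ - (c : ℂ) • ρ a ξ⟫_ℂ‖ +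
        ‖(c : ℂ) * ⟪ρ (star a) ξ - (c : ℂ) • star a ξ, x ξ⟫_ℂ‖ := norm_add_le _ _
    _ = ‖⟪star x ξ, a ξ - (c : ℂ) • ρ a ξ⟫_ℂ‖ +
        c * ‖⟪ρ (star a) ξ - (c : ℂ) • star a ξ, x ξ⟫_ℂ‖ := by
        rw [norm_mul, Complex.norm_real, Real.norm_of_nonneg hc.le]
    _ ≤ ‖a ξ - (c : ℂ) • ρ a ξ‖ + c * ‖a ξ - (c : ℂ) • ρ a ξ‖ :=
        add_le_add e9 (mul_le_mul_of_nonneg_left e10 hc.le)
    _ = _ := by rw [e1]; ring

theorem sum_norm_sq {n : ℕ} (C : Fin n → H →L[ℂ] H) (hC : ∑ i, star (C i) * C i = 1) (η : H) :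
    ∑ i, ‖C i η‖ ^ 2 = ‖η‖ ^ 2 := by
  have h1 : ∀ i, ((‖C i η‖ ^ 2 : ℝ) : ℂ) = ⟪η, (star (C i) * C i) η⟫_ℂ := by
    intro i
    rw [ContinuousLinearMap.mul_apply, ContinuousLinearMap.star_eq_adjoint,
      ContinuousLinearMap.adjoint_inner_right, inner_self_eq_norm_sq_to_K]
    push_cast
    rfl
  have h2 : ((∑ i, ‖C i η‖ ^ 2 : ℝ) : ℂ) = ((‖η‖ ^ 2 : ℝ) : ℂ) := by
    rw [Complex.ofReal_sum]
    simp_rw [h1]
    rw [← inner_sum, ← ContinuousLinearMap.sum_apply, hC]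
    rw [ContinuousLinearMap.one_apply, inner_self_eq_norm_sq_to_K]
    push_cast
    rfl
  exact_mod_cast h2

theorem sep (hTr : S_Tr) (hCol : S_Col) (hC1 : S_C1) (hC2 : S_C2) : S_Sep := by
  intro H K _ _ _ _ _ _ M N ξ U J0 ρ κ e S W J E A D R l y hl hy hyp
  have hsep := D.std.sep
  by_contra hy0
  have hη0 : y ξ ≠ 0 := fun h => hy0 (hsep y hy h)
  set η : H := y ξ with hη
  have hηpos : 0 < ‖η‖ := norm_pos_iff.2 hη0
  set c : ℝ := Real.sqrt l with hc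
  have hl0 : 0 < l := by linarith
  have hc0 : 0 < c := Real.sqrt_pos.2 hl0
  have hcl : c ^ 2 = l := Real.sq_sqrt hl0.le
  obtain ⟨C, hC0, hCtr⟩ := hTr H N ξ D.std.unit l hl0
  obtain ⟨A0, hA0, hmod⟩ := modulus N ξ η l (fun a h1 h2 h3 => hyp a h1 h2 h3)
    (‖η‖ ^ 2 / 8) (by positivity)
  set B : ℝ := A0 * C ^ 2 * ((1 + c) * c) ^ 2 with hB
  have hB0 : 0 ≤ B := by positivity
  set ε : ℝ := ‖η‖ / Real.sqrt (8 * (B + 1)) with hε
  have hsq : 0 < Real.sqrt (8 * (B + 1)) := Real.sqrt_pos.2 (by positivity)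
  have hε0 : 0 < ε := div_pos hηpos hsq
  have hε2 : B * ε ^ 2 ≤ ‖η‖ ^ 2 / 8 := by
    rw [hε, div_pow, Real.sq_sqrt (by positivity), mul_div_assoc', div_le_div_iff₀ (by positivity)
      (by norm_num)]
    have : 0 ≤ ‖η‖ ^ 2 := by positivity
    nlinarith
  set s : ℝ := -(Real.log l) / (2 * Real.pi) with hs
  have hs0 : s ≤ 0 := by
    rw [hs]
    apply div_nonpos_of_nonpos_of_nonneg
    · have := Real.log_nonneg hl; linarith
    · positivity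
  have hexp : Real.exp (Real.pi * s) = c⁻¹ := by
    have h1 : Real.pi * s = -(Real.log l / 2) := by
      rw [hs]
      field_simp
    rw [h1, Real.exp_neg, hc, Real.sqrt_eq_rpow, Real.rpow_def_of_pos hl0]
    congr 2
    ring
  obtain ⟨n, G, hGN, hG1, hG2, hG3⟩ :=
    hCol H K M N ξ U J0 ρ κ e S W J E A D R s ε hs0 hε0
  rw [hexp] at hG3
  have hG2' : ∀ v : H, ∑ i, ‖star (G i) v‖ ^ 2 ≤ 2 * ‖v‖ ^ 2 := hG2
  set a : (Fin n → Fin 4) → H →L[ℂ] H := fun e => ∑ m, (I ^ (e m : ℕ)) • G m with ha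
  have haN : ∀ e, a e ∈ N := by
    intro e
    have : ∀ m ∈ (Finset.univ : Finset (Fin n)), (I ^ (e m : ℕ)) • G m ∈ N :=
      fun m _ => Pool.Agent.W638.CB.smul_mem' N _ _ (hGN m)
    exact sum_mem this
  have hsum := sum_norm_sq G hG1 η
  -- average of `‖a η‖²`
  have k1 : av (fun e => ‖a e η‖ ^ 2) = ‖η‖ ^ 2 := by
    have := hC1 H (Fin n) (fun m => G m η)
    rw [hsum] at this
    rw [← this]
    congr 1
    funext e
    rw [ha]
    simp only [ContinuousLinearMap.sum_apply, ContinuousLinearMap.smul_apply]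
  -- average of the eigen-defect
  have k2 : av (fun e => ‖ρ (a e) ξ - ((c⁻¹ : ℝ) : ℂ) • a e ξ‖ ^ 2) ≤ ε ^ 2 := by
    have := hC1 H (Fin n) (fun m => ρ (G m) ξ - ((c⁻¹ : ℝ) : ℂ) • G m ξ)
    rw [← this] at hG3
    refine le_trans (le_of_eq ?_) hG3
    congr 1
    funext e
    have hρ : ∀ (t : Finset (Fin n)), ρ (∑ m ∈ t, (I ^ (e m : ℕ)) • G m) =
        ∑ m ∈ t, (I ^ (e m : ℕ)) • ρ (G m) := by
      intro t
      induction t using Finset.induction_on with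
      | empty => simp [RB.ρ_zero R]
      | insert i t hi ih =>
        rw [Finset.sum_insert hi, Finset.sum_insert hi, RB.ρ_add R, RB.ρ_smul R, ih]
    rw [ha]
    simp only
    rw [hρ]
    simp only [ContinuousLinearMap.sum_apply, ContinuousLinearMap.smul_apply, smul_sub,
      Finset.sum_sub_distrib, Finset.smul_sum]
    congr 3
    refine Finset.sum_congr rfl fun m _ => ?_
    rw [smul_comm]
  -- average of `‖a* a η‖²`
  have k3 : av (fun e => ‖(star (a e) * a e) η‖ ^ 2) ≤ 3 * ‖η‖ ^ 2 := by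
    have h1 := hC2 H (Fin n) (fun m k => star (G m) (G k η))
    have h2 : ∀ e : Fin n → Fin 4, (star (a e) * a e) η =
        ∑ m, ∑ k, ((starRingEnd ℂ (I ^ (e m : ℕ))) * I ^ (e k : ℕ)) • star (G m) (G k η) := by
      intro e
      rw [ContinuousLinearMap.mul_apply, ha]
      simp only [star_sum, star_smul, ContinuousLinearMap.sum_apply, ContinuousLinearMap.smul_apply]
      refine Finset.sum_congr rfl fun m _ => ?_
      rw [map_sum, Finset.smul_sum]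
      refine Finset.sum_congr rfl fun k _ => ?_
      rw [map_smul, smul_smul]
      rfl
    simp_rw [h2]
    rw [h1]
    have h3 : ‖∑ m, star (G m) (G m η)‖ ^ 2 = ‖η‖ ^ 2 := by
      have : ∑ m, star (G m) (G m η) = η := by
        have h4 : (∑ m, star (G m) * G m) η = η := by
          rw [hG1]; rfl
        rw [ContinuousLinearMap.sum_apply] at h4
        exact h4
      rw [this]
    have h5 : ∑ m, ∑ k, (if m = k then 0 else ‖star (G m) (G k η)‖ ^ 2) ≤ 2 * ‖η‖ ^ 2 := by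
      calc ∑ m, ∑ k, (if m = k then 0 else ‖star (G m) (G k η)‖ ^ 2)
          ≤ ∑ m, ∑ k, ‖star (G m) (G k η)‖ ^ 2 := by
            refine Finset.sum_le_sum fun m _ => Finset.sum_le_sum fun k _ => ?_
            split_ifs
            · positivity
            · exact le_rfl
        _ = ∑ k, ∑ m, ‖star (G m) (G k η)‖ ^ 2 := Finset.sum_comm
        _ ≤ ∑ k, 2 * ‖G k η‖ ^ 2 := Finset.sum_le_sum fun k _ => hG2' _
        _ = 2 * ‖η‖ ^ 2 := by rw [← Finset.mul_sum, hsum]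
    rw [h3]
    linarith
  -- truncation
  choose a' ha'N ha'2 ha'F ha'v using fun e => hCtr (a e) 2 (haN e) (by norm_num)
  have k4 : ∀ e, ‖a e η‖ ^ 2 ≤ (‖η‖ ^ 2 / 4) +
      ((2 * B) * ‖ρ (a e) ξ - ((c⁻¹ : ℝ) : ℂ) • a e ξ‖ ^ 2 +
        (1 / 8) * ‖(star (a e) * a e) η‖ ^ 2) := by
    intro e
    have h1 := hmod (a' e) (ha'N e) (ha'2 e)
    have h2 := ha'F e
    have h3 := fn_le_eig R D.std.le D.std.unit c hc0 (a e) (haN e)
    rw [hcl] at h3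
    have h4 := ha'v e η
    have h5 : ‖a e η‖ ≤ ‖a' e η‖ + ‖(a e - a' e) η‖ := by
      have : a e η = a' e η + (a e - a' e) η := by
        rw [ContinuousLinearMap.sub_apply]; abel
      calc ‖a e η‖ = ‖a' e η + (a e - a' e) η‖ := by rw [← this]
        _ ≤ _ := norm_add_le _ _
    set X : ℝ := ‖ρ (a e) ξ - ((c⁻¹ : ℝ) : ℂ) • a e ξ‖ with hX
    set Y : ℝ := ‖(star (a e) * a e) η‖ with hY
    set g1 := fnorm N ξ l (a e) with hg1
    set g2 := fnorm N ξ l (a' e) with hg2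
    have hX0 : 0 ≤ X := norm_nonneg _
    have hY0 : 0 ≤ Y := norm_nonneg _
    have hg20 : 0 ≤ g2 := fn_nonneg N ξ l (a' e)
    have hg10 : 0 ≤ g1 := fn_nonneg N ξ l (a e)
    have h6 : g2 ≤ C * (((1 + c) * c) * X) := h2.trans (mul_le_mul_of_nonneg_left h3 hC0)
    have h7 : g2 ^ 2 ≤ (C * (((1 + c) * c) * X)) ^ 2 := pow_le_pow_left₀ hg20 h6 2
    have h8 : A0 * g2 ^ 2 ≤ B * X ^ 2 := by
      calc A0 * g2 ^ 2 ≤ A0 * (C * (((1 + c) * c) * X)) ^ 2 := mul_le_mul_of_nonneg_left h7 hA0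
        _ = B * X ^ 2 := by rw [hB]; ring
    have h9 : ‖(a e - a' e) η‖ ^ 2 ≤ (Y / (2 * 2)) ^ 2 := pow_le_pow_left₀ (norm_nonneg _) h4 2
    have h9' : ‖(a e - a' e) η‖ ^ 2 ≤ Y ^ 2 / 16 := by
      refine h9.trans (le_of_eq ?_)
      ring
    have h10 : ‖a e η‖ ^ 2 ≤ 2 * ‖a' e η‖ ^ 2 + 2 * ‖(a e - a' e) η‖ ^ 2 := by
      have h11 := pow_le_pow_left₀ (norm_nonneg _) h5 2
      have h12 := sq_nonneg (‖a' e η‖ - ‖(a e - a' e) η‖)
      refine h11.trans ?_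
      linarith
    linarith
  have k5 := Pool.Agent.W371.CB.av_mono k4
  rw [Pool.Agent.W28.CB.av_add, Pool.Agent.W28.CB.av_add, Pool.Agent.W28.CB.av_const,
    Pool.Agent.W371.CB.av_mul, Pool.Agent.W371.CB.av_mul, k1] at k5
  have k6 : (2 * B) * av (fun e => ‖ρ (a e) ξ - ((c⁻¹ : ℝ) : ℂ) • a e ξ‖ ^ 2) ≤ ‖η‖ ^ 2 / 4 := by
    calc _ ≤ (2 * B) * ε ^ 2 := mul_le_mul_of_nonneg_left k2 (by positivity)
      _ ≤ _ := by linarith
  have k7 : 0 < ‖η‖ ^ 2 := by positivity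
  linarith

/-- `S_Sep` from the column theorem -/
theorem s_Sep (hCol : S_Col) : S_Sep :=
  sep tr hCol Pool.Agent.W28.CB.c1 Pool.Agent.W371.CB.c2

end

end Pool.Agent.H75.BC.Sep
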