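import Pool.Agent.H75.BC.Stmts2
import Pool.Agent.H75.L.W196.WD.CPT

/-!
Project BIC, task D1 (S_Avg): averaging over the modular flow (helper85).
-/

set_option autoImplicit false
set_option linter.unusedSectionVars false

open MeasureTheory Filter Topology Complex
open scoped InnerProductSpace ENNReal

namespace Pool.Agent.H75.BC.Avg

open Pool.Agent.W662.CB Pool.Agent.H75.BC
open Pool.Agent.W988.WD (WLim)

noncomputable section

variable {K : Type} [NormedAddCommGroup K] [InnerProductSpace ℂ K] [CompleteSpace K]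

section wlim

variable {ι : Type} {F : Filter ι} {z z' : ι → (K →L[ℂ] K)} {w w' : K →L[ℂ] K}

theorem wlim_mul_left (h : WLim F z w) (T : K →L[ℂ] K) : WLim F (fun i => T * z i) (T * w) := by
  intro u v
  have h1 := h u (ContinuousLinearMap.adjoint T v)
  simp only [ContinuousLinearMap.adjoint_inner_left] at h1
  exact h1

theorem wlim_mul_right (h : WLim F z w) (T : K →L[ℂ] K) : WLim F (fun i => z i * T) (w * T) :=
  fun u v => h (T u) v

theorem wlim_sub (h : WLim F z w) (h' : WLim F z' w') : WLim F (fun i => z i - z' i) (w - w') := by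
  intro u v
  have h1 := (h u v).sub (h' u v)
  simp only [← inner_sub_right, ← sub_apply] at h1
  exact h1

theorem wlim_unique [F.NeBot] (h : WLim F z w) (h' : WLim F z w') : w = w' := by
  refine ContinuousLinearMap.ext fun u => ?_
  refine ext_inner_left ℂ fun v => ?_
  exact tendsto_nhds_unique (h u v) (h' u v)

theorem wlim_comm [F.NeBot] (h : WLim F z w) (T : K →L[ℂ] K) (hT : ∀ i, z i * T = T * z i) :
    w * T = T * w := by
  refine wlim_unique (wlim_mul_right h T) ?_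
  have h1 := wlim_mul_left h T
  simp only [← hT] at h1
  exact h1

theorem wlim_of_norm (h : Tendsto (fun i => ‖z i‖) F (𝓝 0)) : WLim F z 0 := by
  intro u v
  rw [zero_apply, inner_zero_right, tendsto_zero_iff_norm_tendsto_zero]
  have h1 : Tendsto (fun i => ‖v‖ * (‖z i‖ * ‖u‖)) F (𝓝 (‖v‖ * (0 * ‖u‖))) :=
    (h.mul_const _).const_mul _
  rw [zero_mul, mul_zero] at h1
  refine squeeze_zero (fun i => norm_nonneg _) (fun i => ?_) h1
  exact (norm_inner_le_norm _ _).trans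
    (mul_le_mul_of_nonneg_left (ContinuousLinearMap.le_opNorm _ _) (norm_nonneg _))

end wlim

/-- the averages over finer and finer and longer and longer grids -/
def avg (V : ℝ → K →L[ℂ] K) (D : K →L[ℂ] K) (n : ℕ) : K →L[ℂ] K :=
  (((4 : ℝ) ^ n)⁻¹ : ℂ) • ∑ j ∈ Finset.range (4 ^ n), V ((j : ℝ) / 2 ^ n) * D * V (-((j : ℝ) / 2 ^ n))

theorem sum_shift {G : Type} [AddCommGroup G] (g : ℕ → G) (N k : ℕ) :
    ∑ j ∈ Finset.range N, g (k + j) - ∑ j ∈ Finset.range N, g j =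
      ∑ j ∈ Finset.range k, g (N + j) - ∑ j ∈ Finset.range k, g j := by
  have h1 := Finset.sum_range_add g k N
  have h2 := Finset.sum_range_add g N k
  rw [add_comm k N] at h1
  rw [sub_eq_sub_iff_add_eq_add, add_comm, ← h1, h2, add_comm]

section group

variable (V : ℝ → K →L[ℂ] K) (hV0 : V 0 = 1) (hVa : ∀ s t : ℝ, V (s + t) = V s * V t)
  (hVn : ∀ t : ℝ, ‖V t‖ ≤ 1) (hVc : ∀ f : K, Continuous fun t : ℝ => V t f)

include hVn in
theorem conj_norm (D : K →L[ℂ] K) (s t : ℝ) : ‖V s * D * V t‖ ≤ ‖D‖ := by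
  calc ‖V s * D * V t‖ ≤ ‖V s * D‖ * ‖V t‖ := norm_mul_le _ _
    _ ≤ (‖V s‖ * ‖D‖) * ‖V t‖ := mul_le_mul_of_nonneg_right (norm_mul_le _ _) (norm_nonneg _)
    _ ≤ (1 * ‖D‖) * 1 := mul_le_mul (mul_le_mul_of_nonneg_right (hVn s) (norm_nonneg _)) (hVn t)
        (norm_nonneg _) (by positivity)
    _ = ‖D‖ := by ring

include hVn in
theorem avg_norm (D : K →L[ℂ] K) (n : ℕ) : ‖avg V D n‖ ≤ ‖D‖ := by
  unfold avg
  rw [norm_smul]
  have h1 : ‖(((4 : ℝ) ^ n)⁻¹ : ℂ)‖ = ((4 : ℝ) ^ n)⁻¹ := by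
    rw [norm_inv, norm_pow, Complex.norm_real, Real.norm_of_nonneg (by norm_num)]
  rw [h1]
  have h2 : ‖∑ j ∈ Finset.range (4 ^ n), V ((j : ℝ) / 2 ^ n) * D * V (-((j : ℝ) / 2 ^ n))‖ ≤
      (4 : ℝ) ^ n * ‖D‖ := by
    refine (norm_sum_le _ _).trans ?_
    refine (Finset.sum_le_sum fun j _ => conj_norm V hVn D _ _).trans ?_
    rw [Finset.sum_const, Finset.card_range, nsmul_eq_mul]
    push_cast
    exact le_rfl
  calc ((4 : ℝ) ^ n)⁻¹ * ‖∑ j ∈ Finset.range (4 ^ n), V ((j : ℝ) / 2 ^ n) * D * V (-((j : ℝ) / 2 ^ n))‖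
      ≤ ((4 : ℝ) ^ n)⁻¹ * ((4 : ℝ) ^ n * ‖D‖) := mul_le_mul_of_nonneg_left h2 (by positivity)
    _ = ‖D‖ := by field_simp

include hVa hVn hV0 in
theorem avg_comm (D : K →L[ℂ] K) (m n : ℕ) (hmn : m ≤ n) :
    ‖V (1 / 2 ^ m) * avg V D n - avg V D n * V (1 / 2 ^ m)‖ ≤ 2 * ‖D‖ * (1 / 2 : ℝ) ^ n := by
  set s : ℝ := 1 / 2 ^ m with hs
  have hss : V (-s) * V s = 1 := by rw [← hVa, neg_add_cancel, hV0]
  set g : ℕ → K →L[ℂ] K := fun j => V ((j : ℝ) / 2 ^ n) * D * V (-((j : ℝ) / 2 ^ n)) with hg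
  set k : ℕ := 2 ^ (n - m) with hk
  have h1 : ∀ j : ℕ, V s * g j * V (-s) = g (k + j) := by
    intro j
    have h2 : ((k + j : ℕ) : ℝ) / 2 ^ n = s + (j : ℝ) / 2 ^ n := by
      push_cast
      rw [add_div, hk, hs]
      congr 1
      push_cast
      rw [div_eq_div_iff (by positivity) (by positivity), one_mul, ← pow_add, Nat.sub_add_cancel hmn]
    have h3 : -(((k + j : ℕ) : ℝ) / 2 ^ n) = -((j : ℝ) / 2 ^ n) + -s := by rw [h2]; ring
    show V s * (V ((j : ℝ) / 2 ^ n) * D * V (-((j : ℝ) / 2 ^ n))) * V (-s) =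
      V (((k + j : ℕ) : ℝ) / 2 ^ n) * D * V (-(((k + j : ℕ) : ℝ) / 2 ^ n))
    rw [h3, h2, hVa, hVa]
    simp only [mul_assoc]
  have h4 : V s * avg V D n - avg V D n * V s = ((((4 : ℝ) ^ n)⁻¹ : ℂ) •
      (∑ j ∈ Finset.range k, g (4 ^ n + j) - ∑ j ∈ Finset.range k, g j)) * V s := by
    rw [← sum_shift]
    have h5 : ∑ j ∈ Finset.range (4 ^ n), g (k + j) = V s * (∑ j ∈ Finset.range (4 ^ n), g j) * V (-s) := by
      rw [Finset.mul_sum, Finset.sum_mul]
      exact Finset.sum_congr rfl fun j _ => (h1 j).symm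
    rw [h5]
    show V s * ((((4 : ℝ) ^ n)⁻¹ : ℂ) • ∑ j ∈ Finset.range (4 ^ n), g j) -
      ((((4 : ℝ) ^ n)⁻¹ : ℂ) • ∑ j ∈ Finset.range (4 ^ n), g j) * V s = _
    rw [mul_smul_comm, smul_mul_assoc, smul_mul_assoc, ← smul_sub, sub_mul, mul_assoc _ (V (-s)), hss,
      mul_one]
  rw [h4]
  have h6 : ‖∑ j ∈ Finset.range k, g (4 ^ n + j) - ∑ j ∈ Finset.range k, g j‖ ≤ 2 * (2 : ℝ) ^ n * ‖D‖ := by
    have h7 : ∀ g' : ℕ → K →L[ℂ] K, (∀ j, ‖g' j‖ ≤ ‖D‖) → ‖∑ j ∈ Finset.range k, g' j‖ ≤ (2 : ℝ) ^ n * ‖D‖ := by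
      intro g' hg'
      refine (norm_sum_le _ _).trans ?_
      refine (Finset.sum_le_sum fun j _ => hg' j).trans ?_
      rw [Finset.sum_const, Finset.card_range, nsmul_eq_mul, hk]
      push_cast
      exact mul_le_mul_of_nonneg_right (pow_le_pow_right₀ (by norm_num) (Nat.sub_le _ _)) (norm_nonneg _)
    refine (norm_sub_le _ _).trans ?_
    have h8 := h7 (fun j => g (4 ^ n + j)) fun j => conj_norm V hVn D _ _
    have h9 := h7 g fun j => conj_norm V hVn D _ _
    linarith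
  refine (norm_mul_le _ _).trans ?_
  rw [norm_smul]
  have h1 : ‖(((4 : ℝ) ^ n)⁻¹ : ℂ)‖ = ((4 : ℝ) ^ n)⁻¹ := by
    rw [norm_inv, norm_pow, Complex.norm_real, Real.norm_of_nonneg (by norm_num)]
  rw [h1]
  calc ((4 : ℝ) ^ n)⁻¹ * ‖∑ j ∈ Finset.range k, g (4 ^ n + j) - ∑ j ∈ Finset.range k, g j‖ * ‖V s‖
      ≤ (((4 : ℝ) ^ n)⁻¹ * (2 * (2 : ℝ) ^ n * ‖D‖)) * 1 :=
        mul_le_mul (mul_le_mul_of_nonneg_left h6 (by positivity)) (hVn s) (norm_nonneg _) (by positivity)
    _ = 2 * ‖D‖ * (1 / 2 : ℝ) ^ n := by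
        have h10 : (4 : ℝ) ^ n = 2 ^ n * 2 ^ n := by rw [← mul_pow]; norm_num
        rw [h10, one_div, inv_pow]
        field_simp

include hV0 hVa hVn hVc in
/-- averaging over a one-parameter group -/
theorem average (D : K →L[ℂ] K) : ∃ D' : K →L[ℂ] K, (∀ t : ℝ, V t * D' = D' * V t) ∧
    WLim (Filter.hyperfilter ℕ : Filter ℕ) (avg V D) D' := by
  obtain ⟨D', -, h⟩ := Pool.Agent.W196.WD.exists_wlim (Filter.hyperfilter ℕ) (avg V D) ‖D‖
    (avg_norm V hVn D)
  refine ⟨D', ?_, h⟩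
  have hm : ∀ m : ℕ, V (1 / 2 ^ m) * D' = D' * V (1 / 2 ^ m) := by
    intro m
    have h1 := wlim_sub (wlim_mul_left h (V (1 / 2 ^ m))) (wlim_mul_right h (V (1 / 2 ^ m)))
    have h2 : Tendsto (fun n => ‖V (1 / 2 ^ m) * avg V D n - avg V D n * V (1 / 2 ^ m)‖) atTop (𝓝 0) := by
      have h3 : Tendsto (fun n : ℕ => 2 * ‖D‖ * (1 / 2 : ℝ) ^ n) atTop (𝓝 (2 * ‖D‖ * 0)) :=
        (tendsto_pow_atTop_nhds_zero_of_lt_one (by norm_num) (by norm_num)).const_mul _
      rw [mul_zero] at h3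
      refine squeeze_zero' (Eventually.of_forall fun n => norm_nonneg _) ?_ h3
      filter_upwards [eventually_ge_atTop m] with n hn
      exact avg_comm V hV0 hVa hVn D m n hn
    have h4 := wlim_unique h1 (wlim_of_norm (h2.mono_left Nat.hyperfilter_le_atTop))
    exact sub_eq_zero.1 h4
  let G : AddSubgroup ℝ :=
    { carrier := {t | V t * D' = D' * V t}
      zero_mem' := by
        show V 0 * D' = D' * V 0
        rw [hV0, one_mul, mul_one]
      add_mem' := by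
        intro s t hs ht
        show V (s + t) * D' = D' * V (s + t)
        have hs' : V s * D' = D' * V s := hs
        have ht' : V t * D' = D' * V t := ht
        rw [hVa, mul_assoc, ht', ← mul_assoc, hs', mul_assoc]
      neg_mem' := by
        intro t ht
        show V (-t) * D' = D' * V (-t)
        have ht' : V t * D' = D' * V t := ht
        have h1 : V (-t) * V t = 1 := by rw [← hVa, neg_add_cancel, hV0]
        have h2 : V t * V (-t) = 1 := by rw [← hVa, add_neg_cancel, hV0]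
        calc V (-t) * D' = V (-t) * (D' * V t) * V (-t) := by
              rw [mul_assoc, mul_assoc, h2, mul_one]
          _ = (V (-t) * V t) * D' * V (-t) := by rw [← ht']; simp only [mul_assoc]
          _ = _ := by rw [h1, one_mul] }
  have hd : Dense (G : Set ℝ) := by
    refine AddSubgroup.dense_of_not_isolated_zero G fun ε hε => ?_
    obtain ⟨n, hn⟩ := exists_pow_lt_of_lt_one hε (by norm_num : (1 / 2 : ℝ) < 1)
    refine ⟨1 / 2 ^ n, hm n, by positivity, ?_⟩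
    rw [← one_div_pow]
    exact hn
  have hc : IsClosed (G : Set ℝ) := by
    have h1 : (G : Set ℝ) = ⋂ f : K, {t : ℝ | V t (D' f) = D' (V t f)} := by
      ext t
      rw [Set.mem_iInter]
      constructor
      · intro ht f
        have ht' : V t * D' = D' * V t := ht
        exact congrArg (fun T : K →L[ℂ] K => T f) ht'
      · intro ht
        show V t * D' = D' * V t
        exact ContinuousLinearMap.ext fun f => ht f
    rw [h1]
    exact isClosed_iInter fun f => isClosed_eq (hVc _) (D'.continuous.comp (hVc f))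
  intro t
  have h1 : t ∈ (G : Set ℝ) := by
    rw [← hc.closure_eq]
    exact hd t
  exact h1

end group

section frame

variable {H : Type} [NormedAddCommGroup H] [InnerProductSpace ℂ H] [CompleteSpace H]
  {M N : VonNeumannAlgebra H} {ξ : H} {U : ℝ → H →L[ℂ] H}
  {κ : (H →L[ℂ] H) →⋆ₐ[ℂ] (K →L[ℂ] K)} {e S : ℝ → K →L[ℂ] K}
  {W : K →L[ℂ] K} {J : ℝ → H →L[ℂ] K} {E : ℝ → ℂ → K →L[ℂ] K} {A : VonNeumannAlgebra K}

/-- `V_t = W e_t W*` -/
theorem V_eq (F : Frame U κ e S W J E) (hm : IsModular M ξ U) (t : ℝ) :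
    e t * κ (U t) = W * e t * star W := by
  rw [← FB.V_W F ⟨hm.zero, hm.add⟩, mul_assoc, F.W_un2, mul_one]

theorem V_zero (F : Frame U κ e S W J E) (hm : IsModular M ξ U) : e 0 * κ (U 0) = 1 := by
  rw [F.e_zero, hm.zero, map_one, one_mul]

theorem V_add (F : Frame U κ e S W J E) (hm : IsModular M ξ U) (s t : ℝ) :
    e (s + t) * κ (U (s + t)) = (e s * κ (U s)) * (e t * κ (U t)) := by
  calc e (s + t) * κ (U (s + t)) = e s * (e t * κ (U s)) * κ (U t) := by
        rw [F.e_add, hm.add, map_mul]; simp only [mul_assoc]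
    _ = _ := by rw [← F.κ_e]; simp only [mul_assoc]

theorem V_star (F : Frame U κ e S W J E) (hm : IsModular M ξ U) (t : ℝ) :
    star (e t * κ (U t)) = e (-t) * κ (U (-t)) := by
  rw [star_mul, ← map_star, hm.star_eq, F.e_star, F.κ_e]

theorem V_norm (F : Frame U κ e S W J E) (hm : IsModular M ξ U) (t : ℝ) : ‖e t * κ (U t)‖ ≤ 1 := by
  refine ContinuousLinearMap.opNorm_le_bound _ zero_le_one fun v => ?_
  rw [V_eq F hm, one_mul]
  have h1 : (W * e t * star W) v = W (e t (star W v)) := rfl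
  rw [h1, FB.W_norm F, FB.e_norm F, FB.Ws_norm F]

theorem V_cont (F : Frame U κ e S W J E) (hm : IsModular M ξ U) (f : K) :
    Continuous fun t : ℝ => (e t * κ (U t)) f := by
  have h1 : (fun t : ℝ => (e t * κ (U t)) f) = fun t => W (e t (star W f)) := by
    funext t
    rw [V_eq F hm]
    rfl
  rw [h1]
  exact W.continuous.comp (F.e_cont _)

/-- `V_t S_p J_r ξ = e_t S_p J_r ξ` -/
theorem V_vec (F : Frame U κ e S W J E) (hm : IsModular M ξ U) (t p : ℝ) {r : ℝ} (hr : 0 < r) :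
    (e t * κ (U t)) (S p (J r ξ)) = e t (S p (J r ξ)) := by
  have h1 : κ (U t) (S p (J r ξ)) = S p (J r ξ) := by
    have h2 := FB.ap (F.κ_S (U t) p) (J r ξ)
    have h3 : κ (U t) (S p (J r ξ)) = S p (κ (U t) (J r ξ)) := h2
    rw [h3, F.κ_J _ _ _ hr, hm.fix]
  show e t (κ (U t) (S p (J r ξ))) = _
  rw [h1]

theorem avg_s : S_Avg := by
  intro H K _ _ _ _ _ _ M N ξ U κ e S W J E A D X hX
  have F := D.fr
  have hm := D.std.modular
  obtain ⟨D', hD', hlim⟩ := average (fun t => e t * κ (U t)) (V_zero F hm) (V_add F hm)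
    (V_norm F hm) (V_cont F hm) X
  have hmem : ∀ n : ℕ, avg (fun t => e t * κ (U t)) X n ∈ RR M κ A := by
    intro n
    unfold avg
    refine FB.RR_smul _ ?_
    refine Finset.sum_induction _ (fun Y => Y ∈ RR M κ A) (fun a b ha hb => FB.RR_add ha hb) ?_ ?_
    · refine ⟨fun y _ => by rw [zero_mul, mul_zero], fun Z _ => by rw [zero_mul, mul_zero]⟩
    · intro j _
      exact FB.RR_V D _ hX
  refine ⟨D', ⟨fun y hy => ?_, fun Z hZ => ?_⟩, hD', fun p r hr => ?_⟩
  · exact wlim_comm hlim (κ y) fun n => (hmem n).1 y hy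
  · exact wlim_comm hlim Z fun n => (hmem n).2 Z hZ
  · have h1 := hlim (S p (J r ξ)) (S p (J r ξ))
    refine tendsto_nhds_unique h1 ?_
    have h2 : ∀ t : ℝ, ⟪S p (J r ξ), ((e t * κ (U t)) * X * (e (-t) * κ (U (-t)))) (S p (J r ξ))⟫_ℂ =
        ⟪S p (J r ξ), X (S p (J r ξ))⟫_ℂ := by
      intro t
      have h3 : ((e t * κ (U t)) * X * (e (-t) * κ (U (-t)))) (S p (J r ξ)) =
          (e t * κ (U t)) (X (e (-t) (S p (J r ξ)))) := by
        show (e t * κ (U t)) (X ((e (-t) * κ (U (-t))) (S p (J r ξ)))) = _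
        rw [V_vec F hm (-t) p hr]
      have h4 : X (e (-t) (S p (J r ξ))) = e (-t) (X (S p (J r ξ))) :=
        FB.ap (hX.2 _ (D.gen_e (-t))) _
      rw [h3, h4, ← ContinuousLinearMap.adjoint_inner_left, ← ContinuousLinearMap.star_eq_adjoint,
        V_star F hm, V_vec F hm (-t) p hr, ← ContinuousLinearMap.adjoint_inner_right,
        ← ContinuousLinearMap.star_eq_adjoint, F.e_star, neg_neg]
      have h5 := FB.ap (FB.e_mul_neg F t) (X (S p (J r ξ)))
      have h6 : e t (e (-t) (X (S p (J r ξ)))) = X (S p (J r ξ)) := h5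
      rw [h6]
    have h7 : (fun n => ⟪S p (J r ξ), avg (fun t => e t * κ (U t)) X n (S p (J r ξ))⟫_ℂ) =
        fun _ => ⟪S p (J r ξ), X (S p (J r ξ))⟫_ℂ := by
      funext n
      unfold avg
      rw [smul_apply, inner_smul_right, sum_apply, inner_sum]
      rw [Finset.sum_congr rfl fun j _ => h2 _, Finset.sum_const, Finset.card_range, nsmul_eq_mul,
        ← mul_assoc]
      have h8 : (((4 : ℝ) ^ n)⁻¹ : ℂ) * ((4 ^ n : ℕ) : ℂ) = 1 := by
        push_cast
        exact inv_mul_cancel₀ (pow_ne_zero _ (by norm_num))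
      rw [h8, one_mul]
    rw [h7]
    exact tendsto_const_nhds

end frame

end

end Pool.Agent.H75.BC.Avg
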