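import Mathlib
import Pool.Agent.H75.L.W196.WD.CPT

/-!
B2-1: a Baire category selection.  If every eigenvalue `s` of the inner action of `G` is realised by
a unitary of `N`, then for some interval of `s` the eigen-contractions can be chosen so as not to
move `v` away from a fixed vector.
-/

set_option autoImplicit false
open scoped InnerProductSpace Topology
open Filter Set

namespace Pool.Agent.H75.BC.Baire

variable {H : Type} [NormedAddCommGroup H] [InnerProductSpace ℂ H] [CompleteSpace H]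

/-- contractions of `N` with the eigen-relation of weight `s`. -/
def EigC (N : VonNeumannAlgebra H) (G : ℝ → H →L[ℂ] H) (s : ℝ) (x : H →L[ℂ] H) : Prop :=
  x ∈ N ∧ ‖x‖ ≤ 1 ∧
    ∀ t : ℝ, G t * x = Complex.exp (2 * (Real.pi : ℂ) * Complex.I * (s : ℂ) * (t : ℂ)) • (x * G t)

theorem isClosed_S (N : VonNeumannAlgebra H) (G : ℝ → H →L[ℂ] H) (v η : H) (r : ℝ) :
    IsClosed {s : ℝ | ∃ x, EigC N G s x ∧ ‖x v - η‖ ≤ r} := by
  rw [isClosed_iff_ultrafilter]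
  intro s U hU hS
  classical
  have hex : ∀ s' : ℝ, ∃ x : H →L[ℂ] H, (s' ∈ {s : ℝ | ∃ x, EigC N G s x ∧ ‖x v - η‖ ≤ r} →
      EigC N G s' x ∧ ‖x v - η‖ ≤ r) ∧ x ∈ N ∧ ‖x‖ ≤ 1 := by
    intro s'
    by_cases h : s' ∈ {s : ℝ | ∃ x, EigC N G s x ∧ ‖x v - η‖ ≤ r}
    · obtain ⟨x, hx, hx'⟩ := h
      exact ⟨x, fun _ => ⟨hx, hx'⟩, hx.1, hx.2.1⟩
    · exact ⟨0, fun h' => absurd h' h, by
        exact zero_mem N.toStarSubalgebra, by simp⟩
  choose z hz hzN hz1 using hex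
  obtain ⟨x, hx1, hx⟩ := Pool.Agent.W196.WD.exists_wlim U z 1 hz1
  have hxN := Pool.Agent.W196.WD.wlim_mem U z x hx N hzN
  refine ⟨x, ⟨hxN, hx1, ?_⟩, ?_⟩
  · intro t
    ext ξ
    refine ext_inner_left ℂ fun ζ => ?_
    have h1 : Tendsto (fun i => ⟪(ContinuousLinearMap.adjoint (G t)) ζ, z i ξ⟫_ℂ) (U : Filter ℝ)
      (𝓝 ⟪(ContinuousLinearMap.adjoint (G t)) ζ, x ξ⟫_ℂ) := hx ξ _
    have h2 : Tendsto (fun i => ⟪ζ, z i (G t ξ)⟫_ℂ) (U : Filter ℝ) (𝓝 ⟪ζ, x (G t ξ)⟫_ℂ) :=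
      hx (G t ξ) ζ
    have h3 : Tendsto (fun i : ℝ => Complex.exp (2 * (Real.pi : ℂ) * Complex.I * (i : ℂ) * (t : ℂ)))
        (U : Filter ℝ)
        (𝓝 (Complex.exp (2 * (Real.pi : ℂ) * Complex.I * (s : ℂ) * (t : ℂ)))) := by
      have hc : Continuous (fun i : ℝ =>
          Complex.exp (2 * (Real.pi : ℂ) * Complex.I * (i : ℂ) * (t : ℂ))) := by fun_prop
      exact (hc.tendsto s).mono_left hU
    have h4 := h3.mul h2
    have h5 : (fun i => ⟪(ContinuousLinearMap.adjoint (G t)) ζ, z i ξ⟫_ℂ) =ᶠ[(U : Filter ℝ)]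
        fun i : ℝ => Complex.exp (2 * (Real.pi : ℂ) * Complex.I * (i : ℂ) * (t : ℂ)) *
          ⟪ζ, z i (G t ξ)⟫_ℂ := by
      filter_upwards [hS] with i hi
      rw [ContinuousLinearMap.adjoint_inner_left]
      have h6 := DFunLike.congr_fun ((hz i hi).1.2.2 t) ξ
      have h7 : G t (z i ξ) =
          Complex.exp (2 * (Real.pi : ℂ) * Complex.I * (i : ℂ) * (t : ℂ)) • (z i (G t ξ)) := h6
      rw [h7, inner_smul_right]
    have h8 := tendsto_nhds_unique (h1.congr' h5) h4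
    rw [ContinuousLinearMap.adjoint_inner_left] at h8
    change ⟪ζ, G t (x ξ)⟫_ℂ = ⟪ζ, Complex.exp (2 * (Real.pi : ℂ) * Complex.I * (s : ℂ) * (t : ℂ)) •
      (x (G t ξ))⟫_ℂ
    rw [inner_smul_right]
    exact h8
  · by_cases h0 : ‖x v - η‖ = 0
    · obtain ⟨i, hi⟩ := U.nonempty_of_mem hS
      rw [h0]
      exact (norm_nonneg _).trans (hz i ⟨_, (hz i hi).1, (hz i hi).2⟩).2
    · have hpos : 0 < ‖x v - η‖ := lt_of_le_of_ne (norm_nonneg _) (Ne.symm h0)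
      have h1 : Tendsto (fun i => (⟪x v - η, z i v - η⟫_ℂ).re) (U : Filter ℝ)
          (𝓝 (⟪x v - η, x v - η⟫_ℂ).re) := by
        have h2 : Tendsto (fun i => ⟪x v - η, z i v⟫_ℂ - ⟪x v - η, η⟫_ℂ) (U : Filter ℝ)
          (𝓝 (⟪x v - η, x v⟫_ℂ - ⟪x v - η, η⟫_ℂ)) := (hx v (x v - η)).sub tendsto_const_nhds
        have h3 := (Complex.continuous_re.tendsto _).comp h2
        refine (h3.congr fun i => ?_).trans_eq ?_
        · simp only [Function.comp]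
          rw [inner_sub_right (x v - η) (z i v) η]
        · rw [inner_sub_right (x v - η) (x v) η]
      have h2 : (⟪x v - η, x v - η⟫_ℂ).re ≤ ‖x v - η‖ * r := by
        refine le_of_tendsto h1 ?_
        filter_upwards [hS] with i hi
        calc (⟪x v - η, z i v - η⟫_ℂ).re ≤ ‖⟪x v - η, z i v - η⟫_ℂ‖ := Complex.re_le_norm _
          _ ≤ ‖x v - η‖ * ‖z i v - η‖ := norm_inner_le_norm _ _
          _ ≤ ‖x v - η‖ * r := mul_le_mul_of_nonneg_left (hz i hi).2 hpos.le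
      have h3 : (⟪x v - η, x v - η⟫_ℂ).re = ‖x v - η‖ * ‖x v - η‖ := by
        rw [← inner_self_eq_norm_mul_norm (𝕜 := ℂ)]; rfl
      rw [h3] at h2
      exact le_of_mul_le_mul_left h2 hpos

theorem baire_sec [TopologicalSpace.SeparableSpace H] (N : VonNeumannAlgebra H)
    (G : ℝ → H →L[ℂ] H)
    (hu : ∀ s : ℝ, ∃ u : H →L[ℂ] H, u ∈ N ∧ star u * u = 1 ∧ u * star u = 1 ∧
      ∀ t : ℝ, G t * u =
        Complex.exp (2 * (Real.pi : ℂ) * Complex.I * (s : ℂ) * (t : ℂ)) • (u * G t))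
    (v : H) (hv : ‖v‖ = 1) :
    ∃ (α β : ℝ) (η : H), α < β ∧ ∀ s ∈ Icc α β, ∃ x : H →L[ℂ] H, x ∈ N ∧ ‖x‖ ≤ 1 ∧
      (∀ t : ℝ, G t * x =
        Complex.exp (2 * (Real.pi : ℂ) * Complex.I * (s : ℂ) * (t : ℂ)) • (x * G t)) ∧
      1 / 4 ≤ (⟪η, x v⟫_ℂ).re := by
  have : Nonempty H := ⟨v⟩
  let d := TopologicalSpace.denseSeq H
  have hd : DenseRange d := TopologicalSpace.denseRange_denseSeq H
  let S : ℕ → Set ℝ := fun j => {s : ℝ | ∃ x, EigC N G s x ∧ ‖x v - d j‖ ≤ 1 / 4}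
  let T : ℕ → Set ℝ := fun j => if 3 / 4 ≤ ‖d j‖ then S j else ∅
  have hT : ∀ j, IsClosed (T j) := by
    intro j
    by_cases h : 3 / 4 ≤ ‖d j‖
    · simp only [T, if_pos h]
      exact isClosed_S N G v (d j) (1 / 4)
    · simp only [T, if_neg h]
      exact isClosed_empty
  have hcov : ⋃ j, T j = univ := by
    rw [eq_univ_iff_forall]
    intro s
    obtain ⟨u, huN, huu, -, hrel⟩ := hu s
    have hnorm : ∀ w : H, ‖u w‖ = ‖w‖ := by
      intro w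
      have h1 : ‖u w‖ * ‖u w‖ = ‖w‖ * ‖w‖ := by
        rw [← inner_self_eq_norm_mul_norm (𝕜 := ℂ), ← inner_self_eq_norm_mul_norm (𝕜 := ℂ)]
        have h2 : ⟪u w, u w⟫_ℂ = ⟪w, w⟫_ℂ := by
          rw [← ContinuousLinearMap.adjoint_inner_right u w (u w)]
          have h3 : (ContinuousLinearMap.adjoint u) (u w) = w := DFunLike.congr_fun huu w
          rw [h3]
        rw [h2]
      nlinarith [norm_nonneg (u w), norm_nonneg w, mul_self_inj_of_nonneg (norm_nonneg (u w))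
        (norm_nonneg w)]
    obtain ⟨j, hj⟩ := hd.exists_dist_lt (u v) (by norm_num : (0 : ℝ) < 1 / 4)
    rw [dist_eq_norm] at hj
    have hdj : 3 / 4 ≤ ‖d j‖ := by
      have h1 : ‖u v‖ ≤ ‖u v - d j‖ + ‖d j‖ := by
        calc ‖u v‖ = ‖(u v - d j) + d j‖ := by rw [sub_add_cancel]
          _ ≤ _ := norm_add_le _ _
      rw [hnorm, hv] at h1
      linarith
    refine mem_iUnion.mpr ⟨j, ?_⟩
    simp only [T, if_pos hdj]
    refine ⟨u, ⟨huN, ?_, hrel⟩, hj.le⟩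
    refine u.opNorm_le_bound zero_le_one fun w => ?_
    rw [hnorm, one_mul]
  obtain ⟨j, s₀, hs₀⟩ := nonempty_interior_of_iUnion_of_closed hT hcov
  rw [mem_interior_iff_mem_nhds, Metric.mem_nhds_iff] at hs₀
  obtain ⟨ε, hε, hball⟩ := hs₀
  have hj : 3 / 4 ≤ ‖d j‖ := by
    by_contra h
    have h1 : s₀ ∈ T j := hball (Metric.mem_ball_self hε)
    simp only [T, if_neg h] at h1
    exact h1
  refine ⟨s₀ - ε / 2, s₀ + ε / 2, d j, by linarith, fun s hs => ?_⟩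
  have h1 : s ∈ T j := by
    apply hball
    rw [Metric.mem_ball, Real.dist_eq, abs_lt]
    constructor <;> [linarith [hs.1]; linarith [hs.2]]
  simp only [T, if_pos hj] at h1
  obtain ⟨x, ⟨hxN, hx1, hxr⟩, hxv⟩ := h1
  refine ⟨x, hxN, hx1, hxr, ?_⟩
  have h2 : ‖d j‖ ≤ ‖x v - d j‖ + ‖x v‖ := by
    calc ‖d j‖ = ‖x v - (x v - d j)‖ := by rw [sub_sub_cancel]
      _ ≤ ‖x v‖ + ‖x v - d j‖ := norm_sub_le _ _
      _ = _ := add_comm _ _
  have h3 := norm_sub_sq (𝕜 := ℂ) (x v) (d j)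
  have h4 : RCLike.re ⟪x v, d j⟫_ℂ = (⟪d j, x v⟫_ℂ).re := inner_re_symm (𝕜 := ℂ) (x v) (d j)
  rw [h4] at h3
  have h5 : 1 / 2 ≤ ‖x v‖ := by linarith
  nlinarith [norm_nonneg (x v - d j), norm_nonneg (x v), norm_nonneg (d j)]

end Pool.Agent.H75.BC.Baire
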