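import Pool.Agent.H75.BC.FB

/-!
The box `[0, r]` of a frame satisfies `BoxP` (helper83).
-/

set_option autoImplicit false

open MeasureTheory Filter Topology Complex
open scoped InnerProductSpace ENNReal

namespace Pool.Agent.H75.BC.FB

open Pool.Agent.W662.CB Pool.Agent.H75.BC

noncomputable section

variable {H : Type} [NormedAddCommGroup H] [InnerProductSpace ℂ H] [CompleteSpace H]
  {K : Type} [NormedAddCommGroup K] [InnerProductSpace ℂ K] [CompleteSpace K]
  {M N : VonNeumannAlgebra H} {ξ : H} {U : ℝ → H →L[ℂ] H} {J0 : H → H}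
  {ρ : (H →L[ℂ] H) → (H →L[ℂ] H)} {κ : (H →L[ℂ] H) →⋆ₐ[ℂ] (K →L[ℂ] K)} {e S : ℝ → K →L[ℂ] K}
  {W : K →L[ℂ] K} {J : ℝ → H →L[ℂ] K} {E : ℝ → ℂ → K →L[ℂ] K} {A : VonNeumannAlgebra K}

section fr

variable (F : Frame U κ e S W J E)
include F

/-- `J_r* E_r(-t) = J_r* e_{-t}` -/
theorem adj_E {r : ℝ} (hr : 0 < r) (t : ℝ) (u : K) :
    ContinuousLinearMap.adjoint (J r) (E r ((-t : ℝ) : ℂ) u) =
      ContinuousLinearMap.adjoint (J r) (e (-t) u) := by
  refine ext_inner_left ℂ fun v => ?_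
  rw [ContinuousLinearMap.adjoint_inner_right, ContinuousLinearMap.adjoint_inner_right]
  have h1 : star (E r ((t : ℝ) : ℂ)) = E r ((-t : ℝ) : ℂ) := by
    rw [F.E_star r _ hr, Complex.conj_ofReal, Complex.ofReal_neg]
  rw [← h1, ← F.e_star, ContinuousLinearMap.star_eq_adjoint, ContinuousLinearMap.star_eq_adjoint,
    ContinuousLinearMap.adjoint_inner_right, ContinuousLinearMap.adjoint_inner_right,
    F.e_J r t v hr]

/-- orthogonality of the characters on the box -/
theorem orth_J {r : ℝ} (hr : 0 < r) (m : ℤ) (v : H) (hm : m ≠ 0) :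
    ContinuousLinearMap.adjoint (J r) (e (-((m : ℝ) / r)) (J r v)) = 0 := by
  have h1 := F.fourier r hr (J r v)
  have h2 := h1.mapL (innerSL ℂ (J r v))
  have e1 : ∀ m : ℤ, innerSL ℂ (J r v) (e ((m : ℝ) / r)
      (J r (ContinuousLinearMap.adjoint (J r) (e (-((m : ℝ) / r)) (J r v))))) =
      ((‖ContinuousLinearMap.adjoint (J r) (e (-((m : ℝ) / r)) (J r v))‖ ^ 2 : ℝ) : ℂ) := by
    intro m
    rw [innerSL_apply_apply]
    have h3 : e ((m : ℝ) / r) = star (e (-((m : ℝ) / r))) := by rw [F.e_star, neg_neg]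
    rw [h3, ContinuousLinearMap.star_eq_adjoint, ContinuousLinearMap.adjoint_inner_right,
      ← ContinuousLinearMap.adjoint_inner_left, inner_self_eq_norm_sq_to_K]
    push_cast
    rfl
  have e2 : innerSL ℂ (J r v) (E r 0 (J r v)) = ((‖v‖ ^ 2 : ℝ) : ℂ) := by
    rw [innerSL_apply_apply, F.E_J r v hr, inner_self_eq_norm_sq_to_K, J_norm F hr]
    push_cast
    rfl
  simp only [e1, e2] at h2
  have h4 : HasSum (fun m : ℤ =>
      ‖ContinuousLinearMap.adjoint (J r) (e (-((m : ℝ) / r)) (J r v))‖ ^ 2) (‖v‖ ^ 2) := by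
    exact_mod_cast h2
  have h5 : ‖ContinuousLinearMap.adjoint (J r) (e (-(((0 : ℤ) : ℝ) / r)) (J r v))‖ ^ 2 =
      ‖v‖ ^ 2 := by
    have : -(((0 : ℤ) : ℝ) / r) = 0 := by simp
    rw [this, F.e_zero, one_apply_eq_self, F.J_iso r v hr]
  have h6 := sum_le_hasSum ({0, m} : Finset ℤ) (fun _ _ => sq_nonneg _) h4
  rw [Finset.sum_pair (Ne.symm hm), h5] at h6
  have h7 : ‖ContinuousLinearMap.adjoint (J r) (e (-((m : ℝ) / r)) (J r v))‖ ^ 2 ≤ 0 := by
    linarith
  have h8 := pow_eq_zero_iff two_ne_zero |>.1 (le_antisymm h7 (sq_nonneg _))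
  exact norm_eq_zero.1 h8

/-- `BoxP` for the box `[0, r]` -/
theorem boxP (hm : IsModular M ξ U) {r : ℝ} (hr : 0 < r)
    (hr1 : Real.exp (2 * Real.pi * r) - 1 ≤ 1) :
    BoxP U κ (fun t => e t * κ (U t)) (J r) (E r) (1 / r) (Real.exp (2 * Real.pi * r) - 1) where
  V_zero := by simp only [F.e_zero, hm.zero, map_one, mul_one]
  V_add s t := by
    rw [F.e_add, hm.add, map_mul]
    calc e s * e t * (κ (U s) * κ (U t)) = e s * (e t * κ (U s)) * κ (U t) := by
          simp only [mul_assoc]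
      _ = _ := by rw [← F.κ_e]; simp only [mul_assoc]
  V_star t := by
    rw [star_mul, F.e_star, ← map_star, hm.star_eq, F.κ_e]
  E_add z w := F.E_add r z w hr
  E_star z := F.E_star r z hr
  E_diff := F.E_diff r hr
  V_E t z := by
    rw [mul_assoc, F.κ_E _ _ _ hr, ← mul_assoc, e_E F hr, mul_assoc]
  κ_E y z := F.κ_E y r z hr
  J_iso v := F.J_iso r v hr
  E_J v := F.E_J r v hr
  κ_J y v := F.κ_J y r v hr
  V_J t v := by
    change e t (κ (U t) (J r v)) = _
    rw [F.κ_J _ _ _ hr, F.e_J _ _ _ hr]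
  orth m v hm0 := by
    have h1 := orth_J F hr (-m) v (neg_ne_zero.2 hm0)
    have h2 : -(((-m : ℤ) : ℝ) / r) = (m : ℝ) * (1 / r) := by push_cast; ring
    rw [h2, F.e_J _ _ _ hr] at h1
    exact h1
  compl u := by
    have h1 := F.fourier r hr u
    have h2 : (fun m : ℤ => E r (((m : ℝ) * (1 / r) : ℝ) : ℂ)
        (J r (ContinuousLinearMap.adjoint (J r) (E r ((-((m : ℝ) * (1 / r)) : ℝ) : ℂ) u)))) =
        fun m : ℤ => e ((m : ℝ) / r)
          (J r (ContinuousLinearMap.adjoint (J r) (e (-((m : ℝ) / r)) u))) := by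
      funext m
      rw [adj_E F hr, mul_one_div, F.e_J _ _ _ hr]
    rw [h2]
    exact h1
  nE1 := by
    have := F.E_norm r (-I) hr
    rwa [norm_neg, Complex.norm_I, mul_one] at this
  nE2 := by
    have := F.E_norm r I hr
    rwa [Complex.norm_I, mul_one] at this
  nE3 := by
    refine (F.E_norm r (-I / 2) hr).trans ?_
    have h1 : ‖(-I / 2 : ℂ)‖ = 1 / 2 := by simp
    rw [h1]
    have h2 : 2 * Real.pi * (1 / 2) * r ≤ 2 * Real.pi * r := by
      have := mul_pos Real.pi_pos hr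
      nlinarith
    linarith [Real.exp_le_exp.2 h2]
  nE4 := by
    refine (F.E_norm r (I / 2) hr).trans ?_
    have h1 : ‖(I / 2 : ℂ)‖ = 1 / 2 := by simp
    rw [h1]
    have h2 : 2 * Real.pi * (1 / 2) * r ≤ 2 * Real.pi * r := by
      have := mul_pos Real.pi_pos hr
      nlinarith
    linarith [Real.exp_le_exp.2 h2]
  pos := by positivity
  δ_nonneg := by
    have : 0 ≤ 2 * Real.pi * r := by positivity
    linarith [Real.one_le_exp this]
  δ_le := hr1

end fr

end

end Pool.Agent.H75.BC.FB
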