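import Pool.Agent.H75.BC.Stmts2

/-!
S_Ex, part 1: orthogonal families of isometries and of projections (helper20).
-/

set_option autoImplicit false

open MeasureTheory Filter Topology Complex
open scoped InnerProductSpace ENNReal

namespace Pool.Agent.H75.BC.Ex

noncomputable section

variable {H : Type} [NormedAddCommGroup H] [InnerProductSpace ℂ H] [CompleteSpace H]
  {K : Type} [NormedAddCommGroup K] [InnerProductSpace ℂ K] [CompleteSpace K]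

/-- orthogonal family of isometries -/
def OI {ι : Type} (j : ι → H →L[ℂ] K) : Prop :=
  (∀ a b : ι, a ≠ b → ∀ v : H, ContinuousLinearMap.adjoint (j a) (j b v) = 0) ∧
    ∀ (a : ι) (v : H), ContinuousLinearMap.adjoint (j a) (j a v) = v

/-- Pythagoras for orthogonal families -/
theorem norm_sum_sq {ι : Type} [DecidableEq ι] (s : Finset ι) (w : ι → K)
    (h : ∀ a ∈ s, ∀ b ∈ s, a ≠ b → ⟪w a, w b⟫_ℂ = 0) : ‖∑ a ∈ s, w a‖ ^ 2 = ∑ a ∈ s, ‖w a‖ ^ 2 := by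
  induction s using Finset.induction_on with
  | empty => simp
  | insert a s ha ih =>
    rw [Finset.sum_insert ha, Finset.sum_insert ha]
    have h1 : ⟪w a, ∑ b ∈ s, w b⟫_ℂ = 0 := by
      rw [inner_sum]
      refine Finset.sum_eq_zero fun b hb => ?_
      exact h a (Finset.mem_insert_self _ _) b (Finset.mem_insert_of_mem hb)
        (fun hab => ha (hab ▸ hb))
    have h2 := norm_add_sq_eq_norm_sq_add_norm_sq_of_inner_eq_zero (w a) (∑ b ∈ s, w b) h1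
    have h3 := ih fun b hb c hc => h b (Finset.mem_insert_of_mem hb) c (Finset.mem_insert_of_mem hc)
    rw [← h3, sq, sq, sq]
    exact h2

theorem OI.inner_eq {ι : Type} {j : ι → H →L[ℂ] K} (h : OI j) {a b : ι} (hab : a ≠ b) (v w : H) :
    ⟪j a v, j b w⟫_ℂ = 0 := by
  rw [← ContinuousLinearMap.adjoint_inner_right, h.1 a b hab, inner_zero_right]

theorem OI.norm_eq {ι : Type} {j : ι → H →L[ℂ] K} (h : OI j) (a : ι) (v : H) : ‖j a v‖ = ‖v‖ := by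
  have h1 : ⟪j a v, j a v⟫_ℂ = ⟪v, v⟫_ℂ := by
    rw [← ContinuousLinearMap.adjoint_inner_right, h.2]
  rw [inner_self_eq_norm_sq_to_K, inner_self_eq_norm_sq_to_K] at h1
  have h2 : ‖j a v‖ ^ 2 = ‖v‖ ^ 2 := by exact_mod_cast h1
  exact (sq_eq_sq₀ (norm_nonneg _) (norm_nonneg _)).1 h2

theorem OI.sum_sq {ι : Type} [DecidableEq ι] {j : ι → H →L[ℂ] K} (h : OI j) (s : Finset ι)
    (v : ι → H) : ‖∑ a ∈ s, j a (v a)‖ ^ 2 = ∑ a ∈ s, ‖v a‖ ^ 2 := by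
  rw [norm_sum_sq s _ fun a _ b _ hab => h.inner_eq hab _ _]
  exact Finset.sum_congr rfl fun a _ => by rw [h.norm_eq]

/-- Bessel -/
theorem OI.bessel {ι : Type} [DecidableEq ι] {j : ι → H →L[ℂ] K} (h : OI j) (s : Finset ι) (u : K) :
    ∑ a ∈ s, ‖ContinuousLinearMap.adjoint (j a) u‖ ^ 2 ≤ ‖u‖ ^ 2 := by
  set p : K := ∑ a ∈ s, j a (ContinuousLinearMap.adjoint (j a) u) with hp
  have h1 : ‖p‖ ^ 2 = ∑ a ∈ s, ‖ContinuousLinearMap.adjoint (j a) u‖ ^ 2 := h.sum_sq s _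
  have h2 : ⟪p, u⟫_ℂ = ((‖p‖ ^ 2 : ℝ) : ℂ) := by
    rw [hp, sum_inner, ← hp, h1]
    push_cast
    refine Finset.sum_congr rfl fun a _ => ?_
    rw [← ContinuousLinearMap.adjoint_inner_right, inner_self_eq_norm_sq_to_K]
    rfl
  have h3 : ‖p‖ ^ 2 ≤ ‖p‖ * ‖u‖ := by
    have h4 := norm_inner_le_norm (𝕜 := ℂ) p u
    rw [h2, Complex.norm_real, Real.norm_eq_abs, abs_of_nonneg (sq_nonneg _)] at h4
    exact h4
  rw [← h1]
  have h5 : ‖p‖ ≤ ‖u‖ := by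
    by_contra hc
    push_neg at hc
    have h6 : 0 < ‖p‖ := lt_of_le_of_lt (norm_nonneg _) hc
    nlinarith
  exact pow_le_pow_left₀ (norm_nonneg _) h5 2

theorem OI.comp {ι ι' : Type} {j : ι → H →L[ℂ] K} (h : OI j) (f : ι' → ι)
    (hf : Function.Injective f) : OI fun a => j (f a) :=
  ⟨fun a b hab v => h.1 _ _ (fun hc => hab (hf hc)) v, fun a v => h.2 _ v⟩

/-- `‖∑ j_a‖ ≤ √|s|` -/
theorem OI.sum_norm {ι : Type} [DecidableEq ι] {j : ι → H →L[ℂ] K} (h : OI j) (s : Finset ι) :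
    ‖∑ a ∈ s, j a‖ ≤ Real.sqrt (s.card : ℝ) := by
  refine ContinuousLinearMap.opNorm_le_bound _ (Real.sqrt_nonneg _) fun v => ?_
  rw [ContinuousLinearMap.sum_apply]
  have h1 := h.sum_sq s fun _ => v
  simp only [Finset.sum_const, nsmul_eq_mul] at h1
  have h2 : (Real.sqrt (s.card : ℝ) * ‖v‖) ^ 2 = (s.card : ℝ) * ‖v‖ ^ 2 := by
    rw [mul_pow, Real.sq_sqrt (Nat.cast_nonneg _)]
  rw [← h2] at h1
  exact le_of_eq ((sq_eq_sq₀ (norm_nonneg _) (by positivity)).1 h1)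

/-- orthogonal family of projections -/
def OP {ι : Type} (b : ι → K →L[ℂ] K) : Prop :=
  (∀ a c : ι, a ≠ c → b a * b c = 0) ∧ (∀ a, b a * b a = b a) ∧ ∀ a, star (b a) = b a

theorem OP.apply {ι : Type} {b : ι → K →L[ℂ] K} (h : OP b) (a : ι) (u : K) : b a (b a u) = b a u :=
  congrArg (fun T : K →L[ℂ] K => T u) (h.2.1 a)

theorem OP.inner_eq {ι : Type} {b : ι → K →L[ℂ] K} (h : OP b) {a c : ι} (hac : a ≠ c) (u v : K)
    (hu : b a u = u) (hv : b c v = v) : ⟪u, v⟫_ℂ = 0 := by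
  have h1 : ⟪b a u, b c v⟫_ℂ = 0 := by
    rw [← ContinuousLinearMap.adjoint_inner_right, ← ContinuousLinearMap.star_eq_adjoint, h.2.2]
    have h2 : b a (b c v) = 0 := congrArg (fun T : K →L[ℂ] K => T v) (h.1 a c hac)
    rw [h2, inner_zero_right]
  rwa [hu, hv] at h1

theorem OP.bessel {ι : Type} [DecidableEq ι] {b : ι → K →L[ℂ] K} (h : OP b) (s : Finset ι) (u : K) :
    ∑ a ∈ s, ‖b a u‖ ^ 2 ≤ ‖u‖ ^ 2 := by
  set p : K := ∑ a ∈ s, b a u with hp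
  have h1 : ‖p‖ ^ 2 = ∑ a ∈ s, ‖b a u‖ ^ 2 :=
    norm_sum_sq s _ fun a _ c _ hac => h.inner_eq hac _ _ (h.apply a u) (h.apply c u)
  have h2 : ⟪p, u⟫_ℂ = ((‖p‖ ^ 2 : ℝ) : ℂ) := by
    rw [hp, sum_inner, ← hp, h1]
    push_cast
    refine Finset.sum_congr rfl fun a _ => ?_
    have h3 : ⟪b a u, u⟫_ℂ = ⟪b a u, b a u⟫_ℂ := by
      conv_lhs => rw [← h.apply a u]
      rw [← ContinuousLinearMap.adjoint_inner_right (b a), ← ContinuousLinearMap.star_eq_adjoint,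
        h.2.2]
    rw [h3, inner_self_eq_norm_sq_to_K]
    rfl
  have h3 : ‖p‖ ^ 2 ≤ ‖p‖ * ‖u‖ := by
    have h4 := norm_inner_le_norm (𝕜 := ℂ) p u
    rw [h2, Complex.norm_real, Real.norm_eq_abs, abs_of_nonneg (sq_nonneg _)] at h4
    exact h4
  rw [← h1]
  have h5 : ‖p‖ ≤ ‖u‖ := by
    by_contra hc
    push_neg at hc
    have h6 : 0 < ‖p‖ := lt_of_le_of_lt (norm_nonneg _) hc
    nlinarith
  exact pow_le_pow_left₀ (norm_nonneg _) h5 2

/-- block diagonal operators -/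
theorem OP.block {ι : Type} [DecidableEq ι] {b : ι → K →L[ℂ] K} (h : OP b) (s : Finset ι)
    (y : ι → K →L[ℂ] K) (C : ℝ) (hC : 0 ≤ C) (hy : ∀ a ∈ s, ‖y a‖ ≤ C)
    (hyb : ∀ a ∈ s, y a * b a = b a * y a) : ‖∑ a ∈ s, y a * b a‖ ≤ C := by
  refine ContinuousLinearMap.opNorm_le_bound _ hC fun u => ?_
  rw [ContinuousLinearMap.sum_apply]
  have h0 : ∀ a ∈ s, b a ((y a * b a) u) = (y a * b a) u := by
    intro a ha
    have h1 : b a * (y a * b a) = y a * b a := by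
      rw [← mul_assoc, ← hyb a ha, mul_assoc, h.2.1]
    exact congrArg (fun T : K →L[ℂ] K => T u) h1
  have h1 : ‖∑ a ∈ s, (y a * b a) u‖ ^ 2 = ∑ a ∈ s, ‖(y a * b a) u‖ ^ 2 :=
    norm_sum_sq s _ fun a ha c hc hac => h.inner_eq hac _ _ (h0 a ha) (h0 c hc)
  have h2 : ∑ a ∈ s, ‖(y a * b a) u‖ ^ 2 ≤ ∑ a ∈ s, C ^ 2 * ‖b a u‖ ^ 2 := by
    refine Finset.sum_le_sum fun a ha => ?_
    rw [← mul_pow]
    refine pow_le_pow_left₀ (norm_nonneg _) ?_ 2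
    calc ‖(y a * b a) u‖ = ‖y a (b a u)‖ := rfl
      _ ≤ ‖y a‖ * ‖b a u‖ := ContinuousLinearMap.le_opNorm _ _
      _ ≤ _ := mul_le_mul_of_nonneg_right (hy a ha) (norm_nonneg _)
  rw [← Finset.mul_sum] at h2
  have h3 : ‖∑ a ∈ s, (y a * b a) u‖ ^ 2 ≤ (C * ‖u‖) ^ 2 := by
    rw [h1, mul_pow]
    exact h2.trans (mul_le_mul_of_nonneg_left (h.bessel s u) (sq_nonneg _))
  exact (sq_le_sq₀ (norm_nonneg _) (by positivity)).1 h3

end

end Pool.Agent.H75.BC.Ex
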