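import Pool.Agent.H75.BC.T.Ex1

/-!
S_Ex, part 2: boxes and matrix elements (helper20).
-/

set_option autoImplicit false

open MeasureTheory Filter Topology Complex
open scoped InnerProductSpace ENNReal

namespace Pool.Agent.H75.BC.Ex

open Pool.Agent.W662.CB Pool.Agent.H75.BC

noncomputable section

variable {H : Type} [NormedAddCommGroup H] [InnerProductSpace ℂ H] [CompleteSpace H]
  {K : Type} [NormedAddCommGroup K] [InnerProductSpace ℂ K] [CompleteSpace K]
  {M N : VonNeumannAlgebra H} {ξ : H} {U : ℝ → H →L[ℂ] H} {J0 : H → H}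
  {ρ : (H →L[ℂ] H) → (H →L[ℂ] H)} {κ : (H →L[ℂ] H) →⋆ₐ[ℂ] (K →L[ℂ] K)} {e S : ℝ → K →L[ℂ] K}
  {W : K →L[ℂ] K} {J : ℝ → H →L[ℂ] K} {E : ℝ → ℂ → K →L[ℂ] K} {A : VonNeumannAlgebra K}

/-- the box isometry at `[z r, (z + 1) r]` -/
def jz (S : ℝ → K →L[ℂ] K) (J : ℝ → H →L[ℂ] K) (r : ℝ) (z : ℤ) : H →L[ℂ] K :=
  (S ((z : ℝ) * r)) ∘L (J r)

/-- the box projection at `[z r, (z + 1) r]` -/
def bz (S : ℝ → K →L[ℂ] K) (E : ℝ → ℂ → K →L[ℂ] K) (r : ℝ) (z : ℤ) : K →L[ℂ] K :=
  bx S E ((z : ℝ) * r) r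

theorem jz_apply (r : ℝ) (z : ℤ) (v : H) : jz S J r z v = S ((z : ℝ) * r) (J r v) := rfl

section fr

variable (F : Frame U κ e S W J E)
include F

theorem bz_OP {r : ℝ} (hr : 0 < r) : OP (bz S E r) := by
  refine ⟨fun a c hac => ?_, fun a => FB.bx_idem F hr _, fun a => FB.bx_sa F hr _⟩
  rcases lt_or_gt_of_ne hac with h | h
  · refine F.box_orth _ _ _ _ hr hr ?_
    have h1 : (a : ℝ) + 1 ≤ c := by exact_mod_cast h
    nlinarith
  · have h1 : bz S E r c * bz S E r a = 0 := by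
      refine F.box_orth _ _ _ _ hr hr ?_
      have h1 : (c : ℝ) + 1 ≤ a := by exact_mod_cast h
      nlinarith
    have h2 := congrArg star h1
    rw [star_mul, star_zero] at h2
    have h3 : star (bz S E r a) = bz S E r a := FB.bx_sa F hr _
    have h4 : star (bz S E r c) = bz S E r c := FB.bx_sa F hr _
    rwa [h3, h4] at h2

theorem bz_jz {r : ℝ} (hr : 0 < r) (z : ℤ) (v : H) : bz S E r z (jz S J r z v) = jz S J r z v :=
  FB.bx_J F hr _ v

theorem jz_OI {r : ℝ} (hr : 0 < r) : OI (jz S J r) := by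
  refine ⟨fun a b hab v => ?_, fun a v => ?_⟩
  · refine ext_inner_left ℂ fun u => ?_
    rw [ContinuousLinearMap.adjoint_inner_right, inner_zero_right]
    exact (bz_OP F hr).inner_eq hab _ _ (bz_jz F hr a u) (bz_jz F hr b v)
  · refine ext_inner_left ℂ fun u => ?_
    rw [ContinuousLinearMap.adjoint_inner_right, jz_apply, jz_apply,
      ← ContinuousLinearMap.adjoint_inner_right (S _), ← ContinuousLinearMap.star_eq_adjoint,
      F.S_star]
    have h1 : S (-((a : ℝ) * r)) (S ((a : ℝ) * r) (J r v)) = J r v := FB.ap (FB.S_neg_mul F _) _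
    rw [h1, FB.J_inner F hr]

/-- adjoint of the box isometry -/
theorem jz_adj (r : ℝ) (z : ℤ) (u : K) : ContinuousLinearMap.adjoint (jz S J r z) u =
    ContinuousLinearMap.adjoint (J r) (S (-((z : ℝ) * r)) u) := by
  unfold jz
  rw [ContinuousLinearMap.adjoint_comp, ContinuousLinearMap.comp_apply,
    ← ContinuousLinearMap.star_eq_adjoint (S _), F.S_star]

theorem κ_jz {r : ℝ} (hr : 0 < r) (z : ℤ) (y : H →L[ℂ] H) (v : H) :
    κ y (jz S J r z v) = jz S J r z (y v) := by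
  rw [jz_apply, jz_apply, ← F.κ_J y r v hr]
  exact FB.ap (F.κ_S y _) _

theorem κ_jz_adj {r : ℝ} (hr : 0 < r) (z : ℤ) (y : H →L[ℂ] H) (u : K) :
    ContinuousLinearMap.adjoint (jz S J r z) (κ y u) =
      y (ContinuousLinearMap.adjoint (jz S J r z) u) := by
  rw [jz_adj F, jz_adj F, ← FB.κ_adj F hr]
  congr 1
  exact (FB.ap (F.κ_S y _) u).symm

/-- decomposition of `J` -/
theorem J_split (r : ℝ) (n : ℕ) (hr : 0 < r) (hn : 0 < n) (v : H) : S (-r) (J r v) =
    ∑ p ∈ Finset.range n, ((Real.sqrt (1 / n) : ℝ) : ℂ) • jz S J (r / n) (-((p : ℤ) + 1)) v := by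
  have hn' : (0 : ℝ) < n := Nat.cast_pos.2 hn
  have h1 : J r v = ∑ k ∈ Finset.range n,
      ((Real.sqrt (1 / n) : ℝ) : ℂ) • S (k * (r / n)) (J (r / n) v) := by
    conv_lhs => rw [← F.E_J r v hr]
    rw [F.box_sum r n hr hn, ContinuousLinearMap.sum_apply]
    refine Finset.sum_congr rfl fun k hk => ?_
    have hk' : (k : ℝ) + 1 ≤ n := by exact_mod_cast Finset.mem_range.1 hk
    rw [F.box_J _ _ _ v (by positivity) (by positivity)]
    · have h9 : r / n / r = 1 / n := by field_simp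
      rw [h9]
    · calc (k : ℝ) * (r / n) + r / n = (k + 1) * (r / n) := by ring
        _ ≤ n * (r / n) := mul_le_mul_of_nonneg_right hk' (by positivity)
        _ = r := by field_simp
  rw [h1, map_sum, ← Finset.sum_range_reflect]
  refine Finset.sum_congr rfl fun p hp => ?_
  rw [map_smul, jz_apply]
  congr 1
  have h2 : p + 1 ≤ n := Finset.mem_range.1 hp
  have h3 : ((n - 1 - p : ℕ) : ℝ) = (n : ℝ) - 1 - p := by
    rw [Nat.cast_sub (by omega), Nat.cast_sub (by omega)]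
    simp
  have h4 : S (-r) (S (((n - 1 - p : ℕ) : ℝ) * (r / n)) (J (r / n) v)) =
      S (-r + ((n - 1 - p : ℕ) : ℝ) * (r / n)) (J (r / n) v) := by
    rw [F.S_add]
    rfl
  rw [h4]
  congr 2
  rw [h3]
  push_cast
  field_simp
  ring

/-- decomposition of the window -/
theorem bx_split (r : ℝ) (n : ℕ) (hr : 0 < r) (hn : 0 < n) : bx S E (-r) r =
    ∑ p ∈ Finset.range n, bz S E (r / n) (-((p : ℤ) + 1)) := by
  have hn' : (0 : ℝ) < n := Nat.cast_pos.2 hn
  have h1 : bx S E (-r) r = S (-r) * E r 0 * S (-(-r)) := rfl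
  rw [h1, F.box_sum r n hr hn, Finset.mul_sum, Finset.sum_mul, ← Finset.sum_range_reflect]
  refine Finset.sum_congr rfl fun p hp => ?_
  rw [FB.S_bx F]
  unfold bz
  congr 1
  have h2 : p + 1 ≤ n := Finset.mem_range.1 hp
  have h3 : ((n - 1 - p : ℕ) : ℝ) = (n : ℝ) - 1 - p := by
    rw [Nat.cast_sub (by omega), Nat.cast_sub (by omega)]
    simp
  rw [h3]
  push_cast
  field_simp
  ring

/-- decomposition of `E_r(z) J_r` -/
theorem E_split (n : ℕ) (hn : 0 < n) (z : ℂ) (v : H) : S (-1) (E 1 z (J 1 v)) =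
    ∑ p ∈ Finset.range n, ((Real.sqrt (1 / n) : ℝ) : ℂ) •
      (Complex.exp (2 * Real.pi * I * z * (1 - ((p : ℂ) + 1) * (1 / n))) •
        S ((-((p : ℤ) + 1) : ℤ) * (1 / n)) (E (1 / n) z (J (1 / n) v))) := by
  have hn' : (0 : ℝ) < n := Nat.cast_pos.2 hn
  have h1 : E 1 z (J 1 v) = ∑ k ∈ Finset.range n, ((Real.sqrt (1 / n) : ℝ) : ℂ) •
      (Complex.exp (2 * Real.pi * I * z * ((k : ℝ) * (1 / n) : ℝ)) •
        S (k * (1 / n)) (E (1 / n) z (J (1 / n) v))) := by
    have h2 : E 1 z (J 1 v) = (E 1 0 * E 1 z) (J 1 v) := by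
      rw [← F.E_add 1 0 z one_pos, zero_add]
    rw [h2, F.box_sum 1 n one_pos hn, Finset.sum_mul, ContinuousLinearMap.sum_apply]
    refine Finset.sum_congr rfl fun k hk => ?_
    have hk' : (k : ℝ) + 1 ≤ n := by exact_mod_cast Finset.mem_range.1 hk
    have hk2 : (k : ℝ) * (1 / n) + 1 / n ≤ 1 := by
      calc (k : ℝ) * (1 / n) + 1 / n = (k + 1) * (1 / n) := by ring
        _ ≤ n * (1 / n) := mul_le_mul_of_nonneg_right hk' (by positivity)
        _ = 1 := by field_simp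
    rw [F.box_E _ _ _ z (by positivity) (by positivity) hk2]
    -- `E z S(-p) J 1 v = √(1/n) E z J v`
    have h3 : E (1 / n) 0 (S (-((k : ℝ) * (1 / n))) (J 1 v)) =
        ((Real.sqrt (1 / n) : ℝ) : ℂ) • J (1 / n) v := by
      have h4 := F.box_J ((k : ℝ) * (1 / n)) (1 / n) 1 v (by positivity) (by positivity) hk2
      have h5 := congrArg (S (-((k : ℝ) * (1 / n)))) h4
      rw [map_smul] at h5
      have h6 : S (-((k : ℝ) * (1 / n))) (S ((k : ℝ) * (1 / n)) (J (1 / n) v)) = J (1 / n) v :=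
        FB.ap (FB.S_neg_mul F _) _
      rw [h6, div_one] at h5
      rw [← h5]
      exact (FB.ap (FB.S_neg_mul F ((k : ℝ) * (1 / n))) _).symm
    have h7 : E (1 / n) z (S (-((k : ℝ) * (1 / n))) (J 1 v)) =
        ((Real.sqrt (1 / n) : ℝ) : ℂ) • E (1 / n) z (J (1 / n) v) := by
      have h8 : E (1 / n) z (S (-((k : ℝ) * (1 / n))) (J 1 v)) =
          (E (1 / n) z * E (1 / n) 0) (S (-((k : ℝ) * (1 / n))) (J 1 v)) := by
        rw [← F.E_add (1 / n) z 0 (by positivity), add_zero]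
      rw [h8]
      show E (1 / n) z (E (1 / n) 0 (S (-((k : ℝ) * (1 / n))) (J 1 v))) = _
      rw [h3, map_smul]
    show Complex.exp (2 * Real.pi * I * z * ((k : ℝ) * (1 / n) : ℝ)) •
      S ((k : ℝ) * (1 / n)) (E (1 / n) z (S (-((k : ℝ) * (1 / n))) (J 1 v))) = _
    rw [h7, map_smul, smul_comm]
  rw [h1, map_sum, ← Finset.sum_range_reflect]
  refine Finset.sum_congr rfl fun p hp => ?_
  rw [map_smul, map_smul]
  have h2 : p + 1 ≤ n := Finset.mem_range.1 hp
  have h3 : ((n - 1 - p : ℕ) : ℝ) = (n : ℝ) - 1 - p := by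
    rw [Nat.cast_sub (by omega), Nat.cast_sub (by omega)]
    simp
  have h4 : ∀ w : K, S (-1) (S (((n - 1 - p : ℕ) : ℝ) * (1 / n)) w) =
      S (-1 + ((n - 1 - p : ℕ) : ℝ) * (1 / n)) w := by
    intro w
    rw [F.S_add]
    rfl
  rw [h4]
  have hn'' : (n : ℂ) ≠ 0 := by exact_mod_cast hn'.ne'
  congr 2
  · congr 2
    rw [h3]
    push_cast
    field_simp
    ring
  · congr 2
    rw [h3]
    push_cast
    field_simp
    ring

end fr

end

end Pool.Agent.H75.BC.Ex
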