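import Pool.Agent.H75.BC.T.Ex2

/-!
S_Ex, part 3: matrix elements of `π_σ(y)` (helper20).
-/

set_option autoImplicit false

open MeasureTheory Filter Topology Complex
open scoped InnerProductSpace ENNReal

namespace Pool.Agent.H75.BC.Ex

open Pool.Agent.W662.CB Pool.Agent.H75.BC

noncomputable section

variable {H : Type} [NormedAddCommGroup H] [InnerProductSpace ℂ H] [CompleteSpace H]
  {K : Type} [NormedAddCommGroup K] [InnerProductSpace ℂ K] [CompleteSpace K]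
  {M N : VonNeumannAlgebra H} {ξ : H} {U : ℝ → H →L[ℂ] H} {J0 : H → H}
  {ρ : (H →L[ℂ] H) → (H →L[ℂ] H)} {κ : (H →L[ℂ] H) →⋆ₐ[ℂ] (K →L[ℂ] K)} {e S : ℝ → K →L[ℂ] K}
  {W : K →L[ℂ] K} {J : ℝ → H →L[ℂ] K} {E : ℝ → ℂ → K →L[ℂ] K} {A : VonNeumannAlgebra K}

/-- matrix elements -/
def Ym (S : ℝ → K →L[ℂ] K) (J : ℝ → H →L[ℂ] K) (r : ℝ) (P : K →L[ℂ] K) (p j : ℤ) : H →L[ℂ] H :=
  (ContinuousLinearMap.adjoint (jz S J r p)) ∘L P ∘L (jz S J r j)

theorem Ym_apply (r : ℝ) (P : K →L[ℂ] K) (p j : ℤ) (v : H) : Ym S J r P p j v =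
    ContinuousLinearMap.adjoint (jz S J r p) (P (jz S J r j v)) := rfl

theorem Ym_mem (D : CoreD M N ξ U κ e S W J E A) {r : ℝ} (hr : 0 < r) {P : K →L[ℂ] K} (hP : P ∈ A)
    (p j : ℤ) : Ym S J r P p j ∈ N := by
  have F := D.fr
  rw [← VonNeumannAlgebra.commutant_commutant N, VonNeumannAlgebra.mem_commutant_iff]
  intro y' hy'
  ext v
  show y' (Ym S J r P p j v) = Ym S J r P p j (y' v)
  rw [Ym_apply, Ym_apply, ← κ_jz_adj F hr, ← κ_jz F hr]
  congr 1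
  exact FB.ap (FB.κ_comm D hP hy') _

/-- the matrix is a contraction -/
theorem Ym_contr (F : Frame U κ e S W J E) {r : ℝ} (hr : 0 < r) {P : K →L[ℂ] K} (hP : ‖P‖ ≤ 1)
    {ι : Type} [Fintype ι] [DecidableEq ι] (f : ι → ℤ) (hf : Function.Injective f) (w : ι → H) :
    ∑ p, ‖∑ j, Ym S J r P (f p) (f j) (w j)‖ ^ 2 ≤ ∑ j, ‖w j‖ ^ 2 := by
  have hO := (jz_OI F hr).comp f hf
  have h1 : ∀ p, ∑ j, Ym S J r P (f p) (f j) (w j) =
      ContinuousLinearMap.adjoint (jz S J r (f p)) (P (∑ j, jz S J r (f j) (w j))) := by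
    intro p
    rw [map_sum, map_sum]
    rfl
  simp only [h1]
  refine (hO.bessel Finset.univ _).trans ?_
  rw [← hO.sum_sq Finset.univ w]
  refine pow_le_pow_left₀ (norm_nonneg _) ?_ 2
  calc ‖P (∑ j, jz S J r (f j) (w j))‖ ≤ ‖P‖ * ‖∑ j, jz S J r (f j) (w j)‖ :=
        ContinuousLinearMap.le_opNorm _ _
    _ ≤ 1 * ‖∑ j, jz S J r (f j) (w j)‖ := mul_le_mul_of_nonneg_right hP (norm_nonneg _)
    _ = _ := one_mul _

theorem Ym_sl (F : Frame U κ e S W J E) (r : ℝ) (P : K →L[ℂ] K) (p j : ℤ) :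
    Ym S J r P p j = sl (J r) (S (-((p : ℝ) * r)) * P * S ((j : ℝ) * r)) := by
  ext v
  rw [Ym_apply, jz_adj F, jz_apply]
  rfl

/-- the analytic slice -/
theorem Ym_an (hSl : S_Sl) (D : CoreD M N ξ U κ e S W J E A) (R : RAct M ξ U J0 ρ) {r : ℝ}
    (hr : 0 < r) {P : K →L[ℂ] K} (hP : P ∈ A) (p j : ℤ) :
    ρ (Ym S J r P p j) ξ = ((Real.exp (Real.pi * ((j : ℝ) * r - p * r)) : ℝ) : ℂ) •
      ContinuousLinearMap.adjoint (J r) (E r (I / 2) (S (-((p : ℝ) * r))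
        (P (S ((j : ℝ) * r) (E r (-(I / 2)) (J r ξ)))))) := by
  have F := D.fr
  have h1 := hSl H K M ξ U J0 ρ κ e S W J E D.std.modular R F
    (S (-((p : ℝ) * r)) * P * S ((j : ℝ) * r)) ((j : ℝ) * r - p * r) r hr ?_ ?_
  · rw [Ym_sl F]
    exact h1.2
  · intro y' hy'
    have hy'' : y' ∈ N.commutant := by
      rw [VonNeumannAlgebra.mem_commutant_iff] at hy' ⊢
      exact fun g hg => hy' g (D.std.le g hg)
    have h2 := FB.κ_comm D hP hy''
    calc S (-((p : ℝ) * r)) * P * S ((j : ℝ) * r) * κ y'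
        = S (-((p : ℝ) * r)) * P * (κ y' * S ((j : ℝ) * r)) := by rw [F.κ_S, mul_assoc]
      _ = S (-((p : ℝ) * r)) * (κ y' * P) * S ((j : ℝ) * r) := by
          rw [h2]; simp only [mul_assoc]
      _ = (κ y' * S (-((p : ℝ) * r))) * P * S ((j : ℝ) * r) := by
          rw [F.κ_S]; simp only [mul_assoc]
      _ = _ := by simp only [mul_assoc]
  · intro t
    have h2 := FB.V_comm D hP t
    have hV : ∀ q : ℝ, (e t * κ (U t)) * S q =
        Complex.exp (2 * Real.pi * I * t * q) • (S q * (e t * κ (U t))) := by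
      intro q
      calc (e t * κ (U t)) * S q = e t * (κ (U t) * S q) := mul_assoc _ _ _
        _ = (e t * S q) * κ (U t) := by rw [F.κ_S, mul_assoc]
        _ = _ := by rw [F.e_S, smul_mul_assoc, mul_assoc (S q)]
    calc (e t * κ (U t)) * (S (-((p : ℝ) * r)) * P * S ((j : ℝ) * r))
        = ((e t * κ (U t)) * S (-((p : ℝ) * r))) * P * S ((j : ℝ) * r) := by
          simp only [mul_assoc]
      _ = Complex.exp (2 * Real.pi * I * t * ((-((p : ℝ) * r) : ℝ) : ℂ)) •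
            (S (-((p : ℝ) * r)) * ((e t * κ (U t)) * P) * S ((j : ℝ) * r)) := by
          rw [hV, smul_mul_assoc, smul_mul_assoc]; simp only [mul_assoc]
      _ = Complex.exp (2 * Real.pi * I * t * ((-((p : ℝ) * r) : ℝ) : ℂ)) •
            (S (-((p : ℝ) * r)) * P * ((e t * κ (U t)) * S ((j : ℝ) * r))) := by
          rw [h2]; simp only [mul_assoc]
      _ = _ := by
          rw [hV, mul_smul_comm, smul_smul, ← Complex.exp_add]
          have h3 : 2 * (Real.pi : ℂ) * I * t * ((-((p : ℝ) * r) : ℝ) : ℂ) +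
              2 * (Real.pi : ℂ) * I * t * (((j : ℝ) * r : ℝ) : ℂ) =
              2 * (Real.pi : ℂ) * I * (((j : ℝ) * r - p * r : ℝ) : ℂ) * t := by
            push_cast
            ring
          rw [h3]
          simp only [mul_assoc]

/-- near-eigenvector estimate -/
theorem Ym_tau (hSl : S_Sl) (D : CoreD M N ξ U κ e S W J E A) (R : RAct M ξ U J0 ρ) {r : ℝ}
    (hr : 0 < r) {P : K →L[ℂ] K} (hP : P ∈ A) (hP1 : ‖P‖ ≤ 1)
    {ι : Type} [Fintype ι] [DecidableEq ι] (f : ι → ℤ) (hf : Function.Injective f)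
    (hξ : ‖ξ‖ = 1) (j : ι) (hj : f j ≤ 0) (δ : ℝ) (hδ : Real.exp (Real.pi * r) - 1 ≤ δ) :
    ∑ p, ‖((Real.exp (Real.pi * (f j * r)) : ℝ) : ℂ) • Ym S J r P (f p) (f j) ξ -
      ((Real.exp (Real.pi * (f p * r)) : ℝ) : ℂ) • ρ (Ym S J r P (f p) (f j)) ξ‖ ^ 2 ≤
      (δ * (2 + δ)) ^ 2 := by
  have F := D.fr
  have hO := (jz_OI F hr).comp f hf
  have hB := bz_OP F hr
  have hδ0 : 0 ≤ δ := by
    refine le_trans ?_ hδ
    have := Real.add_one_le_exp (Real.pi * r)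
    have h0 : 0 ≤ Real.pi * r := mul_nonneg Real.pi_pos.le hr.le
    linarith
  set G : K →L[ℂ] K := P * S ((f j : ℝ) * r) with hG
  set a : K := J r ξ with ha
  set b : K := E r (-(I / 2)) (J r ξ) with hb
  have hG1 : ∀ u : K, ‖G u‖ ≤ ‖u‖ := by
    intro u
    calc ‖P (S ((f j : ℝ) * r) u)‖ ≤ ‖P‖ * ‖S ((f j : ℝ) * r) u‖ := ContinuousLinearMap.le_opNorm _ _
      _ ≤ 1 * ‖u‖ := by
          rw [FB.S_norm F]
          exact mul_le_mul_of_nonneg_right hP1 (norm_nonneg _)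
      _ = _ := one_mul _
  have hE1 : ‖E r (-(I / 2)) - E r 0‖ ≤ δ := by
    refine (F.E_norm r _ hr).trans (le_trans (le_of_eq ?_) hδ)
    have : ‖(-(I / 2) : ℂ)‖ = 1 / 2 := by simp
    rw [this]
    congr 2
    ring
  have hE2 : ‖E r (I / 2) - E r 0‖ ≤ δ := by
    refine (F.E_norm r _ hr).trans (le_trans (le_of_eq ?_) hδ)
    have : ‖(I / 2 : ℂ)‖ = 1 / 2 := by simp
    rw [this]
    congr 2
    ring
  have ha1 : ‖a‖ = 1 := by rw [ha, FB.J_norm F hr, hξ]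
  have hab : ‖b - a‖ ≤ δ := by
    have h1 : b - a = (E r (-(I / 2)) - E r 0) (J r ξ) := by
      rw [ContinuousLinearMap.sub_apply, F.E_J r ξ hr]
    rw [h1]
    calc _ ≤ ‖E r (-(I / 2)) - E r 0‖ * ‖J r ξ‖ := ContinuousLinearMap.le_opNorm _ _
      _ ≤ δ * 1 := by rw [← ha, ha1]; exact mul_le_mul_of_nonneg_right hE1 zero_le_one
      _ = δ := mul_one _
  have hb1 : ‖b‖ ≤ 1 + δ := by
    calc ‖b‖ = ‖a + (b - a)‖ := by congr 1; abel
      _ ≤ ‖a‖ + ‖b - a‖ := norm_add_le _ _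
      _ ≤ _ := by rw [ha1]; linarith
  -- the formula for one entry
  set lam : ℝ := Real.exp (Real.pi * (f j * r)) with hlam
  have hlam1 : lam ≤ 1 := by
    rw [hlam]
    refine Real.exp_le_one_iff.2 ?_
    have h1 : (f j : ℝ) ≤ 0 := by exact_mod_cast hj
    have h2 : (f j : ℝ) * r ≤ 0 := mul_nonpos_of_nonpos_of_nonneg h1 hr.le
    exact mul_nonpos_of_nonneg_of_nonpos Real.pi_pos.le h2
  have hlam0 : 0 ≤ lam := (Real.exp_pos _).le
  have key : ∀ p, ((lam : ℝ) : ℂ) • Ym S J r P (f p) (f j) ξ -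
      ((Real.exp (Real.pi * (f p * r)) : ℝ) : ℂ) • ρ (Ym S J r P (f p) (f j)) ξ =
      ((lam : ℝ) : ℂ) • (-(ContinuousLinearMap.adjoint (jz S J r (f p)) (G (b - a))) -
        ContinuousLinearMap.adjoint (J r) ((E r (I / 2) - E r 0)
          (E r 0 (S (-((f p : ℝ) * r)) (G b))))) := by
    intro p
    rw [Ym_an hSl D R hr hP, smul_smul, ← Complex.ofReal_mul, ← Real.exp_add]
    have h1 : Real.pi * (f p * r) + Real.pi * ((f j : ℝ) * r - f p * r) = Real.pi * (f j * r) := by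
      ring
    rw [h1, ← hlam, ← smul_sub]
    congr 1
    have h2 : E r (I / 2) (S (-((f p : ℝ) * r)) (P (S ((f j : ℝ) * r) (E r (-(I / 2)) (J r ξ))))) =
        E r (I / 2) (S (-((f p : ℝ) * r)) (G b)) := rfl
    have h3 : Ym S J r P (f p) (f j) ξ = ContinuousLinearMap.adjoint (jz S J r (f p)) (G a) := rfl
    have h4 : (E r (I / 2) - E r 0) (E r 0 (S (-((f p : ℝ) * r)) (G b))) =
        E r (I / 2) (S (-((f p : ℝ) * r)) (G b)) - E r 0 (S (-((f p : ℝ) * r)) (G b)) := by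
      have h5 : (E r (I / 2) - E r 0) * E r 0 = E r (I / 2) - E r 0 := by
        rw [sub_mul, ← F.E_add _ _ _ hr, add_zero, FB.E_idem F hr]
      exact FB.ap h5 _
    have h6 : ContinuousLinearMap.adjoint (J r) (E r 0 (S (-((f p : ℝ) * r)) (G b))) =
        ContinuousLinearMap.adjoint (jz S J r (f p)) (G b) := by
      rw [jz_adj F]
      refine ext_inner_left ℂ fun u => ?_
      rw [ContinuousLinearMap.adjoint_inner_right, ContinuousLinearMap.adjoint_inner_right,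
        ← ContinuousLinearMap.adjoint_inner_left (E r 0), ← ContinuousLinearMap.star_eq_adjoint,
        FB.E_sa F hr, F.E_J r u hr]
    rw [h2, h3, h4, map_sub (ContinuousLinearMap.adjoint (J r)), h6, map_sub G, map_sub]
    abel
  simp only [key]
  -- the two families
  set x1 : ι → H := fun p => ContinuousLinearMap.adjoint (jz S J r (f p)) (G (b - a)) with hx1
  set x2 : ι → H := fun p => ContinuousLinearMap.adjoint (J r) ((E r (I / 2) - E r 0)
          (E r 0 (S (-((f p : ℝ) * r)) (G b)))) with hx2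
  have s1 : ∑ p, ‖x1 p‖ ^ 2 ≤ δ ^ 2 := by
    refine (hO.bessel Finset.univ _).trans ?_
    exact pow_le_pow_left₀ (norm_nonneg _) ((hG1 _).trans hab) 2
  have s2 : ∑ p, ‖x2 p‖ ^ 2 ≤ (δ * (1 + δ)) ^ 2 := by
    have h1 : ∀ p, ‖x2 p‖ ^ 2 ≤ δ ^ 2 * ‖bz S E r (f p) (G b)‖ ^ 2 := by
      intro p
      rw [← mul_pow]
      refine pow_le_pow_left₀ (norm_nonneg _) ?_ 2
      have h2 : ‖bz S E r (f p) (G b)‖ = ‖E r 0 (S (-((f p : ℝ) * r)) (G b))‖ := by
        show ‖S ((f p : ℝ) * r) (E r 0 (S (-((f p : ℝ) * r)) (G b)))‖ = _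
        rw [FB.S_norm F]
      rw [h2]
      refine (FB.Ja_norm F hr _).trans ?_
      exact (ContinuousLinearMap.le_opNorm _ _).trans
        (mul_le_mul_of_nonneg_right hE2 (norm_nonneg _))
    have h3 : ∑ p, ‖bz S E r (f p) (G b)‖ ^ 2 ≤ ‖G b‖ ^ 2 := by
      have hB' : OP fun p => bz S E r (f p) :=
        ⟨fun a c hac => hB.1 _ _ fun hc => hac (hf hc), fun a => hB.2.1 _, fun a => hB.2.2 _⟩
      exact hB'.bessel Finset.univ _
    calc ∑ p, ‖x2 p‖ ^ 2 ≤ ∑ p, δ ^ 2 * ‖bz S E r (f p) (G b)‖ ^ 2 :=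
          Finset.sum_le_sum fun p _ => h1 p
      _ = δ ^ 2 * ∑ p, ‖bz S E r (f p) (G b)‖ ^ 2 := by rw [Finset.mul_sum]
      _ ≤ δ ^ 2 * (1 + δ) ^ 2 := by
          refine mul_le_mul_of_nonneg_left ?_ (sq_nonneg _)
          exact h3.trans (pow_le_pow_left₀ (norm_nonneg _) ((hG1 _).trans hb1) 2)
      _ = _ := by ring
  -- Minkowski
  have h7 : ∀ p, ‖((lam : ℝ) : ℂ) • (-x1 p - x2 p)‖ ^ 2 ≤ (‖x1 p‖ + ‖x2 p‖) ^ 2 := by
    intro p
    refine pow_le_pow_left₀ (norm_nonneg _) ?_ 2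
    rw [norm_smul, Complex.norm_real, Real.norm_eq_abs, abs_of_nonneg hlam0]
    have h8 : ‖-x1 p - x2 p‖ ≤ ‖x1 p‖ + ‖x2 p‖ := by
      calc ‖-x1 p - x2 p‖ ≤ ‖-x1 p‖ + ‖x2 p‖ := norm_sub_le _ _
        _ = _ := by rw [norm_neg]
    calc lam * ‖-x1 p - x2 p‖ ≤ 1 * ‖-x1 p - x2 p‖ :=
          mul_le_mul_of_nonneg_right hlam1 (norm_nonneg _)
      _ ≤ _ := by rw [one_mul]; exact h8
  refine (Finset.sum_le_sum fun p _ => h7 p).trans ?_
  have h9 : ∑ p, ‖x1 p‖ * ‖x2 p‖ ≤ δ * (δ * (1 + δ)) := by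
    have h10 := Finset.sum_mul_sq_le_sq_mul_sq Finset.univ (fun p => ‖x1 p‖) fun p => ‖x2 p‖
    have h11 : (∑ p, ‖x1 p‖ * ‖x2 p‖) ^ 2 ≤ (δ * (δ * (1 + δ))) ^ 2 := by
      refine h10.trans ?_
      rw [mul_pow]
      exact mul_le_mul s1 s2 (Finset.sum_nonneg fun p _ => sq_nonneg _) (sq_nonneg _)
    exact (sq_le_sq₀ (Finset.sum_nonneg fun p _ => mul_nonneg (norm_nonneg _) (norm_nonneg _))
      (by positivity)).1 h11
  have h12 : ∑ p, (‖x1 p‖ + ‖x2 p‖) ^ 2 =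
      ∑ p, ‖x1 p‖ ^ 2 + 2 * ∑ p, ‖x1 p‖ * ‖x2 p‖ + ∑ p, ‖x2 p‖ ^ 2 := by
    rw [Finset.mul_sum, ← Finset.sum_add_distrib, ← Finset.sum_add_distrib]
    exact Finset.sum_congr rfl fun p _ => by ring
  rw [h12]
  nlinarith [s1, s2, h9]

/-- the norm of the averaged rows -/
theorem Ym_row (F : Frame U κ e S W J E) {r : ℝ} (hr : 0 < r) {P : K →L[ℂ] K} (hP : ‖P‖ ≤ 1)
    (hPS : ∀ t : ℝ, S t * P = P * S t) (k1 k2 : ℕ) (p : ℤ) :
    ‖∑ a ∈ Finset.range k2, ∑ b ∈ Finset.range k1, Ym S J r P p (-(((a + b : ℕ) : ℤ) + 1))‖ ≤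
      Real.sqrt k2 * Real.sqrt k1 := by
  have hO := jz_OI F hr
  have h1 : ∀ a b : ℕ, Ym S J r P p (-(((a + b : ℕ) : ℤ) + 1)) =
      (ContinuousLinearMap.adjoint (jz S J r (p + a))) ∘L P ∘L (jz S J r (-((b : ℤ) + 1))) := by
    intro a b
    ext v
    rw [Ym_apply, jz_adj F, jz_apply]
    show _ = ContinuousLinearMap.adjoint (jz S J r (p + a)) (P (jz S J r (-((b : ℤ) + 1)) v))
    rw [jz_adj F, jz_apply]
    congr 1
    have h2 : S (((-(((a + b : ℕ) : ℤ) + 1) : ℤ) : ℝ) * r) =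
        S (-((a : ℝ) * r)) * S (((-((b : ℤ) + 1) : ℤ) : ℝ) * r) := by
      rw [← F.S_add]
      congr 1
      push_cast
      ring
    have h3 : S (-(((p + a : ℤ) : ℝ) * r)) = S (-((p : ℝ) * r)) * S (-((a : ℝ) * r)) := by
      rw [← F.S_add]
      congr 1
      push_cast
      ring
    rw [h2, h3]
    show S (-((p : ℝ) * r)) (P (S (-((a : ℝ) * r)) _)) = S (-((p : ℝ) * r)) (S (-((a : ℝ) * r)) _)
    congr 1
    exact (FB.ap (hPS _) _).symm
  have h2 : ∑ a ∈ Finset.range k2, ∑ b ∈ Finset.range k1,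
      Ym S J r P p (-(((a + b : ℕ) : ℤ) + 1)) =
      (ContinuousLinearMap.adjoint (∑ a ∈ Finset.range k2, jz S J r (p + a))) ∘L P ∘L
        (∑ b ∈ Finset.range k1, jz S J r (-((b : ℤ) + 1))) := by
    simp only [h1]
    ext v
    rw [map_sum]
    simp only [ContinuousLinearMap.sum_apply, ContinuousLinearMap.comp_apply, map_sum]
    exact Finset.sum_comm
  rw [h2]
  have hO1 : OI fun a : ℕ => jz S J r (p + a) := hO.comp (fun a : ℕ => p + (a : ℤ)) (by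
    intro a b hab
    simpa using hab)
  have hO2 : OI fun b : ℕ => jz S J r (-((b : ℤ) + 1)) := hO.comp (fun b : ℕ => -((b : ℤ) + 1)) (by
    intro a b hab
    simpa using hab)
  have n1 := hO1.sum_norm (Finset.range k2)
  have n2 := hO2.sum_norm (Finset.range k1)
  rw [Finset.card_range] at n1 n2
  calc _ ≤ ‖ContinuousLinearMap.adjoint (∑ a ∈ Finset.range k2, jz S J r (p + a))‖ *
        ‖P ∘L (∑ b ∈ Finset.range k1, jz S J r (-((b : ℤ) + 1)))‖ :=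
        ContinuousLinearMap.opNorm_comp_le _ _
    _ ≤ Real.sqrt k2 * (1 * Real.sqrt k1) := by
        refine mul_le_mul ?_ ?_ (norm_nonneg _) (Real.sqrt_nonneg _)
        · rw [LinearIsometryEquiv.norm_map]
          exact n1
        · exact (ContinuousLinearMap.opNorm_comp_le _ _).trans
            (mul_le_mul hP n2 (norm_nonneg _) zero_le_one)
    _ = _ := by rw [one_mul]

end

end Pool.Agent.H75.BC.Ex
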