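import Pool.Agent.H75.BC.T.Ex3

/-!
S_Ex, part 4: the trapezoid weights (helper20).
-/

set_option autoImplicit false

open Filter Topology

namespace Pool.Agent.H75.BC.Ex

noncomputable section

/-- the trapezoid `(√n k₂)⁻¹ ∑_{a < k₂, b < k₁} δ_{a+b}` -/
def gg (n k1 k2 : ℕ) (j : ℕ) : ℝ := (1 / (Real.sqrt n * k2)) *
  ∑ a ∈ Finset.range k2, ∑ b ∈ Finset.range k1, if a + b = j then (1 : ℝ) else 0

theorem gg_nonneg (n k1 k2 j : ℕ) : 0 ≤ gg n k1 k2 j := by
  unfold gg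
  refine mul_nonneg (by positivity) (Finset.sum_nonneg fun a _ => Finset.sum_nonneg fun b _ => ?_)
  split_ifs <;> norm_num

theorem gg_le (n k1 k2 j : ℕ) (hn : 0 < n) (hk : 0 < k2) : gg n k1 k2 j ≤ 1 / Real.sqrt n := by
  have hn' : 0 < Real.sqrt n := Real.sqrt_pos.2 (Nat.cast_pos.2 hn)
  have hk' : (0 : ℝ) < k2 := Nat.cast_pos.2 hk
  have h1 : ∑ a ∈ Finset.range k2, ∑ b ∈ Finset.range k1, (if a + b = j then (1 : ℝ) else 0) ≤
      ∑ a ∈ Finset.range k2, (1 : ℝ) := by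
    refine Finset.sum_le_sum fun a _ => ?_
    have h2 : ∀ b ∈ Finset.range k1, (if a + b = j then (1 : ℝ) else 0) =
        if b = j - a ∧ a ≤ j then 1 else 0 := by
      intro b _
      by_cases h : a + b = j
      · rw [if_pos h, if_pos ⟨by omega, by omega⟩]
      · rw [if_neg h, if_neg]
        rintro ⟨h3, h4⟩
        exact h (by omega)
    rw [Finset.sum_congr rfl h2]
    by_cases h5 : a ≤ j
    · simp only [h5, and_true]
      rw [Finset.sum_ite_eq']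
      split_ifs <;> norm_num
    · simp [h5]
  rw [Finset.sum_const, Finset.card_range, nsmul_eq_mul, mul_one] at h1
  unfold gg
  calc _ ≤ (1 / (Real.sqrt n * k2)) * k2 := mul_le_mul_of_nonneg_left h1 (by positivity)
    _ = _ := by field_simp

/-- summation against the weights -/
theorem gg_sum {V : Type*} [AddCommGroup V] [Module ℝ V] (n k1 k2 : ℕ) (hk : k1 + k2 ≤ n)
    (T : ℕ → V) : ∑ j ∈ Finset.range n, gg n k1 k2 j • T j =
      (1 / (Real.sqrt n * k2)) • ∑ a ∈ Finset.range k2, ∑ b ∈ Finset.range k1, T (a + b) := by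
  have h1 : ∀ j, gg n k1 k2 j • T j = (1 / (Real.sqrt n * k2)) •
      ∑ a ∈ Finset.range k2, ∑ b ∈ Finset.range k1, (if a + b = j then T j else 0) := by
    intro j
    unfold gg
    rw [mul_smul, Finset.sum_smul]
    congr 1
    refine Finset.sum_congr rfl fun a _ => ?_
    rw [Finset.sum_smul]
    refine Finset.sum_congr rfl fun b _ => ?_
    split_ifs <;> simp
  simp only [h1]
  rw [← Finset.smul_sum, Finset.sum_comm]
  congr 1
  refine Finset.sum_congr rfl fun a ha => ?_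
  rw [Finset.sum_comm]
  refine Finset.sum_congr rfl fun b hb => ?_
  have ha' := Finset.mem_range.1 ha
  have hb' := Finset.mem_range.1 hb
  rw [Finset.sum_ite_eq, if_pos (Finset.mem_range.2 (by omega))]

theorem gg_sum1 (n k1 k2 : ℕ) (hn : 0 < n) (hk : k1 + k2 ≤ n) (hk2 : 0 < k2) :
    ∑ j ∈ Finset.range n, gg n k1 k2 j = (k1 : ℝ) / Real.sqrt n := by
  have h := gg_sum n k1 k2 hk fun _ => (1 : ℝ)
  simp only [smul_eq_mul, mul_one, Finset.sum_const, Finset.card_range, nsmul_eq_mul] at h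
  rw [h]
  have hn' : 0 < Real.sqrt n := Real.sqrt_pos.2 (Nat.cast_pos.2 hn)
  have hk' : (0 : ℝ) < k2 := Nat.cast_pos.2 hk2
  field_simp

theorem gg_sum2 (n k1 k2 : ℕ) (hn : 0 < n) (hk : k1 + k2 ≤ n) (hk2 : 0 < k2) :
    ∑ j ∈ Finset.range n, gg n k1 k2 j ^ 2 ≤ (k1 : ℝ) / n := by
  have hn' : 0 < Real.sqrt n := Real.sqrt_pos.2 (Nat.cast_pos.2 hn)
  have hn2 : Real.sqrt n * Real.sqrt n = n := Real.mul_self_sqrt (Nat.cast_nonneg _)
  calc ∑ j ∈ Finset.range n, gg n k1 k2 j ^ 2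
      ≤ ∑ j ∈ Finset.range n, (1 / Real.sqrt n) * gg n k1 k2 j := by
        refine Finset.sum_le_sum fun j _ => ?_
        rw [sq]
        exact mul_le_mul_of_nonneg_right (gg_le n k1 k2 j hn hk2) (gg_nonneg n k1 k2 j)
    _ = (1 / Real.sqrt n) * (k1 / Real.sqrt n) := by rw [← Finset.mul_sum, gg_sum1 n k1 k2 hn hk hk2]
    _ = (k1 : ℝ) / n := by
        rw [div_mul_div_comm, hn2, one_mul]

theorem gg_flat (n k1 k2 : ℕ) (hn : 0 < n) (hk : k1 + k2 = n) (hk2 : 0 < k2) :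
    ∑ j ∈ Finset.range n, (1 / Real.sqrt n - gg n k1 k2 j) ^ 2 ≤ (k2 : ℝ) / n := by
  have hn' : 0 < Real.sqrt n := Real.sqrt_pos.2 (Nat.cast_pos.2 hn)
  have hn0 : (0 : ℝ) < n := Nat.cast_pos.2 hn
  have hn2 : Real.sqrt n * Real.sqrt n = n := Real.mul_self_sqrt (Nat.cast_nonneg _)
  have h1 : ∑ j ∈ Finset.range n, (1 / Real.sqrt n - gg n k1 k2 j) ^ 2 =
      n * (1 / Real.sqrt n) ^ 2 - 2 * (1 / Real.sqrt n) * ∑ j ∈ Finset.range n, gg n k1 k2 j +
        ∑ j ∈ Finset.range n, gg n k1 k2 j ^ 2 := by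
    rw [Finset.mul_sum]
    have h2 : (n : ℝ) * (1 / Real.sqrt n) ^ 2 =
        ∑ _j ∈ Finset.range n, (1 / Real.sqrt n) ^ 2 := by
      rw [Finset.sum_const, Finset.card_range, nsmul_eq_mul]
    rw [h2, ← Finset.sum_sub_distrib, ← Finset.sum_add_distrib]
    exact Finset.sum_congr rfl fun j _ => by ring
  rw [h1, gg_sum1 n k1 k2 hn hk.le hk2]
  have h3 := gg_sum2 n k1 k2 hn hk.le hk2
  have h4 : (n : ℝ) * (1 / Real.sqrt n) ^ 2 = 1 := by
    rw [div_pow, sq (Real.sqrt n), hn2]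
    field_simp
  have h5 : 2 * (1 / Real.sqrt n) * (k1 / Real.sqrt n) = 2 * (k1 / n) := by
    rw [mul_assoc, div_mul_div_comm, hn2, one_mul]
  rw [h4, h5]
  have h6 : (k1 : ℝ) + k2 = n := by exact_mod_cast hk
  have h7 : (k1 : ℝ) / n + k2 / n = 1 := by rw [← add_div, h6, div_self hn0.ne']
  linarith

end

end Pool.Agent.H75.BC.Ex
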