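import Pool.Agent.H75.BC.T.Ex4

/-!
S_Ex, part 5: the operators `X_n` and the main estimate (helper20).
-/

set_option autoImplicit false

open MeasureTheory Filter Topology Complex
open scoped InnerProductSpace ENNReal

namespace Pool.Agent.H75.BC.Ex

open Pool.Agent.W662.CB Pool.Agent.H75.BC

noncomputable section

variable {H : Type} [NormedAddCommGroup H] [InnerProductSpace ℂ H] [CompleteSpace H]
  {K : Type} [NormedAddCommGroup K] [InnerProductSpace ℂ K] [CompleteSpace K]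
  {M N : VonNeumannAlgebra H} {ξ : H} {U : ℝ → H →L[ℂ] H} {J0 : H → H}
  {ρ : (H →L[ℂ] H) → (H →L[ℂ] H)} {κ : (H →L[ℂ] H) →⋆ₐ[ℂ] (K →L[ℂ] K)} {e S : ℝ → K →L[ℂ] K}
  {W : K →L[ℂ] K} {J : ℝ → H →L[ℂ] K} {E : ℝ → ℂ → K →L[ℂ] K} {A : VonNeumannAlgebra K}

/-- index of the `p`-th box -/
def ix {n : ℕ} (p : Fin n) : ℤ := -(((p : ℕ) : ℤ) + 1)

theorem ix_inj {n : ℕ} : Function.Injective (ix : Fin n → ℤ) := by
  intro a b h
  unfold ix at h
  apply Fin.ext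
  omega

/-- `λ_p^{1/2}` -/
def lm {n : ℕ} (p : Fin n) : ℝ := Real.exp (Real.pi * ((ix p : ℝ) * (1 / n)))

theorem lm_pos {n : ℕ} (p : Fin n) : 0 < lm p := Real.exp_pos _

theorem ix_le {n : ℕ} (p : Fin n) : (ix p : ℝ) * (1 / n) ≤ 0 := by
  refine mul_nonpos_of_nonpos_of_nonneg ?_ (by positivity)
  have : ix p ≤ 0 := by unfold ix; omega
  exact_mod_cast this

theorem lm_le {n : ℕ} (p : Fin n) : lm p ≤ 1 :=
  Real.exp_le_one_iff.2 (mul_nonpos_of_nonneg_of_nonpos Real.pi_pos.le (ix_le p))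

/-- the operator `X_n = ∑_p κ(y_p) 1_{box p}` -/
def Xn (κ : (H →L[ℂ] H) →⋆ₐ[ℂ] (K →L[ℂ] K)) (S : ℝ → K →L[ℂ] K) (E : ℝ → ℂ → K →L[ℂ] K) (n : ℕ)
    (y : Fin n → H →L[ℂ] H) : K →L[ℂ] K := ∑ p, κ (y p) * bz S E (1 / n) (ix p)

theorem sum_ap {ι V V' : Type} [NormedAddCommGroup V] [NormedSpace ℂ V] [NormedAddCommGroup V']
    [NormedSpace ℂ V'] (s : Finset ι) (T : ι → V →L[ℂ] V') (v : V) :
    (∑ i ∈ s, T i) v = ∑ i ∈ s, T i v := by
  simp

section fr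

variable (F : Frame U κ e S W J E)
include F

theorem Xn_jz {n : ℕ} (hn : 0 < n) (y : Fin n → H →L[ℂ] H) (j : Fin n) (v : H) :
    Xn κ S E n y (jz S J (1 / n) (ix j) v) = jz S J (1 / n) (ix j) (y j v) := by
  have hr : (0 : ℝ) < 1 / n := by positivity
  have hB := bz_OP F hr
  unfold Xn
  rw [sum_ap, Finset.sum_eq_single j]
  · show κ (y j) (bz S E (1 / n) (ix j) (jz S J (1 / n) (ix j) v)) = _
    rw [bz_jz F hr, κ_jz F hr]
  · intro p _ hp
    have h1 : bz S E (1 / n) (ix p) (jz S J (1 / n) (ix j) v) = 0 := by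
      rw [← bz_jz F hr (ix j) v]
      exact FB.ap (hB.1 _ _ fun hc => hp (ix_inj hc)) _
    show κ (y p) (bz S E (1 / n) (ix p) (jz S J (1 / n) (ix j) v)) = 0
    rw [h1, map_zero]
  · intro h
    exact absurd (Finset.mem_univ _) h

theorem Xn_adj {n : ℕ} (hn : 0 < n) (y : Fin n → H →L[ℂ] H) (p : Fin n) (u : K) :
    ContinuousLinearMap.adjoint (jz S J (1 / n) (ix p)) (Xn κ S E n y u) =
      y p (ContinuousLinearMap.adjoint (jz S J (1 / n) (ix p)) u) := by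
  have hr : (0 : ℝ) < 1 / n := by positivity
  have hB := bz_OP F hr
  have hb : ∀ (q : Fin n) (w : K), ContinuousLinearMap.adjoint (jz S J (1 / n) (ix p))
      (bz S E (1 / n) (ix q) w) = if q = p then
        ContinuousLinearMap.adjoint (jz S J (1 / n) (ix p)) w else 0 := by
    intro q w
    refine ext_inner_left ℂ fun u => ?_
    rw [ContinuousLinearMap.adjoint_inner_right, ← ContinuousLinearMap.adjoint_inner_left (bz _ _ _ _),
      ← ContinuousLinearMap.star_eq_adjoint, hB.2.2]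
    by_cases h : q = p
    · rw [if_pos h, h, bz_jz F hr, ContinuousLinearMap.adjoint_inner_right]
    · rw [if_neg h, inner_zero_right]
      have h1 : bz S E (1 / n) (ix q) (jz S J (1 / n) (ix p) u) = 0 := by
        rw [← bz_jz F hr (ix p) u]
        exact FB.ap (hB.1 _ _ fun hc => h (ix_inj hc)) _
      rw [h1, inner_zero_left]
  unfold Xn
  rw [sum_ap, map_sum]
  have h2 : ∀ q : Fin n, ContinuousLinearMap.adjoint (jz S J (1 / n) (ix p))
      ((κ (y q) * bz S E (1 / n) (ix q)) u) = if q = p then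
        y p (ContinuousLinearMap.adjoint (jz S J (1 / n) (ix p)) u) else 0 := by
    intro q
    have h3 : (κ (y q) * bz S E (1 / n) (ix q)) u = κ (y q) (bz S E (1 / n) (ix q) u) := rfl
    rw [h3, κ_jz_adj F hr, hb]
    by_cases h : q = p
    · rw [if_pos h, if_pos h, h]
    · rw [if_neg h, if_neg h, map_zero]
  rw [Finset.sum_congr rfl fun q _ => h2 q, Finset.sum_ite_eq' Finset.univ p,
    if_pos (Finset.mem_univ _)]

theorem κ_norm (y : H →L[ℂ] H) : ‖κ y‖ ≤ ‖y‖ := by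
  exact NonUnitalStarAlgHom.norm_apply_le κ y

theorem Xn_norm {n : ℕ} (hn : 0 < n) (y : Fin n → H →L[ℂ] H) (C : ℝ) (hC : 0 ≤ C)
    (hy : ∀ p, ‖y p‖ ≤ C) : ‖Xn κ S E n y‖ ≤ C := by
  have hr : (0 : ℝ) < 1 / n := by positivity
  have hB := bz_OP F hr
  have hB' : OP fun p : Fin n => bz S E (1 / n) (ix p) :=
    ⟨fun a c hac => hB.1 _ _ fun hc => hac (ix_inj hc), fun a => hB.2.1 _, fun a => hB.2.2 _⟩
  exact hB'.block Finset.univ (fun p => κ (y p)) C hC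
    (fun p _ => (κ_norm F _).trans (hy p)) fun p _ => FB.κ_bx F hr _ _

theorem Xn_e {n : ℕ} (hn : 0 < n) (y : Fin n → H →L[ℂ] H) (t : ℝ) :
    Xn κ S E n y * e t = e t * Xn κ S E n y := by
  have hr : (0 : ℝ) < 1 / n := by positivity
  unfold Xn
  rw [Finset.sum_mul, Finset.mul_sum]
  refine Finset.sum_congr rfl fun p _ => ?_
  have h1 : bz S E (1 / n) (ix p) * e t = e t * bz S E (1 / n) (ix p) := by
    unfold bz bx
    have hs : ∀ q : ℝ, S q * e t = Complex.exp (-(2 * Real.pi * I * t * q)) • (e t * S q) :=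
      fun q => FB.S_e F t q
    calc S ((ix p : ℝ) * (1 / n)) * E (1 / n) 0 * S (-((ix p : ℝ) * (1 / n))) * e t
        = S ((ix p : ℝ) * (1 / n)) * E (1 / n) 0 * (S (-((ix p : ℝ) * (1 / n))) * e t) := by
          simp only [mul_assoc]
      _ = Complex.exp (-(2 * Real.pi * I * t * ((-((ix p : ℝ) * (1 / n)) : ℝ) : ℂ))) •
          (S ((ix p : ℝ) * (1 / n)) * (E (1 / n) 0 * e t) * S (-((ix p : ℝ) * (1 / n)))) := by
          rw [hs, mul_smul_comm]; simp only [mul_assoc]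
      _ = Complex.exp (-(2 * Real.pi * I * t * ((-((ix p : ℝ) * (1 / n)) : ℝ) : ℂ))) •
          ((S ((ix p : ℝ) * (1 / n)) * e t) * E (1 / n) 0 * S (-((ix p : ℝ) * (1 / n)))) := by
          rw [← FB.e_E F hr]; simp only [mul_assoc]
      _ = _ := by
          rw [hs, smul_mul_assoc, smul_mul_assoc, smul_smul, ← Complex.exp_add]
          have h4 : -(2 * (Real.pi : ℂ) * I * t * ((-((ix p : ℝ) * (1 / n)) : ℝ) : ℂ)) +
              -(2 * Real.pi * I * t * (((ix p : ℝ) * (1 / n) : ℝ) : ℂ)) = 0 := by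
            push_cast; ring
          rw [h4, Complex.exp_zero, one_smul]
          simp only [mul_assoc]
  rw [mul_assoc, h1, ← mul_assoc, F.κ_e, mul_assoc]

theorem Xn_κ {n : ℕ} (hn : 0 < n) (y : Fin n → H →L[ℂ] H) (y' : H →L[ℂ] H)
    (h : ∀ p, y p * y' = y' * y p) : Xn κ S E n y * κ y' = κ y' * Xn κ S E n y := by
  have hr : (0 : ℝ) < 1 / n := by positivity
  unfold Xn
  rw [Finset.sum_mul, Finset.mul_sum]
  refine Finset.sum_congr rfl fun p _ => ?_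
  have h1 : κ y' * bz S E (1 / n) (ix p) = bz S E (1 / n) (ix p) * κ y' := FB.κ_bx F hr _ _
  rw [mul_assoc, ← h1, ← mul_assoc, ← map_mul, h, map_mul, mul_assoc]

theorem Xn_bx {n : ℕ} (hn : 0 < n) (y : Fin n → H →L[ℂ] H) :
    bx S E (-1) 1 * Xn κ S E n y = Xn κ S E n y ∧ Xn κ S E n y * bx S E (-1) 1 = Xn κ S E n y := by
  have hr : (0 : ℝ) < 1 / n := by positivity
  have hB := bz_OP F hr
  have h0 : bx S E (-1) 1 = ∑ p : Fin n, bz S E (1 / n) (ix p) := by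
    rw [bx_split F 1 n one_pos hn, ← Fin.sum_univ_eq_sum_range]
    rfl
  have h1 : ∀ p : Fin n, bx S E (-1) 1 * bz S E (1 / n) (ix p) = bz S E (1 / n) (ix p) := by
    intro p
    rw [h0, Finset.sum_mul, Finset.sum_eq_single p]
    · exact hB.2.1 _
    · intro q _ hq
      exact hB.1 _ _ fun hc => hq (ix_inj hc)
    · intro h
      exact absurd (Finset.mem_univ _) h
  have h2 : ∀ p : Fin n, bz S E (1 / n) (ix p) * bx S E (-1) 1 = bz S E (1 / n) (ix p) := by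
    intro p
    rw [h0, Finset.mul_sum, Finset.sum_eq_single p]
    · exact hB.2.1 _
    · intro q _ hq
      exact hB.1 _ _ fun hc => hq (ix_inj hc).symm
    · intro h
      exact absurd (Finset.mem_univ _) h
  constructor
  · unfold Xn
    rw [Finset.mul_sum]
    refine Finset.sum_congr rfl fun p _ => ?_
    rw [← mul_assoc, ← FB.κ_bx F one_pos, mul_assoc, h1]
  · unfold Xn
    rw [Finset.sum_mul]
    refine Finset.sum_congr rfl fun p _ => ?_
    rw [mul_assoc, h2]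

end fr

/-- the column data -/
def ColD (N : VonNeumannAlgebra H) (ξ : H) (ρ : (H →L[ℂ] H) → (H →L[ℂ] H)) (x : H →L[ℂ] H) (n : ℕ)
    (η : ℝ) (y : Fin n → H →L[ℂ] H) : Prop :=
  ∃ (k : Fin n → ℕ) (c : (p : Fin n) → Fin (k p) → H →L[ℂ] H), (∀ p i, c p i ∈ N) ∧
    (∀ p, ∑ i, star (c p i) * c p i = 1) ∧
    (∀ p (v : H), ∑ i, ‖star (c p i) v‖ ^ 2 ≤ 2 * ‖v‖ ^ 2) ∧
    (∀ p, ∑ i, ‖ρ (c p i) ξ - ((lm p : ℝ) : ℂ) • c p i ξ‖ ^ 2 ≤ η ^ 2) ∧
    ∀ p, y p = ∑ i, star (c p i) * x * c p i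

/-- columns are contractive -/
theorem col_norm {k : ℕ} (c : Fin k → H →L[ℂ] H) (hc : ∑ i, star (c i) * c i = 1) (x : H →L[ℂ] H) :
    ‖∑ i, star (c i) * x * c i‖ ≤ ‖x‖ := by
  have h0 : ∀ v : H, ∑ i, ‖c i v‖ ^ 2 = ‖v‖ ^ 2 := by
    intro v
    have h1 : ((∑ i, ‖c i v‖ ^ 2 : ℝ) : ℂ) = ((‖v‖ ^ 2 : ℝ) : ℂ) := by
      have h2 : ⟪v, (∑ i, star (c i) * c i) v⟫_ℂ = ((‖v‖ ^ 2 : ℝ) : ℂ) := by
        rw [hc, ContinuousLinearMap.one_apply, inner_self_eq_norm_sq_to_K]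
        push_cast
        rfl
      rw [← h2, sum_ap, inner_sum]
      push_cast
      refine Finset.sum_congr rfl fun i _ => ?_
      show _ = ⟪v, star (c i) (c i v)⟫_ℂ
      rw [ContinuousLinearMap.star_eq_adjoint, ContinuousLinearMap.adjoint_inner_right,
        inner_self_eq_norm_sq_to_K]
      rfl
    exact_mod_cast h1
  refine ContinuousLinearMap.opNorm_le_bound _ (norm_nonneg _) fun v => ?_
  set z : H := (∑ i, star (c i) * x * c i) v with hz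
  have h1 : z = ∑ i, star (c i) (x (c i v)) := by rw [hz, sum_ap]; rfl
  have h2 : ‖z‖ ^ 2 ≤ ∑ i, ‖x (c i v)‖ * ‖c i z‖ := by
    have h3 : ((‖z‖ ^ 2 : ℝ) : ℂ) = ∑ i, ⟪c i z, x (c i v)⟫_ℂ := by
      have h4 : ⟪z, z⟫_ℂ = ((‖z‖ ^ 2 : ℝ) : ℂ) := by
        rw [inner_self_eq_norm_sq_to_K]
        push_cast
        rfl
      rw [← h4]
      conv_lhs => rw [h1]
      rw [inner_sum]
      have h5 : ∀ i, ⟪∑ i, star (c i) (x (c i v)), star (c i) (x (c i v))⟫_ℂ =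
          ⟪c i z, x (c i v)⟫_ℂ := by
        intro i
        rw [← h1, ContinuousLinearMap.star_eq_adjoint, ContinuousLinearMap.adjoint_inner_right]
      exact Finset.sum_congr rfl fun i _ => h5 i
    have h6 : ‖z‖ ^ 2 = ‖((‖z‖ ^ 2 : ℝ) : ℂ)‖ := by
      rw [Complex.norm_real, Real.norm_eq_abs, abs_of_nonneg (sq_nonneg _)]
    rw [h6, h3]
    refine (norm_sum_le _ _).trans (Finset.sum_le_sum fun i _ => ?_)
    rw [mul_comm]
    exact norm_inner_le_norm _ _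
  have h3 : (∑ i, ‖x (c i v)‖ * ‖c i z‖) ^ 2 ≤ (‖x‖ ^ 2 * ‖v‖ ^ 2) * ‖z‖ ^ 2 := by
    refine (Finset.sum_mul_sq_le_sq_mul_sq Finset.univ _ _).trans ?_
    rw [h0 z]
    refine mul_le_mul_of_nonneg_right ?_ (sq_nonneg _)
    rw [← h0 v, Finset.mul_sum]
    refine Finset.sum_le_sum fun i _ => ?_
    rw [← mul_pow]
    exact pow_le_pow_left₀ (norm_nonneg _) (ContinuousLinearMap.le_opNorm _ _) 2
  have h4 : ‖z‖ ^ 2 ≤ ‖x‖ * ‖v‖ * ‖z‖ := by
    refine h2.trans ?_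
    have h5 : (∑ i, ‖x (c i v)‖ * ‖c i z‖) ^ 2 ≤ (‖x‖ * ‖v‖ * ‖z‖) ^ 2 := by
      rw [mul_pow, mul_pow]
      exact h3
    exact (sq_le_sq₀ (Finset.sum_nonneg fun i _ => mul_nonneg (norm_nonneg _) (norm_nonneg _))
      (by positivity)).1 h5
  by_contra hcon
  have h5 : ‖x‖ * ‖v‖ < ‖z‖ := not_le.1 hcon
  have h6 : 0 < ‖z‖ := lt_of_le_of_lt (by positivity) h5
  nlinarith

theorem ColD.norm_le {x : H →L[ℂ] H} {n : ℕ} {η : ℝ} {y : Fin n → H →L[ℂ] H}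
    (h : ColD N ξ ρ x n η y) (p : Fin n) : ‖y p‖ ≤ ‖x‖ := by
  obtain ⟨k, c, _, h2, _, _, h5⟩ := h
  rw [h5]
  exact col_norm _ (h2 p) x

theorem ColD.mem {x : H →L[ℂ] H} {n : ℕ} {η : ℝ} {y : Fin n → H →L[ℂ] H}
    (h : ColD N ξ ρ x n η y) (hx : x ∈ M) (hNM : ∀ a : H →L[ℂ] H, a ∈ N → a ∈ M) (p : Fin n) :
    y p ∈ M := by
  obtain ⟨k, c, h1, _, _, _, h5⟩ := h
  rw [h5]
  exact sum_mem fun i _ => mul_mem (mul_mem (star_mem (hNM _ (h1 p i))) hx) (hNM _ (h1 p i))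

end

end Pool.Agent.H75.BC.Ex
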