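import Pool.Agent.H75.BC.T.Ex5

/-!
S_Ex, part 6: the main estimate (helper20).
-/

set_option autoImplicit false

open MeasureTheory Filter Topology Complex
open scoped InnerProductSpace ENNReal

namespace Pool.Agent.H75.BC.Ex

open Pool.Agent.W662.CB Pool.Agent.H75.BC

noncomputable section

variable {H : Type} [NormedAddCommGroup H] [InnerProductSpace ℂ H] [CompleteSpace H]
  {K : Type} [NormedAddCommGroup K] [InnerProductSpace ℂ K] [CompleteSpace K]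
  {M N : VonNeumannAlgebra H} {ξ : H} {U : ℝ → H →L[ℂ] H} {J0 : H → H}
  {ρ : (H →L[ℂ] H) → (H →L[ℂ] H)} {κ : (H →L[ℂ] H) →⋆ₐ[ℂ] (K →L[ℂ] K)} {e S : ℝ → K →L[ℂ] K}
  {W : K →L[ℂ] K} {J : ℝ → H →L[ℂ] K} {E : ℝ → ℂ → K →L[ℂ] K} {A : VonNeumannAlgebra K}

/-- `√(k₁/(n k₂))`-bound for the rows -/
theorem row_le (F : Frame U κ e S W J E) {n k1 k2 : ℕ} (hn : 0 < n) (hk : k1 + k2 = n)
    (hk2 : 0 < k2) {P : K →L[ℂ] K} (hP1 : ‖P‖ ≤ 1) (hPS : ∀ t : ℝ, S t * P = P * S t) (p : Fin n) :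
    ‖∑ j : Fin n, ((gg n k1 k2 j : ℝ) : ℂ) • Ym S J (1 / n) P (ix p) (ix j)‖ ^ 2 ≤ 1 / k2 := by
  have hr : (0 : ℝ) < 1 / n := by positivity
  have hn0 : (0 : ℝ) < n := Nat.cast_pos.2 hn
  have hn' : 0 < Real.sqrt n := Real.sqrt_pos.2 hn0
  have hn2 : Real.sqrt n ^ 2 = n := Real.sq_sqrt hn0.le
  have hk' : (0 : ℝ) < k2 := Nat.cast_pos.2 hk2
  have h1 : ∑ j : Fin n, ((gg n k1 k2 j : ℝ) : ℂ) • Ym S J (1 / n) P (ix p) (ix j) =
      (1 / (Real.sqrt n * k2)) • ∑ a ∈ Finset.range k2, ∑ b ∈ Finset.range k1,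
        Ym S J (1 / n) P (ix p) (-(((a + b : ℕ) : ℤ) + 1)) := by
    rw [← gg_sum n k1 k2 hk.le fun j => Ym S J (1 / n) P (ix p) (-((j : ℤ) + 1)),
      ← Fin.sum_univ_eq_sum_range fun j => gg n k1 k2 j • Ym S J (1 / n) P (ix p) (-((j : ℤ) + 1))]
    refine Finset.sum_congr rfl fun j _ => ?_
    rw [Complex.coe_smul]
    rfl
  rw [h1, norm_smul, mul_pow]
  have h2 := Ym_row F hr hP1 hPS k1 k2 (ix p)
  have h3 : ‖(1 / (Real.sqrt n * k2) : ℝ)‖ = 1 / (Real.sqrt n * k2) := by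
    rw [Real.norm_eq_abs, abs_of_nonneg (by positivity)]
  rw [h3]
  have h4 : ‖∑ a ∈ Finset.range k2, ∑ b ∈ Finset.range k1,
      Ym S J (1 / n) P (ix p) (-(((a + b : ℕ) : ℤ) + 1))‖ ^ 2 ≤ k2 * k1 := by
    refine (pow_le_pow_left₀ (norm_nonneg _) h2 2).trans (le_of_eq ?_)
    rw [mul_pow, Real.sq_sqrt (Nat.cast_nonneg _), Real.sq_sqrt (Nat.cast_nonneg _)]
  have h5 : (k1 : ℝ) ≤ n := by
    have : k1 ≤ n := by omega
    exact_mod_cast this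
  calc (1 / (Real.sqrt n * k2)) ^ 2 * ‖∑ a ∈ Finset.range k2, ∑ b ∈ Finset.range k1,
        Ym S J (1 / n) P (ix p) (-(((a + b : ℕ) : ℤ) + 1))‖ ^ 2
      ≤ (1 / (Real.sqrt n * k2)) ^ 2 * (k2 * n) :=
        mul_le_mul_of_nonneg_left (h4.trans (mul_le_mul_of_nonneg_left h5 hk'.le)) (by positivity)
    _ = 1 / k2 := by
        rw [div_pow, mul_pow, hn2]
        field_simp

/-- the flat vector -/
def Ff (S : ℝ → K →L[ℂ] K) (J : ℝ → H →L[ℂ] K) (ξ : H) (n : ℕ) : K :=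
  ∑ j : Fin n, ((lm j * (1 / Real.sqrt n) : ℝ) : ℂ) • jz S J (1 / n) (ix j) ξ

/-- the flat projection -/
def Qn (S : ℝ → K →L[ℂ] K) (J : ℝ → H →L[ℂ] K) (n : ℕ) (v : K) : K :=
  ∑ p : Fin n, jz S J (1 / n) (ix p) (ContinuousLinearMap.adjoint (jz S J (1 / n) (ix p)) v)

/-- the bound -/
def bd (n k2 : ℕ) (C ε η τ X : ℝ) : ℝ :=
  Real.sqrt n * C * Real.sqrt (3 * ((n + 1) * η ^ 2 + τ ^ 2)) + (2 * ε + X * η) +
    X * Real.sqrt n * τ + Real.sqrt (n / k2) * (2 * ε + X * η)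

theorem est (hFin : S_Fin) (hSl : S_Sl) (D : CoreD M N ξ U κ e S W J E A) (R : RAct M ξ U J0 ρ)
    {x : H →L[ℂ] H} (hx : x ∈ M) {ζ : H} {ε C : ℝ} (hC : 0 ≤ C) (hζ : ‖ζ - x ξ‖ ≤ ε)
    (hL : Lip N ξ ρ C ζ) {n k1 k2 : ℕ} (hn : 0 < n) (hk : k1 + k2 = n) (hk2 : 0 < k2) {η : ℝ}
    (hη : 0 ≤ η) {y : Fin n → H →L[ℂ] H} (hy : ColD N ξ ρ x n η y) {P : K →L[ℂ] K} (hP : P ∈ A)
    (hP1 : ‖P‖ ≤ 1) (hPS : ∀ t : ℝ, S t * P = P * S t) {δ : ℝ}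
    (hδ : Real.exp (Real.pi * (1 / n)) - 1 ≤ δ) (v : K) :
    ‖⟪v, (P * Xn κ S E n y - Xn κ S E n y * P) (Ff S J ξ n)⟫_ℂ‖ ≤
      ‖v‖ * (bd n k2 C ε η (δ * (2 + δ)) ‖x‖ + 2 * ‖x‖ * Real.sqrt (k2 / n)) +
        2 * ‖x‖ * ‖v - Qn S J n v‖ := by
  have F := D.fr
  have hr : (0 : ℝ) < 1 / n := by positivity
  have hn0 : (0 : ℝ) < n := Nat.cast_pos.2 hn
  have hn' : 0 < Real.sqrt n := Real.sqrt_pos.2 hn0
  have hk' : (0 : ℝ) < k2 := Nat.cast_pos.2 hk2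
  have hδ0 : 0 ≤ δ := by
    refine le_trans ?_ hδ
    have := Real.add_one_le_exp (Real.pi * (1 / (n : ℝ)))
    have h0 : 0 ≤ Real.pi * (1 / (n : ℝ)) := mul_nonneg Real.pi_pos.le hr.le
    linarith
  have hε : 0 ≤ ε := (norm_nonneg _).trans hζ
  have hO := (jz_OI F hr).comp (ix : Fin n → ℤ) ix_inj
  set X := Xn κ S E n y with hX
  have hXn : ‖X‖ ≤ ‖x‖ := Xn_norm F hn y _ (norm_nonneg _) fun p => hy.norm_le p
  set g : Fin n → ℝ := fun j => gg n k1 k2 j with hg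
  set Y : Fin n → Fin n → H →L[ℂ] H := fun p j => Ym S J (1 / n) P (ix p) (ix j) with hY
  set T : Fin n → H := fun p =>
    ∑ j, ((lm j * g j : ℝ) : ℂ) • (Y p j (y j ξ) - y p (Y p j ξ)) with hT
  set τ : ℝ := δ * (2 + δ) with hτ
  have hτ0 : 0 ≤ τ := by positivity
  set β : ℝ := Real.sqrt (n / k2) with hβ
  -- sums of the weights
  have g0 : ∀ j, 0 ≤ g j := fun j => gg_nonneg _ _ _ _
  have g1 : ∑ j, g j = k1 / Real.sqrt n := by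
    rw [← gg_sum1 n k1 k2 hn hk.le hk2, ← Fin.sum_univ_eq_sum_range]
  have g1' : ∑ j, |g j| ≤ Real.sqrt n := by
    have h1 : ∑ j, |g j| = ∑ j, g j := Finset.sum_congr rfl fun j _ => abs_of_nonneg (g0 j)
    rw [h1, g1, div_le_iff₀ hn', Real.mul_self_sqrt hn0.le]
    have : k1 ≤ n := by omega
    exact_mod_cast this
  have g2 : ∑ j, g j ^ 2 ≤ 1 := by
    have h1 := gg_sum2 n k1 k2 hn hk.le hk2
    rw [← Fin.sum_univ_eq_sum_range (fun j => gg n k1 k2 j ^ 2)] at h1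
    refine h1.trans ((div_le_one hn0).2 ?_)
    have : k1 ≤ n := by omega
    exact_mod_cast this
  have g3 : ∑ j : Fin n, (1 / Real.sqrt n - g j) ^ 2 ≤ (k2 : ℝ) / n := by
    have h1 := gg_flat n k1 k2 hn hk hk2
    rwa [← Fin.sum_univ_eq_sum_range (fun j => (1 / Real.sqrt n - gg n k1 k2 j) ^ 2)] at h1
  -- the estimate for `T`
  have hTb : Real.sqrt (∑ p, ‖T p‖ ^ 2) ≤ bd n k2 C ε η τ ‖x‖ := by
    obtain ⟨k, c, hc1, hc2, hc3, hc4, hc5⟩ := hy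
    have h1 := hFin H M N ξ U J0 ρ D.std R x hx ζ ε C hC hζ hL n k c (fun p => lm p) η hη
      (fun p => ⟨lm_pos p, lm_le p⟩) hc1 hc2 hc3 hc4 Y (fun p j => Ym_mem D hr hP _ _)
      (fun w => Ym_contr F hr hP1 ix ix_inj w) τ β hτ0 (Real.sqrt_nonneg _)
      (fun j => Ym_tau hSl D R hr hP hP1 ix ix_inj D.std.unit j (by unfold ix; omega) δ hδ) g ?_
    · simp only [← hc5] at h1
      refine h1.trans ?_
      unfold bd
      have hs : Real.sqrt (∑ j, g j ^ 2) ≤ 1 := by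
        rw [← Real.sqrt_one]
        exact Real.sqrt_le_sqrt g2
      have hc : 0 ≤ 2 * ε + ‖x‖ * η := by positivity
      have e1 : (∑ j, |g j|) * C * Real.sqrt (3 * ((n + 1) * η ^ 2 + τ ^ 2)) ≤
          Real.sqrt n * C * Real.sqrt (3 * ((n + 1) * η ^ 2 + τ ^ 2)) := by
        gcongr
      have e2 : (2 * ε + ‖x‖ * η) * Real.sqrt (∑ j, g j ^ 2) ≤ 2 * ε + ‖x‖ * η := by
        calc _ ≤ (2 * ε + ‖x‖ * η) * 1 := mul_le_mul_of_nonneg_left hs hc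
          _ = _ := mul_one _
      have e3 : ‖x‖ * (∑ j, |g j|) * τ ≤ ‖x‖ * Real.sqrt n * τ := by gcongr
      linarith
    · calc ∑ p, ‖∑ j, ((g j : ℝ) : ℂ) • Y p j‖ ^ 2 ≤ ∑ _p : Fin n, (1 / k2 : ℝ) :=
            Finset.sum_le_sum fun p _ => row_le F hn hk hk2 hP1 hPS p
        _ = β ^ 2 := by
            rw [Finset.sum_const, Finset.card_univ, Fintype.card_fin, nsmul_eq_mul, hβ,
              Real.sq_sqrt (by positivity)]
            ring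
  -- the vectors
  set Fg : K := ∑ j : Fin n, ((lm j * g j : ℝ) : ℂ) • jz S J (1 / n) (ix j) ξ with hFg
  have hFg1 : ‖Fg‖ ≤ 1 := by
    have h1 : Fg = ∑ j : Fin n, jz S J (1 / n) (ix j) (((lm j * g j : ℝ) : ℂ) • ξ) := by
      rw [hFg]
      exact Finset.sum_congr rfl fun j _ => by rw [map_smul]
    have h2 : ‖Fg‖ ^ 2 = ∑ j : Fin n, ‖((lm j * g j : ℝ) : ℂ) • ξ‖ ^ 2 := by
      rw [h1]
      exact hO.sum_sq Finset.univ _
    have h3 : ‖Fg‖ ^ 2 ≤ 1 := by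
      rw [h2]
      refine le_trans (Finset.sum_le_sum fun j _ => ?_) g2
      rw [norm_smul, D.std.unit, mul_one, Complex.norm_real, Real.norm_eq_abs, sq_abs, mul_pow]
      have h4 : lm j ^ 2 ≤ 1 := pow_le_one₀ (lm_pos j).le (lm_le j)
      calc lm j ^ 2 * g j ^ 2 ≤ 1 * g j ^ 2 := mul_le_mul_of_nonneg_right h4 (sq_nonneg _)
        _ = _ := one_mul _
    nlinarith [norm_nonneg Fg]
  have hFF : ‖Ff S J ξ n - Fg‖ ≤ Real.sqrt (k2 / n) := by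
    have h1 : Ff S J ξ n - Fg = ∑ j : Fin n, jz S J (1 / n) (ix j)
        (((lm j * (1 / Real.sqrt n - g j) : ℝ) : ℂ) • ξ) := by
      unfold Ff
      rw [hFg, ← Finset.sum_sub_distrib]
      refine Finset.sum_congr rfl fun j _ => ?_
      rw [map_smul, ← sub_smul]
      congr 1
      push_cast
      ring
    refine Real.le_sqrt_of_sq_le ?_
    rw [h1]
    have h2 : ‖∑ j : Fin n, jz S J (1 / n) (ix j)
        (((lm j * (1 / Real.sqrt n - g j) : ℝ) : ℂ) • ξ)‖ ^ 2 =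
        ∑ j : Fin n, ‖((lm j * (1 / Real.sqrt n - g j) : ℝ) : ℂ) • ξ‖ ^ 2 :=
      hO.sum_sq Finset.univ _
    rw [h2]
    refine le_trans (Finset.sum_le_sum fun j _ => ?_) g3
    rw [norm_smul, D.std.unit, mul_one, Complex.norm_real, Real.norm_eq_abs, sq_abs, mul_pow]
    have h4 : lm j ^ 2 ≤ 1 := pow_le_one₀ (lm_pos j).le (lm_le j)
    calc lm j ^ 2 * (1 / Real.sqrt n - g j) ^ 2 ≤ 1 * (1 / Real.sqrt n - g j) ^ 2 :=
          mul_le_mul_of_nonneg_right h4 (sq_nonneg _)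
      _ = _ := one_mul _
  set Z : K →L[ℂ] K := P * X - X * P with hZ
  have hZn : ∀ u : K, ‖Z u‖ ≤ 2 * ‖x‖ * ‖u‖ := by
    intro u
    have h1 : ‖P (X u)‖ ≤ ‖x‖ * ‖u‖ := by
      calc ‖P (X u)‖ ≤ ‖P‖ * ‖X u‖ := ContinuousLinearMap.le_opNorm _ _
        _ ≤ 1 * (‖x‖ * ‖u‖) := by
            refine mul_le_mul hP1 ?_ (norm_nonneg _) zero_le_one
            exact (ContinuousLinearMap.le_opNorm _ _).trans
              (mul_le_mul_of_nonneg_right hXn (norm_nonneg _))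
        _ = _ := one_mul _
    have h2 : ‖X (P u)‖ ≤ ‖x‖ * ‖u‖ := by
      calc ‖X (P u)‖ ≤ ‖X‖ * ‖P u‖ := ContinuousLinearMap.le_opNorm _ _
        _ ≤ ‖x‖ * (1 * ‖u‖) := by
            refine mul_le_mul hXn ?_ (norm_nonneg _) (norm_nonneg _)
            exact (ContinuousLinearMap.le_opNorm _ _).trans
              (mul_le_mul_of_nonneg_right hP1 (norm_nonneg _))
        _ = _ := by rw [one_mul]
    calc ‖Z u‖ = ‖P (X u) - X (P u)‖ := rfl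
      _ ≤ ‖P (X u)‖ + ‖X (P u)‖ := norm_sub_le _ _
      _ ≤ _ := by linarith
  -- components
  have hcomp : ∀ p, ContinuousLinearMap.adjoint (jz S J (1 / n) (ix p)) (Z Fg) = T p := by
    intro p
    rw [hFg, map_sum, map_sum]
    refine Finset.sum_congr rfl fun j _ => ?_
    rw [map_smul, map_smul]
    congr 1
    show ContinuousLinearMap.adjoint (jz S J (1 / n) (ix p))
      (P (X (jz S J (1 / n) (ix j) ξ)) - X (P (jz S J (1 / n) (ix j) ξ))) = _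
    rw [map_sub, hX, Xn_jz F hn, Xn_adj F hn]
    rfl
  have hthird : ‖⟪Qn S J n v, Z Fg⟫_ℂ‖ ≤ ‖v‖ * Real.sqrt (∑ p, ‖T p‖ ^ 2) := by
    unfold Qn
    rw [sum_inner]
    have h1 : ∀ p : Fin n, ⟪jz S J (1 / n) (ix p)
        (ContinuousLinearMap.adjoint (jz S J (1 / n) (ix p)) v), Z Fg⟫_ℂ =
        ⟪ContinuousLinearMap.adjoint (jz S J (1 / n) (ix p)) v, T p⟫_ℂ := by
      intro p
      rw [← ContinuousLinearMap.adjoint_inner_right, hcomp]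
    rw [Finset.sum_congr rfl fun p _ => h1 p]
    refine (norm_sum_le _ _).trans ?_
    refine (Finset.sum_le_sum fun p _ => norm_inner_le_norm _ _).trans ?_
    have h2 := Finset.sum_mul_sq_le_sq_mul_sq Finset.univ
      (fun p : Fin n => ‖ContinuousLinearMap.adjoint (jz S J (1 / n) (ix p)) v‖) fun p => ‖T p‖
    have h3 := hO.bessel Finset.univ v
    refine (sq_le_sq₀ (Finset.sum_nonneg fun p _ => mul_nonneg (norm_nonneg _) (norm_nonneg _))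
      (by positivity)).1 ?_
    rw [mul_pow, Real.sq_sqrt (Finset.sum_nonneg fun p _ => sq_nonneg _)]
    exact h2.trans (mul_le_mul_of_nonneg_right h3 (Finset.sum_nonneg fun p _ => sq_nonneg _))
  -- put together
  have hsplit : ⟪v, Z (Ff S J ξ n)⟫_ℂ =
      ⟪v, Z (Ff S J ξ n - Fg)⟫_ℂ + ⟪v - Qn S J n v, Z Fg⟫_ℂ + ⟪Qn S J n v, Z Fg⟫_ℂ := by
    rw [map_sub, inner_sub_right, inner_sub_left]
    ring
  rw [hsplit]
  have e1 : ‖⟪v, Z (Ff S J ξ n - Fg)⟫_ℂ‖ ≤ ‖v‖ * (2 * ‖x‖ * Real.sqrt (k2 / n)) := by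
    refine (norm_inner_le_norm _ _).trans (mul_le_mul_of_nonneg_left ?_ (norm_nonneg _))
    exact (hZn _).trans (mul_le_mul_of_nonneg_left hFF (by positivity))
  have e2 : ‖⟪v - Qn S J n v, Z Fg⟫_ℂ‖ ≤ 2 * ‖x‖ * ‖v - Qn S J n v‖ := by
    refine (norm_inner_le_norm _ _).trans ?_
    have h1 : ‖Z Fg‖ ≤ 2 * ‖x‖ := by
      refine (hZn _).trans ?_
      calc 2 * ‖x‖ * ‖Fg‖ ≤ 2 * ‖x‖ * 1 := mul_le_mul_of_nonneg_left hFg1 (by positivity)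
        _ = _ := mul_one _
    calc ‖v - Qn S J n v‖ * ‖Z Fg‖ ≤ ‖v - Qn S J n v‖ * (2 * ‖x‖) :=
          mul_le_mul_of_nonneg_left h1 (norm_nonneg _)
      _ = _ := by ring
  have e3 : ‖⟪Qn S J n v, Z Fg⟫_ℂ‖ ≤ ‖v‖ * bd n k2 C ε η τ ‖x‖ :=
    hthird.trans (mul_le_mul_of_nonneg_left hTb (norm_nonneg _))
  calc _ ≤ ‖⟪v, Z (Ff S J ξ n - Fg)⟫_ℂ + ⟪v - Qn S J n v, Z Fg⟫_ℂ‖ + ‖⟪Qn S J n v, Z Fg⟫_ℂ‖ :=
        norm_add_le _ _
    _ ≤ ‖⟪v, Z (Ff S J ξ n - Fg)⟫_ℂ‖ + ‖⟪v - Qn S J n v, Z Fg⟫_ℂ‖ + ‖⟪Qn S J n v, Z Fg⟫_ℂ‖ := by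
        gcongr
        exact norm_add_le _ _
    _ ≤ _ := by linarith

end

end Pool.Agent.H75.BC.Ex
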