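import Pool.Agent.H75.BC.T.Ex6

/-!
S_Ex, part 7: the limit of the main estimate (helper20).
-/

set_option autoImplicit false

open MeasureTheory Filter Topology Complex
open scoped InnerProductSpace ENNReal

namespace Pool.Agent.H75.BC.Ex

open Pool.Agent.W662.CB Pool.Agent.H75.BC

noncomputable section

variable {H : Type} [NormedAddCommGroup H] [InnerProductSpace ℂ H] [CompleteSpace H]
  {K : Type} [NormedAddCommGroup K] [InnerProductSpace ℂ K] [CompleteSpace K]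
  {M N : VonNeumannAlgebra H} {ξ : H} {U : ℝ → H →L[ℂ] H} {J0 : H → H}
  {ρ : (H →L[ℂ] H) → (H →L[ℂ] H)} {κ : (H →L[ℂ] H) →⋆ₐ[ℂ] (K →L[ℂ] K)} {e S : ℝ → K →L[ℂ] K}
  {W : K →L[ℂ] K} {J : ℝ → H →L[ℂ] K} {E : ℝ → ℂ → K →L[ℂ] K} {A : VonNeumannAlgebra K}

theorem exists_ColD (hCol : S_Col) (D : CoreD M N ξ U κ e S W J E A) (R : RAct M ξ U J0 ρ)
    (x : H →L[ℂ] H) (n : ℕ) {η : ℝ} (hη : 0 < η) : ∃ y, ColD N ξ ρ x n η y := by
  have h := fun p : Fin n =>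
    hCol H K M N ξ U J0 ρ κ e S W J E A D R ((ix p : ℝ) * (1 / n)) η (ix_le p) hη
  choose k c h1 h2 h3 h4 using h
  exact ⟨fun p => ∑ i, star (c p i) * x * c p i, k, c, h1, h2, h3, h4, fun p => rfl⟩

theorem Qn_eq (F : Frame U κ e S W J E) {n : ℕ} (hn : 0 < n) (v : K) : Qn S J n v =
    S (-1) (∑ k ∈ Finset.range n, S (k * (1 / n)) (J (1 / n)
      (ContinuousLinearMap.adjoint (J (1 / n)) (S (-(k * (1 / n))) (S 1 v))))) := by
  have hn0 : (0 : ℝ) < n := Nat.cast_pos.2 hn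
  rw [map_sum, ← Finset.sum_range_reflect]
  unfold Qn
  rw [← Fin.sum_univ_eq_sum_range (fun j => S (-1) (S (((n - 1 - j : ℕ) : ℝ) * (1 / n)) (J (1 / n)
      (ContinuousLinearMap.adjoint (J (1 / n)) (S (-(((n - 1 - j : ℕ) : ℝ) * (1 / n))) (S 1 v))))))]
  refine Finset.sum_congr rfl fun p _ => ?_
  have h2 : (p : ℕ) + 1 ≤ n := p.2
  have h3 : ((n - 1 - (p : ℕ) : ℕ) : ℝ) = (n : ℝ) - 1 - (p : ℕ) := by
    rw [Nat.cast_sub (by omega), Nat.cast_sub (by omega)]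
    simp
  have h4 : ∀ w : K, S (-1) (S (((n - 1 - (p : ℕ) : ℕ) : ℝ) * (1 / n)) w) =
      S ((ix p : ℝ) * (1 / n)) w := by
    intro w
    have h5 : S ((ix p : ℝ) * (1 / n)) = S (-1) * S (((n - 1 - (p : ℕ) : ℕ) : ℝ) * (1 / n)) := by
      rw [← F.S_add]
      congr 1
      rw [h3]
      unfold ix
      push_cast
      field_simp
      ring
    rw [h5]
    rfl
  have h5 : S (-(((n - 1 - (p : ℕ) : ℕ) : ℝ) * (1 / n))) (S 1 v) =
      S (-((ix p : ℝ) * (1 / n))) v := by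
    have h6 : S (-((ix p : ℝ) * (1 / n))) = S (-(((n - 1 - (p : ℕ) : ℕ) : ℝ) * (1 / n))) * S 1 := by
      rw [← F.S_add]
      congr 1
      rw [h3]
      unfold ix
      push_cast
      field_simp
      ring
    rw [h6]
    rfl
  rw [h4, h5, jz_adj F, jz_apply]

theorem Qn_tendsto (F : Frame U κ e S W J E) (v : K) (hv : bx S E (-1) 1 v = v) :
    Tendsto (fun m : ℕ => Qn S J (2 ^ m) v) atTop (𝓝 v) := by
  have h1 := F.flat 1 one_pos (S 1 v)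
  have h2 : Tendsto (fun n : ℕ => S (-1) (∑ k ∈ Finset.range (n + 1), S (k * (1 / (n + 1 : ℕ)))
      (J (1 / (n + 1 : ℕ)) (ContinuousLinearMap.adjoint (J (1 / (n + 1 : ℕ)))
        (S (-(k * (1 / (n + 1 : ℕ)))) (S 1 v)))))) atTop (𝓝 (S (-1) (E 1 0 (S 1 v)))) :=
    ((S (-1)).continuous.tendsto _).comp h1
  have h3 : S (-1) (E 1 0 (S 1 v)) = v := by
    have h4 : bx S E (-1) 1 v = S (-1) (E 1 0 (S (-(-1)) v)) := rfl
    rw [neg_neg] at h4
    rw [← h4, hv]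
  rw [h3] at h2
  have h4 : Tendsto (fun m : ℕ => 2 ^ m - 1) atTop atTop := by
    refine tendsto_atTop.2 fun b => ?_
    filter_upwards [eventually_ge_atTop b] with m hm
    have : m < 2 ^ m := Nat.lt_two_pow_self
    omega
  have h5 := h2.comp h4
  refine h5.congr fun m => ?_
  have h6 : 2 ^ m - 1 + 1 = 2 ^ m := Nat.sub_add_cancel Nat.one_le_two_pow
  show S (-1) (∑ k ∈ Finset.range (2 ^ m - 1 + 1), S (k * (1 / (2 ^ m - 1 + 1 : ℕ)))
      (J (1 / (2 ^ m - 1 + 1 : ℕ)) (ContinuousLinearMap.adjoint (J (1 / (2 ^ m - 1 + 1 : ℕ)))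
        (S (-(k * (1 / (2 ^ m - 1 + 1 : ℕ)))) (S 1 v))))) = _
  rw [h6, Qn_eq F (by positivity)]

/-- the vector `1_{[-1,0]} e^{π(w+1)} ⊗ ξ` -/
def Finf (S : ℝ → K →L[ℂ] K) (J : ℝ → H →L[ℂ] K) (E : ℝ → ℂ → K →L[ℂ] K) (ξ : H) : K :=
  S (-1) (E 1 (-(I / 2)) (J 1 ξ))

theorem Finf_near (F : Frame U κ e S W J E) (hξ : ‖ξ‖ = 1) {n : ℕ} (hn : 0 < n) {δ : ℝ}
    (hδ : Real.exp (Real.pi * (1 / n)) - 1 ≤ δ) :
    ‖Finf S J E ξ - ((Real.exp Real.pi : ℝ) : ℂ) • Ff S J ξ n‖ ≤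
      Real.exp Real.pi * (Real.sqrt n * δ) := by
  have hr : (0 : ℝ) < 1 / n := by positivity
  have hn0 : (0 : ℝ) < n := Nat.cast_pos.2 hn
  have hn' : 0 < Real.sqrt n := Real.sqrt_pos.2 hn0
  unfold Finf Ff
  rw [E_split F n hn, ← Fin.sum_univ_eq_sum_range (fun p => ((Real.sqrt (1 / n) : ℝ) : ℂ) •
      (Complex.exp (2 * Real.pi * I * (-(I / 2)) * (1 - ((p : ℂ) + 1) * (1 / n))) •
        S ((-((p : ℤ) + 1) : ℤ) * (1 / n)) (E (1 / n) (-(I / 2)) (J (1 / n) ξ)))),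
    Finset.smul_sum, ← Finset.sum_sub_distrib]
  have hterm : ∀ p : Fin n, ‖((Real.sqrt (1 / n) : ℝ) : ℂ) •
      (Complex.exp (2 * Real.pi * I * (-(I / 2)) * (1 - (((p : ℕ) : ℂ) + 1) * (1 / n))) •
        S ((-(((p : ℕ) : ℤ) + 1) : ℤ) * (1 / n)) (E (1 / n) (-(I / 2)) (J (1 / n) ξ))) -
      ((Real.exp Real.pi : ℝ) : ℂ) • ((lm p * (1 / Real.sqrt n) : ℝ) : ℂ) •
        jz S J (1 / n) (ix p) ξ‖ ≤ (1 / Real.sqrt n) * (Real.exp Real.pi * δ) := by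
    intro p
    have h1 : Complex.exp (2 * Real.pi * I * (-(I / 2)) * (1 - (((p : ℕ) : ℂ) + 1) * (1 / n))) =
        ((Real.exp Real.pi * lm p : ℝ) : ℂ) := by
      unfold lm ix
      rw [← Real.exp_add, Complex.ofReal_exp]
      congr 1
      push_cast
      have h2 : 2 * (Real.pi : ℂ) * I * (-(I / 2)) = Real.pi := by
        have : I * I = -1 := Complex.I_mul_I
        linear_combination (-(Real.pi : ℂ)) * this
      rw [h2]
      ring
    have h2 : Real.sqrt (1 / n) = 1 / Real.sqrt n := by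
      rw [Real.sqrt_div zero_le_one, Real.sqrt_one]
    rw [h1, h2, jz_apply]
    have h3 : ((1 / Real.sqrt n : ℝ) : ℂ) • (((Real.exp Real.pi * lm p : ℝ) : ℂ) •
        S ((-(((p : ℕ) : ℤ) + 1) : ℤ) * (1 / n)) (E (1 / n) (-(I / 2)) (J (1 / n) ξ))) -
      ((Real.exp Real.pi : ℝ) : ℂ) • ((lm p * (1 / Real.sqrt n) : ℝ) : ℂ) •
        S ((ix p : ℝ) * (1 / n)) (J (1 / n) ξ) =
      (((1 / Real.sqrt n) * (Real.exp Real.pi * lm p) : ℝ) : ℂ) •
        S ((ix p : ℝ) * (1 / n)) ((E (1 / n) (-(I / 2)) - E (1 / n) 0) (J (1 / n) ξ)) := by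
      rw [ContinuousLinearMap.sub_apply, F.E_J _ _ hr, map_sub, smul_sub, smul_smul, smul_smul]
      congr 2
      · push_cast
        ring
      · push_cast
        ring
    rw [h3, norm_smul, Complex.norm_real, Real.norm_eq_abs, abs_of_nonneg (by
      have := lm_pos p
      positivity), FB.S_norm F]
    have h4 : ‖(E (1 / n) (-(I / 2)) - E (1 / n) 0) (J (1 / n) ξ)‖ ≤ δ := by
      have hE1 : ‖E (1 / n) (-(I / 2)) - E (1 / n) 0‖ ≤ δ := by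
        refine (F.E_norm (1 / n) _ hr).trans (le_trans (le_of_eq ?_) hδ)
        have : ‖(-(I / 2) : ℂ)‖ = 1 / 2 := by simp
        rw [this]
        congr 2
        ring
      calc _ ≤ ‖E (1 / n) (-(I / 2)) - E (1 / n) 0‖ * ‖J (1 / n) ξ‖ :=
            ContinuousLinearMap.le_opNorm _ _
        _ ≤ δ * 1 := by
            rw [FB.J_norm F hr, hξ]
            exact mul_le_mul_of_nonneg_right hE1 zero_le_one
        _ = δ := mul_one _
    have h5 : lm p ≤ 1 := lm_le p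
    have h6 : 0 < lm p := lm_pos p
    have h7 : 0 < Real.exp Real.pi := Real.exp_pos _
    calc (1 / Real.sqrt n) * (Real.exp Real.pi * lm p) *
          ‖(E (1 / n) (-(I / 2)) - E (1 / n) 0) (J (1 / n) ξ)‖
        ≤ (1 / Real.sqrt n) * (Real.exp Real.pi * 1) * δ := by
          gcongr
      _ = _ := by ring
  calc _ ≤ ∑ _p : Fin n, (1 / Real.sqrt n) * (Real.exp Real.pi * δ) :=
        norm_sum_le_of_le _ fun p _ => hterm p
    _ = _ := by
        rw [Finset.sum_const, Finset.card_univ, Fintype.card_fin, nsmul_eq_mul]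
        have h8 : Real.sqrt n * Real.sqrt n = n := Real.mul_self_sqrt hn0.le
        have h9 : (n : ℝ) * (1 / Real.sqrt n) = Real.sqrt n := by
          rw [mul_one_div, div_eq_iff hn'.ne', h8]
        rw [← mul_assoc, h9]
        ring

/-- `e^{π/n} - 1 ≤ 2π/n` -/
theorem exp_small {n : ℕ} (hn : 8 ≤ n) : Real.exp (Real.pi * (1 / n)) - 1 ≤ 2 * Real.pi / n := by
  have hn0 : (0 : ℝ) < n := by
    have : 0 < n := by omega
    exact_mod_cast this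
  have hn8 : (8 : ℝ) ≤ n := by exact_mod_cast hn
  have h1 : Real.pi * (1 / n) ≤ 1 / 2 := by
    rw [mul_one_div, div_le_iff₀ hn0]
    have := Real.pi_lt_four
    linarith
  have h0 : 0 ≤ Real.pi * (1 / n) := mul_nonneg Real.pi_pos.le (by positivity)
  have h2 := Real.exp_bound_div_one_sub_of_interval h0 (by linarith)
  have h3 : 1 / (1 - Real.pi * (1 / n)) ≤ 1 + 2 * (Real.pi * (1 / n)) := by
    rw [div_le_iff₀ (by linarith)]
    nlinarith
  have h4 : 2 * Real.pi / n = 2 * (Real.pi * (1 / n)) := by ring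
  rw [h4]
  linarith

/-- the limit of the bound -/
theorem bd_tendsto (l : ℕ) (C ε X : ℝ) : Tendsto (fun m : ℕ => bd (2 ^ m) (2 ^ (m - l)) C ε
    ((1 / 4 : ℝ) ^ m) ((2 * Real.pi / (2 ^ m : ℕ)) * (2 + 2 * Real.pi / (2 ^ m : ℕ))) X) atTop
    (𝓝 (2 * ε + Real.sqrt (2 ^ l) * (2 * ε))) := by
  set s : ℕ → ℝ := fun m => Real.sqrt ((1 / 2 : ℝ) ^ m) with hs
  have hs0 : Tendsto s atTop (𝓝 0) := by
    have h1 : Tendsto (fun m : ℕ => (1 / 2 : ℝ) ^ m) atTop (𝓝 0) :=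
      tendsto_pow_atTop_nhds_zero_of_lt_one (by norm_num) (by norm_num)
    have h2 := (Real.continuous_sqrt.tendsto 0).comp h1
    rw [Real.sqrt_zero] at h2
    exact h2
  set φ : ℝ → ℝ := fun t => C * Real.sqrt (3 * (t ^ 4 + t ^ 6 +
    (2 * Real.pi * t * (2 + 2 * Real.pi * t ^ 2)) ^ 2)) + (2 * ε + X * t ^ 4) +
      X * (2 * Real.pi * t * (2 + 2 * Real.pi * t ^ 2)) + Real.sqrt (2 ^ l) * (2 * ε + X * t ^ 4)
    with hφ
  have hφc : Continuous φ := by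
    rw [hφ]
    fun_prop
  have hφ0 : φ 0 = 2 * ε + Real.sqrt (2 ^ l) * (2 * ε) := by
    rw [hφ]
    simp
  have h1 : Tendsto (fun m => φ (s m)) atTop (𝓝 (2 * ε + Real.sqrt (2 ^ l) * (2 * ε))) := by
    rw [← hφ0]
    exact (hφc.tendsto 0).comp hs0
  refine h1.congr' ?_
  filter_upwards [eventually_ge_atTop l] with m hm
  have hsm : 0 < s m := Real.sqrt_pos.2 (by positivity)
  have hs2 : s m ^ 2 = (1 / 2 : ℝ) ^ m := Real.sq_sqrt (by positivity)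
  have e1 : Real.sqrt ((2 ^ m : ℕ) : ℝ) = (s m)⁻¹ := by
    rw [hs]
    simp only
    rw [← Real.sqrt_inv]
    congr 1
    push_cast
    rw [one_div, inv_pow, inv_inv]
  have e2 : ((2 ^ m : ℕ) : ℝ) = (s m ^ 2)⁻¹ := by
    rw [hs2]
    push_cast
    rw [one_div, inv_pow, inv_inv]
  have e3 : (1 / 4 : ℝ) ^ m = s m ^ 4 := by
    have : s m ^ 4 = (s m ^ 2) ^ 2 := by ring
    rw [this, hs2, ← pow_mul, mul_comm m 2, pow_mul]
    norm_num
  have e4 : ((2 ^ m : ℕ) : ℝ) / ((2 ^ (m - l) : ℕ) : ℝ) = 2 ^ l := by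
    push_cast
    rw [div_eq_iff (by positivity), ← pow_add]
    congr 1
    omega
  unfold bd
  rw [e4, e1, e3, e2, hφ]
  simp only
  have e5 : C * Real.sqrt (3 * (s m ^ 4 + s m ^ 6 +
      (2 * Real.pi * s m * (2 + 2 * Real.pi * s m ^ 2)) ^ 2)) =
      (s m)⁻¹ * C * Real.sqrt (3 * (((s m ^ 2)⁻¹ + 1) * (s m ^ 4) ^ 2 +
        (2 * Real.pi / (s m ^ 2)⁻¹ * (2 + 2 * Real.pi / (s m ^ 2)⁻¹)) ^ 2)) := by
    have e6 : 3 * (((s m ^ 2)⁻¹ + 1) * (s m ^ 4) ^ 2 +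
        (2 * Real.pi / (s m ^ 2)⁻¹ * (2 + 2 * Real.pi / (s m ^ 2)⁻¹)) ^ 2) =
        s m ^ 2 * (3 * (s m ^ 4 + s m ^ 6 +
          (2 * Real.pi * s m * (2 + 2 * Real.pi * s m ^ 2)) ^ 2)) := by
      field_simp
    rw [e6, Real.sqrt_mul (sq_nonneg _), Real.sqrt_sq hsm.le]
    field_simp
  rw [e5]
  have e7 : X * (2 * Real.pi * s m * (2 + 2 * Real.pi * s m ^ 2)) =
      X * (s m)⁻¹ * (2 * Real.pi / (s m ^ 2)⁻¹ * (2 + 2 * Real.pi / (s m ^ 2)⁻¹)) := by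
    field_simp
  rw [e7]

end

end Pool.Agent.H75.BC.Ex
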