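import Pool.Agent.H75.BC.T.Ex7
import Pool.Agent.H75.L.W196.WD.CPT

/-!
S_Ex, part 8: vanishing of the commutators in the limit, totality (helper20).
-/

set_option autoImplicit false

open MeasureTheory Filter Topology Complex
open scoped InnerProductSpace ENNReal

namespace Pool.Agent.H75.BC.Ex

open Pool.Agent.W662.CB Pool.Agent.H75.BC

noncomputable section

variable {H : Type} [NormedAddCommGroup H] [InnerProductSpace ℂ H] [CompleteSpace H]
  {K : Type} [NormedAddCommGroup K] [InnerProductSpace ℂ K] [CompleteSpace K]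
  {M N : VonNeumannAlgebra H} {ξ : H} {U : ℝ → H →L[ℂ] H} {J0 : H → H}
  {ρ : (H →L[ℂ] H) → (H →L[ℂ] H)} {κ : (H →L[ℂ] H) →⋆ₐ[ℂ] (K →L[ℂ] K)} {e S : ℝ → K →L[ℂ] K}
  {W : K →L[ℂ] K} {J : ℝ → H →L[ℂ] K} {E : ℝ → ℂ → K →L[ℂ] K} {A : VonNeumannAlgebra K}

theorem lim_zero (hFin : S_Fin) (hSl : S_Sl) (D : CoreD M N ξ U κ e S W J E A)
    (R : RAct M ξ U J0 ρ) {x : H →L[ℂ] H} (hx : x ∈ M)
    (hLip : ∀ ε : ℝ, 0 < ε → ∃ (C : ℝ) (ζ : H), 0 ≤ C ∧ ‖ζ - x ξ‖ ≤ ε ∧ Lip N ξ ρ C ζ)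
    (y : (m : ℕ) → Fin (2 ^ m) → H →L[ℂ] H)
    (hy : ∀ m, ColD N ξ ρ x (2 ^ m) ((1 / 4 : ℝ) ^ m) (y m))
    {P : K →L[ℂ] K} (hP : P ∈ A) (hP1 : ‖P‖ ≤ 1) (hPS : ∀ t : ℝ, S t * P = P * S t)
    (v : K) (hv : bx S E (-1) 1 v = v) :
    Tendsto (fun m : ℕ => ⟪v, (P * Xn κ S E (2 ^ m) (y m) - Xn κ S E (2 ^ m) (y m) * P)
      (Finf S J E ξ)⟫_ℂ) atTop (𝓝 0) := by
  have F := D.fr
  rw [tendsto_zero_iff_norm_tendsto_zero, Metric.tendsto_atTop']
  intro ε' hε'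
  set X : ℝ := ‖x‖ with hX
  set c0 : ℝ := Real.exp Real.pi with hc0
  have hc0p : 0 < c0 := Real.exp_pos _
  -- choice of `l`
  obtain ⟨l, hl⟩ : ∃ l : ℕ, c0 * (‖v‖ * (2 * X * Real.sqrt ((1 / 2 : ℝ) ^ l))) < ε' / 4 := by
    have h1 : Tendsto (fun m : ℕ => (1 / 2 : ℝ) ^ m) atTop (𝓝 0) :=
      tendsto_pow_atTop_nhds_zero_of_lt_one (by norm_num) (by norm_num)
    have h2 := (Real.continuous_sqrt.tendsto 0).comp h1
    rw [Real.sqrt_zero] at h2
    have h3 : Tendsto (fun l : ℕ => c0 * (‖v‖ * (2 * X * Real.sqrt ((1 / 2 : ℝ) ^ l)))) atTop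
        (𝓝 (c0 * (‖v‖ * (2 * X * 0)))) :=
      Tendsto.const_mul _ (Tendsto.const_mul _ (Tendsto.const_mul _ h2))
    rw [mul_zero, mul_zero, mul_zero] at h3
    exact (h3.eventually (gt_mem_nhds (by linarith))).exists
  set L : ℝ := Real.sqrt (2 ^ l) with hL
  have hL0 : 0 ≤ L := Real.sqrt_nonneg _
  -- choice of `ε`
  obtain ⟨ε, hε, hε2⟩ : ∃ ε : ℝ, 0 < ε ∧ c0 * (‖v‖ * (2 * ε + L * (2 * ε))) < ε' / 4 := by
    set q : ℝ := c0 * (‖v‖ * (2 + 2 * L)) with hq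
    have hq0 : 0 ≤ q := by positivity
    refine ⟨ε' / (8 * (q + 1)), by positivity, ?_⟩
    have h1 : c0 * (‖v‖ * (2 * (ε' / (8 * (q + 1))) + L * (2 * (ε' / (8 * (q + 1)))))) =
        q * (ε' / (8 * (q + 1))) := by
      rw [hq]; ring
    rw [h1]
    have h2 : q * (ε' / (8 * (q + 1))) ≤ ε' / 8 := by
      rw [mul_div_assoc', div_le_div_iff₀ (by positivity) (by norm_num)]
      nlinarith
    linarith
  obtain ⟨C, ζ, hC, hζ, hLi⟩ := hLip ε hε
  -- the bound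
  set δ : ℕ → ℝ := fun m => 2 * Real.pi / (2 ^ m : ℕ) with hδ
  set B : ℕ → ℝ := fun m => ‖v‖ * (2 * X * (c0 * (Real.sqrt (2 ^ m : ℕ) * δ m))) +
    c0 * (‖v‖ * (bd (2 ^ m) (2 ^ (m - l)) C ε ((1 / 4 : ℝ) ^ m) (δ m * (2 + δ m)) X +
      2 * X * Real.sqrt ((1 / 2 : ℝ) ^ l)) + 2 * X * ‖v - Qn S J (2 ^ m) v‖) with hB
  have hB1 : Tendsto B atTop (𝓝 (‖v‖ * (2 * X * (c0 * 0)) +
      c0 * (‖v‖ * ((2 * ε + L * (2 * ε)) + 2 * X * Real.sqrt ((1 / 2 : ℝ) ^ l)) +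
        2 * X * 0))) := by
    have t1 : Tendsto (fun m : ℕ => Real.sqrt (2 ^ m : ℕ) * δ m) atTop (𝓝 0) := by
      have h1 : Tendsto (fun m : ℕ => (1 / 2 : ℝ) ^ m) atTop (𝓝 0) :=
        tendsto_pow_atTop_nhds_zero_of_lt_one (by norm_num) (by norm_num)
      have h2 := (Real.continuous_sqrt.tendsto 0).comp h1
      rw [Real.sqrt_zero] at h2
      have h3 := h2.const_mul (2 * Real.pi)
      rw [mul_zero] at h3
      refine h3.congr fun m => ?_
      have e1 : Real.sqrt ((2 ^ m : ℕ) : ℝ) = (Real.sqrt ((1 / 2 : ℝ) ^ m))⁻¹ := by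
        rw [← Real.sqrt_inv]
        congr 1
        push_cast
        rw [one_div, inv_pow, inv_inv]
      have e2 : ((2 ^ m : ℕ) : ℝ) = (Real.sqrt ((1 / 2 : ℝ) ^ m) ^ 2)⁻¹ := by
        rw [Real.sq_sqrt (by positivity)]
        push_cast
        rw [one_div, inv_pow, inv_inv]
      have hp : 0 < Real.sqrt ((1 / 2 : ℝ) ^ m) := Real.sqrt_pos.2 (by positivity)
      show 2 * Real.pi * Real.sqrt ((1 / 2 : ℝ) ^ m) =
        Real.sqrt ((2 ^ m : ℕ) : ℝ) * (2 * Real.pi / ((2 ^ m : ℕ) : ℝ))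
      rw [e1, e2]
      field_simp
    have t2 := bd_tendsto l C ε X
    have t3 : Tendsto (fun m : ℕ => ‖v - Qn S J (2 ^ m) v‖) atTop (𝓝 0) := by
      have h1 := (tendsto_const_nhds (x := v)).sub (Qn_tendsto F v hv)
      rw [sub_self] at h1
      exact tendsto_zero_iff_norm_tendsto_zero.1 h1
    refine Tendsto.add (Tendsto.const_mul _ (Tendsto.const_mul _ (Tendsto.const_mul _ t1))) ?_
    refine Tendsto.const_mul _ (Tendsto.add (Tendsto.const_mul _ (Tendsto.add t2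
      tendsto_const_nhds)) (Tendsto.const_mul _ t3))
  have hB2 : ‖v‖ * (2 * X * (c0 * 0)) +
      c0 * (‖v‖ * ((2 * ε + L * (2 * ε)) + 2 * X * Real.sqrt ((1 / 2 : ℝ) ^ l)) +
        2 * X * 0) < ε' := by
    have : c0 * (‖v‖ * ((2 * ε + L * (2 * ε)) + 2 * X * Real.sqrt ((1 / 2 : ℝ) ^ l))) =
      c0 * (‖v‖ * (2 * ε + L * (2 * ε))) +
        c0 * (‖v‖ * (2 * X * Real.sqrt ((1 / 2 : ℝ) ^ l))) := by ring
    simp only [mul_zero, zero_add, add_zero]
    rw [this]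
    linarith
  have hev := hB1.eventually (gt_mem_nhds hB2)
  obtain ⟨m0, hm0⟩ := (hev.and (eventually_ge_atTop (max l 3))).exists_forall_of_atTop
  refine ⟨m0, fun m hm => ?_⟩
  obtain ⟨hm1, hm2⟩ := hm0 m hm.le
  have hml : l ≤ m := (le_max_left _ _).trans hm2
  have hm3 : 3 ≤ m := (le_max_right _ _).trans hm2
  rw [dist_zero_right, norm_norm]
  refine lt_of_le_of_lt ?_ hm1
  -- the estimate
  have hn : 0 < 2 ^ m := by positivity
  have hk2 : 0 < 2 ^ (m - l) := by positivity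
  have hk : (2 ^ m - 2 ^ (m - l)) + 2 ^ (m - l) = 2 ^ m :=
    Nat.sub_add_cancel (Nat.pow_le_pow_right (by norm_num) (Nat.sub_le _ _))
  have h8 : 8 ≤ 2 ^ m := by
    calc 8 = 2 ^ 3 := by norm_num
      _ ≤ 2 ^ m := Nat.pow_le_pow_right (by norm_num) hm3
  have hδm : Real.exp (Real.pi * (1 / ((2 ^ m : ℕ) : ℝ))) - 1 ≤ δ m := exp_small h8
  have hest := est hFin hSl D R hx hC hζ hLi hn hk hk2 (by positivity) (hy m) hP hP1 hPS hδm v
  have e4 : ((2 ^ (m - l) : ℕ) : ℝ) / ((2 ^ m : ℕ) : ℝ) = (1 / 2 : ℝ) ^ l := by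
    push_cast
    rw [div_eq_iff (by positivity), one_div, inv_pow]
    rw [eq_inv_mul_iff_mul_eq₀ (by positivity), ← pow_add]
    congr 1
    omega
  rw [e4] at hest
  have hnear := Finf_near F D.std.unit hn hδm (ξ := ξ)
  set Z : K →L[ℂ] K := P * Xn κ S E (2 ^ m) (y m) - Xn κ S E (2 ^ m) (y m) * P with hZ
  have hXn : ‖Xn κ S E (2 ^ m) (y m)‖ ≤ X :=
    Xn_norm F hn (y m) _ (norm_nonneg _) fun p => (hy m).norm_le p
  have hZn : ∀ u : K, ‖Z u‖ ≤ 2 * X * ‖u‖ := by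
    intro u
    have h1 : ‖P (Xn κ S E (2 ^ m) (y m) u)‖ ≤ X * ‖u‖ := by
      calc _ ≤ ‖P‖ * ‖Xn κ S E (2 ^ m) (y m) u‖ := ContinuousLinearMap.le_opNorm _ _
        _ ≤ 1 * (X * ‖u‖) := by
            refine mul_le_mul hP1 ?_ (norm_nonneg _) zero_le_one
            exact (ContinuousLinearMap.le_opNorm _ _).trans
              (mul_le_mul_of_nonneg_right hXn (norm_nonneg _))
        _ = _ := one_mul _
    have h2 : ‖Xn κ S E (2 ^ m) (y m) (P u)‖ ≤ X * ‖u‖ := by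
      calc _ ≤ ‖Xn κ S E (2 ^ m) (y m)‖ * ‖P u‖ := ContinuousLinearMap.le_opNorm _ _
        _ ≤ X * (1 * ‖u‖) := by
            refine mul_le_mul hXn ?_ (norm_nonneg _) (norm_nonneg _)
            exact (ContinuousLinearMap.le_opNorm _ _).trans
              (mul_le_mul_of_nonneg_right hP1 (norm_nonneg _))
        _ = _ := by rw [one_mul]
    calc ‖Z u‖ = ‖P (Xn κ S E (2 ^ m) (y m) u) - Xn κ S E (2 ^ m) (y m) (P u)‖ := rfl
      _ ≤ ‖P (Xn κ S E (2 ^ m) (y m) u)‖ + ‖Xn κ S E (2 ^ m) (y m) (P u)‖ := norm_sub_le _ _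
      _ ≤ _ := by linarith
  have hsplit : ⟪v, Z (Finf S J E ξ)⟫_ℂ =
      ⟪v, Z (Finf S J E ξ - ((c0 : ℝ) : ℂ) • Ff S J ξ (2 ^ m))⟫_ℂ +
        ((c0 : ℝ) : ℂ) * ⟪v, Z (Ff S J ξ (2 ^ m))⟫_ℂ := by
    rw [map_sub, inner_sub_right, map_smul, inner_smul_right]
    ring
  rw [hsplit]
  refine (norm_add_le _ _).trans ?_
  rw [hB]
  simp only
  refine add_le_add ?_ ?_
  · refine (norm_inner_le_norm _ _).trans (mul_le_mul_of_nonneg_left ?_ (norm_nonneg _))
    exact (hZn _).trans (mul_le_mul_of_nonneg_left hnear (by positivity))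
  · rw [norm_mul, Complex.norm_real, Real.norm_eq_abs, abs_of_pos hc0p]
    exact mul_le_mul_of_nonneg_left hest hc0p.le

/-- `ξ` is cyclic for `M'` -/
theorem sep_cyclic (hsep : IsSeparating M ξ) (L : Submodule ℂ H) (hLc : IsClosed (L : Set H))
    (hL : ∀ y' : H →L[ℂ] H, y' ∈ M.commutant → y' ξ ∈ L) (v : H) : v ∈ L := by
  set G : Set H := {w | ∃ y' : H →L[ℂ] H, y' ∈ M.commutant ∧ w = y' ξ} with hG
  set Q : Submodule ℂ H := (Submodule.span ℂ G).topologicalClosure with hQ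
  have hz : IsStarProjection Q.starProjection := isStarProjection_starProjection
  have hrange : Q.starProjection.range = Q := by
    ext w
    constructor
    · rintro ⟨v, rfl⟩
      exact Submodule.starProjection_apply_mem _ v
    · intro hw
      exact ⟨w, Submodule.starProjection_eq_self_iff.mpr hw⟩
  have hM : Q.starProjection ∈ M := by
    rw [VonNeumannAlgebra.IsStarProjection.mem_iff hz, hrange]
    intro y' hy'
    rw [Module.End.mem_invtSubmodule]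
    have h1 : Submodule.span ℂ G ≤ Q.comap (y' : H →ₗ[ℂ] H) := by
      refine Submodule.span_le.mpr ?_
      rintro w ⟨z', hz', rfl⟩
      exact Submodule.le_topologicalClosure _ (Submodule.subset_span
        ⟨y' * z', mul_mem hy' hz', rfl⟩)
    exact Submodule.topologicalClosure_minimal _ h1
      (IsClosed.preimage y'.continuous (Submodule.isClosed_topologicalClosure _))
  have hξ : Q.starProjection ξ = ξ := by
    refine Submodule.starProjection_eq_self_iff.mpr ?_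
    exact Submodule.le_topologicalClosure _ (Submodule.subset_span
      ⟨1, one_mem _, rfl⟩)
  have h1 : (1 - Q.starProjection) = 0 := by
    refine hsep _ (sub_mem (one_mem _) hM) ?_
    rw [ContinuousLinearMap.sub_apply, ContinuousLinearMap.one_apply, hξ, sub_self]
  have h2 : Q.starProjection v = v := by
    have h3 := congrArg (fun T : H →L[ℂ] H => T v) h1
    have h4 : v - Q.starProjection v = 0 := h3
    exact (sub_eq_zero.1 h4).symm
  have h3 : v ∈ Q := Submodule.starProjection_eq_self_iff.mp h2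
  have h4 : Q ≤ L := by
    refine Submodule.topologicalClosure_minimal _ (Submodule.span_le.mpr ?_) hLc
    rintro w ⟨y', hy', rfl⟩
    exact hL y' hy'
  exact h4 h3

/-- totality: a closed subspace that contains `e_t κ(y') F_∞` contains the range of the window -/
theorem total (D : CoreD M N ξ U κ e S W J E A) (L : Submodule ℂ K) (hLc : IsClosed (L : Set K))
    (hL : ∀ (t : ℝ) (y' : H →L[ℂ] H), y' ∈ M.commutant → e t (κ y' (Finf S J E ξ)) ∈ L) (w : K) :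
    bx S E (-1) 1 w ∈ L := by
  have F := D.fr
  -- step 1: `e_t S(-1) E_1 J_1 v ∈ L`
  have h1 : ∀ (t : ℝ) (v : H), e t (S (-1) (E 1 (-(I / 2)) (J 1 v))) ∈ L := by
    intro t v
    set T : H →L[ℂ] K := (e t) ∘L (S (-1)) ∘L (E 1 (-(I / 2))) ∘L (J 1) with hT
    have h2 : v ∈ L.comap (T : H →ₗ[ℂ] K) := by
      refine sep_cyclic D.std.sep (L.comap (T : H →ₗ[ℂ] K)) (hLc.preimage T.continuous) ?_ v
      intro y' hy'
      have h3 := hL t y' hy'
      have h4 : κ y' (Finf S J E ξ) = S (-1) (E 1 (-(I / 2)) (J 1 (y' ξ))) := by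
        unfold Finf
        rw [← F.κ_J y' 1 ξ one_pos]
        have h5 : κ y' * (S (-1) * E 1 (-(I / 2))) = (S (-1) * E 1 (-(I / 2))) * κ y' := by
          rw [← mul_assoc, F.κ_S, mul_assoc, F.κ_E _ _ _ one_pos, ← mul_assoc]
        exact FB.ap h5 _
      rw [h4] at h3
      exact h3
    exact h2
  -- step 2: `S(-1) E_1 e_t J_1 v ∈ L`
  have h2 : ∀ (t : ℝ) (v : H), S (-1) (E 1 (-(I / 2)) (e t (J 1 v))) ∈ L := by
    intro t v
    have h3 : S (-1) * (E 1 (-(I / 2)) * e t) =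
        Complex.exp (-(2 * Real.pi * I * t * ((-1 : ℝ) : ℂ))) •
          (e t * (S (-1) * E 1 (-(I / 2)))) := by
      rw [← FB.e_E F one_pos, ← mul_assoc, FB.S_e F t (-1), smul_mul_assoc, mul_assoc (e t)]
    have h4 := FB.ap h3 (J 1 v)
    have h5 : S (-1) (E 1 (-(I / 2)) (e t (J 1 v))) =
        Complex.exp (-(2 * Real.pi * I * t * ((-1 : ℝ) : ℂ))) •
          (e t (S (-1) (E 1 (-(I / 2)) (J 1 v)))) := h4
    rw [h5]
    exact L.smul_mem _ (h1 t v)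
  -- step 3: Fourier
  have h3 : ∀ u : K, S (-1) (E 1 (-(I / 2)) (E 1 0 u)) ∈ L := by
    intro u
    have h4 := F.fourier 1 one_pos u
    have h5 := (h4.mapL ((S (-1)) ∘L (E 1 (-(I / 2)))))
    refine hLc.mem_of_tendsto h5 (Filter.Eventually.of_forall fun s => ?_)
    exact L.sum_mem fun m _ => h2 _ _
  have h4 := h3 (E 1 (I / 2) (S 1 w))
  have h5 : S (-1) * (E 1 (-(I / 2)) * (E 1 0 * E 1 (I / 2))) * S 1 = bx S E (-1) 1 := by
    rw [← F.E_add _ _ _ one_pos, ← F.E_add _ _ _ one_pos]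
    unfold bx
    rw [neg_neg]
    congr 3
    ring
  rw [← h5]
  exact h4

end

end Pool.Agent.H75.BC.Ex
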