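import Pool.Agent.H75.BC.T.Cor
import Pool.Agent.H75.BC.T.Avg
import Pool.Agent.H75.L.W373.CB2.Q2
import Pool.Agent.H75.L.W816.CB2.Q3
import Pool.Agent.H75.L.W557.CB.A1
import Pool.Agent.H75.L.W303.CB.A2
import Pool.Agent.H75.L.W398.CB.B1
import Pool.Agent.H75.L.W366.CB.B2
import Pool.Agent.H75.L.W110.CB.B3
import Pool.Agent.H75.L.W922.CB.B4
import Pool.Agent.H75.L.W212.CB.B5
import Pool.Agent.H75.L.W509.CB.B6

/-!
Project BIC, task D2 (S_F1v): diagonal values of `V`-invariant elements are constant (helper85).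
-/

set_option autoImplicit false
set_option linter.unusedSectionVars false

open MeasureTheory Filter Topology Complex
open scoped InnerProductSpace ENNReal

namespace Pool.Agent.H75.BC.F1v

open Pool.Agent.W662.CB Pool.Agent.H75.BC
open Pool.Agent.H75.BC.Avg (V_eq V_zero V_add V_star V_norm V_cont V_vec)
open Pool.Agent.H75.BC.Cor (vnCen mem_vnCen)

noncomputable section

theorem pA1 : S_A1 := Pool.Agent.W557.CB.a1
theorem pA2a : S_A2a := Pool.Agent.W303.CB.a2a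
theorem pA2 : S_A2 := Pool.Agent.W303.CB.a2 pA1 pA2a
theorem pB1 : S_B1 := Pool.Agent.W398.CB.B1.b1
theorem pB2 : S_B2 := Pool.Agent.W366.CB.B2.b2
theorem pB3 : S_B3 := Pool.Agent.W110.CB.B3.b3 pB1 pB2 pA2
theorem pB4 : S_B4 := Pool.Agent.W922.CB.b4 pB1
theorem pB5 : S_B5 := Pool.Agent.W212.CB.b5 pB1 pB2 pB3 pB4
theorem pB6 : S_B6 := Pool.Agent.W509.CB.b6 pB1 pB2
theorem pQ3 : S_Q3 := Pool.Agent.W816.CB2.Q3.q3 Pool.Agent.W373.CB2.q2

variable {H : Type} [NormedAddCommGroup H] [InnerProductSpace ℂ H] [CompleteSpace H]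
  {K : Type} [NormedAddCommGroup K] [InnerProductSpace ℂ K] [CompleteSpace K]
  {M N : VonNeumannAlgebra H} {ξ : H} {U : ℝ → H →L[ℂ] H}
  {κ : (H →L[ℂ] H) →⋆ₐ[ℂ] (K →L[ℂ] K)} {e S : ℝ → K →L[ℂ] K}
  {W : K →L[ℂ] K} {J : ℝ → H →L[ℂ] K} {E : ℝ → ℂ → K →L[ℂ] K} {A : VonNeumannAlgebra K}

theorem inner_self_sq (x : K) : ⟪x, x⟫_ℂ = ((‖x‖ ^ 2 : ℝ) : ℂ) := by
  rw [inner_self_eq_norm_sq_to_K]
  push_cast
  rfl

/-- `J* e_{m/r} J = 0` for `m ≠ 0` -/
theorem orth (F : Frame U κ e S W J E) {r : ℝ} (hr : 0 < r) (m : ℤ) (hm : m ≠ 0) (v : H) :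
    ContinuousLinearMap.adjoint (J r) (e ((m : ℝ) / r) (J r v)) = 0 := by
  set f : ℤ → ℝ := fun k => ‖ContinuousLinearMap.adjoint (J r) (e (-((k : ℝ) / r)) (J r v))‖ ^ 2 with hf
  have h1 : HasSum f (‖v‖ ^ 2) := by
    rw [← Complex.hasSum_ofReal]
    have h2 := (F.fourier r hr (J r v)).mapL (innerSL ℂ (J r v))
    have h3 : (innerSL ℂ (J r v)) (E r 0 (J r v)) = (((‖v‖ ^ 2 : ℝ) : ℂ)) := by
      rw [F.E_J r v hr, innerSL_apply_apply, inner_self_eq_norm_sq_to_K, FB.J_norm F hr]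
      push_cast
      rfl
    rw [h3] at h2
    have h4 : (fun k : ℤ => ((f k : ℝ) : ℂ)) = fun k : ℤ => (innerSL ℂ (J r v)) (e ((k : ℝ) / r)
        (J r (ContinuousLinearMap.adjoint (J r) (e (-((k : ℝ) / r)) (J r v))))) := by
      funext k
      rw [innerSL_apply_apply, ← ContinuousLinearMap.adjoint_inner_left,
        ← ContinuousLinearMap.star_eq_adjoint, F.e_star, ← ContinuousLinearMap.adjoint_inner_left,
        inner_self_eq_norm_sq_to_K, hf]
      push_cast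
      rfl
    rw [h4]
    exact h2
  have h5 : f 0 = ‖v‖ ^ 2 := by
    show ‖ContinuousLinearMap.adjoint (J r) (e (-(((0 : ℤ) : ℝ) / r)) (J r v))‖ ^ 2 = _
    rw [Int.cast_zero, zero_div, neg_zero, F.e_zero]
    show ‖ContinuousLinearMap.adjoint (J r) (J r v)‖ ^ 2 = _
    rw [F.J_iso r v hr]
  have h6 : ∀ k : ℤ, k ≠ 0 → f k = 0 := by
    intro k hk
    have h7 : f 0 + f k ≤ ‖v‖ ^ 2 := by
      have h7' := sum_le_hasSum ({0, k} : Finset ℤ) (fun i _ => sq_nonneg _) h1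
      rwa [Finset.sum_pair (Ne.symm hk)] at h7'
    rw [h5] at h7
    have h8 : 0 ≤ f k := sq_nonneg _
    linarith
  have h9 := h6 (-m) (neg_ne_zero.2 hm)
  have h10 : ‖ContinuousLinearMap.adjoint (J r) (e (-(((-m : ℤ) : ℝ) / r)) (J r v))‖ = 0 :=
    pow_eq_zero_iff (two_ne_zero) |>.1 h9
  rw [Int.cast_neg, neg_div, neg_neg] at h10
  exact norm_eq_zero.1 h10

/-- `J* e_t = J* E_t` -/
theorem adj_e (F : Frame U κ e S W J E) {r : ℝ} (hr : 0 < r) (t : ℝ) (u : K) :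
    ContinuousLinearMap.adjoint (J r) (e t u) = ContinuousLinearMap.adjoint (J r) (E r t u) := by
  refine ext_inner_left ℂ fun v => ?_
  rw [ContinuousLinearMap.adjoint_inner_right, ContinuousLinearMap.adjoint_inner_right,
    ← ContinuousLinearMap.adjoint_inner_left (e t), ← ContinuousLinearMap.adjoint_inner_left (E r t),
    ← ContinuousLinearMap.star_eq_adjoint, ← ContinuousLinearMap.star_eq_adjoint, F.e_star,
    F.E_star _ _ hr, F.e_J _ _ _ hr]
  simp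

/-- the box `[0, r]` -/
theorem boxP (F : Frame U κ e S W J E) (hm : IsModular M ξ U) {r : ℝ} (hr : 0 < r)
    (hr1 : Real.exp (2 * Real.pi * r) - 1 ≤ 1) :
    BoxP U κ (fun t => e t * κ (U t)) (J r) (E r) (1 / r) (Real.exp (2 * Real.pi * r) - 1) := by
  have hn : ∀ z : ℂ, ‖z‖ ≤ 1 → ‖E r z - E r 0‖ ≤ Real.exp (2 * Real.pi * r) - 1 := by
    intro z hz
    refine (F.E_norm r z hr).trans ?_
    have h1 : 2 * Real.pi * ‖z‖ * r ≤ 2 * Real.pi * r := by
      have h2 : 0 ≤ 2 * Real.pi * r := by positivity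
      nlinarith
    linarith [Real.exp_le_exp.2 h1]
  refine
    { V_zero := V_zero F hm
      V_add := V_add F hm
      V_star := V_star F hm
      E_add := fun z w => F.E_add r z w hr
      E_star := fun z => F.E_star r z hr
      E_diff := F.E_diff r hr
      V_E := ?_
      κ_E := fun y z => F.κ_E y r z hr
      J_iso := fun v => F.J_iso r v hr
      E_J := fun v => F.E_J r v hr
      κ_J := fun y v => F.κ_J y r v hr
      V_J := ?_
      orth := ?_
      compl := ?_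
      nE1 := hn _ (by simp)
      nE2 := hn _ (by simp)
      nE3 := hn _ (by rw [norm_div, norm_neg, Complex.norm_I]; norm_num)
      nE4 := hn _ (by rw [norm_div, Complex.norm_I]; norm_num)
      pos := by positivity
      δ_nonneg := by
        have h1 : 0 ≤ 2 * Real.pi * r := by positivity
        linarith [Real.one_le_exp h1]
      δ_le := hr1 }
  · intro t z
    show e t * κ (U t) * E r z = E r z * (e t * κ (U t))
    rw [mul_assoc, F.κ_E _ _ _ hr, ← mul_assoc, FB.e_E F hr, mul_assoc]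
  · intro t v
    show e t (κ (U t) (J r v)) = E r t (J r (U t v))
    rw [F.κ_J _ _ _ hr, F.e_J _ _ _ hr]
  · intro m v hm0
    rw [mul_one_div, ← adj_e F hr]
    exact orth F hr m hm0 v
  · intro u
    have h : (fun m : ℤ => E r (((m : ℝ) * (1 / r) : ℝ) : ℂ) (J r (ContinuousLinearMap.adjoint (J r)
        (E r ((-((m : ℝ) * (1 / r)) : ℝ) : ℂ) u)))) = fun m : ℤ => e ((m : ℝ) / r)
        (J r (ContinuousLinearMap.adjoint (J r) (e (-((m : ℝ) / r)) u))) := by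
      funext m
      rw [mul_one_div, ← adj_e F hr, F.e_J _ _ _ hr]
    rw [h]
    exact F.fourier r hr u

/-- the von Neumann algebra `{V_t, κ(M')}'` -/
def BV (M : VonNeumannAlgebra H) (U : ℝ → H →L[ℂ] H) (κ : (H →L[ℂ] H) →⋆ₐ[ℂ] (K →L[ℂ] K))
    (e : ℝ → K →L[ℂ] K) : VonNeumannAlgebra K :=
  vnCen ({T | ∃ t : ℝ, T = e t * κ (U t)} ∪ {T | ∃ y : H →L[ℂ] H, y ∈ M.commutant ∧ T = κ y})

theorem mem_BV (F : Frame U κ e S W J E) (hm : IsModular M ξ U) (Z : K →L[ℂ] K) :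
    Z ∈ BV M U κ e ↔ Aff M κ (fun t => e t * κ (U t)) Z := by
  unfold BV
  rw [mem_vnCen]
  constructor
  · intro h
    refine ⟨fun t => ?_, fun y hy => ?_⟩
    · exact (h _ (Or.inl ⟨t, rfl⟩)).1.symm
    · exact (h _ (Or.inr ⟨y, hy, rfl⟩)).1.symm
  · rintro h g (⟨t, rfl⟩ | ⟨y, hy, rfl⟩)
    · refine ⟨(h.1 t).symm, ?_⟩
      rw [V_star F hm]
      exact (h.1 (-t)).symm
    · refine ⟨(h.2 y hy).symm, ?_⟩
      rw [← map_star]
      exact (h.2 _ (star_mem hy)).symm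

section core

/-- the elements of `RR` that commute with `V` -/
def RV (M : VonNeumannAlgebra H) (U : ℝ → H →L[ℂ] H) (κ : (H →L[ℂ] H) →⋆ₐ[ℂ] (K →L[ℂ] K))
    (e : ℝ → K →L[ℂ] K) (A : VonNeumannAlgebra K) : Set (K →L[ℂ] K) :=
  {X | X ∈ RR M κ A ∧ ∀ t : ℝ, (e t * κ (U t)) * X = X * (e t * κ (U t))}

variable (D : CoreD M N ξ U κ e S W J E A)
include D

theorem A_le (Z : K →L[ℂ] K) (hZ : Z ∈ A) : Z ∈ BV M U κ e := by
  rw [mem_BV D.fr D.std.modular]
  refine ⟨(FB.aff D hZ).1, fun y hy => (FB.aff D hZ).2 y ?_⟩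
  rw [VonNeumannAlgebra.mem_commutant_iff] at hy ⊢
  exact fun g hg => hy g (D.std.le g hg)

/-- the trace vector of the box `[0, r]` -/
theorem trv {r : ℝ} (hr : 0 < r) (hr1 : Real.exp (2 * Real.pi * r) - 1 ≤ 1) :
    TrV (BV M U κ e) (E r 0) (E r (-I / 2) (J r ξ)) := by
  have F := D.fr
  have hm := D.std.modular
  have hb := boxP F hm hr hr1
  refine ⟨?_, fun Z hZ hZ0 => ?_, fun Z hZ hZ0 h0 => ?_⟩
  · have h1 : E r 0 * E r (-I / 2) = E r (-I / 2) := by rw [← F.E_add _ _ _ hr, zero_add]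
    exact FB.ap h1 _
  · exact pB5 H K M ξ U κ _ (J r) (E r) _ _ hm hb Z ((mem_BV F hm Z).1 hZ) hZ0
  · exact pB6 H K M ξ U κ _ (J r) (E r) _ _ hm D.std.sep hb Z ((mem_BV F hm Z).1 hZ) hZ0 h0

theorem RV_rel {X : K →L[ℂ] K} (hX : X ∈ RV M U κ e A) : Rel A (BV M U κ e) X := by
  refine ⟨?_, fun Y hY => (hX.1.2 Y hY).symm⟩
  rw [mem_BV D.fr D.std.modular]
  exact ⟨fun t => (hX.2 t).symm, hX.1.1⟩

theorem RV_S {X : K →L[ℂ] K} (hX : X ∈ RV M U κ e A) (p : ℝ) : S p * X * S (-p) ∈ RV M U κ e A := by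
  have F := D.fr
  refine ⟨FB.RR_S D p hX.1, fun t => ?_⟩
  have h1 : ∀ q : ℝ, (e t * κ (U t)) * S q = Complex.exp (2 * Real.pi * I * t * q) •
      (S q * (e t * κ (U t))) := by
    intro q
    rw [mul_assoc, F.κ_S, ← mul_assoc, F.e_S, smul_mul_assoc, mul_assoc (S q)]
  have h2 : S (-p) * (e t * κ (U t)) = Complex.exp (2 * Real.pi * I * t * p) •
      ((e t * κ (U t)) * S (-p)) := by
    rw [h1, smul_smul, ← Complex.exp_add]
    have h3 : 2 * (Real.pi : ℂ) * I * t * p + 2 * Real.pi * I * t * ((-p : ℝ) : ℂ) = 0 := by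
      push_cast; ring
    rw [h3, Complex.exp_zero, one_smul]
  calc (e t * κ (U t)) * (S p * X * S (-p)) = ((e t * κ (U t)) * S p) * X * S (-p) := by
        simp only [mul_assoc]
    _ = Complex.exp (2 * Real.pi * I * t * p) • (S p * ((e t * κ (U t)) * X) * S (-p)) := by
        rw [h1, smul_mul_assoc, smul_mul_assoc]; simp only [mul_assoc]
    _ = S p * X * (Complex.exp (2 * Real.pi * I * t * p) • ((e t * κ (U t)) * S (-p))) := by
        rw [hX.2, mul_smul_comm]; simp only [mul_assoc]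
    _ = _ := by rw [← h2]; simp only [mul_assoc]

end core

/-- the trace vector -/
def ze (J : ℝ → H →L[ℂ] K) (E : ℝ → ℂ → K →L[ℂ] K) (ξ : H) (r : ℝ) : K := E r (-I / 2) (J r ξ)

theorem ze_ne (F : Frame U κ e S W J E) (hξ : ‖ξ‖ = 1) {r : ℝ} (hr : 0 < r) : ze J E ξ r ≠ 0 := by
  intro h
  have h1 : E r (I / 2) (ze J E ξ r) = J r ξ := by
    have h2 : E r (I / 2) * E r (-I / 2) = E r 0 := by
      rw [← F.E_add _ _ _ hr]; congr 1; ring
    have h3 := FB.ap h2 (J r ξ)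
    rw [F.E_J r ξ hr] at h3
    exact h3
  rw [h, map_zero] at h1
  have h4 := FB.J_norm F hr ξ
  rw [← h1, norm_zero, hξ] at h4
  exact zero_ne_one h4

theorem ze_dist (F : Frame U κ e S W J E) (hξ : ‖ξ‖ = 1) {r : ℝ} (hr : 0 < r) :
    ‖ze J E ξ r - J r ξ‖ ≤ Real.exp (Real.pi * r) - 1 := by
  have h1 : ze J E ξ r - J r ξ = (E r (-I / 2) - E r 0) (J r ξ) := by
    rw [sub_apply, F.E_J r ξ hr]
    rfl
  rw [h1]
  refine (ContinuousLinearMap.le_opNorm _ _).trans ?_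
  rw [FB.J_norm F hr, hξ, mul_one]
  refine (F.E_norm r _ hr).trans (le_of_eq ?_)
  congr 2
  rw [norm_div, norm_neg, Complex.norm_I, Complex.norm_ofNat]
  ring

/-- sub-boxes of the trace vector -/
theorem bx_ze (F : Frame U κ e S W J E) {p r R : ℝ} (hr : 0 < r) (hp : 0 ≤ p) (hR : p + r ≤ R) :
    bx S E p r (ze J E ξ R) = ((Real.exp (Real.pi * p) * Real.sqrt (r / R) : ℝ) : ℂ) • S p (ze J E ξ r) := by
  have hR0 : 0 < R := by linarith
  have h1 : bx S E p r (E R (-I / 2) (J R ξ)) = bx S E p r (E R (-I / 2) (J R ξ)) := rfl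
  have h2 := FB.ap (F.box_E p r R (-I / 2) hr hp hR) (J R ξ)
  have h3 : (bx S E p r * E R (-I / 2)) (J R ξ) = bx S E p r (ze J E ξ R) := rfl
  rw [h3] at h2
  rw [h2, smul_apply]
  have h4 : (S p * E r (-I / 2) * S (-p)) (J R ξ) = ((Real.sqrt (r / R) : ℝ) : ℂ) • S p (ze J E ξ r) := by
    have h5 : S p * E r (-I / 2) * S (-p) = (S p * E r (-I / 2) * S (-p)) * bx S E p r := by
      unfold bx
      have h6 : (S p * E r (-I / 2) * S (-p)) * (S p * E r 0 * S (-p)) =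
          S p * (E r (-I / 2) * (S (-p) * S p) * E r 0) * S (-p) := by simp only [mul_assoc]
      rw [h6, FB.S_neg_mul F, mul_one, ← F.E_add _ _ _ hr, add_zero]
    rw [h5]
    show (S p * E r (-I / 2) * S (-p)) (bx S E p r (J R ξ)) = _
    rw [F.box_J p r R ξ hr hp hR, map_smul]
    congr 1
    show S p (E r (-I / 2) (S (-p) (S p (J r ξ)))) = S p (ze J E ξ r)
    have h7 : S (-p) (S p (J r ξ)) = J r ξ := FB.ap (FB.S_neg_mul F p) _
    rw [h7]
    rfl
  rw [h4, smul_smul]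
  congr 1
  push_cast
  congr 2
  have : 2 * (Real.pi : ℂ) * I * (-I / 2) * p = -(I * I) * (Real.pi * p) := by ring
  rw [this, Complex.I_mul_I]
  ring

section core2

variable (D : CoreD M N ξ U κ e S W J E A)
include D

theorem sub {X : K →L[ℂ] K} (hX : X ∈ RV M U κ e A) (s : ℝ) {p r R : ℝ} (hr : 0 < r) (hp : 0 ≤ p)
    (hR : p + r ≤ R) (hR1 : Real.exp (2 * Real.pi * R) - 1 ≤ 1) :
    ‖X (S (s + p) (ze J E ξ r))‖ * ‖ze J E ξ R‖ = ‖X (S s (ze J E ξ R))‖ * ‖ze J E ξ r‖ := by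
  have F := D.fr
  have hR0 : 0 < R := by linarith
  set X1 : K →L[ℂ] K := S (-s) * X * S s with hX1
  have hX1m : X1 ∈ RV M U κ e A := by
    have h1 := RV_S D hX (-s)
    rwa [neg_neg] at h1
  have hX1n : ∀ v : K, ‖X1 v‖ = ‖X (S s v)‖ := by
    intro v
    show ‖S (-s) (X (S s v))‖ = _
    rw [FB.S_norm F]
  have hpq : E R 0 * bx S E p r = bx S E p r := by
    have h1 := F.box_E p r R 0 hr hp hR
    rw [mul_zero, zero_mul, Complex.exp_zero, one_smul] at h1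
    have h2 := congrArg star h1
    rw [star_mul, FB.E_sa F hR0, FB.bx_sa F hr] at h2
    rw [h2]
    exact FB.bx_sa F hr p
  have h1 := pQ3 K A (BV M U κ e) (A_le D) D.fac (E R 0) (FB.E_mem D hR0 0) (FB.E_idem F hR0)
    (FB.E_sa F hR0) _ (trv D hR0 hR1) X1 (RV_rel D hX1m) (bx S E p r) (FB.bx_mem D hr p)
    (FB.bx_idem F hr p) (FB.bx_sa F hr p) hpq
  have h2 : bx S E p r (E R (-I / 2) (J R ξ)) =
      ((Real.exp (Real.pi * p) * Real.sqrt (r / R) : ℝ) : ℂ) • S p (ze J E ξ r) := bx_ze F hr hp hR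
  have hc : 0 < Real.exp (Real.pi * p) * Real.sqrt (r / R) := by positivity
  rw [h2, map_smul, norm_smul, norm_smul, Complex.norm_real, Real.norm_of_nonneg hc.le, hX1n, hX1n,
    FB.S_norm F] at h1
  have h3 : S s (S p (ze J E ξ r)) = S (s + p) (ze J E ξ r) := by
    rw [F.S_add]
    rfl
  rw [h3] at h1
  have h4 : ‖E R (-I / 2) (J R ξ)‖ = ‖ze J E ξ R‖ := rfl
  have h5 : X (S s (E R (-I / 2) (J R ξ))) = X (S s (ze J E ξ R)) := rfl
  rw [h4, h5] at h1
  refine mul_left_cancel₀ hc.ne' ?_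
  linarith

omit D in
theorem const_of_local (g : ℝ → ℝ) (h : ℝ) (hh : 0 < h) (hg : ∀ s p : ℝ, 0 ≤ p → p ≤ h → g (s + p) = g s)
    (s : ℝ) : g s = g 0 := by
  have h1 : ∀ (n : ℕ) (s p : ℝ), 0 ≤ p → p ≤ n * h → g (s + p) = g s := by
    intro n
    induction n with
    | zero =>
      intro s p h0 h1
      have : p = 0 := le_antisymm (by simpa using h1) h0
      rw [this, add_zero]
    | succ n ih =>
      intro s p h0 h1
      rcases le_total p (n * h) with h2 | h2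
      · exact ih s p h0 h2
      · have h3 : g (s + p) = g (s + n * h) := by
          have h4 := hg (s + n * h) (p - n * h) (by linarith) (by push_cast at h1; linarith)
          rw [← h4]
          congr 1
          ring
        rw [h3]
        exact ih s (n * h) (by positivity) le_rfl
  have h2 : ∀ s p : ℝ, 0 ≤ p → g (s + p) = g s := by
    intro s p h0
    obtain ⟨n, hn⟩ := exists_nat_ge (p / h)
    exact h1 n s p h0 (by rwa [div_le_iff₀ hh] at hn)
  rcases le_total 0 s with h3 | h3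
  · have h4 := h2 0 s h3
    rwa [zero_add] at h4
  · have h4 := h2 s (-s) (by linarith)
    rw [add_neg_cancel] at h4
    exact h4.symm

/-- the constant -/
theorem const {X : K →L[ℂ] K} (hX : X ∈ RV M U κ e A) : ∃ c R : ℝ, 0 ≤ c ∧ 0 < R ∧ ∀ s r : ℝ, 0 < r → r ≤ R →
    ‖X (S s (ze J E ξ r))‖ = c * ‖ze J E ξ r‖ := by
  have F := D.fr
  set R : ℝ := Real.log 2 / (2 * Real.pi) with hR
  have hR0 : 0 < R := by
    have := Real.log_pos (by norm_num : (1 : ℝ) < 2)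
    positivity
  have hR1 : Real.exp (2 * Real.pi * R) - 1 ≤ 1 := by
    have h1 : 2 * Real.pi * R = Real.log 2 := by
      rw [hR]; field_simp
    rw [h1, Real.exp_log (by norm_num)]
    norm_num
  have hz : ∀ r : ℝ, 0 < r → 0 < ‖ze J E ξ r‖ := fun r hr => norm_pos_iff.2 (ze_ne F D.std.unit hr)
  set g : ℝ → ℝ := fun s => ‖X (S s (ze J E ξ R))‖ / ‖ze J E ξ R‖ with hg
  have h1 : ∀ s p r : ℝ, 0 < r → 0 ≤ p → p + r ≤ R → ‖X (S (s + p) (ze J E ξ r))‖ = g s * ‖ze J E ξ r‖ := by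
    intro s p r hr hp hpr
    have h2 := sub D hX s hr hp hpr hR1
    rw [hg]
    show _ = ‖X (S s (ze J E ξ R))‖ / ‖ze J E ξ R‖ * ‖ze J E ξ r‖
    rw [div_mul_eq_mul_div, eq_div_iff (hz R hR0).ne']
    exact h2
  have h2 : ∀ s r : ℝ, 0 < r → r ≤ R → ‖X (S s (ze J E ξ r))‖ = g s * ‖ze J E ξ r‖ := by
    intro s r hr hrR
    have h3 := h1 s 0 r hr le_rfl (by linarith)
    rwa [add_zero] at h3
  have h3 : ∀ s p : ℝ, 0 ≤ p → p ≤ R / 2 → g (s + p) = g s := by
    intro s p hp hpR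
    have h4 := h1 s p (R / 2) (by linarith) hp (by linarith)
    rw [h2 (s + p) (R / 2) (by linarith) (by linarith)] at h4
    exact mul_right_cancel₀ (hz (R / 2) (by linarith)).ne' h4
  refine ⟨g 0, R, by positivity, hR0, fun s r hr hrR => ?_⟩
  rw [h2 s r hr hrR, const_of_local g (R / 2) (by linarith) h3 s]

/-- flat vectors -/
theorem flat_n {X : K →L[ℂ] K} (hX : X ∈ RV M U κ e A) : ∃ c : ℝ, ∀ p r : ℝ, 0 < r →
    ‖X (S p (J r ξ))‖ = c := by
  have F := D.fr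
  obtain ⟨c, R, hc, hR, h⟩ := const D hX
  refine ⟨c, fun p r hr => ?_⟩
  -- small boxes
  have hsm : ∀ s r : ℝ, 0 < r → r ≤ R → |‖X (S s (J r ξ))‖ ^ 2 - c ^ 2| ≤
      (‖X‖ + c) ^ 2 * (Real.exp (Real.pi * r) - 1) := by
    intro s r hr hrR
    have h1 := ze_dist F D.std.unit hr
    have h2 : |‖X (S s (J r ξ))‖ - c| ≤ (‖X‖ + c) * (Real.exp (Real.pi * r) - 1) := by
      have h3 : |‖X (S s (J r ξ))‖ - ‖X (S s (ze J E ξ r))‖| ≤ ‖X‖ * (Real.exp (Real.pi * r) - 1) := by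
        refine (abs_norm_sub_norm_le _ _).trans ?_
        rw [← map_sub, ← map_sub]
        refine (ContinuousLinearMap.le_opNorm _ _).trans ?_
        rw [FB.S_norm F, norm_sub_rev]
        exact mul_le_mul_of_nonneg_left h1 (norm_nonneg _)
      have h4 : |‖ze J E ξ r‖ - 1| ≤ Real.exp (Real.pi * r) - 1 := by
        have h5 := abs_norm_sub_norm_le (ze J E ξ r) (J r ξ)
        rw [FB.J_norm F hr, D.std.unit] at h5
        exact h5.trans h1
      rw [h s r hr hrR] at h3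
      have h6 : ‖X (S s (J r ξ))‖ - c = (‖X (S s (J r ξ))‖ - c * ‖ze J E ξ r‖) + c * (‖ze J E ξ r‖ - 1) := by
        ring
      rw [h6]
      refine (abs_add_le _ _).trans ?_
      rw [abs_mul, abs_of_nonneg hc, add_mul]
      exact add_le_add h3 (mul_le_mul_of_nonneg_left h4 hc)
    have h7 : ‖X (S s (J r ξ))‖ ≤ ‖X‖ := by
      refine (ContinuousLinearMap.le_opNorm _ _).trans ?_
      rw [FB.S_norm F, FB.J_norm F hr, D.std.unit, mul_one]
    have h8 : ‖X (S s (J r ξ))‖ ^ 2 - c ^ 2 = (‖X (S s (J r ξ))‖ - c) * (‖X (S s (J r ξ))‖ + c) := by ring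
    rw [h8, abs_mul, abs_of_nonneg (add_nonneg (norm_nonneg _) hc)]
    have h9 : 0 ≤ Real.exp (Real.pi * r) - 1 := (norm_nonneg _).trans h1
    calc |‖X (S s (J r ξ))‖ - c| * (‖X (S s (J r ξ))‖ + c)
        ≤ ((‖X‖ + c) * (Real.exp (Real.pi * r) - 1)) * (‖X‖ + c) :=
          mul_le_mul h2 (by linarith) (by positivity) (by positivity)
      _ = _ := by ring
  -- subdivision
  have hsub : ∀ n : ℕ, 0 < n → ‖X (S p (J r ξ))‖ ^ 2 =
      (n : ℝ)⁻¹ * ∑ k ∈ Finset.range n, ‖X (S (p + k * (r / n)) (J (r / n) ξ))‖ ^ 2 := by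
    intro n hn
    have hn' : (0 : ℝ) < n := by exact_mod_cast hn
    have hrn : 0 < r / n := by positivity
    set X1 : K →L[ℂ] K := S (-p) * X * S p with hX1
    have hX1m : X1 ∈ RV M U κ e A := by
      have h1 := RV_S D hX (-p)
      rwa [neg_neg] at h1
    have hX1n : ∀ v : K, ‖X1 v‖ = ‖X (S p v)‖ := by
      intro v
      show ‖S (-p) (X (S p v))‖ = _
      rw [FB.S_norm F]
    have h1 : ∀ k ∈ Finset.range n, ⟪X1 (J r ξ), X1 (bx S E (k * (r / n)) (r / n) (J r ξ))⟫_ℂ =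
        (((n : ℝ)⁻¹ * ‖X (S (p + k * (r / n)) (J (r / n) ξ))‖ ^ 2 : ℝ) : ℂ) := by
      intro k hk
      rw [Finset.mem_range] at hk
      have hk' : (k : ℝ) + 1 ≤ n := by exact_mod_cast hk
      have hkr : k * (r / n) + r / n ≤ r := by
        have h2 : k * (r / n) + r / n = (k + 1) * (r / n) := by ring
        rw [h2]
        calc ((k : ℝ) + 1) * (r / n) ≤ n * (r / n) := mul_le_mul_of_nonneg_right hk' hrn.le
          _ = r := by field_simp
      have h3 : ∀ v : K, X1 (bx S E (k * (r / n)) (r / n) v) = bx S E (k * (r / n)) (r / n) (X1 v) :=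
        fun v => FB.ap (hX1m.1.2 _ (FB.bx_mem D hrn _)) v
      have h4 : ∀ v : K, bx S E (k * (r / n)) (r / n) (bx S E (k * (r / n)) (r / n) v) =
          bx S E (k * (r / n)) (r / n) v := fun v => FB.ap (FB.bx_idem F hrn _) v
      have h5 : ⟪X1 (J r ξ), X1 (bx S E (k * (r / n)) (r / n) (J r ξ))⟫_ℂ =
          ⟪X1 (bx S E (k * (r / n)) (r / n) (J r ξ)), X1 (bx S E (k * (r / n)) (r / n) (J r ξ))⟫_ℂ := by
        conv_lhs => rw [h3, ← h4]
        rw [← ContinuousLinearMap.adjoint_inner_left, ← ContinuousLinearMap.star_eq_adjoint,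
          FB.bx_sa F hrn, ← h3]
      rw [h5, inner_self_sq, F.box_J _ _ _ _ hrn (by positivity) hkr, map_smul, norm_smul,
        hX1n, Complex.norm_real, Real.norm_of_nonneg (Real.sqrt_nonneg _)]
      have h6 : S p (S (k * (r / n)) (J (r / n) ξ)) = S (p + k * (r / n)) (J (r / n) ξ) := by
        rw [F.S_add]; rfl
      rw [h6, mul_pow]
      have h7 : Real.sqrt (r / n / r) ^ 2 = (n : ℝ)⁻¹ := by
        rw [Real.sq_sqrt (by positivity)]
        field_simp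
      rw [h7]
    have h8 : ⟪X1 (J r ξ), X1 (J r ξ)⟫_ℂ =
        ∑ k ∈ Finset.range n, (((n : ℝ)⁻¹ * ‖X (S (p + k * (r / n)) (J (r / n) ξ))‖ ^ 2 : ℝ) : ℂ) := by
      rw [← Finset.sum_congr rfl h1, ← inner_sum, ← map_sum]
      congr 2
      have h9 := FB.ap (F.box_sum r n hr hn) (J r ξ)
      rw [F.E_J r ξ hr, sum_apply] at h9
      exact h9
    rw [inner_self_sq, hX1n] at h8
    rw [Finset.mul_sum]
    exact_mod_cast h8
  have hlim : ∀ n : ℕ, 0 < n → r / n ≤ R →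
      |‖X (S p (J r ξ))‖ ^ 2 - c ^ 2| ≤ (‖X‖ + c) ^ 2 * (Real.exp (Real.pi * (r / n)) - 1) := by
    intro n hn hnR
    have hn' : (0 : ℝ) < n := by exact_mod_cast hn
    have hrn : 0 < r / n := by positivity
    rw [hsub n hn]
    have h1 : (n : ℝ)⁻¹ * ∑ k ∈ Finset.range n, ‖X (S (p + k * (r / n)) (J (r / n) ξ))‖ ^ 2 - c ^ 2 =
        (n : ℝ)⁻¹ * ∑ k ∈ Finset.range n, (‖X (S (p + k * (r / n)) (J (r / n) ξ))‖ ^ 2 - c ^ 2) := by
      rw [Finset.sum_sub_distrib, Finset.sum_const, Finset.card_range, nsmul_eq_mul, mul_sub,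
        ← mul_assoc, inv_mul_cancel₀ hn'.ne', one_mul]
    rw [h1, abs_mul, abs_of_nonneg (inv_nonneg.2 hn'.le)]
    have h2 : |∑ k ∈ Finset.range n, (‖X (S (p + k * (r / n)) (J (r / n) ξ))‖ ^ 2 - c ^ 2)| ≤
        n * ((‖X‖ + c) ^ 2 * (Real.exp (Real.pi * (r / n)) - 1)) := by
      refine (Finset.abs_sum_le_sum_abs _ _).trans ?_
      refine (Finset.sum_le_sum fun k _ => hsm _ _ hrn hnR).trans ?_
      rw [Finset.sum_const, Finset.card_range, nsmul_eq_mul]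
    calc (n : ℝ)⁻¹ * |∑ k ∈ Finset.range n, (‖X (S (p + k * (r / n)) (J (r / n) ξ))‖ ^ 2 - c ^ 2)|
        ≤ (n : ℝ)⁻¹ * (n * ((‖X‖ + c) ^ 2 * (Real.exp (Real.pi * (r / n)) - 1))) :=
          mul_le_mul_of_nonneg_left h2 (by positivity)
      _ = _ := by field_simp
  have ht : Tendsto (fun n : ℕ => (‖X‖ + c) ^ 2 * (Real.exp (Real.pi * (r / n)) - 1)) atTop (𝓝 0) := by
    have h1 : Tendsto (fun n : ℕ => r / (n : ℝ)) atTop (𝓝 0) := tendsto_const_div_atTop_nhds_zero_nat r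
    have h2 : Tendsto (fun n : ℕ => Real.exp (Real.pi * (r / n))) atTop (𝓝 (Real.exp (Real.pi * 0))) :=
      (Real.continuous_exp.tendsto _).comp (h1.const_mul _)
    rw [mul_zero, Real.exp_zero] at h2
    have h3 := (h2.sub_const 1).const_mul ((‖X‖ + c) ^ 2)
    rwa [sub_self, mul_zero] at h3
  have hle : |‖X (S p (J r ξ))‖ ^ 2 - c ^ 2| ≤ 0 := by
    refine ge_of_tendsto ht ?_
    have h1 : Tendsto (fun n : ℕ => r / (n : ℝ)) atTop (𝓝 0) := tendsto_const_div_atTop_nhds_zero_nat r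
    filter_upwards [eventually_gt_atTop 0, h1.eventually (ge_mem_nhds hR)] with n hn hnR
    exact hlim n hn hnR
  have h1 : ‖X (S p (J r ξ))‖ ^ 2 - c ^ 2 = 0 := abs_eq_zero.1 (le_antisymm hle (abs_nonneg _))
  exact (sq_eq_sq₀ (norm_nonneg _) hc).1 (by linarith)

theorem RV_add_one {X : K →L[ℂ] K} (hX : X ∈ RV M U κ e A) (c : ℂ) : X + c • 1 ∈ RV M U κ e A := by
  refine ⟨FB.RR_add hX.1 (FB.RR_smul c FB.RR_one), fun t => ?_⟩
  rw [mul_add, add_mul, hX.2, mul_smul_comm, smul_mul_assoc, mul_one, one_mul]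

end core2

theorem f1v : S_F1v := by
  intro H K _ _ _ _ _ _ M N ξ U κ e S W J E A D X hX hXV
  have F := D.fr
  have hXm : X ∈ RV M U κ e A := ⟨hX, hXV⟩
  obtain ⟨c0, h0⟩ := flat_n D hXm
  obtain ⟨c1, h1⟩ := flat_n D (RV_add_one D hXm 1)
  obtain ⟨c2, h2⟩ := flat_n D (RV_add_one D hXm I)
  have key : ∀ p r : ℝ, 0 < r → ⟪S p (J r ξ), X (S p (J r ξ))⟫_ℂ =
      (((c1 ^ 2 - c0 ^ 2 - 1) / 2 : ℝ) : ℂ) + (((c2 ^ 2 - c0 ^ 2 - 1) / 2 : ℝ) : ℂ) * I := by
    intro p r hr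
    set z : K := S p (J r ξ) with hz
    have hzn : ‖z‖ = 1 := by rw [hz, FB.S_norm F, FB.J_norm F hr, D.std.unit]
    have a0 : ‖X z‖ = c0 := h0 p r hr
    have a1 : ‖X z + z‖ = c1 := by
      have h3 := h1 p r hr
      rw [add_apply, smul_apply, one_apply_eq_self, one_smul] at h3
      exact h3
    have a2 : ‖X z + I • z‖ = c2 := by
      have h3 := h2 p r hr
      rw [add_apply, smul_apply, one_apply_eq_self] at h3
      exact h3
    have b1 := @norm_add_sq ℂ _ _ _ _ (X z) z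
    have b2 := @norm_add_sq ℂ _ _ _ _ (X z) (I • z)
    rw [a1, a0, hzn] at b1
    rw [a2, a0, norm_smul, Complex.norm_I, hzn, inner_smul_right] at b2
    have b3 : ⟪X z, z⟫_ℂ = (starRingEnd ℂ) ⟪z, X z⟫_ℂ := (inner_conj_symm _ _).symm
    rw [b3] at b1 b2
    generalize ⟪z, X z⟫_ℂ = w at b1 b2 ⊢
    have b4 : RCLike.re ((starRingEnd ℂ) w) = w.re := Complex.conj_re w
    have b5 : RCLike.re (I * (starRingEnd ℂ) w) = w.im := by
      show (I * (starRingEnd ℂ) w).re = w.im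
      rw [Complex.mul_re, Complex.I_re, Complex.I_im, Complex.conj_im]
      ring
    rw [b4] at b1
    rw [b5] at b2
    apply Complex.ext
    · rw [Complex.add_re, Complex.ofReal_re, Complex.mul_re, Complex.ofReal_re, Complex.ofReal_im,
        Complex.I_re, Complex.I_im]
      linarith
    · rw [Complex.add_im, Complex.ofReal_im, Complex.mul_im, Complex.ofReal_re, Complex.ofReal_im,
        Complex.I_re, Complex.I_im]
      linarith
  intro p r hr
  rw [key p r hr]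
  have h3 := key 0 1 one_pos
  rw [F.S_zero] at h3
  exact h3.symm

end

end Pool.Agent.H75.BC.F1v
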