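import Pool.Agent.H75.BC.Stmts2

/-!
FR1b: the fields `flat`, `exhaust`, `tail` of `Frame0`.
`flat` and `exhaust` follow from the other fields; `tail` is proved for the explicit operators.
-/

set_option autoImplicit false

open MeasureTheory Filter Topology Complex
open scoped InnerProductSpace ENNReal

namespace Pool.Agent.H75.BC

open Pool.Agent.W662.CB

noncomputable section

/-- `Frame0` without the fields `flat`, `exhaust`, `tail`. -/
structure PreFrame0 {H K : Type} [NormedAddCommGroup H] [InnerProductSpace ℂ H] [CompleteSpace H]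
    [NormedAddCommGroup K] [InnerProductSpace ℂ K] [CompleteSpace K]
    (κ : (H →L[ℂ] H) →⋆ₐ[ℂ] (K →L[ℂ] K)) (e S : ℝ → K →L[ℂ] K)
    (J : ℝ → H →L[ℂ] K) (E : ℝ → ℂ → K →L[ℂ] K) : Prop where
  e_zero : e 0 = 1
  e_add : ∀ s t : ℝ, e (s + t) = e s * e t
  e_star : ∀ t : ℝ, star (e t) = e (-t)
  e_cont : ∀ f : K, Continuous fun t : ℝ => e t f
  S_zero : S 0 = 1
  S_add : ∀ s t : ℝ, S (s + t) = S s * S t
  S_star : ∀ t : ℝ, star (S t) = S (-t)
  S_cont : ∀ f : K, Continuous fun t : ℝ => S t f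
  e_S : ∀ t p : ℝ, e t * S p = Complex.exp (2 * Real.pi * I * t * p) • (S p * e t)
  κ_e : ∀ (y : H →L[ℂ] H) (t : ℝ), κ y * e t = e t * κ y
  κ_S : ∀ (y : H →L[ℂ] H) (p : ℝ), κ y * S p = S p * κ y
  κ_E : ∀ (y : H →L[ℂ] H) (r : ℝ) (z : ℂ), 0 < r → κ y * E r z = E r z * κ y
  J_iso : ∀ (r : ℝ) (v : H), 0 < r → ContinuousLinearMap.adjoint (J r) (J r v) = v
  κ_J : ∀ (y : H →L[ℂ] H) (r : ℝ) (v : H), 0 < r → κ y (J r v) = J r (y v)
  E_add : ∀ (r : ℝ) (z w : ℂ), 0 < r → E r (z + w) = E r z * E r w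
  E_star : ∀ (r : ℝ) (z : ℂ), 0 < r → star (E r z) = E r (-(starRingEnd ℂ z))
  E_diff : ∀ r : ℝ, 0 < r → Differentiable ℂ (E r)
  E_norm : ∀ (r : ℝ) (z : ℂ), 0 < r → ‖E r z - E r 0‖ ≤ Real.exp (2 * Real.pi * ‖z‖ * r) - 1
  E_comm : ∀ T : K →L[ℂ] K, (∀ t : ℝ, T * e t = e t * T) → ∀ (r : ℝ) (z : ℂ), 0 < r →
    T * E r z = E r z * T
  e_J : ∀ (r t : ℝ) (v : H), 0 < r → e t (J r v) = E r t (J r v)
  E_J : ∀ (r : ℝ) (v : H), 0 < r → E r 0 (J r v) = J r v
  box_E : ∀ (p r r' : ℝ) (z : ℂ), 0 < r → 0 ≤ p → p + r ≤ r' →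
    bx S E p r * E r' z = Complex.exp (2 * Real.pi * I * z * p) • (S p * E r z * S (-p))
  box_J : ∀ (p r r' : ℝ) (v : H), 0 < r → 0 ≤ p → p + r ≤ r' →
    bx S E p r (J r' v) = ((Real.sqrt (r / r') : ℝ) : ℂ) • S p (J r v)
  box_orth : ∀ p q r r' : ℝ, 0 < r → 0 < r' → p + r ≤ q → bx S E p r * bx S E q r' = 0
  box_sum : ∀ (r : ℝ) (n : ℕ), 0 < r → 0 < n →
    E r 0 = ∑ k ∈ Finset.range n, bx S E (k * (r / n)) (r / n)
  fourier : ∀ (r : ℝ), 0 < r → ∀ u : K, HasSum (fun m : ℤ => e ((m : ℝ) / r)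
    (J r (ContinuousLinearMap.adjoint (J r) (e (-((m : ℝ) / r)) u)))) (E r 0 u)

namespace PreFrame0

variable {H : Type} [NormedAddCommGroup H] [InnerProductSpace ℂ H] [CompleteSpace H]
  {K : Type} [NormedAddCommGroup K] [InnerProductSpace ℂ K] [CompleteSpace K]
  {κ : (H →L[ℂ] H) →⋆ₐ[ℂ] (K →L[ℂ] K)} {e S : ℝ → K →L[ℂ] K}
  {J : ℝ → H →L[ℂ] K} {E : ℝ → ℂ → K →L[ℂ] K}

section

variable (F : PreFrame0 κ e S J E)
include F

theorem S_neg_mul (s : ℝ) : S (-s) * S s = 1 := by rw [← F.S_add, neg_add_cancel, F.S_zero]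

theorem e_neg_mul (s : ℝ) : e (-s) * e s = 1 := by rw [← F.e_add, neg_add_cancel, F.e_zero]

theorem S_norm (s : ℝ) (x : K) : ‖S s x‖ = ‖x‖ :=
  FB.norm_le_one_of_un (by rw [F.S_star]; exact S_neg_mul F s) x

theorem e_norm (s : ℝ) (x : K) : ‖e s x‖ = ‖x‖ :=
  FB.norm_le_one_of_un (by rw [F.e_star]; exact e_neg_mul F s) x

theorem J_norm {r : ℝ} (hr : 0 < r) (v : H) : ‖J r v‖ = ‖v‖ := by
  have h1 : ⟪J r v, J r v⟫_ℂ = ⟪v, v⟫_ℂ := by
    rw [← ContinuousLinearMap.adjoint_inner_right (J r) v (J r v), F.J_iso r v hr]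
  rw [inner_self_eq_norm_sq_to_K, inner_self_eq_norm_sq_to_K] at h1
  have h2 : ‖J r v‖ ^ 2 = ‖v‖ ^ 2 := by exact_mod_cast h1
  exact (sq_eq_sq₀ (norm_nonneg _) (norm_nonneg _)).1 h2

theorem Ja_norm {r : ℝ} (hr : 0 < r) (x : K) : ‖ContinuousLinearMap.adjoint (J r) x‖ ≤ ‖x‖ := by
  have h1 : ‖J r‖ ≤ 1 := ContinuousLinearMap.opNorm_le_bound _ zero_le_one fun v => by
    rw [J_norm F hr, one_mul]
  have h2 : ‖ContinuousLinearMap.adjoint (J r)‖ ≤ 1 := by
    rw [LinearIsometryEquiv.norm_map]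
    exact h1
  calc ‖ContinuousLinearMap.adjoint (J r) x‖ ≤ ‖ContinuousLinearMap.adjoint (J r)‖ * ‖x‖ :=
        ContinuousLinearMap.le_opNorm _ _
    _ ≤ 1 * ‖x‖ := mul_le_mul_of_nonneg_right h2 (norm_nonneg _)
    _ = ‖x‖ := one_mul _

theorem E_sa {r : ℝ} (hr : 0 < r) : star (E r 0) = E r 0 := by
  rw [F.E_star r 0 hr]; simp

theorem E_idem {r : ℝ} (hr : 0 < r) : E r 0 * E r 0 = E r 0 := by
  rw [← F.E_add r 0 0 hr, add_zero]

theorem bx_sa {r : ℝ} (hr : 0 < r) (p : ℝ) : star (bx S E p r) = bx S E p r := by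
  unfold bx
  rw [star_mul, star_mul, F.S_star, F.S_star, E_sa F hr, neg_neg, mul_assoc]

theorem bx_idem {r : ℝ} (hr : 0 < r) (p : ℝ) : bx S E p r * bx S E p r = bx S E p r := by
  unfold bx
  have h1 : S p * E r 0 * S (-p) * (S p * E r 0 * S (-p)) =
      S p * (E r 0 * (S (-p) * S p) * E r 0) * S (-p) := by simp only [mul_assoc]
  rw [h1, S_neg_mul F, mul_one, E_idem F hr]

theorem e_E {r : ℝ} (hr : 0 < r) (t : ℝ) (z : ℂ) : e t * E r z = E r z * e t := by
  refine F.E_comm (e t) (fun s => ?_) r z hr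
  rw [← F.e_add, ← F.e_add, add_comm]

theorem e_bx {r : ℝ} (hr : 0 < r) (t p : ℝ) : e t * bx S E p r = bx S E p r * e t := by
  unfold bx
  have h1 : e t * (S p * E r 0 * S (-p)) = (e t * S p) * E r 0 * S (-p) := by
    simp only [mul_assoc]
  have h2 : S p * E r 0 * S (-p) * e t = S p * E r 0 * (S (-p) * e t) := by
    simp only [mul_assoc]
  have h3 : S (-p) * e t = Complex.exp (2 * Real.pi * I * t * p) • (e t * S (-p)) := by
    rw [F.e_S, smul_smul, ← Complex.exp_add]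
    have : (2 * Real.pi * I * t * p + 2 * Real.pi * I * t * ((-p : ℝ) : ℂ)) = (0 : ℂ) := by
      push_cast; ring
    rw [this, Complex.exp_zero, one_smul]
  rw [h1, h2, h3, F.e_S, smul_mul_assoc, smul_mul_assoc, mul_smul_comm]
  congr 1
  rw [mul_assoc (S p) (e t), F.e_E hr]
  simp only [mul_assoc]

/-- orthogonality of disjoint boxes, symmetric form -/
theorem box_orth' {h : ℝ} (hh : 0 < h) {k l : ℕ} (hkl : k ≠ l) :
    bx S E (k * h) h * bx S E (l * h) h = 0 := by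
  rcases lt_or_gt_of_ne hkl with h1 | h1
  · refine F.box_orth _ _ _ _ hh hh ?_
    have : (k : ℝ) + 1 ≤ l := by exact_mod_cast h1
    nlinarith
  · have h2 : bx S E (l * h) h * bx S E (k * h) h = 0 := by
      refine F.box_orth _ _ _ _ hh hh ?_
      have : (l : ℝ) + 1 ≤ k := by exact_mod_cast h1
      nlinarith
    have h3 := congrArg star h2
    rw [star_mul, bx_sa F hh, bx_sa F hh, star_zero] at h3
    exact h3

end

/-- the flat projection on the box `[p, p + h]` -/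
def Pj (S : ℝ → K →L[ℂ] K) (J : ℝ → H →L[ℂ] K) (p h : ℝ) : K →L[ℂ] K :=
  S p * ((J h).comp (ContinuousLinearMap.adjoint (J h))) * S (-p)

section

variable (F : PreFrame0 κ e S J E)
include F

theorem Pj_apply (p h : ℝ) (u : K) :
    Pj S J p h u = S p (J h (ContinuousLinearMap.adjoint (J h) (S (-p) u))) := rfl

theorem Pj_norm {h : ℝ} (hh : 0 < h) (p : ℝ) (u : K) : ‖Pj S J p h u‖ ≤ ‖u‖ := by
  rw [Pj_apply F, S_norm F, J_norm F hh]
  refine (Ja_norm F hh _).trans ?_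
  rw [S_norm F]

theorem bx_Pj {h : ℝ} (hh : 0 < h) (p : ℝ) (u : K) : bx S E p h (Pj S J p h u) = Pj S J p h u := by
  rw [Pj_apply F]
  have h1 : ∀ x : K, S (-p) (S p x) = x := fun x => FB.ap (S_neg_mul F p) x
  show S p (E h 0 (S (-p) (S p (J h _)))) = _
  rw [h1, F.E_J _ _ hh]

theorem Pj_sa (p h : ℝ) (x y : K) : ⟪x, Pj S J p h y⟫_ℂ = ⟪Pj S J p h x, y⟫_ℂ := by
  have hS : ∀ (s : ℝ) (a b : K), ⟪a, S s b⟫_ℂ = ⟪S (-s) a, b⟫_ℂ := by
    intro s a b
    rw [← F.S_star, ContinuousLinearMap.star_eq_adjoint, ContinuousLinearMap.adjoint_inner_left]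
  rw [Pj_apply F, Pj_apply F, hS, ← ContinuousLinearMap.adjoint_inner_left,
    ContinuousLinearMap.adjoint_inner_right]
  have h2 := hS (-p) (J h ((ContinuousLinearMap.adjoint (J h)) (S (-p) x))) y
  rw [neg_neg] at h2
  rw [← h2]

theorem bx_inner {h : ℝ} (hh : 0 < h) (p : ℝ) (x y : K) :
    ⟪x, bx S E p h y⟫_ℂ = ⟪bx S E p h x, y⟫_ℂ := by
  rw [← ContinuousLinearMap.adjoint_inner_left, ← ContinuousLinearMap.star_eq_adjoint, bx_sa F hh]

theorem Pj_bx {h : ℝ} (hh : 0 < h) (p : ℝ) (u : K) : Pj S J p h (bx S E p h u) = Pj S J p h u := by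
  refine ext_inner_left ℂ fun v => ?_
  rw [Pj_sa F, bx_inner F hh, bx_Pj F hh, ← Pj_sa F]

/-- vectors in disjoint boxes are orthogonal -/
theorem norm_sum_sq {h : ℝ} (hh : 0 < h) (n : ℕ) (d : ℕ → K)
    (hd : ∀ k : ℕ, bx S E (k * h) h (d k) = d k) :
    ‖∑ k ∈ Finset.range n, d k‖ ^ 2 = ∑ k ∈ Finset.range n, ‖d k‖ ^ 2 := by
  have h0 : ∀ k l : ℕ, k ≠ l → ⟪d k, d l⟫_ℂ = 0 := by
    intro k l hkl
    rw [← hd k, ← bx_inner F hh, ← hd l]
    have h1 : bx S E (k * h) h (bx S E (l * h) h (d l)) = 0 := by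
      have := FB.ap (box_orth' F hh hkl) (d l)
      simpa using this
    rw [h1, inner_zero_right]
  induction n with
  | zero => simp
  | succ n ih =>
    rw [Finset.sum_range_succ, Finset.sum_range_succ, ← ih]
    have h2 : ⟪∑ k ∈ Finset.range n, d k, d n⟫_ℂ = 0 := by
      rw [sum_inner]
      exact Finset.sum_eq_zero fun k hk => h0 k n (ne_of_lt (Finset.mem_range.1 hk))
    have h3 := norm_add_sq_eq_norm_sq_add_norm_sq_of_inner_eq_zero (𝕜 := ℂ)
      (∑ k ∈ Finset.range n, d k) (d n) h2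
    rw [pow_two, pow_two, pow_two]
    exact h3

/-- the flat projection of the subdivision -/
theorem sum_Pj_norm {h : ℝ} (hh : 0 < h) (n : ℕ) (u : K) :
    ‖∑ k ∈ Finset.range n, Pj S J (k * h) h u‖ ≤ ‖u‖ := by
  set q := ∑ k ∈ Finset.range n, Pj S J (k * h) h u with hq
  have h1 : ‖q‖ ^ 2 = ∑ k ∈ Finset.range n, ‖Pj S J (k * h) h u‖ ^ 2 :=
    norm_sum_sq F hh n (fun k => Pj S J (k * h) h u) (fun k => bx_Pj F hh _ u)
  have h2 : ∀ k : ℕ, Pj S J (k * h) h (Pj S J (k * h) h u) = Pj S J (k * h) h u := by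
    intro k
    have hS : ∀ x : K, S (-(k * h)) (S (k * h) x) = x := fun x => FB.ap (S_neg_mul F _) x
    rw [Pj_apply F, Pj_apply F, hS, F.J_iso _ _ hh]
  have h3 : ((‖q‖ ^ 2 : ℝ) : ℂ) = ⟪q, u⟫_ℂ := by
    rw [h1, hq, sum_inner]
    push_cast
    refine Finset.sum_congr rfl fun k _ => ?_
    have h7 := inner_self_eq_norm_sq_to_K (𝕜 := ℂ) (Pj S J (k * h) h u)
    refine h7.symm.trans ?_
    rw [Pj_sa F, h2]
  have h4 : ‖q‖ ^ 2 ≤ ‖q‖ * ‖u‖ := by
    calc ‖q‖ ^ 2 = ‖((‖q‖ ^ 2 : ℝ) : ℂ)‖ := by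
          rw [Complex.norm_real, Real.norm_of_nonneg (sq_nonneg _)]
      _ = ‖⟪q, u⟫_ℂ‖ := by rw [h3]
      _ ≤ ‖q‖ * ‖u‖ := norm_inner_le_norm _ _
  rcases (norm_nonneg q).eq_or_lt with h5 | h5
  · rw [← h5]; exact norm_nonneg _
  · nlinarith

/-- the flat projections on the vectors `e_t J_r v` -/
theorem sum_Pj_eJ {r : ℝ} (hr : 0 < r) (n : ℕ) (t : ℝ) (v : H) :
    ‖∑ k ∈ Finset.range (n + 1), Pj S J (k * (r / (n + 1 : ℕ))) (r / (n + 1 : ℕ)) (e t (J r v)) -
      e t (J r v)‖ ≤ 2 * (Real.exp (2 * Real.pi * |t| * (r / (n + 1 : ℕ))) - 1) * ‖v‖ := by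
  set h : ℝ := r / (n + 1 : ℕ) with hh0
  have hn : (0 : ℝ) < ((n + 1 : ℕ) : ℝ) := by positivity
  have hh : 0 < h := div_pos hr hn
  have hnh : ((n + 1 : ℕ) : ℝ) * h = r := by rw [hh0]; field_simp
  set u : K := e t (J r v) with hu
  have hu1 : E r 0 u = u := by
    have := FB.ap (e_E F hr t 0) (J r v)
    show E r 0 (e t (J r v)) = _
    have h2 : e t (E r 0 (J r v)) = E r 0 (e t (J r v)) := this
    rw [← h2, F.E_J _ _ hr]
  have hu2 : u = ∑ k ∈ Finset.range (n + 1), bx S E (k * h) h u := by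
    conv_lhs => rw [← hu1, F.box_sum r (n + 1) hr (Nat.succ_pos n)]
    simp only [FunLike.coe_sum, Finset.sum_apply]
    rfl
  set w : K := e t (J h v) - J h v with hw
  have hwn : ‖w‖ ≤ (Real.exp (2 * Real.pi * |t| * h) - 1) * ‖v‖ := by
    have h1 : w = (E h t - E h 0) (J h v) := by
      rw [hw, F.e_J _ _ _ hh]
      show _ = E h t (J h v) - E h 0 (J h v)
      rw [F.E_J _ _ hh]
    rw [h1]
    refine (ContinuousLinearMap.le_opNorm _ _).trans ?_
    rw [J_norm F hh]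
    refine mul_le_mul_of_nonneg_right ?_ (norm_nonneg _)
    refine (F.E_norm h t hh).trans (le_of_eq ?_)
    rw [Complex.norm_real, Real.norm_eq_abs]
  set d : ℕ → K := fun k => Pj S J (k * h) h u - bx S E (k * h) h u with hd
  have hd1 : ∀ k : ℕ, bx S E (k * h) h (d k) = d k := by
    intro k
    rw [hd]
    simp only [map_sub]
    rw [bx_Pj F hh]
    have := FB.ap (bx_idem F hh (k * h)) u
    congr 1
  have hd2 : ∀ k ∈ Finset.range (n + 1), ‖d k‖ ^ 2 ≤ (h / r) * (2 * ‖w‖) ^ 2 := by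
    intro k hk
    have hk1 : (k : ℝ) * h + h ≤ r := by
      have : (k : ℝ) + 1 ≤ ((n + 1 : ℕ) : ℝ) := by exact_mod_cast Finset.mem_range.1 hk
      rw [← hnh]; nlinarith
    have hbu : bx S E (k * h) h u = ((Real.sqrt (h / r) : ℝ) : ℂ) •
        Complex.exp (2 * Real.pi * I * t * (k * h : ℝ)) • S (k * h) (e t (J h v)) := by
      have h1 : e t (bx S E (k * h) h (J r v)) = bx S E (k * h) h (e t (J r v)) :=
        FB.ap (e_bx F hh t (k * h)) (J r v)
      rw [hu, ← h1, F.box_J _ _ _ _ hh (by positivity) hk1, map_smul]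
      congr 1
      exact FB.ap (F.e_S t (k * h)) (J h v)
    have hPu : Pj S J (k * h) h u = ((Real.sqrt (h / r) : ℝ) : ℂ) •
        Complex.exp (2 * Real.pi * I * t * (k * h : ℝ)) •
          S (k * h) (J h (ContinuousLinearMap.adjoint (J h) (e t (J h v)))) := by
      rw [← Pj_bx F hh, hbu, map_smul, map_smul]
      congr 2
      rw [Pj_apply F]
      have hS : ∀ x : K, S (-(k * h)) (S (k * h) x) = x := fun x => FB.ap (S_neg_mul F _) x
      rw [hS]
    have hdk : d k = ((Real.sqrt (h / r) : ℝ) : ℂ) •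
        Complex.exp (2 * Real.pi * I * t * (k * h : ℝ)) •
          S (k * h) (J h (ContinuousLinearMap.adjoint (J h) w) - w) := by
      show Pj S J (k * h) h u - bx S E (k * h) h u = _
      rw [hbu, hPu, ← smul_sub, ← smul_sub, ← map_sub]
      congr 3
      rw [hw, map_sub, map_sub, F.J_iso _ _ hh]
      abel
    have hex : ‖Complex.exp (2 * Real.pi * I * t * (k * h : ℝ))‖ = 1 := by
      have : (2 * Real.pi * I * t * (k * h : ℝ) : ℂ) = ((2 * Real.pi * t * (k * h) : ℝ) : ℂ) * I := by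
        push_cast; ring
      rw [this, Complex.norm_exp_ofReal_mul_I]
    rw [hdk, norm_smul, norm_smul, hex, one_mul, S_norm F, mul_pow, Complex.norm_real,
      Real.norm_of_nonneg (Real.sqrt_nonneg _), Real.sq_sqrt (div_pos hh hr).le]
    refine mul_le_mul_of_nonneg_left ?_ (div_pos hh hr).le
    refine pow_le_pow_left₀ (norm_nonneg _) ?_ 2
    refine (norm_sub_le _ _).trans ?_
    rw [J_norm F hh]
    have := Ja_norm F hh w
    linarith
  have hd3 : ‖∑ k ∈ Finset.range (n + 1), d k‖ ^ 2 ≤ (2 * ‖w‖) ^ 2 := by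
    rw [norm_sum_sq F hh (n + 1) d hd1]
    refine (Finset.sum_le_sum hd2).trans (le_of_eq ?_)
    rw [Finset.sum_const, Finset.card_range, nsmul_eq_mul]
    have : ((n + 1 : ℕ) : ℝ) * (h / r * (2 * ‖w‖) ^ 2) = (((n + 1 : ℕ) : ℝ) * h) / r * (2 * ‖w‖) ^ 2 := by
      ring
    rw [this, hnh, div_self hr.ne', one_mul]
  have hd4 : ‖∑ k ∈ Finset.range (n + 1), d k‖ ≤ 2 * ‖w‖ :=
    (sq_le_sq₀ (norm_nonneg _) (by positivity)).1 hd3
  have hfin : ∑ k ∈ Finset.range (n + 1), Pj S J (k * h) h u - u =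
      ∑ k ∈ Finset.range (n + 1), d k := by
    conv_lhs => rw [hu2]
    rw [hd, Finset.sum_sub_distrib]
    congr 1
    rw [← hu2]
  rw [hfin]
  refine hd4.trans ?_
  nlinarith

theorem flat {r : ℝ} (hr : 0 < r) (u : K) : Tendsto (fun n : ℕ => ∑ k ∈ Finset.range (n + 1),
    S (k * (r / (n + 1 : ℕ))) (J (r / (n + 1 : ℕ)) (ContinuousLinearMap.adjoint (J (r / (n + 1 : ℕ)))
      (S (-(k * (r / (n + 1 : ℕ)))) u)))) atTop (𝓝 (E r 0 u)) := by
  -- `Q n = ∑ P_k`
  set Q : ℕ → K → K := fun n x => ∑ k ∈ Finset.range (n + 1),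
    Pj S J (k * (r / (n + 1 : ℕ))) (r / (n + 1 : ℕ)) x with hQ
  have hh : ∀ n : ℕ, 0 < r / ((n + 1 : ℕ) : ℝ) := fun n => div_pos hr (by positivity)
  have hQn : ∀ n x, ‖Q n x‖ ≤ ‖x‖ := fun n x => sum_Pj_norm F (hh n) (n + 1) x
  have hQs : ∀ n x y, Q n (x - y) = Q n x - Q n y := by
    intro n x y
    simp only [hQ, map_sub, Finset.sum_sub_distrib]
  have hQa : ∀ n x y, Q n (x + y) = Q n x + Q n y := by
    intro n x y
    simp only [hQ, map_add, Finset.sum_add_distrib]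
  have hQE : ∀ n x, Q n (E r 0 x) = Q n x := by
    intro n x
    simp only [hQ]
    refine Finset.sum_congr rfl fun k hk => ?_
    have hn : (0 : ℝ) < ((n + 1 : ℕ) : ℝ) := by positivity
    have hk1 : (k : ℝ) * (r / (n + 1 : ℕ)) + r / (n + 1 : ℕ) ≤ r := by
      have h1 : (k : ℝ) + 1 ≤ ((n + 1 : ℕ) : ℝ) := by exact_mod_cast Finset.mem_range.1 hk
      have h2 : (k : ℝ) * (r / (n + 1 : ℕ)) + r / (n + 1 : ℕ) = ((k : ℝ) + 1) * (r / (n + 1 : ℕ)) := by
        ring
      rw [h2]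
      calc ((k : ℝ) + 1) * (r / (n + 1 : ℕ)) ≤ ((n + 1 : ℕ) : ℝ) * (r / (n + 1 : ℕ)) :=
            mul_le_mul_of_nonneg_right h1 (hh n).le
        _ = r := by field_simp
    have h3 := F.box_E (k * (r / (n + 1 : ℕ))) (r / (n + 1 : ℕ)) r 0 (hh n)
      (mul_nonneg (Nat.cast_nonneg _) (hh n).le) hk1
    have h4 : bx S E (k * (r / (n + 1 : ℕ))) (r / (n + 1 : ℕ)) * E r 0 =
        bx S E (k * (r / (n + 1 : ℕ))) (r / (n + 1 : ℕ)) := by
      rw [h3]
      simp [bx]
    rw [← Pj_bx F (hh n), ← Pj_bx F (hh n) _ x]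
    congr 1
    exact FB.ap h4 x
  -- good vectors
  have good1 : ∀ (t : ℝ) (v : H), Tendsto (fun n => Q n (e t (J r v))) atTop (𝓝 (e t (J r v))) := by
    intro t v
    rw [tendsto_iff_norm_sub_tendsto_zero]
    refine squeeze_zero (fun _ => norm_nonneg _) (fun n => sum_Pj_eJ F hr n t v) ?_
    have h1 : Tendsto (fun n : ℕ => r / ((n + 1 : ℕ) : ℝ)) atTop (𝓝 0) := by
      have := tendsto_const_div_atTop_nhds_zero_nat r
      exact (tendsto_add_atTop_iff_nat (f := fun n : ℕ => r / (n : ℝ)) 1).2 this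
    have h2 : Continuous fun x : ℝ => 2 * (Real.exp (2 * Real.pi * |t| * x) - 1) * ‖v‖ := by
      fun_prop
    have h3 := (h2.tendsto 0).comp h1
    simpa [Function.comp_def] using h3
  have good2 : ∀ (s : Finset ℤ) (c : ℤ → ℝ) (v : ℤ → H),
      Tendsto (fun n => Q n (∑ m ∈ s, e (c m) (J r (v m)))) atTop
        (𝓝 (∑ m ∈ s, e (c m) (J r (v m)))) := by
    intro s c v
    have h1 : ∀ n, Q n (∑ m ∈ s, e (c m) (J r (v m))) = ∑ m ∈ s, Q n (e (c m) (J r (v m))) := by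
      intro n
      simp only [hQ, map_sum]
      exact Finset.sum_comm
    simp only [h1]
    exact tendsto_finsetSum _ fun m _ => good1 _ _
  have hmain : Tendsto (fun n => Q n u) atTop (𝓝 (E r 0 u)) := by
    have hf := F.fourier r hr u
    rw [Metric.tendsto_atTop]
    intro ε hε
    have hf1 := (Metric.tendsto_nhds.1 hf) (ε / 3) (by positivity)
    obtain ⟨s, hs⟩ := hf1.exists
    set x : K := ∑ m ∈ s, e ((m : ℝ) / r)
      (J r (ContinuousLinearMap.adjoint (J r) (e (-((m : ℝ) / r)) u))) with hx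
    have hg := good2 s (fun m => (m : ℝ) / r)
      (fun m => ContinuousLinearMap.adjoint (J r) (e (-((m : ℝ) / r)) u))
    rw [Metric.tendsto_atTop] at hg
    obtain ⟨n0, hn0⟩ := hg (ε / 3) (by positivity)
    refine ⟨n0, fun n hn => ?_⟩
    have h1 := hn0 n hn
    rw [dist_eq_norm] at h1 ⊢
    rw [dist_eq_norm] at hs
    have h2 : Q n u - E r 0 u = (Q n (E r 0 u - x)) + (Q n x - x) + (x - E r 0 u) := by
      rw [hQs, hQE]; abel
    rw [h2]
    have h3 : ‖Q n (E r 0 u - x)‖ ≤ ‖x - E r 0 u‖ := by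
      rw [norm_sub_rev x]; exact hQn _ _
    calc ‖Q n (E r 0 u - x) + (Q n x - x) + (x - E r 0 u)‖
        ≤ ‖Q n (E r 0 u - x)‖ + ‖Q n x - x‖ + ‖x - E r 0 u‖ := norm_add₃_le
      _ < ε := by
          have h1' : ‖Q n x - x‖ < ε / 3 := h1
          have hs' : ‖x - E r 0 u‖ < ε / 3 := hs
          linarith
  exact hmain

theorem exhaust (tail : ∀ (u : K) (R δ : ℝ), 0 < R → (∀ t : ℝ, |t| ≤ 1 / R → ‖e t u - u‖ ≤ δ) →
    ‖u - bx S E (-R) (2 * R) u‖ ≤ 2 * δ) (u : K) :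
    Tendsto (fun R : ℝ => bx S E (-R) (2 * R) u) atTop (𝓝 u) := by
  rw [Metric.tendsto_nhds]
  intro ε hε
  have h1 := F.e_cont u
  have h2 := Metric.continuousAt_iff.1 (h1.continuousAt (x := 0)) (ε / 4) (by positivity)
  obtain ⟨δ, hδ, h3⟩ := h2
  filter_upwards [eventually_gt_atTop (2 / δ)] with R hR
  have hR0 : 0 < R := lt_trans (by positivity) hR
  have h4 := tail u R (ε / 4) hR0 (fun t ht => by
    have h5 : dist t 0 < δ := by
      rw [Real.dist_0_eq_abs]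
      refine lt_of_le_of_lt ht ?_
      rw [div_lt_iff₀ hR0]
      rw [div_lt_iff₀ hδ] at hR
      nlinarith
    have h6 := h3 h5
    rw [F.e_zero, dist_eq_norm] at h6
    exact h6.le)
  rw [dist_eq_norm, norm_sub_rev]
  linarith

/-- assembly of `Frame0` -/
theorem toFrame0 (tail : ∀ (u : K) (R δ : ℝ), 0 < R → (∀ t : ℝ, |t| ≤ 1 / R → ‖e t u - u‖ ≤ δ) →
    ‖u - bx S E (-R) (2 * R) u‖ ≤ 2 * δ) : Frame0 κ e S J E where
  e_zero := F.e_zero
  e_add := F.e_add
  e_star := F.e_star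
  e_cont := F.e_cont
  S_zero := F.S_zero
  S_add := F.S_add
  S_star := F.S_star
  S_cont := F.S_cont
  e_S := F.e_S
  κ_e := F.κ_e
  κ_S := F.κ_S
  κ_E := F.κ_E
  J_iso := F.J_iso
  κ_J := F.κ_J
  E_add := F.E_add
  E_star := F.E_star
  E_diff := F.E_diff
  E_norm := F.E_norm
  E_comm := F.E_comm
  e_J := F.e_J
  E_J := F.E_J
  box_E := F.box_E
  box_J := F.box_J
  box_orth := F.box_orth
  box_sum := F.box_sum
  fourier := F.fourier
  flat := fun _ hr u => F.flat hr u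
  exhaust := fun u => F.exhaust tail u
  tail := tail

end

end PreFrame0

/-! ### `tail` for the explicit operators -/

section conc

variable {H : Type} [NormedAddCommGroup H] [InnerProductSpace ℂ H] [CompleteSpace H]

theorem norm_sq_LR (f : LR H) : ‖f‖ ^ 2 = ∫ w, ‖(f : ℝ → H) w‖ ^ 2 := by
  have h1 : ((‖f‖ : ℂ)) ^ 2 = ∫ w, ((‖(f : ℝ → H) w‖ : ℂ)) ^ 2 := by
    have h2 := inner_self_eq_norm_sq_to_K (𝕜 := ℂ) f
    refine h2.symm.trans ?_
    rw [L2.inner_def]
    refine integral_congr_ae (Eventually.of_forall fun w => ?_)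
    exact inner_self_eq_norm_sq_to_K (𝕜 := ℂ) _
  have h3 : ∫ w, ((‖(f : ℝ → H) w‖ : ℂ)) ^ 2 = ((∫ w, ‖(f : ℝ → H) w‖ ^ 2 : ℝ) : ℂ) := by
    rw [← integral_complex_ofReal]
    push_cast
    rfl
  rw [h3] at h1
  exact_mod_cast h1

theorem integrable_sq (f : LR H) : Integrable (fun w => ‖(f : ℝ → H) w‖ ^ 2) := by
  have := (Lp.memLp f).integrable_norm_pow (p := 2) (by norm_num)
  simpa using this

theorem bx_mul {S : ℝ → LR H →L[ℂ] LR H} {E : ℝ → ℂ → LR H →L[ℂ] LR H}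
    (hS : ∀ p : ℝ, IsShift p (S p))
    (hE : ∀ (r : ℝ) (z : ℂ), 0 < r → IsMulOp (fun w : ℝ => Set.indicator (Set.Icc 0 r)
      (fun w : ℝ => Complex.exp (2 * Real.pi * I * z * w)) w) (E r z)) (p r : ℝ) (hr : 0 < r) :
    IsMulOp (fun w : ℝ => Set.indicator (Set.Icc p (p + r)) (fun _ => (1 : ℂ)) w)
      (bx S E p r) := by
  intro f
  have q : Measure.QuasiMeasurePreserving (fun s : ℝ => s - p) volume volume :=
    (measurePreserving_sub_right volume p).quasiMeasurePreserving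
  have h1 := hS p (E r 0 (S (-p) f))
  have h2 := q.ae_eq_comp (hE r 0 hr (S (-p) f))
  have h3 := q.ae_eq_comp (hS (-p) f)
  show ((S p (E r 0 (S (-p) f)) : LR H) : ℝ → H) =ᵐ[volume] _
  filter_upwards [h1, h2, h3] with s k1 k2 k3
  simp only [Function.comp_apply] at k2 k3
  rw [k1, k2, k3]
  have h4 : s - p - -p = s := by ring
  rw [h4]
  by_cases h : s ∈ Set.Icc p (p + r)
  · have h' : s - p ∈ Set.Icc 0 r := ⟨by linarith [h.1], by linarith [h.2]⟩
    rw [Set.indicator_of_mem h, Set.indicator_of_mem h']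
    simp
  · have h' : s - p ∉ Set.Icc 0 r := fun h'' => h ⟨by linarith [h''.1], by linarith [h''.2]⟩
    rw [Set.indicator_of_notMem h, Set.indicator_of_notMem h']

theorem avg_lower {R w : ℝ} (hR : 0 < R) (hw : R < |w|) :
    1 ≤ R * ∫ t in Set.Icc 0 (1 / R), ‖Complex.exp (2 * Real.pi * I * t * w) - 1‖ ^ 2 := by
  have hw0 : w ≠ 0 := by
    intro h; rw [h, abs_zero] at hw; linarith
  have hpi := Real.pi_pos
  have h1 : ∀ t : ℝ, ‖Complex.exp (2 * Real.pi * I * t * w) - 1‖ ^ 2 =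
      2 - 2 * Real.cos (2 * Real.pi * w * t) := by
    intro t
    have e1 : Complex.exp (2 * Real.pi * I * t * w) =
        Complex.exp (((2 * Real.pi * w * t : ℝ) : ℂ) * I) := by
      congr 1; push_cast; ring
    rw [e1, Complex.exp_mul_I, ← Complex.ofReal_cos, ← Complex.ofReal_sin, ← Complex.normSq_eq_norm_sq,
      Complex.normSq_apply]
    simp only [Complex.sub_re, Complex.add_re, Complex.ofReal_re, Complex.mul_re, Complex.ofReal_im,
      Complex.I_re, Complex.I_im, Complex.one_re, Complex.sub_im, Complex.add_im, Complex.mul_im,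
      Complex.one_im]
    nlinarith [Real.sin_sq_add_cos_sq (2 * Real.pi * w * t)]
  simp only [h1]
  have hR1 : 0 ≤ 1 / R := by positivity
  rw [integral_Icc_eq_integral_Ioc, ← intervalIntegral.integral_of_le hR1]
  have h2 : ∀ t ∈ Set.uIcc 0 (1 / R), HasDerivAt
      (fun t : ℝ => 2 * t - (Real.sin (2 * Real.pi * w * t)) / (Real.pi * w))
      (2 - 2 * Real.cos (2 * Real.pi * w * t)) t := by
    intro t _
    have h3 : HasDerivAt (fun t : ℝ => 2 * Real.pi * w * t) (2 * Real.pi * w) t := by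
      simpa using (hasDerivAt_id t).const_mul (2 * Real.pi * w)
    have h4 := (Real.hasDerivAt_sin (2 * Real.pi * w * t)).comp t h3
    have h5 := (((hasDerivAt_id t).const_mul 2).sub (h4.div_const (Real.pi * w)))
    refine h5.congr_deriv ?_
    field_simp
  rw [intervalIntegral.integral_eq_sub_of_hasDerivAt h2
    (Continuous.intervalIntegrable (by fun_prop) _ _)]
  simp only [mul_zero, Real.sin_zero, zero_div, sub_zero]
  have h6 : |Real.sin (2 * Real.pi * w * (1 / R)) / (Real.pi * w)| ≤ 1 / (Real.pi * R) := by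
    rw [abs_div, abs_mul, abs_of_pos hpi]
    have h7 := Real.abs_sin_le_one (2 * Real.pi * w * (1 / R))
    exact div_le_div₀ zero_le_one h7 (by positivity) (mul_le_mul_of_nonneg_left hw.le hpi.le)
  have h8 := (abs_le.1 h6).2
  have h9 : R * (2 * (1 / R) - Real.sin (2 * Real.pi * w * (1 / R)) / (Real.pi * w)) ≥
      R * (2 * (1 / R) - 1 / (Real.pi * R)) :=
    mul_le_mul_of_nonneg_left (by linarith) hR.le
  have h10 : R * (2 * (1 / R) - 1 / (Real.pi * R)) = 2 - 1 / Real.pi := by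
    field_simp
  have h11 : 1 / Real.pi ≤ 1 := by
    rw [div_le_one hpi]; linarith [Real.pi_gt_three]
  linarith

theorem tail_mul {e S : ℝ → LR H →L[ℂ] LR H} {E : ℝ → ℂ → LR H →L[ℂ] LR H}
    (he : ∀ t : ℝ, IsMulOp (fun w : ℝ => Complex.exp (2 * Real.pi * I * t * w)) (e t))
    (hS : ∀ p : ℝ, IsShift p (S p))
    (hE : ∀ (r : ℝ) (z : ℂ), 0 < r → IsMulOp (fun w : ℝ => Set.indicator (Set.Icc 0 r)
      (fun w : ℝ => Complex.exp (2 * Real.pi * I * z * w)) w) (E r z)) :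
    ∀ (u : LR H) (R δ : ℝ), 0 < R → (∀ t : ℝ, |t| ≤ 1 / R → ‖e t u - u‖ ≤ δ) →
      ‖u - bx S E (-R) (2 * R) u‖ ≤ 2 * δ := by
  intro u R δ hR hδ
  have hδ0 : 0 ≤ δ := (norm_nonneg _).trans (hδ 0 (by rw [abs_zero]; positivity))
  set g : ℝ → ℝ := fun w => ‖(u : ℝ → H) w‖ ^ 2 with hg
  have hgi : Integrable g := integrable_sq u
  have hg0 : ∀ w, 0 ≤ g w := fun w => sq_nonneg _
  set G : ℝ → ℝ → ℝ := fun t w => ‖Complex.exp (2 * Real.pi * I * t * w) - 1‖ ^ 2 with hG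
  have hG4 : ∀ t w, G t w ≤ 4 := by
    intro t w
    have h1 : ‖Complex.exp (2 * Real.pi * I * t * w)‖ = 1 := by
      have : (2 * Real.pi * I * t * w : ℂ) = ((2 * Real.pi * t * w : ℝ) : ℂ) * I := by
        push_cast; ring
      rw [this, Complex.norm_exp_ofReal_mul_I]
    have h2 := norm_sub_le (Complex.exp (2 * Real.pi * I * t * w)) 1
    rw [h1, norm_one] at h2
    show ‖Complex.exp (2 * Real.pi * I * t * w) - 1‖ ^ 2 ≤ 4
    nlinarith [norm_nonneg (Complex.exp (2 * Real.pi * I * t * w) - 1)]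
  have hG0 : ∀ t w, 0 ≤ G t w := fun t w => sq_nonneg _
  -- the norm of `e_t u - u`
  have hn : ∀ t, ‖e t u - u‖ ^ 2 = ∫ w, G t w * g w := by
    intro t
    rw [norm_sq_LR]
    refine integral_congr_ae ?_
    filter_upwards [Lp.coeFn_sub (e t u) u, he t u] with w h1 h2
    rw [h1, Pi.sub_apply, h2]
    show ‖_ • (u : ℝ → H) w - (u : ℝ → H) w‖ ^ 2 = _
    have h3 : Complex.exp (2 * Real.pi * I * t * w) • (u : ℝ → H) w - (u : ℝ → H) w =
        (Complex.exp (2 * Real.pi * I * t * w) - 1) • (u : ℝ → H) w := by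
      rw [sub_smul, one_smul]
    rw [h3, norm_smul, mul_pow]
  -- the norm of `u - bx u`
  have hb : ‖u - bx S E (-R) (2 * R) u‖ ^ 2 = ∫ w, Set.indicator (Set.Icc (-R) (-R + 2 * R))ᶜ g w := by
    rw [norm_sq_LR]
    refine integral_congr_ae ?_
    filter_upwards [Lp.coeFn_sub u (bx S E (-R) (2 * R) u),
      bx_mul hS hE (-R) (2 * R) (by positivity) u] with w h1 h2
    rw [h1, Pi.sub_apply, h2]
    by_cases h : w ∈ Set.Icc (-R) (-R + 2 * R)
    · rw [Set.indicator_of_mem h, Set.indicator_of_notMem (Set.notMem_compl_iff.2 h), one_smul,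
        sub_self, norm_zero]
      norm_num
    · rw [Set.indicator_of_notMem h, Set.indicator_of_mem (Set.mem_compl h), zero_smul, sub_zero]
  set μ : Measure ℝ := volume.restrict (Set.Icc 0 (1 / R)) with hμ
  have : IsFiniteMeasure μ := by
    rw [hμ]; infer_instance
  have hprod : Integrable (Function.uncurry fun t w => G t w * g w) (μ.prod volume) := by
    have h1 : Integrable (fun z : ℝ × ℝ => (4 : ℝ) * g z.2) (μ.prod volume) :=
      (integrable_const (4 : ℝ)).mul_prod hgi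
    refine h1.mono' ?_ ?_
    · refine AEStronglyMeasurable.mul ?_ ?_
      · have : Continuous fun z : ℝ × ℝ => G z.1 z.2 := by
          simp only [hG]; fun_prop
        exact this.aestronglyMeasurable
      · exact hgi.aestronglyMeasurable.comp_snd
    · refine Eventually.of_forall fun z => ?_
      show ‖G z.1 z.2 * g z.2‖ ≤ _
      rw [Real.norm_of_nonneg (mul_nonneg (hG0 _ _) (hg0 _))]
      exact mul_le_mul_of_nonneg_right (hG4 _ _) (hg0 _)
  have hswap : ∫ t, (∫ w, G t w * g w) ∂μ = ∫ w, ∫ t, G t w * g w ∂μ :=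
    integral_integral_swap hprod
  have hpt : ∀ w, Set.indicator (Set.Icc (-R) (-R + 2 * R))ᶜ g w ≤ R * ∫ t, G t w * g w ∂μ := by
    intro w
    rw [integral_mul_const]
    have h0 : 0 ≤ ∫ t, G t w ∂μ := integral_nonneg fun t => hG0 t w
    by_cases h : w ∈ Set.Icc (-R) (-R + 2 * R)
    · rw [Set.indicator_of_notMem (Set.notMem_compl_iff.2 h)]
      have := hg0 w
      positivity
    · rw [Set.indicator_of_mem (Set.mem_compl h)]
      have hw : R < |w| := by
        by_contra h1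
        rw [not_lt] at h1
        have h2 := abs_le.1 h1
        exact h ⟨h2.1, by linarith [h2.2]⟩
      have h3 : 1 ≤ R * ∫ t, G t w ∂μ := avg_lower hR hw
      rw [← mul_assoc]
      nlinarith [hg0 w]
  have hint : Integrable (fun w => ∫ t, G t w * g w ∂μ) := hprod.integral_prod_right
  have hfin : ‖u - bx S E (-R) (2 * R) u‖ ^ 2 ≤ δ ^ 2 := by
    rw [hb]
    calc ∫ w, Set.indicator (Set.Icc (-R) (-R + 2 * R))ᶜ g w
        ≤ ∫ w, R * ∫ t, G t w * g w ∂μ :=
          integral_mono (hgi.indicator measurableSet_Icc.compl) (hint.const_mul R) hpt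
      _ = R * ∫ t, (∫ w, G t w * g w) ∂μ := by rw [integral_const_mul, hswap]
      _ = R * ∫ t, ‖e t u - u‖ ^ 2 ∂μ := by simp only [hn]
      _ ≤ R * ∫ _t, δ ^ 2 ∂μ := by
          refine mul_le_mul_of_nonneg_left ?_ hR.le
          refine integral_mono_ae ?_ (integrable_const _) ?_
          · simp only [hn]
            exact hprod.integral_prod_left
          · rw [hμ]
            filter_upwards [ae_restrict_mem measurableSet_Icc] with t ht
            refine pow_le_pow_left₀ (norm_nonneg _) (hδ t ?_) 2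
            rw [abs_of_nonneg ht.1]; exact ht.2
      _ = δ ^ 2 := by
          rw [integral_const, smul_eq_mul, hμ, measureReal_restrict_apply_univ, Real.volume_real_Icc_of_le
            (by positivity)]
          field_simp
          ring
  have := (sq_le_sq₀ (norm_nonneg _) hδ0).1 hfin
  linarith

end conc

end

end Pool.Agent.H75.BC
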