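import Pool.Agent.H75.BC.Stmts4

/-!
FR4a: `bx p r` is the weak integral of the characters against the Fourier transform of `1_{[p,p+r]} * (n+1) 1_{[0,1/(n+1)]}`.
-/

set_option autoImplicit false

open MeasureTheory Filter Topology Complex
open scoped InnerProductSpace ENNReal FourierTransform Convolution

namespace Pool.Agent.H75.BC.T.FR4a

open Pool.Agent.W662.CB Pool.Agent.H75.BC

noncomputable section

/-- indicator of `[p, p+r]` -/
def box (p r : ℝ) (w : ℝ) : ℂ := Set.indicator (Set.Icc p (p + r)) (fun _ => (1 : ℂ)) w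

lemma box_integrable (p r : ℝ) : Integrable (box p r) := by
  unfold box
  rw [integrable_indicator_iff measurableSet_Icc]
  exact integrableOn_const (by simp) (by simp)

lemma fourier_box (p r t : ℝ) :
    𝓕 (box p r) t = Complex.exp (2 * Real.pi * I * p * (-t : ℝ)) * ir r (-t) := by
  rw [Real.fourier_real_eq_integral_exp_smul]
  unfold ir box
  have h1 : ∀ v : ℝ, Complex.exp (((-2 * Real.pi * v * t : ℝ) : ℂ) * I) •
      Set.indicator (Set.Icc p (p + r)) (fun _ => (1 : ℂ)) v =
      Set.indicator (Set.Icc p (p + r))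
        (fun v : ℝ => Complex.exp (2 * Real.pi * I * v * (-t : ℝ))) v := by
    intro v
    by_cases hv : v ∈ Set.Icc p (p + r)
    · rw [Set.indicator_of_mem hv, Set.indicator_of_mem hv, smul_eq_mul, mul_one]
      congr 1
      push_cast
      ring
    · rw [Set.indicator_of_notMem hv, Set.indicator_of_notMem hv, smul_zero]
  simp_rw [h1]
  rw [← integral_const_mul, ← integral_indicator measurableSet_Icc,
    ← integral_add_right_eq_self _ p]
  refine integral_congr_ae (Eventually.of_forall fun v => ?_)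
  simp only
  by_cases hv : v ∈ Set.Icc 0 r
  · have hv' : v + p ∈ Set.Icc p (p + r) := ⟨by linarith [hv.1], by linarith [hv.2]⟩
    rw [Set.indicator_of_mem hv, Set.indicator_of_mem hv', ← Complex.exp_add]
    congr 1
    push_cast
    ring
  · have hv' : v + p ∉ Set.Icc p (p + r) := fun h => hv ⟨by linarith [h.1], by linarith [h.2]⟩
    rw [Set.indicator_of_notMem hv, Set.indicator_of_notMem hv']

lemma norm_ir_le (r s : ℝ) (hr : 0 < r) : ‖ir r s‖ ≤ r := by
  unfold ir
  refine (norm_setIntegral_le_of_norm_le_const (C := 1) (by simp) ?_).trans ?_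
  · intro x _
    rw [Complex.norm_exp]
    simp
  · rw [Measure.real, Real.volume_Icc, sub_zero, ENNReal.toReal_ofReal hr.le, one_mul]

lemma norm_ir_mul_le (r s : ℝ) (hr : 0 < r) : ‖ir r s‖ * |s| ≤ 1 := by
  rcases eq_or_ne s 0 with h0 | h0
  · simp [h0]
  have hc : (2 * Real.pi * I * s : ℂ) ≠ 0 := by
    have : (s : ℂ) ≠ 0 := by exact_mod_cast h0
    simp [Real.pi_ne_zero, this]
  have h1 : ir r s = (Complex.exp (2 * Real.pi * I * s * r) - 1) / (2 * Real.pi * I * s) := by
    unfold ir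
    rw [integral_Icc_eq_integral_Ioc, ← intervalIntegral.integral_of_le hr.le]
    have h2 := integral_exp_mul_complex (a := 0) (b := r) hc
    simp only [Complex.ofReal_zero, mul_zero, Complex.exp_zero] at h2
    rw [← h2]
    refine intervalIntegral.integral_congr fun w _ => ?_
    exact congrArg Complex.exp (by ring)
  have h3 : ‖(2 * Real.pi * I * s : ℂ)‖ = 2 * Real.pi * |s| := by
    simp [abs_of_pos Real.pi_pos]
  have h4 : ‖Complex.exp (2 * Real.pi * I * s * r) - 1‖ ≤ 2 := by
    refine (norm_sub_le _ _).trans ?_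
    rw [Complex.norm_exp, norm_one]
    have : (2 * Real.pi * I * s * r : ℂ).re = 0 := by simp
    rw [this, Real.exp_zero]
    norm_num
  have hs : 0 < |s| := abs_pos.mpr h0
  rw [h1, norm_div, h3, div_mul_eq_mul_div, div_le_one (by positivity)]
  have := Real.pi_gt_three
  nlinarith

/-- `g_n`, explicitly -/
def gn (p r h : ℝ) (w : ℝ) : ℝ := h⁻¹ * max 0 (min (p + r) w - max p (w - h))

lemma gn_cont (p r h : ℝ) : Continuous (gn p r h) := by
  unfold gn
  fun_prop

lemma conv_eq (p r h w : ℝ) :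
    (box p r ⋆[ContinuousLinearMap.mul ℂ ℂ] (fun w => ((h⁻¹ : ℝ) : ℂ) * box 0 h w)) w =
      (gn p r h w : ℂ) := by
  rw [convolution_def]
  have h1 : ∀ t : ℝ, (ContinuousLinearMap.mul ℂ ℂ) (box p r t) (((h⁻¹ : ℝ) : ℂ) * box 0 h (w - t)) =
      Set.indicator (Set.Icc (max p (w - h)) (min (p + r) w)) (fun _ => ((h⁻¹ : ℝ) : ℂ)) t := by
    intro t
    rw [ContinuousLinearMap.mul_apply']
    unfold box
    by_cases ha : t ∈ Set.Icc p (p + r)
    · by_cases hb : w - t ∈ Set.Icc 0 (0 + h)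
      · have hc : t ∈ Set.Icc (max p (w - h)) (min (p + r) w) :=
          ⟨max_le ha.1 (by linarith [hb.2]), le_min ha.2 (by linarith [hb.1])⟩
        rw [Set.indicator_of_mem ha, Set.indicator_of_mem hb, Set.indicator_of_mem hc]
        ring
      · have hc : t ∉ Set.Icc (max p (w - h)) (min (p + r) w) := fun hc => hb
          ⟨by linarith [hc.2.trans (min_le_right _ _)], by linarith [(le_max_right _ _).trans hc.1]⟩
        rw [Set.indicator_of_mem ha, Set.indicator_of_notMem hb, Set.indicator_of_notMem hc]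
        ring
    · have hc : t ∉ Set.Icc (max p (w - h)) (min (p + r) w) := fun hc => ha
          ⟨(le_max_left _ _).trans hc.1, hc.2.trans (min_le_left _ _)⟩
      rw [Set.indicator_of_notMem ha, Set.indicator_of_notMem hc]
      ring
  simp_rw [h1]
  rw [integral_indicator measurableSet_Icc, setIntegral_const, Measure.real, Real.volume_Icc,
    Complex.real_smul]
  unfold gn
  rw [ENNReal.toReal_ofReal', max_comm]
  push_cast
  ring

lemma gn_nonneg (p r h w : ℝ) (hh : 0 < h) : 0 ≤ gn p r h w := by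
  have := hh.le
  unfold gn
  positivity

lemma gn_le (p r h w : ℝ) (hh : 0 < h) : gn p r h w ≤ 1 := by
  unfold gn
  rw [inv_mul_le_one₀ hh]
  refine max_le hh.le ?_
  have h1 := min_le_right (p + r) w
  have h2 := le_max_right p (w - h)
  linarith

lemma fourier_gn (p r : ℝ) (n : ℕ) (t : ℝ) :
    𝓕 (fun w => (gn p r (1 / (n + 1 : ℕ)) w : ℂ)) t = Gn p r n t := by
  have hh : (0 : ℝ) < 1 / (n + 1 : ℕ) := by positivity
  have h1 : (fun w => (gn p r (1 / (n + 1 : ℕ)) w : ℂ)) =
      (box p r ⋆[ContinuousLinearMap.mul ℂ ℂ]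
        (fun w => (((1 / (n + 1 : ℕ) : ℝ)⁻¹ : ℝ) : ℂ) * box 0 (1 / (n + 1 : ℕ)) w)) := by
    funext w
    rw [conv_eq p r _ w]
  rw [h1, Real.fourier_mul_convolution_eq (box_integrable p r)
    ((box_integrable 0 _).const_mul _), fourier_box]
  have h2 : 𝓕 (fun w => (((1 / (n + 1 : ℕ) : ℝ)⁻¹ : ℝ) : ℂ) * box 0 (1 / (n + 1 : ℕ)) w) t =
      (n + 1 : ℕ) * ir (1 / (n + 1 : ℕ)) (-t) := by
    have h3 : 𝓕 (fun w => (((1 / (n + 1 : ℕ) : ℝ)⁻¹ : ℝ) : ℂ) * box 0 (1 / (n + 1 : ℕ)) w) t =
        (((1 / (n + 1 : ℕ) : ℝ)⁻¹ : ℝ) : ℂ) * 𝓕 (box 0 (1 / (n + 1 : ℕ))) t := by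
      rw [Real.fourier_real_eq_integral_exp_smul, Real.fourier_real_eq_integral_exp_smul,
        ← integral_const_mul]
      refine integral_congr_ae (Eventually.of_forall fun v => ?_)
      simp only [smul_eq_mul]
      ring
    rw [h3, fourier_box]
    simp
  rw [h2]
  rfl

lemma gn_integrable (p r : ℝ) (n : ℕ) :
    Integrable (fun w => (gn p r (1 / (n + 1 : ℕ)) w : ℂ)) := by
  have hh : (0 : ℝ) < 1 / (n + 1 : ℕ) := by positivity
  have h1 : (fun w => (gn p r (1 / (n + 1 : ℕ)) w : ℂ)) =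
      (box p r ⋆[ContinuousLinearMap.mul ℂ ℂ]
        (fun w => (((1 / (n + 1 : ℕ) : ℝ)⁻¹ : ℝ) : ℂ) * box 0 (1 / (n + 1 : ℕ)) w)) := by
    funext w
    rw [conv_eq p r _ w]
  rw [h1]
  exact (box_integrable p r).integrable_convolution _ ((box_integrable 0 _).const_mul _)

lemma Gn_cont (p r : ℝ) (n : ℕ) : Continuous (Gn p r n) := by
  have h : Gn p r n = 𝓕 (fun w => (gn p r (1 / (n + 1 : ℕ)) w : ℂ)) := by
    funext t
    exact (fourier_gn p r n t).symm
  rw [h]
  exact VectorFourier.fourierIntegral_continuous Real.continuous_fourierChar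
    (by fun_prop) (gn_integrable p r n)

lemma Gn_integrable (p r : ℝ) (hr : 0 < r) (n : ℕ) : Integrable (Gn p r n) := by
  have hh : (0 : ℝ) < 1 / (n + 1 : ℕ) := by positivity
  refine Integrable.mono' (integrable_inv_one_add_sq.const_mul
    (((n + 1 : ℕ) : ℝ) * (r * (1 / (n + 1 : ℕ)) + 1))) (Gn_cont p r n).aestronglyMeasurable
    (Eventually.of_forall fun t => ?_)
  have h1 : ‖Gn p r n t‖ = ((n + 1 : ℕ) : ℝ) * (‖ir r (-t)‖ * ‖ir (1 / (n + 1 : ℕ)) (-t)‖) := by
    unfold Gn
    rw [norm_mul, norm_mul, norm_mul, Complex.norm_exp]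
    have : (2 * Real.pi * I * p * (-t : ℝ) : ℂ).re = 0 := by simp
    rw [this, Real.exp_zero, Complex.norm_natCast]
    ring
  have a1 := norm_ir_le r (-t) hr
  have a2 := norm_ir_le (1 / (n + 1 : ℕ)) (-t) hh
  have b1 := norm_ir_mul_le r (-t) hr
  have b2 := norm_ir_mul_le (1 / (n + 1 : ℕ)) (-t) hh
  rw [abs_neg] at b1 b2
  have h2 : 0 < 1 + t ^ 2 := by positivity
  rw [← div_eq_mul_inv, le_div_iff₀ h2, h1, mul_assoc]
  refine mul_le_mul_of_nonneg_left ?_ (by positivity)
  have c1 := mul_le_mul a1 a2 (norm_nonneg _) hr.le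
  have c2 := mul_le_mul b1 b2 (by positivity) zero_le_one
  have c3 : ‖ir r (-t)‖ * |t| * (‖ir (1 / (n + 1 : ℕ)) (-t)‖ * |t|) =
      ‖ir r (-t)‖ * ‖ir (1 / (n + 1 : ℕ)) (-t)‖ * t ^ 2 := by
    rw [← sq_abs t]
    ring
  rw [c3] at c2
  nlinarith

lemma inversion (p r : ℝ) (hr : 0 < r) (n : ℕ) (w : ℝ) :
    ∫ t : ℝ, Complex.exp (2 * Real.pi * I * t * w) * Gn p r n t =
      (gn p r (1 / (n + 1 : ℕ)) w : ℂ) := by
  have h0 : 𝓕 (fun w => (gn p r (1 / (n + 1 : ℕ)) w : ℂ)) = Gn p r n := by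
    funext t
    exact fourier_gn p r n t
  have h1 := Continuous.fourierInv_fourier_eq (f := fun w => (gn p r (1 / (n + 1 : ℕ)) w : ℂ))
    (by have := gn_cont p r (1 / (n + 1 : ℕ)); fun_prop) (gn_integrable p r n)
    (by rw [h0]; exact Gn_integrable p r hr n)
  have h2 := congrFun h1 w
  rw [h0, Real.fourierInv_eq'] at h2
  rw [← h2]
  refine integral_congr_ae (Eventually.of_forall fun v => ?_)
  have h3 : inner ℝ v w = v * w := by simp [mul_comm]
  simp only [smul_eq_mul]
  rw [h3]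
  congr 2
  push_cast
  ring

lemma gn_tendsto (p r w : ℝ) (hw : w ≠ p) :
    Tendsto (fun n : ℕ => (gn p r (1 / (n + 1 : ℕ)) w : ℂ)) atTop (𝓝 (box p r w)) := by
  have hlim : Tendsto (fun n : ℕ => (1 : ℝ) / (n + 1 : ℕ)) atTop (𝓝 0) := by
    have := tendsto_one_div_add_atTop_nhds_zero_nat (𝕜 := ℝ)
    simpa using this
  apply tendsto_const_nhds.congr'
  unfold box
  rcases lt_or_gt_of_ne hw with h | h
  · refine Eventually.of_forall fun n => ?_
    change Set.indicator (Set.Icc p (p + r)) (fun _ => (1 : ℂ)) w = (gn p r (1 / (n + 1 : ℕ)) w : ℂ)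
    rw [Set.indicator_of_notMem (fun hc => absurd hc.1 (not_le.mpr h))]
    unfold gn
    have h1 := min_le_right (p + r) w
    have h2 := le_max_left p (w - 1 / (n + 1 : ℕ))
    rw [max_eq_left (by linarith)]
    simp
  · rcases le_or_gt w (p + r) with h' | h'
    · filter_upwards [hlim.eventually (gt_mem_nhds (sub_pos.mpr h))] with n hn
      have hm : w ∈ Set.Icc p (p + r) := ⟨h.le, h'⟩
      rw [Set.indicator_of_mem hm]
      unfold gn
      rw [min_eq_right h', max_eq_right (by linarith : p ≤ w - 1 / (n + 1 : ℕ))]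
      have hh : (0 : ℝ) < 1 / (n + 1 : ℕ) := by positivity
      rw [sub_sub_cancel, max_eq_right hh.le, inv_mul_cancel₀ hh.ne']
      simp
    · filter_upwards [hlim.eventually (gt_mem_nhds (sub_pos.mpr h'))] with n hn
      rw [Set.indicator_of_notMem (fun hc => absurd hc.2 (not_le.mpr h'))]
      unfold gn
      have h1 := min_le_left (p + r) w
      have h2 := le_max_right p (w - 1 / (n + 1 : ℕ))
      rw [max_eq_left (by linarith)]
      simp

lemma gn_norm_le (p r : ℝ) (n : ℕ) (w : ℝ) : ‖(gn p r (1 / (n + 1 : ℕ)) w : ℂ)‖ ≤ 1 := by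
  have hh : (0 : ℝ) < 1 / (n + 1 : ℕ) := by positivity
  rw [Complex.norm_real, Real.norm_eq_abs, abs_of_nonneg (gn_nonneg p r _ w hh)]
  exact gn_le p r _ w hh

lemma fubini (p r : ℝ) (hr : 0 < r) (n : ℕ) (ρ : ℝ → ℂ) (hρ : Integrable ρ) :
    ∫ t : ℝ, Gn p r n t * ∫ w : ℝ, Complex.exp (2 * Real.pi * I * t * w) * ρ w =
      ∫ w : ℝ, (gn p r (1 / (n + 1 : ℕ)) w : ℂ) * ρ w := by
  have hI : Integrable (fun z : ℝ × ℝ => Complex.exp (2 * Real.pi * I * z.1 * z.2) *
      (Gn p r n z.1 * ρ z.2)) (volume.prod volume) := by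
    refine Integrable.bdd_mul (c := 1) ((Gn_integrable p r hr n).mul_prod hρ) ?_ ?_
    · exact Continuous.aestronglyMeasurable (by fun_prop)
    · refine Eventually.of_forall fun z => ?_
      rw [Complex.norm_exp]
      simp
  calc ∫ t : ℝ, Gn p r n t * ∫ w : ℝ, Complex.exp (2 * Real.pi * I * t * w) * ρ w
      = ∫ t : ℝ, ∫ w : ℝ, Complex.exp (2 * Real.pi * I * t * w) * (Gn p r n t * ρ w) := by
        refine integral_congr_ae (Eventually.of_forall fun t => ?_)
        simp only
        rw [← integral_const_mul]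
        refine integral_congr_ae (Eventually.of_forall fun w => ?_)
        simp only
        ring
    _ = ∫ w : ℝ, ∫ t : ℝ, Complex.exp (2 * Real.pi * I * t * w) * (Gn p r n t * ρ w) :=
        integral_integral_swap hI
    _ = ∫ w : ℝ, (gn p r (1 / (n + 1 : ℕ)) w : ℂ) * ρ w := by
        refine integral_congr_ae (Eventually.of_forall fun w => ?_)
        simp only
        rw [← inversion p r hr n w, ← integral_mul_const]
        refine integral_congr_ae (Eventually.of_forall fun t => ?_)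
        simp only
        ring

/-- FR4a -/
theorem main : S_BoxInt := by
  intro H _ _ _ e S E he hS hE f g p r hr
  set ρ : ℝ → ℂ := fun w => ⟪f w, g w⟫_ℂ with hρd
  have hρ : Integrable ρ := L2.integrable_inner _ _
  have h1 : ∀ t : ℝ, ⟪f, e t g⟫_ℂ = ∫ w : ℝ, Complex.exp (2 * Real.pi * I * t * w) * ρ w := by
    intro t
    rw [L2.inner_def]
    refine integral_congr_ae ?_
    filter_upwards [he t g] with w hw
    rw [hw, inner_smul_right]
  have h2 : ⟪f, bx S E p r g⟫_ℂ = ∫ w : ℝ, box p r w * ρ w := by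
    rw [L2.inner_def]
    refine integral_congr_ae ?_
    have a1 := hS p (E r 0 (S (-p) g))
    have a2 := (hE r 0 hr (S (-p) g))
    have a3 := hS (-p) g
    have b2 := (measurePreserving_sub_right volume p).quasiMeasurePreserving.ae a2
    have b3 := (measurePreserving_sub_right volume p).quasiMeasurePreserving.ae a3
    filter_upwards [a1, b2, b3] with w h1 h2 h3
    have h4 : (bx S E p r g : LR H) = S p (E r 0 (S (-p) g)) := rfl
    rw [h4, h1, h2, h3, inner_smul_right, sub_neg_eq_add, sub_add_cancel]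
    congr 1
    unfold box
    by_cases hw : w ∈ Set.Icc p (p + r)
    · have hw' : w - p ∈ Set.Icc 0 r := ⟨by linarith [hw.1], by linarith [hw.2]⟩
      rw [Set.indicator_of_mem hw, Set.indicator_of_mem hw']
      simp
    · have hw' : w - p ∉ Set.Icc 0 r := fun hc => hw ⟨by linarith [hc.1], by linarith [hc.2]⟩
      rw [Set.indicator_of_notMem hw, Set.indicator_of_notMem hw']
  simp_rw [h1]
  rw [h2]
  have h3 : ∀ n : ℕ, ∫ t : ℝ, Gn p r n t * ∫ w : ℝ, Complex.exp (2 * Real.pi * I * t * w) * ρ w =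
      ∫ w : ℝ, (gn p r (1 / (n + 1 : ℕ)) w : ℂ) * ρ w := fun n => fubini p r hr n ρ hρ
  simp_rw [h3]
  refine tendsto_integral_of_dominated_convergence (fun w => ‖ρ w‖) ?_ hρ.norm ?_ ?_
  · intro n
    have := gn_cont p r (1 / (n + 1 : ℕ))
    exact (Continuous.aestronglyMeasurable (by fun_prop)).mul hρ.aestronglyMeasurable
  · intro n
    refine Eventually.of_forall fun w => ?_
    rw [norm_mul]
    exact mul_le_of_le_one_left (norm_nonneg _) (gn_norm_le p r n w)
  · have hae : ∀ᵐ w : ℝ, w ≠ p := by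
      have := (measure_singleton (μ := (volume : Measure ℝ)) p)
      exact compl_mem_ae_iff.mpr this
    filter_upwards [hae] with w hw
    exact (gn_tendsto p r w hw).mul_const _

end

end Pool.Agent.H75.BC.T.FR4a
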