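import Pool.Agent.H75.BC.RB
import Pool.Agent.H75.BC.Stmts2

/-!
L1: heat flow (helper2).
-/

set_option autoImplicit false

open MeasureTheory Filter Topology Complex
open scoped InnerProductSpace ENNReal

namespace Pool.Agent.H75.BC.Lw

open Pool.Agent.W662.CB Pool.Agent.H75.BC

noncomputable section

variable {H : Type} [NormedAddCommGroup H] [InnerProductSpace ℂ H] [CompleteSpace H]

/-! ### Spectral inequalities -/

/-- `1 - P^m ≤ m (1 - P)` and `(1 - P) P^{2m} ≤ 1 / (2m + 1)` for `0 ≤ P ≤ 1`. -/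
theorem real_ineq1 {t : ℝ} (h0 : 0 ≤ t) (m : ℕ) : 1 - t ^ m ≤ m * (1 - t) := by
  have := one_add_mul_le_pow (a := t - 1) (by linarith) m
  have e : (1 : ℝ) + (t - 1) = t := by ring
  rw [e] at this
  linarith

theorem real_ineq2 {t : ℝ} (h0 : 0 ≤ t) (h1 : t ≤ 1) (n : ℕ) : (1 - t) * t ^ n ≤ 1 / (n + 1) := by
  rw [le_div_iff₀ (by positivity)]
  have h2 : (n + 1 : ℝ) * t ^ n ≤ ∑ k ∈ Finset.range (n + 1), t ^ k := by
    have : ∑ k ∈ Finset.range (n + 1), t ^ n ≤ ∑ k ∈ Finset.range (n + 1), t ^ k := by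
      refine Finset.sum_le_sum fun k hk => ?_
      exact pow_le_pow_of_le_one h0 h1 (Nat.lt_succ_iff.1 (Finset.mem_range.1 hk))
    rw [Finset.sum_const, Finset.card_range, nsmul_eq_mul] at this
    push_cast at this
    exact this
  have h3 : (1 - t) * ∑ k ∈ Finset.range (n + 1), t ^ k = 1 - t ^ (n + 1) := by
    rw [mul_comm]
    have := geom_sum_mul_neg t (n + 1)
    exact this
  have h4 : (1 - t) * ((n + 1 : ℝ) * t ^ n) ≤ 1 - t ^ (n + 1) := by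
    rw [← h3]
    exact mul_le_mul_of_nonneg_left h2 (by linarith)
  have h5 : 0 ≤ t ^ (n + 1) := pow_nonneg h0 _
  nlinarith

theorem spec_01 {P : H →L[ℂ] H} (h0 : 0 ≤ P) (h1 : P ≤ 1) {t : ℝ} (ht : t ∈ spectrum ℝ P) :
    0 ≤ t ∧ t ≤ 1 := by
  refine ⟨spectrum_nonneg_of_nonneg h0 ht, ?_⟩
  have hsa : IsSelfAdjoint P := IsSelfAdjoint.of_nonneg h0
  have h2 : P ≤ algebraMap ℝ (H →L[ℂ] H) 1 := by rwa [map_one]
  exact (le_algebraMap_iff_spectrum_le (r := (1 : ℝ)) (a := P) hsa).1 h2 t ht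

theorem op_ineq1 {P : H →L[ℂ] H} (h0 : 0 ≤ P) (h1 : P ≤ 1) (m : ℕ) :
    1 - P ^ m ≤ (m : ℝ) • (1 - P) := by
  have hsa : IsSelfAdjoint P := IsSelfAdjoint.of_nonneg h0
  have e1 : 1 - P ^ m = cfc (fun t : ℝ => 1 - t ^ m) P := by
    rw [cfc_sub (fun _ : ℝ => (1 : ℝ)) (fun t : ℝ => t ^ m) P, cfc_const_one ℝ P,
      cfc_pow_id P m]
  have e2 : (m : ℝ) • (1 - P) = cfc (fun t : ℝ => (m : ℝ) * (1 - t)) P := by
    rw [cfc_const_mul (m : ℝ) (fun t : ℝ => 1 - t) P,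
      cfc_sub (fun _ : ℝ => (1 : ℝ)) (fun t : ℝ => t) P, cfc_const_one ℝ P, cfc_id' ℝ P]
  rw [e1, e2]
  refine cfc_mono (fun t ht => ?_)
  exact real_ineq1 (spec_01 h0 h1 ht).1 m

theorem op_ineq2 {P : H →L[ℂ] H} (h0 : 0 ≤ P) (h1 : P ≤ 1) (n : ℕ) :
    (1 - P) * P ^ n ≤ (1 / (n + 1 : ℝ)) • (1 : H →L[ℂ] H) := by
  have hsa : IsSelfAdjoint P := IsSelfAdjoint.of_nonneg h0
  have e1 : (1 - P) * P ^ n = cfc (fun t : ℝ => (1 - t) * t ^ n) P := by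
    rw [cfc_mul (fun t : ℝ => 1 - t) (fun t : ℝ => t ^ n) P,
      cfc_sub (fun _ : ℝ => (1 : ℝ)) (fun t : ℝ => t) P, cfc_const_one ℝ P, cfc_id' ℝ P,
      cfc_pow_id P n]
  have e2 : (1 / (n + 1 : ℝ)) • (1 : H →L[ℂ] H) = cfc (fun _ : ℝ => 1 / (n + 1 : ℝ)) P := by
    rw [cfc_const (1 / (n + 1 : ℝ)) P, Algebra.algebraMap_eq_smul_one]
  rw [e1, e2]
  refine cfc_mono (fun t ht => ?_)
  exact real_ineq2 (spec_01 h0 h1 ht).1 (spec_01 h0 h1 ht).2 n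

/-! ### The unitaries `ζ ↦ w* ζ w` -/

theorem norm_un {w : H →L[ℂ] H} (h : star w * w = 1) (v : H) : ‖w v‖ = ‖v‖ := by
  have h1 : ⟪w v, w v⟫_ℂ = ⟪v, v⟫_ℂ := by
    have h2 : ⟪v, (star w * w) v⟫_ℂ = ⟪w v, w v⟫_ℂ := by
      rw [ContinuousLinearMap.mul_apply, ContinuousLinearMap.star_eq_adjoint,
        ContinuousLinearMap.adjoint_inner_right]
    rw [← h2, h]
    rfl
  rw [inner_self_eq_norm_sq_to_K, inner_self_eq_norm_sq_to_K] at h1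
  have h2 : ‖w v‖ ^ 2 = ‖v‖ ^ 2 := by exact_mod_cast h1
  exact (sq_eq_sq₀ (norm_nonneg _) (norm_nonneg _)).1 h2

variable {M N : VonNeumannAlgebra H} {ξ : H} {U : ℝ → H →L[ℂ] H} {J : H → H}
  {ρ : (H →L[ℂ] H) → (H →L[ℂ] H)}

/-- `w` is a unitary of `N` -/
def Un (N : VonNeumannAlgebra H) (w : H →L[ℂ] H) : Prop := w ∈ N ∧ star w * w = 1 ∧ w * star w = 1

theorem Un.star {w : H →L[ℂ] H} (h : Un N w) : Un N (star w) :=
  ⟨star_mem h.1, by rw [star_star]; exact h.2.2, by rw [star_star]; exact h.2.1⟩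

theorem Un.mul {v w : H →L[ℂ] H} (hv : Un N v) (hw : Un N w) : Un N (v * w) := by
  refine ⟨mul_mem hv.1 hw.1, ?_, ?_⟩
  · rw [star_mul, mul_assoc, ← mul_assoc (Star.star v), hv.2.1, one_mul, hw.2.1]
  · rw [star_mul, mul_assoc, ← mul_assoc w, hw.2.2, one_mul, hv.2.2]

theorem Un.one : Un N (1 : H →L[ℂ] H) := ⟨one_mem _, by simp, by simp⟩

/-- `T w ζ = w* ζ w` -/
def Tw (ρ : (H →L[ℂ] H) → (H →L[ℂ] H)) (w : H →L[ℂ] H) : H →L[ℂ] H := star w * ρ w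

theorem ρ_un (hr : RAct M ξ U J ρ) {w : H →L[ℂ] H} (hw : Un N w) :
    star (ρ w) * ρ w = 1 := by
  rw [← RB.ρ_star hr, ← RB.ρ_mul hr, hw.2.2, RB.ρ_one hr]

theorem Tw_norm (hr : RAct M ξ U J ρ) {w : H →L[ℂ] H} (hw : Un N w) (v : H) :
    ‖Tw ρ w v‖ = ‖v‖ := by
  unfold Tw
  rw [ContinuousLinearMap.mul_apply, norm_un (by rw [star_star]; exact hw.2.2),
    norm_un (ρ_un hr hw)]

theorem Tw_sub {w : H →L[ℂ] H} (hw : Un N w) (v : H) : ‖Tw ρ w v - v‖ = ‖w v - ρ w v‖ := by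
  unfold Tw
  have : (star w * ρ w) v - v = star w (ρ w v - w v) := by
    rw [map_sub, ContinuousLinearMap.mul_apply]
    congr 1
    have : v = (star w * w) v := by rw [hw.2.1]; rfl
    exact this
  rw [this, norm_un (by rw [star_star]; exact hw.2.2), norm_sub_rev]

theorem Tw_star (hs : Std M N ξ U) (hr : RAct M ξ U J ρ) {w : H →L[ℂ] H} (hw : Un N w) :
    star (Tw ρ w) = Tw ρ (star w) := by
  unfold Tw
  rw [star_mul, star_star, ← RB.ρ_star hr]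
  exact hr.comm _ _ (hs.le _ (star_mem hw.1)) (hs.le _ hw.1)

theorem Tw_mul (hs : Std M N ξ U) (hr : RAct M ξ U J ρ) {v w : H →L[ℂ] H} (hv : Un N v)
    (hw : Un N w) : Tw ρ v * Tw ρ w = Tw ρ (w * v) := by
  unfold Tw
  rw [star_mul, RB.ρ_mul hr, mul_assoc, ← mul_assoc (ρ v), hr.comm v (star w) (hs.le _ hv.1)
    (hs.le _ (star_mem hw.1)), mul_assoc, mul_assoc]

theorem Tw_one (hr : RAct M ξ U J ρ) : Tw ρ 1 = 1 := by
  unfold Tw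
  rw [star_one, one_mul, RB.ρ_one hr]

theorem Tw_re (hs : Std M N ξ U) (hr : RAct M ξ U J ρ) {w : H →L[ℂ] H} (hw : Un N w) (v : H) :
    (⟪v, Tw ρ w v⟫_ℂ).re = ‖v‖ ^ 2 - ‖w v - ρ w v‖ ^ 2 / 2 := by
  have h1 := @norm_sub_sq ℂ H _ _ _ (Tw ρ w v) v
  rw [Tw_sub hw, Tw_norm hr hw] at h1
  have h2 : (⟪Tw ρ w v, v⟫_ℂ).re = (⟪v, Tw ρ w v⟫_ℂ).re := by
    rw [← inner_conj_symm, Complex.conj_re]
  have h3 : RCLike.re ⟪Tw ρ w v, v⟫_ℂ = (⟪v, Tw ρ w v⟫_ℂ).re := h2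
  rw [h3] at h1
  linarith

theorem Tw_re' (hs : Std M N ξ U) (hr : RAct M ξ U J ρ) {w : H →L[ℂ] H} (hw : Un N w) (v : H) :
    (⟪v, Tw ρ (star w) v⟫_ℂ).re = ‖v‖ ^ 2 - ‖w v - ρ w v‖ ^ 2 / 2 := by
  rw [← Tw_star hs hr hw, ContinuousLinearMap.star_eq_adjoint,
    ContinuousLinearMap.adjoint_inner_right, ← inner_conj_symm, Complex.conj_re, Tw_re hs hr hw]

/-! ### The heat operator -/

/-- the heat operator -/
def PP (ρ : (H →L[ℂ] H) → (H →L[ℂ] H)) {n : ℕ} (u : Fin n → H →L[ℂ] H) (μ : Fin n → ℝ) :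
    H →L[ℂ] H :=
  (1 / 2 : ℝ) • (1 : H →L[ℂ] H) +
    (1 / 2 : ℝ) • ∑ i, μ i • ((1 / 2 : ℝ) • Tw ρ (u i) + (1 / 2 : ℝ) • Tw ρ (star (u i)))

theorem re_smul' (c : ℝ) (v w : H) : (⟪v, c • w⟫_ℂ).re = c * (⟪v, w⟫_ℂ).re := by
  have : c • w = (c : ℂ) • w := (Complex.coe_smul c w).symm
  rw [this, inner_smul_right, Complex.re_ofReal_mul]

theorem PP_re (hs : Std M N ξ U) (hr : RAct M ξ U J ρ) {n : ℕ} {u : Fin n → H →L[ℂ] H}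
    {μ : Fin n → ℝ} (hu : ∀ i, Un N (u i)) (hμ1 : ∑ i, μ i = 1) (v : H) :
    (⟪v, PP ρ u μ v⟫_ℂ).re = ‖v‖ ^ 2 - (∑ i, μ i * ‖u i v - ρ (u i) v‖ ^ 2) / 4 := by
  unfold PP
  rw [ContinuousLinearMap.add_apply, ContinuousLinearMap.smul_apply, ContinuousLinearMap.smul_apply,
    inner_add_right, Complex.add_re, re_smul', re_smul', ContinuousLinearMap.sum_apply, inner_sum,
    Complex.re_sum]
  have h1 : ∀ i ∈ Finset.univ, (⟪v, (μ i • ((1 / 2 : ℝ) • Tw ρ (u i) +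
      (1 / 2 : ℝ) • Tw ρ (star (u i)))) v⟫_ℂ).re =
      μ i * (‖v‖ ^ 2 - ‖u i v - ρ (u i) v‖ ^ 2 / 2) := by
    intro i _
    rw [ContinuousLinearMap.smul_apply, re_smul', ContinuousLinearMap.add_apply,
      ContinuousLinearMap.smul_apply, ContinuousLinearMap.smul_apply, inner_add_right,
      Complex.add_re, re_smul', re_smul', Tw_re hs hr (hu i), Tw_re' hs hr (hu i)]
    ring
  rw [Finset.sum_congr rfl h1]
  have h2 : (⟪v, (1 : H →L[ℂ] H) v⟫_ℂ).re = ‖v‖ ^ 2 := by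
    have := inner_self_eq_norm_sq (𝕜 := ℂ) v
    exact this
  have h3 : ∑ i, μ i * (‖v‖ ^ 2 - ‖u i v - ρ (u i) v‖ ^ 2 / 2) =
      ‖v‖ ^ 2 - (∑ i, μ i * ‖u i v - ρ (u i) v‖ ^ 2) / 2 := by
    have : ∀ i, μ i * (‖v‖ ^ 2 - ‖u i v - ρ (u i) v‖ ^ 2 / 2) =
        μ i * ‖v‖ ^ 2 - (μ i * ‖u i v - ρ (u i) v‖ ^ 2) / 2 := fun i => by ring
    rw [Finset.sum_congr rfl fun i _ => this i, Finset.sum_sub_distrib, ← Finset.sum_mul, hμ1,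
      one_mul, Finset.sum_div]
  rw [h2, h3]
  ring

theorem PP_star (hs : Std M N ξ U) (hr : RAct M ξ U J ρ) {n : ℕ} {u : Fin n → H →L[ℂ] H}
    {μ : Fin n → ℝ} (hu : ∀ i, Un N (u i)) : IsSelfAdjoint (PP ρ u μ) := by
  unfold PP IsSelfAdjoint
  rw [star_add, star_smul, star_smul, star_one, star_sum, star_trivial]
  congr 2
  refine Finset.sum_congr rfl fun i _ => ?_
  rw [star_smul, star_trivial, star_add, star_smul, star_smul, star_trivial, Tw_star hs hr (hu i),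
    Tw_star hs hr (hu i).star, star_star, add_comm]

theorem PP_nonneg (hs : Std M N ξ U) (hr : RAct M ξ U J ρ) {n : ℕ} {u : Fin n → H →L[ℂ] H}
    {μ : Fin n → ℝ} (hu : ∀ i, Un N (u i)) (hμ : ∀ i, 0 ≤ μ i) (hμ1 : ∑ i, μ i = 1) :
    0 ≤ PP ρ u μ := by
  rw [ContinuousLinearMap.nonneg_iff_isPositive, ContinuousLinearMap.isPositive_def']
  refine ⟨PP_star hs hr hu, fun v => ?_⟩
  rw [ContinuousLinearMap.reApplyInnerSelf_apply, inner_re_symm]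
  change 0 ≤ (⟪v, PP ρ u μ v⟫_ℂ).re
  rw [PP_re hs hr hu hμ1]
  have h1 : ∑ i, μ i * ‖u i v - ρ (u i) v‖ ^ 2 ≤ ∑ i, μ i * (4 * ‖v‖ ^ 2) := by
    refine Finset.sum_le_sum fun i _ => mul_le_mul_of_nonneg_left ?_ (hμ i)
    have h2 : ‖u i v - ρ (u i) v‖ ≤ 2 * ‖v‖ := by
      refine (norm_sub_le _ _).trans ?_
      rw [norm_un (hu i).2.1, norm_un (ρ_un hr (hu i))]
      linarith
    calc ‖u i v - ρ (u i) v‖ ^ 2 ≤ (2 * ‖v‖) ^ 2 := by gcongr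
      _ = 4 * ‖v‖ ^ 2 := by ring
  rw [← Finset.sum_mul, hμ1, one_mul] at h1
  linarith

theorem PP_le (hs : Std M N ξ U) (hr : RAct M ξ U J ρ) {n : ℕ} {u : Fin n → H →L[ℂ] H}
    {μ : Fin n → ℝ} (hu : ∀ i, Un N (u i)) (hμ : ∀ i, 0 ≤ μ i) (hμ1 : ∑ i, μ i = 1) :
    PP ρ u μ ≤ 1 := by
  rw [ContinuousLinearMap.le_def, ContinuousLinearMap.isPositive_def']
  refine ⟨(IsSelfAdjoint.one _).sub (PP_star hs hr hu), fun v => ?_⟩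
  rw [ContinuousLinearMap.reApplyInnerSelf_apply, inner_re_symm]
  change 0 ≤ (⟪v, (1 - PP ρ u μ) v⟫_ℂ).re
  have h2 : (⟪v, (1 : H →L[ℂ] H) v⟫_ℂ).re = ‖v‖ ^ 2 := by
    have := inner_self_eq_norm_sq (𝕜 := ℂ) v
    exact this
  rw [ContinuousLinearMap.sub_apply, inner_sub_right, Complex.sub_re, PP_re hs hr hu hμ1, h2]
  have h1 : 0 ≤ ∑ i, μ i * ‖u i v - ρ (u i) v‖ ^ 2 :=
    Finset.sum_nonneg fun i _ => mul_nonneg (hμ i) (by positivity)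
  linarith

/-! ### Convex combinations of the `T w` -/

theorem hull_mul {S : Set (H →L[ℂ] H)} (hS : ∀ a ∈ S, ∀ b ∈ S, a * b ∈ S) :
    ∀ a ∈ convexHull ℝ S, ∀ b ∈ convexHull ℝ S, a * b ∈ convexHull ℝ S := by
  have h1 : ∀ a ∈ S, ∀ b ∈ convexHull ℝ S, a * b ∈ convexHull ℝ S := by
    intro a ha
    refine convexHull_min (t := {b | a * b ∈ convexHull ℝ S})
      (fun b hb => subset_convexHull ℝ S (hS a ha b hb)) ?_
    intro x hx y hy s t h0 h0' hst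
    change a * (s • x + t • y) ∈ convexHull ℝ S
    rw [mul_add, mul_smul_comm, mul_smul_comm]
    exact (convex_convexHull ℝ S) hx hy h0 h0' hst
  intro a ha b hb
  refine convexHull_min (t := {a | a * b ∈ convexHull ℝ S}) (fun a ha => h1 a ha b hb) ?_ ha
  intro x hx y hy s t h0 h0' hst
  change (s • x + t • y) * b ∈ convexHull ℝ S
  rw [add_mul, smul_mul_assoc, smul_mul_assoc]
  exact (convex_convexHull ℝ S) hx hy h0 h0' hst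

/-- the `T w` -/
def TS (N : VonNeumannAlgebra H) (ρ : (H →L[ℂ] H) → (H →L[ℂ] H)) : Set (H →L[ℂ] H) :=
  {T | ∃ w : H →L[ℂ] H, Un N w ∧ T = Tw ρ w}

theorem TS_mul (hs : Std M N ξ U) (hr : RAct M ξ U J ρ) :
    ∀ a ∈ TS N ρ, ∀ b ∈ TS N ρ, a * b ∈ TS N ρ := by
  rintro a ⟨v, hv, rfl⟩ b ⟨w, hw, rfl⟩
  exact ⟨w * v, hw.mul hv, Tw_mul hs hr hv hw⟩

theorem one_hull (hr : RAct M ξ U J ρ) : (1 : H →L[ℂ] H) ∈ convexHull ℝ (TS N ρ) :=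
  subset_convexHull ℝ _ ⟨1, Un.one, (Tw_one hr).symm⟩

theorem PP_hull (hr : RAct M ξ U J ρ) {n : ℕ} {u : Fin n → H →L[ℂ] H}
    {μ : Fin n → ℝ} (hu : ∀ i, Un N (u i)) (hμ : ∀ i, 0 ≤ μ i) (hμ1 : ∑ i, μ i = 1) :
    PP ρ u μ ∈ convexHull ℝ (TS N ρ) := by
  unfold PP
  refine (convex_convexHull ℝ (TS N ρ)) (one_hull hr) ?_ (by norm_num) (by norm_num) (by norm_num)
  refine (convex_convexHull ℝ (TS N ρ)).sum_mem (fun i _ => hμ i) hμ1 fun i _ => ?_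
  exact (convex_convexHull ℝ (TS N ρ)) (subset_convexHull ℝ _ ⟨u i, hu i, rfl⟩)
    (subset_convexHull ℝ _ ⟨_, (hu i).star, rfl⟩) (by norm_num) (by norm_num) (by norm_num)

theorem pow_hull (hs : Std M N ξ U) (hr : RAct M ξ U J ρ) {P : H →L[ℂ] H}
    (hP : P ∈ convexHull ℝ (TS N ρ)) (m : ℕ) : P ^ m ∈ convexHull ℝ (TS N ρ) := by
  induction m with
  | zero => rw [pow_zero]; exact one_hull hr
  | succ m ih => rw [pow_succ]; exact hull_mul (TS_mul hs hr) _ ih _ hP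

theorem hull_est {S : Set (H →L[ℂ] H)} {y : H} {a b : ℝ}
    (h : ∀ T ∈ S, ‖T y - y‖ ^ 2 ≤ a + b * (2 - 2 * (⟪ξ, T ξ⟫_ℂ).re)) :
    ∀ T ∈ convexHull ℝ S, ‖T y - y‖ ^ 2 ≤ a + b * (2 - 2 * (⟪ξ, T ξ⟫_ℂ).re) := by
  intro T hT
  refine convexHull_min
    (t := {T : H →L[ℂ] H | ‖T y - y‖ ^ 2 ≤ a + b * (2 - 2 * (⟪ξ, T ξ⟫_ℂ).re)}) h ?_ hT
  intro P hP Q hQ s t h0 h0' hst
  change ‖(s • P + t • Q) y - y‖ ^ 2 ≤ a + b * (2 - 2 * (⟪ξ, (s • P + t • Q) ξ⟫_ℂ).re)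
  change ‖P y - y‖ ^ 2 ≤ a + b * (2 - 2 * (⟪ξ, P ξ⟫_ℂ).re) at hP
  change ‖Q y - y‖ ^ 2 ≤ a + b * (2 - 2 * (⟪ξ, Q ξ⟫_ℂ).re) at hQ
  have e1 : (s • P + t • Q) y - y = s • (P y - y) + t • (Q y - y) := by
    rw [ContinuousLinearMap.add_apply, ContinuousLinearMap.smul_apply,
      ContinuousLinearMap.smul_apply, smul_sub, smul_sub]
    have : y = s • y + t • y := by rw [← add_smul, hst, one_smul]
    nth_rewrite 3 [this]
    abel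
  have e2 : (⟪ξ, (s • P + t • Q) ξ⟫_ℂ).re = s * (⟪ξ, P ξ⟫_ℂ).re + t * (⟪ξ, Q ξ⟫_ℂ).re := by
    rw [ContinuousLinearMap.add_apply, ContinuousLinearMap.smul_apply,
      ContinuousLinearMap.smul_apply, inner_add_right, Complex.add_re, re_smul', re_smul']
  have h1 : ‖s • (P y - y) + t • (Q y - y)‖ ≤ s * ‖P y - y‖ + t * ‖Q y - y‖ := by
    refine (norm_add_le _ _).trans ?_
    rw [norm_smul, norm_smul, Real.norm_of_nonneg h0, Real.norm_of_nonneg h0']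
  have h2 : ‖s • (P y - y) + t • (Q y - y)‖ ^ 2 ≤ (s * ‖P y - y‖ + t * ‖Q y - y‖) ^ 2 := by
    gcongr
  have h3 : (s * ‖P y - y‖ + t * ‖Q y - y‖) ^ 2 ≤ s * ‖P y - y‖ ^ 2 + t * ‖Q y - y‖ ^ 2 := by
    have : s * ‖P y - y‖ ^ 2 + t * ‖Q y - y‖ ^ 2 - (s * ‖P y - y‖ + t * ‖Q y - y‖) ^ 2 =
        s * t * (‖P y - y‖ - ‖Q y - y‖) ^ 2 := by
      have : t = 1 - s := by linarith
      subst this
      ring
    have h4 : 0 ≤ s * t * (‖P y - y‖ - ‖Q y - y‖) ^ 2 := by positivity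
    linarith
  rw [e1, e2]
  have h5 := mul_le_mul_of_nonneg_left hP h0
  have h6 := mul_le_mul_of_nonneg_left hQ h0'
  have h7 : s * (a + b * (2 - 2 * (⟪ξ, P ξ⟫_ℂ).re)) + t * (a + b * (2 - 2 * (⟪ξ, Q ξ⟫_ℂ).re)) =
      a + b * (2 - 2 * (s * (⟪ξ, P ξ⟫_ℂ).re + t * (⟪ξ, Q ξ⟫_ℂ).re)) := by
    have : t = 1 - s := by linarith
    subst this
    ring
  linarith

/-! ### The theorem -/

theorem Tw_est (hs : Std M N ξ U) (hr : RAct M ξ U J ρ) {x : H →L[ℂ] H} (hx : x ∈ M) {e A : ℝ}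
    (hA : ∀ w : H →L[ℂ] H, w ∈ N → star w * w = 1 → w * star w = 1 →
      ‖(x * w - w * x) ξ‖ ^ 2 ≤ e + A * ‖w ξ - ρ w ξ‖ ^ 2) :
    ∀ T ∈ TS N ρ, ‖T (x ξ) - x ξ‖ ^ 2 ≤
      2 * e + (2 * A + 2 * ‖x‖ ^ 2) * (2 - 2 * (⟪ξ, T ξ⟫_ℂ).re) := by
  rintro T ⟨w, hw, rfl⟩
  rw [Tw_sub hw, Tw_re hs hr hw, hs.unit]
  have h1 : w (x ξ) - ρ w (x ξ) = x (w ξ - ρ w ξ) - (x * w - w * x) ξ := by
    rw [RB.comm_apply hr (hs.le _ hw.1) hx, map_sub, ContinuousLinearMap.sub_apply]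
    change w (x ξ) - x (ρ w ξ) = x (w ξ) - x (ρ w ξ) - (x (w ξ) - w (x ξ))
    abel
  have h2 := hA w hw.1 hw.2.1 hw.2.2
  have h3 : ‖x (w ξ - ρ w ξ)‖ ≤ ‖x‖ * ‖w ξ - ρ w ξ‖ := x.le_opNorm _
  have h4 : ‖w (x ξ) - ρ w (x ξ)‖ ≤ ‖x‖ * ‖w ξ - ρ w ξ‖ + ‖(x * w - w * x) ξ‖ := by
    rw [h1]
    exact (norm_sub_le _ _).trans (by linarith)
  have h5 : ‖w (x ξ) - ρ w (x ξ)‖ ^ 2 ≤
      (‖x‖ * ‖w ξ - ρ w ξ‖ + ‖(x * w - w * x) ξ‖) ^ 2 := by gcongr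
  have h6 : (‖x‖ * ‖w ξ - ρ w ξ‖ + ‖(x * w - w * x) ξ‖) ^ 2 ≤
      2 * (‖x‖ * ‖w ξ - ρ w ξ‖) ^ 2 + 2 * ‖(x * w - w * x) ξ‖ ^ 2 := by
    nlinarith [sq_nonneg (‖x‖ * ‖w ξ - ρ w ξ‖ - ‖(x * w - w * x) ξ‖)]
  have h7 : (‖x‖ * ‖w ξ - ρ w ξ‖) ^ 2 = ‖x‖ ^ 2 * ‖w ξ - ρ w ξ‖ ^ 2 := by ring
  have h8 : 2 * e + (2 * A + 2 * ‖x‖ ^ 2) * (2 - 2 * (1 ^ 2 - ‖w ξ - ρ w ξ‖ ^ 2 / 2)) =
      2 * e + (2 * A + 2 * ‖x‖ ^ 2) * ‖w ξ - ρ w ξ‖ ^ 2 := by ring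
  rw [h8]
  nlinarith

/-- **L1** -/
theorem lw : S_Lw := by
  intro H _ _ _ M N ξ U J ρ hs hr x hx hmod ε hε
  obtain ⟨A, hA0, hA⟩ := hmod (ε ^ 2 / 4) (by positivity)
  set A1 : ℝ := 2 * A + 2 * ‖x‖ ^ 2 + 1 with hA1
  have hA1p : 0 < A1 := by positivity
  set τ : ℝ := ε ^ 2 / A1 with hτ
  have hτp : 0 < τ := by positivity
  set C : ℝ := 4 * ‖x‖ ^ 2 / τ with hC
  have hC0 : 0 ≤ C := by positivity
  refine ⟨C, hC0, fun n u μ hu hμ hμ1 δ hδ => ?_⟩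
  have hu' : ∀ i, Un N (u i) := hu
  set κ2 : ℝ := ∑ i, μ i * ‖u i ξ - ρ (u i) ξ‖ ^ 2 with hκ2
  have hκ0 : 0 ≤ κ2 := Finset.sum_nonneg fun i _ => mul_nonneg (hμ i) (by positivity)
  set δ' : ℝ := δ / (C + 1) with hδ'
  have hδp : 0 < δ' := by positivity
  set κ' : ℝ := κ2 + δ' with hκ'
  have hκp : 0 < κ' := by positivity
  set m : ℕ := ⌊τ / κ'⌋₊ with hm
  have hm1 : (m : ℝ) ≤ τ / κ' := Nat.floor_le (by positivity)
  have hm2 : τ / κ' < m + 1 := Nat.lt_floor_add_one _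
  set P : H →L[ℂ] H := PP ρ u μ with hP
  have hP0 : 0 ≤ P := PP_nonneg hs hr hu' hμ hμ1
  have hP1 : P ≤ 1 := PP_le hs hr hu' hμ hμ1
  have hPsa : IsSelfAdjoint P := PP_star hs hr hu'
  have hPm : IsSelfAdjoint (P ^ m) := hPsa.pow m
  have h1v : ∀ v : H, (⟪v, (1 - P) v⟫_ℂ).re = (∑ i, μ i * ‖u i v - ρ (u i) v‖ ^ 2) / 4 := by
    intro v
    have h2 : (⟪v, (1 : H →L[ℂ] H) v⟫_ℂ).re = ‖v‖ ^ 2 := by
      have := inner_self_eq_norm_sq (𝕜 := ℂ) v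
      exact this
    rw [ContinuousLinearMap.sub_apply, inner_sub_right, Complex.sub_re, hP, PP_re hs hr hu' hμ1, h2]
    ring
  refine ⟨(P ^ m) (x ξ), ?_, ?_⟩
  · have h1 := hull_est (Tw_est hs hr hx hA) (P ^ m) (pow_hull hs hr (PP_hull hr hu' hμ hμ1) m)
    have h2 : (⟪ξ, (1 - P ^ m) ξ⟫_ℂ).re ≤ m * (κ2 / 4) := by
      have h3 := op_ineq1 hP0 hP1 m
      rw [ContinuousLinearMap.le_def] at h3
      have h4 := h3.re_inner_nonneg_right ξ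
      have h5 : RCLike.re ⟪ξ, ((m : ℝ) • (1 - P) - (1 - P ^ m)) ξ⟫_ℂ =
          m * (κ2 / 4) - (⟪ξ, (1 - P ^ m) ξ⟫_ℂ).re := by
        change (⟪ξ, ((m : ℝ) • (1 - P) - (1 - P ^ m)) ξ⟫_ℂ).re = _
        rw [ContinuousLinearMap.sub_apply, inner_sub_right, Complex.sub_re,
          ContinuousLinearMap.smul_apply, re_smul', h1v]
      rw [h5] at h4
      linarith
    have h3 : (⟪ξ, (1 - P ^ m) ξ⟫_ℂ).re = 1 - (⟪ξ, (P ^ m) ξ⟫_ℂ).re := by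
      have h2 : (⟪ξ, (1 : H →L[ℂ] H) ξ⟫_ℂ).re = ‖ξ‖ ^ 2 := by
        have := inner_self_eq_norm_sq (𝕜 := ℂ) ξ
        exact this
      rw [ContinuousLinearMap.sub_apply, inner_sub_right, Complex.sub_re, h2, hs.unit]
      ring
    have h4 : (m : ℝ) * κ2 ≤ τ := by
      have h5 : (m : ℝ) * κ2 ≤ m * κ' := by
        refine mul_le_mul_of_nonneg_left ?_ (Nat.cast_nonneg m)
        rw [hκ']
        linarith
      have h6 : (m : ℝ) * κ' ≤ τ := by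
        rw [le_div_iff₀ hκp] at hm1
        exact hm1
      linarith
    have h5 : 2 - 2 * (⟪ξ, (P ^ m) ξ⟫_ℂ).re ≤ τ / 2 := by linarith
    have h6 : (2 * A + 2 * ‖x‖ ^ 2) * (2 - 2 * (⟪ξ, (P ^ m) ξ⟫_ℂ).re) ≤
        (2 * A + 2 * ‖x‖ ^ 2) * (τ / 2) := mul_le_mul_of_nonneg_left h5 (by positivity)
    have h7 : (2 * A + 2 * ‖x‖ ^ 2) * (τ / 2) ≤ A1 * (τ / 2) := by
      refine mul_le_mul_of_nonneg_right ?_ (by positivity)
      rw [hA1]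
      linarith
    have h8 : A1 * (τ / 2) = ε ^ 2 / 2 := by
      rw [hτ]
      field_simp
    have h9 : ‖(P ^ m) (x ξ) - x ξ‖ ^ 2 ≤ ε ^ 2 := by linarith
    exact (sq_le_sq₀ (norm_nonneg _) hε.le).1 h9
  · set y : H := x ξ with hy
    have h1 := h1v ((P ^ m) y)
    have h2 : (⟪(P ^ m) y, (1 - P) ((P ^ m) y)⟫_ℂ).re = (⟪y, ((1 - P) * P ^ (2 * m)) y⟫_ℂ).re := by
      have e1 : ⟪(P ^ m) y, (1 - P) ((P ^ m) y)⟫_ℂ = ⟪y, (P ^ m) ((1 - P) ((P ^ m) y))⟫_ℂ := by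
        have := ContinuousLinearMap.adjoint_inner_left (P ^ m) ((1 - P) ((P ^ m) y)) y
        rw [← ContinuousLinearMap.star_eq_adjoint, hPm.star_eq] at this
        exact this
      rw [e1]
      have e2 : (P ^ m) * ((1 - P) * (P ^ m)) = (1 - P) * P ^ (2 * m) := by
        have e3 : (P ^ m) * (1 - P) = (1 - P) * P ^ m := by
          rw [mul_sub, sub_mul, mul_one, one_mul, ← pow_succ, ← pow_succ']
        rw [← mul_assoc, e3, mul_assoc, ← pow_add, two_mul]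
      rw [← e2]
      rfl
    have h3 := op_ineq2 hP0 hP1 (2 * m)
    rw [ContinuousLinearMap.le_def] at h3
    have h4 := h3.re_inner_nonneg_right y
    have h5 : RCLike.re ⟪y, ((1 / ((2 * m : ℕ) + 1 : ℝ)) • (1 : H →L[ℂ] H) -
        (1 - P) * P ^ (2 * m)) y⟫_ℂ =
        1 / ((2 * m : ℕ) + 1 : ℝ) * ‖y‖ ^ 2 - (⟪y, ((1 - P) * P ^ (2 * m)) y⟫_ℂ).re := by
      change (⟪y, ((1 / ((2 * m : ℕ) + 1 : ℝ)) • (1 : H →L[ℂ] H) -
        (1 - P) * P ^ (2 * m)) y⟫_ℂ).re = _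
      have h2 : (⟪y, (1 : H →L[ℂ] H) y⟫_ℂ).re = ‖y‖ ^ 2 := by
        have := inner_self_eq_norm_sq (𝕜 := ℂ) y
        exact this
      rw [ContinuousLinearMap.sub_apply, inner_sub_right, Complex.sub_re,
        ContinuousLinearMap.smul_apply, re_smul', h2]
    rw [h5] at h4
    have h6 : ‖y‖ ≤ ‖x‖ := by
      have := x.le_opNorm ξ
      rwa [hs.unit, mul_one] at this
    have h7 : ‖y‖ ^ 2 ≤ ‖x‖ ^ 2 := by gcongr
    have h8 : 1 / ((2 * m : ℕ) + 1 : ℝ) ≤ κ' / τ := by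
      rw [div_le_div_iff₀ (by positivity) hτp, one_mul]
      rw [div_lt_iff₀ hκp] at hm2
      push_cast
      have : 0 ≤ (m : ℝ) * κ' := by positivity
      nlinarith
    have h9 : 1 / ((2 * m : ℕ) + 1 : ℝ) * ‖y‖ ^ 2 ≤ κ' / τ * ‖x‖ ^ 2 :=
      mul_le_mul h8 h7 (by positivity) (by positivity)
    have h10 : C * κ' = 4 * (κ' / τ * ‖x‖ ^ 2) := by
      rw [hC]
      ring
    have h11 : C * δ' ≤ δ := by
      rw [hδ', ← mul_div_assoc, div_le_iff₀ (by positivity)]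
      nlinarith
    have h12 : C * κ' = C * κ2 + C * δ' := by
      rw [hκ']
      ring
    rw [h1] at h2
    linarith

end

end Pool.Agent.H75.BC.Lw
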