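import Pool.Agent.H75.BC.Defs
import Pool.Agent.H75.L.W85.WDX.ABS
import Pool.Agent.H75.L.W196.WD.CPT
import Pool.Agent.H75.L.W978.WD.ZSUM
import Pool.Agent.H75.L.W67.WD.CMP
import Pool.Agent.H75.L.W395.WD.LOC

/-!
Phase B, B2-3 (helper94): isometric intertwiners between `(N', G)` on `H` and `(κ(N'), V)` on `K`, from the
absorption theorem in the factor `Q` = commutant of `{y' ⊕ κ y', G t ⊕ V t}` on `H ⊕ K`.
-/

set_option autoImplicit false
set_option linter.unusedSectionVars false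

open MeasureTheory Filter Topology Complex
open scoped InnerProductSpace ENNReal

namespace Pool.Agent.H75.BC.QFac

open Pool.Agent.W662.CB Pool.Agent.H75.BC Pool.Agent.W988.WD

noncomputable section

variable {H : Type} [NormedAddCommGroup H] [InnerProductSpace ℂ H] [CompleteSpace H]
  {K : Type} [NormedAddCommGroup K] [InnerProductSpace ℂ K] [CompleteSpace K]

/-- intertwiners -/
def IT (N : VonNeumannAlgebra H) (κ : (H →L[ℂ] H) →⋆ₐ[ℂ] (K →L[ℂ] K)) (G : ℝ → H →L[ℂ] H)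
    (V : ℝ → K →L[ℂ] K) (T : H →L[ℂ] K) : Prop :=
  (∀ (y : H →L[ℂ] H), y ∈ N.commutant → ∀ v : H, T (y v) = κ y (T v)) ∧
    ∀ (t : ℝ) (v : H), T (G t v) = V t (T v)

/-- the commutant of `N'` and of all `G t` -/
def C1 (N : VonNeumannAlgebra H) (G : ℝ → H →L[ℂ] H) (x : H →L[ℂ] H) : Prop :=
  (∀ y : H →L[ℂ] H, y ∈ N.commutant → x * y = y * x) ∧ ∀ t : ℝ, x * G t = G t * x

variable (H K) in
/-- the direct sum -/
abbrev HK : Type := WithLp 2 (H × K)

variable (H K) in
def inl : H →L[ℂ] HK H K :=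
  ((WithLp.prodContinuousLinearEquiv 2 ℂ H K).symm : (H × K) →L[ℂ] HK H K) ∘L
    ContinuousLinearMap.inl ℂ H K

variable (H K) in
def inr : K →L[ℂ] HK H K :=
  ((WithLp.prodContinuousLinearEquiv 2 ℂ H K).symm : (H × K) →L[ℂ] HK H K) ∘L
    ContinuousLinearMap.inr ℂ H K

variable (H K) in
def fs : HK H K →L[ℂ] H := WithLp.fstL 2 ℂ H K

variable (H K) in
def sn : HK H K →L[ℂ] K := WithLp.sndL 2 ℂ H K

theorem fs_inl (v : H) : fs H K (inl H K v) = v := rfl
theorem sn_inl (v : H) : sn H K (inl H K v) = 0 := rfl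
theorem fs_inr (w : K) : fs H K (inr H K w) = 0 := rfl
theorem sn_inr (w : K) : sn H K (inr H K w) = w := rfl

theorem ext2 {x y : HK H K} (h1 : fs H K x = fs H K y) (h2 : sn H K x = sn H K y) : x = y := by
  have h : (WithLp.prodContinuousLinearEquiv 2 ℂ H K) x =
      (WithLp.prodContinuousLinearEquiv 2 ℂ H K) y := Prod.ext h1 h2
  exact (WithLp.prodContinuousLinearEquiv 2 ℂ H K).injective h

theorem inl_add_inr (x : HK H K) : inl H K (fs H K x) + inr H K (sn H K x) = x := by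
  refine ext2 ?_ ?_
  · rw [map_add, fs_inl, fs_inr, add_zero]
  · rw [map_add, sn_inl, sn_inr, zero_add]

theorem inner_hk (x y : HK H K) : ⟪x, y⟫_ℂ = ⟪fs H K x, fs H K y⟫_ℂ + ⟪sn H K x, sn H K y⟫_ℂ :=
  WithLp.prod_inner_apply x y

theorem adj_inl (x : HK H K) : ContinuousLinearMap.adjoint (inl H K) x = fs H K x := by
  refine ext_inner_left ℂ fun v => ?_
  rw [ContinuousLinearMap.adjoint_inner_right, inner_hk, fs_inl, sn_inl, inner_zero_left, add_zero]

theorem adj_inr (x : HK H K) : ContinuousLinearMap.adjoint (inr H K) x = sn H K x := by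
  refine ext_inner_left ℂ fun v => ?_
  rw [ContinuousLinearMap.adjoint_inner_right, inner_hk, fs_inr, sn_inr, inner_zero_left, zero_add]

theorem norm_inl (v : H) : ‖inl H K v‖ = ‖v‖ := by
  have h : ⟪inl H K v, inl H K v⟫_ℂ = ⟪v, v⟫_ℂ := by
    rw [inner_hk, fs_inl, sn_inl, inner_zero_left, add_zero]
  rw [inner_self_eq_norm_sq_to_K, inner_self_eq_norm_sq_to_K] at h
  have h2 : ‖inl H K v‖ ^ 2 = ‖v‖ ^ 2 := by exact_mod_cast h
  exact (sq_eq_sq₀ (norm_nonneg _) (norm_nonneg _)).1 h2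

theorem norm_inr (v : K) : ‖inr H K v‖ = ‖v‖ := by
  have h : ⟪inr H K v, inr H K v⟫_ℂ = ⟪v, v⟫_ℂ := by
    rw [inner_hk, fs_inr, sn_inr, inner_zero_left, zero_add]
  rw [inner_self_eq_norm_sq_to_K, inner_self_eq_norm_sq_to_K] at h
  have h2 : ‖inr H K v‖ ^ 2 = ‖v‖ ^ 2 := by exact_mod_cast h
  exact (sq_eq_sq₀ (norm_nonneg _) (norm_nonneg _)).1 h2

/-- block diagonal operators -/
def dg (y : H →L[ℂ] H) (z : K →L[ℂ] K) : HK H K →L[ℂ] HK H K :=
  inl H K ∘L y ∘L fs H K + inr H K ∘L z ∘L sn H K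

theorem dg_apply (y : H →L[ℂ] H) (z : K →L[ℂ] K) (x : HK H K) :
    dg y z x = inl H K (y (fs H K x)) + inr H K (z (sn H K x)) := rfl

theorem fs_dg (y : H →L[ℂ] H) (z : K →L[ℂ] K) (x : HK H K) :
    fs H K (dg y z x) = y (fs H K x) := by
  rw [dg_apply, map_add, fs_inl, fs_inr, add_zero]

theorem sn_dg (y : H →L[ℂ] H) (z : K →L[ℂ] K) (x : HK H K) :
    sn H K (dg y z x) = z (sn H K x) := by
  rw [dg_apply, map_add, sn_inl, sn_inr, zero_add]

theorem dg_inl (y : H →L[ℂ] H) (z : K →L[ℂ] K) (v : H) : dg y z (inl H K v) = inl H K (y v) := by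
  rw [dg_apply, fs_inl, sn_inl, map_zero, map_zero, add_zero]

theorem dg_inr (y : H →L[ℂ] H) (z : K →L[ℂ] K) (w : K) : dg y z (inr H K w) = inr H K (z w) := by
  rw [dg_apply, fs_inr, sn_inr, map_zero, map_zero, zero_add]

theorem dg_mul (y y' : H →L[ℂ] H) (z z' : K →L[ℂ] K) : dg y z * dg y' z' = dg (y * y') (z * z') := by
  ext x
  show dg y z (dg y' z' x) = _
  refine ext2 ?_ ?_
  · rw [fs_dg, fs_dg, fs_dg]; rfl
  · rw [sn_dg, sn_dg, sn_dg]; rfl

theorem dg_one : dg (1 : H →L[ℂ] H) (1 : K →L[ℂ] K) = 1 := by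
  ext x
  exact ext2 (by rw [fs_dg]; rfl) (by rw [sn_dg]; rfl)

theorem dg_zero : dg (0 : H →L[ℂ] H) (0 : K →L[ℂ] K) = 0 := by
  ext x
  exact ext2 (by rw [fs_dg]; simp) (by rw [sn_dg]; simp)

theorem star_dg (y : H →L[ℂ] H) (z : K →L[ℂ] K) : star (dg y z) = dg (star y) (star z) := by
  refine ContinuousLinearMap.ext fun x => ext_inner_left ℂ fun v => ?_
  rw [ContinuousLinearMap.star_eq_adjoint, ContinuousLinearMap.adjoint_inner_right, inner_hk,
    inner_hk, fs_dg, sn_dg, fs_dg, sn_dg, ContinuousLinearMap.star_eq_adjoint,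
    ContinuousLinearMap.star_eq_adjoint, ContinuousLinearMap.adjoint_inner_right,
    ContinuousLinearMap.adjoint_inner_right]

section Q

variable (N : VonNeumannAlgebra H) (κ : (H →L[ℂ] H) →⋆ₐ[ℂ] (K →L[ℂ] K)) (G : ℝ → H →L[ℂ] H)
  (V : ℝ → K →L[ℂ] K)

def SS : Set (HK H K →L[ℂ] HK H K) :=
  {R | ∃ y : H →L[ℂ] H, y ∈ N.commutant ∧ R = dg y (κ y)} ∪ {R | ∃ t : ℝ, R = dg (G t) (V t)}

/-- the commutant of `{y ⊕ κ y, G t ⊕ V t}` -/
def Q : VonNeumannAlgebra (HK H K) where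
  __ := StarSubalgebra.centralizer ℂ (SS N κ G V)
  centralizer_centralizer' := Set.centralizer_centralizer_centralizer _

variable {N κ G V}

theorem mem_Q (hG : ∀ t, star (G t) = G (-t)) (hV : ∀ t, star (V t) = V (-t))
    {Z : HK H K →L[ℂ] HK H K} : Z ∈ Q N κ G V ↔
      (∀ y : H →L[ℂ] H, y ∈ N.commutant → ∀ x, Z (dg y (κ y) x) = dg y (κ y) (Z x)) ∧
        ∀ (t : ℝ) (x : HK H K), Z (dg (G t) (V t) x) = dg (G t) (V t) (Z x) := by
  have h0 : Z ∈ Q N κ G V ↔ Z ∈ StarSubalgebra.centralizer ℂ (SS N κ G V) := Iff.rfl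
  rw [h0, StarSubalgebra.mem_centralizer_iff]
  constructor
  · intro h
    refine ⟨fun y hy x => ?_, fun t x => ?_⟩
    · exact (congrArg (fun T : HK H K →L[ℂ] HK H K => T x) (h _ (Or.inl ⟨y, hy, rfl⟩)).1).symm
    · exact (congrArg (fun T : HK H K →L[ℂ] HK H K => T x) (h _ (Or.inr ⟨t, rfl⟩)).1).symm
  · rintro ⟨h1, h2⟩ R (⟨y, hy, rfl⟩ | ⟨t, rfl⟩)
    · refine ⟨ContinuousLinearMap.ext fun x => (h1 y hy x).symm, ?_⟩
      rw [star_dg, ← map_star]
      exact ContinuousLinearMap.ext fun x => (h1 _ (star_mem hy) x).symm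
    · refine ⟨ContinuousLinearMap.ext fun x => (h2 t x).symm, ?_⟩
      rw [star_dg, hG, hV]
      exact ContinuousLinearMap.ext fun x => (h2 _ x).symm

theorem dg_mem (hG : ∀ t, star (G t) = G (-t)) (hV : ∀ t, star (V t) = V (-t))
    {a : H →L[ℂ] H} {Z : K →L[ℂ] K} (ha : C1 N G a)
    (hZ : (∀ y : H →L[ℂ] H, y ∈ N.commutant → Z * κ y = κ y * Z) ∧ ∀ t, Z * V t = V t * Z) :
    dg a Z ∈ Q N κ G V := by
  rw [mem_Q hG hV]
  refine ⟨fun y hy x => ?_, fun t x => ?_⟩
  · refine ext2 ?_ ?_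
    · rw [fs_dg, fs_dg, fs_dg, fs_dg]
      exact congrArg (fun T : H →L[ℂ] H => T (fs H K x)) (ha.1 y hy)
    · rw [sn_dg, sn_dg, sn_dg, sn_dg]
      exact congrArg (fun T : K →L[ℂ] K => T (sn H K x)) (hZ.1 y hy)
  · refine ext2 ?_ ?_
    · rw [fs_dg, fs_dg, fs_dg, fs_dg]
      exact congrArg (fun T : H →L[ℂ] H => T (fs H K x)) (ha.2 t)
    · rw [sn_dg, sn_dg, sn_dg, sn_dg]
      exact congrArg (fun T : K →L[ℂ] K => T (sn H K x)) (hZ.2 t)

theorem it_mem (hG : ∀ t, star (G t) = G (-t)) (hV : ∀ t, star (V t) = V (-t))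
    {T : H →L[ℂ] K} (hT : IT N κ G V T) : inr H K ∘L T ∘L fs H K ∈ Q N κ G V := by
  rw [mem_Q hG hV]
  refine ⟨fun y hy x => ?_, fun t x => ?_⟩
  · show inr H K (T (fs H K (dg y (κ y) x))) = dg y (κ y) (inr H K (T (fs H K x)))
    rw [fs_dg, dg_inr, hT.1 y hy]
  · show inr H K (T (fs H K (dg (G t) (V t) x))) = dg (G t) (V t) (inr H K (T (fs H K x)))
    rw [fs_dg, dg_inr, hT.2 t]

/-- the lower left corner of an element of `Q` is an intertwiner -/
theorem it_of_mem (hG : ∀ t, star (G t) = G (-t)) (hV : ∀ t, star (V t) = V (-t))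
    {Z : HK H K →L[ℂ] HK H K} (hZ : Z ∈ Q N κ G V) :
    IT N κ G V (sn H K ∘L Z ∘L inl H K) := by
  rw [mem_Q hG hV] at hZ
  refine ⟨fun y hy v => ?_, fun t v => ?_⟩
  · show sn H K (Z (inl H K (y v))) = κ y (sn H K (Z (inl H K v)))
    rw [← dg_inl y (κ y), hZ.1 y hy, sn_dg]
  · show sn H K (Z (inl H K (G t v))) = V t (sn H K (Z (inl H K v)))
    rw [← dg_inl (G t) (V t), hZ.2 t, sn_dg]

theorem fac (hG : ∀ t, star (G t) = G (-t)) (hV : ∀ t, star (V t) = V (-t))
    {A : VonNeumannAlgebra K} (hA : IsFac A)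
    (hmem : ∀ Z : K →L[ℂ] K, Z ∈ A ↔ (∀ y : H →L[ℂ] H, y ∈ N.commutant → Z * κ y = κ y * Z) ∧
      ∀ t : ℝ, Z * V t = V t * Z)
    (full : ∀ v : H, v ≠ 0 → ∃ T : H →L[ℂ] K, IT N κ G V T ∧ T v ≠ 0) :
    Factor (Q N κ G V) := by
  have hone : C1 N G 1 := ⟨fun y _ => by rw [one_mul, mul_one], fun t => by rw [one_mul, mul_one]⟩
  have hzero : C1 N G 0 := ⟨fun y _ => by rw [zero_mul, mul_zero], fun t => by rw [zero_mul, mul_zero]⟩
  intro Z hZ hc
  have hP : dg (1 : H →L[ℂ] H) (0 : K →L[ℂ] K) ∈ Q N κ G V :=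
    dg_mem hG hV hone ⟨fun y _ => by rw [zero_mul, mul_zero], fun t => by rw [zero_mul, mul_zero]⟩
  -- the components
  have hZP : ∀ x, Z (dg (1 : H →L[ℂ] H) (0 : K →L[ℂ] K) x) = dg (1 : H →L[ℂ] H) (0 : K →L[ℂ] K) (Z x) :=
    fun x => congrArg (fun T : HK H K →L[ℂ] HK H K => T x) (hc _ hP)
  have h21 : ∀ v : H, sn H K (Z (inl H K v)) = 0 := by
    intro v
    have h := congrArg (sn H K) (hZP (inl H K v))
    rw [dg_inl, sn_dg] at h
    simpa using h
  have h12 : ∀ w : K, fs H K (Z (inr H K w)) = 0 := by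
    intro w
    have h := congrArg (fs H K) (hZP (inr H K w))
    rw [dg_inr, fs_dg] at h
    simpa using h.symm
  have hZl : ∀ v : H, Z (inl H K v) = inl H K (fs H K (Z (inl H K v))) := fun v =>
    ext2 (by rw [fs_inl]) (by rw [sn_inl, h21])
  have hZr : ∀ w : K, Z (inr H K w) = inr H K (sn H K (Z (inr H K w))) := fun w =>
    ext2 (by rw [fs_inr, h12]) (by rw [sn_inr])
  have hZ' := (mem_Q hG hV).1 hZ
  -- `Z22` is central in `A`
  have h22 : sn H K ∘L Z ∘L inr H K ∈ A := by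
    rw [hmem]
    refine ⟨fun y hy => ?_, fun t => ?_⟩
    · ext w
      show sn H K (Z (inr H K (κ y w))) = κ y (sn H K (Z (inr H K w)))
      rw [← dg_inr y (κ y), hZ'.1 y hy, sn_dg]
    · ext w
      show sn H K (Z (inr H K (V t w))) = V t (sn H K (Z (inr H K w)))
      rw [← dg_inr (G t) (V t), hZ'.2 t, sn_dg]
  obtain ⟨c, hc22⟩ := hA _ h22 (fun S hS => by
    have h1 := hc _ (dg_mem (N := N) (κ := κ) (G := G) (V := V) hG hV hzero ((hmem S).1 hS))
    ext w
    have h2 := congrArg (fun T : HK H K →L[ℂ] HK H K => sn H K (T (inr H K w))) h1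
    have h3 : sn H K (Z (dg (0 : H →L[ℂ] H) S (inr H K w))) =
      sn H K (dg (0 : H →L[ℂ] H) S (Z (inr H K w))) := h2
    rw [dg_inr, sn_dg] at h3
    exact h3.symm)
  have hr : ∀ w : K, Z (inr H K w) = c • inr H K w := by
    intro w
    have h : sn H K (Z (inr H K w)) = c • w :=
      congrArg (fun T : K →L[ℂ] K => T w) hc22
    rw [hZr, h, map_smul]
  have hl : ∀ v : H, Z (inl H K v) = c • inl H K v := by
    intro v
    have h0 : fs H K (Z (inl H K v)) - c • v = 0 := by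
      by_contra hne
      obtain ⟨T, hT, hTv⟩ := full _ hne
      apply hTv
      have h1 := congrArg (fun R : HK H K →L[ℂ] HK H K => sn H K (R (inl H K v)))
        (hc _ (it_mem hG hV hT))
      have h2 : sn H K (Z (inr H K (T (fs H K (inl H K v))))) =
        sn H K (inr H K (T (fs H K (Z (inl H K v))))) := h1
      rw [fs_inl, hr, map_smul, sn_inr, sn_inr] at h2
      rw [map_sub, map_smul, h2, sub_self]
    rw [hZl, sub_eq_zero.1 h0, map_smul]
  refine ⟨c, ContinuousLinearMap.ext fun x => ?_⟩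
  calc Z x = Z (inl H K (fs H K x) + inr H K (sn H K x)) := by rw [inl_add_inr]
    _ = c • (inl H K (fs H K x) + inr H K (sn H K x)) := by rw [map_add, hl, hr, smul_add]
    _ = (c • (1 : HK H K →L[ℂ] HK H K)) x := by rw [inl_add_inr]; rfl

end Q

end

/-- **B2-3.** -/
theorem qfac {H : Type} [NormedAddCommGroup H] [InnerProductSpace ℂ H] [CompleteSpace H]
    [TopologicalSpace.SeparableSpace H] [Nontrivial H]
    {K : Type} [NormedAddCommGroup K] [InnerProductSpace ℂ K] [CompleteSpace K]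
    [TopologicalSpace.SeparableSpace K]
    (N : VonNeumannAlgebra H) (κ : (H →L[ℂ] H) →⋆ₐ[ℂ] (K →L[ℂ] K)) (G : ℝ → H →L[ℂ] H)
    (V : ℝ → K →L[ℂ] K) (A : VonNeumannAlgebra K)
    (hG : ∀ t, star (G t) = G (-t)) (hV : ∀ t, star (V t) = V (-t)) (hA : IsFac A)
    (hmem : ∀ Z : K →L[ℂ] K, Z ∈ A ↔ (∀ y : H →L[ℂ] H, y ∈ N.commutant → Z * κ y = κ y * Z) ∧
      ∀ t : ℝ, Z * V t = V t * Z)
    (full : ∀ v : H, v ≠ 0 → ∃ T : H →L[ℂ] K, IT N κ G V T ∧ T v ≠ 0)
    (a b : H →L[ℂ] H) (ha : C1 N G a) (hb : C1 N G b) (haa : star a * a = 1) (hbb : star b * b = 1)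
    (hab : star a * b = 0)
    (r : K →L[ℂ] K) (hr : r ∈ A) (hrs : star r = r) (hrr : r * r = r) (hr0 : r ≠ 0)
    (w : ℕ → K →L[ℂ] K) (hw : ∀ n, w n ∈ A) (hww : ∀ n, star (w n) * w n = r)
    (hwo : ∀ m n, m ≠ n → star (w m) * w n = 0) :
    (∃ T : H →L[ℂ] K, IT N κ G V T ∧ ∀ v, ‖T v‖ = ‖v‖) ∧
      ∃ S : K →L[ℂ] H, (∀ w, ‖S w‖ = ‖w‖) ∧ IT N κ G V (ContinuousLinearMap.adjoint S) := by
  have hsep : TopologicalSpace.SeparableSpace (HK H K) := by
    have h1 : TopologicalSpace.SeparableSpace (H × K) := inferInstance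
    exact (WithLp.prodContinuousLinearEquiv 2 ℂ H K).symm.surjective.denseRange.separableSpace
      (WithLp.prodContinuousLinearEquiv 2 ℂ H K).symm.continuous
  have hcmp : S_CMP := Pool.Agent.W67.WD.p_CMP Pool.Agent.W395.WD.p_LOC
    (Pool.Agent.W978.WD.ZSUM.p_ZSUM Pool.Agent.W196.WD.p_CPT)
  have habs : S_ABS := Pool.Agent.W85.WDX.p_ABS
    (Pool.Agent.W978.WD.ZSUM.p_ZSUM Pool.Agent.W196.WD.p_CPT) hcmp
  have hfac := fac hG hV hA hmem full
  have hone : C1 N G 1 := ⟨fun y _ => by rw [one_mul, mul_one], fun t => by rw [one_mul, mul_one]⟩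
  have hzero : C1 N G 0 := ⟨fun y _ => by rw [zero_mul, mul_zero], fun t => by rw [zero_mul, mul_zero]⟩
  have h0A : (0 : K →L[ℂ] K) ∈ A := A.zero_mem
  have h1A : (1 : K →L[ℂ] K) ∈ A := A.one_mem
  have hp : dg (1 : H →L[ℂ] H) (0 : K →L[ℂ] K) ∈ Q N κ G V := dg_mem hG hV hone ((hmem _).1 h0A)
  have hq : dg (0 : H →L[ℂ] H) (1 : K →L[ℂ] K) ∈ Q N κ G V := dg_mem hG hV hzero ((hmem _).1 h1A)
  have hPp : Prj (dg (1 : H →L[ℂ] H) (0 : K →L[ℂ] K)) :=
    ⟨by rw [star_dg, star_one, star_zero], by rw [dg_mul, one_mul, zero_mul]⟩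
  have hPq : Prj (dg (0 : H →L[ℂ] H) (1 : K →L[ℂ] K)) :=
    ⟨by rw [star_dg, star_one, star_zero], by rw [dg_mul, one_mul, zero_mul]⟩
  refine ⟨?_, ?_⟩
  · -- `q` contains the `w n`, absorbs `p`
    obtain ⟨v, hv, hv1, hv2⟩ := habs (HK H K) (Q N κ G V) hfac _ hq _ hp (dg 0 r)
      (dg_mem hG hV hzero ((hmem _).1 hr)) hPq hPp
      ⟨by rw [star_dg, hrs, star_zero], by rw [dg_mul, hrr, zero_mul]⟩
      (by
        intro h
        apply hr0
        ext x
        have h1 := congrArg (fun T : HK H K →L[ℂ] HK H K => sn H K (T (inr H K x))) h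
        simp only [dg_inr, sn_inr] at h1
        rw [h1]; simp)
      (fun n => dg 0 (w n)) (fun n => dg_mem hG hV hzero ((hmem _).1 (hw n)))
      (fun n => by rw [star_dg, dg_mul, hww, star_zero, zero_mul])
      (fun m n hmn => by rw [star_dg, dg_mul, hwo m n hmn, star_zero, zero_mul, dg_zero])
      (fun n => by rw [dg_mul, one_mul, zero_mul])
    refine ⟨sn H K ∘L v ∘L inl H K, it_of_mem hG hV hv, fun x => ?_⟩
    show ‖sn H K (v (inl H K x))‖ = ‖x‖
    have h1 : inr H K (sn H K (v (inl H K x))) = v (inl H K x) := by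
      have h2 := congrArg (fun T : HK H K →L[ℂ] HK H K => T (inl H K x)) hv2
      have h3 : dg (0 : H →L[ℂ] H) (1 : K →L[ℂ] K) (v (inl H K x)) = v (inl H K x) := h2
      rw [dg_apply] at h3
      simpa using h3
    have h4 : ‖v (inl H K x)‖ = ‖inl H K x‖ := by
      have h5 : ⟪v (inl H K x), v (inl H K x)⟫_ℂ = ⟪inl H K x, inl H K x⟫_ℂ := by
        rw [← ContinuousLinearMap.adjoint_inner_right v, ← ContinuousLinearMap.star_eq_adjoint]
        have h6 : star v (v (inl H K x)) = inl H K x := by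
          have h7 := congrArg (fun T : HK H K →L[ℂ] HK H K => T (inl H K x)) hv1
          have h8 : star v (v (inl H K x)) = dg (1 : H →L[ℂ] H) (0 : K →L[ℂ] K) (inl H K x) := h7
          rw [h8, dg_inl]; rfl
        rw [h6]
      rw [inner_self_eq_norm_sq_to_K, inner_self_eq_norm_sq_to_K] at h5
      have h9 : ‖v (inl H K x)‖ ^ 2 = ‖inl H K x‖ ^ 2 := by exact_mod_cast h5
      exact (sq_eq_sq₀ (norm_nonneg _) (norm_nonneg _)).1 h9
    rw [← norm_inr (H := H) (sn H K (v (inl H K x))), h1, h4, norm_inl]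
  · -- `p` contains `a ^ n * b`, absorbs `q`
    have hC1mul : ∀ x y : H →L[ℂ] H, C1 N G x → C1 N G y → C1 N G (x * y) := by
      intro x y hx hy
      refine ⟨fun z hz => ?_, fun t => ?_⟩
      · rw [mul_assoc, hy.1 z hz, ← mul_assoc, hx.1 z hz, mul_assoc]
      · rw [mul_assoc, hy.2 t, ← mul_assoc, hx.2 t, mul_assoc]
    have hpow : ∀ n : ℕ, C1 N G (a ^ n) := by
      intro n
      induction n with
      | zero => rw [pow_zero]; exact hone
      | succ n ih => rw [pow_succ]; exact hC1mul _ _ ih ha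
    have han : ∀ n : ℕ, star (a ^ n) * a ^ n = 1 := by
      intro n
      induction n with
      | zero => rw [pow_zero, star_one, one_mul]
      | succ n ih =>
        rw [pow_succ, star_mul]
        calc star a * star (a ^ n) * (a ^ n * a) = star a * (star (a ^ n) * a ^ n) * a := by
              simp only [mul_assoc]
          _ = 1 := by rw [ih, mul_one, haa]
    have hba : star b * a = 0 := by
      have h := congrArg star hab
      rwa [star_mul, star_star, star_zero] at h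
    have hort : ∀ m k : ℕ, star (a ^ m * b) * (a ^ (m + (k + 1)) * b) = 0 := by
      intro m k
      rw [star_mul, pow_add, pow_succ']
      calc star b * star (a ^ m) * (a ^ m * (a * a ^ k) * b)
          = star b * ((star (a ^ m) * a ^ m) * a) * a ^ k * b := by simp only [mul_assoc]
        _ = (star b * a) * a ^ k * b := by rw [han, one_mul]
        _ = 0 := by rw [hba, zero_mul, zero_mul]
    obtain ⟨v, hv, hv1, hv2⟩ := habs (HK H K) (Q N κ G V) hfac _ hp _ hq
      (dg 1 0) hp hPp hPq hPp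
      (by
        intro h
        obtain ⟨x, hx⟩ := exists_ne (0 : H)
        apply hx
        have h1 := congrArg (fun T : HK H K →L[ℂ] HK H K => fs H K (T (inl H K x))) h
        simp only [dg_inl, fs_inl] at h1
        simpa using h1)
      (fun n => dg (a ^ n * b) 0) (fun n => dg_mem hG hV (hC1mul _ _ (hpow n) hb) ((hmem _).1 h0A))
      (fun n => by
        rw [star_dg, dg_mul, star_zero, zero_mul, star_mul]
        congr 1
        calc star b * star (a ^ n) * (a ^ n * b) = star b * (star (a ^ n) * a ^ n) * b := by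
              simp only [mul_assoc]
          _ = 1 := by rw [han, mul_one, hbb])
      (fun m n hmn => by
        rw [star_dg, dg_mul, star_zero, zero_mul]
        have h1 : star (a ^ m * b) * (a ^ n * b) = 0 := by
          rcases lt_or_gt_of_ne hmn with h | h
          · obtain ⟨k, hk⟩ := Nat.exists_eq_add_of_lt h
            rw [hk, add_assoc]
            exact hort m k
          · obtain ⟨k, hk⟩ := Nat.exists_eq_add_of_lt h
            have h2 := congrArg star (hort n k)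
            rw [star_mul, star_star, star_zero, ← add_assoc, ← hk] at h2
            exact h2
        rw [h1, dg_zero])
      (fun n => by rw [dg_mul, one_mul, zero_mul])
    refine ⟨fs H K ∘L v ∘L inr H K, fun x => ?_, ?_⟩
    · show ‖fs H K (v (inr H K x))‖ = ‖x‖
      have h1 : inl H K (fs H K (v (inr H K x))) = v (inr H K x) := by
        have h2 := congrArg (fun T : HK H K →L[ℂ] HK H K => T (inr H K x)) hv2
        have h3 : dg (1 : H →L[ℂ] H) (0 : K →L[ℂ] K) (v (inr H K x)) = v (inr H K x) := h2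
        rw [dg_apply] at h3
        simpa using h3
      have h4 : ‖v (inr H K x)‖ = ‖inr H K x‖ := by
        have h5 : ⟪v (inr H K x), v (inr H K x)⟫_ℂ = ⟪inr H K x, inr H K x⟫_ℂ := by
          rw [← ContinuousLinearMap.adjoint_inner_right v, ← ContinuousLinearMap.star_eq_adjoint]
          have h6 : star v (v (inr H K x)) = inr H K x := by
            have h7 := congrArg (fun T : HK H K →L[ℂ] HK H K => T (inr H K x)) hv1
            have h8 : star v (v (inr H K x)) = dg (0 : H →L[ℂ] H) (1 : K →L[ℂ] K) (inr H K x) := h7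
            rw [h8, dg_inr]; rfl
          rw [h6]
        rw [inner_self_eq_norm_sq_to_K, inner_self_eq_norm_sq_to_K] at h5
        have h9 : ‖v (inr H K x)‖ ^ 2 = ‖inr H K x‖ ^ 2 := by exact_mod_cast h5
        exact (sq_eq_sq₀ (norm_nonneg _) (norm_nonneg _)).1 h9
      rw [← norm_inl (K := K) (fs H K (v (inr H K x))), h1, h4, norm_inr]
    · have h1 : ContinuousLinearMap.adjoint (fs H K ∘L v ∘L inr H K) =
          sn H K ∘L star v ∘L inl H K := by
        refine ContinuousLinearMap.ext fun x => ext_inner_left ℂ fun y => ?_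
        rw [ContinuousLinearMap.adjoint_inner_right]
        show ⟪fs H K (v (inr H K y)), x⟫_ℂ = ⟪y, sn H K (star v (inl H K x))⟫_ℂ
        rw [← adj_inl, ← adj_inr, ContinuousLinearMap.adjoint_inner_left,
          ContinuousLinearMap.adjoint_inner_right, ContinuousLinearMap.star_eq_adjoint,
          ContinuousLinearMap.adjoint_inner_right]
      rw [h1]
      exact it_of_mem hG hV (star_mem hv)

end Pool.Agent.H75.BC.QFac
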