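import Mathlib
import Pool.Agent.H75.L.W988.WD.Defs
import Pool.Agent.H75.L.W85.WDX.ABS
import Pool.Agent.H75.L.W196.WD.CPT
import Pool.Agent.H75.L.W978.WD.ZSUM
import Pool.Agent.H75.L.W67.WD.CMP
import Pool.Agent.H75.L.W395.WD.LOC

/-!
Phase B, B2b (helper83): Schroeder-Bernstein for projections of a von Neumann algebra, in the form
(a projection that absorbs `1` is equivalent to `1`).
-/

set_option autoImplicit false

open Filter Topology
open scoped InnerProductSpace

namespace Pool.Agent.H75.BC.SB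

open Pool.Agent.W988.WD

section

variable {K : Type} [NormedAddCommGroup K] [InnerProductSpace ℂ K] [CompleteSpace K]

/-- orthogonal sums of projections of a von Neumann algebra -/
theorem psum (hZ : S_ZSUM) (A : VonNeumannAlgebra K) (p : ℕ → (K →L[ℂ] K)) (hA : ∀ i, p i ∈ A)
    (hs : ∀ i, star (p i) = p i) (hp : ∀ i, p i * p i = p i) (ho : ∀ i j, i ≠ j → p i * p j = 0) :
    ∃ D ∈ A, star D = D ∧ D * D = D ∧ (∀ i, D * p i = p i) ∧ (∀ i, p i * D = p i) ∧
      ∀ X : K →L[ℂ] K, (∀ i, p i * X = 0) → D * X = 0 := by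
  obtain ⟨V, hVA, -, hV1, hV2, hV3, hV4⟩ := hZ K A ℕ p hA
    (fun i => by rw [hs i, hp i, hp i])
    (fun i j hij => by rw [hs i]; exact ho i j hij)
    (fun i j hij => by rw [hs j]; exact ho i j hij)
  have e1 : ∀ i, V * p i = p i := fun i => by
    have := hV1 i
    rwa [hs i, hp i] at this
  have e2 : ∀ i, p i * V = p i := fun i => by
    have := hV2 i
    rwa [hs i, hp i] at this
  have k1 : ∀ X : K →L[ℂ] K, (∀ i, p i * X = 0) → V * X = 0 := by
    intro X hX
    ext ξ
    exact hV3 (X ξ) (fun i => by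
      have := congrArg (fun Y : K →L[ℂ] K => Y ξ) (hX i)
      simpa using this)
  have e3 : ∀ i, p i * star V = p i := fun i => by
    have := congrArg star (e1 i)
    rwa [star_mul, hs i] at this
  have h1 : V * (1 - star V) = 0 := k1 _ (fun i => by rw [mul_sub, mul_one, e3 i, sub_self])
  have h2 : V = V * star V := by rw [mul_sub, mul_one, sub_eq_zero] at h1; exact h1
  have h3 : star V = V := by
    have := congrArg star h2
    rw [star_mul, star_star] at this
    rw [this, ← h2]
  refine ⟨V, hVA, h3, ?_, e1, e2, k1⟩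
  rw [h3] at h2
  exact h2.symm

theorem sb' (hZ : S_ZSUM) (A : VonNeumannAlgebra K) (q v : K →L[ℂ] K) (hq : q ∈ A)
    (hqs : star q = q) (hqq : q * q = q) (hv : v ∈ A) (h1 : star v * v = 1) (h2 : q * v = v) :
    ∃ V ∈ A, star V * V = 1 ∧ V * star V = q := by
  have hsv : star v ∈ A := star_mem hv
  have h3 : star v * q = star v := by
    have := congrArg star h2
    rwa [star_mul, hqs] at this
  -- powers
  have hvn : ∀ n, v ^ n ∈ A := fun n => pow_mem hv n
  have hsn : ∀ n, star v ^ n ∈ A := fun n => pow_mem hsv n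
  have hpow : ∀ n, star v ^ n * v ^ n = 1 := by
    intro n
    induction n with
    | zero => simp
    | succ n ih =>
      calc star v ^ (n + 1) * v ^ (n + 1) = star v ^ n * (star v * v) * v ^ n := by
            rw [pow_succ, pow_succ']; noncomm_ring
        _ = 1 := by rw [h1, mul_one, ih]
  have hr : star (1 - q) = 1 - q := by rw [star_sub, star_one, hqs]
  have hrr : (1 - q) * (1 - q) = 1 - q := by
    have : (1 - q) * (1 - q) = 1 - q - q + q * q := by noncomm_ring
    rw [this, hqq]; abel
  have hrv : (1 - q) * v = 0 := by rw [sub_mul, one_mul, h2, sub_self]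
  have hvr : star v * (1 - q) = 0 := by rw [mul_sub, mul_one, h3, sub_self]
  set p : ℕ → (K →L[ℂ] K) := fun n => v ^ n * (1 - q) * star v ^ n with hp
  have hp0 : p 0 = 1 - q := by simp [hp]
  have hps : ∀ n, p (n + 1) = v * p n * star v := by
    intro n
    simp only [hp]
    rw [pow_succ', pow_succ]
    noncomm_ring
  have hpv0 : p 0 * v = 0 := by rw [hp0, hrv]
  have hpv : ∀ n, p (n + 1) * v = v * p n := by
    intro n
    rw [hps, mul_assoc, h1, mul_one]
  have hvp0 : star v * p 0 = 0 := by rw [hp0, hvr]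
  have hvp : ∀ n, star v * p (n + 1) = p n * star v := by
    intro n
    rw [hps, ← mul_assoc, ← mul_assoc, h1, one_mul]
  have hpA : ∀ n, p n ∈ A := fun n =>
    mul_mem (mul_mem (hvn n) (sub_mem (one_mem A) hq)) (hsn n)
  have hpst : ∀ n, star (p n) = p n := by
    intro n
    simp only [hp]
    rw [star_mul, star_mul, star_pow, star_star, hr, star_pow, mul_assoc]
  have hpp : ∀ n, p n * p n = p n := by
    intro n
    simp only [hp]
    calc v ^ n * (1 - q) * star v ^ n * (v ^ n * (1 - q) * star v ^ n)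
        = v ^ n * (1 - q) * (star v ^ n * v ^ n) * (1 - q) * star v ^ n := by noncomm_ring
      _ = v ^ n * ((1 - q) * (1 - q)) * star v ^ n := by rw [hpow n]; noncomm_ring
      _ = _ := by rw [hrr]
  have hpo1 : ∀ n k, p n * p (n + k + 1) = 0 := by
    intro n
    induction n with
    | zero =>
      intro k
      rw [hps, ← mul_assoc, ← mul_assoc, hpv0, zero_mul, zero_mul]
    | succ n ih =>
      intro k
      have e : n + 1 + k + 1 = (n + k + 1) + 1 := by ring
      rw [e, hps (n + k + 1), ← mul_assoc, ← mul_assoc, hpv, mul_assoc v, ih k, mul_zero, zero_mul]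
  have hpo : ∀ i j, i ≠ j → p i * p j = 0 := by
    intro i j hij
    rcases lt_or_gt_of_ne hij with h | h
    · obtain ⟨k, rfl⟩ := Nat.exists_eq_add_of_lt h
      exact hpo1 i k
    · obtain ⟨k, rfl⟩ := Nat.exists_eq_add_of_lt h
      have := congrArg star (hpo1 j k)
      rwa [star_mul, hpst, hpst, star_zero] at this
  obtain ⟨D, hDA, hDs, hDD, hDp, hpD, hk⟩ := psum hZ A p hpA hpst hpp hpo
  have hDr : D * (1 - q) = 1 - q := by rw [← hp0]; exact hDp 0
  -- `D v D = v D`
  have hX1 : D * v * D = v * D := by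
    have e1 : ∀ i, (D * v - v) * p i = 0 := by
      intro i
      rw [sub_mul, mul_assoc, ← hpv i, ← mul_assoc, hDp, sub_self]
    have e2 : D * star (D * v - v) = 0 := hk _ (fun i => by
      have := congrArg star (e1 i)
      rwa [star_mul, hpst, star_zero] at this)
    have e3 := congrArg star e2
    rw [star_mul, star_star, hDs, star_zero, sub_mul, sub_eq_zero] at e3
    exact e3
  have hX2 : D * v * (1 - D) = 0 := by
    rw [mul_assoc]
    refine hk _ (fun i => ?_)
    rw [← mul_assoc]
    rcases i with _ | i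
    · rw [hpv0, zero_mul]
    · rw [hpv, mul_assoc, mul_sub, mul_one, hpD, sub_self, mul_zero]
  have hX : D * v = v * D := by
    have : D * v = D * v * D + D * v * (1 - D) := by noncomm_ring
    rw [this, hX1, hX2, add_zero]
  have hX' : star v * D = D * star v := by
    have := congrArg star hX
    rwa [star_mul, star_mul, hDs] at this
  -- `D = (1 - q) + v D v*`
  have hF : (1 - q) + v * D * star v = D := by
    have e1 : D * ((1 - q) + v * D * star v - D) = 0 := by
      refine hk _ (fun i => ?_)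
      rcases i with _ | i
      · rw [mul_sub, mul_add, hpD, ← mul_assoc, ← mul_assoc, hpv0, zero_mul, zero_mul, hp0, hrr,
          add_zero, sub_self]
      · have e4 : p (i + 1) * (1 - q) = 0 := by rw [← hp0]; exact hpo _ _ (by omega)
        rw [mul_sub, mul_add, hpD, ← mul_assoc, ← mul_assoc, hpv, e4, zero_add, mul_assoc v, hpD,
          hps, sub_self]
    have e2 : D * ((1 - q) + v * D * star v) = (1 - q) + v * D * star v := by
      rw [mul_add, hDr, ← mul_assoc, ← mul_assoc, hX1]
    rw [mul_sub, e2, hDD, sub_eq_zero] at e1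
    exact e1
  refine ⟨v * D + (1 - D), add_mem (mul_mem hv hDA) (sub_mem (one_mem A) hDA), ?_, ?_⟩
  · rw [star_add, star_mul, hDs, star_sub, star_one, hDs]
    have e1 : (1 - D) * (v * D) = 0 := by
      rw [← hX, sub_mul, one_mul, ← mul_assoc, hDD, sub_self]
    have e2 : D * star v * (1 - D) = 0 := by
      rw [← hX', mul_assoc, mul_sub, mul_one, hDD, sub_self, mul_zero]
    have e3 : (1 - D) * (1 - D) = 1 - D := by
      have : (1 - D) * (1 - D) = 1 - D - D + D * D := by noncomm_ring
      rw [this, hDD]; abel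
    have e4 : D * star v * (v * D) = D := by
      calc D * star v * (v * D) = D * (star v * v) * D := by noncomm_ring
        _ = D := by rw [h1, mul_one, hDD]
    rw [add_mul, mul_add, mul_add, e1, e2, e3, e4]
    abel
  · rw [star_add, star_mul, hDs, star_sub, star_one, hDs]
    have e1 : v * D * (1 - D) = 0 := by rw [mul_assoc, mul_sub, mul_one, hDD, sub_self, mul_zero]
    have e2 : (1 - D) * (D * star v) = 0 := by
      rw [← mul_assoc, sub_mul, one_mul, hDD, sub_self, zero_mul]
    have e3 : (1 - D) * (1 - D) = 1 - D := by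
      have : (1 - D) * (1 - D) = 1 - D - D + D * D := by noncomm_ring
      rw [this, hDD]; abel
    have e4 : v * D * (D * star v) = v * D * star v := by
      calc v * D * (D * star v) = v * (D * D) * star v := by noncomm_ring
        _ = _ := by rw [hDD]
    rw [add_mul, mul_add, mul_add, e1, e2, e3, e4, add_zero, zero_add]
    have e5 : v * D * star v = D - (1 - q) := (sub_eq_of_eq_add' hF.symm).symm
    rw [e5]
    abel

theorem hZ : S_ZSUM := Pool.Agent.W978.WD.ZSUM.p_ZSUM Pool.Agent.W196.WD.p_CPT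

/-- a projection `q` that contains an isometry of the algebra is equivalent to `1` -/
theorem sb (A : VonNeumannAlgebra K) (q v : K →L[ℂ] K) (hq : q ∈ A)
    (hqs : star q = q) (hqq : q * q = q) (hv : v ∈ A) (h1 : star v * v = 1) (h2 : q * v = v) :
    ∃ V ∈ A, star V * V = 1 ∧ V * star V = q := sb' hZ A q v hq hqs hqq hv h1 h2

/-- in a factor on a separable space, a nonzero projection that contains infinitely many orthogonal
copies of itself is equivalent to `1` -/
theorem sbf [TopologicalSpace.SeparableSpace K] (A : VonNeumannAlgebra K) (hA : Factor A)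
    (q : K →L[ℂ] K) (hq : q ∈ A) (hqs : star q = q) (hqq : q * q = q) (hq0 : q ≠ 0)
    (w : ℕ → (K →L[ℂ] K)) (hw : ∀ n, w n ∈ A) (h1 : ∀ n, star (w n) * w n = q)
    (h2 : ∀ m n, m ≠ n → star (w m) * w n = 0) (h3 : ∀ n, q * w n = w n) :
    ∃ V ∈ A, star V * V = 1 ∧ V * star V = q := by
  have hcmp : S_CMP := Pool.Agent.W67.WD.p_CMP Pool.Agent.W395.WD.p_LOC hZ
  have habs : S_ABS := Pool.Agent.W85.WDX.p_ABS hZ hcmp
  obtain ⟨v, hv, hv1, hv2⟩ := habs K A hA q hq 1 (one_mem A) q hq ⟨hqs, hqq⟩
    ⟨star_one _, one_mul _⟩ ⟨hqs, hqq⟩ hq0 w hw h1 h2 h3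
  exact sb A q v hq hqs hqq hv hv1 hv2

/-- the same with the copies indexed by a larger set of a general nonzero projection `r` -/
theorem sbf' [TopologicalSpace.SeparableSpace K] (A : VonNeumannAlgebra K) (hA : Factor A)
    (q r : K →L[ℂ] K) (hq : q ∈ A) (hqs : star q = q) (hqq : q * q = q)
    (hr : r ∈ A) (hrs : star r = r) (hrr : r * r = r) (hr0 : r ≠ 0)
    (w : ℕ → (K →L[ℂ] K)) (hw : ∀ n, w n ∈ A) (h1 : ∀ n, star (w n) * w n = r)
    (h2 : ∀ m n, m ≠ n → star (w m) * w n = 0) (h3 : ∀ n, q * w n = w n) :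
    ∃ V ∈ A, star V * V = 1 ∧ V * star V = q := by
  have hcmp : S_CMP := Pool.Agent.W67.WD.p_CMP Pool.Agent.W395.WD.p_LOC hZ
  have habs : S_ABS := Pool.Agent.W85.WDX.p_ABS hZ hcmp
  obtain ⟨v, hv, hv1, hv2⟩ := habs K A hA q hq 1 (one_mem A) r hr ⟨hqs, hqq⟩
    ⟨star_one _, one_mul _⟩ ⟨hrs, hrr⟩ hr0 w hw h1 h2 h3
  exact sb A q v hq hqs hqq hv hv1 hv2

end

end Pool.Agent.H75.BC.SB
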