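import Pool.Agent.H75.BC.Stmts5
import Pool.Agent.H75.L.W638.CB.A6

/-!
U1: truncation of near-eigen elements (`S_Tr`), with constant `3`.
-/

set_option autoImplicit false
set_option linter.unusedSectionVars false
set_option linter.unusedSimpArgs false
set_option linter.deprecated false

open Complex Filter Topology
open scoped InnerProductSpace

namespace Pool.Agent.H75.BC.Tr

open Pool.Agent.W662.CB Pool.Agent.H75.BC

noncomputable section

variable {H : Type} [NormedAddCommGroup H] [InnerProductSpace ℂ H] [CompleteSpace H]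

/-- the twisted functional `a φ - c φ a` -/
def DL (ξ : H) (c : ℝ) (a x : H →L[ℂ] H) : ℂ := vst ξ (x * a) - (c : ℂ) * vst ξ (a * x)

theorem vst_bound (ξ : H) (x : H →L[ℂ] H) : ‖vst ξ x‖ ≤ ‖x‖ * ‖ξ‖ ^ 2 := by
  unfold vst
  calc ‖⟪ξ, x ξ⟫_ℂ‖ ≤ ‖ξ‖ * ‖x ξ‖ := norm_inner_le_norm _ _
    _ ≤ ‖ξ‖ * (‖x‖ * ‖ξ‖) := mul_le_mul_of_nonneg_left (x.le_opNorm ξ) (norm_nonneg _)
    _ = _ := by ring

theorem vst_star (ξ : H) (x : H →L[ℂ] H) : vst ξ (star x) = (starRingEnd ℂ) (vst ξ x) := by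
  unfold vst
  rw [ContinuousLinearMap.star_eq_adjoint, ContinuousLinearMap.adjoint_inner_right,
    inner_conj_symm]

theorem DL_bound (ξ : H) (c : ℝ) (a x : H →L[ℂ] H) :
    ‖DL ξ c a x‖ ≤ ‖x‖ * (‖a‖ * ‖ξ‖ ^ 2 * (1 + |c|)) := by
  unfold DL
  have h1 := vst_bound ξ (x * a)
  have h2 := vst_bound ξ (a * x)
  have h3 : ‖x * a‖ ≤ ‖x‖ * ‖a‖ := norm_mul_le _ _
  have h4 : ‖a * x‖ ≤ ‖a‖ * ‖x‖ := norm_mul_le _ _
  have h5 : ‖vst ξ (x * a)‖ ≤ ‖x‖ * ‖a‖ * ‖ξ‖ ^ 2 :=
    h1.trans (mul_le_mul_of_nonneg_right h3 (by positivity))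
  have h6 : ‖vst ξ (a * x)‖ ≤ ‖a‖ * ‖x‖ * ‖ξ‖ ^ 2 :=
    h2.trans (mul_le_mul_of_nonneg_right h4 (by positivity))
  calc ‖vst ξ (x * a) - (c : ℂ) * vst ξ (a * x)‖
      ≤ ‖vst ξ (x * a)‖ + ‖(c : ℂ) * vst ξ (a * x)‖ := norm_sub_le _ _
    _ = ‖vst ξ (x * a)‖ + |c| * ‖vst ξ (a * x)‖ := by
        rw [norm_mul, Complex.norm_real, Real.norm_eq_abs]
    _ ≤ ‖x‖ * ‖a‖ * ‖ξ‖ ^ 2 + |c| * (‖a‖ * ‖x‖ * ‖ξ‖ ^ 2) :=
        add_le_add h5 (mul_le_mul_of_nonneg_left h6 (abs_nonneg _))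
    _ = _ := by ring

theorem fn_bdd (N : VonNeumannAlgebra H) (ξ : H) (c : ℝ) (a : H →L[ℂ] H) :
    BddAbove {r : ℝ | ∃ x : H →L[ℂ] H, x ∈ N ∧ ‖x‖ ≤ 1 ∧
      r = ‖vst ξ (x * a) - (c : ℂ) * vst ξ (a * x)‖} := by
  refine ⟨‖a‖ * ‖ξ‖ ^ 2 * (1 + |c|), ?_⟩
  rintro r ⟨x, -, hx1, rfl⟩
  refine (DL_bound ξ c a x).trans ?_
  calc ‖x‖ * (‖a‖ * ‖ξ‖ ^ 2 * (1 + |c|)) ≤ 1 * (‖a‖ * ‖ξ‖ ^ 2 * (1 + |c|)) :=
        mul_le_mul_of_nonneg_right hx1 (by positivity)
    _ = _ := one_mul _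

theorem fn_nonneg (N : VonNeumannAlgebra H) (ξ : H) (c : ℝ) (a : H →L[ℂ] H) :
    0 ≤ fnorm N ξ c a := by
  refine Real.sSup_nonneg ?_
  rintro r ⟨x, -, -, rfl⟩
  exact norm_nonneg _

theorem fn_le (N : VonNeumannAlgebra H) (ξ : H) (c : ℝ) (a : H →L[ℂ] H) (B : ℝ) (hB : 0 ≤ B)
    (h : ∀ x : H →L[ℂ] H, x ∈ N → ‖x‖ ≤ 1 → ‖DL ξ c a x‖ ≤ B) : fnorm N ξ c a ≤ B := by
  refine Real.sSup_le ?_ hB
  rintro r ⟨x, hx, hx1, rfl⟩
  exact h x hx hx1

theorem DL_smul_right (ξ : H) (c : ℝ) (r : ℂ) (a x : H →L[ℂ] H) :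
    DL ξ c a (r • x) = r * DL ξ c a x := by
  unfold DL
  rw [mul_smul_comm, smul_mul_assoc, Pool.Agent.W638.CB.vst_smul, Pool.Agent.W638.CB.vst_smul]
  ring

theorem DL_smul_left (ξ : H) (c : ℝ) (r : ℂ) (a x : H →L[ℂ] H) :
    DL ξ c (r • a) x = r * DL ξ c a x := by
  unfold DL
  rw [mul_smul_comm, smul_mul_assoc, Pool.Agent.W638.CB.vst_smul, Pool.Agent.W638.CB.vst_smul]
  ring

/-- the functional is bounded by `fnorm` -/
theorem DL_le (N : VonNeumannAlgebra H) (ξ : H) (c : ℝ) (a x : H →L[ℂ] H) (hx : x ∈ N) :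
    ‖DL ξ c a x‖ ≤ ‖x‖ * fnorm N ξ c a := by
  rcases eq_or_ne ‖x‖ 0 with h0 | h0
  · have hx0 : x = 0 := norm_eq_zero.1 h0
    subst hx0
    simp [DL, vst]
  · have hpos : 0 < ‖x‖ := lt_of_le_of_ne (norm_nonneg _) (Ne.symm h0)
    set r : ℂ := ((‖x‖⁻¹ : ℝ) : ℂ) with hr
    have hrx : ‖r • x‖ ≤ 1 := by
      rw [norm_smul, hr, Complex.norm_real, Real.norm_of_nonneg (inv_nonneg.2 hpos.le),
        inv_mul_cancel₀ h0]
    have hm : r • x ∈ N := Pool.Agent.W638.CB.smul_mem' N r x hx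
    have h1 : ‖DL ξ c a (r • x)‖ ≤ fnorm N ξ c a :=
      le_csSup (fn_bdd N ξ c a) ⟨r • x, hm, hrx, rfl⟩
    rw [DL_smul_right, norm_mul, hr, Complex.norm_real,
      Real.norm_of_nonneg (inv_nonneg.2 hpos.le)] at h1
    calc ‖DL ξ c a x‖ = ‖x‖ * (‖x‖⁻¹ * ‖DL ξ c a x‖) := by
          rw [← mul_assoc, mul_inv_cancel₀ h0, one_mul]
      _ ≤ _ := mul_le_mul_of_nonneg_left h1 hpos.le

/-- the twisted derivation of the adjoint -/
theorem DL_adj (ξ : H) (l : ℝ) (b w : H →L[ℂ] H) :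
    (l : ℂ) * vst ξ (w * star b) - vst ξ (star b * w) = -(starRingEnd ℂ) (DL ξ l b (star w)) := by
  unfold DL
  rw [map_sub, map_mul, Complex.conj_ofReal, ← vst_star, ← vst_star, star_mul, star_mul, star_star]
  ring

theorem DL_inv (ξ : H) (l : ℝ) (b g y : H →L[ℂ] H) (h1 : (1 + star b * b) * g = 1)
    (h2 : g * (1 + star b * b) = 1) :
    vst ξ (y * g) - vst ξ (g * y) =
      -(DL ξ l b (g * y * g * star b)) + (starRingEnd ℂ) (DL ξ l b (star (b * (g * y * g)))) := by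
  have e1 : y * g = (g * y * g) + (star b * b) * (g * y * g) := by
    calc y * g = ((1 + star b * b) * g) * y * g := by rw [h1, one_mul]
      _ = (1 + star b * b) * (g * y * g) := by simp only [mul_assoc]
      _ = _ := by rw [add_mul, one_mul]
  have e2 : g * y = (g * y * g) + (g * y * g) * (star b * b) := by
    calc g * y = g * y * (g * (1 + star b * b)) := by rw [h2, mul_one]
      _ = (g * y * g) * (1 + star b * b) := by simp only [mul_assoc]
      _ = _ := by rw [mul_add, mul_one]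
  have f1 : vst ξ (y * g) = vst ξ (g * y * g) + vst ξ (star b * (b * (g * y * g))) := by
    rw [← Pool.Agent.W638.CB.vst_add, ← mul_assoc (star b) b, ← e1]
  have f2 : vst ξ (g * y) = vst ξ (g * y * g) + vst ξ ((g * y * g * star b) * b) := by
    rw [← Pool.Agent.W638.CB.vst_add, mul_assoc (g * y * g) (star b) b, ← e2]
  have f3 := DL_adj ξ l b (b * (g * y * g))
  have f4 : DL ξ l b (g * y * g * star b) =
      vst ξ ((g * y * g * star b) * b) - (l : ℂ) * vst ξ ((b * (g * y * g)) * star b) := by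
    unfold DL
    simp only [mul_assoc]
  have f5 : (starRingEnd ℂ) (DL ξ l b (star (b * (g * y * g)))) =
      vst ξ (star b * (b * (g * y * g))) - (l : ℂ) * vst ξ ((b * (g * y * g)) * star b) := by
    linear_combination f3
  rw [f1, f2, f4, f5]
  ring

theorem tr : S_Tr := by
  intro H _ _ _ N ξ hξ l hl
  refine ⟨3, by norm_num, ?_⟩
  intro a L ha hL
  set r : ℂ := ((L⁻¹ : ℝ) : ℂ) with hr
  set b : H →L[ℂ] H := r • a with hb
  have hLC : (L : ℂ) ≠ 0 := by exact_mod_cast hL.ne'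
  have hab : a = (L : ℂ) • b := by
    rw [hb, smul_smul, hr, Complex.ofReal_inv, mul_inv_cancel₀ hLC, one_smul]
  have hsb : star b = r • star a := by
    rw [hb, star_smul, hr]
    simp
  obtain ⟨g, g1, g2, g3, g4, g5, g6⟩ := Pool.Agent.W638.CB.res_exists b
  have hbN : b ∈ N := Pool.Agent.W638.CB.smul_mem' N r a ha
  have hsbN : star b ∈ N := star_mem hbN
  have hgN : g ∈ N :=
    Pool.Agent.W638.CB.inv_mem' N _ g (add_mem (one_mem N) (mul_mem hsbN hbN)) g1 g2
  have hag : ‖a * g‖ ≤ L / 2 := by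
    rw [hab, smul_mul_assoc, norm_smul, Complex.norm_real, Real.norm_of_nonneg hL.le]
    calc L * ‖b * g‖ ≤ L * (1 / 2) := mul_le_mul_of_nonneg_left g5 hL.le
      _ = L / 2 := by ring
  have hrn : ‖r‖ = L⁻¹ := by
    rw [hr, Complex.norm_real, Real.norm_of_nonneg (inv_nonneg.2 hL.le)]
  have hF := fn_nonneg N ξ l a
  have g5' : ‖b * g‖ ≤ 1 := by linarith
  refine ⟨a * g, mul_mem ha hgN, by linarith, ?_, ?_⟩
  · refine fn_le N ξ l (a * g) _ (by linarith) ?_
    intro x hx hx1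
    have e1 := DL_inv ξ l b g (x * a) g1 g2
    have e0 : DL ξ l (a * g) x = (vst ξ (x * a * g) - vst ξ (g * (x * a))) + DL ξ l a (g * x) := by
      unfold DL
      simp only [mul_assoc]
      ring
    have n1 : ‖DL ξ l a (g * (x * a) * g * star b)‖ ≤ L * fnorm N ξ l a := by
      have m1 : g * (x * a) * g * star b ∈ N :=
        mul_mem (mul_mem (mul_mem hgN (mul_mem hx ha)) hgN) hsbN
      refine (DL_le N ξ l a _ m1).trans ?_
      refine mul_le_mul_of_nonneg_right ?_ hF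
      have e4 : g * (x * a) * g * star b = (L : ℂ) • (g * x * (b * g * star b)) := by
        rw [hab]
        simp only [mul_smul_comm, smul_mul_assoc, mul_assoc]
      rw [e4, norm_smul, Complex.norm_real, Real.norm_of_nonneg hL.le]
      calc L * ‖g * x * (b * g * star b)‖ ≤ L * (‖g‖ * ‖x‖ * ‖b * g * star b‖) := by
            refine mul_le_mul_of_nonneg_left ?_ hL.le
            refine (norm_mul_le _ _).trans ?_
            exact mul_le_mul_of_nonneg_right (norm_mul_le _ _) (norm_nonneg _)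
        _ ≤ L * (1 * 1 * 1) := by
            refine mul_le_mul_of_nonneg_left ?_ hL.le
            exact mul_le_mul (mul_le_mul g4 hx1 (norm_nonneg _) zero_le_one) g6
              (norm_nonneg _) (by norm_num)
        _ = L := by ring
    have n2 : ‖DL ξ l a (star (b * (g * (x * a) * g)))‖ ≤ L * fnorm N ξ l a := by
      have m1 : star (b * (g * (x * a) * g)) ∈ N :=
        star_mem (mul_mem hbN (mul_mem (mul_mem hgN (mul_mem hx ha)) hgN))
      refine (DL_le N ξ l a _ m1).trans ?_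
      refine mul_le_mul_of_nonneg_right ?_ hF
      rw [norm_star]
      have e4 : b * (g * (x * a) * g) = (L : ℂ) • ((b * g) * x * (b * g)) := by
        rw [hab]
        simp only [mul_smul_comm, smul_mul_assoc, mul_assoc]
      rw [e4, norm_smul, Complex.norm_real, Real.norm_of_nonneg hL.le]
      calc L * ‖(b * g) * x * (b * g)‖ ≤ L * (‖b * g‖ * ‖x‖ * ‖b * g‖) := by
            refine mul_le_mul_of_nonneg_left ?_ hL.le
            refine (norm_mul_le _ _).trans ?_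
            exact mul_le_mul_of_nonneg_right (norm_mul_le _ _) (norm_nonneg _)
        _ ≤ L * (1 * 1 * 1) := by
            refine mul_le_mul_of_nonneg_left ?_ hL.le
            exact mul_le_mul (mul_le_mul g5' hx1 (norm_nonneg _) zero_le_one) g5'
              (norm_nonneg _) (by norm_num)
        _ = L := by ring
    have n3 : ‖DL ξ l a (g * x)‖ ≤ fnorm N ξ l a := by
      refine (DL_le N ξ l a _ (mul_mem hgN hx)).trans ?_
      have : ‖g * x‖ ≤ 1 := by
        refine (norm_mul_le _ _).trans ?_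
        calc ‖g‖ * ‖x‖ ≤ 1 * 1 := mul_le_mul g4 hx1 (norm_nonneg _) zero_le_one
          _ = 1 := by ring
      calc ‖g * x‖ * fnorm N ξ l a ≤ 1 * fnorm N ξ l a :=
            mul_le_mul_of_nonneg_right this hF
        _ = fnorm N ξ l a := one_mul _
    have n4 : ‖DL ξ l b (g * (x * a) * g * star b)‖ ≤ fnorm N ξ l a := by
      have : DL ξ l b (g * (x * a) * g * star b) = r * DL ξ l a (g * (x * a) * g * star b) := by
        rw [hb, DL_smul_left]
      rw [this, norm_mul, hrn]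
      calc L⁻¹ * ‖DL ξ l a (g * (x * a) * g * star b)‖ ≤ L⁻¹ * (L * fnorm N ξ l a) :=
            mul_le_mul_of_nonneg_left n1 (inv_nonneg.2 hL.le)
        _ = fnorm N ξ l a := by field_simp
    have n5 : ‖DL ξ l b (star (b * (g * (x * a) * g)))‖ ≤ fnorm N ξ l a := by
      have : DL ξ l b (star (b * (g * (x * a) * g))) =
          r * DL ξ l a (star (b * (g * (x * a) * g))) := by
        rw [← DL_smul_left]
      rw [this, norm_mul, hrn]
      calc L⁻¹ * ‖DL ξ l a (star (b * (g * (x * a) * g)))‖ ≤ L⁻¹ * (L * fnorm N ξ l a) :=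
            mul_le_mul_of_nonneg_left n2 (inv_nonneg.2 hL.le)
        _ = fnorm N ξ l a := by field_simp
    rw [e0, e1]
    have n6 : ‖(starRingEnd ℂ) (DL ξ l b (star (b * (g * (x * a) * g))))‖ ≤ fnorm N ξ l a := by
      rw [RCLike.norm_conj]; exact n5
    calc ‖-(DL ξ l b (g * (x * a) * g * star b)) +
          (starRingEnd ℂ) (DL ξ l b (star (b * (g * (x * a) * g)))) + DL ξ l a (g * x)‖
        ≤ ‖-(DL ξ l b (g * (x * a) * g * star b)) +
          (starRingEnd ℂ) (DL ξ l b (star (b * (g * (x * a) * g))))‖ + ‖DL ξ l a (g * x)‖ :=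
          norm_add_le _ _
      _ ≤ (‖DL ξ l b (g * (x * a) * g * star b)‖ +
          ‖(starRingEnd ℂ) (DL ξ l b (star (b * (g * (x * a) * g))))‖) + ‖DL ξ l a (g * x)‖ := by
          refine add_le_add ?_ le_rfl
          refine (norm_add_le _ _).trans ?_
          rw [norm_neg]
      _ ≤ 3 * fnorm N ξ l a := by linarith
  · intro v
    have hcomm : g * (star b * b) = (star b * b) * g := by
      have e1 : g + g * (star b * b) = 1 := by
        rw [mul_add, mul_one] at g2; exact g2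
      have e2 : g + (star b * b) * g = 1 := by
        rw [add_mul, one_mul] at g1; exact g1
      exact add_left_cancel (e1.trans e2.symm)
    have e3 : a - a * g = (a * g) * (star b * b) := by
      have e2 : g + (star b * b) * g = 1 := by
        rw [add_mul, one_mul] at g1; exact g1
      rw [mul_assoc, hcomm]
      nth_rewrite 1 [← mul_one a]
      rw [← e2, mul_add]
      abel
    have e4 : star b * b = ((L⁻¹ ^ 2 : ℝ) : ℂ) • (star a * a) := by
      rw [hsb, hb, smul_mul_smul_comm, hr, ← Complex.ofReal_mul, sq]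
    rw [e3, e4]
    show ‖(a * g) (((L⁻¹ ^ 2 : ℝ) : ℂ) • (star a * a) v)‖ ≤ _
    rw [map_smul, norm_smul, Complex.norm_real, Real.norm_of_nonneg (by positivity)]
    calc L⁻¹ ^ 2 * ‖(a * g) ((star a * a) v)‖ ≤ L⁻¹ ^ 2 * (‖a * g‖ * ‖(star a * a) v‖) :=
          mul_le_mul_of_nonneg_left (ContinuousLinearMap.le_opNorm _ _) (by positivity)
      _ ≤ L⁻¹ ^ 2 * (L / 2 * ‖(star a * a) v‖) := by
          refine mul_le_mul_of_nonneg_left ?_ (by positivity)
          exact mul_le_mul_of_nonneg_right hag (norm_nonneg _)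
      _ = ‖(star a * a) v‖ / (2 * L) := by
          field_simp

end

end Pool.Agent.H75.BC.Tr
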